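import Pool.Agent.Lib.MP_62a5ad_mp.QN.SpecF

set_option autoImplicit false

namespace Pool.Agent.MP62a5ad.QN

open Matrix
open scoped ContDiff Topology

namespace AbsAux

section

variable {ι : Type} [Fintype ι]

/-- A real vector as a complex vector. -/
def cv (v : ι → ℝ) : ι → ℂ := fun i => ((v i : ℝ) : ℂ)

theorem rc_mulVec {κ : Type} (A : Matrix κ ι ℝ) (v : ι → ℝ) :
    rc A *ᵥ cv v = cv (A *ᵥ v) := by
  funext i
  simp [rc, cv, mulVec, dotProduct]

theorem re_form (A : Matrix ι ι ℂ) (v w : ι → ℝ) :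
    (cv v ⬝ᵥ (A *ᵥ cv w)).re = ∑ i, v i * ∑ j, (A i j).re * w j := by
  simp only [dotProduct, mulVec, cv, Complex.re_sum, Complex.re_ofReal_mul,
    Complex.re_mul_ofReal]

theorem im_form (A : Matrix ι ι ℂ) (v w : ι → ℝ) :
    (cv v ⬝ᵥ (A *ᵥ cv w)).im = ∑ i, v i * ∑ j, (A i j).im * w j := by
  simp only [dotProduct, mulVec, cv, Complex.im_sum, Complex.im_ofReal_mul,
    Complex.im_mul_ofReal]

theorem omt_form (T0 : Matrix ι ι ℝ) (J : (ι → ℝ) → Matrix ι ι ℂ) (τ : ℝ) (y v w : ι → ℝ) :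
    v ⬝ᵥ (omt T0 J τ y *ᵥ w) = (cv v ⬝ᵥ (om T0 J y *ᵥ cv w)).re -
      τ * (cv v ⬝ᵥ (om T0 J y *ᵥ cv w)).im := by
  rw [re_form, im_form, Finset.mul_sum, ← Finset.sum_sub_distrib, dotProduct]
  refine Finset.sum_congr rfl fun i _ => ?_
  rw [← mul_assoc, mul_comm τ (v i), mul_assoc, ← mul_sub, Finset.mul_sum,
    ← Finset.sum_sub_distrib]
  congr 1
  refine Finset.sum_congr rfl fun j _ => ?_
  show ((om T0 J y i j).re - τ * (om T0 J y i j).im) * w j = _
  ring

theorem re_im (A : Matrix ι ι ℂ) :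
    rc (A.map Complex.re) + Complex.I • rc (A.map Complex.im) = A := by
  ext i j
  simp only [rc, Matrix.add_apply, Matrix.smul_apply, Matrix.map_apply, smul_eq_mul]
  rw [mul_comm]
  exact Complex.re_add_im _

end

section

variable {ι : Type} [Fintype ι] [DecidableEq ι]

theorem smpd {U : Set (ι → ℝ)} {G : (ι → ℝ) → ℝ} (hU : IsOpen U) (hG : ContDiffOn ℝ ∞ G U)
    (j : ι) : ContDiffOn ℝ ∞ (fun y => pd G j y) U := by
  have h1 : ContDiffOn ℝ ∞ (fderiv ℝ G) U := hG.fderiv_of_isOpen hU (by simp)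
  exact h1.clm_apply contDiffOn_const

theorem det_cont {κ : Type} [Fintype κ] [DecidableEq κ] {U : Set (ι → ℝ)}
    {A : (ι → ℝ) → Matrix κ κ ℝ} (h : ∀ i j, ContinuousOn (fun y => A y i j) U) :
    ContinuousOn (fun y => (A y).det) U := by
  have h1 : ContinuousOn A U := continuousOn_pi.2 fun i => continuousOn_pi.2 fun j => h i j
  exact (continuous_id.matrix_det).comp_continuousOn h1

/-- The derivative is the Jacobi matrix. -/
theorem fd_eq {f : (ι → ℝ) → ι → ℝ} {y : ι → ℝ} (hf : DifferentiableAt ℝ f y) (v : ι → ℝ) :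
    fderiv ℝ f y v = Jm f y *ᵥ v := by
  have h1 : ∀ i, HasFDerivAt (fun x => f x i)
      ((ContinuousLinearMap.proj i : (ι → ℝ) →L[ℝ] ℝ).comp (fderiv ℝ f y)) y :=
    hasFDerivAt_pi'.1 hf.hasFDerivAt
  have h2 : ∀ i j, Jm f y i j = fderiv ℝ f y (Pi.single j 1) i := by
    intro i j
    rw [Jm, of_apply, pd, (h1 i).fderiv]
    rfl
  have h3 : v = ∑ j, v j • (Pi.single j 1 : ι → ℝ) := by
    funext k
    simp [Finset.sum_apply, Pi.single_apply]
  funext i
  conv_lhs => rw [h3]
  rw [map_sum, Finset.sum_apply]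
  simp only [mulVec, dotProduct]
  refine Finset.sum_congr rfl fun j _ => ?_
  rw [map_smul, h2, Pi.smul_apply, smul_eq_mul, mul_comm]

/-- A map with an invertible Jacobi matrix is open at the point. -/
theorem open_at {f : (ι → ℝ) → ι → ℝ} {U : Set (ι → ℝ)} {y : ι → ℝ} (hU : IsOpen U)
    (hy : y ∈ U) (hf : ContDiffOn ℝ ∞ f U) (hd : (Jm f y).det ≠ 0) :
    Filter.map f (𝓝 y) = 𝓝 (f y) := by
  have h1 : ContDiffAt ℝ ∞ f y := hf.contDiffAt (hU.mem_nhds hy)
  have h2 : HasStrictFDerivAt f (fderiv ℝ f y) y := h1.hasStrictFDerivAt (by simp)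
  have h3 : DifferentiableAt ℝ f y := h1.differentiableAt (by simp)
  refine h2.map_nhds_eq_of_surj ?_
  rw [LinearMap.range_eq_top]
  intro w
  refine ⟨(Jm f y)⁻¹ *ᵥ w, ?_⟩
  have h4 : fderiv ℝ f y ((Jm f y)⁻¹ *ᵥ w) = Jm f y *ᵥ ((Jm f y)⁻¹ *ᵥ w) := fd_eq h3 _
  rw [mulVec_mulVec, mul_nonsing_inv _ (isUnit_iff_ne_zero.2 hd), one_mulVec] at h4
  exact h4

end

end AbsAux

open AbsAux in
/-- **Abs**. The abstract integrability theorem. -/
theorem tAbs (hCh : S_Ch) (hBkA : S_BkA) (hBkJ : S_BkJ) (hClo : S_Clo) (hNdC : S_NdC)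
    (hLgC : S_LgC) (hLgR : S_LgR) (hInvC : S_InvC) (hInvR : S_InvR) (hTau : S_Tau) : S_Abs := by
  intro ι _ _ p q U f J P0 T0 F a S
  obtain ⟨ch1, -, -, -, -, -⟩ := hCh ι
  set F₀ : Fin p → (ι → ℝ) → ℝ := fst p q F with hF₀
  have hfst : ∀ y, Matrix.of (fst p q (gZ F y)) = gZ F₀ y := fun y => rfl
  have hdF0 : ∀ y ∈ U, rc (gZ F₀ y) = Matrix.of (fst p q (a y)) * J y := by
    intro y hy
    ext i j
    have h1 := congrFun (congrFun (S.dF y hy) (Fin.castAdd q i)) j
    exact h1
  have hnd : ∀ y ∈ U, (blk (rc ((om T0 J y).map Complex.re) +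
      Complex.I • rc ((om T0 J y).map Complex.im)) (rc (gZ F₀ y))).det ≠ 0 := by
    intro y hy
    rw [re_im, hdF0 y hy]
    exact hNdC ι p q P0 T0 (a y) (J y) S.card S.skP S.ptp S.rank (S.ind y hy) (S.cas y hy)
      (S.detJ y hy)
  obtain ⟨τ, hτ⟩ := hTau ι (Fin p) U (fun y => (om T0 J y).map Complex.re)
    (fun y => (om T0 J y).map Complex.im) (fun y => gZ F₀ y) S.isOpen hnd
  have homt : ∀ y, (om T0 J y).map Complex.re - τ • (om T0 J y).map Complex.im =
      omt T0 J τ y := by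
    intro y
    ext i j
    simp only [omt, Matrix.sub_apply, Matrix.smul_apply, Matrix.map_apply, Matrix.of_apply,
      smul_eq_mul]
  obtain ⟨c1, c2, c3⟩ := hClo ι U J T0 τ S.isOpen S.smJ S.clo S.skT
  have smF0 : ∀ i, ContDiffOn ℝ ∞ (F₀ i) U := fun i => S.smF _
  -- the domain
  set V : Set (ι → ℝ) := {y | y ∈ U ∧ (blk (omt T0 J τ y) (gZ F₀ y)).det ≠ 0} with hV
  have hVU : V ⊆ U := fun y hy => hy.1
  have hcont : ContinuousOn (fun y => (blk (omt T0 J τ y) (gZ F₀ y)).det) U := by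
    refine det_cont fun i j => ?_
    rcases i with i | i <;> rcases j with j | j
    · exact (c1 i j).continuousOn
    · exact ((smpd S.isOpen (smF0 j) i).continuousOn).neg
    · exact (smpd S.isOpen (smF0 i) j).continuousOn
    · exact continuousOn_const
  have hVo : IsOpen V := by
    exact hcont.isOpen_inter_preimage S.isOpen (isOpen_ne (x := (0 : ℝ)))
  have hVd : Dense V := by
    rw [dense_iff_inter_open]
    intro O hO hne
    obtain ⟨x, hx⟩ := (dense_iff_inter_open.1 S.dense) O hO hne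
    obtain ⟨y, hy, hdet⟩ := hτ O hO ⟨x, hx⟩
    rw [homt] at hdet
    exact ⟨y, hy.1, hy.2, hdet⟩
  have hskew : ∀ y ∈ U, (omt T0 J τ y)ᵀ = -omt T0 J τ y := c2
  -- independence of the gradients
  have hrow : ∀ y ∈ U, ∀ l : Fin (p + q) → ℝ, l ᵥ* gZ F y = 0 → l = 0 := by
    intro y hy l hl
    have h1 : cv l ᵥ* rc (gZ F y) = 0 := by
      funext j
      have h2 := congrFun hl j
      simp only [vecMul, dotProduct, Pi.zero_apply] at h2
      have h3 : (cv l ᵥ* rc (gZ F y)) j = ((∑ i, l i * gZ F y i j : ℝ) : ℂ) := by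
        simp [vecMul, dotProduct, cv, rc]
      rw [h3, h2]
      simp
    rw [S.dF y hy, ← vecMul_vecMul] at h1
    have h4 : cv l ᵥ* a y = 0 := by
      have h5 : (cv l ᵥ* a y) ᵥ* (J y * (J y)⁻¹) = 0 := by
        rw [← vecMul_vecMul, h1, zero_vecMul]
      rwa [mul_nonsing_inv _ (isUnit_iff_ne_zero.2 (S.detJ y hy)), vecMul_one] at h5
    have h6 := Fintype.linearIndependent_iff.1 (S.ind y hy) (cv l) (by
      funext j
      have h7 := congrFun h4 j
      simp only [vecMul, dotProduct, Pi.zero_apply] at h7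
      simp only [Finset.sum_apply, Pi.smul_apply, smul_eq_mul, Pi.zero_apply]
      exact h7)
    funext i
    exact Complex.ofReal_eq_zero.1 (h6 i)
  have hrow0 : ∀ y ∈ U, ∀ l : Fin p → ℝ, (gZ F₀ y)ᵀ *ᵥ l = 0 → l = 0 := by
    intro y hy l hl
    have h1 : (Fin.append l (0 : Fin q → ℝ)) = 0 := by
      refine hrow y hy _ ?_
      funext j
      have h2 := congrFun hl j
      simp only [mulVec, dotProduct, Pi.zero_apply, transpose_apply] at h2
      simp only [vecMul, dotProduct, Pi.zero_apply]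
      rw [Fin.sum_univ_add]
      simp only [Fin.append_left, Fin.append_right, Pi.zero_apply, zero_mul,
        Finset.sum_const_zero, add_zero]
      rw [← h2]
      exact Finset.sum_congr rfl fun i _ => mul_comm _ _
    funext i
    have h3 := congrFun h1 (Fin.castAdd q i)
    rw [Fin.append_left] at h3
    exact h3
  have hform : ∀ y, ∀ v w : ι → ℝ, v ⬝ᵥ (omt T0 J τ y *ᵥ w) =
      (cv v ⬝ᵥ (((J y)ᵀ * rc T0 * J y) *ᵥ cv w)).re -
        τ * (cv v ⬝ᵥ (((J y)ᵀ * rc T0 * J y) *ᵥ cv w)).im := fun y v w => omt_form T0 J τ y v w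
  refine ⟨V, hVU, fun y => bpi (omt T0 J τ y) (gZ F₀ y), ?_⟩
  have hA : ∀ y ∈ V, _ := fun y hy => hBkA ι (Fin p) (omt T0 J τ y) (gZ F₀ y)
    (hskew y hy.1) hy.2
  exact {
    isOpen := hVo
    dense := hVd
    smooth := S.smf.mono hVU
    dense' := by
      rw [dense_iff_inter_open]
      intro O hO hne
      obtain ⟨y, hyO, hyV⟩ := (dense_iff_inter_open.1 hVd) O hO hne
      have h1 := open_at S.isOpen hyV.1 S.smf (S.detf y hyV.1)
      have h2 : f '' (O ∩ V) ∈ 𝓝 (f y) := by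
        rw [← h1]
        exact Filter.image_mem_map ((hO.inter hVo).mem_nhds ⟨hyO, hyV⟩)
      obtain ⟨z, hz, x, hx, rfl⟩ := hVd.inter_nhds_nonempty h2
      exact ⟨x, hx.1, hx.2, hz⟩
    poisson := hBkJ ι (Fin p) V (omt T0 J τ) F₀ hVo (fun i j => (c1 i j).mono hVU)
      (fun y hy => hskew y hy.1) (fun y hy => c3 y hy.1) (fun i => (smF0 i).mono hVU)
      (fun y hy => hy.2)
    rank := by
      intro y hy
      have h1 := (hA y hy).2.2.2.2
      rw [Fintype.card_fin, S.card] at h1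
      omega
    inv := by
      intro y hy hfy
      obtain ⟨K, hK1, hK2⟩ := S.sym y hy.1 hfy.1
      have hfd : DifferentiableAt ℝ f y :=
        (S.smf.contDiffAt (S.isOpen.mem_nhds hy.1)).differentiableAt (by simp)
      have hDF : gZ F₀ (f y) * Jm f y = gZ F₀ y := by
        ext i j
        have hFd : DifferentiableAt ℝ (F₀ i) (f y) :=
          ((smF0 i).contDiffAt (S.isOpen.mem_nhds hfy.1)).differentiableAt (by simp)
        have h1 := ch1 (F₀ i) f y j hFd hfd
        have h2 : (F₀ i ∘ f) =ᶠ[𝓝 y] F₀ i := by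
          have h3 : ∀ᶠ x in 𝓝 y, x ∈ U := S.isOpen.mem_nhds hy.1
          have h4 : ∀ᶠ x in 𝓝 y, f x ∈ U :=
            hfd.continuousAt.eventually (S.isOpen.mem_nhds hfy.1)
          filter_upwards [h3, h4] with x hx hx'
          exact S.invF x hx hx' _
        have h5 : pd (F₀ i ∘ f) j y = pd (F₀ i) j y := by
          rw [pd, pd, h2.fderiv_eq]
        rw [h5] at h1
        rw [Matrix.mul_apply]
        exact h1.symm
      have hind0 : LinearIndependent ℂ (fun i => Matrix.of (fst p q (a y)) i) :=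
        (S.ind y hy.1).comp (Fin.castAdd q) (Fin.castAdd_injective p q)
      refine (hInvR ι (Fin p) (omt T0 J τ y) (omt T0 J τ (f y)) (Jm f y) (gZ F₀ y)
        (gZ F₀ (f y)) (hskew y hy.1) (hskew _ hfy.1) hDF (hrow0 _ hfy.1) ?_ hy.2).2
      intro v w hv hw
      have hk : ∀ v : ι → ℝ, gZ F₀ y *ᵥ v = 0 →
          (Matrix.of (fst p q (a y)) * J y) *ᵥ cv v = 0 := by
        intro v hv
        rw [← hdF0 y hy.1, rc_mulVec, hv]
        funext i
        simp [cv]
      have h1 := hInvC ι p q P0 T0 (Matrix.of (fst p q (a y))) K (J y) (J (f y))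
        (rc (Jm f y)) S.card S.skP S.ptp S.rank hind0 (S.cas y hy.1) hK1 hK2 (cv v) (cv w)
        (hk v hv) (hk w hw)
      rw [rc_mulVec, rc_mulVec] at h1
      rw [hform, hform, h1]
    smoothF := fun i => (S.smF i).mono hVU
    invF := fun i y hy hfy => S.invF y hy.1 hfy.1 i
    indep := by
      intro y hy
      rw [Fintype.linearIndependent_iff]
      intro g hg
      have h1 : g = 0 := by
        refine hrow y hy.1 g ?_
        funext j
        have h2 := congrArg (fun L : (ι → ℝ) →L[ℝ] ℝ => L (Pi.single j 1)) hg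
        simp only [ContinuousLinearMap.sum_apply, ContinuousLinearMap.smul_apply,
          ContinuousLinearMap.zero_apply, smul_eq_mul] at h2
        simp only [vecMul, dotProduct, Pi.zero_apply]
        exact h2
      intro i
      rw [h1]
      rfl
    invol := by
      intro i j y hy
      have hli : LinearIndependent ℝ (fun i => gZ F y i) := by
        rw [Fintype.linearIndependent_iff]
        intro g hg
        have h1 : g = 0 := by
          refine hrow y hy.1 g ?_
          funext j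
          have h2 := congrFun hg j
          simp only [Finset.sum_apply, Pi.smul_apply, smul_eq_mul, Pi.zero_apply] at h2
          simp only [vecMul, dotProduct, Pi.zero_apply]
          exact h2
        intro i
        rw [h1]
        rfl
      have hiso : ∀ v w : ι → ℝ, gZ F y *ᵥ v = 0 → gZ F y *ᵥ w = 0 →
          v ⬝ᵥ (omt T0 J τ y *ᵥ w) = 0 := by
        intro v w hv hw
        have hk : ∀ v : ι → ℝ, gZ F y *ᵥ v = 0 → a y *ᵥ (J y *ᵥ cv v) = 0 := by
          intro v hv
          rw [mulVec_mulVec, ← S.dF y hy.1, rc_mulVec, hv]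
          funext i
          simp [cv]
        have h1 := hLgC ι p q P0 T0 (a y) S.card S.skP S.ptp S.rank (S.ind y hy.1)
          (S.cas y hy.1) (S.inv y hy.1) (J y *ᵥ cv v) (J y *ᵥ cv w) (hk v hv) (hk w hw)
        have h2 : cv v ⬝ᵥ (((J y)ᵀ * rc T0 * J y) *ᵥ cv w) =
            (J y *ᵥ cv v) ⬝ᵥ (rc T0 *ᵥ (J y *ᵥ cv w)) := by
          rw [← mulVec_mulVec, ← mulVec_mulVec, dotProduct_mulVec, vecMul_transpose]
        rw [hform, h2, h1]
        simp
      have h3 := hLgR ι p q (omt T0 J τ y) (gZ F y) S.card (hskew y hy.1) hli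
        (by rw [hfst]; exact hy.2) hiso
      rw [hfst] at h3
      have h4 := congrFun (congrFun h3 i) j
      rw [br, ← show (gZ F y * bpi (omt T0 J τ y) (gZ F₀ y) * (gZ F y)ᵀ) i j = 0 from h4,
        Matrix.mul_apply]
      rw [Finset.sum_comm]
      refine Finset.sum_congr rfl fun l _ => ?_
      rw [Matrix.mul_apply, Finset.sum_mul]
      refine Finset.sum_congr rfl fun k _ => ?_
      show _ = pd (F i) k y * _ * pd (F j) l y
      ring
    casimir := by
      intro i hi y hy k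
      obtain ⟨sk, h1, -, -, -⟩ := hA y hy
      have h2 : bpi (omt T0 J τ y) (gZ F₀ y) * (gZ F₀ y)ᵀ = 0 := by
        have h3 : (gZ F₀ y * bpi (omt T0 J τ y) (gZ F₀ y))ᵀ = 0 := by
          rw [h1, transpose_zero]
        rw [transpose_mul, sk, Matrix.neg_mul, neg_eq_zero] at h3
        exact h3
      have h4 := congrFun (congrFun h2 k) ⟨i, hi⟩
      rw [Matrix.mul_apply] at h4
      exact h4 }

end Pool.Agent.MP62a5ad.QN
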