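import Pool.Agent.Lib.MP_62a5ad_mp.QN.SpecA

/-!
# MP_62a5ad_mp, project QN, module Af: the chain at the half time `τ + 1`
-/

set_option autoImplicit false

namespace Pool.Agent.MP62a5ad.QN

section

variable {K : Type} [Field K]

/-- Linear interpolation. -/
private theorem Af_lin (A B x y z : K) :
    (A * y + B) * (x - z) - (A * z + B) * (x - y) = (y - z) * (A * x + B) := by ring

/-- The two forms of the quotient of a site. -/
private theorem Af_site (x s sh sp shm A B A' B' E χ c R : K) (hs : x - s ≠ 0) (hsh : x - sh ≠ 0)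
    (hsp : x - sp ≠ 0) (hd : shm - s ≠ 0) (hd' : sh - sp ≠ 0)
    (hF : E * ((A' * x + B') * (A * x + B)) = (χ - c) * (x - sh) * (x - s))
    (hR : R * ((x - sh) * (x - s) * (sh - sp)) =
      E * (A' * x + B') * (A * sh + B) * (x - sp)) :
    R = χ - (c - E * (A' * shm + B') * (A * sp + B) / ((sp - sh) * (s - shm))) +
      (-(E * (A * sp + B) * (A' * s + B') / ((shm - s) * (sh - sp)))) * ((x - shm) / (x - s)) ∧
    R * ((x - sh) / (x - sp)) = E * (A * sh + B) * (A' * shm + B') / ((shm - s) * (sh - sp)) -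
      E * (A * sh + B) * (A' * s + B') / ((shm - s) * (sh - sp)) * ((x - shm) / (x - s)) := by
  have hd2 : s - shm ≠ 0 := by
    intro h
    apply hd
    rw [← neg_sub, h, neg_zero]
  have hd2' : sp - sh ≠ 0 := by
    intro h
    apply hd'
    rw [← neg_sub, h, neg_zero]
  have hsum : E * (A' * shm + B') * (A * sp + B) / ((sp - sh) * (s - shm)) =
      E * (A' * shm + B') * (A * sp + B) / ((shm - s) * (sh - sp)) := by
    congr 1
    ring
  have h1 := Af_lin A' B' x shm s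
  have h2 := Af_lin A B x sh sp
  have hm : (x - sh) * (x - s) * (sh - sp) ≠ 0 := mul_ne_zero (mul_ne_zero hsh hs) hd'
  have hR' : R = E * (A' * x + B') * (A * sh + B) * (x - sp) / ((x - sh) * (x - s) * (sh - sp)) := by
    rw [eq_div_iff hm, hR]
  constructor
  · have e1 : (c - E * (A' * shm + B') * (A * sp + B) / ((sp - sh) * (s - shm))) =
        c - E * (A' * shm + B') * (A * sp + B) / ((shm - s) * (sh - sp)) := by rw [hsum]
    rw [e1]
    have e2 : χ - (c - E * (A' * shm + B') * (A * sp + B) / ((shm - s) * (sh - sp))) +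
        (-(E * (A * sp + B) * (A' * s + B') / ((shm - s) * (sh - sp)))) * ((x - shm) / (x - s)) =
        χ - c + E * (A * sp + B) * (A' * x + B') / ((x - s) * (sh - sp)) := by
      have e3 : E * (A * sp + B) * (A' * x + B') / ((x - s) * (sh - sp)) =
          E * (A * sp + B) * ((shm - s) * (A' * x + B')) /
            ((shm - s) * ((x - s) * (sh - sp))) := by
        field_simp
      rw [e3, ← h1]
      field_simp
      ring
    rw [e2]
    have e5 : R * ((x - sh) * (x - s) * (sh - sp)) = (χ - c) * ((x - sh) * (x - s) * (sh - sp)) +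
        E * (A * sp + B) * (A' * x + B') * (x - sh) := by
      linear_combination hR + (sh - sp) * hF + E * (A' * x + B') * h2
    have e6 : E * (A * sp + B) * (A' * x + B') * (x - sh) =
        E * (A * sp + B) * (A' * x + B') / ((x - s) * (sh - sp)) *
          ((x - sh) * (x - s) * (sh - sp)) := by
      field_simp
    apply mul_right_cancel₀ hm
    rw [e5, add_mul, e6]
  · have e3 : R * ((x - sh) / (x - sp)) = E * (A * sh + B) * (A' * x + B') /
        ((x - s) * (sh - sp)) := by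
      rw [hR']
      field_simp
    have e4 : E * (A * sh + B) * (A' * x + B') / ((x - s) * (sh - sp)) =
          E * (A * sh + B) * ((shm - s) * (A' * x + B')) /
            ((shm - s) * ((x - s) * (sh - sp))) := by
        field_simp
    rw [e3, e4, ← h1]
    field_simp

/-- The recurrence from two sites. -/
private theorem Af_two (χ R1 R0 α1 α0 c0 r1 r0 q0 δ0 t1 t0 ρ : K) (hr0 : r0 ≠ 0)
    (b1 : R1 = χ - α1 + r1 * t1) (b0 : R0 = χ - α0 + r0 * t0) (b2 : R0 * t1 = q0 - δ0 * t0)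
    (hq : q0 * r0 = δ0 * (α0 - c0)) (hρ : ρ * r0 = δ0 * r1) :
    R1 * R0 = (χ - (α1 + ρ)) * R0 + ρ * (χ - c0) := by
  apply mul_left_cancel₀ hr0
  linear_combination (r0 * R0) * b1 + (r0 * r1) * b2 + r1 * hq + (R0 - χ + c0) * hρ +
    (r1 * δ0) * b0

variable (w : Fin 4 → K) (D : ℤ → ℤ → Fin 3 → K) (H : ℤ → ℤ → K) (τ m : ℤ)

private def Af_E : K := H (τ - 1) m / w 0

private def Af_d : K := (D (τ - 1) m 0 - D τ m 0) * (D (τ - 1) (m + 1) 0 - D τ (m + 1) 0)

private def Af_r : K :=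
  -(Af_E w H τ m * jv w (D τ m) (D τ (m + 1) 0) * jv w (D (τ - 1) m) (D τ m 0) / Af_d D τ m)

private def Af_q : K :=
  Af_E w H τ m * jv w (D τ m) (D (τ - 1) (m + 1) 0) * jv w (D (τ - 1) m) (D (τ - 1) m 0) /
    Af_d D τ m

private def Af_dl : K :=
  Af_E w H τ m * jv w (D τ m) (D (τ - 1) (m + 1) 0) * jv w (D (τ - 1) m) (D τ m 0) / Af_d D τ m

private def Af_h : K :=
  H τ m * jv w (D τ m) (D (τ - 1) (m + 1) 0) /
    (w 0 * (D (τ - 1) (m + 1) 0 - D τ (m + 1) 0) * gam w D (τ + 1) m)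

end

theorem sAf (_h1 : S_Rel) (h2 : S_Jx) (h3 : S_Nz) (h4 : S_Wv) (h5 : S_Uq) : S_Af := by
  intro K _ w D H τ hw hinj hOk hne
  obtain ⟨n1, n2⟩ := h3 K w D H (τ - 1) (τ + 1) hw hOk
  have hw0 := hw 0
  -- facts for the half time τ - 1
  have fa : ∀ m, cst w D τ m = D (τ - 1) m 2 + D τ m 2 ∧
      jv w (D τ m) (D (τ - 1) (m + 1) 0) ≠ 0 ∧ jv w (D (τ - 1) m) (D τ m 0) ≠ 0 := by
    intro m
    obtain ⟨-, -, -, c4, c5, -, -, -, -, -, -, j12, j13, -, -, -, -, -⟩ :=
      n2 (τ - 1) m le_rfl (by omega)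
    rw [sub_add_cancel] at c4 c5 j12 j13
    exact ⟨c4.trans c5, j12, j13⟩
  have fb : ∀ m, cst w D (τ + 1) m = cst w D τ m ∧ cst w D τ m = D τ m 2 + D (τ + 1) m 2 ∧
      jv w (D τ m) (D τ (m + 1) 0) ≠ 0 ∧ gam w D (τ + 1) m ≠ 0 ∧
      ∀ i, i ≠ 0 → jv w (D τ m) (w i) ≠ 0 := by
    intro m
    obtain ⟨-, -, -, c4, c5, -, -, -, -, -, j11, -, -, -, g15, -, -, l18⟩ :=
      n2 τ m (by omega) (by omega)
    exact ⟨c4, c5, j11, g15, fun i hi => (l18 i hi (hne m i hi)).1⟩
  have hd : ∀ m, D (τ - 1) m 0 - D τ m 0 ≠ 0 := by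
    intro m
    have := hOk.nd (τ - 1) m le_rfl (by omega)
    rw [sub_add_cancel] at this
    exact sub_ne_zero.2 this
  have hη : ∀ m, H (τ - 1) m ≠ 0 := fun m => hOk.eta (τ - 1) m le_rfl (by omega)
  have hη' : ∀ m, H τ m ≠ 0 := fun m => hOk.eta τ m (by omega) (by omega)
  have hdd : ∀ m, Af_d D τ m ≠ 0 := fun m => mul_ne_zero (hd m) (hd (m + 1))
  have hE : ∀ m, Af_E w H τ m ≠ 0 := fun m => div_ne_zero (hη m) hw0
  have hr : ∀ m, Af_r w D H τ m ≠ 0 := by
    intro m
    exact neg_ne_zero.2 (div_ne_zero (mul_ne_zero (mul_ne_zero (hE m) (fb m).2.2.1) (fa m).2.2)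
      (hdd m))
  have hh0 : ∀ m, Af_h w D H τ m ≠ 0 := by
    intro m
    exact div_ne_zero (mul_ne_zero (hη' m) (fa m).2.1)
      (mul_ne_zero (mul_ne_zero hw0 (hd (m + 1))) (fb m).2.2.2.1)
  have xs : ∀ σ m i, τ - 1 ≤ σ → σ ≤ τ + 1 → w i - D σ m 0 ≠ 0 := fun σ m i ha hb =>
    sub_ne_zero.2 (n1 σ m ha hb i)
  have haA : ∀ m, aA w D H τ m = cst w D τ m - Af_E w H τ m *
      (jA w (D (τ - 1) m) * D (τ - 1) m 0 + jB w (D (τ - 1) m)) *
      (jA w (D τ m) * D τ (m + 1) 0 + jB w (D τ m)) /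
        ((D τ (m + 1) 0 - D (τ - 1) (m + 1) 0) * (D τ m 0 - D (τ - 1) m 0)) := fun m => rfl
  -- the two forms
  have site : ∀ m i, i ≠ 0 →
      Af_h w D H τ m * Rw w D (τ + 1) m (w i) = chi w (w i) - aA w D H τ m +
        Af_r w D H τ m * ((w i - D (τ - 1) m 0) / (w i - D τ m 0)) ∧
      Af_h w D H τ m * Rw w D (τ + 1) m (w i) *
        ((w i - D (τ - 1) (m + 1) 0) / (w i - D τ (m + 1) 0)) = Af_q w D H τ m -
        Af_dl w D H τ m * ((w i - D (τ - 1) m 0) / (w i - D τ m 0)) := by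
    intro m i hi
    obtain ⟨-, -, -, -, jx1, -⟩ := h2 K w _ _ _ _ hw (hη m)
      (hOk.rel (τ - 1) m le_rfl (by omega))
    rw [sub_add_cancel] at jx1
    obtain ⟨-, -, -, -, jx2, -⟩ := h2 K w _ _ _ _ hw (hη' m)
      (hOk.rel τ m (by omega) (by omega))
    have k1 := jx1 i hi
    have k2 := jx2 i hi
    rw [← (fa m).1] at k1
    rw [← (fb m).2.1] at k2
    have x1 := xs τ m i (by omega) (by omega)
    have x2 := xs (τ - 1) (m + 1) i (by omega) (by omega)
    have x3 := xs τ (m + 1) i (by omega) (by omega)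
    have x4 := xs (τ + 1) m i (by omega) (by omega)
    have hJ := (fb m).2.2.2.2 i hi
    have hg := (fb m).2.2.2.1
    have hd1 := hd (m + 1)
    rw [haA m]
    refine Af_site (w i) (D τ m 0) (D (τ - 1) (m + 1) 0) (D τ (m + 1) 0) (D (τ - 1) m 0)
      (jA w (D τ m)) (jB w (D τ m)) (jA w (D (τ - 1) m)) (jB w (D (τ - 1) m)) (Af_E w H τ m)
      (chi w (w i)) (cst w D τ m) _ x1 x2 x3 (hd m) hd1 ?_ ?_
    · change Af_E w H τ m * (jv w (D (τ - 1) m) (w i) * jv w (D τ m) (w i)) = _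
      unfold Af_E
      field_simp
      linear_combination k1
    · change Af_h w D H τ m * Rw w D (τ + 1) m (w i) *
        ((w i - D (τ - 1) (m + 1) 0) * (w i - D τ m 0) *
          (D (τ - 1) (m + 1) 0 - D τ (m + 1) 0)) =
        Af_E w H τ m * jv w (D (τ - 1) m) (w i) * jv w (D τ m) (D (τ - 1) (m + 1) 0) *
          (w i - D τ (m + 1) 0)
      have key : H τ m * jv w (D (τ + 1) m) (w i) *
          ((w i - D (τ - 1) (m + 1) 0) * (w i - D τ m 0)) =
          H (τ - 1) m * jv w (D (τ - 1) m) (w i) *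
            ((w i - D τ (m + 1) 0) * (w i - D (τ + 1) m 0)) := by
        apply mul_left_cancel₀ hJ
        linear_combination ((w i - D (τ - 1) (m + 1) 0) * (w i - D τ m 0)) * k2 -
          ((w i - D τ (m + 1) 0) * (w i - D (τ + 1) m 0)) * k1
      have e1 : Af_h w D H τ m * Rw w D (τ + 1) m (w i) =
          H τ m * jv w (D τ m) (D (τ - 1) (m + 1) 0) * jv w (D (τ + 1) m) (w i) /
            (w 0 * (D (τ - 1) (m + 1) 0 - D τ (m + 1) 0) * (w i - D (τ + 1) m 0)) := by
        unfold Af_h Rw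
        field_simp
      rw [e1, div_mul_eq_mul_div, div_eq_iff (mul_ne_zero (mul_ne_zero hw0 hd1) x4)]
      have e2 : Af_E w H τ m * w 0 = H (τ - 1) m := by
        unfold Af_E
        rw [div_mul_cancel₀ _ hw0]
      linear_combination (jv w (D τ m) (D (τ - 1) (m + 1) 0) *
          (D (τ - 1) (m + 1) 0 - D τ (m + 1) 0)) * key -
        (jv w (D (τ - 1) m) (w i) * jv w (D τ m) (D (τ - 1) (m + 1) 0) *
          (w i - D τ (m + 1) 0) * (D (τ - 1) (m + 1) 0 - D τ (m + 1) 0) *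
          (w i - D (τ + 1) m 0)) * e2
  -- the algebraic relations of the numbers
  have hq : ∀ m, Af_q w D H τ m * Af_r w D H τ m =
      Af_dl w D H τ m * (aA w D H τ m - cst w D τ m) := by
    intro m
    have e : aA w D H τ m - cst w D τ m = -(Af_E w H τ m *
        jv w (D (τ - 1) m) (D (τ - 1) m 0) * jv w (D τ m) (D τ (m + 1) 0) / Af_d D τ m) := by
      have e' : (D τ (m + 1) 0 - D (τ - 1) (m + 1) 0) * (D τ m 0 - D (τ - 1) m 0) =
          Af_d D τ m := by
        unfold Af_d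
        ring
      rw [haA m, e']
      unfold jv
      ring
    rw [e]
    unfold Af_q Af_r Af_dl
    ring
  have hρ : ∀ m, rA' w D H τ m * Af_r w D H τ m = Af_dl w D H τ m * Af_r w D H τ (m + 1) := by
    intro m
    have hJ := (fb m).2.2.1
    have e0 : m + 1 + 1 = m + 2 := by ring
    have hd1 := hd (m + 1)
    have hd2 := hd (m + 2)
    have hd1' : D τ (m + 1) 0 - D (τ - 1) (m + 1) 0 ≠ 0 := by
      rw [← neg_sub]
      exact neg_ne_zero.2 hd1
    have hd2' : D τ (m + 2) 0 - D (τ - 1) (m + 2) 0 ≠ 0 := by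
      rw [← neg_sub]
      exact neg_ne_zero.2 hd2
    have hdm := hdd m
    have e1 : rA' w D H τ m = Af_E w H τ (m + 1) * jv w (D τ m) (D (τ - 1) (m + 1) 0) *
        jv w (D (τ - 1) (m + 1)) (D τ (m + 1) 0) * jv w (D τ (m + 1)) (D τ (m + 2) 0) /
        (jv w (D τ m) (D τ (m + 1) 0) * Af_d D τ (m + 1)) := by
      unfold rA' Af_E Af_d
      rw [e0]
      congr 1
      ring
    rw [e1]
    unfold Af_r Af_dl
    rw [e0]
    have hdm1 := hdd (m + 1)
    field_simp
  have hrec : ∀ m i, i ≠ 0 →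
      Af_h w D H τ (m + 1) * Rw w D (τ + 1) (m + 1) (w i) *
        (Af_h w D H τ m * Rw w D (τ + 1) m (w i)) =
      (chi w (w i) - (aA w D H τ (m + 1) + rA' w D H τ m)) *
        (Af_h w D H τ m * Rw w D (τ + 1) m (w i)) +
        rA' w D H τ m * (chi w (w i) - cst w D τ m) := by
    intro m i hi
    exact Af_two _ _ _ _ _ _ _ _ _ _ _ _ _ (hr m) (site (m + 1) i hi).1 (site m i hi).1
      (site m i hi).2 (hq m) (hρ m)
  have hOk' : Ok (pw w) D H (τ + 1 - 1) (τ + 1) := by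
    rw [add_sub_cancel_right]
    exact ⟨hOk.p0, fun σ m ha hb => hOk.rel σ m (by omega) hb,
      fun σ m ha hb => hOk.eta σ m (by omega) hb, fun σ m ha hb => hOk.ps σ m (by omega) hb,
      fun σ m ha hb => hOk.nd σ m (by omega) hb⟩
  have main : ∀ m, Af_h w D H τ (m + 1) = 1 ∧
      aA w D H τ (m + 1) + rA' w D H τ m = alr w D (τ + 1) (m + 1) ∧
      rA' w D H τ m = Af_h w D H τ m * rho w D H (τ + 1) m := by
    intro m
    have hu := h5 K w D H (τ + 1) (m + 1) hw hinj hOk'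
    have hv := h4 K w D H (τ + 1) hw hOk' (m + 1)
    rw [add_sub_cancel_right] at hu hv
    refine hu (fun i hi => ?_) (fun i => Rw w D (τ + 1) (m + 1) (w i)) _ _ _ _ _ _ (hh0 m)
      (fun i hi => hv i hi) (fun i hi => ?_)
    · rw [(fb m).1]
      exact hne m i hi
    · rw [(fb m).1]
      exact hrec m i hi
  intro m
  obtain ⟨-, -, a3⟩ := main m
  have hhm : Af_h w D H τ m = 1 := by
    have := (main (m - 1)).1
    rwa [sub_add_cancel] at this
  have hrho : rho w D H (τ + 1) m = rA' w D H τ m := by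
    rw [a3, hhm, one_mul]
  refine ⟨?_, hrho⟩
  obtain ⟨-, b2, b3⟩ := main (m - 1)
  have hhm1 : Af_h w D H τ (m - 1) = 1 := by
    have := (main (m - 1 - 1)).1
    rwa [sub_add_cancel] at this
  rw [sub_add_cancel] at b2
  rw [hhm1, one_mul] at b3
  unfold alp
  rw [← b2, ← b3]
  ring

end Pool.Agent.MP62a5ad.QN
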