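import Pool.Agent.Lib.MP_62a5ad_mp.QN.SpecB

/-!
# MP_62a5ad_mp, QN: the trace of the monodromy matrix is invariant under `B` and under the shift
-/

set_option autoImplicit false

namespace Pool.Agent.MP62a5ad.QN

open Matrix
open scoped ContDiff

/-- Matrices intertwined by an invertible matrix have the same trace. -/
theorem Bh_trace {K : Type} [Field K] (A N N' : Matrix (Fin 2) (Fin 2) K) (hA : A.det ≠ 0)
    (h : N' * A = A * N) : N'.trace = N.trace := by
  have hu : IsUnit A.det := isUnit_iff_ne_zero.2 hA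
  have h1 : N' = A * N * A⁻¹ := by
    rw [← h, Matrix.mul_assoc, Matrix.mul_nonsing_inv A hu, Matrix.mul_one]
  rw [h1, Matrix.trace_mul_comm, ← Matrix.mul_assoc, Matrix.nonsing_inv_mul A hu, Matrix.one_mul]

/-- The function `A` of the map `B`. -/
def Bh_A {K : Type} [Field K] {n : ℕ} [NeZero n] (θ : Ix n → K) (m : Fin n) : K :=
  θ (m + 1, 0) + θ (m, 1) - θ (m + 1, 1)

theorem Bh_B0 {K : Type} [Field K] {n : ℕ} [NeZero n] (θ : Ix n → K) (m : Fin n) :
    Bx θ (m, 0) = Bh_A θ m := by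
  simp [Bx, Bh_A]

theorem Bh_B1 {K : Type} [Field K] {n : ℕ} [NeZero n] (θ : Ix n → K) (m : Fin n) :
    Bx θ (m, 1) = θ (m + 1, 1) * (Bh_A θ (m + 1) - θ (m + 1, 2)) / (Bh_A θ m - θ (m, 2)) := by
  simp [Bx, Bh_A]

theorem Bh_B2 {K : Type} [Field K] {n : ℕ} [NeZero n] (θ : Ix n → K) (m : Fin n) :
    Bx θ (m, 2) = θ (m, 2) := by
  simp [Bx]

/-- The intertwining matrix. -/
def Bh_K {K : Type} [Field K] {n : ℕ} [NeZero n] (θ : Ix n → K) (x : K) (m : Fin n) :
    Matrix (Fin 2) (Fin 2) K :=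
  !![x - θ (m, 0) + θ (m, 1), 1; θ (m, 1) * (Bh_A θ m - θ (m, 2)), 0]

theorem Bh_step {K : Type} [Field K] {n : ℕ} [NeZero n] (θ : Ix n → K) (x : K) (m : Fin n)
    (h : Bh_A θ m - θ (m, 2) ≠ 0) :
    Lx (Bx θ (m, 0)) (Bx θ (m, 1)) (Bx θ (m, 2)) x * Bh_K θ x m =
      Bh_K θ x (m + 1) * Lx (θ (m, 0)) (θ (m, 1)) (θ (m, 2)) x := by
  have hr : Bx θ (m, 1) * (Bh_A θ m - θ (m, 2)) =
      θ (m + 1, 1) * (Bh_A θ (m + 1) - θ (m + 1, 2)) := by
    rw [Bh_B1]
    field_simp
  have hA : Bh_A θ m = θ (m + 1, 0) + θ (m, 1) - θ (m + 1, 1) := rfl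
  rw [Bh_B0, Bh_B2]
  unfold Lx Bh_K
  rw [Matrix.mul_fin_two, Matrix.mul_fin_two]
  congr 1
  ext i j
  fin_cases i <;> fin_cases j
  · simp only [Fin.zero_eta, Fin.isValue, Matrix.cons_val', Matrix.cons_val_zero,
      Matrix.cons_val_fin_one]
    rw [hA]
    ring
  · simp only [Fin.zero_eta, Fin.isValue, Fin.mk_one, Matrix.cons_val', Matrix.cons_val_zero,
      Matrix.cons_val_one, Matrix.cons_val_fin_one]
    rw [hA]
    ring
  · simp only [Fin.zero_eta, Fin.isValue, Fin.mk_one, Matrix.cons_val', Matrix.cons_val_zero,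
      Matrix.cons_val_one, Matrix.cons_val_fin_one]
    linear_combination (x - θ (m, 0)) * hr
  · simp only [Fin.isValue, Fin.mk_one, Matrix.cons_val',
      Matrix.cons_val_one, Matrix.cons_val_fin_one]
    linear_combination hr

/-- Reindexing by the successor. -/
theorem Bh_prod_succ {K : Type} [Field K] {n : ℕ} [NeZero n] (g : Fin n → K) :
    ∏ k : Fin n, g (k + 1) = ∏ k : Fin n, g k :=
  Equiv.prod_comp (Equiv.addRight (1 : Fin n)) g

theorem Bh_sum_succ {K : Type} [Field K] {n : ℕ} [NeZero n] (g : Fin n → K) :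
    ∑ k : Fin n, g (k + 1) = ∑ k : Fin n, g k :=
  Equiv.sum_comp (Equiv.addRight (1 : Fin n)) g

theorem sBh (h1 : S_Nm) : S_Bh := by
  intro K _ n _ θ
  obtain ⟨hr1, hr2, -, -, -, -, -, -⟩ := h1 K n θ 0
  refine ⟨?_, ?_⟩
  · intro hθ
    have hne : ∀ m : Fin n, Bh_A θ m - θ (m, 2) ≠ 0 := fun m => sub_ne_zero.2 (hθ m).2
    refine ⟨?_, ?_, ?_, fun k => Bh_B2 θ k⟩
    · intro x
      have hN : ∀ k : ℕ, Nc (Bx θ) x 0 k * Bh_K θ x (rs n 0) =
          Bh_K θ x (rs n (k : ℤ)) * Nc θ x 0 k := by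
        intro k
        induction k with
        | zero => simp [Nc]
        | succ k ih =>
          have e1 : Nc (Bx θ) x 0 (k + 1) = Lc (Bx θ) x (0 + k) * Nc (Bx θ) x 0 k := rfl
          have e2 : Nc θ x 0 (k + 1) = Lc θ x (0 + k) * Nc θ x 0 k := rfl
          rw [e1, e2, Matrix.mul_assoc, ih, ← Matrix.mul_assoc, ← Matrix.mul_assoc, zero_add]
          congr 1
          have e3 : rs n (((k + 1 : ℕ)) : ℤ) = rs n (k : ℤ) + 1 := by
            push_cast
            exact (hr2 k 0).2.2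
          rw [e3]
          exact Bh_step θ x (rs n (k : ℤ)) (hne _)
      have h2 := hN n
      have e4 : rs n (n : ℤ) = rs n 0 := by
        have := (hr2 0 0).1
        rwa [zero_add] at this
      rw [e4] at h2
      refine Bh_trace (Bh_K θ x (rs n 0)) _ _ ?_ h2
      unfold Bh_K
      rw [Matrix.det_fin_two_of]
      have := mul_ne_zero (hθ (rs n 0)).1 (hne (rs n 0))
      simpa using this
    · have e5 : ∀ k : Fin n, Bx θ (k, 1) =
          θ (k + 1, 1) * (Bh_A θ (k + 1) - θ (k + 1, 2)) / (Bh_A θ k - θ (k, 2)) := Bh_B1 θ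
      rw [Finset.prod_congr rfl fun k _ => e5 k, Finset.prod_div_distrib, Finset.prod_mul_distrib,
        Bh_prod_succ fun k => θ (k, 1), Bh_prod_succ fun k => Bh_A θ k - θ (k, 2)]
      exact mul_div_cancel_right₀ _ (Finset.prod_ne_zero_iff.2 fun k _ => hne k)
    · have e6 : ∀ k : Fin n, Bx θ (k, 0) = θ (k + 1, 0) + θ (k, 1) - θ (k + 1, 1) := Bh_B0 θ
      rw [Finset.sum_congr rfl fun k _ => e6 k, Finset.sum_sub_distrib, Finset.sum_add_distrib,
        Bh_sum_succ fun k => θ (k, 0), Bh_sum_succ fun k => θ (k, 1)]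
      ring
  · intro j
    let e : Fin n ≃ Fin n :=
      { toFun := fun k => rs n ((k : ℕ) + j)
        invFun := fun k => rs n ((k : ℕ) + -j)
        left_inv := fun k => by
          change rs n (((rs n (((k : ℕ) : ℤ) + j) : Fin n) : ℕ) + -j) = k
          rw [(hr2 _ _).2.1, add_neg_cancel_right]
          exact hr1 k
        right_inv := fun k => by
          change rs n (((rs n (((k : ℕ) : ℤ) + -j) : Fin n) : ℕ) + j) = k
          rw [(hr2 _ _).2.1, neg_add_cancel_right]
          exact hr1 k }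
    have he : ∀ (k : Fin n) (i : Fin 3), shC j θ (k, i) = θ (e k, i) := fun k i => rfl
    refine ⟨?_, ?_, ?_, ?_⟩
    · intro x
      have hL : ∀ k : ℤ, Lc (shC j θ) x k = Lc θ x (k + j) := by
        intro k
        unfold Lc shC
        simp only
        rw [(hr2 k j).2.1]
      have hN : ∀ (m : ℤ) (k : ℕ), Nc (shC j θ) x m k = Nc θ x (m + j) k := by
        intro m k
        induction k with
        | zero => rfl
        | succ k ih =>
          have e1 : Nc (shC j θ) x m (k + 1) = Lc (shC j θ) x (m + k) * Nc (shC j θ) x m k := rfl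
          have e2 : Nc θ x (m + j) (k + 1) = Lc θ x (m + j + k) * Nc θ x (m + j) k := rfl
          rw [e1, e2, ih, hL]
          congr 2
          ring
      obtain ⟨-, -, -, -, -, ht, -, -⟩ := h1 K n θ x
      have e3 : Hx (shC j θ) x = (Nm θ x (0 + j)).trace := by
        unfold Hx Nm
        rw [hN]
      rw [e3]
      exact (ht _).1
    · rw [Finset.prod_congr rfl fun k _ => he k 1]
      exact Equiv.prod_comp e fun k => θ (k, 1)
    · rw [Finset.sum_congr rfl fun k _ => he k 0]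
      exact Equiv.sum_comp e fun k => θ (k, 0)
    · intro x
      rw [Finset.prod_congr rfl fun k _ => by rw [he k 2]]
      exact Equiv.prod_comp e fun k => x - θ (k, 2)

end Pool.Agent.MP62a5ad.QN
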