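import Pool.Agent.Lib.MP_62a5ad_mp.QN.SpecA

/-!
# MP_62a5ad_mp, project QN: the Darboux transformation of the quotients (`S_Bk`)
-/

set_option autoImplicit false

namespace Pool.Agent.MP62a5ad.QN

theorem Bk_alg {K : Type} [Field K] (x r R1 S2 ρ0 ρ1 A0 A1 c0 c1 : K) (h0 : r + ρ0 ≠ 0)
    (h1 : R1 + ρ1 ≠ 0) (hD : A0 - c0 ≠ 0)
    (e1 : R1 * S2 = (x - A1) * (R1 + ρ1) + ρ1 * (A1 - c1))
    (e2 : r * (R1 + ρ1) = (x - A0) * (r + ρ0) + ρ0 * (A0 - c0)) :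
    R1 * S2 / (R1 + ρ1) * (r * (R1 + ρ1) / (r + ρ0)) =
      (x - A1 - ρ1 * (A1 - c1) / (A0 - c0)) * (r * (R1 + ρ1) / (r + ρ0)) +
        ρ1 * (A1 - c1) / (A0 - c0) * (x - c0) := by
  rw [e2, e1]
  have h3 : (x - A0) * (r + ρ0) + ρ0 * (A0 - c0) - (x - c0) * (r + ρ0) = -((A0 - c0) * r) := by
    ring
  have h4 : r * (R1 + ρ1) - (x - c0) * (r + ρ0) = -((A0 - c0) * r) := by
    rw [e2, h3]
  have e5 : ((x - A1) * (R1 + ρ1) + ρ1 * (A1 - c1)) / (R1 + ρ1) =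
      (x - A1) + ρ1 * (A1 - c1) / (R1 + ρ1) := by
    field_simp
  rw [e5, ← e2]
  have e6 : ρ1 * (A1 - c1) / (R1 + ρ1) * (r * (R1 + ρ1) / (r + ρ0)) =
      ρ1 * (A1 - c1) * r / (r + ρ0) := by
    field_simp
  have e7 : ρ1 * (A1 - c1) / (A0 - c0) * (r * (R1 + ρ1) / (r + ρ0)) =
      ρ1 * (A1 - c1) / (A0 - c0) * (x - c0) - ρ1 * (A1 - c1) * r / (r + ρ0) := by
    have e8 : r * (R1 + ρ1) = (x - c0) * (r + ρ0) - (A0 - c0) * r := by linear_combination h4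
    rw [e8]
    field_simp
  linear_combination e6 + e7

theorem sBk : S_Bk := by
  intro K _ x R α ρ c hrec hS
  have e1 : ∀ m, R m * (R (m + 1) + ρ (m + 1)) =
      (x - (α (m + 1) + ρ m - ρ (m + 1))) * (R m + ρ m) +
        ρ m * (α (m + 1) + ρ m - ρ (m + 1) - c m) := by
    intro m
    have h := hrec (m + 1)
    rw [add_sub_cancel_right] at h
    linear_combination h
  refine ⟨e1, fun hA m => ?_⟩
  have h1 := e1 m
  have h2 := e1 (m - 1)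
  rw [sub_add_cancel] at h2
  have h3 := hA (m - 1)
  rw [sub_add_cancel] at h3
  simp only [sub_add_cancel]
  exact Bk_alg x (R (m - 1)) (R m) (R (m + 1) + ρ (m + 1)) (ρ (m - 1)) (ρ m)
    (α m + ρ (m - 1) - ρ m) (α (m + 1) + ρ m - ρ (m + 1)) (c (m - 1)) (c m) (hS (m - 1)) (hS m)
    (sub_ne_zero.2 h3) h1 h2

end Pool.Agent.MP62a5ad.QN
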