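import Pool.Agent.Lib.MP_62a5ad_mp.QN.SpecB

/-!
# MP_62a5ad_mp, project QN: the coefficient of `x^(n-1)`
-/

set_option autoImplicit false

namespace Pool.Agent.MP62a5ad.QN

open Matrix Polynomial

variable {R : Type} [CommRing R]

/-- The shape of the partial products. -/
private structure Dg_P (j : ℕ) (N : Matrix (Fin 2) (Fin 2) R[X]) (s : R) : Prop where
  a0 : ∀ i, j + 1 < i → (N 0 0).coeff i = 0
  a1 : (N 0 0).coeff (j + 1) = 1
  a2 : (N 0 0).coeff j = -s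
  b : ∀ i, j < i → (N 0 1).coeff i = 0
  c : ∀ i, j < i → (N 1 0).coeff i = 0
  d : ∀ i, j < i → (N 1 1).coeff i = 0

private theorem Dg_mul00 (a r c : R) (N : Matrix (Fin 2) (Fin 2) R[X]) (i : ℕ) :
    ((Lx (C a) (C r) (C c) X * N) 0 0).coeff (i + 1) =
      (N 0 0).coeff i - a * (N 0 0).coeff (i + 1) + (N 1 0).coeff (i + 1) := by
  rw [Matrix.mul_apply, Fin.sum_univ_two]
  simp [Lx, sub_mul, coeff_X_mul, coeff_C_mul]

private theorem Dg_mul01 (a r c : R) (N : Matrix (Fin 2) (Fin 2) R[X]) (i : ℕ) :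
    ((Lx (C a) (C r) (C c) X * N) 0 1).coeff (i + 1) =
      (N 0 1).coeff i - a * (N 0 1).coeff (i + 1) + (N 1 1).coeff (i + 1) := by
  rw [Matrix.mul_apply, Fin.sum_univ_two]
  simp [Lx, sub_mul, coeff_X_mul, coeff_C_mul]

private theorem Dg_mul1 (a r c : R) (N : Matrix (Fin 2) (Fin 2) R[X]) (i : ℕ) (l : Fin 2) :
    ((Lx (C a) (C r) (C c) X * N) 1 l).coeff i =
      r * (a - c) * (N 0 l).coeff i - r * (N 1 l).coeff i := by
  rw [Matrix.mul_apply, Fin.sum_univ_two]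
  have h : (Lx (C a) (C r) (C c) X : Matrix (Fin 2) (Fin 2) R[X]) 1 0 = C (r * (a - c)) := by
    simp [Lx]
  have h' : (Lx (C a) (C r) (C c) X : Matrix (Fin 2) (Fin 2) R[X]) 1 1 = C (-r) := by
    simp [Lx]
  rw [h, h', coeff_add, coeff_C_mul, coeff_C_mul]
  ring

private theorem Dg_step (a r c : R) {j : ℕ} {N : Matrix (Fin 2) (Fin 2) R[X]} {s : R}
    (h : Dg_P j N s) : Dg_P (j + 1) (Lx (C a) (C r) (C c) X * N) (s + a) := by
  refine ⟨fun i hi => ?_, ?_, ?_, fun i hi => ?_, fun i hi => ?_, fun i hi => ?_⟩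
  · obtain ⟨i, rfl⟩ : ∃ i', i = i' + 1 := ⟨i - 1, by omega⟩
    rw [Dg_mul00, h.a0 i (by omega), h.a0 (i + 1) (by omega), h.c (i + 1) (by omega)]
    ring
  · rw [Dg_mul00, h.a1, h.a0 (j + 1 + 1) (by omega), h.c (j + 1 + 1) (by omega)]
    ring
  · rw [Dg_mul00, h.a2, h.a1, h.c (j + 1) (by omega)]
    ring
  · obtain ⟨i, rfl⟩ : ∃ i', i = i' + 1 := ⟨i - 1, by omega⟩
    rw [Dg_mul01, h.b i (by omega), h.b (i + 1) (by omega), h.d (i + 1) (by omega)]
    ring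
  · rw [Dg_mul1, h.a0 i (by omega), h.c i (by omega)]
    ring
  · rw [Dg_mul1, h.b i (by omega), h.d i (by omega)]
    ring

private theorem Dg_start (a r c : R) :
    Dg_P 0 (Lx (C a) (C r) (C c) X : Matrix (Fin 2) (Fin 2) R[X]) a := by
  have h10 : (Lx (C a) (C r) (C c) X : Matrix (Fin 2) (Fin 2) R[X]) 1 0 = C (r * (a - c)) := by
    simp [Lx]
  have h11 : (Lx (C a) (C r) (C c) X : Matrix (Fin 2) (Fin 2) R[X]) 1 1 = C (-r) := by
    simp [Lx]
  have h00 : (Lx (C a) (C r) (C c) X : Matrix (Fin 2) (Fin 2) R[X]) 0 0 = X - C a := by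
    simp [Lx]
  have h01 : (Lx (C a) (C r) (C c) X : Matrix (Fin 2) (Fin 2) R[X]) 0 1 = 1 := by
    simp [Lx]
  refine ⟨fun i hi => ?_, ?_, ?_, fun i hi => ?_, fun i hi => ?_, fun i hi => ?_⟩
  · rw [h00, coeff_sub, coeff_X, coeff_C, if_neg (by omega), if_neg (by omega), sub_zero]
  · rw [h00, coeff_sub, coeff_X, coeff_C, if_pos (by omega), if_neg (by omega), sub_zero]
  · rw [h00, coeff_sub, coeff_X, coeff_C, if_neg (by omega), if_pos rfl, zero_sub]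
  · rw [h01, coeff_one, if_neg (by omega)]
  · rw [h10, coeff_C, if_neg (by omega)]
  · rw [h11, coeff_C, if_neg (by omega)]

private theorem Dg_main {n : ℕ} [NeZero n] (θ : Ix n → R) (j : ℕ) :
    Dg_P j (Nc (fun i => C (θ i)) X 0 (j + 1))
      (∑ i ∈ Finset.range (j + 1), θ (rs n ((i : ℕ) : ℤ), 0)) := by
  induction j with
  | zero =>
    have h : Nc (fun i => C (θ i)) X 0 (0 + 1) =
        Lx (C (θ (rs n 0, 0))) (C (θ (rs n 0, 1))) (C (θ (rs n 0, 2))) X := by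
      simp [Nc, Lc]
    rw [h, Finset.sum_range_succ, Finset.sum_range_zero, zero_add]
    exact Dg_start _ _ _
  | succ j ih =>
    rw [Finset.sum_range_succ]
    have h : Nc (fun i => C (θ i)) X 0 (j + 1 + 1) =
        Lx (C (θ (rs n ((j + 1 : ℕ) : ℤ), 0))) (C (θ (rs n ((j + 1 : ℕ) : ℤ), 1)))
          (C (θ (rs n ((j + 1 : ℕ) : ℤ), 2))) X * Nc (fun i => C (θ i)) X 0 (j + 1) := by
      rw [Nc, zero_add]
      rfl
    rw [h]
    exact Dg_step _ _ _ ih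

theorem sDg (h1 : S_Nm) : S_Dg := by
  intro R _ n _ θ hn
  obtain ⟨j, rfl⟩ : ∃ j, n = j + 1 + 1 := ⟨n - 2, by omega⟩
  have hrs := (h1 R (j + 1 + 1) θ 0).1
  have hs : ∑ k : Fin (j + 1 + 1), θ (k, 0) =
      ∑ i ∈ Finset.range (j + 1 + 1), θ (rs (j + 1 + 1) ((i : ℕ) : ℤ), 0) := by
    rw [Finset.sum_range]
    exact Finset.sum_congr rfl fun k _ => by rw [hrs k]
  rw [hs]
  have hP := Dg_main θ (j + 1)
  have hQ := Dg_main θ j
  have h11 : (Nc (fun i => C (θ i)) X 0 (j + 1 + 1) 1 1).coeff (j + 1) = 0 := by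
    rw [Nc, Lc, Dg_mul1, hQ.b (j + 1) (by omega), hQ.d (j + 1) (by omega)]
    ring
  have h00 := hP.a2
  rw [Hx, Nm, Matrix.trace_fin_two, coeff_add, show j + 1 + 1 - 1 = j + 1 by omega, h00, h11,
    add_zero]

end Pool.Agent.MP62a5ad.QN
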