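import Pool.Agent.Lib.MP_62a5ad_mp.QN.SpecE

/-!
# MP_62a5ad_mp, QN/Dn: the facts at a point
-/

set_option autoImplicit false

namespace Pool.Agent.MP62a5ad.QN

open Matrix
open scoped ContDiff
open Pool.Agent.MP62a5ad.PN (V4 M4 e0)

private lemma Dn_lo {n : ℕ} [NeZero n] (y : E n) (h : cc n y 2 ≠ 0) :
    0 < lo n y ∧ lo n y ^ 4 * |cc n y 2| = 1 := by
  have ha : 0 < |cc n y 2| := abs_pos.mpr h
  refine ⟨Real.rpow_pos_of_pos ha _, ?_⟩
  have h1 : lo n y ^ 4 = |cc n y 2|⁻¹ := by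
    unfold lo
    rw [← Real.rpow_natCast, ← Real.rpow_mul ha.le]
    norm_num
    exact Real.rpow_neg_one _
  rw [h1]
  exact inv_mul_cancel₀ ha.ne'

private lemma Dn_qv {K : Type} [Field K] (l : K) (z : Fin 3 → K) (x : K) :
    qv (sz l z) (l * x) = l ^ 2 * qv z x := by
  unfold qv sz
  simp
  ring

private lemma Dn_Aw (n e : ℕ) (r : ℤ) (l : ℂ) (hl : l ≠ 0) (P : ℂ) (C : ℤ → ℂ)
    (h : ℂ) :
    Aw n e r ((l ^ e) ^ 4 * P) (fun j => (l ^ e) ^ 2 * C j) (l ^ 2 * h) =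
      (l ^ 2) ^ (r - n * e) * ((l ^ e) ^ 2) ^ n * Aw n e r P C h := by
  have hL : (l ^ e) ^ 2 ≠ 0 := pow_ne_zero _ (pow_ne_zero _ hl)
  unfold Aw
  have h1 : ∀ j ∈ Finset.range n, ((l ^ e) ^ 4 * P / ((l ^ e) ^ 2 * C j) - (l ^ 2 * h) ^ e) =
      (l ^ e) ^ 2 * (P / C j - h ^ e) := by
    intro j _
    have h2 : (l ^ e) ^ 4 * P / ((l ^ e) ^ 2 * C j) = (l ^ e) ^ 2 * (P / C j) := by
      rw [show (l ^ e) ^ 4 * P = (l ^ e) ^ 2 * ((l ^ e) ^ 2 * P) by ring,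
        mul_div_mul_left _ _ hL, mul_div_assoc]
    rw [h2, mul_pow, ← pow_mul, ← pow_mul, mul_comm 2 e]
    ring
  rw [Finset.prod_congr rfl h1, Finset.prod_mul_distrib, Finset.prod_const, Finset.card_range,
    mul_zpow]
  ring

theorem sDn (h1 : S_Xi) (h2 : S_Pw) (h3 : S_Sc) (h4 : S_Nz) (h5 : S_Per) : S_Dn := by
  intro n _ e r r' i y μ hG hμ hcpl hc12
  intro m w D H δ
  obtain ⟨hP1, hP2, hP3, hP4⟩ := h2
  obtain ⟨hs1, hs2, hs3, hs4, hroot, hdisc⟩ := hP1 μ (cc n y) hcpl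
  obtain ⟨hl0, hl4⟩ := Dn_lo y hG.c2
  have hl : lo n y ≠ 0 := hl0.ne'
  have hlc : (lo n y : ℂ) ≠ 0 := by exact_mod_cast hl
  have hXi := fun j => h1 n e r y (μ j) hG.c2 (hroot j) hG.bm hG.b3 hG.ka
  have hμ0 : ∀ j, μ j ≠ 0 := fun j => (hXi j).1
  have hm0 : ∀ j, m j ≠ 0 := fun j => mul_ne_zero hlc (hμ0 j)
  have hw0 : ∀ j, w j ≠ 0 := fun j => pow_ne_zero _ (hm0 j)
  have hwL : w = fun j => ((lo n y : ℂ) ^ e) * (μ j) ^ e := by
    funext j; exact mul_pow _ _ _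
  have hL : lo n y ^ e ≠ 0 := pow_ne_zero _ hl
  have hLc : (lo n y : ℂ) ^ e ≠ 0 := pow_ne_zero _ hlc
  have hμe : Function.Injective fun j => μ j ^ e := by
    intro a b hab
    by_contra hne
    exact hG.k1 (μ a) (μ b) (hroot a) (hroot b) (fun h => hne (hμ h)) hab
  have hw : Function.Injective w := by
    intro a b hab
    rw [hwL] at hab
    exact hμe (mul_left_cancel₀ hLc hab)
  have hpwμ : pw (fun j => μ j ^ e) = fun j => (pc n e r y j : ℂ) :=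
    hP2 ℂ _ _ hμe fun j => (hXi j).2.2.2.2.1
  have hp0 : ((pc n e r y 0 : ℝ) : ℂ) = ((cc n y 2 : ℝ) : ℂ) ^ e := by
    have := congrFun hpwμ 0
    rw [← this, ← hs4]
    simp only [pw, Matrix.cons_val_zero]
    ring
  obtain ⟨hSr1, -, hSr3, hSr4⟩ := h3 ℝ (lo n y ^ e) hL
  obtain ⟨-, hSc2, -, -⟩ := h3 ℂ ((lo n y : ℂ) ^ e) hLc
  have hpww : pw w = fun j => ((sp (lo n y ^ e) (pc n e r y) j : ℝ) : ℂ) := by
    rw [hwL, hSc2, hpwμ]
    funext j
    fin_cases j <;> simp [sp]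
  have hOkr : Ok (sp (lo n y ^ e) (pc n e r y)) (Dn n e r y) (Hn n e r y) (-2) 2 :=
    hSr1 _ _ _ _ _ hG.ok
  have hOkc : Ok (pw w) D H (-2) 2 := by
    rw [hpww]
    exact hSr4 ℂ Complex.ofRealHom _ _ _ _ _ hOkr
  have hNz := h4 ℂ w D H (-2) 2 hw0 hOkc
  have hper := h5 n e r y hG.c2
  have hdat : ∀ τ k, dat n e r y τ (k + n) = dat n e r y τ k := hper.2.2.2.2.2.2.1
  -- constancy of cst
  have hcst1 : ∀ τ k, -2 ≤ τ → τ < 2 → cst w D (τ + 1) k = cst w D τ k := fun τ k a b =>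
    (hNz.2 τ k a b).2.2.2.1
  have hcst : ∀ τ k, -2 ≤ τ → τ ≤ 2 → cst w D τ k = cst w D 0 k := by
    intro τ k ha hb
    have a1 := hcst1 (-2) k (by norm_num) (by norm_num)
    have a2 := hcst1 (-1) k (by norm_num) (by norm_num)
    have a3 := hcst1 0 k (by norm_num) (by norm_num)
    have a4 := hcst1 1 k (by norm_num) (by norm_num)
    norm_num at a1 a2 a3 a4
    have : τ = -2 ∨ τ = -1 ∨ τ = 0 ∨ τ = 1 ∨ τ = 2 := by omega
    rcases this with h | h | h | h | h <;> subst h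
    · rw [← a1, ← a2]
    · rw [← a2]
    · rfl
    · exact a3
    · rw [a4, a3]
  have hC0 : ∀ k, dat n e r y 0 k 2 ≠ 0 := by
    intro k hk
    have h := (hG.ok.rel 0 k (by norm_num) (by norm_num)).c0
    rw [hk, zero_mul] at h
    exact hG.ok.p0 h.symm
  have hD2 : ∀ k, D 0 k 2 = ((lo n y : ℂ) ^ e) ^ 2 * ((dat n e r y 0 k 2 : ℝ) : ℂ) := by
    intro k
    simp [D, Dn, sz]
  have hD0 : ∀ k, D 0 k 0 = ((lo n y : ℂ) ^ e) * ((dat n e r y 0 k 0 : ℝ) : ℂ) := by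
    intro k
    simp [D, Dn, sz]
  have hDz : ∀ k, D 0 k = sz ((lo n y : ℂ) ^ e) (fun j => ((dat n e r y 0 k j : ℝ) : ℂ)) := by
    intro k
    funext j
    fin_cases j <;> simp [D, Dn, sz]
  have hcst0 : ∀ k, cst w D 0 k =
      (((lo n y ^ e) ^ 2 * (cm n e r y k + pc n e r y 0 / cm n e r y k) : ℝ) : ℂ) := by
    intro k
    have hw03 : w 0 * e3 w = ((sp (lo n y ^ e) (pc n e r y) 0 : ℝ) : ℂ) := by
      rw [← congrFun hpww 0]
      simp only [pw, e3, Matrix.cons_val_zero]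
      ring
    unfold cst
    rw [hw03, hD2]
    have hc : ((dat n e r y 0 k 2 : ℝ) : ℂ) ≠ 0 := by exact_mod_cast hC0 k
    simp only [sp, Matrix.cons_val_zero, cm]
    push_cast
    field_simp
  have hchi : ∀ τ, -2 ≤ τ → τ ≤ 2 → ∀ k a, a ≠ 0 → chi w (w a) ≠ cst w D τ k := by
    intro τ ha hb k a hane heq
    rw [hcst τ k ha hb, hcst0 k] at heq
    have hz : rsv (pw w) (chi w (w a)) = 0 := by
      rw [hP4 ℂ w]
      fin_cases a
      · exact absurd rfl hane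
      · simp
      · simp
      · simp
    rw [heq, hpww] at hz
    have hz2 : rsv (sp (lo n y ^ e) (pc n e r y))
        ((lo n y ^ e) ^ 2 * (cm n e r y k + pc n e r y 0 / cm n e r y k)) = 0 := by
      have : (((rsv (sp (lo n y ^ e) (pc n e r y))
        ((lo n y ^ e) ^ 2 * (cm n e r y k + pc n e r y 0 / cm n e r y k)) : ℝ)) : ℂ) = 0 := by
        rw [← hz]
        simp only [rsv]
        push_cast
        ring
      exact_mod_cast this
    rw [hSr3] at hz2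
    rcases mul_eq_zero.mp hz2 with h | h
    · exact pow_ne_zero 6 hL h
    · exact hG.rv k h
  have hδ : δ = (lo n y : ℂ) ^ 4 * (cc n y 2 : ℂ) := by
    have h : cc n y 2 / |cc n y 2| = lo n y ^ 4 * cc n y 2 := by
      have ha : |cc n y 2| ≠ 0 := abs_ne_zero.mpr hG.c2
      rw [div_eq_iff ha]
      calc cc n y 2 = (lo n y ^ 4 * |cc n y 2|) * cc n y 2 := by rw [hl4, one_mul]
        _ = _ := by ring
    simp only [δ]
    rw [h]
    push_cast
    ring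
  have hδe : δ ^ e = ((lo n y : ℂ) ^ e) ^ 4 * ((pc n e r y 0 : ℝ) : ℂ) := by
    rw [hδ, hp0, mul_pow, ← pow_mul, ← pow_mul, mul_comm 4 e]
  have hprod : m 0 * m 1 * m 2 * m 3 = δ := by
    rw [hδ, ← hs4]
    simp only [m]
    ring
  have hne : ∀ a, a ≠ 0 → (μ 0 * μ a) ^ 2 ≠ ((cc n y 2 : ℝ) : ℂ) := by
    intro a ha heq
    have hd : ((cc n y 2 - cc n y 1 ^ 2 : ℝ) : ℂ) ≠ 0 := by
      have : cc n y 2 - cc n y 1 ^ 2 ≠ 0 := sub_ne_zero.mpr hc12.symm
      exact_mod_cast this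
    apply hd
    rw [← hdisc]
    rw [← hs4] at heq
    have hμa : μ 0 * μ a ≠ 0 := mul_ne_zero (hμ0 0) (hμ0 a)
    have h123 : a = 1 ∨ a = 2 ∨ a = 3 := by
      revert ha
      clear * -
      revert a
      decide
    rcases h123 with rfl | rfl | rfl
    · have : μ 0 * μ 1 = μ 2 * μ 3 := by
        apply mul_left_cancel₀ hμa
        linear_combination heq
      rw [this, sub_self]; ring
    · have : μ 0 * μ 2 = μ 1 * μ 3 := by
        apply mul_left_cancel₀ hμa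
        linear_combination heq
      rw [this, sub_self]; ring
    · have : μ 0 * μ 3 = μ 1 * μ 2 := by
        apply mul_left_cancel₀ hμa
        linear_combination heq
      rw [this, sub_self]; ring
  have hper1 : ∀ σ k, Dn n e r y σ (k + n) = Dn n e r y σ k := by
    intro σ k
    simp only [Dn]
    rw [hdat]
  have hper2 : ∀ σ k, Hn n e r y σ (k + n) = Hn n e r y σ k := by
    intro σ k
    simp only [Hn, leta]
    rw [hdat, hdat]
  have hAw : ∀ h : ℂ, Aw n e r (δ ^ e) (fun j => D 0 j 2) ((lo n y : ℂ) ^ 2 * h) =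
      ((lo n y : ℂ) ^ 2) ^ (r - n * e) * (((lo n y : ℂ) ^ e) ^ 2) ^ n * Av n e r y h := by
    intro h
    rw [hδe]
    have hf : (fun j : ℤ => D 0 j 2) =
        fun j : ℤ => ((lo n y : ℂ) ^ e) ^ 2 * ((cm n e r y j : ℝ) : ℂ) := by
      funext j; exact hD2 j
    rw [hf, Dn_Aw n e r _ hlc]
    congr 1
    unfold Aw Av
    congr 1
    apply Finset.prod_congr rfl
    intro j _
    push_cast
    rfl
  refine ⟨hl, hm0, hw0, hw, hpww, hOkr, hOkc, hchi, ?_, hper1, hper2, ?_, hprod, ?_, ?_⟩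
  · intro k heq
    rw [hD2, hδe, mul_pow, ← pow_mul, show 2 * 2 = 4 from rfl] at heq
    have := mul_left_cancel₀ (pow_ne_zero 4 hLc) heq
    have h' : (dat n e r y 0 k 2) ^ 2 = pc n e r y 0 := by exact_mod_cast this
    exact hG.cp k h'
  · intro j
    have hws : ∀ k : ℤ, w j ≠ D 0 k 0 := fun k => hNz.1 0 k (by norm_num) (by norm_num) j
    have hne' : ∀ k : ℤ, μ j ^ e - ((dat n e r y 0 k 0 : ℝ) : ℂ) ≠ 0 := by
      intro k h
      apply hws k
      rw [hD0, hwL]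
      simp only
      rw [sub_eq_zero.mp h]
    have hquo : ∀ k ∈ Finset.range n, (qv (D 0 k) (w j) / (w j - D 0 k 0)) =
        (lo n y : ℂ) ^ e * (qv (fun i => ((dat n e r y 0 k i : ℝ) : ℂ)) (μ j ^ e) /
          (μ j ^ e - ((dat n e r y 0 k 0 : ℝ) : ℂ))) := by
      intro k _
      rw [hDz, hwL, Dn_qv]
      have h := hne' k
      simp only [sz, Matrix.cons_val_zero]
      rw [← mul_sub, pow_two, mul_assoc, mul_div_mul_left _ _ hLc, mul_div_assoc]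
    rw [Finset.prod_congr rfl hquo, Finset.prod_mul_distrib, Finset.prod_const,
      Finset.card_range, Finset.prod_div_distrib]
    have hX := (hXi j).2.2.2.2.2.2.2
    rw [Finset.prod_mul_distrib] at hX
    have hka : (∏ k ∈ Finset.range n, ((kap n e r y k : ℝ) : ℂ)) ≠ 0 :=
      Finset.prod_ne_zero_iff.mpr fun k _ => by exact_mod_cast hG.ka k
    have hden : (∏ k ∈ Finset.range n, (μ j ^ e - ((dat n e r y 0 k 0 : ℝ) : ℂ))) ≠ 0 :=
      Finset.prod_ne_zero_iff.mpr fun k _ => hne' k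
    have hq : (∏ k ∈ Finset.range n, qv (fun i => ((dat n e r y 0 k i : ℝ) : ℂ)) (μ j ^ e)) /
        (∏ k ∈ Finset.range n, (μ j ^ e - ((dat n e r y 0 k 0 : ℝ) : ℂ))) =
        μ j ^ r / ∏ k ∈ Finset.range n, ((kap n e r y k : ℝ) : ℂ) := by
      rw [div_eq_div_iff hden hka, mul_comm (μ j ^ r), hX]
      ring
    rw [hq]
    have hmr : m j ^ r = (lo n y : ℂ) ^ r * μ j ^ r := mul_zpow _ _ _
    rw [hmr]
    push_cast
    have hlr : (lo n y : ℂ) ^ (-r) * (lo n y : ℂ) ^ r = 1 := by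
      rw [← zpow_add₀ hlc]; simp
    rw [← pow_mul]
    calc (lo n y : ℂ) ^ (e * n) * (μ j ^ r / ∏ k ∈ Finset.range n, ((kap n e r y k : ℝ) : ℂ))
        = (lo n y : ℂ) ^ (e * n) * ((lo n y : ℂ) ^ (-r) * (lo n y : ℂ) ^ r) *
          (μ j ^ r / ∏ k ∈ Finset.range n, ((kap n e r y k : ℝ) : ℂ)) := by rw [hlr, mul_one]
      _ = _ := by ring
  · intro a ha heq
    apply hne a ha
    have : (m 0 * m a) ^ 2 = (lo n y : ℂ) ^ 4 * (μ 0 * μ a) ^ 2 := by
      simp only [m]; ring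
    rw [this, hδ] at heq
    exact mul_left_cancel₀ (pow_ne_zero 4 hlc) heq
  · intro a ha
    have e1 : m 0 * m a = (lo n y : ℂ) ^ 2 * (μ 0 * μ a) := by
      simp only [m]; ring
    have hμa : μ 0 * μ a ≠ 0 := mul_ne_zero (hμ0 0) (hμ0 a)
    have e2 : δ / (m 0 * m a) = (lo n y : ℂ) ^ 2 * ((cc n y 2 : ℂ) / (μ 0 * μ a)) := by
      rw [e1, hδ]
      field_simp
    rw [e2, e1, hAw, hAw]
    intro h
    have hc : ((lo n y : ℂ) ^ 2) ^ (r - n * e) * (((lo n y : ℂ) ^ e) ^ 2) ^ n ≠ 0 :=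
      mul_ne_zero (zpow_ne_zero _ (pow_ne_zero _ hlc))
        (pow_ne_zero _ (pow_ne_zero _ hLc))
    exact hG.k2 (μ 0) (μ a) (hroot 0) (hroot a) (hne a ha) (mul_left_cancel₀ hc h)

end Pool.Agent.MP62a5ad.QN
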