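import Pool.Agent.Lib.MP_62a5ad_mp.QN.SpecE

/-!
# MP_62a5ad_mp, project QN: closure properties of determined functions
-/

set_option autoImplicit false

namespace Pool.Agent.MP62a5ad.QN

open Matrix
open scoped ContDiff

namespace DtAux

variable {n : ℕ} {O : Set (E n)} {Θ : E n → Ix n → ℂ}

private theorem da (hO : IsOpen O) {g : E n → ℂ} (h : ContDiffOn ℝ ∞ g O) {y : E n}
    (hy : y ∈ O) : DifferentiableAt ℝ g y :=
  (h.contDiffAt (hO.mem_nhds hy)).differentiableAt (by simp)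

private theorem kst (hd : S_Dd) (c : ℂ) : Dtm O Θ fun _ => c :=
  ⟨contDiffOn_const, fun y _ w _ => (hd (Ix n) w y).2.1 c⟩

private theorem add (hd : S_Dd) (hO : IsOpen O) {f g : E n → ℂ} (hf : Dtm O Θ f)
    (hg : Dtm O Θ g) : Dtm O Θ fun y => f y + g y :=
  ⟨hf.1.add hg.1, fun y hy w hw => by
    rw [((hd (Ix n) w y).1 f g (da hO hf.1 hy) (da hO hg.1 hy)).1, hf.2 y hy w hw,
      hg.2 y hy w hw, add_zero]⟩

private theorem sub (hd : S_Dd) (hO : IsOpen O) {f g : E n → ℂ} (hf : Dtm O Θ f)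
    (hg : Dtm O Θ g) : Dtm O Θ fun y => f y - g y :=
  ⟨hf.1.sub hg.1, fun y hy w hw => by
    rw [((hd (Ix n) w y).1 f g (da hO hf.1 hy) (da hO hg.1 hy)).2.1, hf.2 y hy w hw,
      hg.2 y hy w hw, sub_zero]⟩

private theorem mul (hd : S_Dd) (hO : IsOpen O) {f g : E n → ℂ} (hf : Dtm O Θ f)
    (hg : Dtm O Θ g) : Dtm O Θ fun y => f y * g y :=
  ⟨hf.1.mul hg.1, fun y hy w hw => by
    rw [((hd (Ix n) w y).1 f g (da hO hf.1 hy) (da hO hg.1 hy)).2.2.1, hf.2 y hy w hw,
      hg.2 y hy w hw, zero_mul, mul_zero, add_zero]⟩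

private theorem neg (hd : S_Dd) (hO : IsOpen O) {f : E n → ℂ} (hf : Dtm O Θ f) :
    Dtm O Θ fun y => -f y := by
  have h := sub hd hO (kst hd 0) hf
  simpa only [zero_sub] using h

private theorem pow (hd : S_Dd) (hO : IsOpen O) {f : E n → ℂ} (hf : Dtm O Θ f) (N : ℕ) :
    Dtm O Θ fun y => f y ^ N :=
  ⟨hf.1.pow N, fun y hy w hw => by
    rw [((hd (Ix n) w y).1 f f (da hO hf.1 hy) (da hO hf.1 hy)).2.2.2.2.2 N, hf.2 y hy w hw,
      mul_zero]⟩

private theorem inv (hd : S_Dd) (hO : IsOpen O) {f : E n → ℂ} (hf : Dtm O Θ f)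
    (h0 : ∀ y ∈ O, f y ≠ 0) : Dtm O Θ fun y => (f y)⁻¹ :=
  ⟨hf.1.inv h0, fun y hy w hw => by
    rw [((hd (Ix n) w y).1 f f (da hO hf.1 hy) (da hO hf.1 hy)).2.2.2.2.1 (h0 y hy),
      hf.2 y hy w hw, neg_zero, zero_div]⟩

private theorem congr (hd : S_Dd) (hO : IsOpen O) {f g : E n → ℂ} (hf : Dtm O Θ f)
    (h : ∀ y ∈ O, g y = f y) : Dtm O Θ g :=
  ⟨hf.1.congr h, fun y hy w hw => by
    have h1 : g =ᶠ[nhds y] f := Filter.eventuallyEq_of_mem (hO.mem_nhds hy) h
    rw [(hd (Ix n) w y).2.2.1 g f h1, hf.2 y hy w hw]⟩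

private theorem dv (hd : S_Dd) (hO : IsOpen O) {f g : E n → ℂ} (hf : Dtm O Θ f)
    (hg : Dtm O Θ g) (h0 : ∀ y ∈ O, g y ≠ 0) : Dtm O Θ fun y => f y / g y := by
  have h := mul hd hO hf (inv hd hO hg h0)
  simpa only [← div_eq_mul_inv] using h

private theorem zpw (hd : S_Dd) (hO : IsOpen O) {g : E n → ℂ} (hg : Dtm O Θ g)
    (h0 : ∀ y ∈ O, g y ≠ 0) (N : ℤ) : Dtm O Θ fun y => g y ^ N := by
  cases N with
  | ofNat N =>
    have h := pow hd hO hg N
    simpa only [Int.ofNat_eq_natCast, zpow_natCast] using h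
  | negSucc N =>
    have h := inv hd hO (pow hd hO hg (N + 1)) fun y hy => pow_ne_zero _ (h0 y hy)
    simpa only [zpow_negSucc] using h

private theorem sm (hd : S_Dd) (hO : IsOpen O) {ι : Type} (s : Finset ι) (f : ι → E n → ℂ)
    (h : ∀ j ∈ s, Dtm O Θ (f j)) : Dtm O Θ fun y => ∑ j ∈ s, f j y := by
  classical
  induction s using Finset.induction_on with
  | empty => simpa only [Finset.sum_empty] using kst hd 0
  | insert a s ha ih =>
    have h1 := add hd hO (h a (Finset.mem_insert_self a s))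
      (ih fun j hj => h j (Finset.mem_insert_of_mem hj))
    simpa only [Finset.sum_insert ha] using h1

private theorem pr (hd : S_Dd) (hO : IsOpen O) {ι : Type} (s : Finset ι) (f : ι → E n → ℂ)
    (h : ∀ j ∈ s, Dtm O Θ (f j)) : Dtm O Θ fun y => ∏ j ∈ s, f j y := by
  classical
  induction s using Finset.induction_on with
  | empty => simpa only [Finset.prod_empty] using kst hd 1
  | insert a s ha ih =>
    have h1 := mul hd hO (h a (Finset.mem_insert_self a s))
      (ih fun j hj => h j (Finset.mem_insert_of_mem hj))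
    simpa only [Finset.prod_insert ha] using h1

private theorem sqr (hd : S_Dd) (hO : IsOpen O) {f g : E n → ℂ} (hf : Dtm O Θ f)
    (hg : ContDiffOn ℝ ∞ g O) (h0 : ∀ y ∈ O, g y ≠ 0) (h : ∀ y ∈ O, g y ^ 2 = f y) :
    Dtm O Θ g := by
  refine ⟨hg, fun y hy w hw => ?_⟩
  have h1 : (fun y => g y ^ 2) =ᶠ[nhds y] f := Filter.eventuallyEq_of_mem (hO.mem_nhds hy) h
  have h2 := (hd (Ix n) w y).2.2.1 _ f h1
  rw [((hd (Ix n) w y).1 g g (da hO hg hy) (da hO hg hy)).2.2.2.2.2 2, hf.2 y hy w hw] at h2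
  rw [mul_eq_zero] at h2
  rcases h2 with h2 | h2
  · exfalso
    rw [mul_eq_zero] at h2
    rcases h2 with h2 | h2
    · norm_num at h2
    · exact h0 y hy (pow_eq_zero_iff (by norm_num) |>.1 h2)
  · exact h2

private theorem sml (hd : S_Dd) (hO : IsOpen O) {f g : E n → ℂ} (hf : Dtm O Θ f)
    (hg : ContDiffOn ℝ ∞ g O) (h0 : ∀ y ∈ O, g y ≠ 0) (P : ℂ)
    (h : ∀ y ∈ O, g y + P / g y = f y) (hP : ∀ y ∈ O, g y ^ 2 ≠ P) : Dtm O Θ g := by
  refine ⟨hg, fun y hy w hw => ?_⟩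
  have h1 : (fun y => g y + P / g y) =ᶠ[nhds y] f :=
    Filter.eventuallyEq_of_mem (hO.mem_nhds hy) h
  have h2 := (hd (Ix n) w y).2.2.1 _ f h1
  have hc : DifferentiableAt ℝ (fun _ : E n => P) y := differentiableAt_const P
  have hgy := da hO hg hy
  have hdv : DifferentiableAt ℝ (fun y => P / g y) y :=
    da hO (by
      have h : ContDiffOn ℝ ∞ (fun y => P * (g y)⁻¹) O :=
        contDiffOn_const.mul (hg.inv h0)
      simpa only [← div_eq_mul_inv] using h) hy
  rw [((hd (Ix n) w y).1 g (fun y => P / g y) hgy hdv).1,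
    ((hd (Ix n) w y).1 (fun _ => P) g hc hgy).2.2.2.1 (h0 y hy), (hd (Ix n) w y).2.1 P,
    hf.2 y hy w hw, zero_mul, zero_sub] at h2
  have h3 : g y ≠ 0 := h0 y hy
  have h4 : dd w g y * (g y ^ 2 - P) = 0 := by
    have h5 : dd w g y + -(P * dd w g y) / g y ^ 2 = 0 := h2
    field_simp at h5
    linear_combination h5
  exact (mul_eq_zero.1 h4).resolve_right (sub_ne_zero.2 (hP y hy))

private theorem pC (hd : S_Dd) {f : E n → ℂ} (hf : Dtm O Θ f) :
    DtP O Θ fun y => Polynomial.C (f y) := by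
  intro k
  by_cases hk : k = 0
  · subst hk
    simpa only [Polynomial.coeff_C_zero] using hf
  · simpa only [Polynomial.coeff_C_of_ne_zero hk] using kst hd 0

private theorem pK (hd : S_Dd) (F : Polynomial ℂ) : DtP O Θ fun _ => F := fun k =>
  kst hd (F.coeff k)

private theorem pAdd (hd : S_Dd) (hO : IsOpen O) {F G : E n → Polynomial ℂ} (hF : DtP O Θ F)
    (hG : DtP O Θ G) : DtP O Θ fun y => F y + G y := by
  intro k
  simpa only [Polynomial.coeff_add] using add hd hO (hF k) (hG k)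

private theorem pSub (hd : S_Dd) (hO : IsOpen O) {F G : E n → Polynomial ℂ} (hF : DtP O Θ F)
    (hG : DtP O Θ G) : DtP O Θ fun y => F y - G y := by
  intro k
  simpa only [Polynomial.coeff_sub] using sub hd hO (hF k) (hG k)

private theorem pMul (hd : S_Dd) (hO : IsOpen O) {F G : E n → Polynomial ℂ} (hF : DtP O Θ F)
    (hG : DtP O Θ G) : DtP O Θ fun y => F y * G y := by
  intro k
  have h := sm hd hO (Finset.HasAntidiagonal.antidiagonal k)
    (fun (p : ℕ × ℕ) y => (F y).coeff p.1 * (G y).coeff p.2)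
    (fun p _ => mul hd hO (hF p.1) (hG p.2))
  simpa only [Polynomial.coeff_mul] using h

private theorem pPow (hd : S_Dd) (hO : IsOpen O) {F : E n → Polynomial ℂ} (hF : DtP O Θ F)
    (N : ℕ) : DtP O Θ fun y => F y ^ N := by
  induction N with
  | zero => simpa only [pow_zero] using pK hd 1
  | succ N ih => simpa only [pow_succ] using pMul hd hO ih hF

private theorem pSum (hd : S_Dd) (hO : IsOpen O) (N : ℕ) (F : ℕ → E n → Polynomial ℂ)
    (h : ∀ j, DtP O Θ (F j)) : DtP O Θ fun y => ∑ j ∈ Finset.range N, F j y := by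
  induction N with
  | zero => simpa only [Finset.sum_range_zero] using pK hd 0
  | succ N ih => simpa only [Finset.sum_range_succ] using pAdd hd hO ih (h N)

private theorem pProd (hd : S_Dd) (hO : IsOpen O) (N : ℕ) (F : ℕ → E n → Polynomial ℂ)
    (h : ∀ j, DtP O Θ (F j)) : DtP O Θ fun y => ∏ j ∈ Finset.range N, F j y := by
  induction N with
  | zero => simpa only [Finset.prod_range_zero] using pK hd 1
  | succ N ih => simpa only [Finset.prod_range_succ] using pMul hd hO ih (h N)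

end DtAux

open DtAux in
theorem sDt (h1 : S_Dd) : S_Dt := by
  intro n _ O Θ hO
  refine ⟨fun c => kst h1 c, fun f g hf hg => ⟨add h1 hO hf hg, sub h1 hO hf hg, mul h1 hO hf hg,
    neg h1 hO hf, pow h1 hO hf, fun h0 => ⟨inv h1 hO hg h0, dv h1 hO hf hg h0, zpw h1 hO hg h0⟩⟩,
    fun f g hf h => congr h1 hO hf h,
    fun N f h => ⟨sm h1 hO _ f fun j _ => h j, pr h1 hO _ f fun j _ => h j⟩,
    fun f h => ⟨sm h1 hO _ f fun j _ => h j, pr h1 hO _ f fun j _ => h j⟩,
    fun f g hf hg h0 => ⟨sqr h1 hO hf hg h0, fun P => sml h1 hO hf hg h0 P⟩,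
    fun f hf => pC h1 hf, pK h1 _,
    fun F G hF hG => ⟨pAdd h1 hO hF hG, pSub h1 hO hF hG, pMul h1 hO hF hG, pPow h1 hO hF⟩,
    fun N F h => ⟨pSum h1 hO N F h, pProd h1 hO N F h⟩,
    fun O' hO' g hg => ⟨hg.1.mono hO', fun y hy w hw => hg.2 y (hO' hy) w hw⟩⟩

end Pool.Agent.MP62a5ad.QN
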