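import Pool.Agent.Lib.MP_62a5ad_mp.QN.SpecC

/-!
# MP_62a5ad_mp, project QN, part C: divided differences
-/

set_option autoImplicit false

namespace Pool.Agent.MP62a5ad.QN

namespace DzAux

open Finset

variable {K : Type} [Field K]

theorem dz_mul (k : ℕ) (x x' : K) : (x - x') * dz k x x' = x ^ k - x' ^ k := by
  unfold dz
  rw [mul_comm]
  exact geom_sum₂_mul x x' k

theorem Dq_succ (n e : ℕ) (C : ℕ → K) (x x' : K) :
    Dq (n + 1) e C x x' = Dq n e C x x' * (C n - x ^ e) - qd n e C x' * dz e x x' := by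
  unfold Dq qd
  rw [sum_range_succ, Ico_self, prod_empty, mul_one, neg_add, neg_mul, sum_mul, sub_eq_add_neg]
  congr 2
  refine sum_congr rfl fun j hj => ?_
  rw [prod_Ico_succ_top (mem_range.1 hj)]
  ring

theorem Dq_mul (n e : ℕ) (C : ℕ → K) (x x' : K) :
    (x - x') * Dq n e C x x' = qd n e C x - qd n e C x' := by
  induction n with
  | zero => simp [Dq, qd]
  | succ n ih =>
    have h1 : qd (n + 1) e C x = qd n e C x * (C n - x ^ e) := prod_range_succ _ _
    have h2 : qd (n + 1) e C x' = qd n e C x' * (C n - x' ^ e) := prod_range_succ _ _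
    have h3 := dz_mul e x x'
    rw [Dq_succ, h1, h2]
    linear_combination (C n - x ^ e) * ih - qd n e C x' * h3

theorem dz_self (k : ℕ) (x : K) : dz k x x * x = k * x ^ k := by
  unfold dz
  rw [sum_mul]
  have h : ∀ i ∈ range k, x ^ i * x ^ (k - 1 - i) * x = x ^ k := by
    intro i hi
    have h1 := mem_range.1 hi
    rw [← pow_add, ← pow_succ]
    congr 1
    omega
  rw [sum_congr rfl h, sum_const, card_range, nsmul_eq_mul]

theorem Dq_self (n e : ℕ) (C : ℕ → K) (c x : K) (hC : ∀ j, C j = c) :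
    Dq n e C x x * x = -(n * e * x ^ e * (c - x ^ e) ^ (n - 1)) := by
  unfold Dq
  have h : ∀ j ∈ range n, (∏ i ∈ range j, (C i - x ^ e)) * dz e x x *
      ∏ i ∈ Ico (j + 1) n, (C i - x ^ e) = dz e x x * (c - x ^ e) ^ (n - 1) := by
    intro j hj
    have h1 := mem_range.1 hj
    simp only [hC]
    rw [prod_const, prod_const, card_range, Nat.card_Ico, mul_assoc, mul_left_comm, ← pow_add]
    congr 2
    omega
  rw [sum_congr rfl h, sum_const, card_range, nsmul_eq_mul, neg_mul]
  have h2 := dz_self e x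
  linear_combination (-(n : K) * (c - x ^ e) ^ (n - 1)) * h2

theorem qd_self (n e : ℕ) (C : ℕ → K) (c x : K) (hC : ∀ j, C j = c) :
    qd n e C x = (c - x ^ e) ^ n := by
  unfold qd
  simp only [hC]
  rw [prod_const, card_range]

end DzAux

theorem tDz : S_Dz := by
  intro K _ n e C k x x' hx hx'
  have hq := DzAux.Dq_mul n e C x x'
  refine ⟨?_, ?_⟩
  · unfold Sk
    by_cases hk : 0 ≤ k
    · obtain ⟨κ, rfl⟩ := Int.eq_ofNat_of_zero_le hk
      have hd := DzAux.dz_mul κ x x'
      rw [if_pos hk, if_pos hk, Int.toNat_natCast, zpow_natCast, zpow_natCast]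
      linear_combination -qd n e C x * hd - x' ^ κ * hq
    · obtain ⟨κ, hκ⟩ : ∃ κ : ℕ, k = -(κ : ℤ) := ⟨(-k).toNat, by omega⟩
      subst hκ
      have hd := DzAux.dz_mul κ x x'
      rw [if_neg hk, if_neg hk, neg_neg, Int.toNat_natCast, zpow_neg, zpow_neg, zpow_neg,
        zpow_natCast, zpow_natCast, zpow_natCast, mul_pow]
      have h1 : x ^ κ ≠ 0 := pow_ne_zero _ hx
      have h2 : x' ^ κ ≠ 0 := pow_ne_zero _ hx'
      have h3 : (x - x') * (-dz κ x x' * qd n e C x + x ^ κ * Dq n e C x x') =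
          x' ^ κ * qd n e C x - x ^ κ * qd n e C x' := by
        linear_combination -qd n e C x * hd + x ^ κ * hq
      rw [h3]
      field_simp
  · intro c hC hn he
    have h1 := DzAux.Dq_self n e C c x hC
    have h2 := DzAux.qd_self n e C c x hC
    have h4 : (c - x ^ e) ^ n = (c - x ^ e) ^ (n - 1) * (c - x ^ e) := by
      rw [← pow_succ]
      congr 1
      omega
    unfold Sk
    by_cases hk : 0 ≤ k
    · obtain ⟨κ, rfl⟩ := Int.eq_ofNat_of_zero_le hk
      have hd := DzAux.dz_self κ x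
      rw [if_pos hk, Int.toNat_natCast, Int.natAbs_natCast, h2, h4, Int.cast_natCast]
      linear_combination (c - x ^ e) ^ (n - 1) * (c - x ^ e) * hd + x ^ κ * h1
    · obtain ⟨κ, hκ⟩ : ∃ κ : ℕ, k = -(κ : ℤ) := ⟨(-k).toNat, by omega⟩
      subst hκ
      have hd := DzAux.dz_self κ x
      rw [if_neg hk, neg_neg, Int.toNat_natCast, Int.natAbs_neg, Int.natAbs_natCast, h2, h4,
        Int.cast_neg, Int.cast_natCast]
      linear_combination -((c - x ^ e) ^ (n - 1) * (c - x ^ e)) * hd + x ^ κ * h1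

end Pool.Agent.MP62a5ad.QN
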