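import Pool.Agent.Lib.MP_62a5ad_mp.QN.SpecB

/-!
# MP_62a5ad_mp, project QN, module Ei: the eigenvalue of a solution of the recurrence
-/

set_option autoImplicit false

namespace Pool.Agent.MP62a5ad.QN

open Matrix

private theorem Ei_step {K : Type} [Field K] {n : ℕ} [NeZero n] (θ : Ix n → K) (x : K)
    (R : ℤ → K) (m : ℤ)
    (h : R (m + 1) * R m = (x - θ (rs n (m + 1), 0) - θ (rs n m, 1)) * R m +
      θ (rs n m, 1) * (x - θ (rs n m, 2))) :
    Lc θ x m *ᵥ ![1, R m - (x - θ (rs n m, 0))] =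
      R m • ![1, R (m + 1) - (x - θ (rs n (m + 1), 0))] := by
  unfold Lc Lx
  ext i
  fin_cases i
  · simp [Matrix.mulVec, dotProduct, Fin.sum_univ_two]
  · simp only [Matrix.mulVec, dotProduct, Fin.sum_univ_two, Fin.mk_one, Matrix.of_apply,
      Matrix.cons_val', Matrix.cons_val_zero, Matrix.cons_val_one, Matrix.cons_val_fin_one,
      Pi.smul_apply, smul_eq_mul]
    linear_combination -h

theorem sEi (h1 : S_Nm) : S_Ei := by
  intro K _ n _ θ x R _ hper hrec
  obtain ⟨-, hrs, -, -, -, -, hdet, -⟩ := h1 K n θ x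
  have key : ∀ k : ℕ, Nc θ x 0 k *ᵥ ![1, R 0 - (x - θ (rs n 0, 0))] =
      (∏ m ∈ Finset.range k, R m) • ![1, R k - (x - θ (rs n k, 0))] := by
    intro k
    induction k with
    | zero => simp [Nc]
    | succ k ih =>
      have hk := hrec ((k : ℤ) + 1)
      rw [show ((k : ℤ) + 1 - 1) = k by ring] at hk
      have hs := Ei_step θ x R (k : ℤ) hk
      change (Lc θ x (0 + (k : ℤ)) * Nc θ x 0 k) *ᵥ _ = _
      rw [zero_add, ← Matrix.mulVec_mulVec, ih, Matrix.mulVec_smul, hs, smul_smul,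
        Finset.prod_range_succ]
      push_cast
      rfl
  have hn := key n
  have e1 : R ((n : ℕ) : ℤ) = R 0 := by
    have := hper 0
    rwa [zero_add] at this
  have e2 : rs n ((n : ℕ) : ℤ) = rs n 0 := by
    have := (hrs 0 0).1
    rwa [zero_add] at this
  rw [e1, e2] at hn
  have hd := hdet 0
  rw [← hd]
  change _ - (Nm θ x 0).trace * _ + _ = 0
  have hN : Nc θ x 0 n = Nm θ x 0 := rfl
  rw [hN] at hn
  generalize Nm θ x 0 = N at hn ⊢
  generalize (∏ m ∈ Finset.range n, R m) = l at hn ⊢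
  generalize R 0 - (x - θ (rs n 0, 0)) = f at hn
  have a0 := congrFun hn 0
  have a1 := congrFun hn 1
  simp only [Matrix.mulVec, dotProduct, Fin.sum_univ_two, Matrix.cons_val_zero,
    Matrix.cons_val_one, Pi.smul_apply, smul_eq_mul, mul_one] at a0 a1
  rw [Matrix.trace_fin_two, Matrix.det_fin_two]
  linear_combination (-(l - N 1 1)) * a0 + (-(N 0 1)) * a1

end Pool.Agent.MP62a5ad.QN
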