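import Pool.Agent.Lib.MP_62a5ad_mp.QN.SpecA

/-!
# MP_62a5ad_mp, project QN: evolution (`S_Ev`)
-/

set_option autoImplicit false

namespace Pool.Agent.MP62a5ad.QN

theorem Ev_CC {K : Type} [Field K] {p : Fin 4 → K} {sh sp η ηm : K} {zm z z' : Fin 3 → K}
    (r1 : Rel p sh zm z ηm) (r2 : Rel p sp z z' η) (hC : z 2 ≠ 0) : zm 2 = z' 2 := by
  have h1 := r1.c0
  have h2 := r2.c0
  have h3 : z 2 * zm 2 = z 2 * z' 2 := by rw [h2, ← h1, mul_comm]
  exact mul_left_cancel₀ hC h3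

theorem Ev_E2 {K : Type} [Field K] {p : Fin 4 → K} {sh sp η ηm : K} {zm z z' : Fin 3 → K}
    (r1 : Rel p sh zm z ηm) (r2 : Rel p sp z z' η) (hC : z 2 ≠ 0) (x : K) :
    η * ((x - z 0) * (x - sh)) - ηm * ((x - sp) * (x - z' 0)) =
      η * ηm * (zm 1 - z' 1) * qv z x := by
  have hCC := Ev_CC r1 r2 hC
  unfold qv
  linear_combination -(x ^ 2) * (η * r1.c3 - ηm * r2.c3) - x * (η * r1.c2 - ηm * r2.c2) -
    (η * r1.c1 - ηm * r2.c1) + (x * η * ηm + η * ηm * z 1) * hCC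

theorem Ev_a {K : Type} [Field K] {p : Fin 4 → K} {sh sp η ηm : K} {zm z z' : Fin 3 → K}
    (r1 : Rel p sh zm z ηm) (r2 : Rel p sp z z' η) (hC : z 2 ≠ 0) (hη : η ≠ 0) (hηm : ηm ≠ 0)
    (hd : sh ≠ sp) :
    (sh - sp) * ηm * qv z (z' 0) = η * qv z sh * (z' 0 - z 0) := by
  have hCC := Ev_CC r1 r2 hC
  have E := Ev_E2 r1 r2 hC
  have e1 := E sh
  have e2 := E (z' 0)
  by_cases hv : zm 1 - z' 1 = 0
  · have h1 : η = ηm := by
      linear_combination -(η * r1.c3 - ηm * r2.c3) + η * ηm * hv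
    have h2 : sh = z' 0 := by
      have h3 : ηm * ((sh - sp) * (sh - z' 0)) = 0 := by
        linear_combination -e1 - η * ηm * qv z sh * hv
      have h4 : (sh - sp) * (sh - z' 0) = 0 := (mul_eq_zero.1 h3).resolve_left hηm
      exact sub_eq_zero.1 ((mul_eq_zero.1 h4).resolve_left (sub_ne_zero.2 hd))
    have h5 : z 0 = sp := by
      have h6 : η * (z 0 - sp) = 0 := by
        linear_combination (η * r1.c2 - ηm * r2.c2) - η * ηm * hCC - η * ηm * z 1 * hv -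
          η * h2 - (sp + z' 0) * h1
      exact sub_eq_zero.1 ((mul_eq_zero.1 h6).resolve_left hη)
    rw [← h2, h5, h1]
    ring
  · have h3 : η * ηm * (zm 1 - z' 1) ≠ 0 := mul_ne_zero (mul_ne_zero hη hηm) hv
    refine mul_left_cancel₀ h3 ?_
    linear_combination -((sh - sp) * ηm) * e2 + η * (z' 0 - z 0) * e1

theorem Ev_alg {K : Type} [Field K] (μ γ s sh sp s' η ηm Qs' Qsh Qμ J : K) (hη : η ≠ 0)
    (hηm : ηm ≠ 0) (hQ : Qμ ≠ 0) (hd : sh - sp ≠ 0)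
    (a : (sh - sp) * ηm * Qs' = η * Qsh * (s' - s))
    (b : η * Qμ * J = -(μ * (μ - sp) * Qs')) :
    γ * J + μ * γ * ((μ - sp) * Qsh / (Qμ * (sh - sp))) / ηm * (s' - s) = 0 := by
  have h1 : μ * γ * ((μ - sp) * Qsh / (Qμ * (sh - sp))) / ηm * (s' - s) =
      μ * γ * (μ - sp) * (Qsh * (s' - s)) / (Qμ * (sh - sp) * ηm) := by
    field_simp
  have h2 : Qsh * (s' - s) = (sh - sp) * ηm * Qs' / η := by
    rw [eq_div_iff hη]
    linear_combination -a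
  have h3 : J = -(μ * (μ - sp) * Qs') / (η * Qμ) := by
    rw [eq_div_iff (mul_ne_zero hη hQ)]
    linear_combination b
  rw [h1, h2, h3]
  field_simp
  ring

theorem sEv (h1 : S_Rel) (h2 : S_Jx) (h3 : S_Nz) : S_Ev := by
  intro K _ w D H τ hw hO m
  have _ := h1
  obtain ⟨N1, N2⟩ := h3 K w D H (τ - 1) (τ + 1) hw hO
  have r1 := hO.rel (τ - 1) m le_rfl (by omega)
  have r2 := hO.rel τ m (by omega) (by omega)
  have hη := hO.eta τ m (by omega) (by omega)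
  have hηm := hO.eta (τ - 1) m le_rfl (by omega)
  have hnd := hO.nd (τ - 1) (m + 1) le_rfl (by omega)
  have hμ := N1 (τ + 1) m (by omega) le_rfl 0
  obtain ⟨-, -, -, -, -, -, -, -, -, -, -, -, -, hJs, hγ, -, -, -⟩ :=
    N2 (τ - 1) m le_rfl (by omega)
  obtain ⟨hC, -, -, -, -, hq, -⟩ := N2 τ m (by omega) (by omega)
  obtain ⟨-, J2, J3, -⟩ := h2 K w (D τ (m + 1) 0) (H τ m) (D τ m) (D (τ + 1) m) hw hη r2
  rw [sub_add_cancel] at r1 hnd hJs hγ
  have a := Ev_a r1 r2 hC hη hηm hnd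
  have hQμ : qv (D τ m) (w 0) ≠ 0 := (hq 0).1
  have b : H τ m * qv (D τ m) (w 0) * jv w (D τ m) (D (τ + 1) m 0) =
      -(w 0 * (w 0 - D τ (m + 1) 0) * qv (D τ m) (D (τ + 1) m 0)) := by
    have hs : D (τ + 1) m 0 - w 0 ≠ 0 := sub_ne_zero.2 (Ne.symm hμ)
    refine mul_right_cancel₀ hs ?_
    linear_combination qv (D τ m) (w 0) * J2 (D (τ + 1) m 0) + qv (D τ m) (D (τ + 1) m 0) * J3 0
  have key : gam w D τ m * jv w (D τ m) (D (τ + 1) m 0) +
      rho w D H τ m * (D (τ + 1) m 0 - D τ m 0) = 0 := by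
    have h4 := Ev_alg (w 0) (gam w D τ m) (D τ m 0) (D (τ - 1) (m + 1) 0) (D τ (m + 1) 0)
      (D (τ + 1) m 0) (H τ m) (H (τ - 1) m) (qv (D τ m) (D (τ + 1) m 0))
      (qv (D τ m) (D (τ - 1) (m + 1) 0)) (qv (D τ m) (w 0)) (jv w (D τ m) (D (τ + 1) m 0))
      hη hηm hQμ (sub_ne_zero.2 hnd) a b
    have h5 : rho w D H τ m = w 0 * gam w D τ m * ((w 0 - D τ (m + 1) 0) *
        qv (D τ m) (D (τ - 1) (m + 1) 0) / (qv (D τ m) (w 0) *
        (D (τ - 1) (m + 1) 0 - D τ (m + 1) 0))) / H (τ - 1) m := by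
      unfold rho dlt
      rw [add_sub_cancel_right]
    rw [h5]
    exact h4
  obtain ⟨κ, hκ⟩ : ∃ κ : K, κ = gam w D τ m * jA w (D τ m) + rho w D H τ m := ⟨_, rfl⟩
  have hlin : ∀ x, gam w D τ m * jv w (D τ m) x + rho w D H τ m * (x - D τ m 0) =
      κ * (x - D (τ + 1) m 0) := by
    intro x
    unfold jv at key ⊢
    rw [hκ]
    linear_combination key
  refine ⟨κ, fun hκ0 => ?_, hlin⟩
  have h6 := hlin (D τ m 0)
  rw [hκ0, zero_mul, sub_self, mul_zero, add_zero] at h6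
  exact mul_ne_zero hγ hJs h6

end Pool.Agent.MP62a5ad.QN
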