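import Pool.Agent.Lib.MP_62a5ad_mp.QN.SpecE

set_option autoImplicit false

namespace Pool.Agent.MP62a5ad.QN

open scoped ContDiff

private theorem Fc_smc {n : ℕ} {U : Set (E n)} {g : E n → ℂ} (hU : IsOpen U)
    (hg : ContDiffOn ℝ ∞ g U) (j : Ix n) : ContDiffOn ℝ ∞ (fun x => cpd g j x) U := by
  have h1 : ContDiffOn ℝ ∞ (fderiv ℝ g) U := hg.fderiv_of_isOpen hU (by simp)
  exact h1.clm_apply contDiffOn_const

private theorem Fc_sym {n : ℕ} {U : Set (E n)} {g : E n → ℂ} (hU : IsOpen U)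
    (hg : ContDiffOn ℝ ∞ g U) {y : E n} (hy : y ∈ U) (i j : Ix n) :
    cpd (fun x => cpd g i x) j y = cpd (fun x => cpd g j x) i y := by
  have h1 : ContDiffAt ℝ ∞ g y := hg.contDiffAt (hU.mem_nhds hy)
  have h2 : DifferentiableAt ℝ (fderiv ℝ g) y :=
    ((hg.fderiv_of_isOpen hU (m := ∞) (by simp)).contDiffAt (hU.mem_nhds hy)).differentiableAt
      (by simp)
  have h3 : ∀ a b : Ix n, cpd (fun x => cpd g a x) b y =
      fderiv ℝ (fderiv ℝ g) y (Pi.single b 1) (Pi.single a 1) := by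
    intro a b
    have h4 : HasFDerivAt (fun x => fderiv ℝ g x (Pi.single a 1))
        ((ContinuousLinearMap.apply ℝ ℂ (Pi.single a 1 : E n)).comp
          (fderiv ℝ (fderiv ℝ g) y)) y :=
      (ContinuousLinearMap.apply ℝ ℂ (Pi.single a 1 : E n)).hasFDerivAt.comp y h2.hasFDerivAt
    change fderiv ℝ (fun x => fderiv ℝ g x (Pi.single a 1)) y (Pi.single b 1) = _
    rw [h4.fderiv]
    rfl
  rw [h3, h3]
  have h5 : (2 : WithTop ℕ∞) ≤ ∞ := WithTop.coe_le_coe.2 le_top
  exact (h1.isSymmSndFDerivAt (by simpa using h5)) _ _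

private theorem Fc_mul {n : ℕ} {f g : E n → ℂ} {y : E n} (j : Ix n)
    (hf : DifferentiableAt ℝ f y) (hg : DifferentiableAt ℝ g y) :
    cpd (fun x => f x * g x) j y = cpd f j y * g y + f y * cpd g j y := by
  have h1 : HasDerivAt (fun t : ℝ => f (y + t • (Pi.single j 1 : E n))) (cpd f j y) 0 :=
    hf.hasFDerivAt.hasLineDerivAt _
  have h2 : HasDerivAt (fun t : ℝ => g (y + t • (Pi.single j 1 : E n))) (cpd g j y) 0 :=
    hg.hasFDerivAt.hasLineDerivAt _
  have h3 : HasDerivAt (fun t : ℝ => (fun x => f x * g x) (y + t • (Pi.single j 1 : E n)))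
      (cpd (fun x => f x * g x) j y) 0 :=
    (hf.mul hg).hasFDerivAt.hasLineDerivAt _
  have h4 := h3.unique (h1.mul h2)
  rw [zero_smul, add_zero] at h4
  exact h4

theorem sFc : S_Fc := by
  intro n _ Θ U hU hΘ h0
  have hΘi : ∀ i, ContDiffOn ℝ ∞ (fun y => Θ y i) U := contDiffOn_pi.1 hΘ
  have hJ : ∀ (y : E n) (i j : Ix n), Jf Θ y i j = lf (Θ y) i * cpd (fun x => Θ x i) j y :=
    fun y i j => rfl
  have smJ : ∀ i j, ContDiffOn ℝ ∞ (fun y => Jf Θ y i j) U := by
    intro i j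
    simp only [hJ]
    refine ContDiffOn.mul ?_ (Fc_smc hU (hΘi i) j)
    by_cases hi : i.2 = 1
    · simp only [lf, if_pos hi]
      refine (hΘi i).inv fun y hy => ?_
      obtain ⟨i1, i2⟩ := i
      change i2 = 1 at hi
      subst hi
      exact h0 y hy i1
    · simp only [lf, if_neg hi]
      exact contDiffOn_const
  refine ⟨smJ, fun y hy k i j => ?_⟩
  have hd : ∀ {f : E n → ℂ}, ContDiffOn ℝ ∞ f U → DifferentiableAt ℝ f y := fun hf =>
    (hf.contDiffAt (hU.mem_nhds hy)).differentiableAt (by simp)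
  have hsym := Fc_sym hU (hΘi k) hy i j
  by_cases hk : k.2 = 1
  · have hne : ∀ x ∈ U, Θ x k ≠ 0 := by
      intro x hx
      obtain ⟨k1, k2⟩ := k
      change k2 = 1 at hk
      subst hk
      exact h0 x hx k1
    have hmul : ∀ i, ∀ x ∈ U, Θ x k * Jf Θ x k i = cpd (fun x => Θ x k) i x := by
      intro i x hx
      rw [hJ, lf, if_pos hk, mul_inv_cancel_left₀ (hne x hx)]
    have hcong : ∀ i j, cpd (fun x => Θ x k * Jf Θ x k i) j y =
        cpd (fun x => cpd (fun x => Θ x k) i x) j y := by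
      intro i j
      have h1 : (fun x => Θ x k * Jf Θ x k i) =ᶠ[nhds y] fun x => cpd (fun x => Θ x k) i x := by
        filter_upwards [hU.mem_nhds hy] with x hx
        exact hmul i x hx
      rw [cpd, cpd, h1.fderiv_eq]
    have h2 : ∀ i j, cpd (fun x => Θ x k) j y * Jf Θ y k i + Θ y k * cpd (fun x => Jf Θ x k i) j y =
        cpd (fun x => cpd (fun x => Θ x k) i x) j y := by
      intro i j
      rw [← hcong, Fc_mul j (hd (hΘi k)) (hd (smJ k i))]
    have h3 := h2 i j
    have h4 := h2 j i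
    rw [hsym] at h3
    have h5 : cpd (fun x => Θ x k) j y * Jf Θ y k i = cpd (fun x => Θ x k) i y * Jf Θ y k j := by
      rw [hJ, hJ]
      ring
    refine mul_left_cancel₀ (hne y hy) ?_
    linear_combination h3 - h4 - h5
  · have h1 : ∀ i, (fun x => Jf Θ x k i) = fun x => cpd (fun x => Θ x k) i x := by
      intro i
      funext x
      rw [hJ, lf, if_neg hk, one_mul]
    rw [h1, h1]
    exact hsym

end Pool.Agent.MP62a5ad.QN
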