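import Pool.Agent.Lib.MP_62a5ad_mp.QN.SpecE

set_option autoImplicit false

/-! # MP_62a5ad_mp, project QN: the polynomial for `h` -/

namespace Pool.Agent.MP62a5ad.QN

open Polynomial in
private theorem Fp_lin (e : ℕ) (he : 0 < e) (c : ℂ) :
    (C c - X ^ e : ℂ[X]).natDegree ≤ e ∧ (C c - X ^ e : ℂ[X]).coeff e = -1 := by
  constructor
  · refine (natDegree_sub_le _ _).trans (max_le ?_ ?_)
    · rw [natDegree_C]; exact Nat.zero_le _
    · exact natDegree_X_pow_le e
  · rw [coeff_sub, coeff_X_pow, if_pos rfl, coeff_C, if_neg he.ne', zero_sub]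

open Polynomial in
private theorem Fp_lin' (e : ℕ) (he : 0 < e) (c : ℂ) :
    (X ^ e - C c : ℂ[X]).natDegree ≤ e ∧ (X ^ e - C c : ℂ[X]).coeff e = 1 := by
  constructor
  · refine (natDegree_sub_le _ _).trans (max_le ?_ ?_)
    · exact natDegree_X_pow_le e
    · rw [natDegree_C]; exact Nat.zero_le _
  · rw [coeff_sub, coeff_X_pow, if_pos rfl, coeff_C, if_neg he.ne', sub_zero]

open Polynomial in
private theorem Fp_prod (n e : ℕ) (F : ℕ → ℂ[X]) (u : ℂ)
    (h1 : ∀ j, (F j).natDegree ≤ e) (h2 : ∀ j, (F j).coeff e = u) :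
    (∏ j ∈ Finset.range n, F j).natDegree ≤ n * e ∧
      (∏ j ∈ Finset.range n, F j).coeff (n * e) = u ^ n := by
  constructor
  · refine (natDegree_prod_le _ _).trans ?_
    refine (Finset.sum_le_sum fun j _ => h1 j).trans ?_
    simp
  · have := coeff_prod_of_natDegree_le (s := Finset.range n) F e (fun p _ => h1 p)
    rw [Finset.card_range] at this
    rw [this, Finset.prod_congr rfl (fun j _ => h2 j), Finset.prod_const, Finset.card_range]

open Polynomial in
private theorem Fp_mon (c : ℂ) (k m : ℕ) (G : ℂ[X]) (hG : G.natDegree ≤ m) :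
    (C c * X ^ k * G).natDegree ≤ k + m ∧ (C c * X ^ k * G).coeff (k + m) = c * G.coeff m := by
  have h1 : (C c * X ^ k : ℂ[X]).natDegree ≤ k := natDegree_C_mul_X_pow_le c k
  constructor
  · exact natDegree_mul_le_of_le h1 hG
  · rw [coeff_mul_add_eq_of_natDegree_le h1 hG, coeff_C_mul_X_pow, if_pos rfl]

open Polynomial in
private theorem Fp_sum (n e : ℕ) (he : 0 < e) (P : ℂ) (q : ℂ[X]) (hq : q.coeff n = 1) :
    (∑ k ∈ Finset.range (n + 1), C (q.coeff k) *
      X ^ (e * (n - k)) * (X ^ (2 * e) + C P) ^ k : ℂ[X]).natDegree ≤ 2 * (n * e) ∧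
    (∑ k ∈ Finset.range (n + 1), C (q.coeff k) *
      X ^ (e * (n - k)) * (X ^ (2 * e) + C P) ^ k : ℂ[X]).coeff (2 * (n * e)) = 1 := by
  have hb : ∀ k, ((X ^ (2 * e) + C P : ℂ[X]) ^ k).natDegree ≤ k * (2 * e) ∧
      ((X ^ (2 * e) + C P : ℂ[X]) ^ k).coeff (k * (2 * e)) = 1 := by
    intro k
    have h1 : (X ^ (2 * e) + C P : ℂ[X]).natDegree ≤ 2 * e := by
      refine (natDegree_add_le _ _).trans (max_le (natDegree_X_pow_le _) ?_)
      rw [natDegree_C]; exact Nat.zero_le _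
    have h2 : (X ^ (2 * e) + C P : ℂ[X]).coeff (2 * e) = 1 := by
      rw [coeff_add, coeff_X_pow, if_pos rfl, coeff_C, if_neg (by omega), add_zero]
    have := Fp_prod k (2 * e) (fun _ => (X ^ (2 * e) + C P : ℂ[X])) 1 (fun _ => h1) (fun _ => h2)
    rw [Finset.prod_const, Finset.card_range, one_pow] at this
    exact this
  have hk : ∀ k ∈ Finset.range (n + 1),
      (C (q.coeff k) * X ^ (e * (n - k)) * (X ^ (2 * e) + C P) ^ k : ℂ[X]).natDegree ≤
        n * e + k * e := by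
    intro k hk
    have hkn : k ≤ n := Nat.lt_succ_iff.mp (Finset.mem_range.mp hk)
    refine (Fp_mon (q.coeff k) (e * (n - k)) _ _ (hb k).1).1.trans (le_of_eq ?_)
    obtain ⟨d, rfl⟩ := Nat.exists_eq_add_of_le hkn
    rw [Nat.add_sub_cancel_left]; ring
  constructor
  · refine natDegree_sum_le_of_forall_le _ _ ?_
    intro k hk'
    refine (hk k hk').trans ?_
    have hkn : k ≤ n := Nat.lt_succ_iff.mp (Finset.mem_range.mp hk')
    nlinarith [Nat.mul_le_mul_right e hkn]
  · rw [finsetSum_coeff, Finset.sum_range_succ, Finset.sum_eq_zero, zero_add]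
    · have := (Fp_mon (q.coeff n) (e * (n - n)) _ _ (hb n).1).2
      rw [(hb n).2, hq, mul_one] at this
      rw [hq]
      refine Eq.trans ?_ this
      congr 1
      rw [Nat.sub_self, mul_zero, zero_add]; ring
    · intro k hk'
      have hkn : k < n := Finset.mem_range.mp hk'
      refine coeff_eq_zero_of_natDegree_lt ?_
      refine (hk k (Finset.mem_range.mpr (by omega))).trans_lt ?_
      nlinarith [Nat.mul_lt_mul_of_pos_right hkn he]

open Polynomial in
private theorem Fp_eval (n e : ℕ) (r : ℤ) (T δ : ℂ) (C' : ℤ → ℂ) (q : ℂ[X])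
    (hδ : δ ≠ 0) (hC : ∀ j, C' j ≠ 0) (hq0 : ∀ k, n < k → q.coeff k = 0) (h : ℂ) (hh : h ≠ 0) :
    (Fpo n e r T δ C' q).eval h = h ^ (r.natAbs + n * e) *
    (T * (Aw n e r (δ ^ e) C' h + Aw n e r (δ ^ e) C' (δ / h)) -
      q.eval (h ^ e + δ ^ e / h ^ e)) := by
  have hz : ∀ k : ℤ, 0 ≤ k → h ^ k.toNat = h ^ k := by
    intro k hk
    rw [← zpow_natCast, Int.toNat_of_nonneg hk]
  have ha1 : 0 ≤ r + (r.natAbs : ℤ) := by omega
  have ha2 : 0 ≤ (r.natAbs : ℤ) - r + n * e := by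
    have : (0 : ℤ) ≤ n * e := by positivity
    omega
  have hdeg : q.natDegree < n + 1 := by
    rw [Nat.lt_succ_iff, natDegree_le_iff_coeff_eq_zero]
    exact hq0
  have e1 : (X ^ (r + r.natAbs).toNat : ℂ[X]).eval h = h ^ (r + (r.natAbs : ℤ)) := by
    rw [eval_pow, eval_X, hz _ ha1]
  have e2 : (X ^ ((r.natAbs : ℤ) - r + n * e).toNat : ℂ[X]).eval h =
      h ^ ((r.natAbs : ℤ) - r + n * e) := by
    rw [eval_pow, eval_X, hz _ ha2]
  unfold Fpo Aw
  rw [eval_sub, eval_add, eval_mul, eval_mul, eval_mul, eval_mul, eval_mul, eval_C, eval_C, e1, e2,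
    eval_prod, eval_prod, eval_finsetSum, eval_pow, eval_X, eval_eq_sum_range' hdeg]
  have p1 : ∏ j ∈ Finset.range n, (δ ^ e / C' j - (δ / h) ^ e) =
      (∏ j ∈ Finset.range n, (δ ^ e / C' j)) * (∏ j ∈ Finset.range n, (h ^ e - C' j)) *
        h ^ (-((n : ℤ) * e)) := by
    have : h ^ (-((n : ℤ) * e)) = ∏ _j ∈ Finset.range n, (h ^ e)⁻¹ := by
      rw [Finset.prod_const, Finset.card_range, zpow_neg, inv_pow, ← pow_mul, mul_comm e n]
      congr 1
    rw [this, ← Finset.prod_mul_distrib, ← Finset.prod_mul_distrib]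
    refine Finset.prod_congr rfl fun j _ => ?_
    have := hC j
    rw [div_pow]
    field_simp
  have p2 : (δ / h) ^ (r - n * e) = δ ^ (r - n * e) * h ^ ((n : ℤ) * e - r) := by
    rw [div_zpow, div_eq_mul_inv, ← zpow_neg, neg_sub]
  have p3 : (h : ℂ) ^ (r.natAbs + n * e) = h ^ ((r.natAbs : ℤ) + n * e) := by
    rw [← zpow_natCast]; congr 1
  have p4 : h ^ ((r.natAbs : ℤ) + n * e) * h ^ (r - (n : ℤ) * e) = h ^ (r + (r.natAbs : ℤ)) := by
    rw [← zpow_add₀ hh]; congr 1; ring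
  have p5 : h ^ ((r.natAbs : ℤ) + n * e) * h ^ ((n : ℤ) * e - r) * h ^ (-((n : ℤ) * e)) =
      h ^ ((r.natAbs : ℤ) - r + n * e) := by
    rw [← zpow_add₀ hh, ← zpow_add₀ hh]; congr 1; ring
  have p6 : h ^ (r.natAbs + n * e) * ∑ i ∈ Finset.range (n + 1),
      q.coeff i * (h ^ e + δ ^ e / h ^ e) ^ i =
      h ^ r.natAbs * ∑ i ∈ Finset.range (n + 1),
        (C (q.coeff i) * X ^ (e * (n - i)) * (X ^ (2 * e) + C (δ ^ e)) ^ i : ℂ[X]).eval h := by
    rw [pow_add, mul_assoc, Finset.mul_sum]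
    congr 1
    refine Finset.sum_congr rfl fun i hi => ?_
    have hin : i ≤ n := Nat.lt_succ_iff.mp (Finset.mem_range.mp hi)
    obtain ⟨d, rfl⟩ := Nat.exists_eq_add_of_le hin
    rw [Nat.add_sub_cancel_left]
    simp only [eval_mul, eval_pow, eval_add, eval_C, eval_X]
    have h3 : h ^ e + δ ^ e / h ^ e = (h ^ (2 * e) + δ ^ e) / h ^ e := by
      have : h ^ e ≠ 0 := pow_ne_zero _ hh
      field_simp
      ring
    have h4 : h ^ ((i + d) * e) = (h ^ e) ^ i * h ^ (e * d) := by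
      rw [← pow_mul, ← pow_add]; congr 1; ring
    rw [h3, div_pow, h4]
    have : (h ^ e) ^ i ≠ 0 := pow_ne_zero _ (pow_ne_zero _ hh)
    field_simp
  rw [mul_sub, p6]
  congr 1
  rw [p1, p2, p3]
  simp only [eval_sub, eval_C, eval_pow, eval_X]
  rw [← p4, ← p5]
  ring

open Polynomial in
theorem sFp : S_Fp := by
  intro n e r T δ C' q hn he hr0 hrn hT hδ hC hq1 hq0
  refine ⟨fun h hh => Fp_eval n e r T δ C' q hδ hC hq0 h hh, ?_⟩
  have hP1 := Fp_prod n e (fun j => C (δ ^ e / C' j) - X ^ e) (-1)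
    (fun j => (Fp_lin e he _).1) (fun j => (Fp_lin e he _).2)
  have hP2 := Fp_prod n e (fun j => X ^ e - C (C' j)) 1
    (fun j => (Fp_lin' e he _).1) (fun j => (Fp_lin' e he _).2)
  have hP3 := Fp_sum n e he (δ ^ e) q hq1
  have hA1 := Fp_mon T (r + r.natAbs).toNat (n * e) _ hP1.1
  have hA2 := Fp_mon (T * δ ^ (r - n * e) * ∏ j ∈ Finset.range n, δ ^ e / C' j)
    ((r.natAbs : ℤ) - r + n * e).toNat (n * e) _ hP2.1
  have hA3 := Fp_mon 1 r.natAbs (2 * (n * e)) _ hP3.1
  rw [C_1, one_mul] at hA3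
  rw [hP1.2] at hA1
  rw [hP2.2] at hA2
  rw [hP3.2, mul_one] at hA3
  have hc2 : T * δ ^ (r - n * e) * ∏ j ∈ Finset.range n, δ ^ e / C' j ≠ 0 := by
    refine mul_ne_zero (mul_ne_zero hT (zpow_ne_zero _ hδ)) ?_
    exact Finset.prod_ne_zero_iff.mpr fun j _ => div_ne_zero (pow_ne_zero _ hδ) (hC j)
  have hc1 : T * (-1) ^ n ≠ 0 := mul_ne_zero hT (pow_ne_zero _ (by norm_num))
  have hne : 0 < n * e := Nat.mul_pos hn he
  have hcast : ((n * e : ℕ) : ℤ) = (n : ℤ) * e := by push_cast; ring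
  obtain ⟨N, hN⟩ : ∃ N : ℕ, N = n * e := ⟨_, rfl⟩
  unfold Fpo
  constructor
  · intro h0
    rcases lt_trichotomy r 0 with hneg | h00 | hpos
    · have hcf := congrArg (fun f : ℂ[X] =>
        f.coeff (((r.natAbs : ℤ) - r + n * e).toNat + n * e)) h0
      simp only [coeff_sub, coeff_add, coeff_zero] at hcf
      rw [hA2.2, coeff_eq_zero_of_natDegree_lt (hA1.1.trans_lt ?_),
        coeff_eq_zero_of_natDegree_lt (hA3.1.trans_lt ?_)] at hcf
      · apply hc2
        linear_combination hcf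
      · rw [← hcast, ← hN] at *
        omega
      · rw [← hcast, ← hN] at *
        omega
    · exact hr0 h00
    · rcases lt_or_gt_of_ne hrn with hlt | hgt
      · have hcf := congrArg (fun f : ℂ[X] => f.coeff (r.natAbs + 2 * (n * e))) h0
        simp only [coeff_sub, coeff_add, coeff_zero] at hcf
        rw [hA3.2, coeff_eq_zero_of_natDegree_lt (hA1.1.trans_lt ?_),
          coeff_eq_zero_of_natDegree_lt (hA2.1.trans_lt ?_)] at hcf
        · norm_num at hcf
        · rw [← hcast, ← hN] at *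
          omega
        · rw [← hcast, ← hN] at *
          omega
      · have hcf := congrArg (fun f : ℂ[X] => f.coeff ((r + r.natAbs).toNat + n * e)) h0
        simp only [coeff_sub, coeff_add, coeff_zero] at hcf
        rw [hA1.2, coeff_eq_zero_of_natDegree_lt (hA2.1.trans_lt ?_),
          coeff_eq_zero_of_natDegree_lt (hA3.1.trans_lt ?_)] at hcf
        · apply hc1
          linear_combination hcf
        · rw [← hcast, ← hN] at *
          omega
        · rw [← hcast, ← hN] at *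
          omega
  · refine (natDegree_sub_le _ _).trans (max_le ((natDegree_add_le _ _).trans (max_le ?_ ?_)) ?_)
    · refine hA1.1.trans ?_
      rw [← hN]
      omega
    · refine hA2.1.trans ?_
      rw [← hcast, ← hN]
      omega
    · refine hA3.1.trans ?_
      rw [← hN]
      omega

end Pool.Agent.MP62a5ad.QN
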