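import Pool.Agent.Lib.MP_62a5ad_mp.QN.SpecA

/-!
# MP_62a5ad_mp, project QN, module Fr: the trace in the frames
-/

set_option autoImplicit false

namespace Pool.Agent.MP62a5ad.QN

open Matrix

section Fr

variable {K : Type} [Field K]

/-- one site in the frames, pure algebra -/
private theorem Fr_site (x c e sm sh sp shm ja jb ka kb r r' ρ α : K)
    (hd : shm - sm ≠ 0) (hd' : sh - sp ≠ 0)
    (hα : α = c - e * (ka * shm + kb) * (ja * sp + jb) / ((sp - sh) * (sm - shm)))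
    (hr : r = -(e * (ja * sp + jb) * (ka * sm + kb)) / ((shm - sm) * (sh - sp)))
    (h1 : ρ * r = e * (ja * sh + jb) * (ka * sm + kb) * r' / ((shm - sm) * (sh - sp)))
    (h2 : ρ * (α - c) = e * (ja * sh + jb) * (ka * shm + kb) * r' / ((shm - sm) * (sh - sp))) :
    ((x - c) • !![-sm, -(sm * sh); 1, sh] -
      e • !![kb * ja, -(kb * jb); ka * ja, -(ka * jb)]) * !![-sp, -(sh * r'); 1, r'] =
      (sh - sp) • (!![-sm, -(shm * r); 1, r] * (Lx α ρ c x)ᵀ) := by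
  have hd2 : (sp - sh) * (sm - shm) = (shm - sm) * (sh - sp) := by ring
  rw [hd2] at hα
  have a1 : (sh - sp) * (α - c) = - (e * (ka * shm + kb) * (ja * sp + jb)) / (shm - sm) := by
    rw [hα]
    field_simp
    ring
  have a2 : (sh - sp) * r = -(e * (ja * sp + jb) * (ka * sm + kb)) / (shm - sm) := by
    rw [hr]
    field_simp
  have a3 : (sh - sp) * (ρ * r) = e * (ja * sh + jb) * (ka * sm + kb) * r' / (shm - sm) := by
    rw [h1]
    field_simp
  have a4 : (sh - sp) * (ρ * (α - c)) =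
      e * (ja * sh + jb) * (ka * shm + kb) * r' / (shm - sm) := by
    rw [h2]
    field_simp
  rw [eq_div_iff hd] at a1 a2 a3 a4
  have hL : (Lx α ρ c x)ᵀ = !![x - α, ρ * (α - c); 1, -ρ] := by
    unfold Lx
    ext i j
    fin_cases i <;> fin_cases j <;> rfl
  rw [hL]
  ext i j
  fin_cases i <;> fin_cases j
  · simp
    apply mul_left_cancel₀ hd
    linear_combination (-sm) * a1 + shm * a2
  · simp
    apply mul_left_cancel₀ hd
    linear_combination sm * a4 - shm * a3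
  · simp
    apply mul_left_cancel₀ hd
    linear_combination a1 - a2
  · simp
    apply mul_left_cancel₀ hd
    linear_combination (-1) * a4 + a3

/-- the numbers `r_m` -/
private def Fr_r (w : Fin 4 → K) (D : ℤ → ℤ → Fin 3 → K) (H : ℤ → ℤ → K) (τ m : ℤ) : K :=
  -(H (τ - 1) m / w 0 * (jA w (D τ m) * D τ (m + 1) 0 + jB w (D τ m)) *
      (jA w (D (τ - 1) m) * D τ m 0 + jB w (D (τ - 1) m))) /
    ((D (τ - 1) m 0 - D τ m 0) * (D (τ - 1) (m + 1) 0 - D τ (m + 1) 0))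

/-- the frames -/
private def Fr_F (w : Fin 4 → K) (D : ℤ → ℤ → Fin 3 → K) (H : ℤ → ℤ → K) (τ m : ℤ) :
    Matrix (Fin 2) (Fin 2) K :=
  !![-D τ m 0, -(D (τ - 1) m 0 * Fr_r w D H τ m); 1, Fr_r w D H τ m]

/-- pure algebra for `ρ` -/
private theorem Fr_rho (a b c g e f u v d d' d'' dd : K) (ha : a ≠ 0) (hd : d ≠ 0)
    (hd' : d' ≠ 0) (hd'' : d'' ≠ 0) (hdd : dd = d' * d'') :
    f * b * u * v / (a * dd) * (-(e * a * c) / (d * d')) =
      e * b * c * (-(f * v * u) / (d' * d'')) / (d * d') ∧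
    f * b * u * v / (a * dd) * (-(e * g * a) / (d * d')) =
      e * b * g * (-(f * v * u) / (d' * d'')) / (d * d') := by
  subst hdd
  constructor <;> field_simp

/-- cyclic products -/
private theorem Fr_cyc (g : ℤ → K) (n : ℕ) (h : g n = g 0) (h0 : g 0 ≠ 0) :
    ∏ m ∈ Finset.range n, g ((m : ℤ) + 1) = ∏ m ∈ Finset.range n, g m := by
  have e1 := Finset.prod_range_succ' (fun m : ℕ => g m) n
  have e2 := Finset.prod_range_succ (fun m : ℕ => g m) n
  rw [e1] at e2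
  have e3 : g ((0 : ℕ) : ℤ) = g 0 := by norm_num
  simp only [e3, h] at e2
  have e4 := mul_right_cancel₀ h0 e2
  rw [← e4]
  refine Finset.prod_congr rfl fun m _ => ?_
  push_cast
  rfl

/-- pure algebra for `δ` -/
private theorem Fr_del (η w0 a b A B c c' sh s : K) (hη : η ≠ 0) (hw : w0 ≠ 0) (h1 : w0 ≠ sh)
    (h2 : w0 ≠ s) (e1 : η * (a * (sh - w0)) = η * (A * c))
    (e2 : η * (b * (s - w0)) = η * (B * c')) (e3 : η * (c * c') = w0 * (w0 - sh) * (w0 - s)) :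
    η / w0 * a * b = A * B := by
  have f1 := mul_left_cancel₀ hη e1
  have f2 := mul_left_cancel₀ hη e2
  have g1 : sh - w0 ≠ 0 := sub_ne_zero.mpr (Ne.symm h1)
  have g2 : s - w0 ≠ 0 := sub_ne_zero.mpr (Ne.symm h2)
  apply mul_left_cancel₀ (mul_ne_zero (mul_ne_zero hw g1) g2)
  have e4 : w0 * (sh - w0) * (s - w0) * (η / w0 * a * b) =
      η * ((a * (sh - w0)) * (b * (s - w0))) := by
    field_simp
  rw [e4, f1, f2]
  linear_combination (A * B) * e3

end Fr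

theorem sFr (h1 : S_Rel) (h2 : S_Jx) (h3 : S_Nz) (h4 : S_Af) : S_Fr := by
  intro K _ n _ w D H τ hw hinj ok hchi hD hH
  obtain ⟨hN1, hN2⟩ := h3 K w D H (τ - 1) (τ + 1) hw ok
  have hA := h4 K w D H τ hw hinj ok hchi
  have N0 := fun m => hN2 (τ - 1) m le_rfl (by omega)
  simp only [sub_add_cancel] at N0
  have N1 := fun m => hN2 τ m (by omega) (by omega)
  have hd : ∀ m, D (τ - 1) m 0 - D τ m 0 ≠ 0 := by
    intro m
    have := ok.nd (τ - 1) m le_rfl (by omega)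
    rw [sub_add_cancel] at this
    exact sub_ne_zero.mpr this
  have hj1 : ∀ m, jA w (D τ m) * D τ (m + 1) 0 + jB w (D τ m) ≠ 0 := by
    intro m
    obtain ⟨_, _, _, _, _, _, _, _, _, _, g, _⟩ := N1 m
    exact g
  have hj2 : ∀ m, jA w (D (τ - 1) m) * D τ m 0 + jB w (D (τ - 1) m) ≠ 0 := by
    intro m
    obtain ⟨_, _, _, _, _, _, _, _, _, _, _, _, g, _⟩ := N0 m
    exact g
  have hc : ∀ m, cst w D (τ + 1) m = cst w D τ m := by
    intro m
    obtain ⟨_, _, _, g, _⟩ := N1 m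
    exact g
  have hη : ∀ m, H (τ - 1) m ≠ 0 := fun m => ok.eta (τ - 1) m le_rfl (by omega)
  have hr : ∀ m, Fr_r w D H τ m ≠ 0 := by
    intro m
    unfold Fr_r
    refine div_ne_zero (neg_ne_zero.mpr ?_) (mul_ne_zero (hd m) (hd (m + 1)))
    exact mul_ne_zero (mul_ne_zero (div_ne_zero (hη m) (hw 0)) (hj1 m)) (hj2 m)
  -- the two relations for rho
  have hrho : ∀ m, rho w D H (τ + 1) m * Fr_r w D H τ m =
      H (τ - 1) m / w 0 * (jA w (D τ m) * D (τ - 1) (m + 1) 0 + jB w (D τ m)) *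
        (jA w (D (τ - 1) m) * D τ m 0 + jB w (D (τ - 1) m)) * Fr_r w D H τ (m + 1) /
        ((D (τ - 1) m 0 - D τ m 0) * (D (τ - 1) (m + 1) 0 - D τ (m + 1) 0)) ∧
      rho w D H (τ + 1) m * (alp w D H (τ + 1) m - cst w D τ m) =
      H (τ - 1) m / w 0 * (jA w (D τ m) * D (τ - 1) (m + 1) 0 + jB w (D τ m)) *
        (jA w (D (τ - 1) m) * D (τ - 1) m 0 + jB w (D (τ - 1) m)) * Fr_r w D H τ (m + 1) /
        ((D (τ - 1) m 0 - D τ m 0) * (D (τ - 1) (m + 1) 0 - D τ (m + 1) 0)) := by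
    intro m
    have e2 : m + 1 + 1 = m + 2 := by ring
    have hal : alp w D H (τ + 1) m - cst w D τ m =
        -(H (τ - 1) m / w 0 * (jA w (D (τ - 1) m) * D (τ - 1) m 0 + jB w (D (τ - 1) m)) *
          (jA w (D τ m) * D τ (m + 1) 0 + jB w (D τ m))) /
          ((D (τ - 1) m 0 - D τ m 0) * (D (τ - 1) (m + 1) 0 - D τ (m + 1) 0)) := by
      rw [(hA m).1]
      unfold aA jv
      have e3 : (D τ (m + 1) 0 - D (τ - 1) (m + 1) 0) * (D τ m 0 - D (τ - 1) m 0) =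
          (D (τ - 1) m 0 - D τ m 0) * (D (τ - 1) (m + 1) 0 - D τ (m + 1) 0) := by ring
      rw [e3, neg_div]
      ring
    have hro : rho w D H (τ + 1) m = H (τ - 1) (m + 1) / w 0 *
        (jA w (D τ m) * D (τ - 1) (m + 1) 0 + jB w (D τ m)) *
        (jA w (D (τ - 1) (m + 1)) * D τ (m + 1) 0 + jB w (D (τ - 1) (m + 1))) *
        (jA w (D τ (m + 1)) * D τ (m + 2) 0 + jB w (D τ (m + 1))) /
        ((jA w (D τ m) * D τ (m + 1) 0 + jB w (D τ m)) *
          ((D τ (m + 2) 0 - D (τ - 1) (m + 2) 0) * (D τ (m + 1) 0 - D (τ - 1) (m + 1) 0))) := by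
      rw [(hA m).2]
      unfold rA' jv
      rw [← mul_assoc (jA w (D τ m) * D τ (m + 1) 0 + jB w (D τ m))]
    have hR := Fr_rho (jA w (D τ m) * D τ (m + 1) 0 + jB w (D τ m))
      (jA w (D τ m) * D (τ - 1) (m + 1) 0 + jB w (D τ m))
      (jA w (D (τ - 1) m) * D τ m 0 + jB w (D (τ - 1) m))
      (jA w (D (τ - 1) m) * D (τ - 1) m 0 + jB w (D (τ - 1) m))
      (H (τ - 1) m / w 0) (H (τ - 1) (m + 1) / w 0)
      (jA w (D (τ - 1) (m + 1)) * D τ (m + 1) 0 + jB w (D (τ - 1) (m + 1)))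
      (jA w (D τ (m + 1)) * D τ (m + 2) 0 + jB w (D τ (m + 1)))
      (D (τ - 1) m 0 - D τ m 0) (D (τ - 1) (m + 1) 0 - D τ (m + 1) 0)
      (D (τ - 1) (m + 2) 0 - D τ (m + 2) 0)
      ((D τ (m + 2) 0 - D (τ - 1) (m + 2) 0) * (D τ (m + 1) 0 - D (τ - 1) (m + 1) 0))
      (hj1 m) (hd m) (hd (m + 1)) (hd (m + 2)) (by ring)
    rw [hal, hro]
    unfold Fr_r
    rw [e2]
    exact hR
  have hF : ∀ x m, Tx w D H τ m x * Fr_F w D H τ (m + 1) =
      (D (τ - 1) (m + 1) 0 - D τ (m + 1) 0) • (Fr_F w D H τ m *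
        (Lx (alp w D H (τ + 1) m) (rho w D H (τ + 1) m) (cst w D τ m) x)ᵀ) := by
    intro x m
    unfold Tx Fr_F
    exact Fr_site x (cst w D τ m) (H (τ - 1) m / w 0) (D τ m 0) (D (τ - 1) (m + 1) 0)
      (D τ (m + 1) 0) (D (τ - 1) m 0) (jA w (D τ m)) (jB w (D τ m)) (jA w (D (τ - 1) m))
      (jB w (D (τ - 1) m)) (Fr_r w D H τ m) (Fr_r w D H τ (m + 1)) _ _ (hd m) (hd (m + 1))
      (by rw [(hA m).1]; rfl) rfl (hrho m).1 (hrho m).2
  -- the chain
  have hL : ∀ (x : K) (k : ℕ), k < n → Lc (thx n w D H (τ + 1)) x (0 + (k : ℤ)) =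
      Lx (alp w D H (τ + 1) k) (rho w D H (τ + 1) k) (cst w D τ k) x := by
    intro x k hk
    have e1 : ((rs n (0 + (k : ℤ)) : Fin n) : ℕ) = k := by
      unfold rs
      rw [Fin.val_ofNat, zero_add]
      have : ((k : ℤ) % (n : ℤ)).toNat = k := by
        rw [Int.emod_eq_of_lt (by omega) (by omega)]
        omega
      rw [this, Nat.mod_eq_of_lt hk]
    unfold Lc thx
    simp only [e1]
    rw [if_pos trivial, if_neg (by decide), if_pos trivial, if_neg (by decide),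
      if_neg (by decide), hc]
  have hind : ∀ (x : K) (k : ℕ), k ≤ n → tpr w D H τ x k * Fr_F w D H τ k =
      (∏ m ∈ Finset.range k, (D (τ - 1) ((m : ℤ) + 1) 0 - D τ ((m : ℤ) + 1) 0)) •
        (Fr_F w D H τ 0 * (Nc (thx n w D H (τ + 1)) x 0 k)ᵀ) := by
    intro x k
    induction k with
    | zero =>
      intro _
      simp [tpr, Nc]
    | succ k ih =>
      intro hk
      have e1 : ((k + 1 : ℕ) : ℤ) = (k : ℤ) + 1 := by push_cast; ring
      rw [e1]
      change tpr w D H τ x k * Tx w D H τ k x * Fr_F w D H τ ((k : ℤ) + 1) = _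
      rw [Matrix.mul_assoc, hF x k, Matrix.mul_smul, ← Matrix.mul_assoc, ih (by omega),
        Finset.prod_range_succ]
      change _ = _ • (Fr_F w D H τ 0 *
        (Lc (thx n w D H (τ + 1)) x (0 + (k : ℤ)) * Nc (thx n w D H (τ + 1)) x 0 k)ᵀ)
      rw [hL x k (by omega), Matrix.transpose_mul, Matrix.smul_mul, smul_smul,
        mul_comm (∏ m ∈ Finset.range k, _), Matrix.mul_assoc]
  have hDn : ∀ σ : ℤ, ∀ m : ℤ, D σ (m + n + 1) = D σ (m + 1) := by
    intro σ m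
    have e1 : m + n + 1 = (m + 1) + n := by ring
    rw [e1, hD]
  have hrn : ∀ m, Fr_r w D H τ (m + n) = Fr_r w D H τ m := by
    intro m
    unfold Fr_r
    rw [hDn, hDn, hD, hD, hH]
  have hdn : ∀ m, D (τ - 1) (m + n) 0 - D τ (m + n) 0 = D (τ - 1) m 0 - D τ m 0 := by
    intro m
    rw [hD, hD]
  have hPd : ∏ m ∈ Finset.range n, (D (τ - 1) ((m : ℤ) + 1) 0 - D τ ((m : ℤ) + 1) 0) =
      ∏ m ∈ Finset.range n, (D (τ - 1) m 0 - D τ m 0) := by
    refine Fr_cyc (fun m => D (τ - 1) m 0 - D τ m 0) n ?_ (hd 0)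
    have := hdn 0
    rw [zero_add] at this
    exact this
  constructor
  · intro x
    have hn := hind x n le_rfl
    have hFn : Fr_F w D H τ n = Fr_F w D H τ 0 := by
      have e1 := hrn 0
      rw [zero_add] at e1
      have e2 := hD τ 0
      have e3 := hD (τ - 1) 0
      rw [zero_add] at e2 e3
      unfold Fr_F
      rw [e1, e2, e3]
    rw [hFn] at hn
    have hdet : (Fr_F w D H τ 0).det ≠ 0 := by
      unfold Fr_F
      rw [Matrix.det_fin_two_of]
      have e1 : -D τ 0 0 * Fr_r w D H τ 0 - -(D (τ - 1) 0 0 * Fr_r w D H τ 0) * 1 =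
          (D (τ - 1) 0 0 - D τ 0 0) * Fr_r w D H τ 0 := by ring
      rw [e1]
      exact mul_ne_zero (hd 0) (hr 0)
    have hu : IsUnit (Fr_F w D H τ 0).det := isUnit_iff_ne_zero.mpr hdet
    have e1 : tpr w D H τ x n = (∏ m ∈ Finset.range n,
        (D (τ - 1) ((m : ℤ) + 1) 0 - D τ ((m : ℤ) + 1) 0)) •
        (Fr_F w D H τ 0 * (Nc (thx n w D H (τ + 1)) x 0 n)ᵀ) * (Fr_F w D H τ 0)⁻¹ := by
      rw [← hn, Matrix.mul_assoc, Matrix.mul_nonsing_inv _ hu, Matrix.mul_one]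
    rw [e1, Matrix.smul_mul, Matrix.trace_smul, Matrix.trace_mul_comm, ← Matrix.mul_assoc,
      Matrix.nonsing_inv_mul _ hu, Matrix.one_mul, Matrix.trace_transpose, hPd, smul_eq_mul]
    rfl
  · have hX : ∀ m, H (τ - 1) m / w 0 * (jA w (D τ m) * D (τ - 1) (m + 1) 0 + jB w (D τ m)) *
        (jA w (D (τ - 1) m) * D τ m 0 + jB w (D (τ - 1) m)) =
        qv (D τ m) (D (τ - 1) (m + 1) 0) * qv (D (τ - 1) m) (D τ m 0) := by
      intro m
      have hrel := ok.rel (τ - 1) m le_rfl (by omega)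
      rw [sub_add_cancel] at hrel
      obtain ⟨_, a2, a3, _⟩ := h2 K w _ _ _ _ hw (hη m) hrel
      obtain ⟨_, _, r3, _⟩ := h1 K (pw w)
      obtain ⟨_, b2, _⟩ := h2 K w _ _ _ _ hw (hη m) (r3 _ _ _ _ hrel)
      have f1 := b2 (D (τ - 1) (m + 1) 0)
      have f2 := a2 (D τ m 0)
      rw [sub_self, mul_zero, sub_zero] at f2
      have f3 : (![D (τ - 1) (m + 1) 0, D (τ - 1) m 1, D (τ - 1) m 2] : Fin 3 → K) 0 =
          D (τ - 1) (m + 1) 0 := rfl
      rw [f3, sub_self, mul_zero, sub_zero] at f1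
      have f4 : qv ![D (τ - 1) (m + 1) 0, D (τ - 1) m 1, D (τ - 1) m 2] (w 0) =
          qv (D (τ - 1) m) (w 0) := rfl
      rw [f4] at f1
      exact Fr_del (H (τ - 1) m) (w 0) (jv w (D τ m) (D (τ - 1) (m + 1) 0))
        (jv w (D (τ - 1) m) (D τ m 0)) (qv (D τ m) (D (τ - 1) (m + 1) 0))
        (qv (D (τ - 1) m) (D τ m 0)) (qv (D (τ - 1) m) (w 0)) (qv (D τ m) (w 0))
        (D (τ - 1) (m + 1) 0) (D τ m 0) (hη m) (hw 0) (hN1 (τ - 1) (m + 1) le_rfl (by omega) 0)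
        (hN1 τ m (by omega) (by omega) 0) f1 f2 (a3 0)
    have hprod : ∀ m, rho w D H (τ + 1) m * Fr_r w D H τ m =
        qv (D τ m) (D (τ - 1) (m + 1) 0) * qv (D (τ - 1) m) (D τ m 0) * Fr_r w D H τ (m + 1) /
        ((D (τ - 1) m 0 - D τ m 0) * (D (τ - 1) (m + 1) 0 - D τ (m + 1) 0)) := by
      intro m
      rw [(hrho m).1, hX]
    have hPr : ∏ m ∈ Finset.range n, Fr_r w D H τ ((m : ℤ) + 1) =
        ∏ m ∈ Finset.range n, Fr_r w D H τ m := by
      refine Fr_cyc (fun m => Fr_r w D H τ m) n ?_ (hr 0)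
      have := hrn 0
      rw [zero_add] at this
      exact this
    have hr0 : ∏ m ∈ Finset.range n, Fr_r w D H τ (m : ℤ) ≠ 0 :=
      Finset.prod_ne_zero_iff.mpr fun m _ => hr m
    have e1 : (∏ m ∈ Finset.range n, rho w D H (τ + 1) (m : ℤ)) *
        ∏ m ∈ Finset.range n, Fr_r w D H τ (m : ℤ) =
        ∏ m ∈ Finset.range n, (qv (D τ m) (D (τ - 1) (m + 1) 0) *
          qv (D (τ - 1) m) (D τ m 0) * Fr_r w D H τ (m + 1) /
        ((D (τ - 1) m 0 - D τ m 0) * (D (τ - 1) (m + 1) 0 - D τ (m + 1) 0))) := by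
      rw [← Finset.prod_mul_distrib]
      exact Finset.prod_congr rfl fun m _ => hprod m
    have e3 : ∏ m ∈ Finset.range n, (qv (D τ m) (D (τ - 1) (m + 1) 0) *
          qv (D (τ - 1) m) (D τ m 0) * Fr_r w D H τ (m + 1) /
        ((D (τ - 1) m 0 - D τ m 0) * (D (τ - 1) (m + 1) 0 - D τ (m + 1) 0))) =
        (∏ m ∈ Finset.range n, (qv (D τ m) (D (τ - 1) (m + 1) 0) *
          qv (D (τ - 1) m) (D τ m 0))) * (∏ m ∈ Finset.range n, Fr_r w D H τ ((m : ℤ) + 1)) /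
        ((∏ m ∈ Finset.range n, (D (τ - 1) m 0 - D τ m 0)) *
          ∏ m ∈ Finset.range n, (D (τ - 1) ((m : ℤ) + 1) 0 - D τ ((m : ℤ) + 1) 0)) := by
      rw [← Finset.prod_mul_distrib, ← Finset.prod_mul_distrib, ← Finset.prod_div_distrib]
    have e4 : ∏ m ∈ Finset.range n, (qv (D τ m) (D (τ - 1) (m + 1) 0) *
          qv (D (τ - 1) m) (D τ m 0) / (D (τ - 1) m 0 - D τ m 0) ^ 2) =
        (∏ m ∈ Finset.range n, (qv (D τ m) (D (τ - 1) (m + 1) 0) *
          qv (D (τ - 1) m) (D τ m 0))) /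
        ((∏ m ∈ Finset.range n, (D (τ - 1) m 0 - D τ m 0)) *
          ∏ m ∈ Finset.range n, (D (τ - 1) m 0 - D τ m 0)) := by
      rw [← Finset.prod_mul_distrib, ← Finset.prod_div_distrib]
      refine Finset.prod_congr rfl fun m _ => ?_
      rw [sq]
    apply mul_right_cancel₀ hr0
    rw [e1, e3, hPr, hPd, e4, div_mul_eq_mul_div]

end Pool.Agent.MP62a5ad.QN
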