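import Pool.Agent.Lib.MP_62a5ad_mp.QN.SpecF
import Pool.Agent.Lib.MP_62a5ad_mp.PN.All

set_option autoImplicit false

namespace Pool.Agent.MP62a5ad.QN

open Matrix
open scoped ContDiff
open Pool.Agent.MP62a5ad.PN (V4 M4 e0)

namespace GeoYAux

/-- `(t - s) ∑ b_j t^j = κ Q(t)`. -/
theorem key (t : M4) (p b : V4) (s κ u C : ℝ)
    (h4 : t ^ 4 + p 3 • t ^ 3 + p 2 • t ^ 2 + p 1 • t + p 0 • (1 : M4) = 0)
    (h3 : b 2 - s * b 3 - p 3 * b 3 = 0) (h2 : b 1 - s * b 2 - p 2 * b 3 = κ)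
    (h1 : b 0 - s * b 1 - p 1 * b 3 = κ * u) (h0 : -s * b 0 - p 0 * b 3 = κ * C) :
    (t - s • (1 : M4)) * (b 0 • (1 : M4) + b 1 • t + b 2 • t ^ 2 + b 3 • t ^ 3) =
      κ • (t ^ 2 + u • t + C • (1 : M4)) := by
  have a0 : t * t = t ^ 2 := (sq t).symm
  have a1 : t * t ^ 2 = t ^ 3 := (pow_succ' t 2).symm
  have a2 : t * t ^ 3 = t ^ 4 := (pow_succ' t 3).symm
  have e4 : t ^ 4 = -(p 3 • t ^ 3 + p 2 • t ^ 2 + p 1 • t + p 0 • (1 : M4)) := by
    rw [eq_neg_iff_add_eq_zero, ← h4]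
    abel
  have e1 : (t - s • (1 : M4)) * (b 0 • (1 : M4) + b 1 • t + b 2 • t ^ 2 + b 3 • t ^ 3) =
      (b 0 - s * b 1 - p 1 * b 3) • t + (b 1 - s * b 2 - p 2 * b 3) • t ^ 2 +
      (b 2 - s * b 3 - p 3 * b 3) • t ^ 3 + (-s * b 0 - p 0 * b 3) • (1 : M4) := by
    simp only [sub_mul, mul_add, mul_smul_comm, smul_mul_assoc, one_mul, mul_one, a0, a1, a2, e4]
    module
  rw [e1, h3, h2, h1, h0]
  module

section

variable {n : ℕ} [NeZero n]

/-- The point with the monodromy of `y`. -/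
def m0 (y : E n) : PN.E6 := ![y (0, 0), y (0, 1), y (0, 2), 0, 0, 0]

theorem mono_m0 (y : E n) : PN.mono (m0 y) = Mo n y := rfl

theorem Mz_m0 (y : E n) (e : ℕ) : PN.Mz (e : ℤ) (m0 y) = tm n e y := by
  rw [PN.Mz, mono_m0, zpow_natCast]
  rfl

theorem com (hPer : S_Per) (y : E n) (hy : cc n y 2 ≠ 0) (g h : M4) (hg : Commute g (Mo n y))
    (hh : Commute h (Mo n y)) : Commute g h :=
  ((hPer n 0 0 y hy).2.2.2.2.2.2.2.2 g h hg hh).1

theorem mk_self (hPer : S_Per) (y : E n) (hy : cc n y 2 ≠ 0) (g : M4) (hg : Commute g (Mo n y)) :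
    mk n y (g *ᵥ e0) = g :=
  ((hPer n 0 0 y hy).2.2.2.2.2.2.2.2 g g hg hg).2

theorem eq_of_e0 (hPer : S_Per) (y : E n) (hy : cc n y 2 ≠ 0) (g h : M4)
    (hg : Commute g (Mo n y)) (hh : Commute h (Mo n y)) (he : g *ᵥ e0 = h *ᵥ e0) : g = h := by
  rw [← mk_self hPer y hy g hg, he, mk_self hPer y hy h hh]

/-- The matrix of the `k`-th vertex. -/
noncomputable def PP (y : E n) (k : ℤ) : M4 := mk n y (pol n y k)

theorem PP_e0 (hPer : S_Per) (y : E n) (hy : cc n y 2 ≠ 0) (k : ℤ) :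
    PP y k *ᵥ e0 = pol n y k :=
  ((hPer n 0 0 y hy).2.2.2.2.2.2.2.1 _).1

theorem PP_com (hPer : S_Per) (y : E n) (hy : cc n y 2 ≠ 0) (k : ℤ) :
    Commute (PP y k) (Mo n y) :=
  ((hPer n 0 0 y hy).2.2.2.2.2.2.2.1 _).2

theorem PP_add (hPer : S_Per) (y : E n) (hy : cc n y 2 ≠ 0) (k : ℤ) :
    PP y (k + n) = Mo n y * PP y k := by
  apply eq_of_e0 hPer y hy _ _ (PP_com hPer y hy _)
    ((Commute.refl _).mul_left (PP_com hPer y hy _))
  rw [PP_e0 hPer y hy, ← Matrix.mulVec_mulVec, PP_e0 hPer y hy]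
  exact (hPer n 0 0 y hy).2.1 k

theorem PP_zero (hPer : S_Per) (y : E n) (hy : cc n y 2 ≠ 0) : PP y 0 = 1 := by
  apply eq_of_e0 hPer y hy _ _ (PP_com hPer y hy _) (Commute.one_left _)
  rw [PP_e0 hPer y hy, Matrix.one_mulVec]
  have h := (hPer n 0 0 y hy).2.2.1 0
  simp only [Fin.val_zero, Nat.cast_zero] at h
  rw [h, vert, if_pos rfl]

omit [NeZero n] in
theorem G_add (M : M4) (hu : IsUnit M.det) (G : ℤ → M4) (hG : ∀ k, G (k + n) = M * G k)
    (k q : ℤ) : G (k + n * q) = M ^ q * G k := by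
  induction q using Int.induction_on with
  | zero => rw [mul_zero, add_zero, zpow_zero, one_mul]
  | succ q ih =>
    rw [mul_add, mul_one, ← add_assoc, hG, ih, add_comm (q : ℤ) 1, Matrix.zpow_one_add hu,
      Matrix.mul_assoc]
  | pred q ih =>
    have h1 := hG (k + n * (-(q : ℤ) - 1))
    have h2 : k + n * (-(q : ℤ) - 1) + n = k + n * (-(q : ℤ)) := by ring
    rw [h2, ih] at h1
    have h3 : M ^ (-(q : ℤ)) = M * M ^ (-(q : ℤ) - 1) := by
      rw [← Matrix.zpow_one_add hu]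
      congr 1
      ring
    rw [h3, Matrix.mul_assoc] at h1
    have h4 := congrArg (fun X => M⁻¹ * X) h1
    simp only [← Matrix.mul_assoc, Matrix.nonsing_inv_mul M hu, Matrix.one_mul] at h4
    exact h4.symm

omit [NeZero n] in
/-- A periodic function. -/
theorem per {α : Type} (f : ℤ → α) (hf : ∀ m, f (m + n) = f m) (m q : ℤ) :
    f (m + n * q) = f m := by
  induction q using Int.induction_on with
  | zero => rw [mul_zero, add_zero]
  | succ q ih => rw [mul_add, mul_one, ← add_assoc, hf, ih]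
  | pred q ih =>
    have h2 : m + n * (-(q : ℤ) - 1) + n = m + n * (-(q : ℤ)) := by ring
    rw [← hf, h2, ih]

theorem tm_com (y : E n) (e : ℕ) : Commute (tm n e y) (Mo n y) :=
  (Commute.refl (Mo n y)).pow_left e

theorem Bm_eq (hPer : S_Per) (y : E n) (hy : cc n y 2 ≠ 0) (e : ℕ) (r m : ℤ) :
    Bm n e r y m = PP y (r * m) * PN.Kt (PN.Mz (e : ℤ)) (m0 y) := by
  ext i j
  have h1 : (PP y (r * m) * PN.Kt (PN.Mz (e : ℤ)) (m0 y)) i j =
      (PP y (r * m) *ᵥ (tm n e y ^ (j : ℕ) *ᵥ e0)) i := by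
    rw [Matrix.mul_apply, ← Mz_m0]
    rfl
  have h2 : Commute (PP y (r * m)) (tm n e y ^ (j : ℕ)) :=
    com hPer y hy _ _ (PP_com hPer y hy _) ((tm_com y e).pow_left _)
  rw [h1, Matrix.mulVec_mulVec, h2.eq, ← Matrix.mulVec_mulVec, PP_e0 hPer y hy]
  rfl

theorem pc_eq (hPer : S_Per) (y : E n) (hy : cc n y 2 ≠ 0) (e : ℕ) (r : ℤ) :
    pc n e r y = PN.pc (PN.Mz (e : ℤ)) (m0 y) := by
  rw [pc, PN.pc, Bm_eq hPer y hy, mul_zero, PP_zero hPer y hy, Matrix.one_mul, Mz_m0]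

theorem PP_step (hPer : S_Per) (y : E n) (hy : cc n y 2 ≠ 0) (e : ℕ) (r m : ℤ)
    (hB : (Bm n e r y m).det ≠ 0) :
    PP y (r * (m + 1)) = (bv n e r y m 0 • (1 : M4) + bv n e r y m 1 • tm n e y +
      bv n e r y m 2 • tm n e y ^ 2 + bv n e r y m 3 • tm n e y ^ 3) * PP y (r * m) := by
  have ht := tm_com y e
  apply eq_of_e0 hPer y hy _ _ (PP_com hPer y hy _)
  · exact ((((((Commute.one_left _).smul_left _).add_left (ht.smul_left _)).add_left
      ((ht.pow_left 2).smul_left _)).add_left ((ht.pow_left 3).smul_left _))).mul_left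
      (PP_com hPer y hy _)
  · have h1 : Bm n e r y m *ᵥ bv n e r y m = us n r y (m + 1) := by
      rw [bv, Matrix.mulVec_mulVec, Matrix.mul_nonsing_inv _ hB.isUnit, Matrix.one_mulVec]
    rw [PP_e0 hPer y hy, ← Matrix.mulVec_mulVec, PP_e0 hPer y hy]
    change us n r y (m + 1) = _ *ᵥ us n r y m
    rw [← h1]
    ext i
    have b0 : Bm n e r y m i 0 = us n r y m i := by simp [Bm]
    have b1 : Bm n e r y m i 1 = (tm n e y *ᵥ us n r y m) i := by simp [Bm]
    have b2 : Bm n e r y m i 2 = (tm n e y ^ 2 *ᵥ us n r y m) i := by simp [Bm]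
    have b3 : Bm n e r y m i 3 = (tm n e y ^ 3 *ᵥ us n r y m) i := by simp [Bm]
    have b4 : (Bm n e r y m *ᵥ bv n e r y m) i = Bm n e r y m i 0 * bv n e r y m 0 +
        Bm n e r y m i 1 * bv n e r y m 1 + Bm n e r y m i 2 * bv n e r y m 2 +
        Bm n e r y m i 3 * bv n e r y m 3 := by
      rw [Matrix.mulVec, dotProduct, Fin.sum_univ_four]
    rw [b4, b0, b1, b2, b3]
    simp only [Matrix.add_mulVec, Matrix.smul_mulVec, Matrix.one_mulVec, Pi.add_apply,
      Pi.smul_apply, smul_eq_mul]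
    ring

/-- The definition of the data. -/
theorem coef (y : E n) (e : ℕ) (r m : ℤ) (hb : bv n e r y m 3 ≠ 0) (hk : kap n e r y m ≠ 0) :
    bv n e r y m 2 - dat n e r y 0 m 0 * bv n e r y m 3 - pc n e r y 3 * bv n e r y m 3 = 0 ∧
    bv n e r y m 1 - dat n e r y 0 m 0 * bv n e r y m 2 - pc n e r y 2 * bv n e r y m 3 =
      kap n e r y m ∧
    bv n e r y m 0 - dat n e r y 0 m 0 * bv n e r y m 1 - pc n e r y 1 * bv n e r y m 3 =
      kap n e r y m * dat n e r y 0 m 1 ∧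
    -dat n e r y 0 m 0 * bv n e r y m 0 - pc n e r y 0 * bv n e r y m 3 =
      kap n e r y m * dat n e r y 0 m 2 := by
  have d0 : dat n e r y 0 m 0 = s0 n e r y m := rfl
  have d1 : dat n e r y 0 m 1 = (bv n e r y m 0 - s0 n e r y m * bv n e r y m 1 -
      pc n e r y 1 * bv n e r y m 3) / kap n e r y m := rfl
  have d2 : dat n e r y 0 m 2 = (-s0 n e r y m * bv n e r y m 0 -
      pc n e r y 0 * bv n e r y m 3) / kap n e r y m := rfl
  refine ⟨?_, ?_, ?_, ?_⟩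
  · rw [d0, s0]
    field_simp
    ring
  · rw [d0, kap]
  · rw [d0, d1]
    field_simp
  · rw [d0, d2]
    field_simp

theorem m0_mem (hPer : S_Per) (y : E n) (hy : cc n y 2 ≠ 0) (e : ℕ) (r : ℤ)
    (hB : (Bm n e r y 0).det ≠ 0) : m0 y ∈ PN.DD (PN.Mz (e : ℤ)) := by
  refine ⟨hy, ?_⟩
  rw [Bm_eq hPer y hy, Matrix.det_mul] at hB
  exact right_ne_zero_of_mul hB

/-- The relation between the matrices of the vertices `r m` and `r (m + 1)`. -/
theorem PP_rel (hPer : S_Per) (y : E n) (hy : cc n y 2 ≠ 0) (e : ℕ) (r m : ℤ)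
    (hB : ∀ m, (Bm n e r y m).det ≠ 0) (hb : bv n e r y m 3 ≠ 0) (hk : kap n e r y m ≠ 0) :
    (tm n e y - dat n e r y 0 m 0 • (1 : M4)) * PP y (r * (m + 1)) =
      kap n e r y m • ((tm n e y ^ 2 + dat n e r y 0 m 1 • tm n e y +
        dat n e r y 0 m 2 • (1 : M4)) * PP y (r * m)) := by
  have h4 := (PN.aDt (PN.Mz (e : ℤ)) (PN.aFam.2.2.1 _) (m0 y)
    (m0_mem hPer y hy e r (hB 0))).2.2.2.2
  rw [← pc_eq hPer y hy e r, Mz_m0] at h4
  obtain ⟨c3, c2, c1, c0⟩ := coef y e r m hb hk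
  rw [PP_step hPer y hy e r m (hB m), ← Matrix.mul_assoc,
    key (tm n e y) (pc n e r y) (bv n e r y m) (dat n e r y 0 m 0) (kap n e r y m)
      (dat n e r y 0 m 1) (dat n e r y 0 m 2) h4 c3 c2 c1 c0, Matrix.smul_mul]

theorem qv_ne (y : E n) (e : ℕ) (r m : ℤ) (hb : bv n e r y m 3 ≠ 0) (hk : kap n e r y m ≠ 0)
    (hp : pv (pc n e r y) (dat n e r y 0 m 0) ≠ 0) :
    PN.qv (dat n e r y 0 m 1) (dat n e r y 0 m 2) (dat n e r y 0 m 0) ≠ 0 := by
  intro h0
  obtain ⟨c3, c2, c1, c0⟩ := coef y e r m hb hk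
  rw [PN.qv] at h0
  have h : bv n e r y m 3 * pv (pc n e r y) (dat n e r y 0 m 0) = 0 := by
    rw [pv]
    linear_combination (-(dat n e r y 0 m 0) ^ 3) * c3 + (-(dat n e r y 0 m 0) ^ 2) * c2 -
      dat n e r y 0 m 0 * c1 - c0 - kap n e r y m * h0
  exact (mul_ne_zero hb hp) h

end

theorem qv_ne' (p : Fin 4 → ℝ) (s : ℝ) (z z' : Fin 3 → ℝ) (η : ℝ) (hη : η ≠ 0)
    (h : Rel p s z z' η) (hp : pv p (z' 0) ≠ 0) : PN.qv (z' 1) (z' 2) (z' 0) ≠ 0 := by
  intro h0
  rw [PN.qv] at h0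
  have h1 : η * pv p (z' 0) = 0 := by
    rw [pv]
    linear_combination (-(z' 0) ^ 3) * h.c3 - (z' 0) ^ 2 * h.c2 - z' 0 * h.c1 - η * h.c0 +
      η * (z' 0 ^ 2 + z 1 * z' 0 + z 2) * h0
  exact (mul_ne_zero hη hp) h1

theorem rel_PN (p : Fin 4 → ℝ) (s : ℝ) (z z' : Fin 3 → ℝ) (η : ℝ) (hη : η ≠ 0)
    (h : Rel p s z z' η) : PN.Rel p s (z 1) (z 2) (z' 0) (z' 1) (z' 2) (1 / η) := by
  have h3 := h.c3
  have h2 := h.c2
  have h1 := h.c1
  refine ⟨?_, ?_, ?_, h.c0⟩
  · field_simp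
    linear_combination h3
  · field_simp
    linear_combination h2
  · field_simp
    linear_combination h1

theorem rearr (T H K : M4) (h5 : Commute T H) (h6 : Commute K H) (h7 : Commute T K)
    (hT : T.det ≠ 0) : T * H * (K * T⁻¹) = K * H := by
  rw [h5.eq, Matrix.mul_assoc, ← Matrix.mul_assoc T K, h7.eq, Matrix.mul_assoc K,
    Matrix.mul_nonsing_inv _ hT.isUnit, Matrix.mul_one, h6.eq]

end GeoYAux

open GeoYAux in
theorem tGeoY (hPer : S_Per) (hGeoN : S_GeoN) (hMapN : S_MapN) : S_GeoY := by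
  intro n _ a b e r r' c i hr hI y hy hB hb hk hR hp0 hp1 hG hv
  choose η hη hRel using hR
  have hdM : (Mo n y).det ≠ 0 := (hPer n e r y hy).1
  have hu : IsUnit (Mo n y).det := hdM.isUnit
  have hD := m0_mem hPer y hy e r (hB 0)
  have hpc := pc_eq hPer y hy e r
  have hdat : ∀ τ m q, dat n e r y τ (m + n * q) = dat n e r y τ m := fun τ =>
    per _ ((hPer n e r y hy).2.2.2.2.2.2.1 τ)
  have hC := fun k => PP_com hPer y hy k
  have hT := tm_com y e
  have hadd : ∀ k q : ℤ, PP y (k + n * q) = Mo n y ^ q * PP y k :=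
    G_add (Mo n y) hu (PP y) (PP_add hPer y hy)
  have hrk : ∀ k, r * (r' * k) = k + n * (c * k) := fun k => by linear_combination k * hr
  have hrk1 : ∀ k, r * (r' * k + 1) = (k + r) + n * (c * k) := fun k => by
    linear_combination k * hr
  have hPd : ∀ k, (PP y k).det ≠ 0 := by
    intro k
    have h := hB (r' * k)
    rw [Bm_eq hPer y hy, hrk, hadd, Matrix.det_mul, Matrix.det_mul] at h
    exact right_ne_zero_of_mul (left_ne_zero_of_mul h)
  have hdt : ∀ x : ℝ, (tm n e y - x • (1 : M4)).det = pv (pc n e r y) x := by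
    intro x
    have h := (PN.aDt (PN.Mz (e : ℤ)) (PN.aFam.2.2.1 _) (m0 y) hD).2.2.1 x
    rw [Mz_m0, ← hpc] at h
    exact h
  have hdT : (tm n e y).det ≠ 0 := by
    rw [tm, Matrix.det_pow]
    exact pow_ne_zero _ hdM
  have hrel : ∀ k, (tm n e y - dat n e r y 0 (r' * k) 0 • (1 : M4)) * PP y (k + r) =
      kap n e r y (r' * k) • ((tm n e y ^ 2 + dat n e r y 0 (r' * k) 1 • tm n e y +
        dat n e r y 0 (r' * k) 2 • (1 : M4)) * PP y k) := by
    intro k
    have h := PP_rel hPer y hy e r (r' * k) hB (hb _) (hk _)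
    rw [hrk, hrk1, hadd, hadd] at h
    have hW : ∀ A : M4, Commute A (Mo n y) → A * Mo n y ^ (c * k) = Mo n y ^ (c * k) * A :=
      fun A hA => (Matrix.Commute.zpow_right hA _).eq
    have hA1 : Commute (tm n e y - dat n e r y 0 (r' * k) 0 • (1 : M4)) (Mo n y) :=
      hT.sub_left ((Commute.one_left _).smul_left _)
    have hA2 : Commute (tm n e y ^ 2 + dat n e r y 0 (r' * k) 1 • tm n e y +
        dat n e r y 0 (r' * k) 2 • (1 : M4)) (Mo n y) :=
      ((hT.pow_left 2).add_left (hT.smul_left _)).add_left ((Commute.one_left _).smul_left _)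
    rw [← Matrix.mul_assoc, hW _ hA1, ← Matrix.mul_assoc, hW _ hA2, Matrix.mul_assoc,
      Matrix.mul_assoc, ← Matrix.mul_smul] at h
    have h2 := congrArg (fun X => (Mo n y ^ (c * k))⁻¹ * X) h
    simp only [← Matrix.mul_assoc, Matrix.nonsing_inv_mul _ (hu.det_zpow (c * k)),
      Matrix.one_mul] at h2
    exact h2
  have hTri := hGeoN n e r (PN.Mz (e : ℤ)) (m0 y) 1 (PN.aFam.2.2.1 _) hD one_ne_zero
    (by rw [one_smul, Mz_m0]; rfl) (PP y) (fun k => kap n e r y (r' * k))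
    (fun k => dat n e r y 0 (r' * k) 0) (fun k => dat n e r y 0 (r' * k) 1)
    (fun k => dat n e r y 0 (r' * k) 2) (fun k => dat n e r y 1 (r' * k) 0)
    (fun k => dat n e r y 1 (r' * k) 1) (fun k => dat n e r y 1 (r' * k) 2)
    (fun k => 1 / η (r' * k)) (fun k => (hC k).eq) hPd (PP_add hPer y hy)
    (by
      intro k
      rw [Mz_m0]
      refine ⟨hk _, one_div_ne_zero (hη _), ?_, ?_, qv_ne y e r _ (hb _) (hk _) (hp0 _),
        qv_ne' _ _ _ _ _ (hη _) (hRel _) (hp1 _)⟩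
      · rw [hdt]
        exact hp0 _
      · rw [hdt]
        exact hp1 _)
    (by
      intro k
      have h1 : r' * (k + r) = (r' * k + 1) + n * c := by linear_combination hr
      rw [← hpc, h1, hdat]
      exact rel_PN _ _ _ _ _ (hη _) (hRel _))
    (by
      intro k
      rw [Mz_m0]
      exact hrel k)
  rw [Mz_m0] at hTri
  have hinv : ∀ A B : M4, Commute A B → Commute A⁻¹ B := by
    intro A B hA
    have h1 := Matrix.Commute.zpow_left hA (-1)
    rwa [Matrix.zpow_neg_one] at h1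
  have hGc : ∀ m, Commute (Gm n e r y m) (Mo n y) := by
    intro m
    exact (hT.sub_left ((Commute.one_left _).smul_left _)).mul_left
      (hinv _ _ (hT.sub_left ((Commute.one_left _).smul_left _)))
  have hGd : ∀ m, (Gm n e r y m).det ≠ 0 := by
    intro m
    rw [Gm, Matrix.det_mul]
    refine mul_ne_zero ?_ ?_
    · rw [hdt]
      exact hp1 m
    · refine (Matrix.isUnit_nonsing_inv_det _ (Ne.isUnit ?_)).ne_zero
      rw [hdt]
      exact hp0 m
  have hHc : ∀ k, Commute (Gm n e r y (r' * k) * PP y k) (Mo n y) := fun k =>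
    (hGc _).mul_left (hC k)
  have hHd : ∀ k, (Gm n e r y (r' * k) * PP y k).det ≠ 0 := by
    intro k
    rw [Matrix.det_mul]
    exact mul_ne_zero (hGd _) (hPd k)
  refine hMapN n a b e r i hI y (ff n e r r' i y) (PP y)
    (fun k => tm n e y * (Gm n e r y (r' * k) * PP y k)) hy rfl (fun k => (hC k).eq)
    (fun k => (hT.mul_left (hHc k)).eq) ?_ (PP_add hPer y hy) ?_ ?_ ?_ ?_
  · intro k
    rw [Matrix.det_mul]
    exact mul_ne_zero hdT (hHd k)
  · intro k
    have h1 : r' * (k + n) = r' * k + n * r' := by ring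
    have h2 : Gm n e r y (r' * (k + n)) = Gm n e r y (r' * k) := by
      rw [Gm, Gm, h1, hdat, hdat]
    change tm n e y * (Gm n e r y (r' * (k + n)) * PP y (k + n)) =
      Mo n y * (tm n e y * (Gm n e r y (r' * k) * PP y k))
    rw [h2, PP_add hPer y hy, ← Matrix.mul_assoc (Gm n e r y (r' * k)), (hGc _).eq,
      Matrix.mul_assoc, ← Matrix.mul_assoc (tm n e y), hT.eq, Matrix.mul_assoc]
  · intro j
    rw [PP_e0 hPer y hy]
    exact (hPer n e r y hy).2.2.1 j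
  · have h3 : (fun k => (tm n e y * (Gm n e r y (r' * k) * PP y k)) *ᵥ e0) = fun k =>
        (tm n e y * (tm n e y - dat n e r y 1 (r' * k) 0 • (1 : M4)) *
          (tm n e y - dat n e r y 0 (r' * k) 0 • (1 : M4))⁻¹ * PP y k) *ᵥ e0 := by
      funext k
      rw [Gm, Matrix.mul_assoc, Matrix.mul_assoc, Matrix.mul_assoc]
    rw [h3]
    exact hTri
  · intro j
    have h4 : (tm n e y * (Gm n e r y (r' * (((j : ℕ) : ℤ) + i)) * PP y (((j : ℕ) : ℤ) + i)) *
        (tm n e y * (Gm n e r y (r' * i) * PP y i))⁻¹) *ᵥ e0 =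
        imn n e r r' i y ((j : ℕ) : ℤ) := by
      have h5 : Commute (tm n e y) (Gm n e r y (r' * (((j : ℕ) : ℤ) + i)) *
          PP y (((j : ℕ) : ℤ) + i)) := com hPer y hy _ _ hT (hHc _)
      have h6 : Commute (Gm n e r y (r' * i) * PP y i)⁻¹
          (Gm n e r y (r' * (((j : ℕ) : ℤ) + i)) * PP y (((j : ℕ) : ℤ) + i)) :=
        hinv _ _ (com hPer y hy _ _ (hHc _) (hHc _))
      have h7 : Commute (tm n e y) (Gm n e r y (r' * i) * PP y i)⁻¹ :=
        (hinv _ _ (com hPer y hy _ _ (hHc i) hT)).symm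
      rw [Matrix.mul_inv_rev, imn, img, ← PP_e0 hPer y hy (((j : ℕ) : ℤ) + i),
        Matrix.mulVec_mulVec, Matrix.mulVec_mulVec]
      rw [rearr _ _ _ h5 h6 h7 hdT, Matrix.mul_assoc _ _ (PP y (((j : ℕ) : ℤ) + i))]
      rfl
    rw [h4]
    by_cases hj : j = 0
    · refine ⟨1, one_ne_zero, ?_⟩
      rw [← h4, hj]
      simp only [Fin.val_zero, Nat.cast_zero, zero_add, one_smul]
      have h8 : IsUnit (tm n e y * (Gm n e r y (r' * i) * PP y i)).det := by
        rw [Matrix.det_mul]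
        exact (mul_ne_zero hdT (hHd i)).isUnit
      rw [Matrix.mul_nonsing_inv _ h8, Matrix.one_mulVec, vert, if_pos rfl]
    · refine ⟨imn n e r r' i y ((j : ℕ) : ℤ) 0, hv j, ?_⟩
      have h8 : ∀ l : Fin 3, ff n e r r' i y (j, l) = imn n e r r' i y ((j : ℕ) : ℤ) l.succ /
          imn n e r r' i y ((j : ℕ) : ℤ) 0 := fun l => by
        rw [ff, if_neg hj]
      rw [vert, if_neg hj, h8, h8, h8]
      have h9 := hv j
      funext l
      fin_cases l
      · simp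
      · simp
        field_simp
      · simp
        field_simp
      · simp
        field_simp

end Pool.Agent.MP62a5ad.QN
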