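import Pool.Agent.Lib.MP_62a5ad_mp.QN.SpecD
import Pool.Agent.Lib.MP_62a5ad_mp.QN.GeoY

/-!
# MP_62a5ad_mp, project QN: the data of the image
-/

set_option autoImplicit false

namespace Pool.Agent.MP62a5ad.QN

open Matrix
open scoped ContDiff
open Pool.Agent.MP62a5ad.PN (V4 M4 e0)
open GeoYAux

/-- The calculation in the commutative algebra. -/
private theorem Fy_alg {A : Type} [CommRing A] (t ti a0 b0 a1 b1 g X0 X1 Z c0 c1 κ η η' Q0 Q1 Q2
    s1k s1l : A) (ht : t * ti = 1) (h0 : a0 * b0 = 1) (h1 : a1 * b1 = 1)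
    (hX : a0 * X1 = κ * (Q0 * X0))
    (r0 : η * (Q0 * Q1) = t * a1 * (t - s1k)) (r1 : η' * (Q1 * Q2) = t * (t - s1l) * g) :
    c0 * η * (g * (c1 * (Z * ((t - s1l) * b1 * X1)))) =
      c1 * κ * η' * (Q2 * (c0 * (Z * ((t - s1k) * b0 * X0)))) := by
  have key : (c0 * η * (g * (c1 * (Z * ((t - s1l) * b1 * X1)))) -
      c1 * κ * η' * (Q2 * (c0 * (Z * ((t - s1k) * b0 * X0))))) * (t * a1 * a0) = 0 := by
    linear_combination (c0 * η * c1 * Z * g * (t - s1l) * t * a0 * X1) * h1 +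
      (c0 * η * c1 * Z * g * (t - s1l) * t) * hX - (c0 * η * c1 * Z * κ * Q0 * X0) * r1 -
      (c1 * κ * η' * Q2 * c0 * Z * (t - s1k) * X0 * t * a1) * h0 +
      (c1 * κ * η' * Q2 * c0 * Z * X0) * r0
  have h2 : (t * a1 * a0) * (ti * b1 * b0) = 1 := by
    linear_combination (a1 * b1 * (a0 * b0)) * ht + (a0 * b0) * h1 + h0
  have h3 : c0 * η * (g * (c1 * (Z * ((t - s1l) * b1 * X1)))) -
      c1 * κ * η' * (Q2 * (c0 * (Z * ((t - s1k) * b0 * X0)))) = 0 := by
    calc _ = (c0 * η * (g * (c1 * (Z * ((t - s1l) * b1 * X1)))) -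
      c1 * κ * η' * (Q2 * (c0 * (Z * ((t - s1k) * b0 * X0))))) * ((t * a1 * a0) * (ti * b1 * b0)) := by
          rw [h2, mul_one]
      _ = _ := by rw [← mul_assoc, key, zero_mul]
  exact sub_eq_zero.1 h3

/-- Comparison of the coefficients. -/
private theorem Fy_coef {A : Type} [CommRing A] [Algebra ℝ A] (t : A) (b : Module.Basis (Fin 4) ℝ A)
    (p : V4) (hF : PN.Fr t b p) (s u C κ : ℝ) (v : V4)
    (h : (t - algebraMap ℝ A s) * (algebraMap ℝ A (v 0) + algebraMap ℝ A (v 1) * t +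
      algebraMap ℝ A (v 2) * t ^ 2 + algebraMap ℝ A (v 3) * t ^ 3) =
      algebraMap ℝ A κ * (t ^ 2 + algebraMap ℝ A u * t + algebraMap ℝ A C)) :
    v 2 - s * v 3 - p 3 * v 3 = 0 ∧ v 1 - s * v 2 - p 2 * v 3 = κ ∧
      v 0 - s * v 1 - p 1 * v 3 = κ * u ∧ -s * v 0 - p 0 * v 3 = κ * C := by
  have hr := hF.rel
  simp only [Algebra.smul_def, mul_one] at hr
  have h1 : ∑ j : Fin 4, (![-s * v 0 - p 0 * v 3 - κ * C, v 0 - s * v 1 - p 1 * v 3 - κ * u,
      v 1 - s * v 2 - p 2 * v 3 - κ, v 2 - s * v 3 - p 3 * v 3] : V4) j • b j = 0 := by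
    simp only [hF.pow, Fin.sum_univ_four, Algebra.smul_def]
    change algebraMap ℝ A (-s * v 0 - p 0 * v 3 - κ * C) * t ^ 0 +
      algebraMap ℝ A (v 0 - s * v 1 - p 1 * v 3 - κ * u) * t ^ 1 +
      algebraMap ℝ A (v 1 - s * v 2 - p 2 * v 3 - κ) * t ^ 2 +
      algebraMap ℝ A (v 2 - s * v 3 - p 3 * v 3) * t ^ 3 = 0
    simp only [map_sub, map_mul, map_neg]
    linear_combination h - algebraMap ℝ A (v 3) * hr
  have h2 := Fintype.linearIndependent_iff.1 b.linearIndependent _ h1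
  have e0 := h2 0
  have e1 := h2 1
  have e2 := h2 2
  have e3 := h2 3
  simp only [Matrix.cons_val_zero, Matrix.cons_val_one, Matrix.cons_val] at e0 e1 e2 e3
  exact ⟨e3, by linarith, by linarith, by linarith⟩

private theorem Fy_b3 (p : V4) (s u C κ : ℝ) (v : V4) (hκ : κ ≠ 0) (hQ : s ^ 2 + u * s + C ≠ 0)
    (h3 : v 2 - s * v 3 - p 3 * v 3 = 0) (h2 : v 1 - s * v 2 - p 2 * v 3 = κ)
    (h1 : v 0 - s * v 1 - p 1 * v 3 = κ * u) (h0 : -s * v 0 - p 0 * v 3 = κ * C) : v 3 ≠ 0 := by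
  intro h
  rw [h] at h3 h2 h1 h0
  apply mul_ne_zero hκ hQ
  linear_combination (-s ^ 3) * h3 - s ^ 2 * h2 - s * h1 - h0

section

variable {n : ℕ} [NeZero n]

private theorem Fy_inv (A B : M4) (h : Commute A B) : Commute A⁻¹ B := by
  have h1 := Matrix.Commute.zpow_left h (-1)
  rwa [Matrix.zpow_neg_one] at h1

/-- The matrices of the vertices of the image. -/
private theorem Fy_PP (hPer : S_Per) (e : ℕ) (r r' i : ℤ) (y : E n) (hy : cc n y 2 ≠ 0)
    (hG : (Gm n e r y (r' * i) * PP y i).det ≠ 0)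
    (hGc : ∀ m, Commute (Gm n e r y m) (Mo n y))
    (hv : ∀ k : Fin n, imn n e r r' i y ((k : ℕ) : ℤ) 0 ≠ 0) (k : ℤ) :
    ∃ c : ℝ, c ≠ 0 ∧ PP (ff n e r r' i y) k = c • ((Gm n e r y (r' * i) * PP y i)⁻¹ *
      (Gm n e r y (r' * (k + i)) * PP y (k + i))) := by
  have hu : IsUnit (Mo n y).det := (hPer n e r y hy).1.isUnit
  have hM : Mo n (ff n e r r' i y) = Mo n y := rfl
  have hy' : cc n (ff n e r r' i y) 2 ≠ 0 := hy
  have hC := fun k => PP_com hPer y hy k
  have hC' : ∀ k, Commute (PP (ff n e r r' i y) k) (Mo n y) := fun k =>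
    PP_com hPer (ff n e r r' i y) hy' k
  have hFc : ∀ k, Commute ((Gm n e r y (r' * i) * PP y i)⁻¹ *
      (Gm n e r y (r' * (k + i)) * PP y (k + i))) (Mo n y) := fun k =>
    (Fy_inv _ _ ((hGc _).mul_left (hC _))).mul_left ((hGc _).mul_left (hC _))
  have hdat : ∀ τ m q, dat n e r y τ (m + n * q) = dat n e r y τ m := fun τ =>
    per _ ((hPer n e r y hy).2.2.2.2.2.2.1 τ)
  have hFe : ∀ k, ((Gm n e r y (r' * i) * PP y i)⁻¹ *
      (Gm n e r y (r' * (k + i)) * PP y (k + i))) *ᵥ e0 = imn n e r r' i y k := by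
    intro k
    rw [imn, img, ← PP_e0 hPer y hy (k + i), Matrix.mulVec_mulVec, Matrix.mulVec_mulVec,
      Matrix.mul_assoc]
    rfl
  have hj : ∀ j : Fin n, ∃ c : ℝ, c ≠ 0 ∧ PP (ff n e r r' i y) ((j : ℕ) : ℤ) =
      c • ((Gm n e r y (r' * i) * PP y i)⁻¹ *
      (Gm n e r y (r' * (((j : ℕ) : ℤ) + i)) * PP y (((j : ℕ) : ℤ) + i))) := by
    intro j
    have h0 : ∃ c : ℝ, c ≠ 0 ∧ vert n (ff n e r r' i y) j =
        c • imn n e r r' i y ((j : ℕ) : ℤ) := by
      by_cases hj : j = 0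
      · refine ⟨1, one_ne_zero, ?_⟩
        rw [← hFe, hj]
        simp only [Fin.val_zero, Nat.cast_zero, zero_add, one_smul]
        rw [Matrix.nonsing_inv_mul _ hG.isUnit, Matrix.one_mulVec, vert, if_pos rfl]
      · refine ⟨(imn n e r r' i y ((j : ℕ) : ℤ) 0)⁻¹, inv_ne_zero (hv j), ?_⟩
        have h8 : ∀ l : Fin 3, ff n e r r' i y (j, l) = imn n e r r' i y ((j : ℕ) : ℤ) l.succ /
            imn n e r r' i y ((j : ℕ) : ℤ) 0 := fun l => by
          rw [ff, if_neg hj]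
        rw [vert, if_neg hj, h8, h8, h8]
        have h9 := hv j
        funext l
        fin_cases l
        · simp [h9]
        · simp
          field_simp
        · simp
          field_simp
        · simp
          field_simp
    obtain ⟨c, hc, h1⟩ := h0
    refine ⟨c, hc, ?_⟩
    apply eq_of_e0 hPer y hy _ _ (hC' _) ((hFc _).smul_left _)
    rw [Matrix.smul_mulVec, hFe, ← h1]
    rw [PP_e0 hPer (ff n e r r' i y) hy']
    exact (hPer n e r (ff n e r r' i y) hy').2.2.1 j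
  have hn : (0 : ℤ) < n := by
    have := NeZero.pos n
    exact_mod_cast this
  have hk0 := Int.emod_nonneg k hn.ne'
  have hk1 := Int.emod_lt_of_pos k hn
  obtain ⟨c, hc, h1⟩ := hj ⟨(k % n).toNat, by omega⟩
  have h2 : (((k % n).toNat : ℕ) : ℤ) = k % n := Int.toNat_of_nonneg hk0
  simp only [h2] at h1
  refine ⟨c, hc, ?_⟩
  have h3 : k = k % n + n * (k / n) := (Int.emod_add_mul_ediv k n).symm
  have h4 : PP (ff n e r r' i y) k = Mo n y ^ (k / n) * PP (ff n e r r' i y) (k % n) := by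
    conv_lhs => rw [h3]
    exact G_add (Mo n y) hu (PP (ff n e r r' i y)) (PP_add hPer (ff n e r r' i y) hy') _ _
  have h5 : PP y (k + i) = Mo n y ^ (k / n) * PP y (k % n + i) := by
    have h6 : k + i = (k % n + i) + n * (k / n) := by linarith
    rw [h6]
    exact G_add (Mo n y) hu (PP y) (PP_add hPer y hy) _ _
  have h7 : Gm n e r y (r' * (k + i)) = Gm n e r y (r' * (k % n + i)) := by
    have h6 : r' * (k + i) = r' * (k % n + i) + n * (r' * (k / n)) := by
      linear_combination r' * h3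
    rw [Gm, Gm, h6, hdat, hdat]
  have h8 : ∀ B : M4, Commute B (Mo n y) → B * Mo n y ^ (k / n) = Mo n y ^ (k / n) * B :=
    fun B hB => (Matrix.Commute.zpow_right hB _).eq
  rw [h4, h1, h5, h7, ← Matrix.mul_assoc (Gm n e r y (r' * (k % n + i))), h8 _ (hGc _),
    Matrix.mul_assoc (Mo n y ^ (k / n)), ← Matrix.mul_assoc _ (Mo n y ^ (k / n)),
    h8 _ (Fy_inv _ _ ((hGc _).mul_left (hC _))), Matrix.mul_smul, Matrix.mul_assoc]

end

/-- The relation in the algebra. -/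
private theorem Fy_rel {A : Type} [CommRing A] [Algebra ℝ A] (t : A)
    (b : Module.Basis (Fin 4) ℝ A) (p : Fin 4 → ℝ) (hF : PN.Fr t b p) (s η : ℝ) (z z' : Fin 3 → ℝ)
    (h : Rel p s z z' η) : algebraMap ℝ A η * ((t ^ 2 + algebraMap ℝ A (z 1) * t +
      algebraMap ℝ A (z 2)) * (t ^ 2 + algebraMap ℝ A (z' 1) * t + algebraMap ℝ A (z' 2))) =
      t * (t - algebraMap ℝ A s) * (t - algebraMap ℝ A (z' 0)) := by
  have hr := hF.rel
  simp only [Algebra.smul_def, mul_one] at hr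
  have c3 := congrArg (algebraMap ℝ A) h.c3
  have c2 := congrArg (algebraMap ℝ A) h.c2
  have c1 := congrArg (algebraMap ℝ A) h.c1
  have c0 := congrArg (algebraMap ℝ A) h.c0
  simp only [map_add, map_mul, map_neg, map_one] at c3 c2 c1 c0
  linear_combination t ^ 3 * c3 + t ^ 2 * c2 + t * c1 + algebraMap ℝ A η * c0 +
    algebraMap ℝ A η * hr

theorem sFy (h1 : S_Rel) (h2 : S_Per) : S_Fy := by
  intro n _ e r r' c i hr y hy
  have hc := hy.c2
  have hM : Mo n (ff n e r r' i y) = Mo n y := rfl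
  have hc' : cc n (ff n e r r' i y) 2 ≠ 0 := hc
  have hdM := (h2 n e r y hc).1
  have hu := hdM.isUnit
  have hD := m0_mem h2 y hc e r (hy.bm 0)
  have hpc := pc_eq h2 y hc e r
  have hpc' : pc n e r (ff n e r r' i y) = pc n e r y := by
    rw [pc_eq h2 _ hc' e r, hpc]
    rfl
  refine ⟨rfl, hpc', ?_⟩
  have htm : tm n e (ff n e r r' i y) = tm n e y := rfl
  obtain ⟨A, _, _, ι, b, τ, hF, hτ, hinj, hcomm, hsurj, -, -, -, -, -, hinvA⟩ :=
    PN.aBrg (PN.Mz (e : ℤ)) (PN.aFam.2.2.1 _) (m0 y) hD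
  rw [Mz_m0] at hτ
  rw [← hpc] at hF
  rw [mono_m0] at hcomm
  rw [mono_m0] at hsurj
  have hdt : ∀ x : ℝ, (tm n e y - x • (1 : M4)).det = pv (pc n e r y) x := by
    intro x
    have h := (PN.aDt (PN.Mz (e : ℤ)) (PN.aFam.2.2.1 _) (m0 y) hD).2.2.1 x
    rw [Mz_m0, ← hpc] at h
    exact h
  have hdat : ∀ τ m q, dat n e r y τ (m + n * q) = dat n e r y τ m := fun τ =>
    per _ ((h2 n e r y hc).2.2.2.2.2.2.1 τ)
  have hιx : ∀ x : ℝ, ι (τ - algebraMap ℝ A x) = tm n e y - x • (1 : M4) := by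
    intro x
    rw [map_sub, hτ, AlgHom.commutes, Algebra.algebraMap_eq_smul_one]
  have hx : ∀ x : ℝ, pv (pc n e r y) x ≠ 0 → ∃ a' : A, (τ - algebraMap ℝ A x) * a' = 1 ∧
      ι a' = (tm n e y - x • (1 : M4))⁻¹ := by
    intro x hx
    have h3 := hinvA (τ - algebraMap ℝ A x)
    rw [hιx, hdt] at h3
    exact h3 hx
  have hp0 : ∀ m, pv (pc n e r y) (dat n e r y 0 m 0) ≠ 0 := fun m =>
    hy.ok.ps 0 m (by norm_num) (by norm_num)
  have hp1 : ∀ m, pv (pc n e r y) (dat n e r y 1 m 0) ≠ 0 := fun m =>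
    hy.ok.ps 1 m (by norm_num) (by norm_num)
  have hp2 : ∀ m, pv (pc n e r y) (dat n e r y 2 m 0) ≠ 0 := fun m =>
    hy.ok.ps 2 m (by norm_num) (by norm_num)
  have hr0 : ∀ k, Rel (pc n e r y) (dat n e r y 0 (k + 1) 0) (dat n e r y 0 k) (dat n e r y 1 k)
      (leta (pc n e r y) (dat n e r y) 0 k) := fun k => hy.ok.rel 0 k (by norm_num) (by norm_num)
  have hr1 : ∀ k, Rel (pc n e r y) (dat n e r y 1 (k + 1) 0) (dat n e r y 1 k) (dat n e r y 2 k)
      (leta (pc n e r y) (dat n e r y) 1 k) := fun k => hy.ok.rel 1 k (by norm_num) (by norm_num)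
  have he0 : ∀ k, leta (pc n e r y) (dat n e r y) 0 k ≠ 0 := fun k =>
    hy.ok.eta 0 k (by norm_num) (by norm_num)
  have he1 : ∀ k, leta (pc n e r y) (dat n e r y) 1 k ≠ 0 := fun k =>
    hy.ok.eta 1 k (by norm_num) (by norm_num)
  choose σ hσ hσι using fun m => hx _ (hp0 m)
  have hGι : ∀ m, ι ((τ - algebraMap ℝ A (dat n e r y 1 m 0)) * σ m) = Gm n e r y m := by
    intro m
    rw [map_mul, hιx, hσι]
    rfl
  have hGc : ∀ m, Commute (Gm n e r y m) (Mo n y) := by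
    intro m
    rw [← hGι]
    exact hcomm _
  have hC := fun k => PP_com h2 y hc k
  have hC' : ∀ k, Commute (PP (ff n e r r' i y) k) (Mo n y) := fun k =>
    PP_com h2 (ff n e r r' i y) hc' k
  have hadd : ∀ k q : ℤ, PP y (k + n * q) = Mo n y ^ q * PP y k :=
    G_add (Mo n y) hu (PP y) (PP_add h2 y hc)
  have hPr : ∀ m, (PP y (r * m)).det ≠ 0 := by
    intro m
    have h := hy.bm m
    rw [Bm_eq h2 y hc, Matrix.det_mul] at h
    exact left_ne_zero_of_mul h
  have hPd : ∀ k, (PP y k).det ≠ 0 := by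
    intro k
    have h := hPr (r' * k)
    have h3 : r * (r' * k) = k + n * (c * k) := by linear_combination k * hr
    rw [h3, hadd, Matrix.det_mul] at h
    exact right_ne_zero_of_mul h
  have hGd : ∀ m, (Gm n e r y m).det ≠ 0 := by
    intro m
    rw [Gm, Matrix.det_mul]
    refine mul_ne_zero ?_ ?_
    · rw [hdt]
      exact hp1 m
    · refine (Matrix.isUnit_nonsing_inv_det _ (Ne.isUnit ?_)).ne_zero
      rw [hdt]
      exact hp0 m
  have hG : (Gm n e r y (r' * i) * PP y i).det ≠ 0 := by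
    rw [Matrix.det_mul]
    exact mul_ne_zero (hGd _) (hPd _)
  choose X hX using fun k => hsurj (PP y k) (hC k)
  choose Y hY using fun k => hsurj (PP (ff n e r r' i y) k) (hC' k)
  obtain ⟨W, hW⟩ := hsurj ((Gm n e r y (r' * i) * PP y i)⁻¹ * Mo n y ^ (-(c * i)))
    ((Fy_inv _ _ ((hGc _).mul_left (hC _))).mul_left
      (Matrix.Commute.zpow_left (Commute.refl _) _))
  have hYX : ∀ m, ∃ d : ℝ, d ≠ 0 ∧ Y (r * m) = algebraMap ℝ A d * (W *
      ((τ - algebraMap ℝ A (dat n e r y 1 (m + r' * i) 0)) * σ (m + r' * i) *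
        X (r * (m + r' * i)))) := by
    intro m
    obtain ⟨d, hd, h3⟩ := Fy_PP h2 e r r' i y hc hG hGc hy.im (r * m)
    refine ⟨d, hd, hinj ?_⟩
    have h4 : r * m + i = r * (m + r' * i) + n * (-(c * i)) := by linear_combination -i * hr
    have h5 : r' * (r * m + i) = (m + r' * i) + n * (c * m) := by linear_combination m * hr
    have h6 : Gm n e r y (r' * (r * m + i)) = Gm n e r y (m + r' * i) := by
      rw [Gm, Gm, h5, hdat, hdat]
    have h8 : Gm n e r y (m + r' * i) * Mo n y ^ (-(c * i)) =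
        Mo n y ^ (-(c * i)) * Gm n e r y (m + r' * i) :=
      (Matrix.Commute.zpow_right (hGc _) _).eq
    rw [← Algebra.smul_def, map_smul, map_mul, hW, map_mul, hGι, hX, hY, h3, h6, h4, hadd,
      ← Matrix.mul_assoc (Gm n e r y (m + r' * i)), h8]
    simp only [Matrix.mul_assoc]
  choose d hd hYd using hYX
  have hti : ∃ ti, τ * ti = 1 := by
    have h3 := hinvA τ
    rw [hτ] at h3
    obtain ⟨a', h4, -⟩ := h3 (by
      rw [tm, Matrix.det_pow]
      exact pow_ne_zero _ hdM)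
    exact ⟨a', h4⟩
  obtain ⟨ti, hti⟩ := hti
  have hYi : ∀ m, ∃ a', Y (r * m) * a' = 1 := by
    intro m
    have h3 := hinvA (Y (r * m))
    obtain ⟨a', h4, -⟩ := h3 (by
      rw [hY]
      obtain ⟨d, hd, h3⟩ := Fy_PP h2 e r r' i y hc hG hGc hy.im (r * m)
      rw [h3, Matrix.det_smul, Matrix.det_mul, Matrix.det_mul]
      exact mul_ne_zero (pow_ne_zero _ hd) (mul_ne_zero
        (Matrix.isUnit_nonsing_inv_det _ hG.isUnit).ne_zero (mul_ne_zero (hGd _) (hPd _))))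
    exact ⟨a', h4⟩
  have hB' : ∀ m, (Bm n e r (ff n e r r' i y) m).det ≠ 0 := by
    intro m
    rw [Bm_eq h2 _ hc', Matrix.det_mul]
    refine mul_ne_zero ?_ ?_
    · obtain ⟨d, hd, h3⟩ := Fy_PP h2 e r r' i y hc hG hGc hy.im (r * m)
      rw [h3, Matrix.det_smul, Matrix.det_mul, Matrix.det_mul]
      exact mul_ne_zero (pow_ne_zero _ hd) (mul_ne_zero
        (Matrix.isUnit_nonsing_inv_det _ hG.isUnit).ne_zero (mul_ne_zero (hGd _) (hPd _)))
    · exact hD.2
  have hq2 : ∀ k, dat n e r y 2 k 0 ^ 2 + dat n e r y 2 k 1 * dat n e r y 2 k 0 +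
      dat n e r y 2 k 2 ≠ 0 := by
    intro k h0
    have h3 := (h1 ℝ (pc n e r y)).2.2.2.1 _ _ _ _ (hr1 k) (dat n e r y 2 k 0)
    unfold qv at h3
    rw [h0, sub_self, mul_zero, mul_zero, mul_zero, zero_add] at h3
    exact mul_ne_zero (he1 k) (hp2 k) h3.symm
  have hmain : ∀ m, dat0 n e r (ff n e r r' i y) m = dat n e r y 2 (m + r' * i) := by
    intro m
    obtain ⟨k, hk⟩ : ∃ k, k = m + r' * i := ⟨_, rfl⟩
    have hk1 : m + 1 + r' * i = k + 1 := by linarith
    have hY0 := hYd m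
    have hY1 := hYd (m + 1)
    rw [hk1] at hY1
    rw [← hk] at hY0 ⊢
    have hstep : Y (r * (m + 1)) = (algebraMap ℝ A (bv n e r (ff n e r r' i y) m 0) +
        algebraMap ℝ A (bv n e r (ff n e r r' i y) m 1) * τ +
        algebraMap ℝ A (bv n e r (ff n e r r' i y) m 2) * τ ^ 2 +
        algebraMap ℝ A (bv n e r (ff n e r r' i y) m 3) * τ ^ 3) * Y (r * m) := by
      apply hinj
      rw [hY, PP_step h2 _ hc' e r m (hB' m), map_mul, hY, htm]
      congr 1
      simp only [map_add, map_mul, map_pow, hτ, AlgHom.commutes, Algebra.smul_def, mul_one]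
    have hXr : (τ - algebraMap ℝ A (dat n e r y 0 k 0)) * X (r * (k + 1)) =
        algebraMap ℝ A (kap n e r y k) * ((τ ^ 2 + algebraMap ℝ A (dat n e r y 0 k 1) * τ +
          algebraMap ℝ A (dat n e r y 0 k 2)) * X (r * k)) := by
      apply hinj
      rw [map_mul, hιx, hX, PP_rel h2 y hc e r k hy.bm (hy.b3 k) (hy.ka k), ← Algebra.smul_def,
        map_smul, map_mul, hX]
      congr 2
      simp only [map_add, map_mul, map_pow, hτ, AlgHom.commutes, Algebra.smul_def, mul_one]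
    have h3 := Fy_alg τ ti _ _ _ _ (τ - algebraMap ℝ A (dat n e r y 2 k 0)) (X (r * k))
      (X (r * (k + 1))) W (algebraMap ℝ A (d m)) (algebraMap ℝ A (d (m + 1))) _ _ _ _ _ _
      (algebraMap ℝ A (dat n e r y 1 k 0)) (algebraMap ℝ A (dat n e r y 1 (k + 1) 0)) hti
      (hσ k) (hσ (k + 1)) hXr (Fy_rel τ b _ hF _ _ _ _ (hr0 k)) (Fy_rel τ b _ hF _ _ _ _ (hr1 k))
    rw [← hY0, ← hY1, hstep] at h3
    obtain ⟨yi, hyi⟩ := hYi m
    have hde : d m * leta (pc n e r y) (dat n e r y) 0 k ≠ 0 := mul_ne_zero (hd m) (he0 k)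
    obtain ⟨κ, hκ⟩ : ∃ κ, κ = d (m + 1) * kap n e r y k * leta (pc n e r y) (dat n e r y) 1 k /
      (d m * leta (pc n e r y) (dat n e r y) 0 k) := ⟨_, rfl⟩
    have hκ0 : κ ≠ 0 := by
      rw [hκ]
      exact div_ne_zero (mul_ne_zero (mul_ne_zero (hd _) (hy.ka k)) (he1 k)) hde
    have hκ1 : κ * (d m * leta (pc n e r y) (dat n e r y) 0 k) =
        d (m + 1) * kap n e r y k * leta (pc n e r y) (dat n e r y) 1 k := by
      rw [hκ, div_mul_cancel₀ _ hde]
    have hκ2 := congrArg (algebraMap ℝ A) hκ1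
    have hinv := congrArg (algebraMap ℝ A) (mul_inv_cancel₀ hde)
    simp only [map_mul, map_one] at hκ2 hinv
    have h4 : (τ - algebraMap ℝ A (dat n e r y 2 k 0)) *
        (algebraMap ℝ A (bv n e r (ff n e r r' i y) m 0) +
        algebraMap ℝ A (bv n e r (ff n e r r' i y) m 1) * τ +
        algebraMap ℝ A (bv n e r (ff n e r r' i y) m 2) * τ ^ 2 +
        algebraMap ℝ A (bv n e r (ff n e r r' i y) m 3) * τ ^ 3) =
        algebraMap ℝ A κ * (τ ^ 2 + algebraMap ℝ A (dat n e r y 2 k 1) * τ +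
          algebraMap ℝ A (dat n e r y 2 k 2)) := by
      generalize (algebraMap ℝ A (bv n e r (ff n e r r' i y) m 0) +
        algebraMap ℝ A (bv n e r (ff n e r r' i y) m 1) * τ +
        algebraMap ℝ A (bv n e r (ff n e r r' i y) m 2) * τ ^ 2 +
        algebraMap ℝ A (bv n e r (ff n e r r' i y) m 3) * τ ^ 3) = B at h3 ⊢
      generalize (τ ^ 2 + algebraMap ℝ A (dat n e r y 2 k 1) * τ +
          algebraMap ℝ A (dat n e r y 2 k 2)) = Q at h3 ⊢
      generalize (τ - algebraMap ℝ A (dat n e r y 2 k 0)) = g at h3 ⊢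
      generalize Y (r * m) = y0 at h3 hyi
      generalize algebraMap ℝ A (d m * leta (pc n e r y) (dat n e r y) 0 k)⁻¹ = v at hinv
      have h5 : (algebraMap ℝ A (d m) * algebraMap ℝ A (leta (pc n e r y) (dat n e r y) 0 k)) *
          (g * B - algebraMap ℝ A κ * Q) * y0 = 0 := by
        linear_combination h3 - (Q * y0) * hκ2
      have h6 : g * B - algebraMap ℝ A κ * Q = 0 := by
        linear_combination (v * yi) * h5 - (g * B - algebraMap ℝ A κ * Q) *
          (algebraMap ℝ A (d m) * algebraMap ℝ A (leta (pc n e r y) (dat n e r y) 0 k)) * v * hyi -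
          (g * B - algebraMap ℝ A κ * Q) * hinv
      exact sub_eq_zero.1 h6
    obtain ⟨c3, c2, c1, c0⟩ := Fy_coef τ b _ hF _ _ _ _ _ h4
    have hb3 := Fy_b3 _ _ _ _ _ _ hκ0 (hq2 k) c3 c2 c1 c0
    have es : s0 n e r (ff n e r r' i y) m = dat n e r y 2 k 0 := by
      rw [s0, hpc', sub_eq_iff_eq_add, div_eq_iff hb3]
      linear_combination c3
    have ek : kap n e r (ff n e r r' i y) m = κ := by
      rw [kap, es, hpc']
      exact c2
    funext j
    fin_cases j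
    · exact es
    · change (bv n e r (ff n e r r' i y) m 0 - s0 n e r (ff n e r r' i y) m *
        bv n e r (ff n e r r' i y) m 1 - pc n e r (ff n e r r' i y) 1 *
        bv n e r (ff n e r r' i y) m 3) / kap n e r (ff n e r r' i y) m = dat n e r y 2 k 1
      rw [es, ek, hpc', c1, mul_div_cancel_left₀ _ hκ0]
    · change (-s0 n e r (ff n e r r' i y) m * bv n e r (ff n e r r' i y) m 0 -
        pc n e r (ff n e r r' i y) 0 * bv n e r (ff n e r r' i y) m 3) /
        kap n e r (ff n e r r' i y) m = dat n e r y 2 k 2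
      rw [es, ek, hpc', c0, mul_div_cancel_left₀ _ hκ0]
  have hback : ∀ k, dat n e r y 1 (k + 1) 0 = rS (pc n e r y) (dat n e r y 2 k 0)
      (dat n e r y 2 k 1) (dat n e r y 2 k 2) ∧ dat n e r y 1 k 1 = rU (pc n e r y)
      (dat n e r y 2 k 0) (dat n e r y 2 k 1) (dat n e r y 2 k 2) ∧
      dat n e r y 1 k 2 = pc n e r y 0 / dat n e r y 2 k 2 := by
    intro k
    have h3 := (h1 ℝ (pc n e r y)).2.2.1 _ _ _ _ (hr1 k)
    have h4 : dat n e r y 2 k 2 ≠ 0 := by
      intro h0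
      have h5 := (hr1 k).c0
      rw [h0, mul_zero] at h5
      exact hy.ok.p0 h5.symm
    have h5 := ((h1 ℝ (pc n e r y)).2.1 _ _ _ _ h4 (by
      intro h0
      apply hq2 k
      linear_combination h0) (he1 k) h3).1
    exact ⟨congrFun h5 0, congrFun h5 1, congrFun h5 2⟩
  intro m
  refine ⟨hmain m, ?_⟩
  have h3 : dat n e r (ff n e r r' i y) (-1) m =
      bwd (pc n e r (ff n e r r' i y)) (dat0 n e r (ff n e r r' i y)) m := rfl
  have h4 : m - 1 + r' * i + 1 = m + r' * i := by ring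
  rw [h3, hpc']
  unfold bwd
  rw [hmain, hmain, ← (hback (m - 1 + r' * i)).1, ← (hback (m + r' * i)).2.1,
    ← (hback (m + r' * i)).2.2, h4]
  funext j
  fin_cases j <;> rfl

end Pool.Agent.MP62a5ad.QN
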