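import Pool.Agent.Lib.MP_62a5ad_mp.QN.SpecC

/-!
# MP_62a5ad_mp, project QN: conditions at every place
-/

set_option autoImplicit false

namespace Pool.Agent.MP62a5ad.QN

open Matrix
open scoped ContDiff
open Pool.Agent.MP62a5ad.PN (V4 M4 e0)

namespace GaAux

private theorem rsvRA {ι : Type} [Fintype ι] {y0 : ι → ℝ} (ra : RAt y0) {p : (ι → ℝ) → Fin 4 → ℝ}
    {x : (ι → ℝ) → ℝ} (hp : RV y0 p) (hx : RA y0 x) : RA y0 fun y => rsv (p y) (x y) := by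
  unfold rsv
  refine ra.sub _ _ (ra.add _ _ (ra.sub _ _ (ra.pow _ 3 hx) (ra.mul _ _ (hp 2) (ra.pow _ 2 hx)))
    (ra.mul _ _ (ra.sub _ _ (ra.mul _ _ (hp 3) (hp 1)) (ra.mul _ _ (ra.const 4) (hp 0))) hx)) ?_
  exact ra.add _ _ (ra.sub _ _ (ra.mul _ _ (ra.pow _ 2 (hp 3)) (hp 0))
    (ra.mul _ _ (ra.mul _ _ (ra.const 4) (hp 2)) (hp 0))) (ra.pow _ 2 (hp 1))

end GaAux

theorem tGa (hRaA : S_RaA) (hRaM : S_RaM) (hPd : S_Pd) (hPer : S_Per) (hYp : S_Yp) (hYb : S_Yb)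
    (hYd : S_Yd) (hYl : S_Yl) (hRb : S_Rb) (hRd : S_Rd) : S_Ga := by
  intro n _ e r he ν hν h1 h2 h3 h4 h5
  have ra := hRaA (Ix n) (ys n)
  have rm := hRaM (Ix n) (ys n)
  have hcc : cc n (ys n) = cs := (hYp n).1
  have hcc2 : cc n (ys n) 2 ≠ 0 := by
    rw [hcc]
    change (1 / 256 : ℝ) ≠ 0
    norm_num
  obtain ⟨hB, hpc, -⟩ := hYb n e r he
  obtain ⟨-, -, -, hBm, hpcR, hbvR, hkapR, -⟩ := hRb n e r he ν hν h1 h2 h3 h4
  obtain ⟨hdat, hdatR⟩ := hRd n e r he ν hν h1 h2 h3 h4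
  obtain ⟨hz2, -, -, -, -, -, -, -, hh⟩ :=
    hYl ((1 / 4 : ℝ) ^ e) ν (pow_ne_zero _ (by norm_num)) h1 h2 h3 h4
  obtain ⟨-, hrsv, hcp⟩ := hh h5
  have hcm : ∀ m, cm n e r (ys n) m = zx ((1 / 4 : ℝ) ^ e) ν 2 := by
    intro m
    unfold cm
    rw [hdat, if_pos Even.zero]
  have hcmR : ∀ m, RA (ys n) fun y => cm n e r y m := fun m => hdatR 0 m 2
  have hcmn : ∀ m, cm n e r (ys n) m ≠ 0 := fun m => by rw [hcm]; exact hz2
  have pbv : ∀ y, cc n y 2 ≠ 0 → ∀ m : ℤ, bv n e r y (m + n) = bv n e r y m :=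
    fun y hy => (hPer n e r y hy).2.2.2.2.2.1
  have pcm : ∀ y, cc n y 2 ≠ 0 → ∀ m : ℤ, cm n e r y (m + n) = cm n e r y m := by
    intro y hy m
    unfold cm
    rw [(hPer n e r y hy).2.2.2.2.2.2.1]
  have E1 : ∀ᶠ y in ZN (ys n), cc n y 2 ≠ 0 := ra.nz (fun y => cc n y 2) (ra.coord (0, 2)) hcc2
  have E2 : ∀ᶠ y in ZN (ys n), ∀ m, (Bm n e r y m).det ≠ 0 :=
    hPd n (ys n) (fun y m => (Bm n e r y m).det ≠ 0) hcc2
      (fun y hy m => (hPer n e r y hy).2.2.2.2.1 m)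
      fun m => ra.nz _ (rm.det _ (hBm m)) (hB m)
  have E3 : ∀ᶠ y in ZN (ys n), ∀ m, bv n e r y m 3 ≠ 0 :=
    hPd n (ys n) (fun y m => bv n e r y m 3 ≠ 0) hcc2
      (fun y hy m => by rw [pbv y hy m])
      fun m => ra.nz (fun y => bv n e r y m 3) (hbvR m 3) (hYd n e r he ν hν h1 h2 h3 h4 m).1
  have E4 : ∀ᶠ y in ZN (ys n), ∀ m, kap n e r y m ≠ 0 :=
    hPd n (ys n) (fun y m => kap n e r y m ≠ 0) hcc2
      (fun y hy m => by
        have h : kap n e r y (m + n) = kap n e r y m := by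
          unfold kap s0
          rw [pbv y hy m]
        rw [h])
      fun m => ra.nz (fun y => kap n e r y m) (hkapR m) (hYd n e r he ν hν h1 h2 h3 h4 m).2.1
  have E5 : ∀ᶠ y in ZN (ys n), ∀ m,
      rsv (pc n e r y) (cm n e r y m + pc n e r y 0 / cm n e r y m) ≠ 0 :=
    hPd n (ys n) (fun y m => rsv (pc n e r y) (cm n e r y m + pc n e r y 0 / cm n e r y m) ≠ 0)
      hcc2 (fun y hy m => by rw [pcm y hy m])
      fun m => ra.nz (fun y => rsv (pc n e r y) (cm n e r y m + pc n e r y 0 / cm n e r y m))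
        (GaAux.rsvRA ra hpcR (ra.add _ _ (hcmR m) (ra.div _ _ (hpcR 0) (hcmR m) (hcmn m))))
        (by rw [hcm, hpc]; exact hrsv)
  have E6 : ∀ᶠ y in ZN (ys n), ∀ m, cm n e r y m ^ 2 ≠ pc n e r y 0 :=
    hPd n (ys n) (fun y m => cm n e r y m ^ 2 ≠ pc n e r y 0)
      hcc2 (fun y hy m => by rw [pcm y hy m])
      fun m => (ra.nz (fun y => cm n e r y m ^ 2 - pc n e r y 0)
        (ra.sub _ _ (ra.pow _ 2 (hcmR m)) (hpcR 0))
        (by rw [hcm, hpc]; exact sub_ne_zero.2 hcp)).mono fun y hy => sub_ne_zero.1 hy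
  filter_upwards [E1, E2, E3, E4, E5, E6] with y k1 k2 k3 k4 k5 k6
  exact ⟨k1, k2, k3, k4, k5, k6⟩

end Pool.Agent.MP62a5ad.QN
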