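import Pool.Agent.Lib.MP_62a5ad_mp.QN.SpecC

/-!
# MP_62a5ad_mp, project QN: the half times `-2, …, 2` of a generic polygon
-/

set_option autoImplicit false

namespace Pool.Agent.MP62a5ad.QN

open Matrix
open scoped ContDiff
open Pool.Agent.MP62a5ad.PN (V4 M4 e0)

namespace GbAux

theorem ra_den {ι : Type} [Fintype ι] {y0 : ι → ℝ} (h : RAt y0) {s u C : (ι → ℝ) → ℝ}
    (hs : RA y0 s) (hu : RA y0 u) (hC : RA y0 C) :
    RA y0 fun y => C y + s y ^ 2 + u y * s y :=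
  h.add _ _ (h.add _ _ hC (h.pow _ 2 hs)) (h.mul _ _ hu hs)

theorem ra_rA {ι : Type} [Fintype ι] {y0 : ι → ℝ} (h : RAt y0) {p : (ι → ℝ) → Fin 4 → ℝ}
    {s u C : (ι → ℝ) → ℝ} (hp : RV y0 p) (hs : RA y0 s) (hu : RA y0 u) (hC : RA y0 C)
    (hC0 : C y0 ≠ 0) (hd : C y0 + s y0 ^ 2 + u y0 * s y0 ≠ 0) :
    RA y0 fun y => rA (p y) (s y) (u y) (C y) :=
  h.div _ _ (h.sub _ _ (h.sub _ _ (h.add _ _ (h.mul _ _ hs (h.add _ _ (h.sub _ _ (h.sub _ _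
    (h.sub _ _ (hp 2) hC) (h.div _ _ (hp 0) hC hC0)) (h.mul _ _ hu (hp 3))) (h.pow _ 2 hu)))
    (hp 1)) (h.mul _ _ hu (h.div _ _ (hp 0) hC hC0))) (h.mul _ _ (h.sub _ _ (hp 3) hu) hC))
    (ra_den h hs hu hC) hd

theorem ra_pv {ι : Type} [Fintype ι] {y0 : ι → ℝ} (h : RAt y0) {p : (ι → ℝ) → Fin 4 → ℝ}
    {s : (ι → ℝ) → ℝ} (hp : RV y0 p) (hs : RA y0 s) : RA y0 fun y => pv (p y) (s y) :=
  h.add _ _ (h.add _ _ (h.add _ _ (h.add _ _ (h.pow _ 4 hs) (h.mul _ _ (hp 3) (h.pow _ 3 hs)))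
    (h.mul _ _ (hp 2) (h.pow _ 2 hs))) (h.mul _ _ (hp 1) hs)) (hp 0)

end GbAux

open GbAux in
theorem tGb (hRaA : S_RaA) (hPd : S_Pd) (hPer : S_Per) (hLat : S_Lat) (hYp : S_Yp) (hYb : S_Yb)
    (_hYd : S_Yd) (hYl : S_Yl) (hRb : S_Rb) (hRd : S_Rd) : S_Gb := by
  intro n _ e r he ν hν h1 h2 h3 h4 h5
  have hA : RAt (ys n) := hRaA (Ix n) (ys n)
  have hg : ((1 / 4 : ℝ) ^ e) ≠ 0 := by positivity
  set g : ℝ := (1 / 4 : ℝ) ^ e with hgdef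
  have hc2 : cc n (ys n) 2 ≠ 0 := by
    rw [(hYp n).1]
    simp [cs]
  have hpc : pc n e r (ys n) = px g := (hYb n e r he).2.1
  obtain ⟨-, -, -, -, hpR, -⟩ := hRb n e r he ν hν h1 h2 h3 h4
  obtain ⟨hval, hdR⟩ := hRd n e r he ν hν h1 h2 h3 h4
  -- the values
  have hex : ∀ τ : ℤ, ∃ ν' : ℝ, ν' ≠ -1 ∧ ν' ≠ 0 ∧ ν' ≠ 1 ∧ ν' ≠ 2 ∧ ν' ≠ 1 / 2 ∧
      (∀ m, dat n e r (ys n) τ m = zx g ν') ∧ ∀ m, dat n e r (ys n) (τ + 1) m = zx g (1 - ν') := by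
    intro τ
    by_cases hτ : Even τ
    · refine ⟨ν, h1, h2, h3, h4, h5, fun m => ?_, fun m => ?_⟩
      · rw [hval, if_pos hτ]
      · rw [hval, if_neg (by rw [Int.even_add_one]; exact not_not.2 hτ)]
    · refine ⟨1 - ν, fun h => h4 (by linarith), fun h => h3 (by linarith),
        fun h => h2 (by linarith), fun h => h1 (by linarith), fun h => h5 (by linarith),
        fun m => ?_, fun m => ?_⟩
      · rw [hval, if_neg hτ]
      · rw [hval, if_pos (Int.even_add_one.2 hτ), sub_sub_cancel]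
  have key : ∀ f : E n → ℤ → ℝ, (∀ m, RA (ys n) fun y => f y m) → (∀ m, f (ys n) m ≠ 0) →
      (∀ y, cc n y 2 ≠ 0 → ∀ m, f y (m + n) = f y m) → ∀ᶠ y in ZN (ys n), ∀ m, f y m ≠ 0 :=
    fun f k1 k2 k3 => hPd n (ys n) (fun y m => f y m ≠ 0) hc2
      (fun y hy m => by rw [k3 y hy m]) fun m => hA.nz _ (k1 m) (k2 m)
  have hper : ∀ y, cc n y 2 ≠ 0 → ∀ τ m, dat n e r y τ (m + n) = dat n e r y τ m := by
    intro y hy
    obtain ⟨-, -, -, -, -, -, h, -⟩ := hPer n e r y hy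
    exact h
  have hper1 : ∀ y, cc n y 2 ≠ 0 → ∀ τ m, dat n e r y τ (m + n + 1) = dat n e r y τ (m + 1) := by
    intro y hy τ m
    rw [add_right_comm]
    exact hper y hy τ (m + 1)
  have e0 : ∀ᶠ y in ZN (ys n), pc n e r y 0 ≠ 0 := by
    refine hA.nz _ (hpR 0) ?_
    rw [hpc]
    simpa [px] using hg
  have eC : ∀ τ, ∀ᶠ y in ZN (ys n), ∀ m, dat n e r y τ m 2 ≠ 0 := by
    intro τ
    obtain ⟨ν', k1, k2, k3, k4, k5, kv, -⟩ := hex τ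
    refine key (fun y m => dat n e r y τ m 2) (fun m => hdR τ m 2) (fun m => ?_)
      fun y hy m => by rw [hper y hy]
    rw [kv]
    exact (hYl g ν' hg k1 k2 k3 k4).1
  have eD1 : ∀ τ, ∀ᶠ y in ZN (ys n), ∀ m, dat n e r y τ m 2 + dat n e r y τ (m + 1) 0 ^ 2 +
      dat n e r y τ m 1 * dat n e r y τ (m + 1) 0 ≠ 0 := by
    intro τ
    obtain ⟨ν', k1, k2, k3, k4, k5, kv, -⟩ := hex τ
    refine key (fun y m => dat n e r y τ m 2 + dat n e r y τ (m + 1) 0 ^ 2 +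
      dat n e r y τ m 1 * dat n e r y τ (m + 1) 0)
      (fun m => ra_den hA (hdR τ (m + 1) 0) (hdR τ m 1) (hdR τ m 2)) (fun m => ?_)
      fun y hy m => by rw [hper y hy, hper1 y hy]
    rw [kv, kv]
    exact (hYl g ν' hg k1 k2 k3 k4).2.1
  have eD0 : ∀ τ, ∀ᶠ y in ZN (ys n), ∀ m, dat n e r y τ m 2 + dat n e r y τ m 0 ^ 2 +
      dat n e r y τ m 1 * dat n e r y τ m 0 ≠ 0 := by
    intro τ
    obtain ⟨ν', k1, k2, k3, k4, k5, kv, -⟩ := hex τ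
    refine key (fun y m => dat n e r y τ m 2 + dat n e r y τ m 0 ^ 2 +
      dat n e r y τ m 1 * dat n e r y τ m 0)
      (fun m => ra_den hA (hdR τ m 0) (hdR τ m 1) (hdR τ m 2)) (fun m => ?_)
      fun y hy m => by rw [hper y hy]
    rw [kv]
    exact (hYl g ν' hg k1 k2 k3 k4).2.1
  have eA1 : ∀ τ, ∀ᶠ y in ZN (ys n), ∀ m,
      rA (pc n e r y) (dat n e r y τ (m + 1) 0) (dat n e r y τ m 1) (dat n e r y τ m 2) ≠ 0 := by
    intro τ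
    obtain ⟨ν', k1, k2, k3, k4, k5, kv, -⟩ := hex τ
    obtain ⟨l1, l2, l3, -⟩ := hYl g ν' hg k1 k2 k3 k4
    refine key (fun y m =>
      rA (pc n e r y) (dat n e r y τ (m + 1) 0) (dat n e r y τ m 1) (dat n e r y τ m 2))
      (fun m => ra_rA hA hpR (hdR τ (m + 1) 0) (hdR τ m 1) (hdR τ m 2)
        (by rw [kv]; exact l1) (by rw [kv, kv]; exact l2))
      (fun m => ?_) fun y hy m => by rw [hper y hy, hper1 y hy]
    rw [kv, kv, hpc]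
    exact l3
  have eA0 : ∀ τ, ∀ᶠ y in ZN (ys n), ∀ m,
      rA (pc n e r y) (dat n e r y τ m 0) (dat n e r y τ m 1) (dat n e r y τ m 2) ≠ 0 := by
    intro τ
    obtain ⟨ν', k1, k2, k3, k4, k5, kv, -⟩ := hex τ
    obtain ⟨l1, l2, l3, -⟩ := hYl g ν' hg k1 k2 k3 k4
    refine key (fun y m =>
      rA (pc n e r y) (dat n e r y τ m 0) (dat n e r y τ m 1) (dat n e r y τ m 2))
      (fun m => ra_rA hA hpR (hdR τ m 0) (hdR τ m 1) (hdR τ m 2)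
        (by rw [kv]; exact l1) (by rw [kv]; exact l2))
      (fun m => ?_) fun y hy m => by rw [hper y hy]
    rw [kv, hpc]
    exact l3
  have eP : ∀ τ, ∀ᶠ y in ZN (ys n), ∀ m, pv (pc n e r y) (dat n e r y τ m 0) ≠ 0 := by
    intro τ
    obtain ⟨ν', k1, k2, k3, k4, k5, kv, -⟩ := hex τ
    obtain ⟨-, -, -, l4, -, -, -, l5, -⟩ := hYl g ν' hg k1 k2 k3 k4
    refine key (fun y m => pv (pc n e r y) (dat n e r y τ m 0))
      (fun m => ra_pv hA hpR (hdR τ m 0)) (fun m => ?_)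
      fun y hy m => by rw [hper y hy]
    rw [kv, hpc, l5]
    exact pow_ne_zero 4 (sub_ne_zero.2 l4)
  have eN : ∀ τ, ∀ᶠ y in ZN (ys n), ∀ m, dat n e r y τ m 0 - dat n e r y (τ + 1) m 0 ≠ 0 := by
    intro τ
    obtain ⟨ν', k1, k2, k3, k4, k5, kv, kv'⟩ := hex τ
    obtain ⟨-, -, -, -, -, -, -, -, l6⟩ := hYl g ν' hg k1 k2 k3 k4
    refine key (fun y m => dat n e r y τ m 0 - dat n e r y (τ + 1) m 0)
      (fun m => hA.sub _ _ (hdR τ m 0) (hdR (τ + 1) m 0)) (fun m => ?_)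
      fun y hy m => by rw [hper y hy, hper y hy]
    rw [kv, kv']
    exact sub_ne_zero.2 (l6 k5).1
  filter_upwards [e0, eC 0, eD1 0, eD1 1, eA1 0, eA1 1, eD0 0, eD0 (-1), eA0 0, eA0 (-1),
    eP (-2), eP (-1), eP 0, eP 1, eP 2, eN (-2), eN (-1), eN 0, eN 1] with
    y a0 aC aD aD' aA aA' bD bD' bA bA' p1 p2 p3 p4 p5 q1 q2 q3 q4
  refine hLat ℝ (pc n e r y) (dat0 n e r y) a0 aC ?_ ?_ ?_ ?_
  · rintro τ (rfl | rfl) m
    · exact ⟨aD m, aA m⟩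
    · exact ⟨aD' m, aA' m⟩
  · rintro τ (rfl | rfl) m
    · exact ⟨bD m, bA m⟩
    · exact ⟨bD' m, bA' m⟩
  · intro τ hl hu m
    obtain rfl | rfl | rfl | rfl | rfl : τ = -2 ∨ τ = -1 ∨ τ = 0 ∨ τ = 1 ∨ τ = 2 := by omega
    · exact p1 m
    · exact p2 m
    · exact p3 m
    · exact p4 m
    · exact p5 m
  · intro τ hl hu m
    obtain rfl | rfl | rfl | rfl : τ = -2 ∨ τ = -1 ∨ τ = 0 ∨ τ = 1 := by omega
    · exact sub_ne_zero.1 (q1 m)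
    · exact sub_ne_zero.1 (q2 m)
    · exact sub_ne_zero.1 (q3 m)
    · exact sub_ne_zero.1 (q4 m)

end Pool.Agent.MP62a5ad.QN
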