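import Pool.Agent.Lib.MP_62a5ad_mp.QN.SpecC

/-!
# MP_62a5ad_mp, project QN: genericity
-/

set_option autoImplicit false

namespace Pool.Agent.MP62a5ad.QN

open Matrix
open scoped ContDiff
open Pool.Agent.MP62a5ad.PN (V4 M4 e0)

theorem tGn (hRaA : S_RaA) (hNu : S_Nu) (hYf : S_Yf) (hRf : S_Rf) (hGa : S_Ga) (hGb : S_Gb)
    (hGs : S_Gs) (hK1 : S_K1) (hK2 : S_K2) : S_Gn := by
  intro n _ e r r' c i hn he hr
  obtain ⟨ν, hν⟩ : ∃ ν : ℝ, ν = r / (n * e) := ⟨_, rfl⟩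
  obtain ⟨n1, n2, n3, n4, n5⟩ := hNu n e r r' c hn he hr ν hν
  have ra := hRaA (Ix n) (ys n)
  obtain ⟨-, -, -, hims, hff⟩ := hYf n e r r' i he ν hν n1 n2 n3 n4
  obtain ⟨hrim, hrff⟩ := hRf n e r r' i he ν hν n1 n2 n3 n4
  have him : ∀ᶠ y in ZN (ys n), ∀ k : Fin n, imn n e r r' i y ((k : ℕ) : ℤ) 0 ≠ 0 := by
    rw [Filter.eventually_all]
    intro k
    exact ra.nz _ (hrim _ 0) (hims k)
  have hgd : ∀ᶠ y in ZN (ys n), Gd n e r r' i y := by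
    filter_upwards [hGa n e r he ν hν n1 n2 n3 n4 n5, hGb n e r he ν hν n1 n2 n3 n4 n5,
      hGs n e r r' i he ν hν n1 n2 n3 n4, hK1 n e he, hK2 n e r he ν hν n1 n2 n3 n4 n5, him]
      with y a b s k1 k2 im
    exact ⟨a.1, a.2.1, a.2.2.1, a.2.2.2.1, b, a.2.2.2.2.1, a.2.2.2.2.2, im, s.1, s.2.1, s.2.2.1,
      s.2.2.2, k1, k2⟩
  obtain ⟨Q, hQ, hQ'⟩ := hgd
  obtain ⟨Q', hq, hq'⟩ := ra.nz _ (ra.comp (Ix n) (fun y => ff n e r r' i y) Q hrff)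
    (by rw [hff]; exact hQ)
  refine ⟨Q, Q', ?_, ?_, hQ', hq'⟩
  · rintro rfl
    exact hQ (map_zero _)
  · rintro rfl
    exact hq (map_zero _)

end Pool.Agent.MP62a5ad.QN
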