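import Pool.Agent.Lib.MP_62a5ad_mp.QN.SpecB

/-!
# MP_62a5ad_mp, project QN: the gradient of `Hx`
-/

set_option autoImplicit false

namespace Pool.Agent.MP62a5ad.QN

open Matrix
open scoped ContDiff

section

variable {n : ℕ} [NeZero n] (Θ : E n → Ix n → ℂ) (y v : E n) (x : ℂ)

/-- The derivative of the matrix of a site. -/
private noncomputable def Gr_dL (k : ℤ) : Matrix (Fin 2) (Fin 2) ℂ :=
  !![-(fderiv ℝ (fun y => Θ y (rs n k, 0)) y v), 0;
    fderiv ℝ (fun y => Θ y (rs n k, 1)) y v * (Θ y (rs n k, 0) - Θ y (rs n k, 2)) +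
      Θ y (rs n k, 1) * (fderiv ℝ (fun y => Θ y (rs n k, 0)) y v -
        fderiv ℝ (fun y => Θ y (rs n k, 2)) y v),
    -(fderiv ℝ (fun y => Θ y (rs n k, 1)) y v)]

private theorem Gr_L (h : ∀ i, DifferentiableAt ℝ (fun y => Θ y i) y) (k : ℤ) (a b : Fin 2) :
    DifferentiableAt ℝ (fun y => Lc (Θ y) x k a b) y ∧
      fderiv ℝ (fun y => Lc (Θ y) x k a b) y v = Gr_dL Θ y v k a b := by
  have h0 := h (rs n k, 0)
  have h1 := h (rs n k, 1)
  have h2 := h (rs n k, 2)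
  fin_cases a <;> fin_cases b
  · change DifferentiableAt ℝ (fun y => x - Θ y (rs n k, 0)) y ∧
      fderiv ℝ (fun y => x - Θ y (rs n k, 0)) y v = -(fderiv ℝ (fun y => Θ y (rs n k, 0)) y v)
    refine ⟨h0.const_sub x, ?_⟩
    rw [fderiv_const_sub]
    rfl
  · change DifferentiableAt ℝ (fun _ : E n => (1 : ℂ)) y ∧
      fderiv ℝ (fun _ : E n => (1 : ℂ)) y v = 0
    refine ⟨differentiableAt_const _, ?_⟩
    rw [fderiv_fun_const]
    rfl
  · change DifferentiableAt ℝ (fun y => Θ y (rs n k, 1) *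
        (Θ y (rs n k, 0) - Θ y (rs n k, 2))) y ∧
      fderiv ℝ (fun y => Θ y (rs n k, 1) * (Θ y (rs n k, 0) - Θ y (rs n k, 2))) y v =
        fderiv ℝ (fun y => Θ y (rs n k, 1)) y v * (Θ y (rs n k, 0) - Θ y (rs n k, 2)) +
          Θ y (rs n k, 1) * (fderiv ℝ (fun y => Θ y (rs n k, 0)) y v -
            fderiv ℝ (fun y => Θ y (rs n k, 2)) y v)
    refine ⟨h1.fun_mul (h0.fun_sub h2), ?_⟩
    rw [fderiv_fun_mul h1 (h0.fun_sub h2), fderiv_fun_sub h0 h2]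
    simp only [_root_.add_apply, _root_.smul_apply,
      _root_.sub_apply, smul_eq_mul]
    ring
  · change DifferentiableAt ℝ (fun y => -Θ y (rs n k, 1)) y ∧
      fderiv ℝ (fun y => -Θ y (rs n k, 1)) y v = -(fderiv ℝ (fun y => Θ y (rs n k, 1)) y v)
    refine ⟨h1.neg, ?_⟩
    rw [fderiv_fun_neg]
    rfl

private theorem Gr_N (h : ∀ i, DifferentiableAt ℝ (fun y => Θ y i) y) (m : ℤ) (k : ℕ)
    (a b : Fin 2) : DifferentiableAt ℝ (fun y => Nc (Θ y) x m k a b) y ∧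
      fderiv ℝ (fun y => Nc (Θ y) x m k a b) y v =
        (∑ j ∈ Finset.range k, Nc (Θ y) x (m + j + 1) (k - 1 - j) * Gr_dL Θ y v (m + j) *
          Nc (Θ y) x m j) a b := by
  induction k generalizing a b with
  | zero =>
    change DifferentiableAt ℝ (fun _ : E n => (1 : Matrix (Fin 2) (Fin 2) ℂ) a b) y ∧
      fderiv ℝ (fun _ : E n => (1 : Matrix (Fin 2) (Fin 2) ℂ) a b) y v = _
    refine ⟨differentiableAt_const _, ?_⟩
    rw [fderiv_fun_const, Finset.range_zero, Finset.sum_empty]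
    rfl
  | succ k ih =>
    have e1 : ∀ y : E n, Nc (Θ y) x m (k + 1) a b =
        Lc (Θ y) x (m + k) a 0 * Nc (Θ y) x m k 0 b +
          Lc (Θ y) x (m + k) a 1 * Nc (Θ y) x m k 1 b := by
      intro y
      change (Lc (Θ y) x (m + k) * Nc (Θ y) x m k) a b = _
      rw [Matrix.mul_apply, Fin.sum_univ_two]
    have l0 := Gr_L Θ y v x h (m + k) a 0
    have l1 := Gr_L Θ y v x h (m + k) a 1
    have n0 := ih 0 b
    have n1 := ih 1 b
    have e2 : (fun y => Nc (Θ y) x m (k + 1) a b) = fun y =>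
        Lc (Θ y) x (m + k) a 0 * Nc (Θ y) x m k 0 b +
          Lc (Θ y) x (m + k) a 1 * Nc (Θ y) x m k 1 b := funext e1
    rw [e2]
    refine ⟨(l0.1.fun_mul n0.1).fun_add (l1.1.fun_mul n1.1), ?_⟩
    rw [fderiv_fun_add (l0.1.fun_mul n0.1) (l1.1.fun_mul n1.1), fderiv_fun_mul l0.1 n0.1,
      fderiv_fun_mul l1.1 n1.1]
    simp only [_root_.add_apply, _root_.smul_apply, smul_eq_mul]
    rw [l0.2, l1.2, n0.2, n1.2]
    have e3 : ∑ j ∈ Finset.range (k + 1), Nc (Θ y) x (m + j + 1) (k + 1 - 1 - j) *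
        Gr_dL Θ y v (m + j) * Nc (Θ y) x m j =
        Lc (Θ y) x (m + k) * (∑ j ∈ Finset.range k, Nc (Θ y) x (m + j + 1) (k - 1 - j) *
          Gr_dL Θ y v (m + j) * Nc (Θ y) x m j) + Gr_dL Θ y v (m + k) * Nc (Θ y) x m k := by
      rw [Finset.sum_range_succ, Finset.mul_sum]
      congr 1
      · refine Finset.sum_congr rfl fun j hj => ?_
        have hj' : j < k := Finset.mem_range.1 hj
        have e4 : k + 1 - 1 - j = (k - 1 - j) + 1 := by omega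
        rw [e4]
        change Lc (Θ y) x (m + j + 1 + ((k - 1 - j : ℕ) : ℤ)) * Nc (Θ y) x (m + j + 1)
          (k - 1 - j) * Gr_dL Θ y v (m + j) * Nc (Θ y) x m j = _
        have e5 : m + j + 1 + ((k - 1 - j : ℕ) : ℤ) = m + k := by omega
        rw [e5]
        simp only [Matrix.mul_assoc]
      · have e4 : k + 1 - 1 - k = 0 := by omega
        rw [e4]
        change 1 * Gr_dL Θ y v (m + k) * Nc (Θ y) x m k = _
        rw [Matrix.one_mul]
    rw [e3, Matrix.add_apply, Matrix.mul_apply, Matrix.mul_apply, Fin.sum_univ_two,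
      Fin.sum_univ_two]
    ring

end

theorem sGr (h1 : S_Nm) : S_Gr := by
  intro n _ Θ y x h hρ
  obtain ⟨r1, r2, r3, r4, r5, r6, r7, r8⟩ := h1 ℂ n (Θ y) x
  have hN := fun v a b => Gr_N Θ y v x h 0 n a b
  have e1 : (fun y => Hx (Θ y) x) = fun y => Nc (Θ y) x 0 n 0 0 + Nc (Θ y) x 0 n 1 1 := by
    funext y
    exact Matrix.trace_fin_two _
  rw [e1]
  refine ⟨(hN 0 0 0).1.fun_add (hN 0 1 1).1, fun v => ?_⟩
  rw [fderiv_fun_add (hN v 0 0).1 (hN v 1 1).1, _root_.add_apply, (hN v 0 0).2,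
    (hN v 1 1).2]
  -- periodicity
  have hper : ∀ (m : ℤ) (k : ℕ), Nc (Θ y) x (m + n) k = Nc (Θ y) x m k := by
    intro m k
    induction k with
    | zero => rfl
    | succ k ih =>
      change Lc (Θ y) x (m + n + k) * Nc (Θ y) x (m + n) k =
        Lc (Θ y) x (m + k) * Nc (Θ y) x m k
      rw [ih, show m + n + k = m + k + n by ring, (r5 (m + k)).1]
  have hE : ∀ j : ℕ, j < n → Nc (Θ y) x 0 j * Nc (Θ y) x ((j : ℤ) + 1) (n - 1 - j) =
      Nc (Θ y) x ((j : ℤ) + 1) (n - 1) := by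
    intro j hj
    have e2 := r4 ((j : ℤ) + 1) (n - 1 - j) j
    have e3 : n - 1 - j + j = n - 1 := by omega
    have e4 : (j : ℤ) + 1 + ((n - 1 - j : ℕ) : ℤ) = 0 + n := by omega
    rw [e3, e4, hper 0 j] at e2
    exact e2.symm
  have e5 : ∀ M : Matrix (Fin 2) (Fin 2) ℂ, M 0 0 + M 1 1 = M.trace :=
    fun M => (Matrix.trace_fin_two M).symm
  rw [e5, Matrix.trace_sum, Finset.sum_range, Fintype.sum_prod_type]
  refine Finset.sum_congr rfl fun j _ => ?_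
  rw [Fin.sum_univ_three, Matrix.trace_mul_comm, ← Matrix.mul_assoc, zero_add,
    hE (j : ℕ) j.isLt]
  have g0 : gr (Θ y) x (j, 0) = -Nm (Θ y) x (j : ℕ) 0 1 := rfl
  have g1 : gr (Θ y) x (j, 1) = Nm (Θ y) x ((j : ℕ) + 1) 1 1 := rfl
  have g2 : gr (Θ y) x (j, 2) = -(Θ y (j, 1) * Nc (Θ y) x ((j : ℕ) + 1) (n - 1) 0 1) := rfl
  have f0 : lf (Θ y) (j, 0) = 1 := rfl
  have f1 : lf (Θ y) (j, 1) = (Θ y (j, 1))⁻¹ := rfl
  have f2 : lf (Θ y) (j, 2) = 1 := rfl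
  have m0 := (r6 ((j : ℕ) : ℤ)).2.2
  have m1 := (r6 ((j : ℕ) : ℤ)).2.1
  rw [g0, g1, g2, f0, f1, f2, m0, m1]
  set X := Nc (Θ y) x ((j : ℕ) + 1) (n - 1) with hX
  have hL : Lc (Θ y) x ((j : ℕ) : ℤ) = Lx (Θ y (j, 0)) (Θ y (j, 1)) (Θ y (j, 2)) x := by
    unfold Lc
    rw [r1 j]
  have hdL : Gr_dL Θ y v ((j : ℕ) : ℤ) =
      !![-(fderiv ℝ (fun y => Θ y (j, 0)) y v), 0;
        fderiv ℝ (fun y => Θ y (j, 1)) y v * (Θ y (j, 0) - Θ y (j, 2)) +
          Θ y (j, 1) * (fderiv ℝ (fun y => Θ y (j, 0)) y v -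
            fderiv ℝ (fun y => Θ y (j, 2)) y v),
        -(fderiv ℝ (fun y => Θ y (j, 1)) y v)] := by
    unfold Gr_dL
    rw [r1 j]
  have hρj := hρ j
  rw [hL, hdL, Matrix.trace_fin_two]
  simp only [Matrix.mul_apply, Fin.sum_univ_two, Lx, Matrix.of_apply, Matrix.cons_val_zero,
    Matrix.cons_val_one, Matrix.cons_val', Matrix.cons_val_fin_one, Matrix.empty_val']
  field_simp
  ring

end Pool.Agent.MP62a5ad.QN
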