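import Pool.Agent.Lib.MP_62a5ad_mp.QN.SpecC

/-!
# MP_62a5ad_mp, project QN, module Gs: smoothness of the data near the reference polygon
-/

set_option autoImplicit false

namespace Pool.Agent.MP62a5ad.QN

open Matrix Filter
open scoped ContDiff Topology
open Pool.Agent.MP62a5ad.PN (V4 M4 e0)

namespace GsAux

theorem nhds_cc {n : ℕ} [NeZero n] {y : E n} (hy : cc n y 2 ≠ 0) :
    ∀ᶠ z in 𝓝 y, cc n z 2 ≠ 0 := by
  have hc : Continuous (fun z : E n => cc n z 2) := continuous_apply (0, 2)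
  exact hc.continuousAt.eventually_ne hy

/-- periodic functions of the place -/
theorem per {n : ℕ} [NeZero n] {F : Type} [NormedAddCommGroup F] [NormedSpace ℝ F]
    (f : E n → ℤ → F) (h : ∀ y, cc n y 2 ≠ 0 → ∀ m, f y (m + n) = f y m) (y : E n)
    (hy : cc n y 2 ≠ 0) (m : ℤ) :
    ContDiffAt ℝ ∞ (fun z => f z (m + n)) y ↔ ContDiffAt ℝ ∞ (fun z => f z m) y := by
  have h1 : (fun z => f z (m + n)) =ᶠ[𝓝 y] fun z => f z m := by
    filter_upwards [nhds_cc hy] with z hz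
    exact h z hz m
  exact ⟨fun h2 => ContDiffAt.congr_of_eventuallyEq h2 (Filter.EventuallyEq.symm h1),
    fun h2 => ContDiffAt.congr_of_eventuallyEq h2 h1⟩

end GsAux

/-- **Gs.** -/
theorem tGs (hRaA : S_RaA) (hPd : S_Pd) (hPer : S_Per) (hYp : S_Yp) (hRb : S_Rb) (hRd : S_Rd)
    (hRf : S_Rf) : S_Gs := by
  intro n _ e r r' i he ν hν h1 h2 h3 h4
  have RAT := hRaA (Ix n) (ys n)
  obtain ⟨-, -, -, -, hpc, -, hkap, -⟩ := hRb n e r he ν hν h1 h2 h3 h4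
  obtain ⟨-, hdat⟩ := hRd n e r he ν hν h1 h2 h3 h4
  obtain ⟨-, hff⟩ := hRf n e r r' i he ν hν h1 h2 h3 h4
  have hc : cc n (ys n) 2 ≠ 0 := by
    rw [(hYp n).1]
    have h5 : cs 2 = 1 / 256 := rfl
    rw [h5]
    norm_num
  have hvec : ∀ (κ : Type) [Fintype κ] (v : E n → κ → ℝ), RV (ys n) v →
      ∀ᶠ y in ZN (ys n), ContDiffAt ℝ ∞ v y := by
    intro κ _ v hv
    have h5 : ∀ᶠ y in ZN (ys n), ∀ a, ContDiffAt ℝ ∞ (fun z => v z a) y :=
      Filter.eventually_all.2 fun a => RAT.sm _ (hv a)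
    filter_upwards [h5] with y hy
    exact contDiffAt_pi.2 hy
  have hbv : ∀ y : E n, cc n y 2 ≠ 0 → ∀ m, bv n e r y (m + n) = bv n e r y m := fun y hy =>
    (hPer n e r y hy).2.2.2.2.2.1
  have hdp : ∀ (τ : ℤ) (y : E n), cc n y 2 ≠ 0 → ∀ m,
      dat n e r y τ (m + n) = dat n e r y τ m := fun τ y hy m =>
    (hPer n e r y hy).2.2.2.2.2.2.1 τ m
  have hkp : ∀ y : E n, cc n y 2 ≠ 0 → ∀ m, kap n e r y (m + n) = kap n e r y m := by
    intro y hy m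
    unfold kap s0
    rw [hbv y hy m]
  have A1 : ∀ᶠ y in ZN (ys n), ∀ m, ContDiffAt ℝ ∞ (fun z => kap n e r z m) y :=
    hPd n (ys n) (fun y m => ContDiffAt ℝ ∞ (fun z => kap n e r z m) y) hc
      (fun y hy m => GsAux.per (fun z m => kap n e r z m) hkp y hy m)
      (fun m => RAT.sm _ (hkap m))
  have A2 : ∀ τ : ℤ, ∀ᶠ y in ZN (ys n), ∀ m, ContDiffAt ℝ ∞ (fun z => dat n e r z τ m) y :=
    fun τ => hPd n (ys n) (fun y m => ContDiffAt ℝ ∞ (fun z => dat n e r z τ m) y) hc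
      (fun y hy m => GsAux.per (fun z m => dat n e r z τ m) (hdp τ) y hy m)
      (fun m => hvec (Fin 3) _ (hdat τ m))
  filter_upwards [hvec (Ix n) _ hff, hvec (Fin 4) _ hpc, A1, A2 0, A2 (-1)] with y b1 b2 b3 b4 b5
  exact ⟨b1, b2, b3, fun m => ⟨b4 m, b5 m⟩⟩

end Pool.Agent.MP62a5ad.QN
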