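import Pool.Agent.Lib.MP_62a5ad_mp.QN.SpecE

/-!
# MP_62a5ad_mp, QN/Gy: the map in the coordinates is `T_{I,I}`
-/

set_option autoImplicit false

namespace Pool.Agent.MP62a5ad.QN

open Matrix
open scoped ContDiff
open Pool.Agent.MP62a5ad.PN (V4 M4 e0)

private theorem Gy_us0 (n : ℕ) [NeZero n] (r : ℤ) (y : E n) : us n r y 0 = e0 := by
  have hn : (0 : ℤ) % (n : ℤ) = 0 := Int.zero_emod _
  have hr : rs n 0 = 0 := by
    unfold rs
    rw [hn]
    rfl
  have h : pol n y 0 = e0 := by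
    unfold pol
    rw [Int.zero_ediv, zpow_zero, Matrix.one_mulVec, hr]
    unfold vert
    rw [if_pos rfl]
  unfold us
  rw [mul_zero, h]

/-- The polynomial of `pc` vanishes at `t`. -/
private theorem Gy_ann (h2 : S_Per) (n : ℕ) [NeZero n] (e : ℕ) (r : ℤ) (y : E n)
    (hc : cc n y 2 ≠ 0) (hb : (Bm n e r y 0).det ≠ 0) :
    tm n e y ^ 4 + pc n e r y 3 • tm n e y ^ 3 + pc n e r y 2 • tm n e y ^ 2 +
      pc n e r y 1 • tm n e y + pc n e r y 0 • (1 : M4) = 0 := by
  obtain ⟨-, -, -, -, -, -, -, hmk, hcm⟩ := h2 n e r y hc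
  set t := tm n e y with ht
  set p := pc n e r y with hp
  have htM : t * Mo n y = Mo n y * t := by
    rw [ht]
    unfold tm
    exact (Commute.refl (Mo n y)).pow_left e
  set g : M4 := t ^ 4 + p 3 • t ^ 3 + p 2 • t ^ 2 + p 1 • t + p 0 • (1 : M4) with hg
  have hgM : g * Mo n y = Mo n y * g := by
    have h1 : Commute t (Mo n y) := htM
    have : Commute g (Mo n y) := by
      rw [hg]
      refine Commute.add_left (Commute.add_left (Commute.add_left (Commute.add_left ?_ ?_) ?_) ?_) ?_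
      · exact h1.pow_left 4
      · exact (h1.pow_left 3).smul_left _
      · exact (h1.pow_left 2).smul_left _
      · exact h1.smul_left _
      · exact (Commute.one_left _).smul_left _
    exact this
  have hBp : Bm n e r y 0 *ᵥ p = -(t ^ 4 *ᵥ e0) := by
    rw [hp]
    unfold pc
    rw [Matrix.mulVec_neg, Matrix.mulVec_mulVec,
      Matrix.mul_nonsing_inv _ (isUnit_iff_ne_zero.mpr hb), Matrix.one_mulVec]
  have hBp' : Bm n e r y 0 *ᵥ p = p 0 • (t ^ 0 *ᵥ e0) + p 1 • (t ^ 1 *ᵥ e0) +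
      p 2 • (t ^ 2 *ᵥ e0) + p 3 • (t ^ 3 *ᵥ e0) := by
    funext i
    simp only [Matrix.mulVec, dotProduct, Bm, Gy_us0, Matrix.of_apply, Fin.sum_univ_four,
      Pi.add_apply, Pi.smul_apply, smul_eq_mul, ← ht]
    simp only [Fin.val_zero, Fin.val_one, Fin.val_two, show ((3 : Fin 4) : ℕ) = 3 from rfl]
    ring
  have hge : g *ᵥ e0 = 0 := by
    rw [hg]
    simp only [Matrix.add_mulVec, Matrix.smul_mulVec, Matrix.one_mulVec]
    rw [hBp', pow_zero, Matrix.one_mulVec, pow_one] at hBp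
    have : t ^ 4 *ᵥ e0 = -(p 0 • e0 + p 1 • (t *ᵥ e0) + p 2 • (t ^ 2 *ᵥ e0) +
      p 3 • (t ^ 3 *ᵥ e0)) := by rw [hBp, neg_neg]
    rw [this]
    abel
  have h0 := (hcm g g hgM hgM).2
  rw [hge] at h0
  rw [← h0]
  unfold mk
  simp

/-- `t - x` is invertible if `pv p x ≠ 0`. -/
private theorem Gy_det (h2 : S_Per) (n : ℕ) [NeZero n] (e : ℕ) (r : ℤ) (y : E n)
    (hc : cc n y 2 ≠ 0) (hb : (Bm n e r y 0).det ≠ 0) (x : ℝ) (hx : pv (pc n e r y) x ≠ 0) :
    (tm n e y - x • (1 : M4)).det ≠ 0 := by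
  have ha := Gy_ann h2 n e r y hc hb
  set t := tm n e y with ht
  set p := pc n e r y with hp
  have hm : (t - x • (1 : M4)) * (t ^ 3 + (x + p 3) • t ^ 2 + (x ^ 2 + p 3 * x + p 2) • t +
      (x ^ 3 + p 3 * x ^ 2 + p 2 * x + p 1) • (1 : M4)) = (-(pv p x)) • (1 : M4) := by
    have h' : (-(pv p x)) • (1 : M4) = (t ^ 4 + p 3 • t ^ 3 + p 2 • t ^ 2 +
      p 1 • t + p 0 • (1 : M4)) - (pv p x) • (1 : M4) := by
      rw [ha, neg_smul, zero_sub]
    rw [h']
    unfold pv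
    simp only [sub_mul, mul_add, mul_smul_comm, smul_mul_assoc, one_mul, mul_one, ← pow_succ',
      ← pow_two, smul_add]
    module
  intro h0
  have := congrArg Matrix.det hm
  rw [Matrix.det_mul, h0, zero_mul, Matrix.det_smul, Matrix.det_one, mul_one] at this
  exact pow_ne_zero _ (neg_ne_zero.mpr hx) this.symm

/-- `mk (us m)` is invertible. -/
private theorem Gy_us (h2 : S_Per) (n : ℕ) [NeZero n] (e : ℕ) (r : ℤ) (y : E n)
    (hc : cc n y 2 ≠ 0) (m : ℤ) (hb : (Bm n e r y m).det ≠ 0) :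
    (mk n y (us n r y m)).det ≠ 0 := by
  obtain ⟨-, -, -, -, -, -, -, hmk, hcm⟩ := h2 n e r y hc
  have htM : ∀ j : ℕ, tm n e y ^ j * Mo n y = Mo n y * tm n e y ^ j := by
    intro j
    have h : Commute (Mo n y) (Mo n y) := Commute.refl _
    unfold tm
    exact (h.pow_left e).pow_left j
  have h : Bm n e r y m = mk n y (us n r y m) * Bm n e r y 0 := by
    ext i j
    have h1 : (mk n y (us n r y m) * Bm n e r y 0) i j =
        (mk n y (us n r y m) *ᵥ (tm n e y ^ (j : ℕ) *ᵥ us n r y 0)) i := by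
      simp only [Matrix.mul_apply, Matrix.mulVec, dotProduct, Bm, Matrix.of_apply]
    rw [h1, Gy_us0, Matrix.mulVec_mulVec, (hcm _ _ (hmk _).2 (htM j)).1, ← Matrix.mulVec_mulVec,
      (hmk _).1]
    simp only [Bm, Matrix.of_apply]
  intro h0
  rw [h, Matrix.det_mul, h0, zero_mul] at hb
  exact hb rfl

/-- `mk (pol k)` is invertible. -/
private theorem Gy_pol (h2 : S_Per) (n : ℕ) [NeZero n] (e : ℕ) (r r' c : ℤ)
    (hr : r * r' = 1 + n * c) (y : E n)
    (hc : cc n y 2 ≠ 0) (hb : ∀ m, (Bm n e r y m).det ≠ 0) (k : ℤ) :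
    (mk n y (pol n y k)).det ≠ 0 := by
  obtain ⟨hM, hpol, -, -, -, -, -, hmk, hcm⟩ := h2 n e r y hc
  have hstep : ∀ k : ℤ, (mk n y (pol n y (k + n))).det ≠ 0 ↔ (mk n y (pol n y k)).det ≠ 0 := by
    intro k
    have h1 : mk n y (pol n y (k + n)) = Mo n y * mk n y (pol n y k) := by
      have h3 : (Mo n y * mk n y (pol n y k)) * Mo n y = Mo n y * (Mo n y * mk n y (pol n y k)) := by
        rw [Matrix.mul_assoc, (hmk _).2]
      have h4 := (hcm _ _ h3 h3).2
      rw [← h4, ← Matrix.mulVec_mulVec, (hmk _).1, hpol]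
    rw [h1, Matrix.det_mul]
    exact ⟨fun h => right_ne_zero_of_mul h, fun h => mul_ne_zero hM h⟩
  have hall : ∀ (j : ℤ) (k : ℤ), (mk n y (pol n y (k + n * j))).det ≠ 0 ↔
      (mk n y (pol n y k)).det ≠ 0 := by
    intro j
    induction j using Int.induction_on with
    | zero => intro k; rw [mul_zero, add_zero]
    | succ j ih =>
      intro k
      rw [← ih k, ← hstep (k + n * j)]
      rw [show k + (n : ℤ) * (j + 1) = k + n * j + n by ring]
    | pred j ih =>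
      intro k
      rw [← ih k, ← hstep (k + n * (-(j : ℤ) - 1))]
      rw [show k + (n : ℤ) * (-(j : ℤ) - 1) + n = k + n * (-(j : ℤ)) by ring]
  have hk : k = r * (r' * k) + n * (-(c * k)) := by
    linear_combination (-k) * hr
  rw [hk, hall]
  exact Gy_us h2 n e r y hc (r' * k) (hb _)

theorem sGy (h1 : S_GeoY) (h2 : S_Per) : S_Gy := by
  intro n _ a b e r r' c i hr hT y hg
  have hdet : ∀ τ m, -2 ≤ τ → τ ≤ 2 →
      (tm n e y - dat n e r y τ m 0 • (1 : M4)).det ≠ 0 := fun τ m ha hb =>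
    Gy_det h2 n e r y hg.c2 (hg.bm 0) _ (hg.ok.ps τ m ha hb)
  refine h1 n a b e r r' c i hr hT y hg.c2 hg.bm hg.b3 hg.ka ?_ ?_ ?_ ?_ hg.im
  · intro m
    exact ⟨_, hg.ok.eta 0 m (by norm_num) (by norm_num), hg.ok.rel 0 m (by norm_num) (by norm_num)⟩
  · intro m
    exact hg.ok.ps 0 m (by norm_num) (by norm_num)
  · intro m
    exact hg.ok.ps 1 m (by norm_num) (by norm_num)
  · rw [Matrix.det_mul]
    refine mul_ne_zero ?_ (Gy_pol h2 n e r r' c hr y hg.c2 hg.bm i)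
    unfold Gm
    rw [Matrix.det_mul]
    refine mul_ne_zero (hdet 1 _ (by norm_num) (by norm_num)) ?_
    have h0 := hdet 0 (r' * i) (by norm_num) (by norm_num)
    intro h
    have h3 := Matrix.mul_nonsing_inv _ (isUnit_iff_ne_zero.mpr h0)
    have h4 := congrArg Matrix.det h3
    rw [Matrix.det_mul, h, mul_zero, Matrix.det_one] at h4
    exact zero_ne_one h4

end Pool.Agent.MP62a5ad.QN
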