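import Pool.Agent.Lib.MP_62a5ad_mp.QN.SpecE

/-!
# MP_62a5ad_mp, QN: smoothness of the chain at a point (used in the modules Ha, Ts)
-/

set_option autoImplicit false

namespace Pool.Agent.MP62a5ad.QN

open Matrix
open scoped ContDiff
open Pool.Agent.MP62a5ad.PN (V4 M4 e0)

namespace SmA

variable {n : ℕ} {y0 : E n}

theorem cdiv {f g : E n → ℂ} (hf : ContDiffAt ℝ ∞ f y0) (hg : ContDiffAt ℝ ∞ g y0)
    (h0 : g y0 ≠ 0) : ContDiffAt ℝ ∞ (fun y => f y / g y) y0 := by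
  simp only [div_eq_mul_inv]
  exact hf.mul (hg.inv h0)

theorem czpow {f : E n → ℂ} (hf : ContDiffAt ℝ ∞ f y0) (h0 : f y0 ≠ 0) (N : ℤ) :
    ContDiffAt ℝ ∞ (fun y => f y ^ N) y0 := by
  cases N with
  | ofNat N =>
    simp only [Int.ofNat_eq_natCast, zpow_natCast]
    exact hf.pow N
  | negSucc N =>
    simp only [zpow_negSucc]
    exact (hf.pow (N + 1)).inv (pow_ne_zero _ h0)

theorem cqv {z : E n → Fin 3 → ℂ} {g : E n → ℂ} (hz : ∀ j, ContDiffAt ℝ ∞ (fun y => z y j) y0)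
    (hg : ContDiffAt ℝ ∞ g y0) : ContDiffAt ℝ ∞ (fun y => qv (z y) (g y)) y0 := by
  unfold qv
  exact ((hg.pow 2).add ((hz 1).mul hg)).add (hz 2)

theorem ce1 {w : E n → Fin 4 → ℂ} (hw : ∀ i, ContDiffAt ℝ ∞ (fun y => w y i) y0) :
    ContDiffAt ℝ ∞ (fun y => e1 (w y)) y0 := by
  unfold e1
  exact ((hw 1).add (hw 2)).add (hw 3)

theorem ce3 {w : E n → Fin 4 → ℂ} (hw : ∀ i, ContDiffAt ℝ ∞ (fun y => w y i) y0) :
    ContDiffAt ℝ ∞ (fun y => e3 (w y)) y0 := by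
  unfold e3
  exact ((hw 1).mul (hw 2)).mul (hw 3)

theorem cjA {w : E n → Fin 4 → ℂ} (hw : ∀ i, ContDiffAt ℝ ∞ (fun y => w y i) y0)
    {z : E n → Fin 3 → ℂ} (hz : ∀ j, ContDiffAt ℝ ∞ (fun y => z y j) y0) (h2 : z y0 2 ≠ 0) :
    ContDiffAt ℝ ∞ (fun y => jA (w y) (z y)) y0 := by
  unfold jA
  exact (cdiv ((hw 0).mul (ce3 hw)) (hz 2) h2).sub ((hw 0).mul ((ce1 hw).add (hz 1)))

/-- The functions of the chain are smooth at a point. -/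
theorem sm (hNz : S_Nz) (w : E n → Fin 4 → ℂ) (D : E n → ℤ → ℤ → Fin 3 → ℂ)
    (H : E n → ℤ → ℤ → ℂ) (hw : ∀ i, ContDiffAt ℝ ∞ (fun y => w y i) y0)
    (hD : ∀ τ, (τ = 0 ∨ τ = -1) → ∀ k j, ContDiffAt ℝ ∞ (fun y => D y τ k j) y0)
    (hH : ∀ k, ContDiffAt ℝ ∞ (fun y => H y (-1) k) y0)
    (h0 : ∀ i, w y0 i ≠ 0) (hok : Ok (pw (w y0)) (D y0) (H y0) (-1) 0) (k : ℤ) :
    ContDiffAt ℝ ∞ (fun y => gam (w y) (D y) 0 k) y0 ∧
    ContDiffAt ℝ ∞ (fun y => rho (w y) (D y) (H y) 0 k) y0 ∧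
    ContDiffAt ℝ ∞ (fun y => alp (w y) (D y) (H y) 0 k) y0 ∧
    ContDiffAt ℝ ∞ (fun y => cst (w y) (D y) 0 k) y0 := by
  have hN := hNz ℂ (w y0) (D y0) (H y0) (-1) 0 h0 hok
  have hD0 : ∀ k j, ContDiffAt ℝ ∞ (fun y => D y 0 k j) y0 := hD 0 (Or.inl rfl)
  have hD1 : ∀ k j, ContDiffAt ℝ ∞ (fun y => D y (-1) k j) y0 := hD (-1) (Or.inr rfl)
  have hq1 : ∀ k, qv (D y0 (-1) k) (w y0 0) ≠ 0 := fun k =>
    ((hN.2 (-1) k le_rfl (by norm_num)).2.2.2.2.2.1 0).1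
  have hq0 : ∀ k, qv (D y0 0 k) (w y0 0) ≠ 0 := fun k =>
    ((hN.2 (-1) k le_rfl (by norm_num)).2.2.2.2.2.1 0).2
  have hc1 : ∀ k, D y0 (-1) k 2 ≠ 0 := fun k => (hN.2 (-1) k le_rfl (by norm_num)).1
  have hc0 : ∀ k, D y0 0 k 2 ≠ 0 := fun k => (hN.2 (-1) k le_rfl (by norm_num)).2.1
  have hnd : ∀ k, D y0 (-1) k 0 ≠ D y0 0 k 0 := fun k => hok.nd (-1) k le_rfl (by norm_num)
  have heta : ∀ k, H y0 (-1) k ≠ 0 := fun k => hok.eta (-1) k le_rfl (by norm_num)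
  have hg : ∀ k, ContDiffAt ℝ ∞ (fun y => gam (w y) (D y) 0 k) y0 := by
    intro k
    unfold gam
    simp only [zero_sub]
    exact cdiv (((hw 0).sub (hD1 k 0)).mul (cqv (hD1 k) (hD0 k 0)))
      ((cqv (hD1 k) (hw 0)).mul ((hD1 k 0).sub (hD0 k 0)))
      (mul_ne_zero (hq1 k) (sub_ne_zero.2 (hnd k)))
  have hdl : ∀ k, ContDiffAt ℝ ∞ (fun y => dlt (w y) (D y) 0 k) y0 := by
    intro k
    unfold dlt
    simp only [zero_sub]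
    exact cdiv (((hw 0).sub (hD0 k 0)).mul (cqv (hD0 (k - 1)) (hD1 k 0)))
      ((cqv (hD0 (k - 1)) (hw 0)).mul ((hD1 k 0).sub (hD0 k 0)))
      (mul_ne_zero (hq0 (k - 1)) (sub_ne_zero.2 (hnd k)))
  have hr : ∀ k, ContDiffAt ℝ ∞ (fun y => rho (w y) (D y) (H y) 0 k) y0 := by
    intro k
    unfold rho
    simp only [zero_sub]
    exact cdiv (((hw 0).mul (hg k)).mul (hdl (k + 1))) (hH k) (heta k)
  have ha : ∀ k, ContDiffAt ℝ ∞ (fun y => alr (w y) (D y) 0 k) y0 := by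
    intro k
    unfold alr
    simp only [zero_sub]
    exact ((((((hw 0).neg).mul ((hD0 k 0).add (hD1 k 0))).add ((hD0 k 0).mul (hD1 k 0))).add
      ((ce1 hw).mul (hw 0))).sub ((hg k).mul (cjA hw (hD0 k) (hc0 k)))).add
      ((hdl k).mul (cjA hw (hD1 (k - 1)) (hc1 (k - 1))))
  refine ⟨hg k, hr k, ?_, ?_⟩
  · unfold alp
    exact (ha k).sub (hr (k - 1))
  · unfold cst
    exact (hD0 k 2).add (cdiv ((hw 0).mul (ce3 hw)) (hD0 k 2) (hc0 k))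

/-- The chain is smooth at a point. -/
theorem smx [NeZero n] (hNz : S_Nz) (w : E n → Fin 4 → ℂ) (D : E n → ℤ → ℤ → Fin 3 → ℂ)
    (H : E n → ℤ → ℤ → ℂ) (hw : ∀ i, ContDiffAt ℝ ∞ (fun y => w y i) y0)
    (hD : ∀ τ, (τ = 0 ∨ τ = -1) → ∀ k j, ContDiffAt ℝ ∞ (fun y => D y τ k j) y0)
    (hH : ∀ k, ContDiffAt ℝ ∞ (fun y => H y (-1) k) y0)
    (h0 : ∀ i, w y0 i ≠ 0) (hok : Ok (pw (w y0)) (D y0) (H y0) (-1) 0) (i : Ix n) :
    ContDiffAt ℝ ∞ (fun y => thx n (w y) (D y) (H y) 0 i) y0 := by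
  obtain ⟨-, h1, h2, h3⟩ := sm hNz w D H hw hD hH h0 hok (i.1 : ℕ)
  unfold thx
  by_cases hi : i.2 = 0
  · simp only [hi, if_true]
    exact h2
  · by_cases hi' : i.2 = 1
    · simp only [hi', one_ne_zero, if_true, if_false]
      exact h1
    · simp only [hi, hi', if_false]
      exact h3

end SmA

end Pool.Agent.MP62a5ad.QN
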