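import Pool.Agent.Lib.MP_62a5ad_mp.QN.SpecE
import Pool.Agent.Lib.MP_62a5ad_mp.QN.SmA

/-!
# MP_62a5ad_mp, QN, module Ha: the products of the marked root and another root are determined
-/

set_option autoImplicit false

namespace Pool.Agent.MP62a5ad.QN

open Matrix
open scoped ContDiff
open Pool.Agent.MP62a5ad.PN (V4 M4 e0)

namespace HaAux

private theorem per_rs {α : Type} {n : ℕ} [NeZero n] {f : ℤ → α} (hf : ∀ k, f (k + n) = f k)
    (k : ℤ) : f (((rs n k : Fin n) : ℕ) : ℤ) = f k := by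
  have hn : (0 : ℤ) < n := by exact_mod_cast Nat.pos_of_ne_zero (NeZero.ne n)
  have h0 : 0 ≤ k % (n : ℤ) := Int.emod_nonneg _ hn.ne'
  have h1 : k % (n : ℤ) < n := Int.emod_lt_of_pos _ hn
  have h2 : (((rs n k : Fin n) : ℕ) : ℤ) = k % n := by
    have h3 : ((rs n k : Fin n) : ℕ) = (k % (n : ℤ)).toNat % n := rfl
    rw [h3, Nat.mod_eq_of_lt (by omega)]
    omega
  have hp : Function.Periodic f (n : ℤ) := hf
  rw [h2]
  have h3 := (hp.int_mul (k / n)) (k % n)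
  rw [← h3]
  congr 1
  have h4 := Int.emod_add_mul_ediv k n
  rw [Int.cast_id, mul_comm]
  exact h4

private theorem rho_per {n : ℕ} {w : Fin 4 → ℂ} {D : ℤ → ℤ → Fin 3 → ℂ} {H : ℤ → ℤ → ℂ}
    (pD : ∀ σ k, D σ (k + n) = D σ k) (pH : ∀ σ k, H σ (k + n) = H σ k) (k : ℤ) :
    rho w D H 0 (k + n) = rho w D H 0 k := by
  have hD1 : ∀ σ, D σ (k + n + 1) = D σ (k + 1) := by
    intro σ
    rw [show k + (n : ℤ) + 1 = (k + 1) + n by ring, pD]
  have hD2 : ∀ σ, D σ (k + n + 1 - 1) = D σ (k + 1 - 1) := by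
    intro σ
    rw [show k + (n : ℤ) + 1 - 1 = (k + 1 - 1) + n by ring, pD]
  simp only [rho, gam, dlt, hD1, hD2, pD, pH]

private theorem cst_per {n : ℕ} {w : Fin 4 → ℂ} {D : ℤ → ℤ → Fin 3 → ℂ}
    (pD : ∀ σ k, D σ (k + n) = D σ k) (k : ℤ) : cst w D 0 (k + n) = cst w D 0 k := by
  simp only [cst, pD]

end HaAux

open HaAux in
theorem sHa (h1 : S_Dt) (h2 : S_La) (h3 : S_Nm) (h4 : S_Dh) (h5 : S_Fp) (h6 : S_Mlt) (h7 : S_Nz)
    (h8 : S_Dd) : S_Ha := by
  intro n _ e r O m D H K' δ he hr hrn hd hne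
  have hn : 0 < n := Nat.pos_of_ne_zero (NeZero.ne n)
  obtain ⟨c1, c2, c3, c4, -, c6, c7, c8, c9, c10, c11⟩ := h1 n O (thd n e m D H) hd.isOpen
  have hδ : δ ≠ 0 := by
    obtain ⟨y, hy⟩ := hne
    rw [← hd.del y hy]
    exact mul_ne_zero (mul_ne_zero (mul_ne_zero (hd.m0 y hy 0) (hd.m0 y hy 1)) (hd.m0 y hy 2))
      (hd.m0 y hy 3)
  -- smoothness
  have hw0 : ∀ y ∈ O, ∀ i, m y i ^ e ≠ 0 := fun y hy i => pow_ne_zero _ (hd.m0 y hy i)
  have hcm : ∀ y ∈ O, ∀ i, ContDiffAt ℝ ∞ (fun y => m y i) y := fun y hy i =>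
    (hd.sm i).contDiffAt (hd.isOpen.mem_nhds hy)
  have hcw : ∀ y ∈ O, ∀ i, ContDiffAt ℝ ∞ (fun y => m y i ^ e) y := fun y hy i =>
    (hcm y hy i).pow e
  have hcD : ∀ y ∈ O, ∀ τ, (τ = 0 ∨ τ = -1) → ∀ k j, ContDiffAt ℝ ∞ (fun y => D y τ k j) y :=
    fun y hy τ hτ k j => (hd.sD τ hτ k j).contDiffAt (hd.isOpen.mem_nhds hy)
  have hcH : ∀ y ∈ O, ∀ k, ContDiffAt ℝ ∞ (fun y => H y (-1) k) y := fun y hy k =>
    (hd.sH k).contDiffAt (hd.isOpen.mem_nhds hy)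
  have hsm : ∀ y0 ∈ O, ∀ k : ℤ,
      ContDiffAt ℝ ∞ (fun y => gam (fun i => m y i ^ e) (D y) 0 k) y0 ∧ _ :=
    fun y0 hy0 k => SmA.sm h7 (fun y i => m y i ^ e) D H (hcw y0 hy0) (hcD y0 hy0) (hcH y0 hy0)
      (hw0 y0 hy0) (hd.ok y0 hy0) k
  have hsmx : ∀ i : Ix n, ContDiffOn ℝ ∞ (fun y => thd n e m D H y i) O := fun i y0 hy0 =>
    (SmA.smx h7 (fun y i => m y i ^ e) D H (hcw y0 hy0) (hcD y0 hy0) (hcH y0 hy0)
      (hw0 y0 hy0) (hd.ok y0 hy0) i).contDiffWithinAt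
  have hcomp : ∀ i : Ix n, Dtm O (thd n e m D H) (fun y => thd n e m D H y i) := fun i =>
    ⟨hsmx i, fun y _ w hw => hw i⟩
  -- the component functions
  have hrho : ∀ k : ℤ, Dtm O (thd n e m D H)
      (fun y => rho (fun i => m y i ^ e) (D y) (H y) 0 k) := by
    intro k
    refine c3 _ _ (hcomp (rs n k, 1)) (fun y hy => ?_)
    have h9 : thd n e m D H y (rs n k, 1) =
        rho (fun i => m y i ^ e) (D y) (H y) 0 (((rs n k : Fin n) : ℕ) : ℤ) := by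
      simp [thd, thx]
    rw [h9]
    exact (per_rs (f := fun k => rho (fun i => m y i ^ e) (D y) (H y) 0 k)
      (rho_per (hd.pD y hy) (hd.pH y hy)) k).symm
  have hcst : ∀ k : ℤ, Dtm O (thd n e m D H)
      (fun y => cst (fun i => m y i ^ e) (D y) 0 k) := by
    intro k
    refine c3 _ _ (hcomp (rs n k, 2)) (fun y hy => ?_)
    have h9 : thd n e m D H y (rs n k, 2) =
        cst (fun i => m y i ^ e) (D y) 0 (((rs n k : Fin n) : ℕ) : ℤ) := by
      simp [thd, thx]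
    rw [h9]
    exact (per_rs (f := fun k => cst (fun i => m y i ^ e) (D y) 0 k)
      (cst_per (hd.pD y hy)) k).symm
  have hC0 : ∀ y ∈ O, ∀ k, D y 0 k 2 ≠ 0 := fun y hy k =>
    ((h7 ℂ _ (D y) (H y) (-1) 0 (hw0 y hy) (hd.ok y hy)).2 (-1) k le_rfl (by norm_num)).2.1
  have hC : ∀ k : ℤ, Dtm O (thd n e m D H) (fun y => D y 0 k 2) := by
    intro k
    refine (c6 _ (fun y => D y 0 k 2) (hcst k) (hd.sD 0 (Or.inl rfl) k 2)
      (fun y hy => hC0 y hy k)).2 (δ ^ e) (fun y hy => ?_) (fun y hy => hd.c2 y hy k)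
    unfold cst e3
    rw [← hd.del y hy]
    congr 2
    ring
  -- the constant
  have hLa : ∀ y ∈ O, _ := fun y hy => h2 n e r (m y) (D y) (H y) (K' y) (hd.m0 y hy)
    (hd.K0 y hy) (hd.inj y hy) (hd.ok y hy) (hd.ch y hy) (hd.pD y hy) (hd.pH y hy) (hd.rel y hy)
  simp only at hLa
  obtain ⟨Tc, hTc⟩ : ∃ Tc : E n → ℂ, Tc = fun y =>
      (∏ j ∈ Finset.range n, gam (fun i => m y i ^ e) (D y) 0 j) * K' y *
        m y 0 ^ (n * e - r : ℤ) := ⟨_, rfl⟩
  have hTs : ContDiffOn ℝ ∞ Tc O := by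
    rw [hTc]
    refine ContDiffOn.mul (ContDiffOn.mul ?_ hd.sK) ?_
    · exact contDiffOn_prod fun j _ y hy => (hsm y hy j).1.contDiffWithinAt
    · exact fun y hy => (SmA.czpow (hcm y hy 0) (hd.m0 y hy 0) _).contDiffWithinAt
  have hT0 : ∀ y ∈ O, Tc y ≠ 0 := by
    intro y hy
    have := (hLa y hy).1
    rw [hTc]
    exact this
  have hT : Dtm O (thd n e m D H) Tc := by
    have hf : Dtm O (thd n e m D H) (fun y => ((∏ j ∈ Finset.range n,
        rho (fun i => m y i ^ e) (D y) (H y) 0 j) * ∏ j ∈ Finset.range n, D y 0 j 2) *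
          (δ ^ r)⁻¹) :=
      (c2 _ _ ((c2 _ _ (c4 n (fun j y => rho (fun i => m y i ^ e) (D y) (H y) 0 j)
        (fun j => hrho j)).2 (c4 n (fun j y => D y 0 j 2) (fun j => hC j)).2).2.2.1)
        (c1 (δ ^ r)⁻¹)).2.2.1
    refine (c6 _ Tc hf hTs hT0).1 (fun y hy => ?_)
    have h9 := (hLa y hy).2.1
    rw [hd.del y hy] at h9
    rw [← h9, mul_assoc, mul_inv_cancel₀ (zpow_ne_zero _ hδ), mul_one, hTc]
  -- the polynomial of the trace
  have hcC : ∀ i : Ix n, DtP O (thd n e m D H) (fun y => Polynomial.C (thd n e m D H y i)) :=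
    fun i => c7 _ (hcomp i)
  have hL : ∀ (k : ℤ) (a b : Fin 2), DtP O (thd n e m D H)
      (fun y => Lc (fun i => Polynomial.C (thd n e m D H y i)) Polynomial.X k a b) := by
    intro k a b
    fin_cases a <;> fin_cases b
    · exact (c9 _ _ c8 (hcC (rs n k, 0))).2.1
    · exact c7 (fun _ => 1) (c1 1)
    · exact (c9 _ _ (hcC (rs n k, 1)) (c9 _ _ (hcC (rs n k, 0)) (hcC (rs n k, 2))).2.1).2.2.1
    · have h9 := c7 _ (c2 _ _ (hcomp (rs n k, 1)) (hcomp (rs n k, 1))).2.2.2.1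
      simp only [Polynomial.C_neg] at h9
      exact h9
  have hNc : ∀ (k : ℕ) (a b : Fin 2), DtP O (thd n e m D H)
      (fun y => Nc (fun i => Polynomial.C (thd n e m D H y i)) Polynomial.X 0 k a b) := by
    intro k
    induction k with
    | zero =>
      intro a b
      by_cases hab : a = b
      · subst hab
        have h9 := c7 (fun _ => 1) (c1 1)
        simp only [Nc, Matrix.one_apply_eq]
        exact h9
      · have h9 := c7 (fun _ => 0) (c1 0)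
        simp only [Nc, Matrix.one_apply_ne hab]
        simpa using h9
    | succ k ih =>
      intro a b
      have h9 : (fun y => Nc (fun i => Polynomial.C (thd n e m D H y i)) Polynomial.X 0 (k + 1)
          a b) = fun y =>
          Lc (fun i => Polynomial.C (thd n e m D H y i)) Polynomial.X (0 + k) a 0 *
            Nc (fun i => Polynomial.C (thd n e m D H y i)) Polynomial.X 0 k 0 b +
          Lc (fun i => Polynomial.C (thd n e m D H y i)) Polynomial.X (0 + k) a 1 *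
            Nc (fun i => Polynomial.C (thd n e m D H y i)) Polynomial.X 0 k 1 b := by
        funext y
        rw [Nc, Matrix.mul_apply, Fin.sum_univ_two]
      rw [h9]
      exact (c9 _ _ (c9 _ _ (hL _ a 0) (ih 0 b)).2.2.1 (c9 _ _ (hL _ a 1) (ih 1 b)).2.2.1).1
  have hq : DtP O (thd n e m D H)
      (fun y => Hx (fun i => Polynomial.C (thd n e m D H y i)) Polynomial.X) := by
    have h9 : (fun y => Hx (fun i => Polynomial.C (thd n e m D H y i)) Polynomial.X) = fun y =>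
        Nc (fun i => Polynomial.C (thd n e m D H y i)) Polynomial.X 0 n 0 0 +
        Nc (fun i => Polynomial.C (thd n e m D H y i)) Polynomial.X 0 n 1 1 := by
      funext y
      rw [Hx, Matrix.trace_fin_two, Nm]
    rw [h9]
    exact (c9 _ _ (hNc n 0 0) (hNc n 1 1)).1
  -- the polynomial for the products
  obtain ⟨F, hF⟩ : ∃ F : E n → Polynomial ℂ, F = fun y => Fpo n e r (Tc y) δ
      (fun j => D y 0 j 2) (Hx (fun i => Polynomial.C (thd n e m D H y i)) Polynomial.X) :=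
    ⟨_, rfl⟩
  have hX : ∀ N : ℕ, DtP O (thd n e m D H) (fun _ => (Polynomial.X : Polynomial ℂ) ^ N) :=
    fun N => (c9 _ _ c8 c8).2.2.2 N
  have hdC : ∀ j : ℤ, Dtm O (thd n e m D H) (fun y => δ ^ e / D y 0 j 2) := fun j =>
    ((c2 _ _ (c1 (δ ^ e)) (hC j)).2.2.2.2.2 (fun y hy => hC0 y hy j)).2.1
  have hFD : DtP O (thd n e m D H) F := by
    rw [hF]
    unfold Fpo
    refine (c9 _ _ (c9 _ _ (c9 _ _ (c9 _ _ (c7 _ hT) (hX _)).2.2.1
      (c10 n (fun j y => Polynomial.C (δ ^ e / D y 0 j 2) - Polynomial.X ^ e)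
        (fun j => (c9 _ _ (c7 _ (hdC j)) (hX e)).2.1)).2).2.2.1
      (c9 _ _ (c9 _ _ (c7 _ ?_) (hX _)).2.2.1
        (c10 n (fun j y => Polynomial.X ^ e - Polynomial.C (D y 0 j 2))
        (fun j => (c9 _ _ (hX e) (c7 _ (hC j))).2.1)).2).2.2.1).1
      (c9 _ _ (hX _) (c10 (n + 1) (fun k y => Polynomial.C
        ((Hx (fun i => Polynomial.C (thd n e m D H y i)) Polynomial.X).coeff k) *
        Polynomial.X ^ (e * (n - k)) * (Polynomial.X ^ (2 * e) + Polynomial.C (δ ^ e)) ^ k)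
        (fun k => (c9 _ _ (c9 _ _ (c7 _ (hq k)) (hX _)).2.2.1
          ((c9 _ _ (c9 _ _ (hX _) (c7 _ (c1 (δ ^ e)))).1 c8).2.2.2 k)).2.2.1)).1).2.2.1).2.1
    exact (c2 _ _ (c2 _ _ hT (c1 _)).2.2.1
      (c4 n (fun j y => δ ^ e / D y 0 j 2) (fun j => hdC j)).2).2.2.1
  have hFp : ∀ y ∈ O, _ := fun y hy => h5 n e r (Tc y) δ (fun j => D y 0 j 2)
    (Hx (fun i => Polynomial.C (thd n e m D H y i)) Polynomial.X) hn he hr hrn (hT0 y hy) hδ
    (hC0 y hy) (h4 ℂ n (thd n e m D H y)).1 (h4 ℂ n (thd n e m D H y)).2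
  have hFev : ∀ y ∈ O, ∀ a, a ≠ 0 → (F y).eval (m y 0 * m y a) = 0 := by
    intro y hy a ha
    have h9 : m y 0 * m y a ≠ 0 := mul_ne_zero (hd.m0 y hy 0) (hd.m0 y hy a)
    have h10 := (hFp y hy).1 (m y 0 * m y a) h9
    obtain ⟨-, -, -, h11, h12⟩ := (hLa y hy).2.2 a ha
    rw [hd.del y hy] at h11 h12
    have h13 : (Hx (fun i => Polynomial.C (thd n e m D H y i)) Polynomial.X).eval
        ((m y 0 * m y a) ^ e + δ ^ e / (m y 0 * m y a) ^ e) =
        Hx (thd n e m D H y) ((m y 0 * m y a) ^ e + δ ^ e / (m y 0 * m y a) ^ e) := by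
      have h14 := ((h3 (Polynomial ℂ) n (fun i => Polynomial.C (thd n e m D H y i))
        Polynomial.X).2.2.2.2.2.2.2 ℂ (Polynomial.evalRingHom
          ((m y 0 * m y a) ^ e + δ ^ e / (m y 0 * m y a) ^ e))).2
      simpa only [Polynomial.coe_evalRingHom, Polynomial.eval_C, Polynomial.eval_X] using h14
    rw [hF]
    simp only
    rw [h10, h13, ← h12]
    have h15 : Hx (thd n e m D H y) (chi (fun i => m y i ^ e) (m y a ^ e)) =
        Tc y * (Aw n e r (δ ^ e) (fun j => D y 0 j 2) (m y 0 * m y a) +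
          Aw n e r (δ ^ e) (fun j => D y 0 j 2) (δ / (m y 0 * m y a))) := by
      rw [hTc]
      exact h11
    rw [h15, sub_self, mul_zero]
  have hF0 : ∀ y ∈ O, F y ≠ 0 := by
    intro y hy
    rw [hF]
    exact (hFp y hy).2.1
  have hFdeg : ∀ y ∈ O, (F y).natDegree ≤ 2 * r.natAbs + 2 * (n * e) := by
    intro y hy
    rw [hF]
    exact (hFp y hy).2.2
  -- one step
  have key : ∀ O₁ ⊆ O, IsOpen O₁ → O₁.Nonempty → ∀ a : Fin 4, a ≠ 0 → ∃ O' ⊆ O₁, IsOpen O' ∧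
      O'.Nonempty ∧ Dtm O' (thd n e m D H) (fun y => m y 0 * m y a) := by
    intro O₁ hO₁ ho hne₁ a ha
    obtain ⟨O', hO', ho', hne', hdd⟩ := h6 (Ix n) (2 * r.natAbs + 2 * (n * e)) O₁
      (fun k y => (F y).coeff k) (fun y => m y 0 * m y a) ho hne₁
      (fun k => (hFD k).1.mono hO₁) (((hd.sm 0).mul (hd.sm a)).mono hO₁)
      (by
        intro y hy
        have h9 := hFev y (hO₁ hy) a ha
        rw [Polynomial.eval_eq_sum_range' (Nat.lt_succ_of_le (hFdeg y (hO₁ hy)))] at h9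
        rw [← Fin.sum_univ_eq_sum_range (fun k => (F y).coeff k * (m y 0 * m y a) ^ k)] at h9
        exact h9)
      (by
        intro y hy
        by_contra hcon
        push Not at hcon
        apply hF0 y (hO₁ hy)
        ext k
        rw [Polynomial.coeff_zero]
        by_cases hk : k < 2 * r.natAbs + 2 * (n * e) + 1
        · exact hcon ⟨k, hk⟩
        · exact Polynomial.coeff_eq_zero_of_natDegree_lt
            (lt_of_le_of_lt (hFdeg y (hO₁ hy)) (by omega)))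
    exact ⟨O', hO', ho', hne', ((hd.sm 0).mul (hd.sm a)).mono (hO'.trans hO₁),
      fun y hy w hw => hdd y hy w fun k => (hFD k).2 y (hO₁ (hO' hy)) w hw⟩
  obtain ⟨O₁, hO₁, ho₁, hn₁, hd₁⟩ := key O subset_rfl hd.isOpen hne 1 (by decide)
  obtain ⟨O₂, hO₂, ho₂, hn₂, hd₂⟩ := key O₁ hO₁ ho₁ hn₁ 2 (by decide)
  obtain ⟨O₃, hO₃, ho₃, hn₃, hd₃⟩ := key O₂ (hO₂.trans hO₁) ho₂ hn₂ 3 (by decide)
  have hres : ∀ (O₁ O₂ : Set (E n)) (g : E n → ℂ), O₂ ⊆ O₁ → Dtm O₁ (thd n e m D H) g →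
      Dtm O₂ (thd n e m D H) g := fun O₁ O₂ g h hg =>
    ⟨hg.1.mono h, fun y hy w hw => hg.2 y (h hy) w hw⟩
  refine ⟨O₃, hO₃.trans (hO₂.trans hO₁), ho₃, hn₃, ?_, fun k =>
    c11 _ (hO₃.trans (hO₂.trans hO₁)) _ (hC k)⟩
  intro a ha
  fin_cases a
  · exact absurd rfl ha
  · exact hres _ _ _ (hO₃.trans hO₂) hd₁
  · exact hres _ _ _ hO₃ hd₂
  · exact hd₃

end Pool.Agent.MP62a5ad.QN
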