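import Pool.Agent.Lib.MP_62a5ad_mp.QN.SpecD

/-!
# MP_62a5ad_mp, project QN: the roots and the data determine the polygon (`S_Im`)
-/

set_option autoImplicit false

namespace Pool.Agent.MP62a5ad.QN

open Matrix
open Pool.Agent.MP62a5ad.PN (V4 M4 e0)

/-- The function `g` is differentiable at `y` and its derivative in the direction `w` is zero. -/
def Im_K {ι : Type} [Fintype ι] [DecidableEq ι] (w : ι → ℂ) (y : ι → ℝ) (g : (ι → ℝ) → ℂ) : Prop :=
  DifferentiableAt ℝ g y ∧ dd w g y = 0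

section

variable {ι : Type} [Fintype ι] [DecidableEq ι] {w : ι → ℂ} {y : ι → ℝ}

theorem Im_const (h4 : S_Dd) (c : ℂ) : Im_K w y (fun _ => c) :=
  ⟨differentiableAt_const c, (h4 ι w y).2.1 c⟩

theorem Im_add (h4 : S_Dd) {g h : (ι → ℝ) → ℂ} (hg : Im_K w y g) (hh : Im_K w y h) :
    Im_K w y (fun x => g x + h x) :=
  ⟨hg.1.add hh.1, by rw [((h4 ι w y).1 g h hg.1 hh.1).1, hg.2, hh.2, add_zero]⟩

theorem Im_sub (h4 : S_Dd) {g h : (ι → ℝ) → ℂ} (hg : Im_K w y g) (hh : Im_K w y h) :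
    Im_K w y (fun x => g x - h x) :=
  ⟨hg.1.sub hh.1, by rw [((h4 ι w y).1 g h hg.1 hh.1).2.1, hg.2, hh.2, sub_zero]⟩

theorem Im_mul (h4 : S_Dd) {g h : (ι → ℝ) → ℂ} (hg : Im_K w y g) (hh : Im_K w y h) :
    Im_K w y (fun x => g x * h x) :=
  ⟨hg.1.mul hh.1, by
    rw [((h4 ι w y).1 g h hg.1 hh.1).2.2.1, hg.2, hh.2, zero_mul, mul_zero, add_zero]⟩

theorem Im_inv (h4 : S_Dd) {g : (ι → ℝ) → ℂ} (hg : Im_K w y g) (h0 : g y ≠ 0) :
    Im_K w y (fun x => (g x)⁻¹) :=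
  ⟨hg.1.inv h0, by
    rw [((h4 ι w y).1 g g hg.1 hg.1).2.2.2.2.1 h0, hg.2, neg_zero, zero_div]⟩

theorem Im_pow (h4 : S_Dd) {g : (ι → ℝ) → ℂ} (hg : Im_K w y g) (N : ℕ) :
    Im_K w y (fun x => g x ^ N) := by
  induction N with
  | zero => simpa using Im_const h4 1
  | succ N ih =>
    have h := Im_mul h4 ih hg
    simpa only [pow_succ] using h

theorem Im_zpow (h4 : S_Dd) {g : (ι → ℝ) → ℂ} (hg : Im_K w y g) (h0 : g y ≠ 0) (N : ℤ) :
    Im_K w y (fun x => g x ^ N) := by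
  cases N with
  | ofNat N =>
    have h := Im_pow h4 hg N
    simpa only [Int.ofNat_eq_natCast, zpow_natCast] using h
  | negSucc N =>
    have h := Im_inv h4 (Im_pow h4 hg (N + 1)) (pow_ne_zero _ h0)
    simpa only [zpow_negSucc] using h

theorem Im_prod (h4 : S_Dd) {g : ℕ → (ι → ℝ) → ℂ} (hg : ∀ j, Im_K w y (g j)) (N : ℕ) :
    Im_K w y (fun x => ∏ j ∈ Finset.range N, g j x) := by
  induction N with
  | zero => simpa using Im_const h4 1
  | succ N ih =>
    have h := Im_mul h4 ih (hg N)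
    simpa only [Finset.prod_range_succ] using h

end

/-- A cubic polynomial with four zeros. -/
theorem Im_cubic (m : Fin 4 → ℂ) (hm : Function.Injective m) (v : Fin 4 → ℂ)
    (h : ∀ i, v 0 + m i * v 1 + m i ^ 2 * v 2 + m i ^ 3 * v 3 = 0) : v = 0 := by
  apply Matrix.eq_zero_of_mulVec_eq_zero (Matrix.det_vandermonde_ne_zero_iff.mpr hm)
  funext i
  rw [Matrix.mulVec, dotProduct, Fin.sum_univ_four, Pi.zero_apply, ← h i]
  simp only [Matrix.vandermonde_apply, Fin.val_zero, Fin.val_one, Fin.val_two, pow_zero, pow_one,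
    one_mul]
  rfl

/-- The vertex `k` is a vector `u_N` up to a power of the monodromy. -/
theorem Im_us (n : ℕ) [NeZero n] (r r' c : ℤ) (hr : r * r' = 1 + n * c) (k : Fin n) :
    ∃ (N : ℕ) (l : ℤ), ∀ y : E n, us n r y N = (Mo n y ^ l) *ᵥ vert n y k := by
  have hn : (0 : ℤ) < n := Int.natCast_pos.mpr (NeZero.pos n)
  have h1 : (((r' * (k : ℕ)) % (n : ℤ)).toNat : ℤ) = (r' * (k : ℕ)) % (n : ℤ) :=
    Int.toNat_of_nonneg (Int.emod_nonneg _ hn.ne')
  have h2 := Int.mul_ediv_add_emod (r' * (k : ℕ)) (n : ℤ)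
  refine ⟨((r' * (k : ℕ)) % (n : ℤ)).toNat, c * (k : ℕ) - r * (r' * (k : ℕ) / (n : ℤ)), fun y => ?_⟩
  have h3 : r * ((((r' * (k : ℕ)) % (n : ℤ)).toNat : ℕ) : ℤ) =
      (k : ℕ) + (n : ℤ) * (c * (k : ℕ) - r * (r' * (k : ℕ) / (n : ℤ))) := by
    rw [h1]
    linear_combination r * h2 + (k : ℕ) * hr
  have hk : ((k : ℕ) : ℤ) < n := by exact_mod_cast k.2
  have hk0 : (0 : ℤ) ≤ ((k : ℕ) : ℤ) := Int.natCast_nonneg _
  rw [us, pol, h3, Int.add_mul_ediv_left _ _ hn.ne', Int.ediv_eq_zero_of_lt hk0 hk, zero_add]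
  congr 1
  have h4 : rs n (((k : ℕ) : ℤ) + (n : ℤ) * (c * (k : ℕ) - r * (r' * (k : ℕ) / (n : ℤ)))) = k := by
    rw [rs, Int.add_mul_emod_self_left, Int.emod_eq_of_lt hk0 hk, Int.toNat_natCast]
    exact Fin.ext (Nat.mod_eq_of_lt k.2)
  rw [h4]

theorem Im_xi (n : ℕ) [NeZero n] (k : Fin n) (hk : k ≠ 0) (m : ℂ) (y : E n) :
    xi m (vert n y k) = 1 + m * ((y (k, 0) : ℝ) : ℂ) + m ^ 2 * ((y (k, 1) : ℝ) : ℂ) +
      m ^ 3 * ((y (k, 2) : ℝ) : ℂ) := by
  rw [xi, Fin.sum_univ_four, vert, if_neg hk]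
  simp

theorem sIm (_ : S_Per) (h2 : S_Xi) (h3 : S_Pw) (h4 : S_Dd) : S_Im := by
  intro n _ e r r' c hr O m y w hO hy hm hkap hdat hyp hdm hdd
  obtain ⟨_, hB, hb, hkp, hpv, hinj, hcp⟩ := hyp y hy
  have hOn : O ∈ nhds y := hO.mem_nhds hy
  have hK : ∀ i, Im_K w y (m i) := fun i => ⟨hm i, hdm i⟩
  have hD : ∀ (k : ℤ) (j : Fin 3), Im_K w y (fun x => ((dat n e r x 0 k j : ℝ) : ℂ)) := by
    intro k j
    refine ⟨?_, hdd k j⟩
    have h := differentiableAt_pi.mp (hdat k) j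
    exact Complex.ofRealCLM.differentiableAt.comp y h
  have hcoord : ∀ a : Ix n, DifferentiableAt ℝ (fun x : E n => ((x a : ℝ) : ℂ)) y := by
    intro a
    exact Complex.ofRealCLM.differentiableAt.comp y (differentiableAt_apply a y)
  have hcd : ∀ a : Ix n, dd w (fun x : E n => ((x a : ℝ) : ℂ)) y = w a := (h4 (Ix n) w y).2.2.2.1
  have heq := (h4 (Ix n) w y).2.2.1
  -- the coordinates of the vertex 0
  have ha : ∀ j : Fin 3, w (0, j) = 0 := by
    intro j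
    rw [← hcd (0, j)]
    fin_cases j
    · have hg : (fun x : E n => ((x (0, 0) : ℝ) : ℂ)) =ᶠ[nhds y] fun x => m 0 x * m 1 x +
          m 0 x * m 2 x + m 0 x * m 3 x + m 1 x * m 2 x + m 1 x * m 3 x + m 2 x * m 3 x := by
        filter_upwards [hOn] with x hx
        exact ((h3.1 (fun i => m i x) (cc n x) (hyp x hx).2.2.2.2.2.2).2.1).symm
      refine (heq _ _ hg).trans ?_
      exact (Im_add h4 (Im_add h4 (Im_add h4 (Im_add h4 (Im_add h4 (Im_mul h4 (hK 0) (hK 1))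
        (Im_mul h4 (hK 0) (hK 2))) (Im_mul h4 (hK 0) (hK 3))) (Im_mul h4 (hK 1) (hK 2)))
        (Im_mul h4 (hK 1) (hK 3))) (Im_mul h4 (hK 2) (hK 3))).2
    · have hg : (fun x : E n => ((x (0, 1) : ℝ) : ℂ)) =ᶠ[nhds y] fun x => m 0 x * m 1 x * m 2 x +
          m 0 x * m 1 x * m 3 x + m 0 x * m 2 x * m 3 x + m 1 x * m 2 x * m 3 x := by
        filter_upwards [hOn] with x hx
        exact ((h3.1 (fun i => m i x) (cc n x) (hyp x hx).2.2.2.2.2.2).2.2.1).symm
      refine (heq _ _ hg).trans ?_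
      exact (Im_add h4 (Im_add h4 (Im_add h4
        (Im_mul h4 (Im_mul h4 (hK 0) (hK 1)) (hK 2))
        (Im_mul h4 (Im_mul h4 (hK 0) (hK 1)) (hK 3)))
        (Im_mul h4 (Im_mul h4 (hK 0) (hK 2)) (hK 3)))
        (Im_mul h4 (Im_mul h4 (hK 1) (hK 2)) (hK 3))).2
    · have hg : (fun x : E n => ((x (0, 2) : ℝ) : ℂ)) =ᶠ[nhds y]
          fun x => m 0 x * m 1 x * m 2 x * m 3 x := by
        filter_upwards [hOn] with x hx
        exact ((h3.1 (fun i => m i x) (cc n x) (hyp x hx).2.2.2.2.2.2).2.2.2.1).symm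
      refine (heq _ _ hg).trans ?_
      exact (Im_mul h4 (Im_mul h4 (Im_mul h4 (hK 0) (hK 1)) (hK 2)) (hK 3)).2
  -- the other vertices
  have hx : ∀ x ∈ O, ∀ i, _ := fun x hx i =>
    h2 n e r x (m i x) (hyp x hx).1 ((h3.1 (fun i => m i x) (cc n x)
      (hyp x hx).2.2.2.2.2.2).2.2.2.2.1 i) (hyp x hx).2.1 (hyp x hx).2.2.1 (hyp x hx).2.2.2.1
  have hbk : ∀ k : Fin n, k ≠ 0 → ∀ j : Fin 3, w (k, j) = 0 := by
    intro k hk
    obtain ⟨N, l, hus⟩ := Im_us n r r' c hr k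
    let f : E n → ℂ := fun x => ∏ j ∈ Finset.range N, ((kap n e r x (j : ℤ) : ℝ) : ℂ)
    let A : Fin 4 → E n → ℂ := fun i x =>
      (∏ j ∈ Finset.range N, (m i x ^ e - ((dat n e r x 0 (j : ℤ) 0 : ℝ) : ℂ))) * m i x ^ l
    let B : Fin 4 → E n → ℂ := fun i x =>
      ∏ j ∈ Finset.range N, qv (fun a => ((dat n e r x 0 (j : ℤ) a : ℝ) : ℂ)) (m i x ^ e)
    let X : Fin 4 → E n → ℂ := fun i x => 1 + m i x * ((x (k, 0) : ℝ) : ℂ) +
      m i x ^ 2 * ((x (k, 1) : ℝ) : ℂ) + m i x ^ 3 * ((x (k, 2) : ℝ) : ℂ)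
    have hf0 : f y ≠ 0 := by
      refine Finset.prod_ne_zero_iff.mpr fun j _ => ?_
      exact_mod_cast hkp j
    have hfd : DifferentiableAt ℝ f y := by
      have : ∀ M : ℕ, DifferentiableAt ℝ
          (fun x : E n => ∏ j ∈ Finset.range M, ((kap n e r x (j : ℤ) : ℝ) : ℂ)) y := by
        intro M
        induction M with
        | zero => simp
        | succ M ih =>
          simp only [Finset.prod_range_succ]
          exact ih.mul (Complex.ofRealCLM.differentiableAt.comp y (hkap M))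
      exact this N
    have hA : ∀ i, Im_K w y (A i) := fun i =>
      Im_mul h4 (Im_prod h4 (fun j => Im_sub h4 (Im_pow h4 (hK i) e) (hD j 0)) N)
        (Im_zpow h4 (hK i) (hx y hy i).1 l)
    have hB' : ∀ i, Im_K w y (B i) := fun i =>
      Im_prod h4 (fun j => Im_add h4 (Im_add h4 (Im_pow h4 (Im_pow h4 (hK i) e) 2)
        (Im_mul h4 (hD j 1) (Im_pow h4 (hK i) e))) (hD j 2)) N
    have hA0 : ∀ i, A i y ≠ 0 := by
      intro i
      refine mul_ne_zero (Finset.prod_ne_zero_iff.mpr fun j _ => ?_) (zpow_ne_zero _ (hx y hy i).1)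
      intro h0
      have h5 := (hx y hy i).2.2.2.2.1
      rw [sub_eq_zero.mp h0] at h5
      apply hpv (j : ℤ)
      have h6 : pv (fun a => ((pc n e r y a : ℝ) : ℂ)) ((dat n e r y 0 (j : ℤ) 0 : ℝ) : ℂ) =
          ((pv (pc n e r y) (dat n e r y 0 (j : ℤ) 0) : ℝ) : ℂ) := by
        simp only [pv]
        push_cast
        ring
      rw [h6] at h5
      exact_mod_cast h5
    have hE : ∀ x ∈ O, ∀ i, A i x * X i x = f x * B i x := by
      intro x hxO i
      have h7 := (hx x hxO i).2.2.2.2.2.2.1 N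
      rw [hus x, (hx x hxO i).2.2.1 l, Im_xi n k hk, Finset.prod_mul_distrib] at h7
      rw [← h7]
      simp only [A, X]
      ring
    have hXd : ∀ i, DifferentiableAt ℝ (X i) y ∧ dd w (X i) y =
        m i y * w (k, 0) + m i y ^ 2 * w (k, 1) + m i y ^ 3 * w (k, 2) := by
      intro i
      have d := fun (g h : E n → ℂ) (hg : DifferentiableAt ℝ g y) (hh : DifferentiableAt ℝ h y) =>
        (h4 (Ix n) w y).1 g h hg hh
      have e1 := (hK i).1.mul (hcoord (k, 0))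
      have e2 := (Im_pow h4 (hK i) 2).1.mul (hcoord (k, 1))
      have e3 := (Im_pow h4 (hK i) 3).1.mul (hcoord (k, 2))
      have c1 := (Im_const (w := w) (y := y) h4 1)
      refine ⟨((c1.1.add e1).add e2).add e3, ?_⟩
      have f3 := (d (fun x => 1 + m i x * ((x (k, 0) : ℝ) : ℂ) + m i x ^ 2 * ((x (k, 1) : ℝ) : ℂ))
        (fun x => m i x ^ 3 * ((x (k, 2) : ℝ) : ℂ)) ((c1.1.add e1).add e2) e3).1
      have f2 := (d (fun x => 1 + m i x * ((x (k, 0) : ℝ) : ℂ))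
        (fun x => m i x ^ 2 * ((x (k, 1) : ℝ) : ℂ)) (c1.1.add e1) e2).1
      have f1 := (d (fun _ => 1) (fun x => m i x * ((x (k, 0) : ℝ) : ℂ)) c1.1 e1).1
      have g1 := (d (fun x => m i x) (fun x => ((x (k, 0) : ℝ) : ℂ)) (hK i).1
        (hcoord (k, 0))).2.2.1
      have g2 := (d (fun x => m i x ^ 2) (fun x => ((x (k, 1) : ℝ) : ℂ)) (Im_pow h4 (hK i) 2).1
        (hcoord (k, 1))).2.2.1
      have g3 := (d (fun x => m i x ^ 3) (fun x => ((x (k, 2) : ℝ) : ℂ)) (Im_pow h4 (hK i) 3).1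
        (hcoord (k, 2))).2.2.1
      have k1 : dd w (fun x => m i x) y = 0 := (hK i).2
      rw [hcd, k1] at g1
      rw [hcd, (Im_pow h4 (hK i) 2).2] at g2
      rw [hcd, (Im_pow h4 (hK i) 3).2] at g3
      rw [g3, f2, g2, f1, g1, c1.2] at f3
      refine f3.trans ?_
      ring
    have hmain : ∀ i, f y * (m i y * w (k, 0) + m i y ^ 2 * w (k, 1) + m i y ^ 3 * w (k, 2)) =
        dd w f y * X i y := by
      intro i
      have e1 : dd w (fun x => A i x * X i x) y = dd w (fun x => f x * B i x) y := by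
        apply heq
        filter_upwards [hOn] with x hxO
        exact hE x hxO i
      rw [((h4 (Ix n) w y).1 (A i) (X i) (hA i).1 (hXd i).1).2.2.1,
        ((h4 (Ix n) w y).1 f (B i) hfd (hB' i).1).2.2.1, (hA i).2, (hB' i).2, (hXd i).2] at e1
      have e2 := hE y hy i
      apply mul_left_cancel₀ (hA0 i)
      linear_combination f y * e1 - dd w f y * e2
    have hv : (![-dd w f y, f y * w (k, 0) - dd w f y * ((y (k, 0) : ℝ) : ℂ),
        f y * w (k, 1) - dd w f y * ((y (k, 1) : ℝ) : ℂ),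
        f y * w (k, 2) - dd w f y * ((y (k, 2) : ℝ) : ℂ)] : Fin 4 → ℂ) = 0 := by
      apply Im_cubic (fun i => m i y) hinj
      intro i
      have e1 := hmain i
      simp only [X] at e1
      simp only [Matrix.cons_val_zero, Matrix.cons_val_one, Matrix.cons_val]
      linear_combination e1
    have v0 : -dd w f y = 0 := by simpa using congrFun hv 0
    have v0' : dd w f y = 0 := neg_eq_zero.mp v0
    have v1 : f y * w (k, 0) - dd w f y * ((y (k, 0) : ℝ) : ℂ) = 0 := by simpa using congrFun hv 1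
    have v2 : f y * w (k, 1) - dd w f y * ((y (k, 1) : ℝ) : ℂ) = 0 := by simpa using congrFun hv 2
    have v3 : f y * w (k, 2) - dd w f y * ((y (k, 2) : ℝ) : ℂ) = 0 := by simpa using congrFun hv 3
    rw [v0', zero_mul, sub_zero] at v1 v2 v3
    intro j
    fin_cases j
    · exact (mul_eq_zero.mp v1).resolve_left hf0
    · exact (mul_eq_zero.mp v2).resolve_left hf0
    · exact (mul_eq_zero.mp v3).resolve_left hf0
  funext a
  obtain ⟨k, j⟩ := a
  rw [Pi.zero_apply]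
  by_cases hk : k = 0
  · rw [hk]
    exact ha j
  · exact hbk k hk j

end Pool.Agent.MP62a5ad.QN
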