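import Pool.Agent.Lib.MP_62a5ad_mp.QN.SpecB

/-!
# MP_62a5ad_mp, project QN: the integrals are in involution
-/

set_option autoImplicit false

namespace Pool.Agent.MP62a5ad.QN

open Matrix

/-- The bracket of two covectors. -/
private lemma Iv_row {n : ℕ} [NeZero n] (g : Ix n → ℂ) (k : Fin n) :
    (∑ l, ((P0 n (k, 0) l : ℝ) : ℂ) * g l =
      ∑ m : Fin n, ((if k = m then (1 : ℂ) else 0) - (if k = m + 1 then 1 else 0)) * g (m, 1)) ∧
    (∑ l, ((P0 n (k, 1) l : ℝ) : ℂ) * g l = g (k + 1, 0) - g (k, 0)) ∧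
    (∑ l, ((P0 n (k, 2) l : ℝ) : ℂ) * g l = 0) := by
  refine ⟨?_, ?_, ?_⟩
  · rw [Fintype.sum_prod_type]
    refine Finset.sum_congr rfl fun m _ => ?_
    rw [Fin.sum_univ_three]
    have e0 : ((P0 n (k, 0) (m, 1) : ℝ) : ℂ) = (if k = m then 1 else 0) -
        (if k = m + 1 then 1 else 0) := by
      have : P0 n (k, 0) (m, 1) = (if k = m then 1 else 0) - (if k = m + 1 then 1 else 0) := by
        simp [P0]
      rw [this]
      push_cast
      split_ifs <;> simp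
    have e1 : ((P0 n (k, 0) (m, 0) : ℝ) : ℂ) = 0 := by simp [P0]
    have e2 : ((P0 n (k, 0) (m, 2) : ℝ) : ℂ) = 0 := by simp [P0]
    rw [e0, e1, e2]
    ring
  · rw [Fintype.sum_prod_type]
    have h : ∀ m : Fin n, ∑ y : Fin 3, ((P0 n (k, 1) (m, y) : ℝ) : ℂ) * g (m, y) =
        (if m = k + 1 then g (m, 0) else 0) - (if m = k then g (m, 0) else 0) := by
      intro m
      rw [Fin.sum_univ_three]
      have e0 : ((P0 n (k, 1) (m, 0) : ℝ) : ℂ) = (if m = k + 1 then 1 else 0) -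
          (if m = k then 1 else 0) := by
        have : P0 n (k, 1) (m, 0) = (if m = k + 1 then 1 else 0) - (if m = k then 1 else 0) := by
          simp [P0]
        rw [this]
        push_cast
        split_ifs <;> simp
      have e1 : ((P0 n (k, 1) (m, 1) : ℝ) : ℂ) = 0 := by simp [P0]
      have e2 : ((P0 n (k, 1) (m, 2) : ℝ) : ℂ) = 0 := by simp [P0]
      rw [e0, e1, e2]
      split_ifs <;> ring
    rw [Finset.sum_congr rfl fun m _ => h m, Finset.sum_sub_distrib]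
    simp
  · refine Finset.sum_eq_zero fun l _ => ?_
    have e : P0 n (k, 2) l = 0 := by
      simp [P0]
    rw [e]
    simp

/-- The bracket as a sum over the sites. -/
private lemma Iv_br {n : ℕ} [NeZero n] (f g : Ix n → ℂ) :
    ∑ k, ∑ l, f k * ((P0 n k l : ℝ) : ℂ) * g l =
      ∑ m : Fin n, ((f (m, 0) - f (m + 1, 0)) * g (m, 1) + f (m, 1) * (g (m + 1, 0) - g (m, 0))) := by
  have h1 : ∑ k, ∑ l, f k * ((P0 n k l : ℝ) : ℂ) * g l =
      ∑ k : Ix n, f k * ∑ l, ((P0 n k l : ℝ) : ℂ) * g l := by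
    refine Finset.sum_congr rfl fun k _ => ?_
    rw [Finset.mul_sum]
    exact Finset.sum_congr rfl fun l _ => mul_assoc _ _ _
  rw [h1, Fintype.sum_prod_type]
  have h2 : ∀ k : Fin n, ∑ y : Fin 3, f (k, y) * ∑ l, ((P0 n (k, y) l : ℝ) : ℂ) * g l =
      f (k, 0) * (∑ m : Fin n, ((if k = m then (1 : ℂ) else 0) - (if k = m + 1 then 1 else 0)) *
        g (m, 1)) + f (k, 1) * (g (k + 1, 0) - g (k, 0)) := by
    intro k
    rw [Fin.sum_univ_three, (Iv_row g k).1, (Iv_row g k).2.1, (Iv_row g k).2.2]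
    ring
  rw [Finset.sum_congr rfl fun k _ => h2 k, Finset.sum_add_distrib, Finset.sum_add_distrib]
  congr 1
  have h3 : ∀ k : Fin n, f (k, 0) * (∑ m : Fin n,
      ((if k = m then (1 : ℂ) else 0) - (if k = m + 1 then 1 else 0)) * g (m, 1)) =
      ∑ m : Fin n, ((if k = m then f (k, 0) else 0) - (if k = m + 1 then f (k, 0) else 0)) *
        g (m, 1) := by
    intro k
    rw [Finset.mul_sum]
    refine Finset.sum_congr rfl fun m _ => ?_
    split_ifs <;> ring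
  rw [Finset.sum_congr rfl fun k _ => h3 k, Finset.sum_comm]
  refine Finset.sum_congr rfl fun m _ => ?_
  rw [← Finset.sum_mul, Finset.sum_sub_distrib]
  simp

/-- The bracket is skew. -/
private lemma Iv_skew {n : ℕ} [NeZero n] (h2 : S_P0) (f g : Ix n → ℂ)
    (hf : ∀ k, ∑ l, ((P0 n k l : ℝ) : ℂ) * f l = 0) :
    ∑ k, ∑ l, f k * ((P0 n k l : ℝ) : ℂ) * g l = 0 := by
  rw [Finset.sum_comm]
  refine Finset.sum_eq_zero fun l _ => ?_
  have h : ∀ k, f k * ((P0 n k l : ℝ) : ℂ) * g l = -g l * (((P0 n l k : ℝ) : ℂ) * f k) := by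
    intro k
    rw [(h2 n).1 l k]
    push_cast
    ring
  rw [Finset.sum_congr rfl fun k _ => h k, ← Finset.mul_sum, hf l, mul_zero]

/-- The first `n + 2` functions are Casimirs. -/
private lemma Iv_cas {n : ℕ} [NeZero n] (θ : Ix n → ℂ) (i : ℕ) (hi : i < n + 2) (k : Ix n) :
    ∑ l, ((P0 n k l : ℝ) : ℂ) * fr θ i l = 0 := by
  obtain ⟨k, y⟩ := k
  have hs : ∀ c : ℂ, ∑ m : Fin n,
      ((if k = m then (1 : ℂ) else 0) - (if k = m + 1 then 1 else 0)) * c = 0 := by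
    intro c
    rw [← Finset.sum_mul, Finset.sum_sub_distrib]
    have e1 : ∑ m : Fin n, (if k = m then (1 : ℂ) else 0) = 1 := by simp
    have e2 : ∑ m : Fin n, (if k = m + 1 then (1 : ℂ) else 0) = 1 := by
      have : ∀ m : Fin n, (if k = m + 1 then (1 : ℂ) else 0) = if m = k - 1 then 1 else 0 := by
        intro m
        by_cases h : k = m + 1
        · rw [if_pos h, if_pos (by rw [h]; simp)]
        · rw [if_neg h, if_neg]
          intro h'
          exact h (by rw [h']; simp)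
      rw [Finset.sum_congr rfl fun m _ => this m]
      simp
    rw [e1, e2]
    ring
  have h0 : ∀ m m' : Fin n, fr θ i (m, 0) = fr θ i (m', 0) := by
    intro m m'
    unfold fr
    by_cases a : i < n
    · simp [a]
    · by_cases b : i = n
      · simp [b]
      · have c : i = n + 1 := by omega
        simp [c]
  have h1 : ∀ m m' : Fin n, fr θ i (m, 1) = fr θ i (m', 1) := by
    intro m m'
    unfold fr
    by_cases a : i < n
    · simp [a]
    · by_cases b : i = n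
      · simp [b]
      · have c : i = n + 1 := by omega
        simp [c]
  fin_cases y
  · refine (Iv_row (fr θ i) k).1.trans ?_
    refine (Finset.sum_congr rfl fun m _ => ?_).trans (hs (fr θ i (k, 1)))
    rw [h1 m k]
  · refine (Iv_row (fr θ i) k).2.1.trans ?_
    rw [h0 (k + 1) k, sub_self]
  · exact (Iv_row (fr θ i) k).2.2

/-- The identity of one site. -/
private lemma Iv_alg (x z α ρ c H Ht b c' d B C D bt ct' dt Bt Ct Dt : ℂ)
    (h1 : ρ * B = H - D - d - (x - α) * b) (h1t : ρ * Bt = Ht - Dt - dt - (z - α) * bt)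
    (h2 : C = ρ * (D - d + (α - c) * b)) (h2t : Ct = ρ * (Dt - dt + (α - c) * bt))
    (h3 : c' = (x - α) * (d - D) + ρ * B * (α - c))
    (h3t : ct' = (z - α) * (dt - Dt) + ρ * Bt * (α - c)) :
    (x - z) * ((B - b) * Dt + D * (bt - Bt)) =
      (Bt * C + B * Ct - Ht * D - H * Dt + 2 * D * Dt + (x - z) * (B * Dt - D * Bt)) -
      (bt * c' + b * ct' - Ht * d - H * dt + 2 * d * dt + (x - z) * (b * dt - d * bt)) := by
  linear_combination (-Bt) * h2 - B * h2t - (Dt - dt) * h1 - (D - d) * h1t + bt * h3 + b * h3t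

/-- The relations of one site. -/
private lemma Iv_site (N N' : Matrix (Fin 2) (Fin 2) ℂ) (x α ρ c H : ℂ)
    (h : N' * Lx α ρ c x = Lx α ρ c x * N) (ht : N.trace = H) (ht' : N'.trace = H) :
    ρ * N' 0 1 = H - N' 1 1 - N 1 1 - (x - α) * N 0 1 ∧
      N' 1 0 = ρ * (N' 1 1 - N 1 1 + (α - c) * N 0 1) ∧
      N 1 0 = (x - α) * (N 1 1 - N' 1 1) + ρ * N' 0 1 * (α - c) := by
  rw [Matrix.trace_fin_two] at ht ht'
  have e00 := congrFun (congrFun h 0) 0
  have e01 := congrFun (congrFun h 0) 1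
  have e11 := congrFun (congrFun h 1) 1
  simp only [Matrix.mul_apply, Fin.sum_univ_two, Lx, Matrix.of_apply, Matrix.cons_val', Matrix.cons_val_zero,
    Matrix.cons_val_one, Matrix.cons_val_fin_one] at e00 e01 e11
  refine ⟨?_, ?_, ?_⟩
  · linear_combination ht' - e01
  · linear_combination e11
  · linear_combination (x - α) * (ht' - ht) - e00

theorem sIv (h1 : S_Nm) (h2 : S_P0) : S_Iv := by
  intro n _ θ i j
  refine ⟨fun hi k => Iv_cas θ i hi k, ?_⟩
  by_cases hj : j < n + 2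
  · refine Finset.sum_eq_zero fun k _ => ?_
    have : ∀ l, fr θ i k * ((P0 n k l : ℝ) : ℂ) * fr θ j l =
        fr θ i k * (((P0 n k l : ℝ) : ℂ) * fr θ j l) := fun l => mul_assoc _ _ _
    rw [Finset.sum_congr rfl fun l _ => this l, ← Finset.mul_sum, Iv_cas θ j hj k, mul_zero]
  by_cases hi : i < n + 2
  · exact Iv_skew h2 _ _ fun k => Iv_cas θ i hi k
  have fri : ∀ q : ℕ, ¬ q < n + 2 → ∀ l, fr θ q l = gr θ ((q - (n + 2) : ℕ) : ℂ) l := by
    intro q hq l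
    unfold fr
    rw [if_neg (by omega), if_neg (by omega), if_neg (by omega)]
  simp only [fri i hi, fri j hj]
  generalize ((i - (n + 2) : ℕ) : ℂ) = x
  generalize ((j - (n + 2) : ℕ) : ℂ) = z
  rw [Iv_br]
  by_cases hxz : x = z
  · subst hxz
    refine Finset.sum_eq_zero fun m _ => ?_
    ring
  -- periodicity
  have per : ∀ (x : ℂ) (m : ℤ), Nm θ x (((rs n m : Fin n) : ℕ) : ℤ) = Nm θ x m := by
    intro x m
    have hN := h1 ℂ n θ x
    have : ∀ q : ℕ, Nc θ x (((rs n m : Fin n) : ℕ) : ℤ) q = Nc θ x m q := by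
      intro q
      induction q with
      | zero => rfl
      | succ q ih =>
        have e : Lc θ x ((((rs n m : Fin n) : ℕ) : ℤ) + (q : ℤ)) = Lc θ x (m + q) := by
          unfold Lc
          rw [(hN.2.1 m q).2.1]
        show Lc θ x ((((rs n m : Fin n) : ℕ) : ℤ) + (q : ℤ)) * _ = Lc θ x (m + q) * _
        rw [ih, e]
    exact this n
  have perS : ∀ (x : ℂ) (l : Fin n), Nm θ x (((l + 1 : Fin n) : ℕ) : ℤ) = Nm θ x (((l : ℕ) : ℤ) + 1) := by
    intro x l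
    have hN := h1 ℂ n θ x
    have e : (l + 1 : Fin n) = rs n (((l : ℕ) : ℤ) + 1) := by
      rw [(hN.2.1 ((l : ℕ) : ℤ) 0).2.2, hN.1 l]
    rw [e, per]
  have per0 : ∀ x : ℂ, Nm θ x ((n : ℕ) : ℤ) = Nm θ x ((0 : ℕ) : ℤ) := by
    intro x
    have hN := h1 ℂ n θ x
    rw [← per x ((n : ℕ) : ℤ), ← per x ((0 : ℕ) : ℤ)]
    have e : rs n ((n : ℕ) : ℤ) = rs n ((0 : ℕ) : ℤ) := by
      have := (hN.2.1 0 0).1
      rw [zero_add] at this
      simpa using this
    rw [e]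
  let K : ℕ → ℂ := fun m =>
    Nm θ z m 0 1 * Nm θ x m 1 0 + Nm θ x m 0 1 * Nm θ z m 1 0 - Hx θ z * Nm θ x m 1 1 -
      Hx θ x * Nm θ z m 1 1 + 2 * Nm θ x m 1 1 * Nm θ z m 1 1 +
      (x - z) * (Nm θ x m 0 1 * Nm θ z m 1 1 - Nm θ x m 1 1 * Nm θ z m 0 1)
  have hK : K n = K 0 := by
    simp only [K]
    rw [per0 x, per0 z]
  let F : ℕ → ℂ := fun m => (Nm θ x ((m : ℤ) + 1) 0 1 - Nm θ x m 0 1) * Nm θ z ((m : ℤ) + 1) 1 1 +
    Nm θ x ((m : ℤ) + 1) 1 1 * (Nm θ z m 0 1 - Nm θ z ((m : ℤ) + 1) 0 1)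
  have step : ∀ m : ℕ, (x - z) * F m = K (m + 1) - K m := by
    intro m
    have hx := h1 ℂ n θ x
    have hz := h1 ℂ n θ z
    obtain ⟨a1, a2, a3⟩ := Iv_site (Nm θ x m) (Nm θ x ((m : ℤ) + 1)) x (θ (rs n m, 0)) (θ (rs n m, 1))
      (θ (rs n m, 2)) (Hx θ x) (hx.2.2.2.2.1 m).2 (hx.2.2.2.2.2.1 m).1 (hx.2.2.2.2.2.1 _).1
    obtain ⟨b1, b2, b3⟩ := Iv_site (Nm θ z m) (Nm θ z ((m : ℤ) + 1)) z (θ (rs n m, 0)) (θ (rs n m, 1))
      (θ (rs n m, 2)) (Hx θ z) (hz.2.2.2.2.1 m).2 (hz.2.2.2.2.2.1 m).1 (hz.2.2.2.2.2.1 _).1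
    have := Iv_alg x z (θ (rs n m, 0)) (θ (rs n m, 1)) (θ (rs n m, 2)) (Hx θ x) (Hx θ z)
      (Nm θ x m 0 1) (Nm θ x m 1 0) (Nm θ x m 1 1) (Nm θ x ((m : ℤ) + 1) 0 1)
      (Nm θ x ((m : ℤ) + 1) 1 0) (Nm θ x ((m : ℤ) + 1) 1 1)
      (Nm θ z m 0 1) (Nm θ z m 1 0) (Nm θ z m 1 1) (Nm θ z ((m : ℤ) + 1) 0 1)
      (Nm θ z ((m : ℤ) + 1) 1 0) (Nm θ z ((m : ℤ) + 1) 1 1) a1 b1 a2 b2 a3 b3
    refine this.trans ?_
    simp only [K]
    push_cast
    ring
  have tot : (x - z) * ∑ m : Fin n, ((gr θ x (m, 0) - gr θ x (m + 1, 0)) * gr θ z (m, 1) +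
      gr θ x (m, 1) * (gr θ z (m + 1, 0) - gr θ z (m, 0))) = 0 := by
    have e : ∀ m : Fin n, (gr θ x (m, 0) - gr θ x (m + 1, 0)) * gr θ z (m, 1) +
        gr θ x (m, 1) * (gr θ z (m + 1, 0) - gr θ z (m, 0)) =
        F (m : ℕ) := by
      intro m
      have g0 : ∀ (y : ℂ) (l : Fin n), gr θ y (l, 0) = -Nm θ y (l : ℕ) 0 1 := by
        intro y l
        simp [gr]
      have g1 : ∀ (y : ℂ) (l : Fin n), gr θ y (l, 1) = Nm θ y ((l : ℕ) + 1) 1 1 := by
        intro y l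
        simp [gr]
      rw [g0, g0, g0, g0, g1, g1, perS x m, perS z m]
      simp only [F]
      ring
    rw [Finset.sum_congr rfl fun m _ => e m, Fin.sum_univ_eq_sum_range F n, Finset.mul_sum,
      Finset.sum_congr rfl fun m _ => step m, Finset.sum_range_sub, hK, sub_self]
  exact (mul_eq_zero.mp tot).resolve_left (sub_ne_zero.mpr hxz)

end Pool.Agent.MP62a5ad.QN
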