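import Pool.Agent.Lib.MP_62a5ad_mp.QN.SpecA

/-!
# MP_62a5ad_mp, project QN, module Iw: the intertwiner of two markings
-/

set_option autoImplicit false
set_option linter.unusedVariables false

namespace Pool.Agent.MP62a5ad.QN

open Matrix

/-! The polynomials `J' J / μ` (entries of the matrix of rank one): `u`, `v` and `C`, `E` are the
coefficients of `Q` and `Q'`. -/

section
variable {K : Type} [Field K]

private def Iw_n11 (w0 w1 w2 w3 u v C E : K) : K :=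
  w1 * w2 * w3 * v + E * (w1 * w2 + w1 * w3 + w2 * w3 - E) -
    (w1 + w2 + w3 + u) * (w0 * (w1 * w2 + w1 * w3 + w2 * w3) - w0 * E + C * v)

private def Iw_n12 (w0 w1 w2 w3 u v C E : K) : K :=
  -(w0 * (w1 * w2 + w1 * w3 + w2 * w3 - E) * (w1 * w2 + w1 * w3 + w2 * w3 - C) +
    (w1 * w2 + w1 * w3 + w2 * w3 - E) * E * u + (w1 * w2 + w1 * w3 + w2 * w3 - C) * C * v +
      w1 * w2 * w3 * u * v)

private def Iw_n21 (w0 w1 w2 w3 u v C E : K) : K :=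
  w1 * w2 * w3 - C * (w1 + w2 + w3 + u) - E * (w1 + w2 + w3 + v) +
    w0 * (w1 + w2 + w3 + u) * (w1 + w2 + w3 + v)

private def Iw_n22 (w0 w1 w2 w3 u v C E : K) : K :=
  -(C * (w1 * w2 + w1 * w3 + w2 * w3 - C) + w1 * w2 * w3 * u -
    (w1 + w2 + w3 + v) * (w0 * (w1 * w2 + w1 * w3 + w2 * w3 - C) + E * u))

private theorem Iw_a11 {w0 w1 w2 w3 s t u v C E η : K}
    (c3 : η * (u + v) = 1 + η * (-(w0 + w1 + w2 + w3)))
    (c2 : η * (C + E + u * v) =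
      -(s + t) + η * (w0 * w1 + w0 * w2 + w0 * w3 + w1 * w2 + w1 * w3 + w2 * w3))
    (c1 : η * (u * E + v * C) =
      s * t + η * (-(w0 * w1 * w2 + w0 * w1 * w3 + w0 * w2 * w3 + w1 * w2 * w3)))
    (c0 : C * E = w0 * w1 * w2 * w3) :
    η * (Iw_n11 w1 w0 w2 w3 u v C E - Iw_n11 w0 w1 w2 w3 u v C E) =
      (w0 - w1) * (w2 * w3 - s * t) := by
  unfold Iw_n11
  grind

private theorem Iw_a12 {w0 w1 w2 w3 s t u v C E η : K}
    (c3 : η * (u + v) = 1 + η * (-(w0 + w1 + w2 + w3)))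
    (c2 : η * (C + E + u * v) =
      -(s + t) + η * (w0 * w1 + w0 * w2 + w0 * w3 + w1 * w2 + w1 * w3 + w2 * w3))
    (c1 : η * (u * E + v * C) =
      s * t + η * (-(w0 * w1 * w2 + w0 * w1 * w3 + w0 * w2 * w3 + w1 * w2 * w3)))
    (c0 : C * E = w0 * w1 * w2 * w3) :
    η * (Iw_n12 w1 w0 w2 w3 u v C E - Iw_n12 w0 w1 w2 w3 u v C E) =
      (w0 - w1) * (w2 * w3 * (s + t) - s * t * (w2 + w3)) := by
  unfold Iw_n12
  grind

private theorem Iw_a21 {w0 w1 w2 w3 s t u v C E η : K}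
    (c3 : η * (u + v) = 1 + η * (-(w0 + w1 + w2 + w3)))
    (c2 : η * (C + E + u * v) =
      -(s + t) + η * (w0 * w1 + w0 * w2 + w0 * w3 + w1 * w2 + w1 * w3 + w2 * w3))
    (c1 : η * (u * E + v * C) =
      s * t + η * (-(w0 * w1 * w2 + w0 * w1 * w3 + w0 * w2 * w3 + w1 * w2 * w3)))
    (c0 : C * E = w0 * w1 * w2 * w3) :
    η * (Iw_n21 w1 w0 w2 w3 u v C E - Iw_n21 w0 w1 w2 w3 u v C E) =
      (w0 - w1) * (s + t - w2 - w3) := by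
  unfold Iw_n21
  grind

private theorem Iw_a22 {w0 w1 w2 w3 s t u v C E η : K}
    (c3 : η * (u + v) = 1 + η * (-(w0 + w1 + w2 + w3)))
    (c2 : η * (C + E + u * v) =
      -(s + t) + η * (w0 * w1 + w0 * w2 + w0 * w3 + w1 * w2 + w1 * w3 + w2 * w3))
    (c1 : η * (u * E + v * C) =
      s * t + η * (-(w0 * w1 * w2 + w0 * w1 * w3 + w0 * w2 * w3 + w1 * w2 * w3)))
    (c0 : C * E = w0 * w1 * w2 * w3) :
    η * (Iw_n22 w1 w0 w2 w3 u v C E - Iw_n22 w0 w1 w2 w3 u v C E) =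
      -((w0 - w1) * (w2 * w3 - s * t)) := by
  unfold Iw_n22
  grind

private theorem Iw_b11 {w0 w1 w2 w3 u v C E : K}
    (c0 : C * E = w0 * w1 * w2 * w3) :
    Iw_n11 w1 w0 w2 w3 u v C E *
        (-(C + E - (w0 * w3 + w1 * w2)) * w3 + (C + E - (w0 * w2 + w1 * w3)) * w2) +
      Iw_n12 w1 w0 w2 w3 u v C E *
        (w0 * w2 + w1 * w3 - (w0 * w3 + w1 * w2)) =
    (-(C + E - (w0 * w3 + w1 * w2)) * w3 + (C + E - (w0 * w2 + w1 * w3)) * w2) *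
        Iw_n11 w0 w1 w2 w3 u v C E +
      ((w0 * w3 + w1 * w2 - (w0 * w2 + w1 * w3)) * (w2 * w3)) *
        Iw_n21 w0 w1 w2 w3 u v C E := by
  unfold Iw_n11 Iw_n12 Iw_n21 
  grind

private theorem Iw_b12 {w0 w1 w2 w3 u v C E : K}
    (c0 : C * E = w0 * w1 * w2 * w3) :
    Iw_n11 w1 w0 w2 w3 u v C E *
        ((w0 * w3 + w1 * w2 - (w0 * w2 + w1 * w3)) * (w2 * w3)) +
      Iw_n12 w1 w0 w2 w3 u v C E *
        ((C + E - (w0 * w3 + w1 * w2)) * w2 - (C + E - (w0 * w2 + w1 * w3)) * w3) =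
    (-(C + E - (w0 * w3 + w1 * w2)) * w3 + (C + E - (w0 * w2 + w1 * w3)) * w2) *
        Iw_n12 w0 w1 w2 w3 u v C E +
      ((w0 * w3 + w1 * w2 - (w0 * w2 + w1 * w3)) * (w2 * w3)) *
        Iw_n22 w0 w1 w2 w3 u v C E := by
  unfold Iw_n11 Iw_n12 Iw_n22 
  grind

private theorem Iw_b21 {w0 w1 w2 w3 u v C E : K}
    (c0 : C * E = w0 * w1 * w2 * w3) :
    Iw_n21 w1 w0 w2 w3 u v C E *
        (-(C + E - (w0 * w3 + w1 * w2)) * w3 + (C + E - (w0 * w2 + w1 * w3)) * w2) +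
      Iw_n22 w1 w0 w2 w3 u v C E *
        (w0 * w2 + w1 * w3 - (w0 * w3 + w1 * w2)) =
    (w0 * w2 + w1 * w3 - (w0 * w3 + w1 * w2)) *
        Iw_n11 w0 w1 w2 w3 u v C E +
      ((C + E - (w0 * w3 + w1 * w2)) * w2 - (C + E - (w0 * w2 + w1 * w3)) * w3) *
        Iw_n21 w0 w1 w2 w3 u v C E := by
  unfold Iw_n21 Iw_n22 Iw_n11 
  grind

private theorem Iw_b22 {w0 w1 w2 w3 u v C E : K}
    (c0 : C * E = w0 * w1 * w2 * w3) :
    Iw_n21 w1 w0 w2 w3 u v C E *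
        ((w0 * w3 + w1 * w2 - (w0 * w2 + w1 * w3)) * (w2 * w3)) +
      Iw_n22 w1 w0 w2 w3 u v C E *
        ((C + E - (w0 * w3 + w1 * w2)) * w2 - (C + E - (w0 * w2 + w1 * w3)) * w3) =
    (w0 * w2 + w1 * w3 - (w0 * w3 + w1 * w2)) *
        Iw_n12 w0 w1 w2 w3 u v C E +
      ((C + E - (w0 * w3 + w1 * w2)) * w2 - (C + E - (w0 * w2 + w1 * w3)) * w3) *
        Iw_n22 w0 w1 w2 w3 u v C E := by
  unfold Iw_n21 Iw_n22 Iw_n12 
  grind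


private theorem Iw_c (w0 w1 w2 w3 u v C E η : K) (h0 : w0 ≠ 0)
    (c0 : C * E = w0 * w1 * w2 * w3) :
    η / w0 * ((w0 * (w1 * w2 + w1 * w3 + w2 * w3) + C * v - w0 * E) *
      (E - w0 * (w1 + w2 + w3 + u))) = η * Iw_n11 w0 w1 w2 w3 u v C E ∧
    η / w0 * (-((w0 * (w1 * w2 + w1 * w3 + w2 * w3) + C * v - w0 * E) *
      (w0 * (w1 * w2 + w1 * w3 + w2 * w3) + E * u - w0 * C))) = η * Iw_n12 w0 w1 w2 w3 u v C E ∧
    η / w0 * ((C - w0 * (w1 + w2 + w3 + v)) * (E - w0 * (w1 + w2 + w3 + u))) =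
      η * Iw_n21 w0 w1 w2 w3 u v C E ∧
    η / w0 * (-((C - w0 * (w1 + w2 + w3 + v)) *
      (w0 * (w1 * w2 + w1 * w3 + w2 * w3) + E * u - w0 * C))) = η * Iw_n22 w0 w1 w2 w3 u v C E := by
  have hd : ∀ a b : K, a = w0 * b → η / w0 * a = η * b := by
    intro a b hab
    rw [hab, ← mul_assoc, div_mul_cancel₀ _ h0]
  refine ⟨hd _ _ ?_, hd _ _ ?_, hd _ _ ?_, hd _ _ ?_⟩
  · unfold Iw_n11
    linear_combination v * c0
  · unfold Iw_n12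
    linear_combination (-u * v) * c0
  · unfold Iw_n21
    linear_combination c0
  · unfold Iw_n22
    linear_combination (-u) * c0

end


theorem sIw (h1 : S_Rel) (h2 : S_Jx) (h3 : S_Nz) : S_Iw := by
  intro K _ w D H τ hw hinj hok m x
  have hr := hok.rel (τ - 1) m le_rfl (by omega)
  rw [sub_add_cancel] at hr
  obtain ⟨c3, c2, c1, c0⟩ := hr
  have p3 : pw w 3 = -(w 0 + w 1 + w 2 + w 3) := rfl
  have p2 : pw w 2 = w 0 * w 1 + w 0 * w 2 + w 0 * w 3 + w 1 * w 2 + w 1 * w 3 + w 2 * w 3 := rfl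
  have p1 : pw w 1 = -(w 0 * w 1 * w 2 + w 0 * w 1 * w 3 + w 0 * w 2 * w 3 + w 1 * w 2 * w 3) := rfl
  have p0 : pw w 0 = w 0 * w 1 * w 2 * w 3 := rfl
  rw [p3] at c3
  rw [p2] at c2
  rw [p1] at c1
  rw [p0] at c0
  have hp : w 0 * w 1 * w 2 * w 3 ≠ 0 :=
    mul_ne_zero (mul_ne_zero (mul_ne_zero (hw 0) (hw 1)) (hw 2)) (hw 3)
  have hE : D (τ - 1) m 2 ≠ 0 := by
    intro h
    rw [h, zero_mul] at c0
    exact hp c0.symm
  have hC : D τ m 2 ≠ 0 := by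
    intro h
    rw [h, mul_zero] at c0
    exact hp c0.symm
  obtain ⟨s, hs⟩ : ∃ s, s = D τ m 0 := ⟨_, rfl⟩
  obtain ⟨t, ht⟩ : ∃ s, s = D (τ - 1) (m + 1) 0 := ⟨_, rfl⟩
  obtain ⟨u, hu⟩ : ∃ s, s = D τ m 1 := ⟨_, rfl⟩
  obtain ⟨v, hv⟩ : ∃ s, s = D (τ - 1) m 1 := ⟨_, rfl⟩
  obtain ⟨C, hCC⟩ : ∃ s, s = D τ m 2 := ⟨_, rfl⟩
  obtain ⟨E, hEE⟩ : ∃ s, s = D (τ - 1) m 2 := ⟨_, rfl⟩
  obtain ⟨η, hη⟩ : ∃ s, s = H (τ - 1) m := ⟨_, rfl⟩
  obtain ⟨w0, hw0⟩ : ∃ s, s = w 0 := ⟨_, rfl⟩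
  obtain ⟨w1, hw1⟩ : ∃ s, s = w 1 := ⟨_, rfl⟩
  obtain ⟨w2, hw2⟩ : ∃ s, s = w 2 := ⟨_, rfl⟩
  obtain ⟨w3, hw3⟩ : ∃ s, s = w 3 := ⟨_, rfl⟩
  have h00 : w0 ≠ 0 := by rw [hw0]; exact hw 0
  have h01 : w1 ≠ 0 := by rw [hw1]; exact hw 1
  rw [← hEE] at hE
  rw [← hCC] at hC
  rw [← hv, ← hu, ← hη, ← hw0, ← hw1, ← hw2, ← hw3] at c3
  rw [← hEE, ← hCC, ← hv, ← hu, ← hη, ← hw0, ← hw1, ← hw2, ← hw3, ← ht, ← hs] at c2
  rw [← hEE, ← hCC, ← hv, ← hu, ← hη, ← hw0, ← hw1, ← hw2, ← hw3, ← ht, ← hs] at c1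
  rw [← hEE, ← hCC, ← hw0, ← hw1, ← hw2, ← hw3] at c0
  have d3 : η * (u + v) = 1 + η * (-(w0 + w1 + w2 + w3)) := by rw [add_comm u v]; exact c3
  have d2 : η * (C + E + u * v) =
      -(s + t) + η * (w0 * w1 + w0 * w2 + w0 * w3 + w1 * w2 + w1 * w3 + w2 * w3) := by
    linear_combination c2
  have d1 : η * (u * E + v * C) =
      s * t + η * (-(w0 * w1 * w2 + w0 * w1 * w3 + w0 * w2 * w3 + w1 * w2 * w3)) := by
    linear_combination c1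
  have d0 : C * E = w0 * w1 * w2 * w3 := by rw [mul_comm]; exact c0
  have d0' : C * E = w1 * w0 * w2 * w3 := by rw [d0]; ring
  have hCd : w0 * w1 * w2 * w3 / C = E := by rw [← d0, mul_div_cancel_left₀ _ hC]
  have hEd : w0 * w1 * w2 * w3 / E = C := by rw [← d0, mul_div_cancel_right₀ _ hE]
  have hCd' : w1 * w0 * w2 * w3 / C = E := by rw [← d0', mul_div_cancel_left₀ _ hC]
  have hEd' : w1 * w0 * w2 * w3 / E = C := by rw [← d0', mul_div_cancel_right₀ _ hE]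
  have e30 : w 0 * e3 w = w0 * w1 * w2 * w3 := by
    unfold e3
    rw [← hw0, ← hw1, ← hw2, ← hw3]
    ring
  have s0 : (w ∘ Equiv.swap 0 1) 0 = w1 := by rw [hw1]; rfl
  have s1 : (w ∘ Equiv.swap 0 1) 1 = w0 := by rw [hw0]; rfl
  have s2 : (w ∘ Equiv.swap 0 1) 2 = w2 := by rw [hw2]; rfl
  have s3 : (w ∘ Equiv.swap 0 1) 3 = w3 := by rw [hw3]; rfl
  have e31 : (w ∘ Equiv.swap 0 1) 0 * e3 (w ∘ Equiv.swap 0 1) = w1 * w0 * w2 * w3 := by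
    unfold e3
    rw [s0, s1, s2, s3]
    ring
  have A0 : jA w (D τ m) = E - w0 * (w1 + w2 + w3 + u) := by
    unfold jA
    rw [e30, ← hCC, hCd, e1, ← hw0, ← hw1, ← hw2, ← hw3, ← hu]
  have A0' : jA w (D (τ - 1) m) = C - w0 * (w1 + w2 + w3 + v) := by
    unfold jA
    rw [e30, ← hEE, hEd, e1, ← hw0, ← hw1, ← hw2, ← hw3, ← hv]
  have B0 : jB w (D τ m) = w0 * (w1 * w2 + w1 * w3 + w2 * w3) + E * u - w0 * C := by
    unfold jB
    rw [e30, ← hCC, hCd, e2, ← hw0, ← hw1, ← hw2, ← hw3, ← hu]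
  have B0' : jB w (D (τ - 1) m) = w0 * (w1 * w2 + w1 * w3 + w2 * w3) + C * v - w0 * E := by
    unfold jB
    rw [e30, ← hEE, hEd, e2, ← hw0, ← hw1, ← hw2, ← hw3, ← hv]
  have A1 : jA (w ∘ Equiv.swap 0 1) (D τ m) = E - w1 * (w0 + w2 + w3 + u) := by
    unfold jA
    rw [e31, ← hCC, hCd', e1, s0, s1, s2, s3, ← hu]
  have A1' : jA (w ∘ Equiv.swap 0 1) (D (τ - 1) m) = C - w1 * (w0 + w2 + w3 + v) := by
    unfold jA
    rw [e31, ← hEE, hEd', e1, s0, s1, s2, s3, ← hv]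
  have B1 : jB (w ∘ Equiv.swap 0 1) (D τ m) =
      w1 * (w0 * w2 + w0 * w3 + w2 * w3) + E * u - w1 * C := by
    unfold jB
    rw [e31, ← hCC, hCd', e2, s0, s1, s2, s3, ← hu]
  have B1' : jB (w ∘ Equiv.swap 0 1) (D (τ - 1) m) =
      w1 * (w0 * w2 + w0 * w3 + w2 * w3) + C * v - w1 * E := by
    unfold jB
    rw [e31, ← hEE, hEd', e2, s0, s1, s2, s3, ← hv]
  have k0 : cst w D τ m = C + E := by
    unfold cst
    rw [e30, ← hCC, hCd]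
  have k1 : cst (w ∘ Equiv.swap 0 1) D τ m = C + E := by
    unfold cst
    rw [e31, ← hCC, hCd']
  obtain ⟨n11, n12, n21, n22⟩ := Iw_c w0 w1 w2 w3 u v C E η h00 d0
  obtain ⟨m11, m12, m21, m22⟩ := Iw_c w1 w0 w2 w3 u v C E η h01 d0'
  have T0 : Tx w D H τ m x = !![(x - (C + E)) * (-s) - η * Iw_n11 w0 w1 w2 w3 u v C E,
      (x - (C + E)) * (-(s * t)) - η * Iw_n12 w0 w1 w2 w3 u v C E;
      (x - (C + E)) * 1 - η * Iw_n21 w0 w1 w2 w3 u v C E,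
      (x - (C + E)) * t - η * Iw_n22 w0 w1 w2 w3 u v C E] := by
    unfold Tx
    rw [k0, A0, A0', B0, B0', ← hs, ← ht, ← hη, ← hw0, ← n11, ← n12, ← n21, ← n22]
    ext i j
    fin_cases i <;> fin_cases j <;> rfl
  have T1 : Tx (w ∘ Equiv.swap 0 1) D H τ m x =
      !![(x - (C + E)) * (-s) - η * Iw_n11 w1 w0 w2 w3 u v C E,
      (x - (C + E)) * (-(s * t)) - η * Iw_n12 w1 w0 w2 w3 u v C E;
      (x - (C + E)) * 1 - η * Iw_n21 w1 w0 w2 w3 u v C E,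
      (x - (C + E)) * t - η * Iw_n22 w1 w0 w2 w3 u v C E] := by
    unfold Tx
    rw [k1, A1, A1', B1, B1', ← hs, ← ht, ← hη, s0, ← m11, ← m12, ← m21, ← m22]
    ext i j
    fin_cases i <;> fin_cases j <;> rfl
  have a11 := Iw_a11 d3 d2 d1 d0
  have a12 := Iw_a12 d3 d2 d1 d0
  have a21 := Iw_a21 d3 d2 d1 d0
  have a22 := Iw_a22 d3 d2 d1 d0
  have b11 := Iw_b11 (u := u) (v := v) d0
  have b12 := Iw_b12 (u := u) (v := v) d0
  have b21 := Iw_b21 (u := u) (v := v) d0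
  have b22 := Iw_b22 (u := u) (v := v) d0
  rw [T0, T1]
  unfold Wx
  rw [← hw0, ← hw1, ← hw2, ← hw3]
  ext i j
  fin_cases i <;> fin_cases j <;>
    simp only [Matrix.mul_apply, Fin.sum_univ_two, Matrix.of_apply, Matrix.cons_val', Matrix.cons_val_zero, Matrix.cons_val_one, Fin.zero_eta, Fin.mk_one, Matrix.cons_val_fin_one, Fin.isValue]
  · linear_combination (-(x - (C + E)) * (w2 - w3)) * a11 - η * b11
  · linear_combination (-(x - (C + E)) * (w2 - w3)) * a12 - η * b12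
  · linear_combination (-(x - (C + E)) * (w2 - w3)) * a21 - η * b21
  · linear_combination (-(x - (C + E)) * (w2 - w3)) * a22 - η * b22

end Pool.Agent.MP62a5ad.QN
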