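import Pool.Agent.Lib.MP_62a5ad_mp.QN.SpecE

/-!
# MP_62a5ad_mp, project QN, module Jb: the data are determined
-/

set_option autoImplicit false

namespace Pool.Agent.MP62a5ad.QN

open Matrix
open scoped ContDiff
open Pool.Agent.MP62a5ad.PN (V4 M4 e0)

private theorem Jb_div {n : ℕ} {O : Set (E n)} {f g : E n → ℂ} (hf : ContDiffOn ℝ ∞ f O)
    (hg : ContDiffOn ℝ ∞ g O) (h0 : ∀ y ∈ O, g y ≠ 0) : ContDiffOn ℝ ∞ (fun y => f y / g y) O := by
  simp only [div_eq_mul_inv]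
  exact hf.mul (ContDiffOn.inv hg h0)

/-- The residue. -/
private theorem Jb_rs (n : ℕ) [NeZero n] (k : ℤ) : ((rs n k : Fin n) : ℤ) = k % n := by
  have hn : (0 : ℤ) < n := by exact_mod_cast Nat.pos_of_ne_zero (NeZero.ne n)
  have h1 : 0 ≤ k % (n : ℤ) := Int.emod_nonneg _ hn.ne'
  have h2 : k % (n : ℤ) < n := Int.emod_lt_of_pos _ hn
  have h3 : (k % (n : ℤ)).toNat < n := by omega
  have h4 : ((rs n k : Fin n) : ℕ) = (k % (n : ℤ)).toNat := by
    unfold rs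
    rw [Fin.ofNat_eq_cast, Fin.val_natCast, Nat.mod_eq_of_lt h3]
  rw [h4]
  exact Int.toNat_of_nonneg h1

private theorem Jb_per {X : Type} (n : ℕ) [NeZero n] (f : ℤ → X) (h : ∀ k, f (k + n) = f k) (k : ℤ) :
    f (((rs n k : Fin n) : ℕ) : ℤ) = f k := by
  have h1 : Function.Periodic f (n : ℤ) := h
  rw [Jb_rs]
  have h2 : k % (n : ℤ) = k - (k / (n : ℤ)) • (n : ℤ) := by
    rw [smul_eq_mul, Int.emod_def, mul_comm]
  rw [h2]
  exact h1.sub_zsmul_eq (k / (n : ℤ))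

/-- The facts at a point. -/
private structure Jb_P (w : Fin 4 → ℂ) (D : ℤ → ℤ → Fin 3 → ℂ) (H : ℤ → ℤ → ℂ) : Prop where
  w0 : ∀ i, w i ≠ 0
  s0 : ∀ k i, w i ≠ D 0 k 0
  c0 : ∀ k, D 0 k 2 ≠ 0
  q1 : ∀ k i, qv (D (-1) k) (w i) ≠ 0
  q0 : ∀ k i, qv (D 0 k) (w i) ≠ 0
  jj : ∀ k, jv w (D 0 k) (D 0 k 0) ≠ 0
  ga : ∀ k, gam w D 0 k ≠ 0
  nd : ∀ k, D (-1) k 0 ≠ D 0 k 0
  hh : ∀ k, H (-1) k ≠ 0
  ji : ∀ k i, i ≠ 0 → jv w (D 0 k) (w i) ≠ 0
  rw : ∀ k i, i ≠ 0 → Rw w D 0 k (w i) ≠ 0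

private theorem Jb_pt (h5 : S_Nz) (w : Fin 4 → ℂ) (D : ℤ → ℤ → Fin 3 → ℂ) (H : ℤ → ℤ → ℂ)
    (hw : ∀ i, w i ≠ 0) (ok : Ok (pw w) D H (-1) 0)
    (hc : ∀ k i, i ≠ 0 → chi w (w i) ≠ cst w D 0 k) : Jb_P w D H := by
  obtain ⟨a1, a2⟩ := h5 ℂ w D H (-1) 0 hw ok
  have b := fun k => a2 (-1) k le_rfl (by norm_num)
  have e1 : (-1 + 1 : ℤ) = 0 := by norm_num
  rw [e1] at b
  refine ⟨hw, fun k i => a1 0 k (by norm_num) le_rfl i, fun k => (b k).2.1,
    fun k i => ((b k).2.2.2.2.2.1 i).1, fun k i => ((b k).2.2.2.2.2.1 i).2, fun k => ?_, fun k => ?_,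
    fun k => ?_, fun k => ?_, fun k i hi => ?_, fun k i hi => ?_⟩
  · exact (b k).2.2.2.2.2.2.2.2.2.2.2.2.2.1
  · exact (b k).2.2.2.2.2.2.2.2.2.2.2.2.2.2.1
  · have := ok.nd (-1) k le_rfl (by norm_num)
    rwa [e1] at this
  · exact ok.eta (-1) k le_rfl (by norm_num)
  · have hk : chi w (w i) ≠ cst w D (-1) k := by
      have := hc k i hi
      rwa [(b k).2.2.2.1] at this
    exact ((b k).2.2.2.2.2.2.2.2.2.2.2.2.2.2.2.2.2 i hi hk).2.1
  · have hk : chi w (w i) ≠ cst w D (-1) k := by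
      have := hc k i hi
      rwa [(b k).2.2.2.1] at this
    exact ((b k).2.2.2.2.2.2.2.2.2.2.2.2.2.2.2.2.2 i hi hk).2.2

section

variable {w : Fin 4 → ℂ} {D : ℤ → ℤ → Fin 3 → ℂ} {H : ℤ → ℤ → ℂ} {N : ℤ}

private theorem Jb_gamP (hD : ∀ σ k, D σ (k + N) = D σ k) (τ k : ℤ) :
    gam w D τ (k + N) = gam w D τ k := by
  unfold gam; simp only [hD]

private theorem Jb_dltP (hD : ∀ σ k, D σ (k + N) = D σ k) (τ k : ℤ) :
    dlt w D τ (k + N) = dlt w D τ k := by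
  have h1 : k + N - 1 = (k - 1) + N := by ring
  unfold dlt; simp only [hD, h1]

private theorem Jb_alrP (hD : ∀ σ k, D σ (k + N) = D σ k) (τ k : ℤ) :
    alr w D τ (k + N) = alr w D τ k := by
  have h1 : k + N - 1 = (k - 1) + N := by ring
  unfold alr; simp only [hD, h1, Jb_gamP hD, Jb_dltP hD]

private theorem Jb_rhoP (hD : ∀ σ k, D σ (k + N) = D σ k) (hH : ∀ σ k, H σ (k + N) = H σ k)
    (τ k : ℤ) : rho w D H τ (k + N) = rho w D H τ k := by
  have h1 : k + N + 1 = (k + 1) + N := by ring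
  unfold rho; simp only [hH, h1, Jb_gamP hD, Jb_dltP hD]

private theorem Jb_alpP (hD : ∀ σ k, D σ (k + N) = D σ k) (hH : ∀ σ k, H σ (k + N) = H σ k)
    (τ k : ℤ) : alp w D H τ (k + N) = alp w D H τ k := by
  have h1 : k + N - 1 = (k - 1) + N := by ring
  unfold alp; simp only [h1, Jb_alrP hD, Jb_rhoP hD hH]

private theorem Jb_cstP (hD : ∀ σ k, D σ (k + N) = D σ k) (τ k : ℤ) :
    cst w D τ (k + N) = cst w D τ k := by
  unfold cst; simp only [hD]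

private theorem Jb_RwP (hD : ∀ σ k, D σ (k + N) = D σ k) (τ k : ℤ) (x : ℂ) :
    Rw w D τ (k + N) x = Rw w D τ k x := by
  unfold Rw; simp only [hD, Jb_gamP hD]

end

section

variable {n : ℕ} [NeZero n] {e : ℕ} {r : ℤ} {O : Set (E n)} {m : E n → Fin 4 → ℂ}
  {D : E n → ℤ → ℤ → Fin 3 → ℂ} {H : E n → ℤ → ℤ → ℂ} {K' : E n → ℂ} {δ : ℂ}

private theorem Jb_pp (h5 : S_Nz) (h : Dta n e r O m D H K' δ) (y : E n) (hy : y ∈ O) :
    Jb_P (fun i => m y i ^ e) (D y) (H y) :=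
  Jb_pt h5 _ _ _ (fun i => pow_ne_zero _ (h.m0 y hy i)) (h.ok y hy) (h.ch y hy)

private theorem Jb_c1 (h5 : S_Nz) (h : Dta n e r O m D H K' δ) (y : E n) (hy : y ∈ O) (k : ℤ) :
    D y (-1) k 2 ≠ 0 :=
  ((h5 ℂ _ _ _ (-1) 0 (fun i => pow_ne_zero _ (h.m0 y hy i)) (h.ok y hy)).2 (-1) k le_rfl
    (by norm_num)).1

private theorem Jb_sw (h : Dta n e r O m D H K' δ) (i : Fin 4) :
    ContDiffOn ℝ ∞ (fun y => m y i ^ e) O := (h.sm i).pow e

private theorem Jb_sgam (h5 : S_Nz) (h : Dta n e r O m D H K' δ) (k : ℤ) :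
    ContDiffOn ℝ ∞ (fun y => gam (fun i => m y i ^ e) (D y) 0 k) O := by
  have s0 := h.sD 0 (Or.inl rfl) k
  have s1 := h.sD (-1) (Or.inr rfl) k
  have sw := Jb_sw h
  have := Jb_div (((sw 0).sub (s1 0)).mul ((((s0 0).pow 2).add ((s1 1).mul (s0 0))).add (s1 2)))
    (((((sw 0).pow 2).add ((s1 1).mul (sw 0))).add (s1 2)).mul ((s1 0).sub (s0 0)))
    (fun y hy => mul_ne_zero ((Jb_pp h5 h y hy).q1 k 0)
      (sub_ne_zero.mpr ((Jb_pp h5 h y hy).nd k)))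
  exact this

private theorem Jb_sdlt (h5 : S_Nz) (h : Dta n e r O m D H K' δ) (k : ℤ) :
    ContDiffOn ℝ ∞ (fun y => dlt (fun i => m y i ^ e) (D y) 0 k) O := by
  have s0 := h.sD 0 (Or.inl rfl) k
  have s2 := h.sD 0 (Or.inl rfl) (k - 1)
  have s1 := h.sD (-1) (Or.inr rfl) k
  have sw := Jb_sw h
  have := Jb_div (((sw 0).sub (s0 0)).mul ((((s1 0).pow 2).add ((s2 1).mul (s1 0))).add (s2 2)))
    (((((sw 0).pow 2).add ((s2 1).mul (sw 0))).add (s2 2)).mul ((s1 0).sub (s0 0)))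
    (fun y hy => mul_ne_zero ((Jb_pp h5 h y hy).q0 (k - 1) 0)
      (sub_ne_zero.mpr ((Jb_pp h5 h y hy).nd k)))
  exact this

private theorem Jb_se1 (h : Dta n e r O m D H K' δ) :
    ContDiffOn ℝ ∞ (fun y => e1 (fun i => m y i ^ e)) O :=
  ((Jb_sw h 1).add (Jb_sw h 2)).add (Jb_sw h 3)

private theorem Jb_se2 (h : Dta n e r O m D H K' δ) :
    ContDiffOn ℝ ∞ (fun y => e2 (fun i => m y i ^ e)) O :=
  (((Jb_sw h 1).mul (Jb_sw h 2)).add ((Jb_sw h 1).mul (Jb_sw h 3))).add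
    ((Jb_sw h 2).mul (Jb_sw h 3))

private theorem Jb_se3 (h : Dta n e r O m D H K' δ) :
    ContDiffOn ℝ ∞ (fun y => e3 (fun i => m y i ^ e)) O :=
  ((Jb_sw h 1).mul (Jb_sw h 2)).mul (Jb_sw h 3)

private theorem Jb_sjA (h : Dta n e r O m D H K' δ) (τ k : ℤ) (hτ : τ = 0 ∨ τ = -1)
    (h0 : ∀ y ∈ O, D y τ k 2 ≠ 0) :
    ContDiffOn ℝ ∞ (fun y => jA (fun i => m y i ^ e) (D y τ k)) O :=
  (Jb_div ((Jb_sw h 0).mul (Jb_se3 h)) (h.sD τ hτ k 2) h0).sub
    ((Jb_sw h 0).mul ((Jb_se1 h).add (h.sD τ hτ k 1)))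

private theorem Jb_sjB (h : Dta n e r O m D H K' δ) (τ k : ℤ) (hτ : τ = 0 ∨ τ = -1)
    (h0 : ∀ y ∈ O, D y τ k 2 ≠ 0) :
    ContDiffOn ℝ ∞ (fun y => jB (fun i => m y i ^ e) (D y τ k)) O :=
  (((Jb_sw h 0).mul (Jb_se2 h)).add
    ((Jb_div ((Jb_sw h 0).mul (Jb_se3 h)) (h.sD τ hτ k 2) h0).mul (h.sD τ hτ k 1))).sub
      ((Jb_sw h 0).mul (h.sD τ hτ k 2))

private theorem Jb_sR (h5 : S_Nz) (h : Dta n e r O m D H K' δ) (k : ℤ) (a : Fin 4) :
    ContDiffOn ℝ ∞ (fun y => Rw (fun i => m y i ^ e) (D y) 0 k (m y a ^ e)) O :=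
  Jb_div ((Jb_sgam h5 h k).mul
    (((Jb_sjA h 0 k (Or.inl rfl) fun y hy => (Jb_pp h5 h y hy).c0 k).mul (Jb_sw h a)).add
      (Jb_sjB h 0 k (Or.inl rfl) fun y hy => (Jb_pp h5 h y hy).c0 k)))
    ((Jb_sw h a).sub (h.sD 0 (Or.inl rfl) k 0))
    fun y hy => sub_ne_zero.mpr ((Jb_pp h5 h y hy).s0 k a)

private theorem Jb_salr (h5 : S_Nz) (h : Dta n e r O m D H K' δ) (k : ℤ) :
    ContDiffOn ℝ ∞ (fun y => alr (fun i => m y i ^ e) (D y) 0 k) O := by
  have s0 := h.sD 0 (Or.inl rfl) k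
  have s1 := h.sD (-1) (Or.inr rfl) k
  have := ((((((Jb_sw h 0).neg).mul ((s0 0).add (s1 0))).add ((s0 0).mul (s1 0))).add
    ((Jb_se1 h).mul (Jb_sw h 0))).sub ((Jb_sgam h5 h k).mul
      (Jb_sjA h 0 k (Or.inl rfl) fun y hy => (Jb_pp h5 h y hy).c0 k))).add
      ((Jb_sdlt h5 h k).mul (Jb_sjA h (-1) (k - 1) (Or.inr rfl) fun y hy =>
        Jb_c1 h5 h y hy (k - 1)))
  exact this

private theorem Jb_srho (h5 : S_Nz) (h : Dta n e r O m D H K' δ) (k : ℤ) :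
    ContDiffOn ℝ ∞ (fun y => rho (fun i => m y i ^ e) (D y) (H y) 0 k) O := by
  have := Jb_div (((Jb_sw h 0).mul (Jb_sgam h5 h k)).mul (Jb_sdlt h5 h (k + 1))) (h.sH k)
    (fun y hy => (Jb_pp h5 h y hy).hh k)
  exact this

private theorem Jb_salp (h5 : S_Nz) (h : Dta n e r O m D H K' δ) (k : ℤ) :
    ContDiffOn ℝ ∞ (fun y => alp (fun i => m y i ^ e) (D y) (H y) 0 k) O :=
  (Jb_salr h5 h k).sub (Jb_srho h5 h (k - 1))

private theorem Jb_scst (h5 : S_Nz) (h : Dta n e r O m D H K' δ) (k : ℤ) :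
    ContDiffOn ℝ ∞ (fun y => cst (fun i => m y i ^ e) (D y) 0 k) O :=
  (h.sD 0 (Or.inl rfl) k 2).add (Jb_div ((Jb_sw h 0).mul (Jb_se3 h)) (h.sD 0 (Or.inl rfl) k 2)
    fun y hy => (Jb_pp h5 h y hy).c0 k)

/-- The components of the chain are smooth. -/
private theorem Jb_sthd (h5 : S_Nz) (h : Dta n e r O m D H K' δ) (i : Ix n) :
    ContDiffOn ℝ ∞ (fun y => thd n e m D H y i) O := by
  unfold thd thx
  by_cases h0 : i.2 = 0
  · simp only [h0, if_true]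
    exact Jb_salp h5 h _
  · by_cases h1 : i.2 = 1
    · simp only [h1]
      exact Jb_srho h5 h _
    · simp only [h0, h1, if_false]
      exact Jb_scst h5 h _

private theorem Jb_dthd (h5 : S_Nz) (h : Dta n e r O m D H K' δ) (i : Ix n) :
    Dtm O (thd n e m D H) (fun y => thd n e m D H y i) :=
  ⟨Jb_sthd h5 h i, fun _ _ _ hw => hw i⟩

private theorem Jb_dalp (h1 : S_Dt) (h5 : S_Nz) (h : Dta n e r O m D H K' δ) (k : ℤ) :
    Dtm O (thd n e m D H) (fun y => alp (fun i => m y i ^ e) (D y) (H y) 0 k) := by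
  refine (h1 n O (thd n e m D H) h.isOpen).2.2.1 _ _ (Jb_dthd h5 h (rs n k, 0)) fun y hy => ?_
  have := Jb_per n (fun k => alp (fun i => m y i ^ e) (D y) (H y) 0 k)
    (fun k => Jb_alpP (h.pD y hy) (h.pH y hy) 0 k) k
  exact this.symm

private theorem Jb_drho (h1 : S_Dt) (h5 : S_Nz) (h : Dta n e r O m D H K' δ) (k : ℤ) :
    Dtm O (thd n e m D H) (fun y => rho (fun i => m y i ^ e) (D y) (H y) 0 k) := by
  refine (h1 n O (thd n e m D H) h.isOpen).2.2.1 _ _ (Jb_dthd h5 h (rs n k, 1)) fun y hy => ?_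
  have := Jb_per n (fun k => rho (fun i => m y i ^ e) (D y) (H y) 0 k)
    (fun k => Jb_rhoP (h.pD y hy) (h.pH y hy) 0 k) k
  exact this.symm

private theorem Jb_dcst (h1 : S_Dt) (h5 : S_Nz) (h : Dta n e r O m D H K' δ) (k : ℤ) :
    Dtm O (thd n e m D H) (fun y => cst (fun i => m y i ^ e) (D y) 0 k) := by
  refine (h1 n O (thd n e m D H) h.isOpen).2.2.1 _ _ (Jb_dthd h5 h (rs n k, 2)) fun y hy => ?_
  have := Jb_per n (fun k => cst (fun i => m y i ^ e) (D y) 0 k)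
    (fun k => Jb_cstP (h.pD y hy) 0 k) k
  exact this.symm

/-- (a) The normalised roots are determined. -/
private theorem Jb_a (h1 : S_Dt) (h : Dta n e r O m D H K' δ)
    (ha : ∀ a, a ≠ 0 → Dtm O (thd n e m D H) fun y => m y 0 * m y a) (i : Fin 4) :
    Dtm O (thd n e m D H) fun y => m y i := by
  obtain ⟨cK, cA, cC, -, -, cS, -⟩ := h1 n O (thd n e m D H) h.isOpen
  have d0 : Dtm O (thd n e m D H) fun y => m y 0 := by
    have f1 := (cA _ _ (ha 1 (by decide)) (ha 2 (by decide))).2.2.1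
    have f2 := (cA _ _ f1 (ha 3 (by decide))).2.2.1
    have f3 := (cA _ _ f2 (cK δ⁻¹)).2.2.1
    refine (cS _ (fun y => m y 0) f3 (h.sm 0) (fun y hy => h.m0 y hy 0)).1 fun y hy => ?_
    have a0 := h.m0 y hy 0
    have a1 := h.m0 y hy 1
    have a2 := h.m0 y hy 2
    have a3 := h.m0 y hy 3
    show m y 0 ^ 2 = m y 0 * m y 1 * (m y 0 * m y 2) * (m y 0 * m y 3) * δ⁻¹
    rw [← h.del y hy]
    field_simp
  by_cases hi : i = 0
  · rw [hi]; exact d0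
  · refine cC _ _ ((cA _ _ (ha i hi) d0).2.2.2.2.2 (fun y hy => h.m0 y hy 0)).2.1 fun y hy => ?_
    have a0 := h.m0 y hy 0
    show m y i = m y 0 * m y i / m y 0
    field_simp

/-- The recurrence of the derivatives. -/
private theorem Jb_eps (n : ℕ) (R R' B : ℤ → ℂ) (hR : ∀ k, R k ≠ 0)
    (hr : ∀ k, R' k * R (k - 1) ^ 2 = -B k * R' (k - 1)) (p : R n = R 0) (p' : R' n = R' 0)
    (hne : (∏ j ∈ Finset.range n, R j) ^ 2 ≠ ∏ j ∈ Finset.range n, (-B (j + 1))) :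
    ∀ N : ℕ, R' N = 0 := by
  have key : ∀ N : ℕ, R' N / R N * ((∏ j ∈ Finset.range N, R (j + 1)) *
      ∏ j ∈ Finset.range N, R j) = (∏ j ∈ Finset.range N, (-B (j + 1))) * (R' 0 / R 0) := by
    intro N
    induction N with
    | zero => simp
    | succ N ih =>
      rw [Finset.prod_range_succ, Finset.prod_range_succ, Finset.prod_range_succ]
      have h1 := hr (N + 1)
      have e1 : ((N : ℤ) + 1 - 1) = N := by ring
      rw [e1] at h1
      have h2 := hR N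
      have h3 := hR (N + 1)
      push_cast
      set P := ∏ j ∈ Finset.range N, R (j + 1)
      set Q := ∏ j ∈ Finset.range N, R j
      have h4 : R' ((N : ℤ) + 1) / R ((N : ℤ) + 1) * (P * R ((N : ℤ) + 1) * (Q * R N)) =
          R' ((N : ℤ) + 1) * R N ^ 2 / R N * (P * Q) := by
        field_simp
      rw [h4, h1]
      have h5 : -B ((N : ℤ) + 1) * R' N / R N * (P * Q) =
          -B ((N : ℤ) + 1) * (R' N / R N * (P * Q)) := by ring
      rw [h5, ih]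
      ring
  have hsh : ∏ j ∈ Finset.range n, R (j + 1) = ∏ j ∈ Finset.range n, R j := by
    have a1 := Finset.prod_range_succ (fun j : ℕ => R j) n
    have a2 := Finset.prod_range_succ' (fun j : ℕ => R j) n
    rw [a1, p] at a2
    have := mul_right_cancel₀ (hR 0) a2
    push_cast at this
    exact this.symm
  have k0 : R' 0 / R 0 = 0 := by
    have := key n
    rw [p, p', hsh] at this
    have h2 : (R' 0 / R 0) * ((∏ j ∈ Finset.range n, R j) ^ 2 -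
        ∏ j ∈ Finset.range n, (-B (j + 1))) = 0 := by
      linear_combination this
    rcases mul_eq_zero.mp h2 with h3 | h3
    · exact h3
    · exact absurd (sub_eq_zero.mp h3) hne
  intro N
  have := key N
  rw [k0, mul_zero] at this
  rcases mul_eq_zero.mp this with h3 | h3
  · exact (div_eq_zero_iff.mp h3).resolve_right (hR N)
  · rcases mul_eq_zero.mp h3 with h4 | h4
    · obtain ⟨j, -, hj⟩ := Finset.prod_eq_zero_iff.mp h4
      exact absurd hj (hR _)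
    · obtain ⟨j, -, hj⟩ := Finset.prod_eq_zero_iff.mp h4
      exact absurd hj (hR _)

private theorem Jb_ev (h : Dta n e r O m D H K' δ) {y : E n} (hy : y ∈ O) {f g : E n → ℂ}
    (hfg : ∀ y ∈ O, f y = g y) : f =ᶠ[nhds y] g :=
  Filter.eventuallyEq_of_mem (h.isOpen.mem_nhds hy) hfg

private theorem Jb_df (h : Dta n e r O m D H K' δ) {y : E n} (hy : y ∈ O) {f : E n → ℂ}
    (hf : ContDiffOn ℝ ∞ f O) : DifferentiableAt ℝ f y :=
  (hf.contDiffAt (h.isOpen.mem_nhds hy)).differentiableAt (by simp)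

/-- (b) The quotients of the wave functions are determined. -/
private theorem Jb_b (h1 : S_Dt) (h2 : S_Dd) (h3 : S_La) (h4 : S_Wv) (h5 : S_Nz)
    (h : Dta n e r O m D H K' δ) (dm : ∀ i, Dtm O (thd n e m D H) fun y => m y i) (y : E n)
    (hy : y ∈ O) (v : Ix n → ℂ) (hv : ∀ i, dd v (fun y => thd n e m D H y i) y = 0) (a : Fin 4)
    (ha : a ≠ 0) (k : ℤ) :
    dd v (fun y => Rw (fun i => m y i ^ e) (D y) 0 k (m y a ^ e)) y = 0 := by
  obtain ⟨cK, cA, cC, -, -, cS, -⟩ := h1 n O (thd n e m D H) h.isOpen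
  obtain ⟨dA, dC, dE, -, -⟩ := h2 (Ix n) v y
  have dw : ∀ i, Dtm O (thd n e m D H) fun y => m y i ^ e := fun i =>
    (cA _ _ (dm i) (dm i)).2.2.2.2.1 e
  -- the number chi
  have dchi : Dtm O (thd n e m D H) fun y => chi (fun i => m y i ^ e) (m y a ^ e) := by
    have f1 := (cA _ _ (cA _ _ (dw 1) (dw 2)).1 (dw 3)).1
    have f2 := (cA _ _ (cA _ _ (cA _ _ (dw 1) (dw 2)).2.2.1 (cA _ _ (dw 1) (dw 3)).2.2.1).1
      (cA _ _ (dw 2) (dw 3)).2.2.1).1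
    have f3 := (cA _ _ (cA _ _ (dw 0) f1).2.1 (dw a)).2.2.1
    have f4 := (cA _ _ (cA _ _ ((cA _ _ (dw a) (dw a)).2.2.2.2.1 2) f3).1 f2).1
    exact f4
  have dal : ∀ k, Dtm O (thd n e m D H) fun y => alr (fun i => m y i ^ e) (D y) 0 k := by
    intro k
    refine cC _ _ (cA _ _ (Jb_dalp h1 h5 h k) (Jb_drho h1 h5 h (k - 1))).1 fun y _ => ?_
    show alr (fun i => m y i ^ e) (D y) 0 k = alp (fun i => m y i ^ e) (D y) (H y) 0 k +
      rho (fun i => m y i ^ e) (D y) (H y) 0 (k - 1)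
    unfold alp
    ring
  have dAk : ∀ k, Dtm O (thd n e m D H) fun y => chi (fun i => m y i ^ e) (m y a ^ e) -
      alr (fun i => m y i ^ e) (D y) 0 k := fun k => (cA _ _ dchi (dal k)).2.1
  have dBk : ∀ k, Dtm O (thd n e m D H) fun y => rho (fun i => m y i ^ e) (D y) (H y) 0 (k - 1) *
      (chi (fun i => m y i ^ e) (m y a ^ e) - cst (fun i => m y i ^ e) (D y) 0 (k - 1)) := fun k =>
    (cA _ _ (Jb_drho h1 h5 h (k - 1)) (cA _ _ dchi (Jb_dcst h1 h5 h (k - 1))).2.1).2.2.1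
  have sR : ∀ k, DifferentiableAt ℝ (fun y => Rw (fun i => m y i ^ e) (D y) 0 k (m y a ^ e)) y :=
    fun k => Jb_df h hy (Jb_sR h5 h k a)
  -- the recurrence of the derivatives
  have hrec : ∀ k, dd v (fun y => Rw (fun i => m y i ^ e) (D y) 0 k (m y a ^ e)) y *
      Rw (fun i => m y i ^ e) (D y) 0 (k - 1) (m y a ^ e) ^ 2 =
      -(rho (fun i => m y i ^ e) (D y) (H y) 0 (k - 1) *
      (chi (fun i => m y i ^ e) (m y a ^ e) - cst (fun i => m y i ^ e) (D y) 0 (k - 1))) *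
      dd v (fun y => Rw (fun i => m y i ^ e) (D y) 0 (k - 1) (m y a ^ e)) y := by
    intro k
    have w1 : ∀ y ∈ O, Rw (fun i => m y i ^ e) (D y) 0 k (m y a ^ e) *
        Rw (fun i => m y i ^ e) (D y) 0 (k - 1) (m y a ^ e) =
        (chi (fun i => m y i ^ e) (m y a ^ e) - alr (fun i => m y i ^ e) (D y) 0 k) *
        Rw (fun i => m y i ^ e) (D y) 0 (k - 1) (m y a ^ e) +
        rho (fun i => m y i ^ e) (D y) (H y) 0 (k - 1) *
        (chi (fun i => m y i ^ e) (m y a ^ e) - cst (fun i => m y i ^ e) (D y) 0 (k - 1)) :=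
      fun y hy => h4 ℂ _ (D y) (H y) 0 (fun i => pow_ne_zero _ (h.m0 y hy i)) (h.ok y hy) k a ha
    have w2 := dE _ _ (Jb_ev h hy w1)
    have sA := Jb_df h hy (dAk k).1
    have sB := Jb_df h hy (dBk k).1
    rw [(dA _ _ (sR k) (sR (k - 1))).2.2.1, (dA (fun y => (chi (fun i => m y i ^ e) (m y a ^ e) -
      alr (fun i => m y i ^ e) (D y) 0 k) * Rw (fun i => m y i ^ e) (D y) 0 (k - 1) (m y a ^ e)) _
      (sA.mul (sR (k - 1))) sB).1, (dA _ _ sA (sR (k - 1))).2.2.1, (dAk k).2 y hy v hv, (dBk k).2 y hy v hv] at w2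
    have w3 := w1 y hy
    set R := Rw (fun i => m y i ^ e) (D y) 0 k (m y a ^ e)
    set S := Rw (fun i => m y i ^ e) (D y) 0 (k - 1) (m y a ^ e)
    linear_combination S * w2 - (dd v (fun y => Rw (fun i => m y i ^ e) (D y) 0 (k - 1)
      (m y a ^ e)) y) * w3
  have hp : ∀ k, dd v (fun y => Rw (fun i => m y i ^ e) (D y) 0 (k + n) (m y a ^ e)) y =
      dd v (fun y => Rw (fun i => m y i ^ e) (D y) 0 k (m y a ^ e)) y := fun k =>
    dE _ _ (Jb_ev h hy fun y hy => Jb_RwP (h.pD y hy) 0 k _)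
  have hN : ∀ N : ℕ, dd v (fun y => Rw (fun i => m y i ^ e) (D y) 0 (N : ℤ) (m y a ^ e)) y = 0 := by
    refine Jb_eps n (fun k => Rw (fun i => m y i ^ e) (D y) 0 k (m y a ^ e))
      (fun k => dd v (fun y => Rw (fun i => m y i ^ e) (D y) 0 k (m y a ^ e)) y)
      (fun k => rho (fun i => m y i ^ e) (D y) (H y) 0 (k - 1) *
      (chi (fun i => m y i ^ e) (m y a ^ e) - cst (fun i => m y i ^ e) (D y) 0 (k - 1)))
      (fun k => (Jb_pp h5 h y hy).rw k a ha) hrec ?_ ?_ ?_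
    · have := Jb_RwP (w := fun i => m y i ^ e) (h.pD y hy) 0 0 (m y a ^ e)
      rw [zero_add] at this
      exact this
    · have := hp 0
      rw [zero_add] at this
      exact this
    · obtain ⟨t1, -, t3⟩ := h3 n e r (m y) (D y) (H y) (K' y) (h.m0 y hy) (h.K0 y hy)
        (h.inj y hy) (h.ok y hy) (h.ch y hy) (h.pD y hy) (h.pH y hy) (h.rel y hy)
      obtain ⟨u1, u2, u3, -, -⟩ := t3 a ha
      have v1 : ∏ j ∈ Finset.range n, (-(rho (fun i => m y i ^ e) (D y) (H y) 0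
          ((j : ℤ) + 1 - 1) * (chi (fun i => m y i ^ e) (m y a ^ e) -
          cst (fun i => m y i ^ e) (D y) 0 ((j : ℤ) + 1 - 1)))) =
          ∏ k : Fin n, (-(thx n (fun i => m y i ^ e) (D y) (H y) 0 (k, 1) *
            (chi (fun i => m y i ^ e) (m y a ^ e) -
              thx n (fun i => m y i ^ e) (D y) (H y) 0 (k, 2)))) := by
        rw [← Fin.prod_univ_eq_prod_range]
        refine Finset.prod_congr rfl fun j _ => ?_
        have e1 : ((j : ℕ) : ℤ) + 1 - 1 = (j : ℕ) := by ring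
        rw [e1]
        rfl
      show (∏ j ∈ Finset.range n, Rw (fun i => m y i ^ e) (D y) 0 j (m y a ^ e)) ^ 2 ≠
        ∏ j ∈ Finset.range n, (-(rho (fun i => m y i ^ e) (D y) (H y) 0
          ((j : ℤ) + 1 - 1) * (chi (fun i => m y i ^ e) (m y a ^ e) -
          cst (fun i => m y i ^ e) (D y) 0 ((j : ℤ) + 1 - 1))))
      rw [v1]
      have u3' := u3
      have u1' := u1
      rw [h.del y hy] at u3' u1' u2
      rw [u3']
      have n2 := h.n2 y hy a ha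
      intro hc
      rw [u1'] at hc
      apply n2
      have : ((∏ j ∈ Finset.range n, gam (fun i => m y i ^ e) (D y) 0 j) * K' y *
        m y 0 ^ (n * e - r : ℤ)) ^ 2 * Aw n e r (δ ^ e) (fun j => D y 0 j 2) (m y 0 * m y a) ≠ 0 :=
        mul_ne_zero (pow_ne_zero _ t1) u2
      apply mul_left_cancel₀ this
      linear_combination hc
  have := Jb_per n (fun k => dd v (fun y => Rw (fun i => m y i ^ e) (D y) 0 k (m y a ^ e)) y) hp k
  rw [← this]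
  exact hN _

/-- (c) The derivatives of `u` and `s`. -/
private theorem Jb_c (h1 : S_Dt) (h2 : S_Dd) (h3 : S_La) (h4 : S_Wv) (h5 : S_Nz) (h6 : S_Qd)
    (h : Dta n e r O m D H K' δ) (dm : ∀ i, Dtm O (thd n e m D H) fun y => m y i)
    (hC : ∀ k, Dtm O (thd n e m D H) fun y => D y 0 k 2) (k : ℤ) (y : E n)
    (hy : y ∈ O) (v : Ix n → ℂ) (hv : ∀ i, dd v (fun y => thd n e m D H y i) y = 0) :
    dd v (fun y => D y 0 k 1) y = 0 ∧ dd v (fun y => D y 0 k 0) y = 0 := by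
  obtain ⟨cK, cA, cC, -, -, cS, -⟩ := h1 n O (thd n e m D H) h.isOpen
  obtain ⟨dA, dC, dE, -, -⟩ := h2 (Ix n) v y
  have dw : ∀ i, Dtm O (thd n e m D H) fun y => m y i ^ e := fun i =>
    (cA _ _ (dm i) (dm i)).2.2.2.2.1 e
  have f1 : Dtm O (thd n e m D H) fun y => e1 (fun i => m y i ^ e) :=
    (cA _ _ (cA _ _ (dw 1) (dw 2)).1 (dw 3)).1
  have f2 : Dtm O (thd n e m D H) fun y => e2 (fun i => m y i ^ e) :=
    (cA _ _ (cA _ _ (cA _ _ (dw 1) (dw 2)).2.2.1 (cA _ _ (dw 1) (dw 3)).2.2.1).1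
      (cA _ _ (dw 2) (dw 3)).2.2.1).1
  have f3 : Dtm O (thd n e m D H) fun y => e3 (fun i => m y i ^ e) :=
    (cA _ _ (cA _ _ (dw 1) (dw 2)).2.2.1 (dw 3)).2.2.1
  have f4 : Dtm O (thd n e m D H) fun y => m y 0 ^ e * e3 (fun i => m y i ^ e) :=
    (cA _ _ (dw 0) f3).2.2.1
  have f5 : Dtm O (thd n e m D H) fun y => m y 0 ^ e * e3 (fun i => m y i ^ e) / D y 0 k 2 :=
    ((cA _ _ f4 (hC k)).2.2.2.2.2 fun y hy => (Jb_pp h5 h y hy).c0 k).2.1
  have f6 : Dtm O (thd n e m D H) fun y => m y 0 ^ e * e2 (fun i => m y i ^ e) :=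
    (cA _ _ (dw 0) f2).2.2.1
  have f7 : Dtm O (thd n e m D H) fun y => m y 0 ^ e * D y 0 k 2 :=
    (cA _ _ (dw 0) (hC k)).2.2.1
  have su : DifferentiableAt ℝ (fun y => D y 0 k 1) y := Jb_df h hy (h.sD 0 (Or.inl rfl) k 1)
  have ss : DifferentiableAt ℝ (fun y => D y 0 k 0) y := Jb_df h hy (h.sD 0 (Or.inl rfl) k 0)
  have sg := Jb_df h hy (Jb_sgam h5 h k)
  have P := Jb_pp h5 h y hy
  have sjA := Jb_df h hy (Jb_sjA h 0 k (Or.inl rfl) fun y hy => (Jb_pp h5 h y hy).c0 k)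
  have sjB := Jb_df h hy (Jb_sjB h 0 k (Or.inl rfl) fun y hy => (Jb_pp h5 h y hy).c0 k)
  -- the derivatives of the coefficients
  have eA : dd v (fun y => jA (fun i => m y i ^ e) (D y 0 k)) y =
      -(m y 0 ^ e * dd v (fun y => D y 0 k 1) y) := by
    have a1 := (dA (fun y => m y 0 ^ e * e3 (fun i => m y i ^ e) / D y 0 k 2)
      (fun y => m y 0 ^ e * (e1 (fun i => m y i ^ e) + D y 0 k 1)) (Jb_df h hy f5.1)
      ((Jb_df h hy (dw 0).1).mul ((Jb_df h hy f1.1).add su))).2.1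
    have a2 := (dA (fun y => m y 0 ^ e) (fun y => e1 (fun i => m y i ^ e) + D y 0 k 1)
      (Jb_df h hy (dw 0).1) ((Jb_df h hy f1.1).add su)).2.2.1
    have a3 := (dA (fun y => e1 (fun i => m y i ^ e)) (fun y => D y 0 k 1)
      (Jb_df h hy f1.1) su).1
    rw [a2, a3, f5.2 y hy v hv, (dw 0).2 y hy v hv, f1.2 y hy v hv] at a1
    have a4 : dd v (fun y => jA (fun i => m y i ^ e) (D y 0 k)) y = _ := a1
    rw [a4]
    ring
  have eB : dd v (fun y => jB (fun i => m y i ^ e) (D y 0 k)) y =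
      m y 0 ^ e * e3 (fun i => m y i ^ e) / D y 0 k 2 * dd v (fun y => D y 0 k 1) y := by
    have a1 := (dA (fun y => m y 0 ^ e * e2 (fun i => m y i ^ e) +
      m y 0 ^ e * e3 (fun i => m y i ^ e) / D y 0 k 2 * D y 0 k 1)
      (fun y => m y 0 ^ e * D y 0 k 2) ((Jb_df h hy f6.1).add ((Jb_df h hy f5.1).mul su))
      (Jb_df h hy f7.1)).2.1
    have a2 := (dA (fun y => m y 0 ^ e * e2 (fun i => m y i ^ e))
      (fun y => m y 0 ^ e * e3 (fun i => m y i ^ e) / D y 0 k 2 * D y 0 k 1)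
      (Jb_df h hy f6.1) ((Jb_df h hy f5.1).mul su)).1
    have a3 := (dA (fun y => m y 0 ^ e * e3 (fun i => m y i ^ e) / D y 0 k 2)
      (fun y => D y 0 k 1) (Jb_df h hy f5.1) su).2.2.1
    rw [a2, a3, f5.2 y hy v hv, f6.2 y hy v hv, f7.2 y hy v hv] at a1
    have a4 : dd v (fun y => jB (fun i => m y i ^ e) (D y 0 k)) y = _ := a1
    rw [a4]
    ring
  have hq := h6 ℂ (fun i => m y i ^ e) (D y 0 k)
    (dd v (fun y => gam (fun i => m y i ^ e) (D y) 0 k) y / gam (fun i => m y i ^ e) (D y) 0 k)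
    (dd v (fun y => D y 0 k 1) y) (dd v (fun y => D y 0 k 0) y) P.w0 (h.inj y hy) (P.c0 k)
    (P.jj k) (fun i hi => h.ch y hy k i hi) ?_
  · exact ⟨hq.2.1, hq.2.2⟩
  intro a hna
  have w1 : ∀ y ∈ O, Rw (fun i => m y i ^ e) (D y) 0 k (m y a ^ e) * (m y a ^ e - D y 0 k 0) =
      gam (fun i => m y i ^ e) (D y) 0 k * (jA (fun i => m y i ^ e) (D y 0 k) * m y a ^ e +
        jB (fun i => m y i ^ e) (D y 0 k)) := by
    intro y hy
    have := sub_ne_zero.mpr ((Jb_pp h5 h y hy).s0 k a)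
    unfold Rw jv
    exact div_mul_cancel₀ _ this
  have w2 := dE _ _ (Jb_ev h hy w1)
  have sw := Jb_df h hy (dw a).1
  have sR := Jb_df h hy (Jb_sR h5 h k a)
  rw [(dA (fun y => Rw (fun i => m y i ^ e) (D y) 0 k (m y a ^ e))
    (fun y => m y a ^ e - D y 0 k 0) sR (sw.sub ss)).2.2.1,
    (dA (fun y => m y a ^ e) (fun y => D y 0 k 0) sw ss).2.1,
    (dA (fun y => gam (fun i => m y i ^ e) (D y) 0 k)
      (fun y => jA (fun i => m y i ^ e) (D y 0 k) * m y a ^ e + jB (fun i => m y i ^ e) (D y 0 k))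
      sg ((sjA.mul sw).add sjB)).2.2.1,
    (dA (fun y => jA (fun i => m y i ^ e) (D y 0 k) * m y a ^ e)
      (fun y => jB (fun i => m y i ^ e) (D y 0 k)) (sjA.mul sw) sjB).1,
    (dA (fun y => jA (fun i => m y i ^ e) (D y 0 k)) (fun y => m y a ^ e) sjA sw).2.2.1,
    Jb_b h1 h2 h3 h4 h5 h dm y hy v hv a hna k, (dw a).2 y hy v hv, eA, eB] at w2
  have w3 := w1 y hy
  have g0 := P.ga k
  show dd v (fun y => gam (fun i => m y i ^ e) (D y) 0 k) y / gam (fun i => m y i ^ e) (D y) 0 k *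
    ((jA (fun i => m y i ^ e) (D y 0 k) * m y a ^ e + jB (fun i => m y i ^ e) (D y 0 k)) *
      (m y a ^ e - D y 0 k 0)) + dd v (fun y => D y 0 k 1) y *
    ((m y 0 ^ e * e3 (fun i => m y i ^ e) / D y 0 k 2 - m y 0 ^ e * m y a ^ e) *
      (m y a ^ e - D y 0 k 0)) + dd v (fun y => D y 0 k 0) y *
      (jA (fun i => m y i ^ e) (D y 0 k) * m y a ^ e + jB (fun i => m y i ^ e) (D y 0 k)) = 0
  apply mul_left_cancel₀ g0
  rw [mul_zero]
  set γ := gam (fun i => m y i ^ e) (D y) 0 k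
  set γ' := dd v (fun y => gam (fun i => m y i ^ e) (D y) 0 k) y
  set u' := dd v (fun y => D y 0 k 1) y
  set s' := dd v (fun y => D y 0 k 0) y
  set R := Rw (fun i => m y i ^ e) (D y) 0 k (m y a ^ e)
  set JA := jA (fun i => m y i ^ e) (D y 0 k)
  set JB := jB (fun i => m y i ^ e) (D y 0 k)
  set Ch := m y 0 ^ e * e3 (fun i => m y i ^ e) / D y 0 k 2
  set x := m y a ^ e
  set w0 := m y 0 ^ e
  set s := D y 0 k 0
  have g1 : γ * (γ' / γ * ((JA * x + JB) * (x - s)) + u' * ((Ch - w0 * x) * (x - s)) +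
      s' * (JA * x + JB)) = γ' * ((JA * x + JB) * (x - s)) +
      γ * (u' * ((Ch - w0 * x) * (x - s)) + s' * (JA * x + JB)) := by
    field_simp
    ring
  rw [g1]
  linear_combination (-(x - s)) * w2 - s' * w3

end

/-- **The data are determined.** -/
theorem sJb (h1 : S_Dt) (h2 : S_Dd) (h3 : S_La) (h4 : S_Wv) (h5 : S_Nz) (h6 : S_Qd)
    (_h7 : S_Rel) : S_Jb := by
  intro n _ e r O m D H K' δ h ha hC
  have dm := Jb_a h1 h ha
  refine ⟨dm, fun k j => ?_⟩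
  have hc := Jb_c h1 h2 h3 h4 h5 h6 h dm hC k
  fin_cases j
  · exact ⟨h.sD 0 (Or.inl rfl) k 0, fun y hy v hv => (hc y hy v hv).2⟩
  · exact ⟨h.sD 0 (Or.inl rfl) k 1, fun y hy v hv => (hc y hy v hv).1⟩
  · exact hC k

end Pool.Agent.MP62a5ad.QN
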