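import Pool.Agent.Lib.MP_62a5ad_mp.QN.SpecA

/-!
# MP_62a5ad_mp, project QN: identities of a site
-/

set_option autoImplicit false

namespace Pool.Agent.MP62a5ad.QN

open Matrix

section

variable {K : Type} [Field K]

private theorem Jx_pv (w : Fin 4 → K) (x : K) :
    pv (pw w) x = (x - w 0) * (x - w 1) * (x - w 2) * (x - w 3) := by
  change x ^ 4 + -(w 0 + w 1 + w 2 + w 3) * x ^ 3 +
    (w 0 * w 1 + w 0 * w 2 + w 0 * w 3 + w 1 * w 2 + w 1 * w 3 + w 2 * w 3) * x ^ 2 +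
    -(w 0 * w 1 * w 2 + w 0 * w 1 * w 3 + w 0 * w 2 * w 3 + w 1 * w 2 * w 3) * x +
    w 0 * w 1 * w 2 * w 3 = _
  ring

private theorem Jx_one (w : Fin 4 → K) (z : Fin 3 → K) (hz : z 2 ≠ 0) (x : K) :
    x * jv w z x = w 0 * ((x - w 1) * (x - w 2) * (x - w 3)) +
      (w 0 * e3 w / z 2 - w 0 * x) * qv z x := by
  have h1 : w 0 * e3 w / z 2 * z 2 = w 0 * e3 w := div_mul_cancel₀ _ hz
  unfold jv jA jB qv
  generalize w 0 * e3 w / z 2 = g at *
  unfold e3 at h1
  unfold e1 e2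
  linear_combination -h1

private theorem Jx_zero (w : Fin 4 → K) (i : Fin 4) (hi : i ≠ 0) :
    (w i - w 1) * (w i - w 2) * (w i - w 3) = 0 := by
  fin_cases i
  · exact absurd rfl hi
  · change (w 1 - w 1) * (w 1 - w 2) * (w 1 - w 3) = 0
    ring
  · change (w 2 - w 1) * (w 2 - w 2) * (w 2 - w 3) = 0
    ring
  · change (w 3 - w 1) * (w 3 - w 2) * (w 3 - w 3) = 0
    ring

private theorem Jx_root (w : Fin 4 → K) (i : Fin 4) :
    (w i - w 0) * (w i - w 1) * (w i - w 2) * (w i - w 3) = 0 := by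
  by_cases hi : i = 0
  · rw [hi]
    ring
  · linear_combination (w i - w 0) * Jx_zero w i hi

private theorem Jx_four (w : Fin 4 → K) (z : Fin 3 → K) (hz : z 2 ≠ 0) (i : Fin 4) (hi : i ≠ 0) :
    w i * jv w z (w i) = (w 0 * e3 w / z 2 - w 0 * w i) * qv z (w i) := by
  rw [Jx_one w z hz (w i)]
  linear_combination w 0 * Jx_zero w i hi

private theorem Jx_chi (w : Fin 4 → K) (i : Fin 4) (hi : i ≠ 0) :
    w i * chi w (w i) = w 0 * w i ^ 2 + e3 w := by
  unfold chi e1 e2 e3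
  linear_combination Jx_zero w i hi

end

theorem sJx (h1 : S_Rel) : S_Jx := by
  intro K _ w s η z z' hw hη h
  have hP : z 2 * z' 2 = w 0 * e3 w := by
    rw [h.c0]
    change w 0 * w 1 * w 2 * w 3 = w 0 * (w 1 * w 2 * w 3)
    ring
  have hP0 : w 0 * e3 w ≠ 0 :=
    mul_ne_zero (hw 0) (mul_ne_zero (mul_ne_zero (hw 1) (hw 2)) (hw 3))
  have hz : z 2 ≠ 0 := fun h0 => hP0 (by rw [← hP, h0, zero_mul])
  have hz' : z' 2 ≠ 0 := fun h0 => hP0 (by rw [← hP, h0, mul_zero])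
  have hg : w 0 * e3 w / z 2 = z' 2 := by
    rw [div_eq_iff hz, ← hP]
    ring
  have hg' : w 0 * e3 w / z' 2 = z 2 := by
    rw [div_eq_iff hz', ← hP]
  have h3 : ∀ i, η * (qv z (w i) * qv z' (w i)) = w i * (w i - s) * (w i - z' 0) := by
    intro i
    have h4 := (h1 K (pw w)).2.2.2.1 s η z z' h (w i)
    rw [h4, Jx_pv, Jx_root, mul_zero, add_zero]
  refine ⟨Jx_one w z hz, ?_, h3, Jx_four w z hz, ?_, hP, hz, hz'⟩
  · intro x
    have c3 : η * (z 1 + z' 1) = 1 + η * -(w 0 + w 1 + w 2 + w 3) := h.c3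
    have c2 : η * (z 2 + z' 2 + z 1 * z' 1) = -(s + z' 0) + η *
      (w 0 * w 1 + w 0 * w 2 + w 0 * w 3 + w 1 * w 2 + w 1 * w 3 + w 2 * w 3) := h.c2
    have c1 : η * (z 1 * z' 2 + z' 1 * z 2) = s * z' 0 + η *
      -(w 0 * w 1 * w 2 + w 0 * w 1 * w 3 + w 0 * w 2 * w 3 + w 1 * w 2 * w 3) := h.c1
    unfold jv jA jB qv
    rw [hg]
    unfold e3 at hP
    unfold e1 e2
    linear_combination -w 0 * (x ^ 2 * c3 + x * c2 + c1) - η * hP
  · intro i hi
    have e4 := Jx_four w z hz i hi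
    have e5 := Jx_four w z' hz' i hi
    rw [hg] at e4
    rw [hg'] at e5
    have e6 := Jx_chi w i hi
    have e7 := h3 i
    have e8 : (z' 2 - w 0 * w i) * (z 2 - w 0 * w i) =
        w 0 * w i * (chi w (w i) - (z 2 + z' 2)) := by
      linear_combination hP - w 0 * e6
    have hi2 : w i * w i ≠ 0 := mul_ne_zero (hw i) (hw i)
    apply mul_left_cancel₀ hi2
    calc w i * w i * (η * (jv w z (w i) * jv w z' (w i)))
        = η * ((w i * jv w z (w i)) * (w i * jv w z' (w i))) := by ring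
      _ = ((z' 2 - w 0 * w i) * (z 2 - w 0 * w i)) *
          (η * (qv z (w i) * qv z' (w i))) := by
          rw [e4, e5]
          ring
      _ = w i * w i * (w 0 * (chi w (w i) - (z 2 + z' 2)) * (w i - s) * (w i - z' 0)) := by
          rw [e7, e8]
          ring

end Pool.Agent.MP62a5ad.QN
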