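import Pool.Agent.Lib.MP_62a5ad_mp.QN.SpecC

/-!
# MP_62a5ad_mp, project QN: the first condition on the eigenvalues
-/

set_option autoImplicit false

namespace Pool.Agent.MP62a5ad.QN

/-- The characteristic polynomial of the monodromy of `ys n` is `(m - 1/4)⁴`. -/
private theorem K1_cpl (m : ℂ) : cpl cs m = (m - 1 / 4) ^ 4 := by
  simp only [cpl, cs, Matrix.cons_val]
  push_cast
  ring

/-- **The first condition.** -/
theorem tK1 (_hRaA : S_RaA) (hRp : S_Rp) (hN2 : S_N2) (hYp : S_Yp) : S_K1 := by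
  intro n _ e he
  obtain ⟨-, -, hpow, hsum, -⟩ := hRp (Ix n) (ys n)
  have hroot : ∀ m : ℂ, cpl (cc n (ys n)) m = 0 → m = 1 / 4 := by
    intro m hm
    rw [(hYp n).1, K1_cpl] at hm
    exact sub_eq_zero.mp (pow_eq_zero_iff (by norm_num) |>.mp hm)
  have hG : RP (ys n) fun _ m m' => ∑ a ∈ Finset.range e, m ^ a * m' ^ (e - 1 - a) := by
    refine hsum ℕ (Finset.range e) (fun a _ m m' => m ^ a * m' ^ (e - 1 - a)) fun a _ => ?_
    exact RP.mul _ _ (hpow _ a RP.fst) (hpow _ (e - 1 - a) RP.snd)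
  have hG0 : (∑ a ∈ Finset.range e, (1 / 4 : ℂ) ^ a * (1 / 4) ^ (e - 1 - a)) ≠ 0 := by
    have h1 : ∀ a ∈ Finset.range e, (1 / 4 : ℂ) ^ a * (1 / 4) ^ (e - 1 - a) = (1 / 4) ^ (e - 1) := by
      intro a ha
      rw [← pow_add]
      congr 1
      have := Finset.mem_range.mp ha
      omega
    rw [Finset.sum_congr rfl h1, Finset.sum_const, Finset.card_range, nsmul_eq_mul]
    exact mul_ne_zero (Nat.cast_ne_zero.mpr he.ne') (pow_ne_zero _ (by norm_num))
  filter_upwards [hN2 n (ys n) hroot _ hG hG0] with y hy m m' hm hm' hne heq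
  have h2 := (Commute.all m m').geom_sum₂_mul e
  rw [heq, sub_self] at h2
  rcases mul_eq_zero.mp h2 with h3 | h3
  · exact hy m m' hm hm' h3
  · exact hne (sub_eq_zero.mp h3)

end Pool.Agent.MP62a5ad.QN
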