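import Pool.Agent.Lib.MP_62a5ad_mp.QN.SpecB

/-!
# MP_62a5ad_mp, project QN, module KB: the map `B` preserves the Poisson structure
-/

set_option autoImplicit false

namespace Pool.Agent.MP62a5ad.QN

open Matrix

section KB

variable {n : ℕ} [NeZero n]

/-- The bilinear form of `P0`. -/
private def KB_B (u v : Ix n → ℂ) : ℂ :=
  ∑ k : Fin n, ((u (k, 0) - u (k + 1, 0)) * v (k, 1) + u (k, 1) * (v (k + 1, 0) - v (k, 0)))

private theorem KB_cast (p : Prop) [Decidable p] :
    (((if p then 1 else 0 : ℝ)) : ℂ) = if p then 1 else 0 := by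
  split_ifs <;> simp

private theorem KB_form (u v : Ix n → ℂ) :
    ∑ b, (∑ a, u a * ((P0 n a b : ℝ) : ℂ)) * v b = KB_B u v := by
  unfold KB_B
  rw [Fintype.sum_prod_type]
  simp only [Fin.sum_univ_three, Fintype.sum_prod_type]
  simp only [P0, Matrix.of_apply]
  have e1 : ((1 : Fin 3) = 0) = False := by simp
  have e2 : ((0 : Fin 3) = 1) = False := by simp
  have e3 : ((2 : Fin 3) = 0) = False := by simp
  have e4 : ((2 : Fin 3) = 1) = False := by simp
  simp only [e1, e2, e3, e4, and_false, and_true, if_true, if_false,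
    Complex.ofReal_zero, mul_zero, Finset.sum_const_zero, add_zero, zero_add, zero_mul]
  rw [Finset.sum_add_distrib, Finset.sum_add_distrib, add_comm]
  congr 1
  · refine Finset.sum_congr rfl fun l _ => ?_
    congr 1
    simp [mul_sub, Finset.sum_sub_distrib, KB_cast]
  · simp only [Finset.sum_mul]
    rw [Finset.sum_comm]
    refine Finset.sum_congr rfl fun k _ => ?_
    simp [mul_sub, sub_mul, Finset.sum_sub_distrib, KB_cast]

/-- The vector `a_k`. -/
private def KB_a (θ : Ix n → ℂ) (k : Fin n) (j : Ix n) : ℂ :=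
  (if j = (k + 1, 0) then 1 else 0) + (if j = (k, 1) then θ (k, 1) else 0) -
      (if j = (k + 1, 1) then θ (k + 1, 1) else 0)

/-- The rows `(k, 1)`. -/
private def KB_r (θ : Ix n → ℂ) (g : Fin n → ℂ) (k : Fin n) (j : Ix n) : ℂ :=
  (if j = (k + 1, 1) then 1 else 0) +
      g (k + 1) * (KB_a θ (k + 1) j - if j = (k + 1, 2) then 1 else 0) -
      g k * (KB_a θ k j - if j = (k, 2) then 1 else 0)

private theorem KB_row0 (θ : Ix n → ℂ) (g : Fin n → ℂ) (k : Fin n) :
    (fun j => KB θ g (k, 0) j) = KB_a θ k := by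
  funext j
  simp [KB, KB_a]

private theorem KB_row1 (θ : Ix n → ℂ) (g : Fin n → ℂ) (k : Fin n) :
    (fun j => KB θ g (k, 1) j) = KB_r θ g k := by
  funext j
  simp [KB, KB_a, KB_r]

private theorem KB_row2 (θ : Ix n → ℂ) (g : Fin n → ℂ) (k : Fin n) :
    (fun j => KB θ g (k, 2) j) = fun j => if j = (k, 2) then 1 else 0 := by
  funext j
  simp [KB]

private theorem KB_a0 (θ : Ix n → ℂ) (k m : Fin n) :
    KB_a θ k (m, 0) = if m = k + 1 then 1 else 0 := by
  simp [KB_a]

omit [NeZero n] in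
private theorem KB_ite (f : Fin n → ℂ) (m k : Fin n) :
    (if m = k then f k else 0) = f m * if m = k then 1 else 0 := by
  by_cases h : m = k
  · rw [if_pos h, if_pos h, h, mul_one]
  · rw [if_neg h, if_neg h, mul_zero]

private theorem KB_a1 (θ : Ix n → ℂ) (k m : Fin n) :
    KB_a θ k (m, 1) = θ (m, 1) * ((if m = k then 1 else 0) - if m = k + 1 then 1 else 0) := by
  have e1 : ((m, 1) : Ix n) = (k + 1, 0) ↔ False := by simp
  have e2 : ((m, 1) : Ix n) = (k, 1) ↔ m = k := by simp
  have e3 : ((m, 1) : Ix n) = (k + 1, 1) ↔ m = k + 1 := by simp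
  simp only [KB_a, e1, e2, e3, if_false, zero_add]
  rw [KB_ite (fun k => θ (k, 1)) m k, KB_ite (fun k => θ (k, 1)) m (k + 1)]
  ring

/-- The differences of the first coordinates. -/
private theorem KB_aD (θ : Ix n → ℂ) (k m : Fin n) :
    KB_a θ k (m, 0) - KB_a θ k (m + 1, 0) =
      (if m = k + 1 then 1 else 0) - if m = k then 1 else 0 := by
  rw [KB_a0, KB_a0]
  simp only [add_left_inj]

private theorem KB_r0 (θ : Ix n → ℂ) (g : Fin n → ℂ) (k m : Fin n) :
    KB_r θ g k (m, 0) = g (k + 1) * KB_a θ (k + 1) (m, 0) - g k * KB_a θ k (m, 0) := by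
  simp [KB_r]

private theorem KB_r1 (θ : Ix n → ℂ) (g : Fin n → ℂ) (k m : Fin n) :
    KB_r θ g k (m, 1) = (if m = k + 1 then 1 else 0) +
      g (k + 1) * KB_a θ (k + 1) (m, 1) - g k * KB_a θ k (m, 1) := by
  simp [KB_r]

private theorem KB_aa (θ : Ix n → ℂ) (k l : Fin n) : KB_B (KB_a θ k) (KB_a θ l) = 0 := by
  unfold KB_B
  refine Finset.sum_eq_zero fun m _ => ?_
  have h := KB_aD θ k m
  have h' := KB_aD θ l m
  have e : KB_a θ l (m + 1, 0) - KB_a θ l (m, 0) =
      -((if m = l + 1 then 1 else 0) - if m = l then 1 else 0) := by rw [← h']; ring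
  rw [h, e, KB_a1, KB_a1]
  ring

/-- The unit vector. -/
private def KB_f (k : Fin n) (j : Ix n) : ℂ := if j = (k + 1, 1) then 1 else 0

private theorem KB_af (θ : Ix n → ℂ) (k l : Fin n) : KB_B (KB_a θ k) (KB_f l) =
    (if k = l then 1 else 0) - if k = l + 1 then 1 else 0 := by
  unfold KB_B
  have h : ∀ m : Fin n, (KB_a θ k (m, 0) - KB_a θ k (m + 1, 0)) * KB_f l (m, 1) +
      KB_a θ k (m, 1) * (KB_f l (m + 1, 0) - KB_f l (m, 0)) =
      if m = l + 1 then ((if m = k + 1 then 1 else 0) - if m = k then 1 else 0) else 0 := by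
    intro m
    rw [KB_aD]
    simp [KB_f]
  rw [Finset.sum_congr rfl fun m _ => h m, Finset.sum_ite_eq' Finset.univ (l + 1),
    if_pos (Finset.mem_univ _)]
  simp only [add_left_inj, eq_comm]

private theorem KB_skew (u v : Ix n → ℂ) : KB_B v u = -KB_B u v := by
  unfold KB_B
  rw [← Finset.sum_neg_distrib]
  exact Finset.sum_congr rfl fun k _ => by ring

private theorem KB_ff (k l : Fin n) : KB_B (KB_f k) (KB_f l) = 0 := by
  unfold KB_B
  exact Finset.sum_eq_zero fun m _ => by simp [KB_f]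

private theorem KB_ur (u θ : Ix n → ℂ) (g : Fin n → ℂ) (l : Fin n) : KB_B u (KB_r θ g l) =
    KB_B u (KB_f l) + g (l + 1) * KB_B u (KB_a θ (l + 1)) - g l * KB_B u (KB_a θ l) := by
  unfold KB_B
  rw [Finset.mul_sum, Finset.mul_sum, ← Finset.sum_add_distrib, ← Finset.sum_sub_distrib]
  refine Finset.sum_congr rfl fun m _ => ?_
  have e0 : ∀ m, KB_f l (m, 0) = 0 := fun m => by simp [KB_f]
  have e1 : KB_f l (m, 1) = if m = l + 1 then 1 else 0 := by simp [KB_f]
  rw [KB_r0, KB_r0, KB_r1, e0, e0, e1]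
  ring

private theorem KB_ar (θ : Ix n → ℂ) (g : Fin n → ℂ) (k l : Fin n) :
    KB_B (KB_a θ k) (KB_r θ g l) = (if k = l then 1 else 0) - if k = l + 1 then 1 else 0 := by
  rw [KB_ur, KB_aa, KB_aa, KB_af]
  ring

private theorem KB_rr (θ : Ix n → ℂ) (g : Fin n → ℂ) (k l : Fin n) :
    KB_B (KB_r θ g k) (KB_r θ g l) = 0 := by
  rw [KB_ur, KB_skew (KB_a θ (l + 1)), KB_skew (KB_a θ l), KB_ar, KB_ar, KB_skew (KB_f l), KB_ur,
    KB_ff, KB_skew (KB_a θ (k + 1)), KB_skew (KB_a θ k), KB_af, KB_af]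
  by_cases h1 : l = k
  · subst h1
    ring
  · have h1' : k ≠ l := fun h => h1 h.symm
    have h2 : (l + 1 = k + 1) = False := by simp [h1]
    have h3 : (k + 1 = l + 1) = False := by simp [h1']
    rw [if_neg h1, if_neg h1']
    simp only [h2, h3, if_false]
    by_cases h4 : l + 1 = k
    · subst h4
      by_cases h5 : l = l + 1 + 1
      · rw [← h5]
        simp
      · have h5' : ¬ l + 1 + 1 = l := fun h => h5 h.symm
        simp [h5, h5']
    · by_cases h5 : k + 1 = l
      · subst h5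
        have h4' : ¬ k = k + 1 + 1 := fun h => h4 h.symm
        simp [h4, h4']
      · have h4' : ¬ k = l + 1 := fun h => h4 h.symm
        have h5' : ¬ l = k + 1 := fun h => h5 h.symm
        simp [h4, h5, h4', h5']

private theorem KB_u2 (u : Ix n → ℂ) (l : Fin n) :
    KB_B u (fun j => if j = (l, 2) then 1 else 0) = 0 := by
  unfold KB_B
  exact Finset.sum_eq_zero fun m _ => by simp

private theorem KB_2u (u : Ix n → ℂ) (l : Fin n) :
    KB_B (fun j => if j = (l, 2) then 1 else 0) u = 0 := by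
  rw [KB_skew, KB_u2, neg_zero]

end KB

/-- `B` preserves the Poisson structure. -/
theorem sKB : S_KB := by
  intro n _ θ g
  constructor
  · ext ⟨k, a⟩ ⟨l, b⟩
    rw [Matrix.mul_apply]
    simp only [Matrix.mul_apply, Matrix.transpose_apply, Matrix.map_apply]
    rw [KB_form (fun j => KB θ g (k, a) j) (fun j => KB θ g (l, b) j)]
    match a, b with
    | 0, 0 => rw [KB_row0, KB_row0, KB_aa]; simp [P0]
    | 0, 1 => rw [KB_row0, KB_row1, KB_ar]; simp [P0, KB_cast]
    | 0, 2 => rw [KB_row0, KB_row2, KB_u2]; simp [P0]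
    | 1, 0 => rw [KB_row0, KB_row1, KB_skew, KB_ar]; simp [P0, KB_cast]
    | 1, 1 => rw [KB_row1, KB_row1, KB_rr]; simp [P0]
    | 1, 2 => rw [KB_row1, KB_row2, KB_u2]; simp [P0]
    | 2, 0 => rw [KB_row2, KB_row0, KB_2u]; simp [P0]
    | 2, 1 => rw [KB_row2, KB_row1, KB_2u]; simp [P0]
    | 2, 2 => rw [KB_row2, KB_row2, KB_2u]; simp [P0]
  · intro h0
    obtain ⟨v, hv, hK⟩ := Matrix.exists_mulVec_eq_zero_iff.2 h0
    apply hv
    have hrow : ∀ i, ∑ j, KB θ g i j * v j = 0 := fun i => congrFun hK i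
    have h2 : ∀ k, v (k, 2) = 0 := by
      intro k
      have := hrow (k, 2)
      rw [Finset.sum_congr rfl fun j _ => by
        rw [show KB θ g (k, 2) j = _ from congrFun (KB_row2 θ g k) j]] at this
      simpa using this
    have h3 : ∀ k, ∑ j, KB_a θ k j * v j = 0 := by
      intro k
      have := hrow (k, 0)
      rwa [Finset.sum_congr rfl fun j _ => by
        rw [show KB θ g (k, 0) j = _ from congrFun (KB_row0 θ g k) j]] at this
    have h4 : ∀ k, v (k + 1, 1) = 0 := by
      intro k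
      have := hrow (k, 1)
      rw [Finset.sum_congr rfl fun j _ => by
        rw [show KB θ g (k, 1) j = _ from congrFun (KB_row1 θ g k) j]] at this
      have e : ∑ j, KB_r θ g k j * v j = v (k + 1, 1) +
          g (k + 1) * (∑ j, KB_a θ (k + 1) j * v j - v (k + 1, 2)) -
          g k * (∑ j, KB_a θ k j * v j - v (k, 2)) := by
        simp only [KB_r, add_mul, sub_mul, mul_sub, Finset.sum_add_distrib, Finset.sum_sub_distrib,
          mul_assoc, Finset.mul_sum]
        simp
      rw [e, h3, h3, h2, h2] at this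
      simpa using this
    have h5 : ∀ k, v (k, 1) = 0 := by
      intro k
      have := h4 (k - 1)
      rwa [sub_add_cancel] at this
    have h6 : ∀ k, v (k + 1, 0) = 0 := by
      intro k
      have := h3 k
      simp only [KB_a, add_mul, sub_mul, Finset.sum_add_distrib, Finset.sum_sub_distrib] at this
      simpa [h5] using this
    have h7 : ∀ k, v (k, 0) = 0 := by
      intro k
      have := h6 (k - 1)
      rwa [sub_add_cancel] at this
    funext ⟨k, a⟩
    match a with
    | 0 => exact h7 k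
    | 1 => exact h5 k
    | 2 => exact h2 k

end Pool.Agent.MP62a5ad.QN
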