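import Pool.Agent.Lib.MP_62a5ad_mp.QN.SpecA

/-!
# MP_62a5ad_mp, project QN: the half times `-2, …, 2`
-/

set_option autoImplicit false

namespace Pool.Agent.MP62a5ad.QN

open Matrix

section

variable {K : Type} [Field K]

private theorem Lat_fwd (h1 : S_Rel) (p : Fin 4 → K) (y : ℤ → Fin 3 → K) (m : ℤ) (hC : y m 2 ≠ 0)
    (hD : y m 2 + y (m + 1) 0 ^ 2 + y m 1 * y (m + 1) 0 ≠ 0)
    (ha : rA p (y (m + 1) 0) (y m 1) (y m 2) ≠ 0) :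
    Rel p (y (m + 1) 0) (y m) (fwd p y m) (y m 1 + fwd p y m 1 - p 3)⁻¹ ∧
      (y m 1 + fwd p y m 1 - p 3)⁻¹ ≠ 0 := by
  have h2 := (h1 K p).1 (y (m + 1) 0) (y m) hC hD ha
  have h3 : y m 1 + fwd p y m 1 - p 3 = rA p (y (m + 1) 0) (y m 1) (y m 2) := by
    change y m 1 + (rA p (y (m + 1) 0) (y m 1) (y m 2) + p 3 - y m 1) - p 3 = _
    ring
  rw [h3]
  exact ⟨h2, inv_ne_zero ha⟩

private theorem Lat_bwd (h1 : S_Rel) (p : Fin 4 → K) (y : ℤ → Fin 3 → K) (m : ℤ) (hC : y m 2 ≠ 0)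
    (hD : y m 2 + y m 0 ^ 2 + y m 1 * y m 0 ≠ 0)
    (ha : rA p (y m 0) (y m 1) (y m 2) ≠ 0) :
    Rel p (bwd p y (m + 1) 0) (bwd p y m) (y m) (bwd p y m 1 + y m 1 - p 3)⁻¹ ∧
      (bwd p y m 1 + y m 1 - p 3)⁻¹ ≠ 0 := by
  have h2 := (h1 K p).1 (y m 0) (y m) hC hD ha
  have h4 := (h1 K p).2.2.1 _ _ _ _ h2
  have h3 : bwd p y m 1 + y m 1 - p 3 = rA p (y m 0) (y m 1) (y m 2) := by
    change (rA p (y m 0) (y m 1) (y m 2) + p 3 - y m 1) + y m 1 - p 3 = _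
    ring
  have h5 : bwd p y (m + 1) 0 = rS p (y m 0) (y m 1) (y m 2) := by
    change rS p (y (m + 1 - 1) 0) (y (m + 1 - 1) 1) (y (m + 1 - 1) 2) = _
    rw [add_sub_cancel_right]
  rw [h3, h5]
  refine ⟨⟨h4.c3, h4.c2, h4.c1, h4.c0⟩, inv_ne_zero ha⟩

private theorem Lat_fwd' (h1 : S_Rel) (p : Fin 4 → K) (D : ℤ → ℤ → Fin 3 → K) (τ m : ℤ)
    (hτ : D (τ + 1) = fwd p (D τ)) (hC : D τ m 2 ≠ 0)
    (hD : D τ m 2 + D τ (m + 1) 0 ^ 2 + D τ m 1 * D τ (m + 1) 0 ≠ 0)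
    (ha : rA p (D τ (m + 1) 0) (D τ m 1) (D τ m 2) ≠ 0) :
    Rel p (D τ (m + 1) 0) (D τ m) (D (τ + 1) m) (leta p D τ m) ∧ leta p D τ m ≠ 0 := by
  unfold leta
  rw [hτ]
  exact Lat_fwd h1 p (D τ) m hC hD ha

private theorem Lat_bwd' (h1 : S_Rel) (p : Fin 4 → K) (D : ℤ → ℤ → Fin 3 → K) (τ σ m : ℤ)
    (hσ : τ + 1 = σ) (hτ : D τ = bwd p (D σ)) (hC : D σ m 2 ≠ 0)
    (hD : D σ m 2 + D σ m 0 ^ 2 + D σ m 1 * D σ m 0 ≠ 0)
    (ha : rA p (D σ m 0) (D σ m 1) (D σ m 2) ≠ 0) :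
    Rel p (D τ (m + 1) 0) (D τ m) (D (τ + 1) m) (leta p D τ m) ∧ leta p D τ m ≠ 0 := by
  unfold leta
  rw [hσ, hτ]
  exact Lat_bwd h1 p (D σ) m hC hD ha

private theorem Lat_m2 (p : Fin 4 → K) (z : ℤ → Fin 3 → K) :
    lat p z (-2) = bwd p (lat p z (-1)) := by
  change (bwd p)^[2] z = bwd p ((bwd p)^[1] z)
  exact Function.iterate_succ_apply' (bwd p) 1 z

private theorem Lat_m1 (p : Fin 4 → K) (z : ℤ → Fin 3 → K) :
    lat p z (-1) = bwd p (lat p z 0) := by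
  change (bwd p)^[1] z = bwd p ((fwd p)^[0] z)
  rfl

private theorem Lat_p1 (p : Fin 4 → K) (z : ℤ → Fin 3 → K) :
    lat p z (0 + 1) = fwd p (lat p z 0) := by
  change (fwd p)^[1] z = fwd p ((fwd p)^[0] z)
  rfl

private theorem Lat_p2 (p : Fin 4 → K) (z : ℤ → Fin 3 → K) :
    lat p z (1 + 1) = fwd p (lat p z 1) := by
  change (fwd p)^[2] z = fwd p ((fwd p)^[1] z)
  exact Function.iterate_succ_apply' (fwd p) 1 z

end

theorem sLat (h1 : S_Rel) : S_Lat := by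
  intro K _ p z hp hz hF hB hps hnd
  have hC0 : ∀ m, lat p z 0 m 2 ≠ 0 := hz
  have hC1 : ∀ m, lat p z 1 m 2 ≠ 0 := fun m => by
    have h := congrFun (congrFun (Lat_p1 p z) m) 2
    rw [zero_add] at h
    rw [h]
    change p 0 / lat p z 0 m 2 ≠ 0
    exact div_ne_zero hp (hC0 m)
  have hC2 : ∀ m, lat p z (-1) m 2 ≠ 0 := fun m => by
    rw [Lat_m1]
    change p 0 / lat p z 0 m 2 ≠ 0
    exact div_ne_zero hp (hC0 m)
  have key : ∀ τ m, -2 ≤ τ → τ < 2 →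
      Rel p (lat p z τ (m + 1) 0) (lat p z τ m) (lat p z (τ + 1) m) (leta p (lat p z) τ m) ∧
        leta p (lat p z) τ m ≠ 0 := by
    intro τ m hτ hτ'
    have hτ'' : τ = -2 ∨ τ = -1 ∨ τ = 0 ∨ τ = 1 := by omega
    rcases hτ'' with h | h | h | h
    · have h' := hB (-1) (Or.inr rfl) m
      rw [h]
      exact Lat_bwd' h1 p (lat p z) (-2) (-1) m (by norm_num) (Lat_m2 p z) (hC2 m) h'.1 h'.2
    · have h' := hB 0 (Or.inl rfl) m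
      rw [h]
      exact Lat_bwd' h1 p (lat p z) (-1) 0 m (by norm_num) (Lat_m1 p z) (hC0 m) h'.1 h'.2
    · have h' := hF 0 (Or.inl rfl) m
      rw [h]
      exact Lat_fwd' h1 p (lat p z) 0 m (Lat_p1 p z) (hC0 m) h'.1 h'.2
    · have h' := hF 1 (Or.inr rfl) m
      rw [h]
      exact Lat_fwd' h1 p (lat p z) 1 m (Lat_p2 p z) (hC1 m) h'.1 h'.2
  exact ⟨hp, fun τ m h h' => (key τ m h h').1, fun τ m h h' => (key τ m h h').2,
    fun τ m h h' => hps τ h h' m, fun τ m h h' => hnd τ h h' m⟩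

end Pool.Agent.MP62a5ad.QN
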