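import Pool.Agent.Lib.MP_62a5ad_mp.QN.SpecB

/-!
# MP_62a5ad_mp, project QN: independence of the integrals
-/

set_option autoImplicit false

namespace Pool.Agent.MP62a5ad.QN

open Matrix

theorem Li_rs_val (n : ℕ) [NeZero n] (k : ℤ) :
    ((rs n k : Fin n) : ℕ) = (k % (n : ℤ)).toNat := by
  have hn : (0 : ℤ) < n := by exact_mod_cast Nat.pos_of_ne_zero (NeZero.ne n)
  have h1 := Int.emod_nonneg k hn.ne'
  have h2 := Int.emod_lt_of_pos k hn
  unfold rs
  rw [Fin.val_ofNat]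
  exact Nat.mod_eq_of_lt (by omega)

theorem Li_ne (n : ℕ) [NeZero n] (m : Fin n) (i : ℕ) (hi : i < n - 1) :
    rs n (((m : ℕ) : ℤ) + 1 + i) ≠ m := by
  intro h
  have h1 : ((rs n (((m : ℕ) : ℤ) + 1 + i) : Fin n) : ℕ) = m := by rw [h]
  rw [Li_rs_val] at h1
  have hm := m.isLt
  by_cases hlt : (m : ℕ) + 1 + i < n
  · rw [Int.emod_eq_of_lt (by omega) (by omega)] at h1
    omega
  · rw [← Int.sub_emod_right, Int.emod_eq_of_lt (by omega) (by omega)] at h1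
    omega

theorem Li_ex (n : ℕ) [NeZero n] (m j : Fin n) (h : j ≠ m) :
    ∃ i : ℕ, i < n - 1 ∧ rs n (((m : ℕ) : ℤ) + 1 + i) = j := by
  have hm := m.isLt
  have hj := j.isLt
  have hne : (j : ℕ) ≠ m := fun h' => h (Fin.ext h')
  by_cases hlt : (m : ℕ) < j
  · refine ⟨(j : ℕ) - m - 1, by omega, Fin.ext ?_⟩
    rw [Li_rs_val, Int.emod_eq_of_lt (by omega) (by omega)]
    omega
  · refine ⟨n + (j : ℕ) - m - 1, by omega, Fin.ext ?_⟩
    rw [Li_rs_val, ← Int.sub_emod_right, Int.emod_eq_of_lt (by omega) (by omega)]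
    omega

theorem Li_Nc (n : ℕ) [NeZero n] (θ : Ix n → ℂ) (hρ : ∀ k, θ (k, 1) = 0) (x : ℂ) (m : ℤ)
    (k : ℕ) : Nc θ x m k 1 0 = 0 ∧
      Nc θ x m k 0 0 = ∏ i ∈ Finset.range k, (x - θ (rs n (m + i), 0)) := by
  induction k with
  | zero => simp [Nc]
  | succ k ih =>
    obtain ⟨h1, h2⟩ := ih
    constructor
    · simp [Nc, Lc, Lx, Matrix.mul_apply, Fin.sum_univ_two, hρ]
    · rw [Finset.prod_range_succ, ← h2]
      simp [Nc, Lc, Lx, Matrix.mul_apply, Fin.sum_univ_two, h1]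
      ring

theorem Li_Nm (h1 : S_Nm) (n : ℕ) [NeZero n] (θ : Ix n → ℂ) (hρ : ∀ k, θ (k, 1) = 0) (x : ℂ)
    (m : ℤ) : Nm θ x m 0 1 = ∏ i ∈ Finset.range (n - 1), (x - θ (rs n (m + 1 + i), 0)) := by
  obtain ⟨-, -, -, -, -, h6, -⟩ := h1 ℂ n θ x
  rw [(h6 m).2.2, ← (Li_Nc n θ hρ x (m + 1) (n - 1)).2]
  simp [Lc, Lx, Matrix.mul_apply, Fin.sum_univ_two, hρ]

/-- The first matrix. -/
def Li_M1 {R : Type} [CommRing R] (n : ℕ) [NeZero n] (θ : Ix n → R) : Matrix (Fin n) (Fin n) R :=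
  Matrix.of fun j m => if (j : ℕ) < n - 1 then Nm θ ((j : ℕ) : R) (((m : ℕ) : ℤ)) 0 1 else 1

/-- The second matrix. -/
def Li_M2 {R : Type} [CommRing R] (n : ℕ) [NeZero n] (θ : Ix n → R) : Matrix (Fin n) (Fin n) R :=
  Matrix.of fun j m => ∏ k ∈ Finset.univ.erase m, (((j : ℕ) : R) - θ (k, 2))

theorem Li_map1 (h1 : S_Nm) (n : ℕ) [NeZero n] (θ : Ix n → ℂ) :
    MvPolynomial.eval θ (Li_M1 n (MvPolynomial.X : Ix n → MvPolynomial (Ix n) ℂ)).det =
      (Li_M1 n θ).det := by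
  rw [RingHom.map_det]
  refine congrArg Matrix.det (Matrix.ext fun j m => ?_)
  obtain ⟨-, -, -, -, -, -, -, h8⟩ := h1 (MvPolynomial (Ix n) ℂ) n MvPolynomial.X
    (((j : ℕ) : MvPolynomial (Ix n) ℂ))
  have h9 := (h8 ℂ (MvPolynomial.eval θ)).1 ((m : ℕ) : ℤ) n
  simp only [MvPolynomial.eval_X, map_natCast] at h9
  rw [RingHom.mapMatrix_apply, Matrix.map_apply, Li_M1, Li_M1, Matrix.of_apply, Matrix.of_apply]
  split_ifs
  · have h10 := congrFun (congrFun h9 0) 1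
    rw [Matrix.map_apply] at h10
    exact h10
  · exact map_one _

theorem Li_map2 (n : ℕ) [NeZero n] (θ : Ix n → ℂ) :
    MvPolynomial.eval θ (Li_M2 n (MvPolynomial.X : Ix n → MvPolynomial (Ix n) ℂ)).det =
      (Li_M2 n θ).det := by
  rw [RingHom.map_det]
  refine congrArg Matrix.det (Matrix.ext fun j m => ?_)
  rw [RingHom.mapMatrix_apply, Matrix.map_apply, Li_M2, Li_M2, Matrix.of_apply, Matrix.of_apply,
    map_prod]
  refine Finset.prod_congr rfl fun k _ => ?_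
  simp

theorem Li_D1 (h1 : S_Nm) (n : ℕ) [NeZero n] :
    (Li_M1 n (MvPolynomial.X : Ix n → MvPolynomial (Ix n) ℂ)).det ≠ 0 := by
  intro h0
  have h2 := Li_map1 h1 n (fun i => if i.2 = 0 then ((i.1 : ℕ) : ℂ) else 0)
  rw [h0, map_zero] at h2
  have h3 : ∀ k : Fin n, (fun i : Ix n => if i.2 = 0 then ((i.1 : ℕ) : ℂ) else 0) (k, 1) = 0 := by
    intro k
    simp
  have h4 : ∀ (x : ℂ) (m : Fin n), Nm (fun i : Ix n => if i.2 = 0 then ((i.1 : ℕ) : ℂ) else 0) x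
      ((m : ℕ) : ℤ) 0 1 =
      ∏ i ∈ Finset.range (n - 1), (x - ((rs n (((m : ℕ) : ℤ) + 1 + i) : ℕ) : ℂ)) := by
    intro x m
    rw [Li_Nm h1 n _ h3]
    simp
  have h5 : (Li_M1 n (fun i : Ix n => if i.2 = 0 then ((i.1 : ℕ) : ℂ) else 0)).BlockTriangular
      OrderDual.toDual := by
    intro j m hjm
    have hjm' : (j : ℕ) < m := hjm
    have hm := m.isLt
    rw [Li_M1, Matrix.of_apply, if_pos (by omega), h4]
    obtain ⟨i, hi, hr⟩ := Li_ex n m j (by
      intro h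
      rw [h] at hjm'
      omega)
    exact Finset.prod_eq_zero (Finset.mem_range.2 hi) (by rw [hr, sub_self])
  rw [Matrix.det_of_isLowerTriangular _ h5] at h2
  refine Finset.prod_ne_zero_iff.2 (fun j _ => ?_) h2.symm
  rw [Li_M1, Matrix.of_apply]
  split_ifs with hj
  · rw [h4]
    refine Finset.prod_ne_zero_iff.2 fun i hi => ?_
    rw [sub_ne_zero]
    intro h
    have h6 : ((j : ℕ)) = (rs n (((j : ℕ) : ℤ) + 1 + i) : ℕ) := by exact_mod_cast h
    exact Li_ne n j i (Finset.mem_range.1 hi) (Fin.ext h6.symm)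
  · exact one_ne_zero

theorem Li_D2 (n : ℕ) [NeZero n] :
    (Li_M2 n (MvPolynomial.X : Ix n → MvPolynomial (Ix n) ℂ)).det ≠ 0 := by
  intro h0
  have h2 := Li_map2 n (fun i => ((i.1 : ℕ) : ℂ))
  rw [h0, map_zero] at h2
  have h5 : (Li_M2 n (fun i : Ix n => ((i.1 : ℕ) : ℂ))).BlockTriangular OrderDual.toDual := by
    intro j m hjm
    have hjm' : j < m := hjm
    rw [Li_M2, Matrix.of_apply]
    exact Finset.prod_eq_zero (Finset.mem_erase.2 ⟨hjm'.ne, Finset.mem_univ _⟩) (sub_self _)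
  rw [Matrix.det_of_isLowerTriangular _ h5] at h2
  refine Finset.prod_ne_zero_iff.2 (fun j _ => ?_) h2.symm
  rw [Li_M2, Matrix.of_apply]
  refine Finset.prod_ne_zero_iff.2 fun k hk => ?_
  rw [sub_ne_zero]
  intro h
  have h6 : (j : ℕ) = (k : ℕ) := by exact_mod_cast h
  exact (Finset.mem_erase.1 hk).1 (Fin.ext h6.symm)

theorem Li_split (n : ℕ) (f : ℕ → ℂ) : ∑ i ∈ Finset.range (n + 2 + (n - 1)), f i =
    (∑ i ∈ Finset.range n, f i) + f n + f (n + 1) + ∑ i ∈ Finset.range (n - 1), f (n + 2 + i) := by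
  rw [Finset.sum_range_add, Finset.sum_range_succ, Finset.sum_range_succ]

theorem Li_last (n : ℕ) (hn : n ≠ 0) (f : ℕ → ℂ) (c : ℂ) :
    ∑ j : Fin n, (if (j : ℕ) < n - 1 then f j else c) = (∑ j ∈ Finset.range (n - 1), f j) + c := by
  rw [Fin.sum_univ_eq_sum_range (fun j => if j < n - 1 then f j else c) n]
  obtain ⟨k, rfl⟩ := Nat.exists_eq_succ_of_ne_zero hn
  have hk : k.succ - 1 = k := rfl
  rw [Finset.sum_range_succ, hk, if_neg (lt_irrefl _)]
  exact congrArg (· + c) (Finset.sum_congr rfl fun j hj => if_pos (Finset.mem_range.1 hj))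

theorem sLi (h1 : S_Nm) : S_Li := by
  intro n _
  refine ⟨(Li_M1 n MvPolynomial.X).det * (Li_M2 n MvPolynomial.X).det *
    ∏ k : Fin n, MvPolynomial.X (k, 1), mul_ne_zero (mul_ne_zero (Li_D1 h1 n) (Li_D2 n))
      (Finset.prod_ne_zero_iff.2 fun k _ => MvPolynomial.X_ne_zero _), fun θ hθ => ?_⟩
  rw [map_mul, map_mul, Li_map1 h1, Li_map2, map_prod] at hθ
  simp only [MvPolynomial.eval_X] at hθ
  have hM1 : (Li_M1 n θ).det ≠ 0 := left_ne_zero_of_mul (left_ne_zero_of_mul hθ)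
  have hM2 : (Li_M2 n θ).det ≠ 0 := right_ne_zero_of_mul (left_ne_zero_of_mul hθ)
  have hM3 : ∏ k : Fin n, θ (k, 1) ≠ 0 := right_ne_zero_of_mul hθ
  have hn : n ≠ 0 := NeZero.ne n
  rw [Fintype.linearIndependent_iff]
  intro g hg
  obtain ⟨G, hGg⟩ : ∃ G : ℕ → ℂ, ∀ i : Fin (n + 2 + (n - 1)), G i = g i :=
    ⟨fun i => if h : i < n + 2 + (n - 1) then g ⟨i, h⟩ else 0, fun i => by simp⟩
  have hsum : ∀ l : Ix n, ∑ i ∈ Finset.range (n + 2 + (n - 1)), G i * fr θ i l = 0 := by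
    intro l
    have h2 := congrFun hg l
    rw [Finset.sum_apply, Pi.zero_apply] at h2
    rw [← Fin.sum_univ_eq_sum_range (fun i => G i * fr θ i l) (n + 2 + (n - 1)), ← h2]
    refine Finset.sum_congr rfl fun i _ => ?_
    rw [hGg, Pi.smul_apply, smul_eq_mul]
  have hs : ∀ l : Ix n, (∑ i ∈ Finset.range n, G i * fr θ i l) + G n * fr θ n l +
      G (n + 1) * fr θ (n + 1) l +
      ∑ i ∈ Finset.range (n - 1), G (n + 2 + i) * fr θ (n + 2 + i) l = 0 := by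
    intro l
    rw [← hsum l, Li_split]
  -- the values of `fr`
  have f1 : ∀ (i : ℕ) (l : Ix n), i < n → fr θ i l =
      if l.2 = 2 then -∏ k ∈ Finset.univ.erase l.1, ((i : ℂ) - θ (k, 2)) else 0 := by
    intro i l hi
    rw [fr, if_pos hi]
  have f2 : ∀ (l : Ix n), fr θ n l = if l.2 = 1 then ∏ k : Fin n, θ (k, 1) else 0 := by
    intro l
    rw [fr, if_neg (lt_irrefl _), if_pos rfl]
  have f3 : ∀ (l : Ix n), fr θ (n + 1) l = if l.2 = 0 then 1 else 0 := by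
    intro l
    rw [fr, if_neg (by omega), if_neg (by omega), if_pos rfl]
  have f4 : ∀ (i : ℕ) (l : Ix n), fr θ (n + 2 + i) l = gr θ (i : ℂ) l := by
    intro i l
    rw [fr, if_neg (by omega), if_neg (by omega), if_neg (by omega), Nat.add_sub_cancel_left]
  -- the part of the `α`
  have a1 : (fun j : Fin n => if (j : ℕ) < n - 1 then -G (n + 2 + j) else G (n + 1)) = 0 := by
    refine Matrix.eq_zero_of_vecMul_eq_zero hM1 ?_
    funext m
    have h2 := hs (m, 0)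
    have e1 : ∑ i ∈ Finset.range n, G i * fr θ i (m, 0) = 0 := by
      refine Finset.sum_eq_zero fun i hi => ?_
      rw [f1 i _ (Finset.mem_range.1 hi), if_neg (by simp), mul_zero]
    have e2 : fr θ n (m, 0) = 0 := by rw [f2, if_neg (by simp)]
    have e3 : fr θ (n + 1) (m, 0) = 1 := by rw [f3, if_pos rfl]
    rw [e1, e2, e3] at h2
    have e4 : ∀ i : ℕ, fr θ (n + 2 + i) (m, 0) = -Nm θ (i : ℂ) ((m : ℕ) : ℤ) 0 1 := by
      intro i
      rw [f4, gr, if_pos rfl]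
    simp only [e4] at h2
    rw [Matrix.vecMul, dotProduct, Pi.zero_apply]
    have e5 : ∀ j : Fin n, (if (j : ℕ) < n - 1 then -G (n + 2 + j) else G (n + 1)) *
        Li_M1 n θ j m = if (j : ℕ) < n - 1 then
          -G (n + 2 + j) * Nm θ (((j : ℕ) : ℂ)) ((m : ℕ) : ℤ) 0 1 else G (n + 1) := by
      intro j
      rw [Li_M1, Matrix.of_apply]
      split_ifs
      · rfl
      · rw [mul_one]
    simp only [e5]
    rw [Li_last n hn (fun j => -G (n + 2 + j) * Nm θ ((j : ℂ)) ((m : ℕ) : ℤ) 0 1) (G (n + 1))]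
    have e6 : ∑ j ∈ Finset.range (n - 1), -G (n + 2 + j) * Nm θ ((j : ℂ)) ((m : ℕ) : ℤ) 0 1 =
        ∑ j ∈ Finset.range (n - 1), G (n + 2 + j) * -Nm θ ((j : ℂ)) ((m : ℕ) : ℤ) 0 1 :=
      Finset.sum_congr rfl fun j _ => by ring
    rw [e6]
    linear_combination h2
  have a2 : G (n + 1) = 0 := by
    have h2 := congrFun a1 ⟨n - 1, by omega⟩
    simpa using h2
  have a3 : ∀ j : ℕ, j < n - 1 → G (n + 2 + j) = 0 := by
    intro j hj
    have h2 := congrFun a1 ⟨j, by omega⟩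
    simpa [hj] using h2
  have e7 : ∀ l : Ix n, (∑ i ∈ Finset.range n, G i * fr θ i l) + G n * fr θ n l = 0 := by
    intro l
    have h2 := hs l
    have e8 : ∑ i ∈ Finset.range (n - 1), G (n + 2 + i) * fr θ (n + 2 + i) l = 0 :=
      Finset.sum_eq_zero fun i hi => by rw [a3 i (Finset.mem_range.1 hi), zero_mul]
    rw [a2, e8, zero_mul, add_zero, add_zero] at h2
    exact h2
  have a4 : G n = 0 := by
    have h2 := e7 (⟨0, Nat.pos_of_ne_zero hn⟩, 1)
    have e1 : ∑ i ∈ Finset.range n, G i * fr θ i (⟨0, Nat.pos_of_ne_zero hn⟩, 1) = 0 := by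
      refine Finset.sum_eq_zero fun i hi => ?_
      rw [f1 i _ (Finset.mem_range.1 hi), if_neg (by simp), mul_zero]
    rw [e1, f2, if_pos rfl, zero_add] at h2
    exact (mul_eq_zero.1 h2).resolve_right hM3
  have a5 : (fun j : Fin n => -G j) = 0 := by
    refine Matrix.eq_zero_of_vecMul_eq_zero hM2 ?_
    funext m
    have h2 := e7 (m, 2)
    rw [a4, zero_mul, add_zero] at h2
    rw [Matrix.vecMul, dotProduct, Pi.zero_apply, ← h2,
      ← Fin.sum_univ_eq_sum_range (fun i => G i * fr θ i (m, 2)) n]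
    refine Finset.sum_congr rfl fun j _ => ?_
    rw [f1 j _ j.isLt, if_pos rfl, Li_M2, Matrix.of_apply]
    ring
  intro i
  rw [← hGg i]
  have hi := i.isLt
  by_cases h2 : (i : ℕ) < n
  · have h3 := congrFun a5 ⟨i, h2⟩
    simpa using h3
  by_cases h3 : (i : ℕ) = n
  · rw [h3, a4]
  by_cases h4 : (i : ℕ) = n + 1
  · rw [h4, a2]
  · have h5 : (i : ℕ) = n + 2 + ((i : ℕ) - (n + 2)) := by omega
    rw [h5]
    exact a3 _ (by omega)

end Pool.Agent.MP62a5ad.QN
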