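import Pool.Agent.Lib.MP_62a5ad_mp.QN.SpecA

/-!
# MP_62a5ad_mp, project QN, module Mk: independence of the marking
-/

set_option autoImplicit false
set_option linter.unusedVariables false

namespace Pool.Agent.MP62a5ad.QN

open Matrix

/-! ### `Hx θ x` is a polynomial in `x` -/

private theorem Mk_poly {n : ℕ} [NeZero n] (θ : Ix n → ℂ) :
    ∃ P : Polynomial ℂ, ∀ x, P.eval x = Hx θ x := by
  refine ⟨Hx (fun i => Polynomial.C (θ i)) Polynomial.X, fun x => ?_⟩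
  have hL : ∀ k : ℤ, (Lc (fun i => Polynomial.C (θ i)) Polynomial.X k).map
      (Polynomial.evalRingHom x) = Lc θ x k := by
    intro k
    ext i j
    fin_cases i <;> fin_cases j <;> simp [Lc, Lx]
  have key : ∀ (k : ℕ) (m : ℤ), (Nc (fun i => Polynomial.C (θ i)) Polynomial.X m k).map
      (Polynomial.evalRingHom x) = Nc θ x m k := by
    intro k
    induction k with
    | zero =>
      intro m
      simp [Nc]
    | succ k ih =>
      intro m
      rw [Nc, Nc, Matrix.map_mul, hL, ih]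
  have h0 := key n 0
  unfold Hx Nm
  rw [← h0, Matrix.trace_fin_two, Matrix.trace_fin_two]
  simp [Matrix.map_apply]

private theorem Mk_eq {n : ℕ} [NeZero n] (θ θ' : Ix n → ℂ) (S : Set ℂ) (hS : S.Finite)
    (h : ∀ x, x ∉ S → Hx θ x = Hx θ' x) (x : ℂ) : Hx θ x = Hx θ' x := by
  obtain ⟨P, hP⟩ := Mk_poly θ
  obtain ⟨Q, hQ⟩ := Mk_poly θ'
  have hPQ : P = Q := by
    refine Polynomial.eq_of_infinite_eval_eq P Q ?_
    refine Set.Infinite.mono (s := Sᶜ) ?_ hS.infinite_compl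
    intro y hy
    show P.eval y = Q.eval y
    rw [hP, hQ]
    exact h y hy
  rw [← hP, ← hQ, hPQ]

/-! ### Restriction of the half times -/

private theorem Mk_ok {p : Fin 4 → ℂ} {D : ℤ → ℤ → Fin 3 → ℂ} {H : ℤ → ℤ → ℂ} {lo hi lo' hi' : ℤ}
    (h : Ok p D H lo hi) (h1 : lo ≤ lo') (h2 : hi' ≤ hi) : Ok p D H lo' hi' :=
  ⟨h.p0, fun τ m a b => h.rel τ m (h1.trans a) (lt_of_lt_of_le b h2),
    fun τ m a b => h.eta τ m (h1.trans a) (lt_of_lt_of_le b h2),
    fun τ m a b => h.ps τ m (h1.trans a) (b.trans h2),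
    fun τ m a b => h.nd τ m (h1.trans a) (lt_of_lt_of_le b h2)⟩

/-! ### Permutations which fix `0` -/

private theorem Mk_sym (w : Fin 4 → ℂ) (hw : w 0 ≠ 0) (π : Equiv.Perm (Fin 4)) (h : π 0 = 0) :
    e1 (w ∘ π) = e1 w ∧ e2 (w ∘ π) = e2 w ∧ e3 (w ∘ π) = e3 w := by
  have s1 := Equiv.sum_comp π w
  have s2 := Equiv.sum_comp π (fun i => w i ^ 2)
  have s3 := Equiv.prod_comp π w
  simp only [Fin.sum_univ_four, Fin.prod_univ_four, h] at s1 s2 s3
  unfold e1 e2 e3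
  simp only [Function.comp]
  refine ⟨?_, ?_, ?_⟩
  · linear_combination s1
  · linear_combination ((w (π 1) + w (π 2) + w (π 3) + (w 1 + w 2 + w 3)) / 2) * s1 - (1 / 2) * s2
  · refine mul_left_cancel₀ hw ?_
    linear_combination s3

private theorem Mk_pw (w : Fin 4 → ℂ) :
    pw w = ![w 0 * e3 w, -(w 0 * e2 w + e3 w), w 0 * e1 w + e2 w, -(w 0 + e1 w)] := by
  unfold pw e1 e2 e3
  congr 1
  · ring
  · congr 1
    · ring
    · congr 1
      · ring
      · congr 1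
        ring

private theorem Mk_fix (n : ℕ) [NeZero n] (w w' : Fin 4 → ℂ) (D : ℤ → ℤ → Fin 3 → ℂ)
    (H : ℤ → ℤ → ℂ) (h0 : w' 0 = w 0) (h1 : e1 w' = e1 w) (h2 : e2 w' = e2 w)
    (h3 : e3 w' = e3 w) : pw w' = pw w ∧ (∀ τ m, cst w' D τ m = cst w D τ m) ∧
    (∀ x, chi w' x = chi w x) ∧ (∀ τ, thx n w' D H τ = thx n w D H τ) ∧
    ∀ τ m, rho w' D H τ m = rho w D H τ m := by
  have hg : ∀ τ m, gam w' D τ m = gam w D τ m := by
    intro τ m
    unfold gam
    rw [h0]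
  have hd : ∀ τ m, dlt w' D τ m = dlt w D τ m := by
    intro τ m
    unfold dlt
    rw [h0]
  have hc : ∀ τ m, cst w' D τ m = cst w D τ m := by
    intro τ m
    unfold cst
    rw [h0, h3]
  have hr : ∀ τ m, rho w' D H τ m = rho w D H τ m := by
    intro τ m
    unfold rho
    rw [h0, hg, hd]
  have hj : ∀ z, jA w' z = jA w z := by
    intro z
    unfold jA
    rw [h0, h1, h3]
  have ha : ∀ τ m, alp w' D H τ m = alp w D H τ m := by
    intro τ m
    unfold alp alr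
    rw [h0, h1, hg, hd, hr, hj, hj]
  refine ⟨?_, hc, ?_, ?_, hr⟩
  · rw [Mk_pw, Mk_pw, h0, h1, h2, h3]
  · intro x
    unfold chi
    rw [h0, h1, h2]
  · intro τ
    funext i
    unfold thx
    rw [ha, hr, hc]

/-! ### The transposition of `0` and `1` -/

private theorem Mk_tpr (hIw : S_Iw) (w : Fin 4 → ℂ) (D : ℤ → ℤ → Fin 3 → ℂ)
    (H : ℤ → ℤ → ℂ) (τ : ℤ) (hw : ∀ i, w i ≠ 0) (hi : Function.Injective w)
    (hok : Ok (pw w) D H (τ - 1) τ) (x : ℂ) (k : ℕ) :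
    tpr (w ∘ Equiv.swap 0 1) D H τ x k * Wx w x = Wx w x * tpr w D H τ x k := by
  induction k with
  | zero => simp [tpr]
  | succ k ih =>
    rw [tpr, tpr, Matrix.mul_assoc, hIw ℂ w D H τ hw hi hok k x, ← Matrix.mul_assoc, ih,
      Matrix.mul_assoc]

private theorem Mk_swap (hNz : S_Nz) (hFr : S_Fr) (hIw : S_Iw) (n : ℕ) [NeZero n]
    (w : Fin 4 → ℂ) (D : ℤ → ℤ → Fin 3 → ℂ) (H : ℤ → ℤ → ℂ) (τ : ℤ) (hw : ∀ i, w i ≠ 0)
    (hi : Function.Injective w) (hok : Ok (pw w) D H (τ - 2) τ)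
    (hc : ∀ m i, i ≠ 0 → chi w (w i) ≠ cst w D τ m) (hD : ∀ σ m, D σ (m + n) = D σ m)
    (hH : ∀ σ m, H σ (m + n) = H σ m) :
    pw (w ∘ Equiv.swap 0 1) = pw w ∧
    (∀ x, Hx (thx n (w ∘ Equiv.swap 0 1) D H τ) x = Hx (thx n w D H τ) x) ∧
    ∏ m ∈ Finset.range n, rho (w ∘ Equiv.swap 0 1) D H τ m =
      ∏ m ∈ Finset.range n, rho w D H τ m := by
  set w' : Fin 4 → ℂ := w ∘ Equiv.swap 0 1 with hw'
  have s0 : w' 0 = w 1 := rfl
  have s1 : w' 1 = w 0 := rfl
  have s2 : w' 2 = w 2 := rfl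
  have s3 : w' 3 = w 3 := rfl
  have hpw : pw w' = pw w := by
    unfold pw
    rw [s0, s1, s2, s3]
    congr 1
    · ring
    · congr 1
      · ring
      · congr 1
        · ring
        · congr 1
          ring
  have hcst : ∀ σ m, cst w' D σ m = cst w D σ m := by
    intro σ m
    unfold cst e3
    rw [s0, s1, s2, s3]
    congr 2
    ring
  have hcst1 : ∀ m, cst w D (τ - 1) m = cst w D τ m := by
    intro m
    have h := ((hNz ℂ w D H (τ - 2) τ hw hok).2 (τ - 1) m (by omega) (by omega)).2.2.2.1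
    rw [sub_add_cancel] at h
    exact h.symm
  have hchi : ∀ m i, i ≠ 0 → chi w (w i) ≠ cst w D (τ - 1) m := by
    intro m i h
    rw [hcst1]
    exact hc m i h
  have hchi' : ∀ m i, i ≠ 0 → chi w' (w' i) ≠ cst w' D (τ - 1) m := by
    intro m i h
    rw [hcst]
    have h1 := hchi m 1 (by decide)
    have h2 := hchi m 2 (by decide)
    have h3 := hchi m 3 (by decide)
    have g1 : chi w' (w' 1) = chi w (w 1) := by
      unfold chi e1 e2
      rw [s0, s1, s2, s3]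
      ring
    have g2 : chi w' (w' 2) = chi w (w 3) := by
      unfold chi e1 e2
      rw [s0, s1, s2, s3]
      ring
    have g3 : chi w' (w' 3) = chi w (w 2) := by
      unfold chi e1 e2
      rw [s0, s1, s2, s3]
      ring
    fin_cases i
    · exact absurd rfl h
    · show chi w' (w' 1) ≠ _
      rw [g1]
      exact h1
    · show chi w' (w' 2) ≠ _
      rw [g2]
      exact h3
    · show chi w' (w' 3) ≠ _
      rw [g3]
      exact h2
  have hw2 : ∀ i, w' i ≠ 0 := fun i => hw _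
  have hi2 : Function.Injective w' := hi.comp (Equiv.swap 0 1).injective
  have hok1 : Ok (pw w) D H (τ - 1 - 1) (τ - 1 + 1) := Mk_ok hok (by omega) (by omega)
  have hok2 : Ok (pw w') D H (τ - 1 - 1) (τ - 1 + 1) := by
    rw [hpw]
    exact hok1
  have hok3 : Ok (pw w) D H (τ - 1 - 1) (τ - 1) := Mk_ok hok (by omega) (by omega)
  obtain ⟨f1, f2⟩ := hFr ℂ n w D H (τ - 1) hw hi hok1 hchi hD hH
  obtain ⟨f1', f2'⟩ := hFr ℂ n w' D H (τ - 1) hw2 hi2 hok2 hchi' hD hH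
  rw [sub_add_cancel] at f2 f2'
  have e0 : τ - 1 + 1 = τ := by ring
  simp only [e0] at f1 f1'
  refine ⟨hpw, ?_, f2'.trans f2.symm⟩
  have hprod : ∏ m ∈ Finset.range n, (D (τ - 1 - 1) m 0 - D (τ - 1) m 0) ≠ 0 := by
    rw [Finset.prod_ne_zero_iff]
    intro m _
    refine sub_ne_zero.mpr ?_
    have h := hok1.nd (τ - 1 - 1) m le_rfl (by omega)
    rw [sub_add_cancel] at h
    exact h
  refine fun x => Mk_eq _ _ {w 0 * w 2 + w 1 * w 3, w 0 * w 3 + w 1 * w 2} (by simp) ?_ x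
  intro y hy
  rw [Set.mem_insert_iff, Set.mem_singleton_iff, not_or] at hy
  have hdet : IsUnit (Wx w y).det := by
    have h : (Wx w y).det = (w 2 - w 3) ^ 2 * (y - (w 0 * w 2 + w 1 * w 3)) *
        (y - (w 0 * w 3 + w 1 * w 2)) := by
      unfold Wx
      rw [Matrix.det_fin_two_of]
      ring
    rw [h]
    refine IsUnit.mk0 _ ?_
    refine mul_ne_zero (mul_ne_zero (pow_ne_zero 2 (sub_ne_zero.mpr ?_)) (sub_ne_zero.mpr hy.1))
      (sub_ne_zero.mpr hy.2)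
    intro h23
    exact absurd (hi h23) (by decide)
  have htr : (tpr w' D H (τ - 1) y n).trace = (tpr w D H (τ - 1) y n).trace := by
    have h := Mk_tpr hIw w D H (τ - 1) hw hi hok3 y n
    rw [← hw'] at h
    calc (tpr w' D H (τ - 1) y n).trace
        = (tpr w' D H (τ - 1) y n * Wx w y * (Wx w y)⁻¹).trace := by
          rw [Matrix.mul_assoc, Matrix.mul_nonsing_inv _ hdet, Matrix.mul_one]
      _ = ((Wx w y)⁻¹ * (Wx w y * tpr w D H (τ - 1) y n)).trace := by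
          rw [h, Matrix.trace_mul_comm]
      _ = (tpr w D H (τ - 1) y n).trace := by
          rw [← Matrix.mul_assoc, Matrix.nonsing_inv_mul _ hdet, Matrix.one_mul]
  rw [f1, f1'] at htr
  exact mul_left_cancel₀ hprod htr

theorem sMk (h1 : S_Nz) (h2 : S_Fr) (h3 : S_Iw) : S_Mk := by
  intro n _ w D H τ σ hw hi hok hc hD hH
  by_cases hσ : σ 0 = 0
  · obtain ⟨g1, g2, g3⟩ := Mk_sym w (hw 0) σ hσ
    obtain ⟨-, -, -, k1, k2⟩ := Mk_fix n w (w ∘ σ) D H (congrArg w hσ) g1 g2 g3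
    refine ⟨fun x => by rw [k1 τ], Finset.prod_congr rfl fun m _ => k2 τ m⟩
  · set π : Equiv.Perm (Fin 4) := Equiv.swap 1 (σ 0) with hπ
    have hπ0 : π 0 = 0 := by
      rw [hπ]
      exact Equiv.swap_apply_of_ne_of_ne (by decide) (fun h => hσ h.symm)
    obtain ⟨g1, g2, g3⟩ := Mk_sym w (hw 0) π hπ0
    obtain ⟨a1, a2, a3, a4, a5⟩ := Mk_fix n w (w ∘ π) D H (congrArg w hπ0) g1 g2 g3
    have hok1 : Ok (pw (w ∘ π)) D H (τ - 2) τ := by
      rw [a1]
      exact hok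
    have hc1 : ∀ m i, i ≠ 0 → chi (w ∘ π) ((w ∘ π) i) ≠ cst (w ∘ π) D τ m := by
      intro m i h
      rw [a3, a2]
      refine hc m (π i) ?_
      intro h'
      rw [← hπ0] at h'
      exact h (π.injective h')
    obtain ⟨b1, b2, b3⟩ := Mk_swap h1 h2 h3 n (w ∘ π) D H τ (fun i => hw _)
      (hi.comp π.injective) hok1 hc1 hD hH
    set w2 : Fin 4 → ℂ := (w ∘ π) ∘ Equiv.swap 0 1 with hw2
    set ρ : Equiv.Perm (Fin 4) := (Equiv.swap 0 1) * (π⁻¹ * σ) with hρ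
    have hρ0 : ρ 0 = 0 := by
      rw [hρ, Equiv.Perm.mul_apply, Equiv.Perm.mul_apply]
      have h4 : π⁻¹ (σ 0) = 1 := by
        rw [Equiv.Perm.inv_eq_iff_eq, hπ, Equiv.swap_apply_left]
      rw [h4, Equiv.swap_apply_right]
    have hcomp : w2 ∘ ρ = w ∘ σ := by
      funext i
      rw [hw2, hρ]
      simp only [Function.comp, Equiv.Perm.mul_apply, Equiv.swap_apply_self]
      rw [← Equiv.Perm.mul_apply π π⁻¹, mul_inv_cancel, Equiv.Perm.one_apply]
    obtain ⟨g1', g2', g3'⟩ := Mk_sym w2 (hw _) ρ hρ0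
    obtain ⟨-, -, -, c4, c5⟩ := Mk_fix n w2 (w2 ∘ ρ) D H (congrArg w2 hρ0) g1' g2' g3'
    rw [hcomp] at c4 c5
    refine ⟨fun x => ?_, ?_⟩
    · rw [c4 τ, b2 x, a4 τ]
    · exact (Finset.prod_congr rfl fun (m : ℕ) _ => c5 τ (m : ℤ)).trans
        (b3.trans (Finset.prod_congr rfl fun (m : ℕ) _ => a5 τ (m : ℤ)))

end Pool.Agent.MP62a5ad.QN
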