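import Pool.Agent.Lib.MP_62a5ad_mp.QN.SpecC

/-!
# MP_62a5ad_mp, QN: functions of two eigenvalues
-/

set_option autoImplicit false

namespace Pool.Agent.MP62a5ad.QN

open Matrix Polynomial

namespace N2Aux

/-- The ring of the functions which are rational at `y0`. -/
def sub {n : ℕ} (hR : S_RaA) (y0 : E n) : Subring (E n → ℝ) where
  carrier := {f | RA y0 f}
  mul_mem' := fun hf hg => (hR _ y0).mul _ _ hf hg
  one_mem' := (hR _ y0).const 1
  add_mem' := fun hf hg => (hR _ y0).add _ _ hf hg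
  zero_mem' := (hR _ y0).const 0
  neg_mem' := fun hf => (hR _ y0).neg _ hf

/-- The value at `y`. -/
def ev {n : ℕ} (hR : S_RaA) (y0 y : E n) : sub hR y0 →+* ℂ :=
  (Complex.ofRealHom.comp (Pi.evalRingHom (fun _ => ℝ) y)).comp (sub hR y0).subtype

/-- The value at `y`, `m'`. -/
noncomputable def ev1 {n : ℕ} (hR : S_RaA) (y0 y : E n) (m' : ℂ) : (sub hR y0)[X] →+* ℂ :=
  Polynomial.eval₂RingHom (ev hR y0 y) m'

lemma ex {n : ℕ} (hR : S_RaA) (y0 : E n) (G : E n → ℂ → ℂ → ℂ) (h : RP y0 G) :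
    ∃ P : (sub hR y0)[X][X], ∀ y m m', G y m m' = P.eval₂ (ev1 hR y0 y m') m := by
  induction h with
  | coef f hf =>
    refine ⟨C (C ⟨f, hf⟩), fun y m m' => ?_⟩
    rw [Polynomial.eval₂_C]
    show _ = Polynomial.eval₂ (ev hR y0 y) m' (C ⟨f, hf⟩)
    rw [Polynomial.eval₂_C]
    rfl
  | fst => exact ⟨X, fun y m m' => by rw [Polynomial.eval₂_X]⟩
  | snd =>
    refine ⟨C X, fun y m m' => ?_⟩
    rw [Polynomial.eval₂_C]
    show _ = Polynomial.eval₂ (ev hR y0 y) m' X
    rw [Polynomial.eval₂_X]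
  | add F G _ _ ih1 ih2 =>
    obtain ⟨P, hP⟩ := ih1
    obtain ⟨P', hP'⟩ := ih2
    refine ⟨P + P', fun y m m' => ?_⟩
    rw [Polynomial.eval₂_add, ← hP, ← hP']
  | mul F G _ _ ih1 ih2 =>
    obtain ⟨P, hP⟩ := ih1
    obtain ⟨P', hP'⟩ := ih2
    refine ⟨P * P', fun y m m' => ?_⟩
    rw [Polynomial.eval₂_mul, ← hP, ← hP']

/-- The monodromy as a matrix of rational functions. -/
def MS {n : ℕ} [NeZero n] (hR : S_RaA) (y0 : E n) : Matrix (Fin 4) (Fin 4) (sub hR y0) :=
  fun i j => ⟨fun y => mono (cc n y) i j, by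
    show RA y0 _
    have h0 := (hR _ y0).const 0
    have h1 := (hR _ y0).const 1
    have c0 := (hR _ y0).neg _ ((hR _ y0).coord (0, 0))
    have c1 := (hR _ y0).coord (0, 1)
    have c2 := (hR _ y0).neg _ ((hR _ y0).coord (0, 2))
    fin_cases i <;> fin_cases j <;>
      first
        | exact h0
        | exact h1
        | exact c0
        | exact c1
        | exact c2⟩

lemma nrm (hN : S_Nrm) (c : Fin 3 → ℝ) (P : ℂ[X]) :
    (Polynomial.aeval (cmono c) P).det ≠ 0 ↔ ∀ m : ℂ, cpl c m = 0 → P.eval m ≠ 0 := by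
  have h := hN c P.natDegree fun k => P.coeff k
  rw [Polynomial.aeval_eq_sum_range, Finset.sum_range]
  rw [h]
  refine forall_congr' fun m => ?_
  rw [Polynomial.eval_eq_sum_range, Finset.sum_range]

/-- The determinant of a polynomial in a matrix under a homomorphism. -/
lemma det_mp {R : Type} [CommRing R] (ψ : R →+* ℂ) (M : Matrix (Fin 4) (Fin 4) R) (P : R[X]) :
    ψ (Polynomial.aeval M P).det = (Polynomial.aeval (ψ.mapMatrix M) (P.map ψ)).det := by
  rw [RingHom.map_det]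
  have h := Polynomial.map_aeval_eq_aeval_map (S := Matrix (Fin 4) (Fin 4) R) (T := ℂ)
    (U := Matrix (Fin 4) (Fin 4) ℂ) (φ := ψ) (ψ := ψ.mapMatrix) (by
      ext r i j
      simp only [RingHom.coe_comp, Function.comp_apply, RingHom.mapMatrix_apply, Matrix.map_apply,
        Matrix.algebraMap_matrix_apply, Algebra.algebraMap_self, RingHom.id_apply]
      split_ifs <;> simp) P M
  rw [h]

end N2Aux

open N2Aux in
/-- Functions of two eigenvalues. -/
theorem tN2 (hRaA : S_RaA) (hNrm : S_Nrm) : S_N2 := by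
  intro n _ y0 hroot G hG h0
  obtain ⟨P, hP⟩ := ex hRaA y0 G hG
  set D1 : (sub hRaA y0)[X] := (Polynomial.aeval ((MS hRaA y0).map C) P).det with hD1
  set D2 : sub hRaA y0 := (Polynomial.aeval (MS hRaA y0) D1).det with hD2
  have key : ∀ y, (D2 : E n → ℝ) y ≠ 0 ↔
      ∀ m' : ℂ, cpl (cc n y) m' = 0 → ∀ m : ℂ, cpl (cc n y) m = 0 → G y m m' ≠ 0 := by
    intro y
    have e1 : (D2 : E n → ℝ) y ≠ 0 ↔ ev hRaA y0 y D2 ≠ 0 := by
      show _ ↔ (((D2 : E n → ℝ) y : ℝ) : ℂ) ≠ 0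
      exact Complex.ofReal_ne_zero.symm
    have e2 : (ev hRaA y0 y).mapMatrix (MS hRaA y0) = cmono (cc n y) := by
      ext i j
      rfl
    rw [e1, hD2, det_mp, e2, nrm hNrm]
    refine forall_congr' fun m' => imp_congr_right fun _ => ?_
    have e3 : (D1.map (ev hRaA y0 y)).eval m' = ev1 hRaA y0 y m' D1 := by
      rw [Polynomial.eval_map]
      rfl
    have e4 : (ev1 hRaA y0 y m').mapMatrix ((MS hRaA y0).map C) = cmono (cc n y) := by
      ext i j
      show Polynomial.eval₂ (ev hRaA y0 y) m' (C (MS hRaA y0 i j)) = _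
      rw [Polynomial.eval₂_C]
      rfl
    rw [e3, hD1, det_mp, e4, nrm hNrm]
    refine forall_congr' fun m => imp_congr_right fun _ => ?_
    rw [Polynomial.eval_map, hP]
  have h1 : (D2 : E n → ℝ) y0 ≠ 0 := by
    rw [key]
    intro m' hm' m hm
    rw [hroot m' hm', hroot m hm]
    exact h0
  filter_upwards [(hRaA _ y0).nz _ D2.2 h1] with y hy m m' hm hm'
  exact (key y).1 hy m' hm' m hm

end Pool.Agent.MP62a5ad.QN
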