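import Pool.Agent.Lib.MP_62a5ad_mp.QN.SpecB

/-!
# MP_62a5ad_mp, project QN, module Nm: bookkeeping for the monodromy matrix
-/

set_option autoImplicit false

namespace Pool.Agent.MP62a5ad.QN

open Matrix

section Nm

variable {n : ℕ} [NeZero n]

private theorem Nm_val (k : ℤ) : (((rs n k : Fin n) : ℕ) : ℤ) = k % (n : ℤ) := by
  have hn : 0 < n := Nat.pos_of_ne_zero (NeZero.ne n)
  have h0 : 0 ≤ k % (n : ℤ) := Int.emod_nonneg _ (by omega)
  have h1 : k % (n : ℤ) < n := Int.emod_lt_of_pos _ (by omega)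
  unfold rs
  rw [Fin.val_ofNat, Nat.mod_eq_of_lt (by omega), Int.toNat_of_nonneg h0]

omit [NeZero n] in
private theorem Nm_ext (a b : Fin n) (h : ((a : ℕ) : ℤ) = ((b : ℕ) : ℤ)) : a = b :=
  Fin.ext (by exact_mod_cast h)

private theorem Nm_one (k : Fin n) : rs n ((k : ℕ) : ℤ) = k := by
  apply Nm_ext
  rw [Nm_val]
  exact Int.emod_eq_of_lt (by omega) (by have := k.2; omega)

private theorem Nm_per (k : ℤ) : rs n (k + n) = rs n k := by
  apply Nm_ext
  rw [Nm_val, Nm_val, Int.add_emod_right]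

private theorem Nm_add (k j : ℤ) : rs n (((rs n k : Fin n) : ℕ) + j) = rs n (k + j) := by
  apply Nm_ext
  rw [Nm_val, Nm_val, Nm_val, Int.emod_add_emod]

private theorem Nm_succ (k : ℤ) : rs n (k + 1) = rs n k + 1 := by
  apply Nm_ext
  rw [Nm_val, Fin.val_add, Fin.val_one', Int.add_emod]
  push_cast
  rw [Nm_val]

variable {R : Type} [CommRing R] (θ : Ix n → R) (x : R)

private theorem Nm_Lper (m : ℤ) : Lc θ x (m + n) = Lc θ x m := by
  unfold Lc
  rw [Nm_per]

private theorem Nm_first (m : ℤ) (k : ℕ) :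
    Nc θ x m (k + 1) = Nc θ x (m + 1) k * Lc θ x m := by
  induction k with
  | zero =>
    change Lc θ x (m + ((0 : ℕ) : ℤ)) * 1 = 1 * Lc θ x m
    rw [Nat.cast_zero, add_zero, Matrix.mul_one, Matrix.one_mul]
  | succ k ih =>
    change Lc θ x (m + ((k + 1 : ℕ) : ℤ)) * Nc θ x m (k + 1) =
      Lc θ x (m + 1 + (k : ℤ)) * Nc θ x (m + 1) k * Lc θ x m
    rw [ih, Matrix.mul_assoc]
    have e : m + ((k + 1 : ℕ) : ℤ) = m + 1 + (k : ℤ) := by push_cast; ring
    rw [e]

private theorem Nm_split (m : ℤ) (j k : ℕ) :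
    Nc θ x m (j + k) = Nc θ x (m + j) k * Nc θ x m j := by
  induction k with
  | zero =>
    change Nc θ x m j = 1 * Nc θ x m j
    rw [Matrix.one_mul]
  | succ k ih =>
    change Lc θ x (m + ((j + k : ℕ) : ℤ)) * Nc θ x m (j + k) =
      Lc θ x (m + j + (k : ℤ)) * Nc θ x (m + j) k * Nc θ x m j
    rw [ih, Matrix.mul_assoc]
    have e : m + ((j + k : ℕ) : ℤ) = m + j + (k : ℤ) := by push_cast; ring
    rw [e]

private theorem Nm_com (m : ℤ) : Nm θ x (m + 1) * Lc θ x m = Lc θ x m * Nm θ x m := by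
  unfold Nm
  rw [← Nm_first]
  change Lc θ x (m + (n : ℤ)) * Nc θ x m n = _
  rw [Nm_Lper]

private theorem Nm_pos : n - 1 + 1 = n := Nat.sub_add_cancel (Nat.pos_of_ne_zero (NeZero.ne n))

private theorem Nm_a (m : ℤ) : Nm θ x (m + 1) = Lc θ x m * Nc θ x (m + 1) (n - 1) := by
  unfold Nm
  have e : Nc θ x (m + 1) n = Nc θ x (m + 1) (n - 1 + 1) := by rw [Nm_pos]
  rw [e]
  change Lc θ x (m + 1 + ((n - 1 : ℕ) : ℤ)) * Nc θ x (m + 1) (n - 1) = _
  have hn : 0 < n := Nat.pos_of_ne_zero (NeZero.ne n)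
  have e2 : m + 1 + ((n - 1 : ℕ) : ℤ) = m + n := by omega
  rw [e2, Nm_Lper]

private theorem Nm_b (m : ℤ) : Nm θ x m = Nc θ x (m + 1) (n - 1) * Lc θ x m := by
  unfold Nm
  have e : Nc θ x m n = Nc θ x m (n - 1 + 1) := by rw [Nm_pos]
  rw [e, Nm_first]

/-- a function of the matrix which does not depend on the order of two factors -/
private theorem Nm_inv {S : Type} (g : Matrix (Fin 2) (Fin 2) R → S)
    (hg : ∀ A B, g (A * B) = g (B * A)) (m : ℤ) : g (Nm θ x m) = g (Nm θ x 0) := by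
  have h1 : ∀ m : ℤ, g (Nm θ x (m + 1)) = g (Nm θ x m) := by
    intro m
    rw [Nm_a, hg, ← Nm_b]
  induction m using Int.induction_on with
  | zero => rfl
  | succ i ih => rw [h1, ih]
  | pred i ih =>
    rw [← h1, sub_add_cancel, ih]

private theorem Nm_Ldet (k : ℤ) :
    (Lc θ x k).det = -(θ (rs n k, 1) * (x - θ (rs n k, 2))) := by
  unfold Lc Lx
  rw [Matrix.det_fin_two_of]
  ring

private theorem Nm_det0 (k : ℕ) :
    (Nc θ x 0 k).det = ∏ i ∈ Finset.range k, (-(θ (rs n i, 1) * (x - θ (rs n i, 2)))) := by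
  induction k with
  | zero =>
    change (1 : Matrix (Fin 2) (Fin 2) R).det = _
    rw [Matrix.det_one, Finset.prod_range_zero]
  | succ k ih =>
    change (Lc θ x (0 + (k : ℤ)) * Nc θ x 0 k).det = _
    rw [Matrix.det_mul, ih, Nm_Ldet, zero_add, Finset.prod_range_succ, mul_comm]

private theorem Nm_Lmap {S : Type} [CommRing S] (f : R →+* S) (k : ℤ) :
    (Lc θ x k).map f = Lc (fun i => f (θ i)) (f x) k := by
  unfold Lc Lx
  ext i j
  fin_cases i <;> fin_cases j <;> simp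

private theorem Nm_map {S : Type} [CommRing S] (f : R →+* S) (m : ℤ) (k : ℕ) :
    (Nc θ x m k).map f = Nc (fun i => f (θ i)) (f x) m k := by
  induction k with
  | zero =>
    change (1 : Matrix (Fin 2) (Fin 2) R).map f = 1
    exact Matrix.map_one f (map_zero f) (map_one f)
  | succ k ih =>
    change (Lc θ x (m + (k : ℤ)) * Nc θ x m k).map f =
      Lc (fun i => f (θ i)) (f x) (m + (k : ℤ)) * Nc (fun i => f (θ i)) (f x) m k
    rw [Matrix.map_mul, ih, Nm_Lmap]

end Nm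

theorem sNm : S_Nm := by
  intro R _ n _ θ x
  refine ⟨Nm_one, fun k j => ⟨Nm_per k, Nm_add k j, Nm_succ k⟩, Nm_first θ x, Nm_split θ x,
    fun m => ⟨Nm_Lper θ x m, Nm_com θ x m⟩, fun m => ⟨?_, Nm_a θ x m, Nm_b θ x m⟩, ?_, ?_⟩
  · exact Nm_inv θ x (fun A => A.trace) (fun A B => Matrix.trace_mul_comm A B) m
  · intro m
    rw [Nm_inv θ x (fun A => A.det) (fun A B => Matrix.det_mul_comm A B) m]
    unfold Nm
    rw [Nm_det0, Finset.prod_range]
    refine Finset.prod_congr rfl fun i _ => ?_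
    rw [Nm_one]
  · intro S _ f
    refine ⟨Nm_map θ x f, ?_⟩
    unfold Hx Nm
    rw [← Nm_map, Matrix.trace_fin_two, Matrix.trace_fin_two, map_add]
    rfl

end Pool.Agent.MP62a5ad.QN
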