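import Pool.Agent.Lib.MP_62a5ad_mp.QN.SpecC

/-!
# MP_62a5ad_mp, project QN: the number `ν`
-/

set_option autoImplicit false

namespace Pool.Agent.MP62a5ad.QN

private theorem nu_int {n e : ℕ} {r r' c : ℤ} (hn : 3 ≤ n) (he : 0 < e)
    (h : r * r' = 1 + n * c) {ν : ℝ} (hν : ν = r / (n * e)) (z : ℤ) : ν ≠ z := by
  intro hz
  have hne : ((n : ℝ) * e) ≠ 0 := by
    have h1 : (0 : ℝ) < n := by exact_mod_cast (by omega : 0 < n)
    have h2 : (0 : ℝ) < e := by exact_mod_cast he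
    positivity
  rw [hz, eq_div_iff hne] at hν
  have h2 : z * ((n : ℤ) * e) = r := by exact_mod_cast hν
  have h3 : (n : ℤ) ∣ 1 := by
    refine ⟨z * e * r' - c, ?_⟩
    have : z * ((n : ℤ) * e) * r' = 1 + n * c := by rw [h2]; exact h
    linear_combination (-1 : ℤ) * this
  have h4 := Int.le_of_dvd one_pos h3
  have h5 : (n : ℤ) ≤ 1 := h4
  omega

private theorem nu_half {n e : ℕ} {r r' c : ℤ} (hn : 3 ≤ n) (he : 0 < e)
    (h : r * r' = 1 + n * c) {ν : ℝ} (hν : ν = r / (n * e)) : ν ≠ 1 / 2 := by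
  intro hz
  have hne : ((n : ℝ) * e) ≠ 0 := by
    have h1 : (0 : ℝ) < n := by exact_mod_cast (by omega : 0 < n)
    have h2 : (0 : ℝ) < e := by exact_mod_cast he
    positivity
  rw [hz, eq_div_iff hne] at hν
  have h1 : ((n : ℝ) * e) = 2 * r := by linarith
  have h2 : ((n : ℤ) * e) = 2 * r := by exact_mod_cast h1
  have h3 : (n : ℤ) ∣ 2 := by
    refine ⟨e * r' - 2 * c, ?_⟩
    have : ((n : ℤ) * e) * r' = 2 * (1 + n * c) := by rw [h2, mul_assoc, h]
    linear_combination (-1 : ℤ) * this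
  have h4 := Int.le_of_dvd two_pos h3
  omega

theorem tNu : S_Nu := by
  intro n e r r' c hn he h ν hν
  have H := nu_int hn he h hν
  refine ⟨?_, ?_, ?_, ?_, nu_half hn he h hν⟩
  · simpa using H (-1)
  · simpa using H 0
  · simpa using H 1
  · simpa using H 2

end Pool.Agent.MP62a5ad.QN
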