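import Pool.Agent.Lib.MP_62a5ad_mp.QN.SpecA

/-!
# MP_62a5ad_mp, project QN: nonvanishing
-/

set_option autoImplicit false

namespace Pool.Agent.MP62a5ad.QN

open Matrix

namespace NzAux

variable {K : Type} [Field K]

private theorem pv_pw (w : Fin 4 → K) (x : K) :
    pv (pw w) x = (x - w 0) * (x - w 1) * (x - w 2) * (x - w 3) := by
  have h0 : pw w 0 = w 0 * w 1 * w 2 * w 3 := rfl
  have h1 : pw w 1 =
      -(w 0 * w 1 * w 2 + w 0 * w 1 * w 3 + w 0 * w 2 * w 3 + w 1 * w 2 * w 3) := rfl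
  have h2 : pw w 2 =
      w 0 * w 1 + w 0 * w 2 + w 0 * w 3 + w 1 * w 2 + w 1 * w 3 + w 2 * w 3 := rfl
  have h3 : pw w 3 = -(w 0 + w 1 + w 2 + w 3) := rfl
  unfold pv
  rw [h0, h1, h2, h3]
  ring

private theorem ne_of_pv {w : Fin 4 → K} {x : K} (h : pv (pw w) x ≠ 0) (i : Fin 4) :
    w i ≠ x := by
  intro hi
  apply h
  rw [pv_pw, ← hi]
  fin_cases i <;> simp

end NzAux

open NzAux in
theorem sNz (h1 : S_Rel) (h2 : S_Jx) : S_Nz := by
  intro K _ w D H lo hi hw ok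
  have A : ∀ τ m, lo ≤ τ → τ ≤ hi → ∀ i, w i ≠ D τ m 0 := fun τ m hl hh i =>
    ne_of_pv (ok.ps τ m hl hh) i
  refine ⟨A, ?_⟩
  intro τ m hl hh
  have R := ok.rel τ m hl hh
  have hη := ok.eta τ m hl hh
  have hs := A τ (m + 1) hl hh.le
  have hz' := A (τ + 1) m (by omega) (by omega)
  have hz := A τ m hl hh.le
  have ps1 := ok.ps τ (m + 1) hl hh.le
  have ps2 := ok.ps (τ + 1) m (by omega) (by omega)
  obtain ⟨J1, J2, J3, J4, J5, J6, J7, J8⟩ := h2 K w _ _ _ _ hw hη R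
  have R' := (h1 K (pw w)).2.2.1 _ _ _ _ R
  obtain ⟨-, J2', -, -, -, -, -, -⟩ := h2 K w _ _ _ _ hw hη R'
  have R4 := (h1 K (pw w)).2.2.2.1 _ _ _ _ R
  have c1 : cst w D (τ + 1) m = D τ m 2 + D (τ + 1) m 2 := by
    unfold cst
    rw [← J6, mul_div_assoc, div_self J8, mul_one, add_comm]
  have c2 : cst w D τ m = D τ m 2 + D (τ + 1) m 2 := by
    unfold cst
    rw [← J6, mul_comm (D τ m 2), mul_div_assoc, div_self J7, mul_one]
  have q1 : ∀ i, qv (D τ m) (w i) ≠ 0 ∧ qv (D (τ + 1) m) (w i) ≠ 0 := by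
    intro i
    have h3 : H τ m * (qv (D τ m) (w i) * qv (D (τ + 1) m) (w i)) ≠ 0 := by
      rw [J3]
      exact mul_ne_zero (mul_ne_zero (hw i) (sub_ne_zero.2 (hs i))) (sub_ne_zero.2 (hz' i))
    have h4 := right_ne_zero_of_mul h3
    exact ⟨left_ne_zero_of_mul h4, right_ne_zero_of_mul h4⟩
  have q2 : qv (D τ m) (D τ (m + 1) 0) * qv (D (τ + 1) m) (D τ (m + 1) 0) ≠ 0 := by
    have h3 := R4 (D τ (m + 1) 0)
    rw [sub_self, mul_zero, zero_mul, zero_add] at h3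
    rw [mul_left_cancel₀ hη h3]
    exact ps1
  have q3 : qv (D τ m) (D (τ + 1) m 0) * qv (D (τ + 1) m) (D (τ + 1) m 0) ≠ 0 := by
    have h3 := R4 (D (τ + 1) m 0)
    rw [sub_self, mul_zero, zero_add] at h3
    rw [mul_left_cancel₀ hη h3]
    exact ps2
  have q2a := left_ne_zero_of_mul q2
  have q2b := right_ne_zero_of_mul q2
  have q3a := left_ne_zero_of_mul q3
  have q3b := right_ne_zero_of_mul q3
  have e0 : ∀ x, qv ![D τ (m + 1) 0, D τ m 1, D τ m 2] x = qv (D τ m) x := fun x => rfl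
  have j1 : jv w (D τ m) (D τ (m + 1) 0) ≠ 0 := by
    have h3 := J2 (D τ (m + 1) 0)
    rw [sub_self, mul_zero, zero_mul, sub_zero] at h3
    have h4 := mul_left_cancel₀ hη h3
    have h5 : jv w (D τ m) (D τ (m + 1) 0) * (D τ (m + 1) 0 - w 0) ≠ 0 := by
      rw [h4]
      exact mul_ne_zero q2a (q1 0).2
    exact left_ne_zero_of_mul h5
  have j2 : jv w (D (τ + 1) m) (D τ (m + 1) 0) ≠ 0 := by
    have h3 := J2' (D τ (m + 1) 0)
    have h6 : (![D τ (m + 1) 0, D τ m 1, D τ m 2] : Fin 3 → K) 0 = D τ (m + 1) 0 := rfl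
    rw [h6, sub_self, mul_zero, sub_zero, e0] at h3
    have h4 := mul_left_cancel₀ hη h3
    have h5 : jv w (D (τ + 1) m) (D τ (m + 1) 0) * (D τ (m + 1) 0 - w 0) ≠ 0 := by
      rw [h4]
      exact mul_ne_zero q2b (q1 0).1
    exact left_ne_zero_of_mul h5
  have j3 : jv w (D τ m) (D (τ + 1) m 0) ≠ 0 := by
    have h3 := J2 (D (τ + 1) m 0)
    rw [sub_self, mul_zero, sub_zero] at h3
    have h4 := mul_left_cancel₀ hη h3
    have h5 : jv w (D τ m) (D (τ + 1) m 0) * (D (τ + 1) m 0 - w 0) ≠ 0 := by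
      rw [h4]
      exact mul_ne_zero q3a (q1 0).2
    exact left_ne_zero_of_mul h5
  have j4 : jv w (D (τ + 1) m) (D (τ + 1) m 0) ≠ 0 := by
    have h3 := J2' (D (τ + 1) m 0)
    rw [sub_self, mul_zero, zero_mul, sub_zero, e0] at h3
    have h4 := mul_left_cancel₀ hη h3
    have h5 : jv w (D (τ + 1) m) (D (τ + 1) m 0) * (D (τ + 1) m 0 - w 0) ≠ 0 := by
      rw [h4]
      exact mul_ne_zero q3b (q1 0).1
    exact left_ne_zero_of_mul h5
  have et : τ + 1 - 1 = τ := by ring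
  have em : m + 1 - 1 = m := by ring
  have g1 : gam w D (τ + 1) m ≠ 0 := by
    unfold gam
    rw [et]
    exact div_ne_zero (mul_ne_zero (sub_ne_zero.2 (hz 0)) q3a)
      (mul_ne_zero (q1 0).1 (sub_ne_zero.2 (ok.nd τ m hl hh)))
  have d1 : dlt w D (τ + 1) (m + 1) ≠ 0 := by
    unfold dlt
    rw [et, em]
    exact div_ne_zero (mul_ne_zero (sub_ne_zero.2 (A (τ + 1) (m + 1) (by omega) (by omega) 0)) q2b)
      (mul_ne_zero (q1 0).2 (sub_ne_zero.2 (ok.nd τ (m + 1) hl hh)))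
  have r1 : rho w D H (τ + 1) m ≠ 0 := by
    unfold rho
    rw [et]
    exact div_ne_zero (mul_ne_zero (mul_ne_zero (hw 0) g1) d1) hη
  refine ⟨J7, J8, J6, c1.trans c2.symm, c2, q1, q2a, q2b, q3a, q3b, j1, j2, j3, j4, g1, d1, r1,
    ?_⟩
  intro i hi0 hchi
  have h3 : H τ m * (jv w (D τ m) (w i) * jv w (D (τ + 1) m) (w i)) ≠ 0 := by
    rw [J5 i hi0]
    refine mul_ne_zero (mul_ne_zero (mul_ne_zero (hw 0) ?_) (sub_ne_zero.2 (hs i)))
      (sub_ne_zero.2 (hz' i))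
    rw [← c2]
    exact sub_ne_zero.2 hchi
  have h4 := right_ne_zero_of_mul h3
  refine ⟨left_ne_zero_of_mul h4, right_ne_zero_of_mul h4, ?_⟩
  unfold Rw
  exact div_ne_zero (mul_ne_zero g1 (right_ne_zero_of_mul h4)) (sub_ne_zero.2 (hz' i))

end Pool.Agent.MP62a5ad.QN
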