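import Pool.Agent.Lib.MP_62a5ad_mp.QN.SpecB

/-!
# MP_62a5ad_mp, project QN: the constant Poisson structure
-/

set_option autoImplicit false

namespace Pool.Agent.MP62a5ad.QN

open Matrix

private theorem P0_sub_one {n : ℕ} [NeZero n] {k : Fin n} (h : k ≠ 0) :
    ((k - 1 : Fin n) : ℕ) + 1 = (k : ℕ) := by
  have hk : (k : ℕ) ≠ 0 := fun e => h (Fin.ext (by simpa using e))
  have hn : 1 < n := by have := k.isLt; omega
  have h1 : ((1 : Fin n) : ℕ) = 1 := by
    rw [Fin.val_one', Nat.mod_eq_of_lt hn]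
  have h2 : (1 : Fin n) ≤ k := by
    rw [Fin.le_def, h1]; omega
  rw [Fin.sub_val_of_le h2, h1]
  omega

private theorem P0_add_one {n : ℕ} [NeZero n] {k : Fin n} (h : k + 1 ≠ 0) :
    ((k + 1 : Fin n) : ℕ) = (k : ℕ) + 1 := by
  have := P0_sub_one h
  rw [add_sub_cancel_right] at this
  exact this.symm

variable {n : ℕ} [NeZero n]

private theorem P0_row0 (v : Ix n → ℝ) (k : Fin n) : (P0 n *ᵥ v) (k, 0) = v (k, 1) - v (k - 1, 1) := by
  have h1 : (P0 n *ᵥ v) (k, 0) = ∑ l : Fin n,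
      (((if k = l then (1 : ℝ) else 0) - (if k = l + 1 then 1 else 0)) * v (l, 1)) := by
    simp [Matrix.mulVec, dotProduct, Fintype.sum_prod_type, P0]
  rw [h1]
  have h2 : ∀ l : Fin n, (k = l + 1) ↔ (l = k - 1) := fun l =>
    ⟨fun h => by rw [h, add_sub_cancel_right], fun h => by rw [h, sub_add_cancel]⟩
  simp only [sub_mul, Finset.sum_sub_distrib, ite_mul, one_mul, zero_mul, h2,
    Finset.sum_ite_eq, Finset.sum_ite_eq', Finset.mem_univ, if_true]

private theorem P0_row1 (v : Ix n → ℝ) (k : Fin n) : (P0 n *ᵥ v) (k, 1) = v (k + 1, 0) - v (k, 0) := by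
  have h1 : (P0 n *ᵥ v) (k, 1) = ∑ l : Fin n,
      (((if l = k + 1 then (1 : ℝ) else 0) - (if l = k then 1 else 0)) * v (l, 0)) := by
    simp [Matrix.mulVec, dotProduct, Fintype.sum_prod_type, P0]
  rw [h1]
  simp only [sub_mul, Finset.sum_sub_distrib, ite_mul, one_mul, zero_mul,
    Finset.sum_ite_eq', Finset.mem_univ, if_true]

private theorem P0_row2 (v : Ix n → ℝ) (k : Fin n) : (P0 n *ᵥ v) (k, 2) = 0 := by
  simp [Matrix.mulVec, dotProduct, P0]

private theorem P0_T0row0 (v : Ix n → ℝ) (k : Fin n) : (T0 n *ᵥ v) (k, 0) = ∑ l : Fin n,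
    (if k ≠ 0 ∧ k ≤ l then (-1 : ℝ) else 0) * v (l, 1) := by
  simp [Matrix.mulVec, dotProduct, Fintype.sum_prod_type, T0]

private theorem P0_T0row1 (v : Ix n → ℝ) (k : Fin n) : (T0 n *ᵥ v) (k, 1) = ∑ l : Fin n,
    (if l ≠ 0 ∧ l ≤ k then (1 : ℝ) else 0) * v (l, 0) := by
  simp [Matrix.mulVec, dotProduct, Fintype.sum_prod_type, T0]

private theorem P0_tele (f : Fin n → ℝ) (k : Fin n) :
    ∑ l : Fin n, (if l ≠ 0 ∧ l ≤ k then (1 : ℝ) else 0) * (f l - f (l - 1)) = f k - f 0 := by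
  have key : ∀ m : ℕ, ∀ hm : m < n,
      ∑ l : Fin n, (if l ≠ 0 ∧ (l : ℕ) ≤ m then (1 : ℝ) else 0) * (f l - f (l - 1)) =
        f ⟨m, hm⟩ - f 0 := by
    intro m
    induction m with
    | zero =>
      intro hm
      have e : (⟨0, hm⟩ : Fin n) = 0 := Fin.ext (by simp)
      rw [e, sub_self]
      refine Finset.sum_eq_zero fun l _ => ?_
      rw [if_neg, zero_mul]
      rintro ⟨h1, h2⟩
      exact h1 (Fin.ext (by simpa using h2))
    | succ m ih =>
      intro hm
      have hne : (⟨m + 1, hm⟩ : Fin n) ≠ 0 := fun e => by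
        have := congrArg Fin.val e
        simp at this
      have e1 : (⟨m + 1, hm⟩ : Fin n) - 1 = ⟨m, by omega⟩ := by
        apply Fin.ext
        have := P0_sub_one hne
        simp only at this ⊢
        omega
      have e2 : ∀ l : Fin n, (if l ≠ 0 ∧ (l : ℕ) ≤ m + 1 then (1 : ℝ) else 0) =
          (if l ≠ 0 ∧ (l : ℕ) ≤ m then (1 : ℝ) else 0) +
            (if l = (⟨m + 1, hm⟩ : Fin n) then 1 else 0) := by
        intro l
        by_cases h : l = (⟨m + 1, hm⟩ : Fin n)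
        · subst h
          rw [if_pos ⟨hne, le_rfl⟩, if_neg (by simp), if_pos rfl, zero_add]
        · have h3 : (l : ℕ) ≠ m + 1 := fun e => h (Fin.ext e)
          have h4 : (l ≠ 0 ∧ (l : ℕ) ≤ m + 1) ↔ (l ≠ 0 ∧ (l : ℕ) ≤ m) :=
            ⟨fun h => ⟨h.1, by omega⟩, fun h => ⟨h.1, by omega⟩⟩
          rw [if_neg h, add_zero]
          simp only [h4]
      simp only [e2, add_mul, Finset.sum_add_distrib]
      rw [ih (by omega)]
      simp only [ite_mul, one_mul, zero_mul, Finset.sum_ite_eq', Finset.mem_univ, if_true]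
      rw [e1]
      ring
  exact key k k.isLt

private theorem P0_tele' (f : Fin n → ℝ) (k : Fin n) :
    ∑ l : Fin n, (if k ≠ 0 ∧ k ≤ l then (-1 : ℝ) else 0) * (f (l + 1) - f l) = f k - f 0 := by
  have key : ∀ m : ℕ, ∀ hm : m < n,
      ∑ l : Fin n, (if (l : ℕ) < m then (1 : ℝ) else 0) * (f (l + 1) - f l) =
        f ⟨m, hm⟩ - f 0 := by
    intro m
    induction m with
    | zero =>
      intro hm
      have e : (⟨0, hm⟩ : Fin n) = 0 := Fin.ext (by simp)
      rw [e, sub_self]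
      exact Finset.sum_eq_zero fun l _ => by simp
    | succ m ih =>
      intro hm
      have hne : (⟨m + 1, hm⟩ : Fin n) ≠ 0 := fun e => by
        have := congrArg Fin.val e
        simp at this
      have e1 : (⟨m, by omega⟩ : Fin n) + 1 = ⟨m + 1, hm⟩ := by
        have := P0_sub_one hne
        have h : (⟨m + 1, hm⟩ : Fin n) - 1 = ⟨m, by omega⟩ := by
          apply Fin.ext
          simp only at this ⊢
          omega
        rw [← h, sub_add_cancel]
      have e2 : ∀ l : Fin n, (if (l : ℕ) < m + 1 then (1 : ℝ) else 0) =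
          (if (l : ℕ) < m then (1 : ℝ) else 0) +
            (if l = (⟨m, by omega⟩ : Fin n) then 1 else 0) := by
        intro l
        by_cases h : l = (⟨m, by omega⟩ : Fin n)
        · subst h
          rw [if_pos (by simp), if_neg (by simp), if_pos rfl, zero_add]
        · have h3 : (l : ℕ) ≠ m := fun e => h (Fin.ext e)
          have h4 : ((l : ℕ) < m + 1) ↔ ((l : ℕ) < m) := by omega
          rw [if_neg h, add_zero]
          simp only [h4]
      simp only [e2, add_mul, Finset.sum_add_distrib]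
      rw [ih (by omega)]
      simp only [ite_mul, one_mul, zero_mul, Finset.sum_ite_eq', Finset.mem_univ, if_true]
      rw [e1]
      ring
  have htot : ∑ l : Fin n, (f (l + 1) - f l) = 0 := by
    rw [Finset.sum_sub_distrib, sub_eq_zero]
    exact Equiv.sum_comp (Equiv.addRight (1 : Fin n)) f
  by_cases hk : k = 0
  · subst hk
    simp
  · have e : ∀ l : Fin n, (if k ≠ 0 ∧ k ≤ l then (-1 : ℝ) else 0) * (f (l + 1) - f l) =
        (if (l : ℕ) < k then (1 : ℝ) else 0) * (f (l + 1) - f l) - (f (l + 1) - f l) := by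
      intro l
      by_cases h : (l : ℕ) < k
      · rw [if_pos h, if_neg (fun hh => absurd (Fin.le_def.1 hh.2) (by omega))]
        ring
      · rw [if_neg h, if_pos ⟨hk, Fin.le_def.2 (by omega)⟩]
        ring
    rw [Finset.sum_congr rfl fun l _ => e l, Finset.sum_sub_distrib, htot, sub_zero]
    exact key k k.isLt

private theorem P0_ptp : P0 n * T0 n * P0 n = P0 n := by
  have h : ∀ v : Ix n → ℝ, (P0 n * T0 n * P0 n) *ᵥ v = P0 n *ᵥ v := by
    intro v
    rw [← Matrix.mulVec_mulVec, ← Matrix.mulVec_mulVec]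
    have t1 : ∀ k : Fin n, (T0 n *ᵥ (P0 n *ᵥ v)) (k, 1) = v (k, 1) - v (0, 1) := by
      intro k
      rw [P0_T0row1]
      simp only [P0_row0]
      exact P0_tele (fun l => v (l, 1)) k
    have t0 : ∀ k : Fin n, (T0 n *ᵥ (P0 n *ᵥ v)) (k, 0) = v (k, 0) - v (0, 0) := by
      intro k
      rw [P0_T0row0]
      simp only [P0_row1]
      exact P0_tele' (fun l => v (l, 0)) k
    funext ⟨k, a⟩
    fin_cases a
    · change (P0 n *ᵥ (T0 n *ᵥ (P0 n *ᵥ v))) (k, 0) = (P0 n *ᵥ v) (k, 0)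
      rw [P0_row0, P0_row0, t1, t1]
      ring
    · change (P0 n *ᵥ (T0 n *ᵥ (P0 n *ᵥ v))) (k, 1) = (P0 n *ᵥ v) (k, 1)
      rw [P0_row1, P0_row1, t0, t0]
      ring
    · change (P0 n *ᵥ (T0 n *ᵥ (P0 n *ᵥ v))) (k, 2) = (P0 n *ᵥ v) (k, 2)
      rw [P0_row2, P0_row2]
  ext i j
  have h1 := congrFun (h (Pi.single j 1)) i
  rw [Matrix.mulVec_single_one, Matrix.mulVec_single_one] at h1
  exact h1

private theorem P0_trace : (P0 n * T0 n).trace = ((2 * (n - 1) : ℕ) : ℝ) := by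
  have e0 : ∀ k : Fin n, (P0 n * T0 n) (k, 0) (k, 0) = if k ≠ 0 then 1 else 0 := by
    intro k
    have h : (P0 n * T0 n) (k, 0) (k, 0) = (P0 n *ᵥ fun i => T0 n i (k, 0)) (k, 0) := rfl
    rw [h, P0_row0]
    by_cases hk : k = 0
    · simp [T0, hk]
    · have h2 : ¬ k ≤ k - 1 := fun hh => by
        have := P0_sub_one hk
        have := Fin.le_def.1 hh
        omega
      simp [T0, hk, h2]
  have e1 : ∀ k : Fin n, (P0 n * T0 n) (k, 1) (k, 1) = if k ≠ 0 then 1 else 0 := by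
    intro k
    have h : (P0 n * T0 n) (k, 1) (k, 1) = (P0 n *ᵥ fun i => T0 n i (k, 1)) (k, 1) := rfl
    rw [h, P0_row1]
    have h2 : ¬ (k + 1 ≠ 0 ∧ k + 1 ≤ k) := fun hh => by
      have := P0_add_one hh.1
      have := Fin.le_def.1 hh.2
      omega
    by_cases hk : k = 0
    · subst hk
      simp [T0]
    · have h3 : ¬ (¬ k + 1 = 0 ∧ k + 1 ≤ k) := h2
      simp [T0, hk, h3]
  have e2 : ∀ k : Fin n, (P0 n * T0 n) (k, 2) (k, 2) = 0 := by
    intro k
    have h : (P0 n * T0 n) (k, 2) (k, 2) = (P0 n *ᵥ fun i => T0 n i (k, 2)) (k, 2) := rfl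
    rw [h, P0_row2]
  have hn : 1 ≤ n := Nat.one_le_iff_ne_zero.2 (NeZero.ne n)
  have hs : ∑ k : Fin n, (if k ≠ 0 then (1 : ℝ) else 0) = ((n - 1 : ℕ) : ℝ) := by
    rw [Finset.sum_boole, Finset.filter_ne', Finset.card_erase_of_mem (Finset.mem_univ _),
      Finset.card_univ, Fintype.card_fin]
  unfold Matrix.trace
  simp only [Matrix.diag_apply, Fintype.sum_prod_type, Fin.sum_univ_three, e0, e1, e2, add_zero,
    Finset.sum_add_distrib, hs]
  push_cast
  ring

private theorem P0_rank : (P0 n).rank = 2 * (n - 1) := by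
  have hr : (P0 n).rank = (P0 n * T0 n).rank := by
    apply le_antisymm
    · conv_lhs => rw [← P0_ptp (n := n)]
      exact Matrix.rank_mul_le_left _ _
    · exact Matrix.rank_mul_le_left _ _
  have hid : IsIdempotentElem (P0 n * T0 n).toLin' := by
    have : (P0 n * T0 n) * (P0 n * T0 n) = P0 n * T0 n := by
      rw [← Matrix.mul_assoc, P0_ptp]
    change (P0 n * T0 n).toLin' ∘ₗ (P0 n * T0 n).toLin' = _
    rw [← Matrix.toLin'_mul, this]
  have htr := (LinearMap.IsIdempotentElem.isProj_range _ hid).trace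
  rw [Matrix.trace_toLin'_eq, P0_trace] at htr
  rw [hr, Matrix.rank]
  exact_mod_cast htr.symm

theorem sP0 : S_P0 := by
  intro n _
  refine ⟨?_, ?_, P0_ptp, P0_rank⟩
  · rintro ⟨k, a⟩ ⟨l, b⟩
    fin_cases a <;> fin_cases b <;> simp [P0]
  · rintro ⟨k, a⟩ ⟨l, b⟩
    fin_cases a <;> fin_cases b <;> simp [T0] <;> split_ifs <;> norm_num

end Pool.Agent.MP62a5ad.QN
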