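import Pool.Agent.Lib.MP_62a5ad_mp.QN.SpecC

/-!
# MP_62a5ad_mp, QN: periodic conditions
-/

set_option autoImplicit false

namespace Pool.Agent.MP62a5ad.QN

/-- Periodic conditions. -/
theorem tPd (hRaA : S_RaA) : S_Pd := by
  intro n _ y0 Q h0 hper hev
  have hc : ∀ᶠ y in ZN y0, cc n y 2 ≠ 0 :=
    (hRaA _ y0).nz (fun y => y (0, 2)) ((hRaA _ y0).coord _) h0
  have hj : ∀ᶠ y in ZN y0, ∀ j : Fin n, Q y ((j : ℕ) : ℤ) :=
    Filter.eventually_all.2 fun j => hev _
  filter_upwards [hc, hj] with y hy1 hy2 m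
  have key : ∀ q : ℤ, ∀ m, Q y (m + n * q) ↔ Q y m := by
    intro q
    induction q using Int.induction_on with
    | zero => intro m; simp
    | succ i ih =>
      intro m
      have h1 : m + (n : ℤ) * ((i : ℤ) + 1) = (m + n * i) + n := by ring
      rw [h1, hper y hy1, ih]
    | pred i ih =>
      intro m
      rw [← hper y hy1 (m + (n : ℤ) * (-(i : ℤ) - 1))]
      have h1 : m + (n : ℤ) * (-(i : ℤ) - 1) + n = m + n * (-(i : ℤ)) := by ring
      rw [h1, ih]
  have hn : (0 : ℤ) < n := by exact_mod_cast Nat.pos_of_ne_zero (NeZero.ne n)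
  have h1 : m % n + n * (m / n) = m := Int.emod_add_mul_ediv m n
  have h2 : ((m % n).toNat : ℤ) = m % n := Int.toNat_of_nonneg (Int.emod_nonneg m hn.ne')
  have h3 : (m % n).toNat < n := by
    have := Int.emod_lt_of_pos m hn
    omega
  rw [← h1, key]
  have h4 := hy2 ⟨(m % n).toNat, h3⟩
  simpa [h2] using h4

end Pool.Agent.MP62a5ad.QN
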