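import Pool.Agent.Lib.MP_62a5ad_mp.QN.SpecD

/-!
# MP_62a5ad_mp, QN: symmetric functions of the roots
-/

set_option autoImplicit false

namespace Pool.Agent.MP62a5ad.QN

open Matrix
open scoped ContDiff

theorem Pw_c {K : Type} [Field K] (w : Fin 4 → K) :
    pw w 0 = w 0 * w 1 * w 2 * w 3 ∧
    pw w 1 = -(w 0 * w 1 * w 2 + w 0 * w 1 * w 3 + w 0 * w 2 * w 3 + w 1 * w 2 * w 3) ∧
    pw w 2 = w 0 * w 1 + w 0 * w 2 + w 0 * w 3 + w 1 * w 2 + w 1 * w 3 + w 2 * w 3 ∧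
    pw w 3 = -(w 0 + w 1 + w 2 + w 3) := ⟨rfl, rfl, rfl, rfl⟩

theorem Pw_prod {K : Type} [Field K] (w : Fin 4 → K) (x : K) :
    pv (pw w) x = (x - w 0) * (x - w 1) * (x - w 2) * (x - w 3) := by
  obtain ⟨h0, h1, h2, h3⟩ := Pw_c w
  unfold pv
  rw [h0, h1, h2, h3]
  ring

theorem Pw_root {K : Type} [Field K] (w : Fin 4 → K) (i : Fin 4) : pv (pw w) (w i) = 0 := by
  rw [Pw_prod]
  fin_cases i <;> simp

theorem Pw_one (m : Fin 4 → ℂ) (c : Fin 3 → ℝ) (h : ∀ x, cpl c x = ∏ i, (x - m i)) :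
    m 0 + m 1 + m 2 + m 3 = 1 ∧
    m 0 * m 1 + m 0 * m 2 + m 0 * m 3 + m 1 * m 2 + m 1 * m 3 + m 2 * m 3 = c 0 ∧
    m 0 * m 1 * m 2 + m 0 * m 1 * m 3 + m 0 * m 2 * m 3 + m 1 * m 2 * m 3 = c 1 ∧
    m 0 * m 1 * m 2 * m 3 = c 2 ∧ (∀ i, cpl c (m i) = 0) ∧
    (m 0 * m 1 - m 2 * m 3) * (m 0 * m 2 - m 1 * m 3) * (m 0 * m 3 - m 1 * m 2) =
      ((c 2 - c 1 ^ 2 : ℝ) : ℂ) := by
  have hr : ∀ i, cpl c (m i) = 0 := by
    intro i
    rw [h]
    exact Finset.prod_eq_zero (Finset.mem_univ i) (sub_self _)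
  have e0 := h 0
  have e1 := h 1
  have e2 := h (-1)
  have e3 := h 2
  have e4 := h (-2)
  rw [Fin.prod_univ_four] at e0 e1 e2 e3 e4
  unfold cpl at e0 e1 e2 e3 e4
  have s1 : m 0 + m 1 + m 2 + m 3 = 1 := by
    linear_combination (-1 / 12 : ℂ) * (e4 - e3) + (1 / 6 : ℂ) * (e2 - e1)
  have s2 : m 0 * m 1 + m 0 * m 2 + m 0 * m 3 + m 1 * m 2 + m 1 * m 3 + m 2 * m 3 = c 0 := by
    linear_combination (-1 / 2 : ℂ) * (e1 + e2) + e0
  have s3 : m 0 * m 1 * m 2 + m 0 * m 1 * m 3 + m 0 * m 2 * m 3 + m 1 * m 2 * m 3 = c 1 := by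
    linear_combination (-1 / 2 : ℂ) * (e2 - e1) - s1
  have s4 : m 0 * m 1 * m 2 * m 3 = c 2 := by
    linear_combination -e0
  refine ⟨s1, s2, s3, s4, hr, ?_⟩
  push_cast
  rw [← s3, ← s4]
  linear_combination ((m 0 * m 1 * m 2 * m 3) * (m 0 + m 1 + m 2 + m 3 + 1)) * s1

theorem sPw : S_Pw := by
  refine ⟨Pw_one, ?_, fun K _ w x => Pw_prod w x, ?_⟩
  · intro K _ p w hw hp
    have h := Matrix.eq_zero_of_forall_index_sum_pow_mul_eq_zero (f := w)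
      (v := fun i => pw w i - p i) hw (by
        intro j
        rw [Fin.sum_univ_four]
        have h1 := hp j
        have h2 := Pw_root w j
        unfold pv at h1 h2
        simp only [Fin.isValue, Fin.val_zero, pow_zero, one_mul, Fin.val_one, pow_one, Fin.val_two]
        have h3 : ((3 : Fin 4) : ℕ) = 3 := rfl
        rw [h3]
        linear_combination h2 - h1)
    funext i
    exact sub_eq_zero.1 (congrFun h i)
  · intro K _ w x
    obtain ⟨h0, h1, h2, h3⟩ := Pw_c w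
    unfold rsv chi e1 e2
    rw [h0, h1, h2, h3]
    ring

end Pool.Agent.MP62a5ad.QN
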