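import Pool.Agent.Lib.MP_62a5ad_mp.QN.SpecE

set_option autoImplicit false

namespace Pool.Agent.MP62a5ad.QN

theorem sQN (h1 : S_Rg) (h2 : S_Sy) (h3 : S_Gy) (h4 : S_Abs) (h5 : S_CasN) (h6 : S_Two) :
    S_QN := by
  intro n _ a b hn ha hb hcase
  rcases Nat.lt_or_ge 2 n with h | h
  · obtain ⟨e, r, j, he, hcop, -, him⟩ := h5 n a b hn ha hb hcase
    have hunit : ¬ IsUnit (n : ℤ) := by
      intro hu
      rcases Int.isUnit_iff.1 hu with h7 | h7 <;> omega
    have hr0 : r ≠ 0 := by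
      rintro rfl
      exact hunit (isCoprime_zero_left.1 hcop)
    have hrn : r ≠ n * e := by
      rintro rfl
      exact hunit (isCoprime_self.1 hcop.of_mul_left_left)
    obtain ⟨r', c', hrel'⟩ := hcop
    have hrel : r * r' = 1 + n * (-c') := by linear_combination hrel'
    obtain ⟨m, U, hRg⟩ := h1 n e r r' (-c') (r * j) h he hrel
    obtain ⟨U', hU', F, a', hSys⟩ := h2 n e r r' (-c') (r * j) m U hn he hr0 hrn hrel hRg
    obtain ⟨V, hV, π, hLI⟩ := h4 (Ix n) (n + 2) (n - 1) U' (ff n e r r' (r * j))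
      (Jf (TH n e r m)) (P0 n) (T0 n) F a' hSys
    refine ⟨by omega, V, ff n e r r' (r * j), π, F, hLI, fun y hy => ?_⟩
    exact h3 n a b e r r' (-c') (r * j) hrel him y (hRg.gd y (hU' (hV hy)))
  · have h7 : n = 2 := le_antisymm h hn
    subst h7
    exact h6 a b ha hb

end Pool.Agent.MP62a5ad.QN
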