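import Pool.Agent.Lib.MP_62a5ad_mp.QN.SpecE

/-!
# MP_62a5ad_mp, project QN: a quadratic polynomial with three zeros
-/

set_option autoImplicit false

namespace Pool.Agent.MP62a5ad.QN

open Matrix

/-- A polynomial of degree at most two with three distinct zeros vanishes. -/
private theorem Qd_three {K : Type} [Field K] {p q r x y t : K} (hxy : x ≠ y) (hxt : x ≠ t)
    (hyt : y ≠ t) (h1 : p * x ^ 2 + q * x + r = 0) (h2 : p * y ^ 2 + q * y + r = 0)
    (h3 : p * t ^ 2 + q * t + r = 0) : p = 0 ∧ q = 0 ∧ r = 0 := by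
  have a1 : p * (x + y) + q = 0 := by
    have : (x - y) * (p * (x + y) + q) = 0 := by linear_combination h1 - h2
    exact (mul_eq_zero.1 this).resolve_left (sub_ne_zero.2 hxy)
  have a2 : p * (x + t) + q = 0 := by
    have : (x - t) * (p * (x + t) + q) = 0 := by linear_combination h1 - h3
    exact (mul_eq_zero.1 this).resolve_left (sub_ne_zero.2 hxt)
  have a3 : p = 0 := by
    have : (y - t) * p = 0 := by linear_combination a1 - a2
    exact (mul_eq_zero.1 this).resolve_left (sub_ne_zero.2 hyt)
  have a4 : q = 0 := by rw [a3] at a1; linear_combination a1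
  refine ⟨a3, a4, ?_⟩
  rw [a3, a4] at h1
  linear_combination h1

theorem sQd : S_Qd := by
  intro K _ w z g du ds hw hinj hz hJ hchi heq
  have h01 : w 1 ≠ w 2 := fun h => absurd (hinj h) (by decide)
  have h02 : w 1 ≠ w 3 := fun h => absurd (hinj h) (by decide)
  have h12 : w 2 ≠ w 3 := fun h => absurd (hinj h) (by decide)
  have e1' := heq 1 (by decide)
  have e2' := heq 2 (by decide)
  have e3' := heq 3 (by decide)
  have c1 := hchi 1 (by decide)
  have c2 := hchi 2 (by decide)
  have c3 := hchi 3 (by decide)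
  have hB : w 0 * e3 w / z 2 * z 2 = w 0 * e3 w := div_mul_cancel₀ _ hz
  unfold jv jA jB at e1' e2' e3' hJ
  generalize w 0 * e3 w / z 2 = B at e1' e2' e3' hJ c1 c2 c3 hB
  unfold e3 at hB
  obtain ⟨p2, p1, p0⟩ := Qd_three (p := g * (B - w 0 * (e1 w + z 1)) - du * w 0)
    (q := g * ((w 0 * e2 w + B * z 1 - w 0 * z 2) - (B - w 0 * (e1 w + z 1)) * z 0)
      + du * (B + w 0 * z 0) + ds * (B - w 0 * (e1 w + z 1)))
    (r := -(g * (w 0 * e2 w + B * z 1 - w 0 * z 2) * z 0) - du * B * z 0
      + ds * (w 0 * e2 w + B * z 1 - w 0 * z 2)) h01 h02 h12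
    (by linear_combination e1') (by linear_combination e2') (by linear_combination e3')
  have hds : ds = 0 := by
    have : ds * ((B - w 0 * (e1 w + z 1)) * z 0 + (w 0 * e2 w + B * z 1 - w 0 * z 2)) = 0 := by
      linear_combination z 0 ^ 2 * p2 + z 0 * p1 + p0
    exact (mul_eq_zero.1 this).resolve_right hJ
  have hgb : g * (w 0 * e2 w + B * z 1 - w 0 * z 2) + du * B = 0 := by
    rw [hds] at p1
    linear_combination p1 + z 0 * p2
  have hg : g = 0 := by
    by_contra hg
    have h1 : g * ((B - w 0 * w 1) * ((B - w 0 * w 2) * (B - w 0 * w 3))) = 0 := by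
      simp only [e1, e2] at p2 hgb
      linear_combination B ^ 2 * p2 + B * w 0 * hgb + g * w 0 ^ 2 * hB
    have hw0 := hw 0
    rcases mul_eq_zero.1 h1 with h | h
    · exact hg h
    rcases mul_eq_zero.1 h with h | h
    · apply c1
      have hb : B = w 0 * w 1 := by linear_combination h
      have hne : w 0 * w 1 ≠ 0 := mul_ne_zero hw0 (hw 1)
      have hC : z 2 = w 2 * w 3 := by
        apply mul_left_cancel₀ hne
        rw [hb] at hB
        linear_combination hB
      rw [hb, hC]; unfold chi e1 e2; ring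
    rcases mul_eq_zero.1 h with h | h
    · apply c2
      have hb : B = w 0 * w 2 := by linear_combination h
      have hne : w 0 * w 2 ≠ 0 := mul_ne_zero hw0 (hw 2)
      have hC : z 2 = w 1 * w 3 := by
        apply mul_left_cancel₀ hne
        rw [hb] at hB
        linear_combination hB
      rw [hb, hC]; unfold chi e1 e2; ring
    · apply c3
      have hb : B = w 0 * w 3 := by linear_combination h
      have hne : w 0 * w 3 ≠ 0 := mul_ne_zero hw0 (hw 3)
      have hC : z 2 = w 1 * w 2 := by
        apply mul_left_cancel₀ hne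
        rw [hb] at hB
        linear_combination hB
      rw [hb, hC]; unfold chi e1 e2; ring
  refine ⟨hg, ?_, hds⟩
  rw [hg] at p2
  have : du * w 0 = 0 := by linear_combination -p2
  exact (mul_eq_zero.1 this).resolve_right (hw 0)

end Pool.Agent.MP62a5ad.QN
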