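import Pool.Agent.Lib.MP_62a5ad_mp.QN.SpecC

/-!
# MP_62a5ad_mp, project QN: `RaA`, the rules for `RA`
-/

set_option autoImplicit false

namespace Pool.Agent.MP62a5ad.QN

open scoped ContDiff

namespace RaAAux

variable {ι : Type} {y0 : ι → ℝ}

theorem mem_ZN {p : (ι → ℝ) → Prop} :
    (∀ᶠ y in ZN y0, p y) ↔ ∃ Q : MvPolynomial ι ℝ, MvPolynomial.eval y0 Q ≠ 0 ∧
      ∀ y, MvPolynomial.eval y Q ≠ 0 → p y := Iff.rfl

theorem const (c : ℝ) : RA y0 fun _ => c :=
  ⟨MvPolynomial.C c, 1, by simp, fun y _ => by simp⟩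

theorem coord (i : ι) : RA y0 fun y => y i :=
  ⟨MvPolynomial.X i, 1, by simp, fun y _ => by simp⟩

theorem add {f g : (ι → ℝ) → ℝ} (hf : RA y0 f) (hg : RA y0 g) : RA y0 fun y => f y + g y := by
  obtain ⟨P, Q, hQ, h⟩ := hf
  obtain ⟨P', Q', hQ', h'⟩ := hg
  refine ⟨P * Q' + P' * Q, Q * Q', by rw [map_mul]; exact mul_ne_zero hQ hQ', fun y hy => ?_⟩
  rw [map_mul] at hy
  have h1 := left_ne_zero_of_mul hy
  have h2 := right_ne_zero_of_mul hy
  show f y + g y = _
  rw [h y h1, h' y h2, map_add, map_mul, map_mul, map_mul, div_add_div _ _ h1 h2]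
  congr 1
  ring

theorem mul {f g : (ι → ℝ) → ℝ} (hf : RA y0 f) (hg : RA y0 g) : RA y0 fun y => f y * g y := by
  obtain ⟨P, Q, hQ, h⟩ := hf
  obtain ⟨P', Q', hQ', h'⟩ := hg
  refine ⟨P * P', Q * Q', by rw [map_mul]; exact mul_ne_zero hQ hQ', fun y hy => ?_⟩
  rw [map_mul] at hy
  have h1 := left_ne_zero_of_mul hy
  have h2 := right_ne_zero_of_mul hy
  show f y * g y = _
  rw [h y h1, h' y h2, map_mul, map_mul, div_mul_div_comm]

theorem cong {f g : (ι → ℝ) → ℝ} (hf : RA y0 f) (hg : ∀ᶠ y in ZN y0, g y = f y) : RA y0 g := by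
  obtain ⟨P, Q, hQ, h⟩ := hf
  obtain ⟨R, hR, h'⟩ := mem_ZN.1 hg
  refine ⟨P * R, Q * R, by rw [map_mul]; exact mul_ne_zero hQ hR, fun y hy => ?_⟩
  rw [map_mul] at hy
  have h1 := left_ne_zero_of_mul hy
  have h2 := right_ne_zero_of_mul hy
  rw [h' y h2, h y h1, map_mul, map_mul, mul_div_mul_right _ _ h2]

theorem nz {f : (ι → ℝ) → ℝ} (hf : RA y0 f) (h0 : f y0 ≠ 0) : ∀ᶠ y in ZN y0, f y ≠ 0 := by
  obtain ⟨P, Q, hQ, h⟩ := hf
  have hP : MvPolynomial.eval y0 P ≠ 0 := by
    intro hP
    apply h0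
    rw [h y0 hQ, hP, zero_div]
  refine mem_ZN.2 ⟨P * Q, by rw [map_mul]; exact mul_ne_zero hP hQ, fun y hy => ?_⟩
  rw [map_mul] at hy
  have h1 := left_ne_zero_of_mul hy
  have h2 := right_ne_zero_of_mul hy
  rw [h y h2]
  exact div_ne_zero h1 h2

theorem inv {f : (ι → ℝ) → ℝ} (hf : RA y0 f) (h0 : f y0 ≠ 0) : RA y0 fun y => (f y)⁻¹ := by
  obtain ⟨P, Q, hQ, h⟩ := hf
  have hP : MvPolynomial.eval y0 P ≠ 0 := by
    intro hP
    apply h0
    rw [h y0 hQ, hP, zero_div]
  refine ⟨Q * Q, P * Q, by rw [map_mul]; exact mul_ne_zero hP hQ, fun y hy => ?_⟩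
  rw [map_mul] at hy
  have h1 := left_ne_zero_of_mul hy
  have h2 := right_ne_zero_of_mul hy
  show (f y)⁻¹ = _
  rw [h y h2, map_mul, map_mul, mul_div_mul_right _ _ h2, inv_div]

theorem neg {f : (ι → ℝ) → ℝ} (hf : RA y0 f) : RA y0 fun y => -f y := by
  have h := mul (const (y0 := y0) (-1)) hf
  have e : (fun y => -f y) = fun y => (-1 : ℝ) * f y := by
    funext y
    ring
  rw [e]
  exact h

theorem sub {f g : (ι → ℝ) → ℝ} (hf : RA y0 f) (hg : RA y0 g) : RA y0 fun y => f y - g y := by
  have h := add hf (neg hg)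
  have e : (fun y => f y - g y) = fun y => f y + -g y := by
    funext y
    ring
  rw [e]
  exact h

theorem div {f g : (ι → ℝ) → ℝ} (hf : RA y0 f) (hg : RA y0 g) (h0 : g y0 ≠ 0) :
    RA y0 fun y => f y / g y := by
  have h := mul hf (inv hg h0)
  have e : (fun y => f y / g y) = fun y => f y * (g y)⁻¹ := by
    funext y
    rw [div_eq_mul_inv]
  rw [e]
  exact h

theorem pow {f : (ι → ℝ) → ℝ} (k : ℕ) (hf : RA y0 f) : RA y0 fun y => f y ^ k := by
  induction k with
  | zero =>
    have e : (fun y => f y ^ 0) = fun _ => (1 : ℝ) := by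
      funext y
      rw [pow_zero]
    rw [e]
    exact const 1
  | succ k ih =>
    have e : (fun y => f y ^ (k + 1)) = fun y => f y ^ k * f y := by
      funext y
      rw [pow_succ]
    rw [e]
    exact mul ih hf

theorem sum {κ : Type} (s : Finset κ) (f : κ → (ι → ℝ) → ℝ) (hf : ∀ k ∈ s, RA y0 (f k)) :
    RA y0 fun y => ∑ k ∈ s, f k y := by
  classical
  induction s using Finset.induction_on with
  | empty =>
    have e : (fun y => ∑ k ∈ (∅ : Finset κ), f k y) = fun _ => (0 : ℝ) := by
      funext y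
      rw [Finset.sum_empty]
    rw [e]
    exact const 0
  | insert a s ha ih =>
    have e : (fun y => ∑ k ∈ insert a s, f k y) = fun y => f a y + ∑ k ∈ s, f k y := by
      funext y
      rw [Finset.sum_insert ha]
    rw [e]
    exact add (hf a (Finset.mem_insert_self a s))
      (ih fun k hk => hf k (Finset.mem_insert_of_mem hk))

theorem prod {κ : Type} (s : Finset κ) (f : κ → (ι → ℝ) → ℝ) (hf : ∀ k ∈ s, RA y0 (f k)) :
    RA y0 fun y => ∏ k ∈ s, f k y := by
  classical
  induction s using Finset.induction_on with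
  | empty =>
    have e : (fun y => ∏ k ∈ (∅ : Finset κ), f k y) = fun _ => (1 : ℝ) := by
      funext y
      rw [Finset.prod_empty]
    rw [e]
    exact const 1
  | insert a s ha ih =>
    have e : (fun y => ∏ k ∈ insert a s, f k y) = fun y => f a y * ∏ k ∈ s, f k y := by
      funext y
      rw [Finset.prod_insert ha]
    rw [e]
    exact mul (hf a (Finset.mem_insert_self a s))
      (ih fun k hk => hf k (Finset.mem_insert_of_mem hk))

theorem comp {κ : Type} (F : (ι → ℝ) → κ → ℝ) (P : MvPolynomial κ ℝ) (hF : RV y0 F) :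
    RA y0 fun y => MvPolynomial.eval (F y) P := by
  induction P using MvPolynomial.induction_on with
  | C a =>
    have e : (fun y => MvPolynomial.eval (F y) (MvPolynomial.C a)) = fun _ => a := by
      funext y
      rw [MvPolynomial.eval_C]
    rw [e]
    exact const a
  | add p q hp hq =>
    have e : (fun y => MvPolynomial.eval (F y) (p + q)) =
        fun y => MvPolynomial.eval (F y) p + MvPolynomial.eval (F y) q := by
      funext y
      rw [map_add]
    rw [e]
    exact add hp hq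
  | mul_X p i hp =>
    have e : (fun y => MvPolynomial.eval (F y) (p * MvPolynomial.X i)) =
        fun y => MvPolynomial.eval (F y) p * F y i := by
      funext y
      rw [map_mul, MvPolynomial.eval_X]
    rw [e]
    exact mul hp (hF i)

theorem contDiff_eval [Fintype ι] (P : MvPolynomial ι ℝ) :
    ContDiff ℝ ∞ fun y : ι → ℝ => MvPolynomial.eval y P := by
  induction P using MvPolynomial.induction_on with
  | C a =>
    have e : (fun y : ι → ℝ => MvPolynomial.eval y (MvPolynomial.C a)) = fun _ => a := by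
      funext y
      rw [MvPolynomial.eval_C]
    rw [e]
    exact contDiff_const
  | add p q hp hq =>
    have e : (fun y : ι → ℝ => MvPolynomial.eval y (p + q)) =
        fun y => MvPolynomial.eval y p + MvPolynomial.eval y q := by
      funext y
      rw [map_add]
    rw [e]
    exact hp.add hq
  | mul_X p i hp =>
    have e : (fun y : ι → ℝ => MvPolynomial.eval y (p * MvPolynomial.X i)) =
        fun y => MvPolynomial.eval y p * y i := by
      funext y
      rw [map_mul, MvPolynomial.eval_X]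
    rw [e]
    exact hp.mul (contDiff_apply ℝ ℝ i)

theorem sm [Fintype ι] {f : (ι → ℝ) → ℝ} (hf : RA y0 f) :
    ∀ᶠ y in ZN y0, ContDiffAt ℝ ∞ f y := by
  obtain ⟨P, Q, hQ, h⟩ := hf
  refine mem_ZN.2 ⟨Q, hQ, fun y hy => ?_⟩
  have h1 : ContDiffAt ℝ ∞ (fun z : ι → ℝ => MvPolynomial.eval z P / MvPolynomial.eval z Q) y :=
    (contDiff_eval P).contDiffAt.div (contDiff_eval Q).contDiffAt hy
  refine h1.congr_of_eventuallyEq ?_
  have h2 : ∀ᶠ z in nhds y, MvPolynomial.eval z Q ≠ 0 :=
    (contDiff_eval Q).continuous.continuousAt.eventually_ne hy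
  exact h2.mono fun z hz => h z hz

end RaAAux

/-- The rules for `RA`. -/
theorem tRaA : S_RaA := by
  intro ι _ y0
  exact
    { const := fun c => RaAAux.const c
      coord := fun i => RaAAux.coord i
      add := fun f g hf hg => RaAAux.add hf hg
      sub := fun f g hf hg => RaAAux.sub hf hg
      neg := fun f hf => RaAAux.neg hf
      mul := fun f g hf hg => RaAAux.mul hf hg
      inv := fun f hf h0 => RaAAux.inv hf h0
      div := fun f g hf hg h0 => RaAAux.div hf hg h0
      pow := fun f k hf => RaAAux.pow k hf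
      sum := fun κ s f hf => RaAAux.sum s f hf
      prod := fun κ s f hf => RaAAux.prod s f hf
      cong := fun f g hf hg => RaAAux.cong hf hg
      comp := fun κ F P hF => RaAAux.comp F P hF
      nz := fun f hf h0 => RaAAux.nz hf h0
      sm := fun f hf => RaAAux.sm hf }

end Pool.Agent.MP62a5ad.QN
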