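import Pool.Agent.Lib.MP_62a5ad_mp.QN.SpecC

/-!
# MP_62a5ad_mp, project QN: the rules for `RM`
-/

set_option autoImplicit false

namespace Pool.Agent.MP62a5ad.QN

open Matrix
open scoped ContDiff
open Pool.Agent.MP62a5ad.PN (V4 M4 e0)

theorem tRaM (hRaA : S_RaA) : S_RaM := by
  intro ι _ y0
  have R := hRaA ι y0
  have hmul : ∀ A B : (ι → ℝ) → M4, RM y0 A → RM y0 B → RM y0 fun y => A y * B y := by
    intro A B hA hB i j
    have h := R.sum (Fin 4) Finset.univ (fun k y => A y i k * B y k j)
      (fun k _ => R.mul _ _ (hA i k) (hB k j))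
    simpa only [Matrix.mul_apply] using h
  have hdet : ∀ A : (ι → ℝ) → M4, RM y0 A → RA y0 fun y => (A y).det := by
    intro A hA
    have h := R.sum (Equiv.Perm (Fin 4)) Finset.univ
      (fun σ y => ((Equiv.Perm.sign σ : ℤ) : ℝ) * ∏ i, A y (σ i) i)
      (fun σ _ => R.mul _ _ (R.const _)
        (R.prod (Fin 4) Finset.univ (fun i y => A y (σ i) i) fun i _ => hA _ _))
    simpa only [Matrix.det_apply'] using h
  have hone : RM y0 fun _ => (1 : M4) := fun i j => R.const _
  have hpow : ∀ (A : (ι → ℝ) → M4) (k : ℕ), RM y0 A → RM y0 fun y => A y ^ k := by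
    intro A k hA
    induction k with
    | zero => simpa only [pow_zero] using hone
    | succ k ih => simpa only [pow_succ] using hmul _ _ ih hA
  have hinv : ∀ A : (ι → ℝ) → M4, RM y0 A → (A y0).det ≠ 0 → RM y0 fun y => (A y)⁻¹ := by
    intro A hA h0 i j
    have h1 : RM y0 fun y => (A y).updateRow j (Pi.single i 1) := by
      intro i' j'
      by_cases h : i' = j
      · have e : (fun y => ((A y).updateRow j (Pi.single i 1)) i' j') =
            fun _ => (Pi.single i 1 : Fin 4 → ℝ) j' := by
          funext y
          rw [h, Matrix.updateRow_self]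
        rw [e]
        exact R.const _
      · have e : (fun y => ((A y).updateRow j (Pi.single i 1)) i' j') = fun y => A y i' j' := by
          funext y
          rw [Matrix.updateRow_ne h]
        rw [e]
        exact hA i' j'
    have h2 := R.mul _ _ (R.inv _ (hdet A hA) h0) (hdet _ h1)
    have e : (fun y => (A y)⁻¹ i j) =
        fun y => ((A y).det)⁻¹ * ((A y).updateRow j (Pi.single i 1)).det := by
      funext y
      rw [Matrix.inv_def, Matrix.smul_apply, Ring.inverse_eq_inv', Matrix.adjugate_apply,
        smul_eq_mul]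
    rw [e]
    exact h2
  refine ⟨fun A i j => R.const _, fun A B hA hB i j => R.add _ _ (hA i j) (hB i j),
    fun A B hA hB i j => R.sub _ _ (hA i j) (hB i j),
    fun f A hf hA i j => R.mul _ _ hf (hA i j), hmul, fun A v hA hv i => ?_, hdet, hpow, hinv,
    fun A k hA h0 => ?_⟩
  · have h := R.sum (Fin 4) Finset.univ (fun j y => A y i j * v y j)
      (fun j _ => R.mul _ _ (hA i j) (hv j))
    simpa only [Matrix.mulVec, dotProduct] using h
  · rcases k with k | k
    · simpa only [Int.ofNat_eq_natCast, zpow_natCast] using hpow A k hA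
    · have h1 := hinv _ (hpow A (k + 1) hA) (by rw [Matrix.det_pow]; exact pow_ne_zero _ h0)
      simpa only [_root_.zpow_negSucc] using h1

end Pool.Agent.MP62a5ad.QN
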