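import Pool.Agent.Lib.MP_62a5ad_mp.QN.SpecC

/-!
# MP_62a5ad_mp, project QN, part C: the linear data are rational
-/

set_option autoImplicit false

namespace Pool.Agent.MP62a5ad.QN

open Matrix
open scoped ContDiff
open Pool.Agent.MP62a5ad.PN (V4 M4 e0)

namespace RbAux

section

variable {n : ℕ} [NeZero n] {y0 : E n} (A : RAt y0)

include A

theorem mo : RM y0 (fun y => Mo n y) := by
  intro i j
  fin_cases i <;> fin_cases j
  · exact A.const 0
  · exact A.const 0
  · exact A.const 0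
  · exact A.neg (fun y => y (0, 2)) (A.coord _)
  · exact A.const 1
  · exact A.const 0
  · exact A.const 0
  · exact A.coord (0, 1)
  · exact A.const 0
  · exact A.const 1
  · exact A.const 0
  · exact A.neg (fun y => y (0, 0)) (A.coord _)
  · exact A.const 0
  · exact A.const 0
  · exact A.const 1
  · exact A.const 1

theorem ver (j : Fin n) : RV y0 (fun y => vert n y j) := by
  intro i
  by_cases h : j = 0
  · simp only [vert, h, if_true]
    exact A.const _
  · simp only [vert, h, if_false]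
    fin_cases i
    · exact A.const 1
    · exact A.coord (j, 0)
    · exact A.coord (j, 1)
    · exact A.coord (j, 2)

end

end RbAux

open RbAux in
theorem tRb (hRaA : S_RaA) (hRaM : S_RaM) (hGl : S_Gl) (hYp : S_Yp) (hYb : S_Yb) (hYd : S_Yd) :
    S_Rb := by
  intro n _ e r he ν hν h1 h2 h3 h4
  have A := hRaA (Ix n) (ys n)
  have M := hRaM (Ix n) (ys n)
  have hMo : RM (ys n) (fun y => Mo n y) := mo A
  have hdet : (Mo n (ys n)).det ≠ 0 := by
    unfold Mo
    rw [(hYp n).1]
    exact hGl.1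
  have htm : RM (ys n) (fun y => tm n e y) := M.pow _ e hMo
  have hpol : ∀ k, RV (ys n) fun y => pol n y k := fun k =>
    M.vec _ _ (M.zpow _ (k / (n : ℤ)) hMo hdet) (ver A (rs n k))
  have hB : ∀ m, RM (ys n) fun y => Bm n e r y m := fun m i j =>
    M.vec _ _ (M.pow _ (j : ℕ) htm) (hpol (r * m)) i
  have hb := (hYb n e r he).1
  have hinv : ∀ m, RM (ys n) fun y => (Bm n e r y m)⁻¹ := fun m => M.inv _ (hB m) (hb m)
  have hpc : RV (ys n) (fun y => pc n e r y) := fun i =>
    A.neg _ (M.vec _ _ (hinv 0) (M.vec _ (fun _ => e0) (M.pow _ 4 htm) fun _ => A.const _) i)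
  have hbv : ∀ m, RV (ys n) fun y => bv n e r y m := fun m =>
    M.vec _ _ (hinv m) (hpol (r * (m + 1)))
  have hd := hYd n e r he ν hν h1 h2 h3 h4
  have hs : ∀ m, RA (ys n) fun y => s0 n e r y m := fun m =>
    A.sub _ _ (A.div _ _ (hbv m 2) (hbv m 3) (hd m).1) (hpc 3)
  have hk : ∀ m, RA (ys n) fun y => kap n e r y m := fun m =>
    A.sub _ _ (A.sub _ _ (hbv m 1) (A.mul _ _ (hs m) (hbv m 2))) (A.mul _ _ (hpc 2) (hbv m 3))
  refine ⟨hMo, htm, hpol, hB, hpc, hbv, hk, fun m i => ?_⟩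
  fin_cases i
  · exact hs m
  · exact A.div _ _ (A.sub _ _ (A.sub _ _ (hbv m 0) (A.mul _ _ (hs m) (hbv m 1)))
      (A.mul _ _ (hpc 1) (hbv m 3))) (hk m) (hd m).2.1
  · exact A.div _ _ (A.sub _ _ (A.mul _ _ (A.neg _ (hs m)) (hbv m 0))
      (A.mul _ _ (hpc 0) (hbv m 3))) (hk m) (hd m).2.1

end Pool.Agent.MP62a5ad.QN
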