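import Pool.Agent.Lib.MP_62a5ad_mp.QN.SpecC

/-!
# MP_62a5ad_mp, project QN, part C: the data at all times are rational
-/

set_option autoImplicit false

namespace Pool.Agent.MP62a5ad.QN

open Matrix
open scoped ContDiff
open Pool.Agent.MP62a5ad.PN (V4 M4 e0)

namespace RdAux

section

variable {ι : Type} [Fintype ι] {y0 : ι → ℝ} (A : RAt y0) {p : (ι → ℝ) → Fin 4 → ℝ} (hp : RV y0 p)

include A hp

theorem ra {s u C : (ι → ℝ) → ℝ} (hs : RA y0 s) (hu : RA y0 u) (hC : RA y0 C) (h1 : C y0 ≠ 0)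
    (h2 : C y0 + s y0 ^ 2 + u y0 * s y0 ≠ 0) : RA y0 fun y => rA (p y) (s y) (u y) (C y) := by
  have h0 : RA y0 fun y => p y 0 / C y := A.div _ _ (hp 0) hC h1
  have k1 : RA y0 fun y => s y * (p y 2 - C y - p y 0 / C y - u y * p y 3 + u y ^ 2) :=
    A.mul _ _ hs (A.add _ _ (A.sub _ _ (A.sub _ _ (A.sub _ _ (hp 2) hC) h0)
      (A.mul _ _ hu (hp 3))) (A.pow _ 2 hu))
  have k2 : RA y0 fun y => u y * (p y 0 / C y) := A.mul _ _ hu h0
  have k3 : RA y0 fun y => (p y 3 - u y) * C y := A.mul _ _ (A.sub _ _ (hp 3) hu) hC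
  have k4 : RA y0 fun y => C y + s y ^ 2 + u y * s y :=
    A.add _ _ (A.add _ _ hC (A.pow _ 2 hs)) (A.mul _ _ hu hs)
  exact A.div _ _ (A.sub _ _ (A.sub _ _ (A.add _ _ k1 (hp 1)) k2) k3) k4 h2

theorem rs' {s u C : (ι → ℝ) → ℝ} (hs : RA y0 s) (hu : RA y0 u) (hC : RA y0 C) (h1 : C y0 ≠ 0)
    (h2 : C y0 + s y0 ^ 2 + u y0 * s y0 ≠ 0) (h3 : rA (p y0) (s y0) (u y0) (C y0) ≠ 0) :
    RA y0 fun y => rS (p y) (s y) (u y) (C y) := by
  have h := ra A hp hs hu hC h1 h2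
  have h0 : RA y0 fun y => p y 0 / C y := A.div _ _ (hp 0) hC h1
  exact A.div _ _ (A.add _ _ (A.sub _ _ (A.sub _ _ (A.sub _ _ (A.sub _ _ (A.sub _ _ (hp 2)
    (A.mul _ _ h hs)) hC) h0) (A.mul _ _ hu h)) (A.mul _ _ hu (hp 3))) (A.pow _ 2 hu)) h h3

theorem ru {s u C : (ι → ℝ) → ℝ} (hs : RA y0 s) (hu : RA y0 u) (hC : RA y0 C) (h1 : C y0 ≠ 0)
    (h2 : C y0 + s y0 ^ 2 + u y0 * s y0 ≠ 0) : RA y0 fun y => rU (p y) (s y) (u y) (C y) :=
  A.sub _ _ (A.add _ _ (ra A hp hs hu hC h1 h2) (hp 3)) hu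

/-- One step. -/
theorem stp (hYl : S_Yl) {g ν : ℝ} (hg : g ≠ 0) (n1 : ν ≠ -1) (n2 : ν ≠ 0) (n3 : ν ≠ 1)
    (n4 : ν ≠ 2) (hp0 : p y0 = px g) {z : (ι → ℝ) → ℤ → Fin 3 → ℝ}
    (hz : ∀ m, RV y0 fun y => z y m) (hz0 : z y0 = fun _ => zx g ν) (m : ℤ) :
    (RV y0 fun y => fwd (p y) (z y) m) ∧ RV y0 fun y => bwd (p y) (z y) m := by
  obtain ⟨a1, a2, a3, -⟩ := hYl g ν hg n1 n2 n3 n4
  have h1 : ∀ k, z y0 k 2 ≠ 0 := fun k => by rw [hz0]; exact a1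
  have h2 : ∀ k l, z y0 k 2 + z y0 l 0 ^ 2 + z y0 k 1 * z y0 l 0 ≠ 0 := fun k l => by
    rw [hz0]; exact a2
  have h3 : ∀ k l, rA (p y0) (z y0 l 0) (z y0 k 1) (z y0 k 2) ≠ 0 := fun k l => by
    rw [hz0, hp0]; exact a3
  constructor
  · intro i
    fin_cases i
    · exact rs' A hp (hz (m + 1) 0) (hz m 1) (hz m 2) (h1 m) (h2 m _) (h3 m _)
    · exact ru A hp (hz (m + 1) 0) (hz m 1) (hz m 2) (h1 m) (h2 m _)
    · exact A.div _ _ (hp 0) (hz m 2) (h1 m)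
  · intro i
    fin_cases i
    · exact rs' A hp (hz (m - 1) 0) (hz (m - 1) 1) (hz (m - 1) 2) (h1 _) (h2 _ _) (h3 _ _)
    · exact ru A hp (hz m 0) (hz m 1) (hz m 2) (h1 m) (h2 m _)
    · exact A.div _ _ (hp 0) (hz m 2) (h1 m)

end

end RdAux

open RdAux in
theorem tRd (hRaA : S_RaA) (hYb : S_Yb) (hYd : S_Yd) (hYl : S_Yl) (hRb : S_Rb) : S_Rd := by
  intro n _ e r he ν hν h1 h2 h3 h4
  have A := hRaA (Ix n) (ys n)
  have hg : (1 / 4 : ℝ) ^ e ≠ 0 := by positivity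
  have hpc0 := (hYb n e r he).2.1
  have hd := hYd n e r he ν hν h1 h2 h3 h4
  have hd0 : dat0 n e r (ys n) = fun _ => zx ((1 / 4 : ℝ) ^ e) ν := funext fun m => (hd m).2.2
  obtain ⟨-, -, -, -, f1, b1, hlat, -⟩ := hYl _ ν hg h1 h2 h3 h4
  have k1 : 1 - ν ≠ -1 := fun h => h4 (by linarith)
  have k2 : 1 - ν ≠ 0 := fun h => h3 (by linarith)
  have k3 : 1 - ν ≠ 1 := fun h => h2 (by linarith)
  have k4 : 1 - ν ≠ 2 := fun h => h1 (by linarith)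
  have hL : ∀ τ : ℤ, lat (pc n e r (ys n)) (dat0 n e r (ys n)) τ =
      fun _ => if Even τ then zx ((1 / 4 : ℝ) ^ e) ν else zx ((1 / 4 : ℝ) ^ e) (1 - ν) := by
    intro τ
    rw [hpc0, hd0]
    exact hlat τ
  obtain ⟨-, -, -, -, hpc, -, -, hdat⟩ := hRb n e r he ν hν h1 h2 h3 h4
  refine ⟨fun τ m => congrFun (hL τ) m, ?_⟩
  -- one step, from any family with the right values
  have step : ∀ (z : E n → ℤ → Fin 3 → ℝ) (τ : ℤ), (∀ m, RV (ys n) fun y => z y m) →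
      (z (ys n) = fun _ => if Even τ then zx ((1 / 4 : ℝ) ^ e) ν
        else zx ((1 / 4 : ℝ) ^ e) (1 - ν)) → ∀ m,
      (RV (ys n) fun y => fwd (pc n e r y) (z y) m) ∧
        RV (ys n) fun y => bwd (pc n e r y) (z y) m := by
    intro z τ hz hz0 m
    by_cases hτ : Even τ
    · simp only [hτ, if_true] at hz0
      exact stp A hpc hYl hg h1 h2 h3 h4 hpc0 hz hz0 m
    · simp only [hτ, if_false] at hz0
      exact stp A hpc hYl hg k1 k2 k3 k4 hpc0 hz hz0 m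
  have hF : ∀ (k : ℕ) (m : ℤ),
      RV (ys n) fun y => (fwd (pc n e r y))^[k] (dat0 n e r y) m := by
    intro k
    induction k with
    | zero => exact hdat
    | succ k ih =>
      intro m
      have h := (step (fun y => (fwd (pc n e r y))^[k] (dat0 n e r y)) k ih (hL k) m).1
      simp only [Function.iterate_succ_apply']
      exact h
  have hB : ∀ (k : ℕ), (∀ (m : ℤ),
      RV (ys n) fun y => (bwd (pc n e r y))^[k] (dat0 n e r y) m) ∧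
      ∃ τ : ℤ, (bwd (pc n e r (ys n)))^[k] (dat0 n e r (ys n)) =
        fun _ => if Even τ then zx ((1 / 4 : ℝ) ^ e) ν else zx ((1 / 4 : ℝ) ^ e) (1 - ν) := by
    intro k
    induction k with
    | zero => exact ⟨hdat, 0, hL 0⟩
    | succ k ih =>
      obtain ⟨ih1, τ, ih2⟩ := ih
      refine ⟨fun m => ?_, Int.negSucc k, hL (Int.negSucc k)⟩
      have h := (step (fun y => (bwd (pc n e r y))^[k] (dat0 n e r y)) τ ih1 ih2 m).2
      simp only [Function.iterate_succ_apply']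
      exact h
  rintro (k | k) m
  · exact hF k m
  · exact (hB (k + 1)).1 m

end Pool.Agent.MP62a5ad.QN
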