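import Pool.Agent.Lib.MP_62a5ad_mp.QN.SpecB

/-!
# MP_62a5ad_mp, project QN: reality
-/

set_option autoImplicit false

namespace Pool.Agent.MP62a5ad.QN

open Matrix

section Hom

variable {K : Type} [Field K] (f : K →+* K) (w : Fin 4 → K) (D : ℤ → ℤ → Fin 3 → K)
  (H : ℤ → ℤ → K) (τ m : ℤ)

private theorem Rea_qv (z : Fin 3 → K) (x : K) : f (qv z x) = qv (fun c => f (z c)) (f x) := by
  simp only [qv, map_add, map_mul, map_pow]

private theorem Rea_jA (z : Fin 3 → K) : f (jA w z) = jA (fun i => f (w i)) (fun c => f (z c)) := by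
  simp only [jA, e1, e3, map_add, map_sub, map_mul, map_div₀]

private theorem Rea_gam : f (gam w D τ m) =
    gam (fun i => f (w i)) (fun a b c => f (D a b c)) τ m := by
  simp only [gam, Rea_qv, map_sub, map_mul, map_div₀]

private theorem Rea_dlt : f (dlt w D τ m) =
    dlt (fun i => f (w i)) (fun a b c => f (D a b c)) τ m := by
  simp only [dlt, Rea_qv, map_sub, map_mul, map_div₀]

private theorem Rea_rho : f (rho w D H τ m) =
    rho (fun i => f (w i)) (fun a b c => f (D a b c)) (fun a b => f (H a b)) τ m := by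
  simp only [rho, Rea_gam, Rea_dlt, map_mul, map_div₀]

private theorem Rea_alp : f (alp w D H τ m) =
    alp (fun i => f (w i)) (fun a b c => f (D a b c)) (fun a b => f (H a b)) τ m := by
  simp only [alp, alr, Rea_rho, Rea_gam, Rea_dlt, Rea_jA, e1, map_add, map_sub, map_mul, map_neg]

private theorem Rea_cst : f (cst w D τ m) =
    cst (fun i => f (w i)) (fun a b c => f (D a b c)) τ m := by
  simp only [cst, e3, map_add, map_mul, map_div₀]

private theorem Rea_thx {n : ℕ} [NeZero n] (i : Ix n) : f (thx n w D H τ i) =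
    thx n (fun i => f (w i)) (fun a b c => f (D a b c)) (fun a b => f (H a b)) τ i := by
  unfold thx
  split_ifs
  · exact Rea_alp f w D H τ _
  · exact Rea_rho f w D H τ _
  · exact Rea_cst f w D τ _

end Hom

/-- The complex conjugation permutes the roots. -/
private theorem Rea_perm (p : Fin 4 → ℝ) (w : Fin 4 → ℂ) (hinj : Function.Injective w)
    (hp : pw w = fun i => (p i : ℂ)) :
    ∃ σ : Equiv.Perm (Fin 4), ∀ i, (starRingEnd ℂ) (w i) = w (σ i) := by
  have hfac : ∀ x : ℂ, pv (pw w) x = (x - w 0) * (x - w 1) * (x - w 2) * (x - w 3) := by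
    intro x
    simp only [pv, pw, Matrix.cons_val_zero, Matrix.cons_val_one, Matrix.cons_val]
    ring
  have hconj : ∀ x : ℂ, (starRingEnd ℂ) (pv (pw w) x) = pv (pw w) ((starRingEnd ℂ) x) := by
    intro x
    rw [hp]
    simp only [pv, map_add, map_mul, map_pow, Complex.conj_ofReal]
  have hroot : ∀ i, ∃ j, (starRingEnd ℂ) (w i) = w j := by
    intro i
    have h0 : pv (pw w) (w i) = 0 := by
      rw [hfac]
      fin_cases i <;> simp
    have h1 : pv (pw w) ((starRingEnd ℂ) (w i)) = 0 := by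
      rw [← hconj, h0, map_zero]
    rw [hfac] at h1
    rcases mul_eq_zero.1 h1 with h1 | h1
    · rcases mul_eq_zero.1 h1 with h1 | h1
      · rcases mul_eq_zero.1 h1 with h1 | h1
        · exact ⟨0, sub_eq_zero.1 h1⟩
        · exact ⟨1, sub_eq_zero.1 h1⟩
      · exact ⟨2, sub_eq_zero.1 h1⟩
    · exact ⟨3, sub_eq_zero.1 h1⟩
  choose s hs using hroot
  have hsi : Function.Injective s := by
    intro i j hij
    apply hinj
    apply (starRingEnd ℂ).injective
    rw [hs, hs, hij]
  exact ⟨Equiv.ofBijective s (Finite.injective_iff_bijective.1 hsi), hs⟩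

private theorem Rea_ok (p : Fin 4 → ℝ) (w : Fin 4 → ℂ) (D : ℤ → ℤ → Fin 3 → ℝ)
    (H : ℤ → ℤ → ℝ) (lo hi : ℤ) (hp : pw w = fun i => (p i : ℂ)) (hok : Ok p D H lo hi) :
    Ok (pw w) (fun a b c => (D a b c : ℂ)) (fun a b => (H a b : ℂ)) lo hi := by
  rw [hp]
  refine ⟨?_, ?_, ?_, ?_, ?_⟩
  · exact Complex.ofReal_ne_zero.2 hok.p0
  · intro τ m h1 h2
    have h := hok.rel τ m h1 h2
    exact ⟨by exact_mod_cast h.c3, by exact_mod_cast h.c2, by exact_mod_cast h.c1,
      by exact_mod_cast h.c0⟩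
  · intro τ m h1 h2
    exact Complex.ofReal_ne_zero.2 (hok.eta τ m h1 h2)
  · intro τ m h1 h2
    have h := Complex.ofReal_ne_zero.2 (hok.ps τ m h1 h2)
    intro e
    apply h
    rw [← e]
    simp only [pv]
    push_cast
    rfl
  · intro τ m h1 h2
    have h := hok.nd τ m h1 h2
    intro e
    exact h (by exact_mod_cast e)

theorem sRea (h1 : S_Nm) (h2 : S_Mk) (h3 : S_Dg) : S_Rea := by
  intro n _ p w D H τ hn hw hinj hp hok hchi hD hH
  obtain ⟨σ, hσ⟩ := Rea_perm p w hinj hp
  set D' : ℤ → ℤ → Fin 3 → ℂ := fun a b c => (D a b c : ℂ) with hD'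
  set H' : ℤ → ℤ → ℂ := fun a b => (H a b : ℂ) with hH'
  have hcD : (fun a b c => (starRingEnd ℂ) (D' a b c)) = D' := by
    funext a b c
    exact Complex.conj_ofReal _
  have hcH : (fun a b => (starRingEnd ℂ) (H' a b)) = H' := by
    funext a b
    exact Complex.conj_ofReal _
  have hcw : (fun i => (starRingEnd ℂ) (w i)) = w ∘ σ := funext hσ
  have hmk := h2 n w D' H' τ σ hw hinj (Rea_ok p w D H _ _ hp hok) hchi
    (fun a m => by funext c; simp only [hD', hD]) (fun a m => by simp only [hH', hH])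
  have hth : ∀ i, (starRingEnd ℂ) (thx n w D' H' τ i) = thx n (w ∘ σ) D' H' τ i := by
    intro i
    rw [Rea_thx, hcD, hcH, hcw]
  refine ⟨?_, ?_, ?_⟩
  · intro x
    rw [← Complex.conj_eq_iff_im]
    have h := ((h1 ℂ n (thx n w D' H' τ) (x : ℂ)).2.2.2.2.2.2.2 ℂ (starRingEnd ℂ)).2
    rw [h, Complex.conj_ofReal]
    simp only [hth]
    exact hmk.1 x
  · rw [← Complex.conj_eq_iff_im, map_prod, ← hmk.2]
    refine Finset.prod_congr rfl fun m _ => ?_
    rw [Rea_rho, hcD, hcH, hcw]
  · rw [← Complex.conj_eq_iff_im, map_sum]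
    have e1 : ∑ m ∈ Finset.range n, (starRingEnd ℂ) (alp w D' H' τ m) =
        ∑ k : Fin n, thx n (w ∘ σ) D' H' τ (k, 0) := by
      rw [Finset.sum_range]
      refine Finset.sum_congr rfl fun k _ => ?_
      rw [← hth]
      rfl
    have e2 : ∑ m ∈ Finset.range n, alp w D' H' τ m =
        ∑ k : Fin n, thx n w D' H' τ (k, 0) := by
      rw [Finset.sum_range]
      rfl
    rw [e1, e2]
    have hev : ∀ (θ : Ix n → ℂ) (x : ℂ),
        (Hx (fun i => Polynomial.C (θ i)) Polynomial.X).eval x = Hx θ x := by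
      intro θ x
      have h := ((h1 (Polynomial ℂ) n (fun i => Polynomial.C (θ i))
        Polynomial.X).2.2.2.2.2.2.2 ℂ (Polynomial.evalRingHom x)).2
      simp only [Polynomial.coe_evalRingHom, Polynomial.eval_C, Polynomial.eval_X] at h
      exact h
    have hpoly : (Hx (fun i => Polynomial.C (thx n (w ∘ σ) D' H' τ i)) Polynomial.X) =
        Hx (fun i => Polynomial.C (thx n w D' H' τ i)) Polynomial.X := by
      apply Polynomial.funext
      intro x
      rw [hev, hev]
      exact hmk.1 x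
    have c1 := h3 ℂ n (thx n (w ∘ σ) D' H' τ) hn
    have c2 := h3 ℂ n (thx n w D' H' τ) hn
    rw [hpoly, c2] at c1
    exact (neg_injective c1).symm

end Pool.Agent.MP62a5ad.QN
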