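import Pool.Agent.Lib.MP_62a5ad_mp.QN.SpecA

/-!
# MP_62a5ad_mp, project QN: the relation of a site
-/

set_option autoImplicit false

namespace Pool.Agent.MP62a5ad.QN

open Matrix

section

variable {K : Type} [Field K]

private theorem Rel_one (p : Fin 4 → K) (s : K) (z : Fin 3 → K) (hz : z 2 ≠ 0)
    (hD : z 2 + s ^ 2 + z 1 * s ≠ 0) (ha : rA p s (z 1) (z 2) ≠ 0) :
    Rel p s z ![rS p s (z 1) (z 2), rU p s (z 1) (z 2), p 0 / z 2]
      (rA p s (z 1) (z 2))⁻¹ := by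
  have h1 : rA p s (z 1) (z 2) * (z 2 + s ^ 2 + z 1 * s) =
      s * (p 2 - z 2 - p 0 / z 2 - z 1 * p 3 + z 1 ^ 2) + p 1 - z 1 * (p 0 / z 2) -
        (p 3 - z 1) * z 2 := by
    unfold rA
    exact div_mul_cancel₀ _ hD
  have h2 : rA p s (z 1) (z 2) * rS p s (z 1) (z 2) =
      p 2 - rA p s (z 1) (z 2) * s - z 2 - p 0 / z 2 - z 1 * rA p s (z 1) (z 2) - z 1 * p 3 +
        z 1 ^ 2 := by
    unfold rS
    exact mul_div_cancel₀ _ ha
  have h3 : rU p s (z 1) (z 2) = rA p s (z 1) (z 2) + p 3 - z 1 := rfl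
  have h4 : z 2 * (p 0 / z 2) = p 0 := mul_div_cancel₀ _ hz
  generalize rA p s (z 1) (z 2) = a at *
  generalize rS p s (z 1) (z 2) = b at *
  generalize rU p s (z 1) (z 2) = d at *
  generalize p 0 / z 2 = c at *
  refine ⟨?_, ?_, ?_, ?_⟩
  · change a⁻¹ * (z 1 + d) = 1 + a⁻¹ * p 3
    rw [h3]
    field_simp
    ring
  · change a⁻¹ * (z 2 + c + z 1 * d) = -(s + b) + a⁻¹ * p 2
    rw [h3]
    field_simp
    linear_combination h2
  · change a⁻¹ * (z 1 * c + d * z 2) = s * b + a⁻¹ * p 1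
    rw [h3]
    field_simp
    linear_combination h1 - s * h2
  · exact h4

private theorem Rel_two (p : Fin 4 → K) (s η : K) (z z' : Fin 3 → K) (hz : z 2 ≠ 0)
    (hD : z 2 + s ^ 2 + z 1 * s ≠ 0) (hη : η ≠ 0) (h : Rel p s z z' η) :
    z' = ![rS p s (z 1) (z 2), rU p s (z 1) (z 2), p 0 / z 2] ∧
      η = (z 1 + z' 1 - p 3)⁻¹ := by
  have c0 : z' 2 = p 0 / z 2 := by
    rw [eq_div_iff hz, ← h.c0]
    ring
  have c3 : z' 1 = η⁻¹ + p 3 - z 1 := by
    have := h.c3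
    field_simp
    linear_combination this
  have c2 : η⁻¹ * z' 0 = p 2 - η⁻¹ * s - z 2 - z' 2 - z 1 * z' 1 := by
    have := h.c2
    field_simp
    linear_combination this
  have hb : η⁻¹ ≠ 0 := inv_ne_zero hη
  have c1 : z 1 * z' 2 + z' 1 * z 2 = s * (η⁻¹ * z' 0) + p 1 := by
    have := h.c1
    field_simp
    linear_combination this
  have hA : rA p s (z 1) (z 2) = η⁻¹ := by
    unfold rA
    rw [div_eq_iff hD, ← c0]
    rw [c2, c3] at c1
    linear_combination -c1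
  have hU : z' 1 = rU p s (z 1) (z 2) := by
    unfold rU
    rw [hA, c3]
  have hS : z' 0 = rS p s (z 1) (z 2) := by
    unfold rS
    rw [hA, eq_div_iff hb, ← c0]
    rw [c3] at c2
    linear_combination c2
  constructor
  · funext i
    fin_cases i
    · exact hS
    · exact hU
    · exact c0
  · rw [c3, show z 1 + (η⁻¹ + p 3 - z 1) - p 3 = η⁻¹ by ring, inv_inv]

end

theorem sRel : S_Rel := by
  intro K _ p
  refine ⟨Rel_one p, fun s η z z' => Rel_two p s η z z', ?_, ?_, ?_⟩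
  · intro s η z z' h
    refine ⟨?_, ?_, ?_, ?_⟩
    · change η * (z' 1 + z 1) = 1 + η * p 3
      linear_combination h.c3
    · change η * (z' 2 + z 2 + z' 1 * z 1) = -(z' 0 + s) + η * p 2
      linear_combination h.c2
    · change η * (z' 1 * z 2 + z 1 * z' 2) = z' 0 * s + η * p 1
      linear_combination h.c1
    · change z' 2 * z 2 = p 0
      linear_combination h.c0
  · intro s η z z' h x
    unfold qv pv
    linear_combination x ^ 3 * h.c3 + x ^ 2 * h.c2 + x * h.c1 + η * h.c0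
  · intro l s η z z' hl h
    have hl' : l⁻¹ * l = 1 := inv_mul_cancel₀ hl
    refine ⟨?_, ?_, ?_, ?_⟩
    · change l⁻¹ * η * (l * z 1 + l * z' 1) = 1 + l⁻¹ * η * (l * p 3)
      linear_combination h.c3 + (η * (z 1 + z' 1) - η * p 3) * hl'
    · change l⁻¹ * η * (l ^ 2 * z 2 + l ^ 2 * z' 2 + l * z 1 * (l * z' 1)) =
        -(l * s + l * z' 0) + l⁻¹ * η * (l ^ 2 * p 2)
      linear_combination l * h.c2 + (η * (z 2 + z' 2 + z 1 * z' 1) - η * p 2) * l * hl'
    · change l⁻¹ * η * (l * z 1 * (l ^ 2 * z' 2) + l * z' 1 * (l ^ 2 * z 2)) =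
        l * s * (l * z' 0) + l⁻¹ * η * (l ^ 3 * p 1)
      linear_combination l ^ 2 * h.c1 +
        (η * (z 1 * z' 2 + z' 1 * z 2) - η * p 1) * l ^ 2 * hl'
    · change l ^ 2 * z 2 * (l ^ 2 * z' 2) = l ^ 4 * p 0
      linear_combination l ^ 4 * h.c0

end Pool.Agent.MP62a5ad.QN
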