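import Pool.Agent.Lib.MP_62a5ad_mp.QN.SpecC

/-!
# MP_62a5ad_mp, project QN: the map is rational at the reference polygon
-/

set_option autoImplicit false

namespace Pool.Agent.MP62a5ad.QN

open Matrix
open Pool.Agent.MP62a5ad.PN (V4 M4 e0)

theorem tRf (hRaA : S_RaA) (hRaM : S_RaM) (hYl : S_Yl) (hRb : S_Rb) (hRd : S_Rd) (hYf : S_Yf) :
    S_Rf := by
  intro n _ e r r' i he ν hν h1 h0 h2 h3
  have A := hRaA (Ix n) (ys n)
  have M := hRaM (Ix n) (ys n)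
  have hg : ((1 / 4 : ℝ) ^ e) ≠ 0 := pow_ne_zero _ (by norm_num)
  obtain ⟨rMo, rtm, rpol, -, -, -, -, -⟩ := hRb n e r he ν hν h1 h0 h2 h3
  obtain ⟨dv, rdat⟩ := hRd n e r he ν hν h1 h0 h2 h3
  obtain ⟨f1, f2, f3, f4, -⟩ := hYf n e r r' i he ν hν h1 h0 h2 h3
  have hz : zx ((1 / 4 : ℝ) ^ e) ν 0 ≠ (1 / 4 : ℝ) ^ e := (hYl _ ν hg h1 h0 h2 h3).2.2.2.1
  have rsub : ∀ τ m : ℤ, RM (ys n) fun y => tm n e y - dat n e r y τ m 0 • (1 : M4) :=
    fun τ m => M.sub _ _ rtm (M.smul _ _ (rdat τ m 0) (M.const 1))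
  have hdet : ∀ m : ℤ, (tm n e (ys n) - dat n e r (ys n) 0 m 0 • (1 : M4)).det ≠ 0 := by
    intro m
    refine f1 _ ?_
    rw [dv 0 m, if_pos (by decide)]
    exact hz
  have rGm : ∀ m : ℤ, RM (ys n) fun y => Gm n e r y m := fun m =>
    M.mul _ _ (rsub 1 m) (M.inv _ (rsub 0 m) (hdet m))
  have rmk : ∀ k : ℤ, RM (ys n) fun y => mk n y (pol n y k) := by
    intro k
    have h : (fun y => mk n y (pol n y k)) = fun y =>
        pol n y k 0 • Mo n y ^ 0 + pol n y k 1 • Mo n y ^ 1 + pol n y k 2 • Mo n y ^ 2 +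
          pol n y k 3 • Mo n y ^ 3 := by
      funext y
      simp only [mk, Fin.sum_univ_four]
      rfl
    rw [h]
    exact M.add _ _ (M.add _ _ (M.add _ _ (M.smul _ _ (rpol k 0) (M.pow _ 0 rMo))
      (M.smul _ _ (rpol k 1) (M.pow _ 1 rMo))) (M.smul _ _ (rpol k 2) (M.pow _ 2 rMo)))
      (M.smul _ _ (rpol k 3) (M.pow _ 3 rMo))
  have rimg : ∀ k : ℤ, RV (ys n) fun y => img n e r r' i y k := fun k =>
    M.vec _ _ (rGm _) (rpol _)
  have rimn : ∀ k : ℤ, RV (ys n) fun y => imn n e r r' i y k := by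
    intro k
    refine M.vec _ _ (M.inv _ (M.mul _ _ (rGm (r' * i)) (rmk i)) ?_) (rimg k)
    rw [Matrix.det_mul]
    exact mul_ne_zero (f2 _) (f3 _)
  refine ⟨rimn, fun a => ?_⟩
  by_cases ha : a.1 = 0
  · have h : (fun y => ff n e r r' i y a) = fun y => y a := by
      funext y
      simp only [ff, if_pos ha]
    rw [h]
    exact A.coord a
  · have h : (fun y => ff n e r r' i y a) = fun y =>
        imn n e r r' i y ((a.1 : ℕ) : ℤ) a.2.succ / imn n e r r' i y ((a.1 : ℕ) : ℤ) 0 := by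
      funext y
      simp only [ff, if_neg ha]
    rw [h]
    exact A.div _ _ (rimn _ _) (rimn _ _) (f4 a.1)

end Pool.Agent.MP62a5ad.QN
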