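import Pool.Agent.Lib.MP_62a5ad_mp.QN.SpecE

/-!
# MP_62a5ad_mp, QN: the region exists
-/

set_option autoImplicit false

namespace Pool.Agent.MP62a5ad.QN

open Matrix
open scoped ContDiff
open Pool.Agent.MP62a5ad.PN (V4 M4 e0)

namespace Rg_Aux

/-- The set where a polynomial does not vanish is open. -/
theorem Rg_open {ι : Type} [Fintype ι] (P : MvPolynomial ι ℝ) :
    IsOpen {y : ι → ℝ | MvPolynomial.eval y P ≠ 0} :=
  isOpen_ne.preimage (MvPolynomial.continuous_eval P)

/-- The set where a nonzero polynomial does not vanish is dense. -/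
theorem Rg_dense {ι : Type} [Fintype ι] (P : MvPolynomial ι ℝ) (hP : P ≠ 0) :
    Dense {y : ι → ℝ | MvPolynomial.eval y P ≠ 0} := by
  rw [Metric.dense_iff]
  intro x r hr
  by_contra hc
  rw [Set.not_nonempty_iff_eq_empty, Set.eq_empty_iff_forall_notMem] at hc
  apply hP
  refine MvPolynomial.funext_set (fun i => Metric.ball (x i) r) (fun i => ?_) fun y hy => ?_
  · rw [Real.ball_eq_Ioo]
    exact Set.Ioo_infinite (by linarith)
  · rw [map_zero]
    by_contra h0
    refine hc y ⟨?_, h0⟩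
    rw [Metric.mem_ball, dist_pi_lt_iff hr]
    intro i
    exact hy i (Set.mem_univ i)

variable (n : ℕ) [NeZero n]

theorem Rg_cc_cont : Continuous (cc n) := by
  unfold cc
  fun_prop

theorem Rg_cc_open : IsOpenMap (cc n) := by
  have h := LinearMap.isOpenMap_of_finiteDimensional
    (LinearMap.funLeft ℝ ℝ fun i : Fin 3 => (((0 : Fin n), i) : Ix n))
    (LinearMap.funLeft_surjective_of_injective _ _ _ fun i j hij => (Prod.mk.inj hij).2)
  exact h

end Rg_Aux

open Rg_Aux in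
theorem sRg (h1 : S_Gn) (h2 : S_Sel) : S_Rg := by
  intro n _ e r r' c i hn he hr
  obtain ⟨Q, Q', hQ, hQ', hg, hg'⟩ := h1 n e r r' c i hn he hr
  obtain ⟨V, m, hVo, hVd, hm, hV2, hmr⟩ := h2
  have hP : (MvPolynomial.X (0, 1) ^ 2 - MvPolynomial.X (0, 2) : MvPolynomial (Ix n) ℝ) ≠ 0 := by
    intro h0
    have h3 := congrArg (MvPolynomial.eval (Pi.single ((0 : Fin n), (1 : Fin 3)) (1 : ℝ))) h0
    simp at h3
  refine ⟨m, ({y | MvPolynomial.eval y Q ≠ 0} ∩ {y | MvPolynomial.eval y Q' ≠ 0}) ∩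
    ({y | MvPolynomial.eval y (MvPolynomial.X (0, 1) ^ 2 - MvPolynomial.X (0, 2) :
      MvPolynomial (Ix n) ℝ) ≠ 0} ∩ cc n ⁻¹' V), ?_⟩
  have hVo' : IsOpen (cc n ⁻¹' V) := hVo.preimage (Rg_cc_cont n)
  constructor
  · exact ((Rg_open Q).inter (Rg_open Q')).inter ((Rg_open _).inter hVo')
  · exact ((Rg_dense Q hQ).inter_of_isOpen_left (Rg_dense Q' hQ') (Rg_open Q)).inter_of_isOpen_left
      ((Rg_dense _ hP).inter_of_isOpen_left (hVd.preimage (Rg_cc_open n)) (Rg_open _))
      ((Rg_open Q).inter (Rg_open Q'))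
  · intro y hy
    exact hg y hy.1.1
  · intro y hy
    exact hg _ (hg' y hy.1.2)
  · intro y hy j
    exact (hm j).contDiffAt (hVo.mem_nhds hy.2.2)
  · intro y hy
    exact hmr _ hy.2.2
  · intro y hy h0
    apply hy.2.1
    simp only [map_sub, map_pow, MvPolynomial.eval_X]
    exact sub_eq_zero.2 h0

end Pool.Agent.MP62a5ad.QN
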