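import Pool.Agent.Lib.MP_62a5ad_mp.QN.SpecE

/-!
# MP_62a5ad_mp, project QN: the integrals are real
-/

set_option autoImplicit false

namespace Pool.Agent.MP62a5ad.QN

open Matrix
open scoped ContDiff
open Pool.Agent.MP62a5ad.PN (V4 M4 e0)

private theorem Ri_prod {κ : Type} (s : Finset κ) (f : κ → ℂ) (h : ∀ k ∈ s, (f k).im = 0) :
    (∏ k ∈ s, f k).im = 0 := by
  have h1 : ∏ k ∈ s, f k = ((∏ k ∈ s, (f k).re : ℝ) : ℂ) := by
    rw [Complex.ofReal_prod]
    exact Finset.prod_congr rfl fun k hk => Complex.ext rfl (by rw [h k hk, Complex.ofReal_im])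
  rw [h1, Complex.ofReal_im]

theorem sRi (h1 : S_Dn) (h2 : S_Rea) : S_Ri := by
  intro n _ e r r' i y m hn hG hinj hroot hc j
  obtain ⟨-, -, hw0, hwi, hpw, hOk, -, hchi, -, hD, hH, -⟩ :=
    h1 n e r r' i y (fun j => m j (cc n y)) hG hinj hroot hc
  have hOk' : Ok (sp (lo n y ^ e) (pc n e r y)) (Dn n e r y) (Hn n e r y) (0 - 2) 0 :=
    ⟨hOk.p0, fun τ m a b => hOk.rel τ m (by omega) (by omega),
      fun τ m a b => hOk.eta τ m (by omega) (by omega),
      fun τ m a b => hOk.ps τ m (by omega) (by omega),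
      fun τ m a b => hOk.nd τ m (by omega) (by omega)⟩
  obtain ⟨hHx, hrho, halp⟩ := h2 n (sp (lo n y ^ e) (pc n e r y)) _ (Dn n e r y) (Hn n e r y) 0 hn
    hw0 hwi hpw hOk' (fun k a ha => hchi 0 (by norm_num) (by norm_num) k a ha) hD hH
  have hT : TH n e r m y = thx n (fun i => ((lo n y : ℂ) * m i (cc n y)) ^ e)
      (fun a b c => (Dn n e r y a b c : ℂ)) (fun a b => (Hn n e r y a b : ℂ)) 0 := rfl
  unfold fi
  rw [hT]
  split_ifs with c1 c2 c3
  · refine Ri_prod _ _ fun k _ => ?_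
    have e1 : thx n (fun i => ((lo n y : ℂ) * m i (cc n y)) ^ e)
        (fun a b c => (Dn n e r y a b c : ℂ)) (fun a b => (Hn n e r y a b : ℂ)) 0 (k, 2) =
        ((Dn n e r y 0 (k : ℕ) 2 + sp (lo n y ^ e) (pc n e r y) 0 / Dn n e r y 0 (k : ℕ) 2 : ℝ) :
          ℂ) := by
      have e2 := congrFun hpw 0
      have e3' : ∀ w : Fin 4 → ℂ, pw w 0 = w 0 * e3 w := fun w => by
        simp only [pw, e3, Matrix.cons_val_zero]
        ring
      rw [e3'] at e2
      push_cast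
      rw [← e2]
      rfl
    rw [e1]
    simp
  · have e1 := Finset.prod_range (fun k : ℕ => rho (fun i => ((lo n y : ℂ) * m i (cc n y)) ^ e)
      (fun a b c => (Dn n e r y a b c : ℂ)) (fun a b => (Hn n e r y a b : ℂ)) 0 (k : ℤ)) (n := n)
    rw [e1] at hrho
    exact hrho
  · have e1 := Finset.sum_range (fun k : ℕ => alp (fun i => ((lo n y : ℂ) * m i (cc n y)) ^ e)
      (fun a b c => (Dn n e r y a b c : ℂ)) (fun a b => (Hn n e r y a b : ℂ)) 0 (k : ℤ)) (n := n)
    rw [e1] at halp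
    exact halp
  · have := hHx ((j - (n + 2) : ℕ) : ℝ)
    rw [Complex.ofReal_natCast] at this
    exact this

end Pool.Agent.MP62a5ad.QN
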