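import Pool.Agent.Lib.MP_62a5ad_mp.QN.SpecC

/-!
# MP_62a5ad_mp, project QN, module Rp

The rules for `RP`: negatives, differences, powers, finite sums and products.
-/

set_option autoImplicit false

namespace Pool.Agent.MP62a5ad.QN

open Matrix
open scoped ContDiff
open Pool.Agent.MP62a5ad.PN (V4 M4 e0)

variable {ι : Type} [Fintype ι]

private lemma rp_const (hRaA : S_RaA) (y0 : ι → ℝ) (c : ℝ) :
    RP y0 fun _ _ _ => ((c : ℝ) : ℂ) :=
  RP.coef (fun _ => c) ((hRaA ι y0).const c)

private lemma rp_congr {y0 : ι → ℝ} {F G : (ι → ℝ) → ℂ → ℂ → ℂ} (h : RP y0 F)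
    (e : ∀ y m m', F y m m' = G y m m') : RP y0 G := by
  have : F = G := by
    funext y m m'
    exact e y m m'
  rw [← this]
  exact h

private lemma rp_neg (hRaA : S_RaA) {y0 : ι → ℝ} {F : (ι → ℝ) → ℂ → ℂ → ℂ} (h : RP y0 F) :
    RP y0 fun y m m' => -F y m m' := by
  refine rp_congr (RP.mul _ _ (rp_const hRaA y0 (-1)) h) ?_
  intro y m m'
  simp

/-- the rules for `RP` -/
theorem tRp (hRaA : S_RaA) : S_Rp := by
  intro ι _ y0
  refine ⟨fun F h => rp_neg hRaA h, fun F G hF hG => ?_, fun F k hF => ?_,
    fun κ s F hF => ?_, fun κ s F hF => ?_⟩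
  · refine rp_congr (RP.add _ _ hF (rp_neg hRaA hG)) ?_
    intro y m m'
    ring
  · induction k with
    | zero =>
      refine rp_congr (rp_const hRaA y0 1) ?_
      intro y m m'
      simp
    | succ k ih =>
      refine rp_congr (RP.mul _ _ ih hF) ?_
      intro y m m'
      ring
  · classical
    induction s using Finset.induction_on with
    | empty =>
      refine rp_congr (rp_const hRaA y0 0) ?_
      intro y m m'
      simp
    | insert a s ha ih =>
      have h1 := hF a (Finset.mem_insert_self a s)
      have h2 := ih fun k hk => hF k (Finset.mem_insert_of_mem hk)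
      refine rp_congr (RP.add _ _ h1 h2) ?_
      intro y m m'
      rw [Finset.sum_insert ha]
  · classical
    induction s using Finset.induction_on with
    | empty =>
      refine rp_congr (rp_const hRaA y0 1) ?_
      intro y m m'
      simp
    | insert a s ha ih =>
      have h1 := hF a (Finset.mem_insert_self a s)
      have h2 := ih fun k hk => hF k (Finset.mem_insert_of_mem hk)
      refine rp_congr (RP.mul _ _ h1 h2) ?_
      intro y m m'
      rw [Finset.prod_insert ha]

end Pool.Agent.MP62a5ad.QN
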