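import Pool.Agent.Lib.MP_62a5ad_mp.QN.SpecD

/-!
# MP_62a5ad_mp, project QN, module Rs: the resultant
-/

set_option autoImplicit false

namespace Pool.Agent.MP62a5ad.QN

section
variable {K : Type} [Field K]

/-- the coefficient of `x` in the remainder of `x⁴ + p₃ x³ + p₂ x² + p₁ x + p₀` -/
private def Rs_a (u C p1 p2 p3 : K) : K :=
  -u ^ 3 + 2 * u * C + p3 * (u ^ 2 - C) - p2 * u + p1

/-- the constant term of this remainder -/
private def Rs_b (u C p0 p2 p3 : K) : K :=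
  C ^ 2 - u ^ 2 * C + p3 * (u * C) - p2 * C + p0

private theorem Rs_norm (u C w0 w1 w2 w3 : K) :
    Rs_a u C (-(w0 * w1 * w2 + w0 * w1 * w3 + w0 * w2 * w3 + w1 * w2 * w3))
        (w0 * w1 + w0 * w2 + w0 * w3 + w1 * w2 + w1 * w3 + w2 * w3) (-(w0 + w1 + w2 + w3)) ^ 2 * C -
      Rs_a u C (-(w0 * w1 * w2 + w0 * w1 * w3 + w0 * w2 * w3 + w1 * w2 * w3))
        (w0 * w1 + w0 * w2 + w0 * w3 + w1 * w2 + w1 * w3 + w2 * w3) (-(w0 + w1 + w2 + w3)) *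
      Rs_b u C (w0 * w1 * w2 * w3) (w0 * w1 + w0 * w2 + w0 * w3 + w1 * w2 + w1 * w3 + w2 * w3)
        (-(w0 + w1 + w2 + w3)) * u +
      Rs_b u C (w0 * w1 * w2 * w3) (w0 * w1 + w0 * w2 + w0 * w3 + w1 * w2 + w1 * w3 + w2 * w3)
        (-(w0 + w1 + w2 + w3)) ^ 2 =
    (w0 ^ 2 + u * w0 + C) * (w1 ^ 2 + u * w1 + C) * (w2 ^ 2 + u * w2 + C) *
      (w3 ^ 2 + u * w3 + C) := by
  unfold Rs_a Rs_b
  ring

private theorem Rs_norm3 (u C s t : K) :
    (u ^ 2 - C + (s + t) * u + s * t) ^ 2 * C -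
      (u ^ 2 - C + (s + t) * u + s * t) * (u * C + (s + t) * C) * u + (u * C + (s + t) * C) ^ 2 =
    C * (s ^ 2 + u * s + C) * (t ^ 2 + u * t + C) := by
  ring

private theorem Rs_key {w0 w1 w2 w3 s t u v C E η : K}
    (c3 : η * (u + v) = 1 + η * (-(w0 + w1 + w2 + w3)))
    (c2 : η * (C + E + u * v) =
      -(s + t) + η * (w0 * w1 + w0 * w2 + w0 * w3 + w1 * w2 + w1 * w3 + w2 * w3))
    (c1 : η * (u * E + v * C) =
      s * t + η * (-(w0 * w1 * w2 + w0 * w1 * w3 + w0 * w2 * w3 + w1 * w2 * w3)))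
    (c0 : C * E = w0 * w1 * w2 * w3) :
    C * (s ^ 2 + u * s + C) * (t ^ 2 + u * t + C) =
      η ^ 2 * ((w0 ^ 2 + u * w0 + C) * (w1 ^ 2 + u * w1 + C) * (w2 ^ 2 + u * w2 + C) *
        (w3 ^ 2 + u * w3 + C)) := by
  rw [← Rs_norm, ← Rs_norm3]
  set q3 : K := -(w0 + w1 + w2 + w3) with hq3
  set q2 : K := w0 * w1 + w0 * w2 + w0 * w3 + w1 * w2 + w1 * w3 + w2 * w3 with hq2
  set q1 : K := -(w0 * w1 * w2 + w0 * w1 * w3 + w0 * w2 * w3 + w1 * w2 * w3) with hq1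
  set q0 : K := w0 * w1 * w2 * w3 with hq0
  have ha : u ^ 2 - C + (s + t) * u + s * t = -(η * Rs_a u C q1 q2 q3) := by
    unfold Rs_a
    linear_combination (-(u ^ 2 - C)) * c3 + u * c2 - c1
  have hb : u * C + (s + t) * C = -(η * Rs_b u C q0 q2 q3) := by
    unfold Rs_b
    linear_combination (-(u * C)) * c3 + C * c2 - η * c0
  rw [ha, hb]
  ring

end

/-- **Rs.** -/
theorem sRs (_h1 : S_Rel) (_h2 : S_Pw) : S_Rs := by
  intro K _ w s η z z' h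
  have c3 := h.c3
  have c2 := h.c2
  have c1 := h.c1
  have c0 := h.c0
  simp only [pw, Matrix.cons_val_zero, Matrix.cons_val_one, Matrix.cons_val] at c3 c2 c1 c0
  have := Rs_key c3 c2 c1 c0
  simp only [qv, Fin.prod_univ_four]
  linear_combination this

end Pool.Agent.MP62a5ad.QN
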