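import Pool.Agent.Lib.MP_62a5ad_mp.QN.SpecD

/-!
# MP_62a5ad_mp, project QN: scaling, extension of the field
-/

set_option autoImplicit false

namespace Pool.Agent.MP62a5ad.QN

open Matrix

theorem sSc (h1 : S_Rel) : S_Sc := by
  intro K _ l hl
  refine ⟨?_, ?_, ?_, ?_⟩
  · intro p D H lo hi h
    refine ⟨?_, ?_, ?_, ?_, ?_⟩
    · change l ^ 4 * p 0 ≠ 0
      exact mul_ne_zero (pow_ne_zero _ hl) h.p0
    · intro τ m h2 h3
      exact (h1 K p).2.2.2.2 l _ _ _ _ hl (h.rel τ m h2 h3)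
    · intro τ m h2 h3
      exact mul_ne_zero (inv_ne_zero hl) (h.eta τ m h2 h3)
    · intro τ m h2 h3
      have h4 : pv (sp l p) (sz l (D τ m) 0) = l ^ 4 * pv p (D τ m 0) := by
        unfold pv
        change (l * D τ m 0) ^ 4 + l * p 3 * (l * D τ m 0) ^ 3 +
          l ^ 2 * p 2 * (l * D τ m 0) ^ 2 + l ^ 3 * p 1 * (l * D τ m 0) + l ^ 4 * p 0 = _
        ring
      change pv (sp l p) (sz l (D τ m) 0) ≠ 0
      rw [h4]
      exact mul_ne_zero (pow_ne_zero _ hl) (h.ps τ m h2 h3)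
    · intro τ m h2 h3 h4
      exact h.nd τ m h2 h3 (mul_left_cancel₀ hl h4)
  · intro w
    funext i
    fin_cases i
    · change l * w 0 * (l * w 1) * (l * w 2) * (l * w 3) = l ^ 4 * (w 0 * w 1 * w 2 * w 3)
      ring
    · change -(l * w 0 * (l * w 1) * (l * w 2) + l * w 0 * (l * w 1) * (l * w 3) +
        l * w 0 * (l * w 2) * (l * w 3) + l * w 1 * (l * w 2) * (l * w 3)) =
        l ^ 3 * (-(w 0 * w 1 * w 2 + w 0 * w 1 * w 3 + w 0 * w 2 * w 3 + w 1 * w 2 * w 3))
      ring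
    · change l * w 0 * (l * w 1) + l * w 0 * (l * w 2) + l * w 0 * (l * w 3) +
        l * w 1 * (l * w 2) + l * w 1 * (l * w 3) + l * w 2 * (l * w 3) =
        l ^ 2 * (w 0 * w 1 + w 0 * w 2 + w 0 * w 3 + w 1 * w 2 + w 1 * w 3 + w 2 * w 3)
      ring
    · change -(l * w 0 + l * w 1 + l * w 2 + l * w 3) = l * -(w 0 + w 1 + w 2 + w 3)
      ring
  · intro p x
    unfold rsv
    change (l ^ 2 * x) ^ 3 - l ^ 2 * p 2 * (l ^ 2 * x) ^ 2 +
      (l * p 3 * (l ^ 3 * p 1) - 4 * (l ^ 4 * p 0)) * (l ^ 2 * x) -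
      ((l * p 3) ^ 2 * (l ^ 4 * p 0) - 4 * (l ^ 2 * p 2) * (l ^ 4 * p 0) + (l ^ 3 * p 1) ^ 2) = _
    ring
  · intro L _ f p D H lo hi h
    refine ⟨?_, ?_, ?_, ?_, ?_⟩
    · exact (map_ne_zero f).2 h.p0
    · intro τ m h2 h3
      obtain ⟨c3, c2, c1, c0⟩ := h.rel τ m h2 h3
      refine ⟨?_, ?_, ?_, ?_⟩
      · have := congrArg f c3
        simpa only [map_add, map_mul, map_one] using this
      · have := congrArg f c2
        simpa only [map_add, map_mul, map_neg] using this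
      · have := congrArg f c1
        simpa only [map_add, map_mul] using this
      · have := congrArg f c0
        simpa only [map_mul] using this
    · intro τ m h2 h3
      exact (map_ne_zero f).2 (h.eta τ m h2 h3)
    · intro τ m h2 h3
      have h4 : pv (fun i => f (p i)) (f (D τ m 0)) = f (pv p (D τ m 0)) := by
        unfold pv
        simp only [map_add, map_mul, map_pow]
      change pv (fun i => f (p i)) (f (D τ m 0)) ≠ 0
      rw [h4]
      exact (map_ne_zero f).2 (h.ps τ m h2 h3)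
    · intro τ m h2 h3 h4
      exact h.nd τ m h2 h3 (f.injective h4)

end Pool.Agent.MP62a5ad.QN
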