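import Pool.Agent.Lib.MP_62a5ad_mp.QN.SpecE

/-!
# MP_62a5ad_mp, QN/Sy: the system of the abstract theorem
-/

set_option autoImplicit false

namespace Pool.Agent.MP62a5ad.QN

open Matrix
open scoped ContDiff
open Pool.Agent.MP62a5ad.PN (V4 M4 e0)

/-- The integrals are polynomials. -/
private theorem Sy_poly (h3 : S_Nm) (n : ℕ) [NeZero n] (j : ℕ) :
    ∃ p : MvPolynomial (Ix n) ℂ, ∀ θ : Ix n → ℂ, MvPolynomial.eval θ p = fi θ j := by
  by_cases h1 : j < n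
  · refine ⟨∏ k : Fin n, (MvPolynomial.C (j : ℂ) - MvPolynomial.X (k, 2)), fun θ => ?_⟩
    unfold fi
    rw [if_pos h1, map_prod]
    refine Finset.prod_congr rfl fun k _ => ?_
    rw [map_sub, MvPolynomial.eval_C, MvPolynomial.eval_X]
  · by_cases h2 : j = n
    · refine ⟨∏ k : Fin n, MvPolynomial.X (k, 1), fun θ => ?_⟩
      unfold fi
      rw [if_neg h1, if_pos h2, map_prod]
      exact Finset.prod_congr rfl fun k _ => MvPolynomial.eval_X _
    · by_cases h4 : j = n + 1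
      · refine ⟨∑ k : Fin n, MvPolynomial.X (k, 0), fun θ => ?_⟩
        unfold fi
        rw [if_neg h1, if_neg h2, if_pos h4, map_sum]
        exact Finset.sum_congr rfl fun k _ => MvPolynomial.eval_X _
      · refine ⟨Hx (fun i => MvPolynomial.X i) (MvPolynomial.C ((j - (n + 2) : ℕ) : ℂ)),
          fun θ => ?_⟩
        unfold fi
        rw [if_neg h1, if_neg h2, if_neg h4]
        have h := (((h3 (MvPolynomial (Ix n) ℂ) n (fun i => MvPolynomial.X i)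
          (MvPolynomial.C ((j - (n + 2) : ℕ) : ℂ))).2.2.2.2.2.2.2) ℂ (MvPolynomial.eval θ)).2
        rw [h]
        simp only [MvPolynomial.eval_X, MvPolynomial.eval_C]

private theorem Sy_evalSmooth (n : ℕ) (p : MvPolynomial (Ix n) ℂ) :
    ContDiff ℝ ∞ fun θ : Ix n → ℂ => MvPolynomial.eval θ p := by
  have h : AnalyticOnNhd ℂ (fun θ : Ix n → ℂ => MvPolynomial.eval θ p) Set.univ :=
    AnalyticOnNhd.eval_mvPolynomial p
  exact (h.contDiff).restrict_scalars ℝ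

/-- The integrals are invariant. -/
private theorem Sy_inv (h4 : S_Bh) (n : ℕ) [NeZero n] (θ : Ix n → ℂ) (s : ℤ)
    (hθ : ∀ k : Fin n, θ (k, 1) ≠ 0 ∧ θ (k + 1, 0) + θ (k, 1) - θ (k + 1, 1) ≠ θ (k, 2)) (j : ℕ) :
    fi (shC s (Bx θ)) j = fi θ j := by
  obtain ⟨hB, -⟩ := h4 ℂ n θ
  obtain ⟨b1, b2, b3, b4⟩ := hB hθ
  obtain ⟨c1, c2, c3, c4⟩ := (h4 ℂ n (Bx θ)).2 s
  unfold fi
  split_ifs
  · rw [c4]
    exact Finset.prod_congr rfl fun k _ => by rw [b4]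
  · rw [c2, b2]
  · rw [c3, b3]
  · rw [c1, b1]

private theorem Sy_diag (n : ℕ) (Θ : E n → Ix n → ℂ) (y : E n) :
    Jf Θ y = Matrix.diagonal (lf (Θ y)) * cJ Θ y := by
  ext i j
  rw [Matrix.diagonal_mul]
  rfl

private theorem Sy_chain (h1 : S_Ch) (n : ℕ) (Θ : E n → Ix n → ℂ) (f : E n → E n) (y : E n)
    (hΘ : ∀ i, DifferentiableAt ℝ (fun x => Θ x i) (f y)) (hf : DifferentiableAt ℝ f y) :
    Jf (fun x => Θ (f x)) y = Jf Θ (f y) * rc (Jm f y) := by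
  ext i j
  have h := (h1 (Ix n)).2.2.1 (fun x => Θ x i) f y j (hΘ i) hf
  have h' : fderiv ℝ (fun x => Θ (f x) i) y (Pi.single j 1) =
      ∑ k, cpd (fun x => Θ x i) k (f y) * ((Jm f y k j : ℝ) : ℂ) := h
  rw [Matrix.mul_apply]
  unfold Jf
  simp only [Matrix.of_apply]
  rw [h', Finset.mul_sum]
  refine Finset.sum_congr rfl fun k _ => ?_
  unfold cpd rc
  rw [Matrix.map_apply]
  ring

private theorem Sy_germ (n : ℕ) (Θ Θ' : E n → Ix n → ℂ) (y : E n)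
    (h : Θ =ᶠ[nhds y] Θ') : Jf Θ y = Jf Θ' y := by
  ext i j
  unfold Jf
  simp only [Matrix.of_apply]
  have h0 : Θ y = Θ' y := h.eq_of_nhds
  have h2 : (fun x => Θ x i) =ᶠ[nhds y] fun x => Θ' x i := by
    filter_upwards [h] with x hx
    rw [hx]
  rw [h0, h2.fderiv_eq]

private theorem Sy_detrc (n : ℕ) (A : Matrix (Ix n) (Ix n) ℝ) : (rc A).det = ((A.det : ℝ) : ℂ) := by
  unfold rc
  exact (RingHom.map_det Complex.ofRealHom A).symm

theorem sSy (h1 : S_Ch) (h2 : S_Pol) (h3 : S_Nm) (h4 : S_Bh) (h5 : S_P0) (h6 : S_Gd) (h7 : S_Iv)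
    (h8 : S_Li) (h9 : S_dB) (h10 : S_Ts) (h11 : S_Ty) (h12 : S_Ri) (h13 : S_Jc) (h14 : S_Fc)
    (h15 : S_Fy) : S_Sy := by
  intro n _ e r r' c i m U hn he hr0 hrne hrr hRg
  obtain ⟨D, hD0, hD⟩ := h8 n
  obtain ⟨p1, p2, p3, p4⟩ := h5 n
  set Θ := TH n e r m with hΘ
  set f := ff n e r r' i with hf
  have hUo := hRg.isOpen
  -- the chain is smooth on `U`
  have hA : ∀ y ∈ U, ContDiffAt ℝ ∞ Θ y ∧ ∀ k, Θ y (k, 1) ≠ 0 := fun y hy =>
    h10 n e r r' i y m (hRg.gd y hy) (hRg.sm y hy) (hRg.rt y hy).1 (hRg.rt y hy).2 (hRg.c1 y hy)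
  have hcc : ∀ y ∈ U, cc n (f y) = cc n y := fun y hy =>
    (h15 n e r r' c i hrr y (hRg.gd y hy)).1
  have hB : ∀ y ∈ U, ContDiffAt ℝ ∞ Θ (f y) ∧ ∀ k, Θ (f y) (k, 1) ≠ 0 := fun y hy =>
    h10 n e r r' i (f y) m (hRg.gf y hy) (by rw [hcc y hy]; exact hRg.sm y hy)
      (by rw [hcc y hy]; exact (hRg.rt y hy).1) (by rw [hcc y hy]; exact (hRg.rt y hy).2)
      (by rw [hcc y hy]; exact hRg.c1 y hy)
  have hTy : ∀ y ∈ U, Θ (f y) = shC (r' * i) (Bx (Θ y)) ∧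
      ∀ k : Fin n, Θ y (k + 1, 0) + Θ y (k, 1) - Θ y (k + 1, 1) ≠ Θ y (k, 2) := fun y hy =>
    h11 n e r r' c i hrr y m (hRg.gd y hy) (hRg.rt y hy).1 (hRg.rt y hy).2 (hRg.c1 y hy)
  have hsm : ContDiffOn ℝ ∞ Θ U := fun y hy => (hA y hy).1.contDiffWithinAt
  have hdi : ∀ y ∈ U, ∀ i, DifferentiableAt ℝ (fun x => Θ x i) y := fun y hy i =>
    (differentiableAt_pi.mp ((hA y hy).1.differentiableAt (by simp))) i
  have hdi' : ∀ y ∈ U, ∀ i, DifferentiableAt ℝ (fun x => Θ x i) (f y) := fun y hy i =>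
    (differentiableAt_pi.mp ((hB y hy).1.differentiableAt (by simp))) i
  have hdf : ∀ y ∈ U, DifferentiableAt ℝ f y := fun y hy =>
    (hRg.gd y hy).sf.differentiableAt (by simp)
  obtain ⟨hJs, hJc⟩ := h14 n Θ U hUo hsm fun y hy => (hA y hy).2
  -- the sets
  have hdetc : ContinuousOn (fun y => (Jf Θ y).det) U := by
    have h : ContinuousOn (fun y => Jf Θ y) U :=
      continuousOn_pi.mpr fun a => continuousOn_pi.mpr fun b => (hJs a b).continuousOn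
    exact (continuous_id.matrix_det).comp_continuousOn h
  have hU1o : IsOpen {y | y ∈ U ∧ (Jf Θ y).det ≠ 0} := by
    have := hdetc.isOpen_inter_preimage hUo (isOpen_compl_singleton (x := (0 : ℂ)))
    exact this
  have hevc : ContinuousOn (fun y => MvPolynomial.eval (Θ y) D) U :=
    ((MvPolynomial.continuous_eval D).comp_continuousOn hsm.continuousOn)
  have hU2o : IsOpen {y | y ∈ U ∧ MvPolynomial.eval (Θ y) D ≠ 0} := by
    have := hevc.isOpen_inter_preimage hUo (isOpen_compl_singleton (x := (0 : ℂ)))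
    exact this
  set U' : Set (E n) := {y | y ∈ U ∧ (Jf Θ y).det ≠ 0 ∧ MvPolynomial.eval (Θ y) D ≠ 0} with hU'
  have hsub : U' ⊆ U := fun y hy => hy.1
  have hU'o : IsOpen U' := by
    have : U' = {y | y ∈ U ∧ (Jf Θ y).det ≠ 0} ∩ {y | y ∈ U ∧ MvPolynomial.eval (Θ y) D ≠ 0} := by
      ext y
      constructor
      · rintro ⟨a, b, c⟩
        exact ⟨⟨a, b⟩, ⟨a, c⟩⟩
      · rintro ⟨⟨a, b⟩, ⟨-, c⟩⟩
        exact ⟨a, b, c⟩
    rw [this]
    exact hU1o.inter hU2o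
  have hU'd : Dense U' := by
    rw [dense_iff_inter_open]
    intro O hO hOne
    have ha : (O ∩ U).Nonempty := hRg.dense.inter_open_nonempty O hO hOne
    obtain ⟨y1, hy1, hy2⟩ := h13 n e r r' c i m U he hr0 hrne hrr hRg O hO ha
    have hb : (O ∩ {y | y ∈ U ∧ (Jf Θ y).det ≠ 0}).Nonempty := ⟨y1, hy1.1, hy1.2, hy2⟩
    obtain ⟨y, hy, hy'⟩ := h2 (Ix n) {y | y ∈ U ∧ (Jf Θ y).det ≠ 0} Θ D hU1o
      (hsm.mono fun y hy => hy.1) (fun y hy h0 => hy.2 (by
        rw [Sy_diag, Matrix.det_mul, h0, mul_zero])) hD0 O hO hb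
    exact ⟨y, hy.1, hy.2.1, hy.2.2, hy'⟩
  -- the differential of the map
  have hK : ∀ y ∈ U, ∃ K : Matrix (Ix n) (Ix n) ℂ, K * rc (P0 n) * Kᵀ = rc (P0 n) ∧
      Jf Θ (f y) * rc (Jm f y) = K * Jf Θ y ∧ K.det ≠ 0 := by
    intro y hy
    obtain ⟨K, k1, k2, k3⟩ := h9 n Θ y (r' * i) (hdi y hy) (hA y hy).2 (hTy y hy).2
    refine ⟨K, k2, ?_, k3⟩
    rw [← k1, ← Sy_chain h1 n Θ f y (hdi' y hy) (hdf y hy)]
    refine Sy_germ n _ _ y ?_
    filter_upwards [hUo.mem_nhds hy] with x hx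
    exact (hTy x hx).1
  -- the integrals
  have hfi : ∀ j : ℕ, ContDiffOn ℝ ∞ (fun y => fi (Θ y) j) U := by
    intro j
    obtain ⟨p, hp⟩ := Sy_poly h3 n j
    have : (fun y => fi (Θ y) j) = fun y => MvPolynomial.eval (Θ y) p := by
      funext y
      rw [hp]
    rw [this]
    exact (Sy_evalSmooth n p).comp_contDiffOn hsm
  have hFs : ∀ j : ℕ, ContDiffOn ℝ ∞ (fun y => (fi (Θ y) j).re) U := fun j =>
    Complex.reCLM.contDiff.comp_contDiffOn (hfi j)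
  have him : ∀ y ∈ U, ∀ j : ℕ, (fi (Θ y) j).im = 0 := fun y hy j =>
    h12 n e r r' i y m hn (hRg.gd y hy) (hRg.rt y hy).1 (hRg.rt y hy).2 (hRg.c1 y hy) j
  refine ⟨U', hsub, fun j y => (fi (Θ y) (j : ℕ)).re,
    fun y => Matrix.of fun j l => fr (Θ y) (j : ℕ) l, ?_⟩
  refine
    { card := ?_
      isOpen := hU'o
      dense := hU'd
      smf := fun y hy => (hRg.gd y hy.1).sf.contDiffWithinAt
      detf := ?_
      smJ := fun a b => (hJs a b).mono hsub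
      clo := fun y hy k a b => hJc y hy.1 k a b
      detJ := fun y hy => hy.2.1
      skP := ?_
      skT := ?_
      ptp := p3
      rank := p4
      smF := fun j => (hFs j).mono hsub
      dF := ?_
      ind := ?_
      cas := ?_
      inv := ?_
      invF := ?_
      sym := ?_ }
  · rw [Fintype.card_prod, Fintype.card_fin, Fintype.card_fin]
    omega
  · intro y hy h0
    obtain ⟨K, -, k2, k3⟩ := hK y hy.1
    have := congrArg Matrix.det k2
    rw [Matrix.det_mul, Matrix.det_mul, Sy_detrc, h0, Complex.ofReal_zero, mul_zero] at this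
    exact mul_ne_zero k3 hy.2.1 this.symm
  · ext a b
    rw [Matrix.transpose_apply, Matrix.neg_apply, p1]
  · ext a b
    rw [Matrix.transpose_apply, Matrix.neg_apply, p2]
  · intro y hy
    ext j k
    have hd := h6 n Θ y (j : ℕ) (hdi y hy.1) (hA y hy.1).2
    have e1 := (h1 (Ix n)).2.2.2.2.1 (fun y => (fi (Θ y) (j : ℕ)).re) y k
      (((hFs (j : ℕ)).contDiffAt (hUo.mem_nhds hy.1)).differentiableAt (by simp))
    have e2 : (fun x => (((fi (Θ x) (j : ℕ)).re : ℝ) : ℂ)) =ᶠ[nhds y] fun x => fi (Θ x) (j : ℕ) := by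
      filter_upwards [hUo.mem_nhds hy.1] with x hx
      exact Complex.ext (by simp) (by simp [him x hx])
    have e3 : cpd (fun x => (((fi (Θ x) (j : ℕ)).re : ℝ) : ℂ)) k y =
        cpd (fun x => fi (Θ x) (j : ℕ)) k y := by
      unfold cpd
      rw [e2.fderiv_eq]
    have e4 : rc (gZ (fun (j : Fin (n + 2 + (n - 1))) y => (fi (Θ y) (j : ℕ)).re) y) j k =
        ((pd (fun y => (fi (Θ y) (j : ℕ)).re) k y : ℝ) : ℂ) := rfl
    rw [e4, ← e1, e3, Matrix.mul_apply]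
    unfold cpd
    rw [hd.2]
    rfl
  · intro y hy
    exact hD (Θ y) hy.2.2
  · intro y hy
    ext a k
    rw [Matrix.mul_apply, Matrix.zero_apply]
    have h := (h7 n (Θ y) (a : ℕ) 0).1 a.2 k
    have h' : ∀ l, (Matrix.of (fst (n + 2) (n - 1) (Matrix.of fun (j : Fin (n + 2 + (n - 1))) l =>
        fr (Θ y) (j : ℕ) l))) a l * rc (P0 n) l k = -(((P0 n k l : ℝ) : ℂ) * fr (Θ y) (a : ℕ) l) := by
      intro l
      have e1 : (Matrix.of (fst (n + 2) (n - 1) (Matrix.of fun (j : Fin (n + 2 + (n - 1))) l =>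
        fr (Θ y) (j : ℕ) l))) a l = fr (Θ y) (a : ℕ) l := rfl
      have e2 : rc (P0 n) l k = ((P0 n l k : ℝ) : ℂ) := rfl
      rw [e1, e2, p1 k l]
      push_cast
      ring
    rw [Finset.sum_congr rfl fun l _ => h' l, Finset.sum_neg_distrib, h, neg_zero]
  · intro y hy
    ext a b
    rw [Matrix.zero_apply, Matrix.mul_apply]
    have h := (h7 n (Θ y) (a : ℕ) (b : ℕ)).2
    rw [Finset.sum_comm] at h
    rw [← h]
    refine Finset.sum_congr rfl fun l _ => ?_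
    rw [Matrix.mul_apply, Finset.sum_mul]
    rfl
  · intro y hy _ j
    have := Sy_inv h4 n (Θ y) (r' * i) (fun k => ⟨(hA y hy.1).2 k, (hTy y hy.1).2 k⟩) (j : ℕ)
    show (fi (Θ (f y)) (j : ℕ)).re = (fi (Θ y) (j : ℕ)).re
    rw [(hTy y hy.1).1, this]
  · intro y hy _
    obtain ⟨K, k1, k2, -⟩ := hK y hy.1
    exact ⟨K, k1, k2⟩

end Pool.Agent.MP62a5ad.QN
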