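import Pool.Agent.Lib.MP_62a5ad_mp.QN.SpecA

/-!
# MP_62a5ad_mp, project QN: `T` is `B` in the coordinates of the chain (`S_TB`)
-/

set_option autoImplicit false

namespace Pool.Agent.MP62a5ad.QN

open Matrix

/-- Restriction of the interval. -/
theorem TB_mono {K : Type} [Field K] {p : Fin 4 → K} {D : ℤ → ℤ → Fin 3 → K} {H : ℤ → ℤ → K}
    {lo hi lo' hi' : ℤ} (h : Ok p D H lo hi) (h1 : lo ≤ lo') (h2 : hi' ≤ hi) :
    Ok p D H lo' hi' where
  p0 := h.p0
  rel := fun τ m a b => h.rel τ m (by omega) (by omega)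
  eta := fun τ m a b => h.eta τ m (by omega) (by omega)
  ps := fun τ m a b => h.ps τ m (by omega) (by omega)
  nd := fun τ m a b => h.nd τ m (by omega) (by omega)

/-- The algebra of a site. -/
theorem TB_alg {K : Type} [Field K] {a b a' b' a'' η η1 κ κ' γ γ' γ2 ρ ρ' J0 J0' J1 J2 V : K}
    (ha : a ≠ 0) (hb : b ≠ 0) (ha' : a' ≠ 0) (ha'' : a'' ≠ 0) (hη : η ≠ 0)
    (hκ : κ ≠ 0) (hJ1 : J1 ≠ 0) (hγ2 : γ2 ≠ 0)
    (hE1 : γ * J0 + ρ * a = κ * a') (hE2 : γ' * J0' + ρ' * b = κ' * b')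
    (hA : η * (J0 * J1) = V * b * a') (hB : η1 * (J1 * J2) = V * b' * a'') :
    γ * J0 / a * (γ' * J0' / b + ρ') / (γ * J0 / a + ρ) =
      (γ * κ' * η1 / (κ * η * γ2)) * (γ2 * J2 / a'') := by
  have e1 : γ * J0 / a + ρ = κ * a' / a := by
    rw [eq_div_iff ha, ← hE1]
    field_simp
  have e2 : γ' * J0' / b + ρ' = κ' * b' / b := by
    rw [eq_div_iff hb, ← hE2]
    field_simp
  have e3 : η * J0 * b' * a'' = η1 * J2 * b * a' := by
    apply mul_left_cancel₀ hJ1
    linear_combination (b' * a'') * hA - (b * a') * hB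
  rw [e1, e2]
  have e4 : γ * J0 / a * (κ' * b' / b) / (κ * a' / a) = γ * κ' / κ * (J0 * b' / (b * a')) := by
    field_simp
  have e5 : (γ * κ' * η1 / (κ * η * γ2)) * (γ2 * J2 / a'') =
      γ * κ' / κ * (η1 * J2 / (η * a'')) := by
    field_simp
  rw [e4, e5]
  congr 1
  rw [div_eq_div_iff (mul_ne_zero hb ha') (mul_ne_zero hη ha'')]
  linear_combination e3

theorem sTB (_h1 : S_Rel) (h2 : S_Jx) (h3 : S_Nz) (h4 : S_Wv) (h5 : S_Ev) (h6 : S_Uq)
    (h7 : S_Bk) : S_TB := by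
  intro K _ w D H τ hw hinj hOk hne
  have hOk1 : Ok (pw w) D H (τ - 1) (τ + 1) := TB_mono hOk le_rfl (by omega)
  have hOk0 : Ok (pw w) D H (τ - 1) τ := TB_mono hOk le_rfl (by omega)
  have hOk2 : Ok (pw w) D H (τ + 2 - 1) (τ + 2) := TB_mono hOk (by omega) le_rfl
  obtain ⟨N1, N2⟩ := h3 K w D H (τ - 1) (τ + 2) hw hOk
  have hcst1 : ∀ m, cst w D (τ + 1) m = cst w D τ m := fun m =>
    (N2 τ m (by omega) (by omega)).2.2.2.1
  have hcst2 : ∀ m, cst w D (τ + 2) m = cst w D τ m := by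
    intro m
    have h := (N2 (τ + 1) m (by omega) (by omega)).2.2.2.1
    rw [show τ + 1 + 1 = τ + 2 from by ring] at h
    rw [h, hcst1]
  choose κ hκ0 hκ using h5 K w D H τ hw hOk1
  have hx : ∀ σ m i, τ - 1 ≤ σ → σ ≤ τ + 2 → w i - D σ m 0 ≠ 0 := fun σ m i a b =>
    sub_ne_zero.2 (N1 σ m a b i)
  -- the factor
  obtain ⟨g, hg⟩ : ∃ g : ℤ → K, g = fun m => gam w D τ m * κ (m + 1) * H (τ + 1) m /
    (κ m * H τ m * gam w D (τ + 2) m) := ⟨_, rfl⟩
  have hgam : ∀ m, gam w D τ m ≠ 0 := by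
    intro m
    obtain ⟨-, -, -, -, -, -, -, -, -, -, -, -, -, -, h, -⟩ :=
      N2 (τ - 1) m (by omega) (by omega)
    rwa [sub_add_cancel] at h
  have hgam2 : ∀ m, gam w D (τ + 2) m ≠ 0 := by
    intro m
    obtain ⟨-, -, -, -, -, -, -, -, -, -, -, -, -, -, h, -⟩ :=
      N2 (τ + 1) m (by omega) (by omega)
    rwa [show τ + 1 + 1 = τ + 2 from by ring] at h
  have hg0 : ∀ m, g m ≠ 0 := by
    intro m
    rw [hg]
    exact div_ne_zero (mul_ne_zero (mul_ne_zero (hgam m) (hκ0 (m + 1)))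
      (hOk.eta (τ + 1) m (by omega) (by omega)))
      (mul_ne_zero (mul_ne_zero (hκ0 m) (hOk.eta τ m (by omega) (by omega))) (hgam2 m))
  have hS : ∀ m i, Rw w D τ m (w i) + rho w D H τ m ≠ 0 := by
    intro m i
    have h0 := hx τ m i (by omega) (by omega)
    have h1 := hx (τ + 1) m i (by omega) (by omega)
    have h2 := hκ m (w i)
    have h3 : Rw w D τ m (w i) + rho w D H τ m =
        κ m * (w i - D (τ + 1) m 0) / (w i - D τ m 0) := by
      rw [eq_div_iff h0, ← h2]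
      unfold Rw
      field_simp
    rw [h3]
    exact div_ne_zero (mul_ne_zero (hκ0 m) h1) h0
  have hR : ∀ m i, i ≠ 0 → Rw w D τ m (w i) *
      (Rw w D τ (m + 1) (w i) + rho w D H τ (m + 1)) / (Rw w D τ m (w i) + rho w D H τ m) =
      g m * Rw w D (τ + 2) m (w i) := by
    intro m i hi
    have r1 := hOk.rel τ m (by omega) (by omega)
    have r2 := hOk.rel (τ + 1) m (by omega) (by omega)
    rw [show τ + 1 + 1 = τ + 2 from by ring] at r2
    obtain ⟨-, -, -, -, j1, -⟩ := h2 K w _ _ _ _ hw (hOk.eta τ m (by omega) (by omega)) r1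
    obtain ⟨-, -, -, -, j2, -⟩ := h2 K w _ _ _ _ hw (hOk.eta (τ + 1) m (by omega) (by omega)) r2
    have c1 : D τ m 2 + D (τ + 1) m 2 = cst w D τ m := ((N2 τ m (by omega) (by omega)).2.2.2.2.1).symm
    have c2 : D (τ + 1) m 2 + D (τ + 2) m 2 = cst w D τ m := by
      have h := (N2 (τ + 1) m (by omega) (by omega)).2.2.2.2.1
      rw [show τ + 1 + 1 = τ + 2 from by ring] at h
      rw [← h, hcst1]
    have hJ1 : jv w (D (τ + 1) m) (w i) ≠ 0 := by
      obtain ⟨-, -, -, -, -, -, -, -, -, -, -, -, -, -, -, -, -, h⟩ :=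
        N2 τ m (by omega) (by omega)
      exact (h i hi (hne m i hi)).2.1
    have k1 := j1 i hi
    have k2 := j2 i hi
    rw [c1] at k1
    rw [c2] at k2
    rw [hg]
    unfold Rw
    exact TB_alg (hx τ m i (by omega) (by omega)) (hx τ (m + 1) i (by omega) (by omega))
      (hx (τ + 1) m i (by omega) (by omega)) (hx (τ + 2) m i (by omega) (by omega))
      (hOk.eta τ m (by omega) (by omega)) (hκ0 m) hJ1 (hgam2 m) (hκ m (w i)) (hκ (m + 1) (w i))
      k1 k2
  -- the recurrence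
  have hrec : ∀ i, i ≠ 0 → ∀ m, Rw w D τ m (w i) * Rw w D τ (m - 1) (w i) =
      (chi w (w i) - alp w D H τ m - rho w D H τ (m - 1)) * Rw w D τ (m - 1) (w i) +
        rho w D H τ (m - 1) * (chi w (w i) - cst w D τ (m - 1)) := by
    intro i hi m
    rw [h4 K w D H τ hw hOk0 m i hi]
    unfold alp
    ring
  have hBk := fun i (hi : i ≠ 0) => h7 K (chi w (w i)) (fun m => Rw w D τ m (w i))
    (fun m => alp w D H τ m) (fun m => rho w D H τ m) (fun m => cst w D τ m) (hrec i hi)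
    (fun m => hS m i)
  obtain ⟨A, hA⟩ : ∃ A : ℤ → K, A = fun k => alp w D H τ (k + 1) + rho w D H τ k -
    rho w D H τ (k + 1) := ⟨_, rfl⟩
  have hAc : ∀ m, A m ≠ cst w D τ m := by
    intro m hAm
    have key : ∀ i, i ≠ 0 → (chi w (w i) - cst w D τ m) * (w i - D (τ + 2) m 0) =
        g m * gam w D (τ + 2) m * (jA w (D (τ + 2) m) * w i + jB w (D (τ + 2) m)) := by
      intro i hi
      have h := (hBk i hi).1 m
      have hAm' : alp w D H τ (m + 1) + rho w D H τ m - rho w D H τ (m + 1) = cst w D τ m := by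
        rw [← hAm, hA]
      rw [hAm', sub_self, mul_zero, add_zero] at h
      have h2 := hR m i hi
      rw [h, mul_div_assoc, div_self (hS m i), mul_one] at h2
      rw [h2]
      unfold Rw jv
      have h0 := hx (τ + 2) m i (by omega) (by omega)
      field_simp
    have E1 := key 1 (by decide)
    have E2 := key 2 (by decide)
    have E3 := key 3 (by decide)
    have hv : (w 0 - D (τ + 2) m 0) * ((w 1 - w 2) * (w 2 - w 3) * (w 3 - w 1)) = 0 := by
      unfold chi e1 e2 at E1 E2 E3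
      linear_combination -(w 2 - w 3) * E1 - (w 3 - w 1) * E2 - (w 1 - w 2) * E3
    have hd : ∀ i j : Fin 4, i ≠ j → w i - w j ≠ 0 := fun i j hij =>
      sub_ne_zero.2 fun h => hij (hinj h)
    exact mul_ne_zero (hx (τ + 2) m 0 (by omega) (by omega))
      (mul_ne_zero (mul_ne_zero (hd 1 2 (by decide)) (hd 2 3 (by decide)))
        (hd 3 1 (by decide))) hv
  have hAc' : ∀ m, alp w D H τ (m + 1) + rho w D H τ m - rho w D H τ (m + 1) ≠ cst w D τ m := by
    intro m
    have := hAc m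
    rwa [hA] at this
  have hUq : ∀ m, g m = 1 ∧
      A m + rho w D H τ (m - 1 + 1) * (A (m - 1 + 1) - cst w D τ (m - 1 + 1)) /
        (A (m - 1) - cst w D τ (m - 1)) = alr w D (τ + 2) m ∧
      rho w D H τ (m - 1 + 1) * (A (m - 1 + 1) - cst w D τ (m - 1 + 1)) /
        (A (m - 1) - cst w D τ (m - 1)) = g (m - 1) * rho w D H (τ + 2) (m - 1) := by
    intro m
    refine h6 K w D H (τ + 2) m hw hinj hOk2 (fun i hi => by rw [hcst2]; exact hne (m - 1) i hi)
      (fun i => Rw w D (τ + 2) m (w i)) (g m) (g (m - 1)) (alr w D (τ + 2) m) _ _ _ (hg0 (m - 1))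
      (fun i hi => h4 K w D H (τ + 2) hw hOk2 m i hi) ?_
    intro i hi
    have h := (hBk i hi).2 hAc' m
    simp only at h
    rw [hR m i hi, hR (m - 1) i hi] at h
    rw [hcst2, h, hA]
    ring
  intro m
  have hg1 : ∀ m, g m = 1 := fun m => (hUq m).1
  have ha := (hUq m).2.1
  have hb := (hUq m).2.2
  have hc := (hUq (m + 1)).2.2
  rw [hg1, one_mul] at hb
  rw [hg1, one_mul, add_sub_cancel_right] at hc
  rw [hb] at ha
  have h1 : A m ≠ cst w D τ m := hAc m
  have h2 : alp w D H (τ + 2) m = A m := by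
    unfold alp
    rw [← ha]
    ring
  rw [hA] at h1 h2 hc
  exact ⟨h1, h2, hcst2 m, hc.symm⟩

end Pool.Agent.MP62a5ad.QN
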