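import Pool.Agent.Lib.MP_62a5ad_mp.QN.SpecE
import Pool.Agent.Lib.MP_62a5ad_mp.QN.SmA

/-!
# MP_62a5ad_mp, QN, module Ts: smoothness of the chain
-/

set_option autoImplicit false

namespace Pool.Agent.MP62a5ad.QN

open Matrix
open scoped ContDiff
open Pool.Agent.MP62a5ad.PN (V4 M4 e0)

namespace TsAux

private theorem ok_mono {K : Type} [Field K] {p : Fin 4 → K} {D : ℤ → ℤ → Fin 3 → K}
    {H : ℤ → ℤ → K} {lo hi lo' hi' : ℤ} (h : Ok p D H lo hi) (h1 : lo ≤ lo') (h2 : hi' ≤ hi) :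
    Ok p D H lo' hi' where
  p0 := h.p0
  rel := fun τ m h3 h4 => h.rel τ m (h1.trans h3) (h4.trans_le h2)
  eta := fun τ m h3 h4 => h.eta τ m (h1.trans h3) (h4.trans_le h2)
  ps := fun τ m h3 h4 => h.ps τ m (h1.trans h3) (h4.trans h2)
  nd := fun τ m h3 h4 => h.nd τ m (h1.trans h3) (h4.trans_le h2)

private theorem cre {n : ℕ} {f : E n → ℝ} {y : E n} (h : ContDiffAt ℝ ∞ f y) :
    ContDiffAt ℝ ∞ (fun y => ((f y : ℝ) : ℂ)) y :=
  (Complex.ofRealCLM.contDiff.contDiffAt (x := f y)).comp y h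

private theorem ccc (n : ℕ) [NeZero n] : ContDiff ℝ ∞ (cc n) := by
  unfold cc
  rw [contDiff_pi]
  intro i
  exact contDiff_apply ℝ ℝ _

private theorem clo {n : ℕ} [NeZero n] {y : E n} (h : cc n y 2 ≠ 0) :
    ContDiffAt ℝ ∞ (fun y => lo n y) y := by
  unfold lo
  have h1 : ContDiffAt ℝ ∞ (fun y => cc n y 2) y := by
    unfold cc
    exact (contDiff_apply ℝ ℝ _).contDiffAt
  refine ContDiffAt.rpow_const_of_ne ?_ (abs_ne_zero.2 h)
  exact (contDiffAt_abs h).comp y h1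

end TsAux

open TsAux in
theorem sTs (h1 : S_Dn) (h2 : S_Nz) : S_Ts := by
  intro n _ e r r' i y m hG hm hinj hcp hc
  have hd := h1 n e r r' i y (fun j => m j (cc n y)) hG hinj hcp hc
  simp only at hd
  obtain ⟨hlo, hm0, hw0, hwi, -, -, hok, -⟩ := hd
  have hok' := ok_mono hok (show (-2 : ℤ) ≤ -1 by norm_num) (show (0 : ℤ) ≤ 2 by norm_num)
  have hclo : ContDiffAt ℝ ∞ (fun y => lo n y) y := clo hG.c2
  have hcw : ∀ j, ContDiffAt ℝ ∞ (fun y => mn n m y j ^ e) y := by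
    intro j
    unfold mn
    exact ((cre hclo).mul ((hm j).comp y (ccc n).contDiffAt)).pow e
  have hdat : ∀ τ, (τ = 0 ∨ τ = -1) → ∀ k j, ContDiffAt ℝ ∞ (fun y => dat n e r y τ k j) y := by
    intro τ hτ k j
    rcases hτ with rfl | rfl
    · exact contDiffAt_pi.1 (hG.sd k).1 j
    · exact contDiffAt_pi.1 (hG.sd k).2 j
  have hcD : ∀ τ, (τ = 0 ∨ τ = -1) → ∀ k j,
      ContDiffAt ℝ ∞ (fun y => ((Dn n e r y τ k j : ℝ) : ℂ)) y := by
    intro τ hτ k j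
    refine cre ?_
    unfold Dn sz
    fin_cases j
    · exact (hclo.pow e).mul (hdat τ hτ k 0)
    · exact (hclo.pow e).mul (hdat τ hτ k 1)
    · exact ((hclo.pow e).pow 2).mul (hdat τ hτ k 2)
  have hcH : ∀ k, ContDiffAt ℝ ∞ (fun y => ((Hn n e r y (-1) k : ℝ) : ℂ)) y := by
    intro k
    refine cre ?_
    unfold Hn leta
    have h3 := hG.ok.eta (-1) k (by norm_num) (by norm_num)
    unfold leta at h3
    have h4 : dat n e r y (-1) k 1 + dat n e r y (-1 + 1) k 1 - pc n e r y 3 ≠ 0 :=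
      fun h => h3 (by rw [h, _root_.inv_zero])
    have h5 : ContDiffAt ℝ ∞ (fun y => dat n e r y (-1) k 1 + dat n e r y (-1 + 1) k 1 -
        pc n e r y 3) y :=
      ((hdat (-1) (Or.inr rfl) k 1).add (hdat (-1 + 1) (Or.inl rfl) k 1)).sub
        (contDiffAt_pi.1 hG.sp 3)
    exact ((hclo.pow e).inv (pow_ne_zero _ hlo)).mul (h5.inv h4)
  constructor
  · rw [contDiffAt_pi]
    intro a
    exact SmA.smx h2 (fun y j => mn n m y j ^ e) (fun y a b c => ((Dn n e r y a b c : ℝ) : ℂ))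
      (fun y a b => ((Hn n e r y a b : ℝ) : ℂ)) hcw hcD hcH hw0 hok' a
  · intro k
    have h3 := (h2 ℂ _ _ _ (-1) 0 hw0 hok').2 (-1) ((k : ℕ) : ℤ) le_rfl (by norm_num)
    exact h3.2.2.2.2.2.2.2.2.2.2.2.2.2.2.2.2.1

end Pool.Agent.MP62a5ad.QN
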