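import Pool.Agent.Lib.MP_62a5ad_mp.QN.SpecE

/-!
# MP_62a5ad_mp, project QN, module Ty: the map in the coordinates of the chain
-/

set_option autoImplicit false

namespace Pool.Agent.MP62a5ad.QN

open Matrix
open scoped ContDiff
open Pool.Agent.MP62a5ad.PN (V4 M4 e0)

private theorem Ty_rs (n : ℕ) [NeZero n] (k : ℤ) : (((rs n k : Fin n) : ℕ) : ℤ) = k % (n : ℤ) := by
  have hn : (0 : ℤ) < n := by
    have := Nat.pos_of_ne_zero (NeZero.ne n)
    exact_mod_cast this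
  have h0 := Int.emod_nonneg k hn.ne'
  have h1 := Int.emod_lt_of_pos k hn
  simp only [rs, Fin.ofNat, Fin.val_mk]
  rw [Nat.mod_eq_of_lt (by omega)]
  omega

private theorem Ty_per {α : Type} (n : ℕ) [NeZero n] (f : ℤ → α) (hf : ∀ k, f (k + n) = f k) (k : ℤ) :
    f (((rs n k : Fin n) : ℕ) : ℤ) = f k := by
  rw [Ty_rs]
  have h : Function.Periodic f (n : ℤ) := hf
  have h2 := h.sub_int_mul_eq (x := k) (k / (n : ℤ))
  have h3 : k - ((k / (n : ℤ) : ℤ) : ℤ) * (n : ℤ) = k % (n : ℤ) := by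
    have := Int.emod_add_mul_ediv k (n : ℤ)
    linarith
  simp only [Int.cast_id] at h2
  rw [h3] at h2
  exact h2

private theorem Ty_rs1 (n : ℕ) [NeZero n] (k : Fin n) : rs n ((k : ℕ) : ℤ) = k := by
  apply Fin.ext
  have h := Ty_rs n ((k : ℕ) : ℤ)
  rw [Int.emod_eq_of_lt (by positivity) (by exact_mod_cast k.2)] at h
  exact_mod_cast h

section

variable {K : Type} [Field K] (w : Fin 4 → K) (D : ℤ → ℤ → Fin 3 → K) (H : ℤ → ℤ → K)

private theorem Ty_gam (D' : ℤ → ℤ → Fin 3 → K) (s τ : ℤ) (h0 : ∀ k, D' 0 k = D τ (k + s))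
    (h1 : ∀ k, D' (-1) k = D (τ - 1) (k + s)) (k : ℤ) : gam w D' 0 k = gam w D τ (k + s) := by
  simp only [gam, zero_sub, h0, h1]

private theorem Ty_dlt (D' : ℤ → ℤ → Fin 3 → K) (s τ : ℤ) (h0 : ∀ k, D' 0 k = D τ (k + s))
    (h1 : ∀ k, D' (-1) k = D (τ - 1) (k + s)) (k : ℤ) : dlt w D' 0 k = dlt w D τ (k + s) := by
  have e : k - 1 + s = k + s - 1 := by ring
  simp only [dlt, zero_sub, h0, h1, e]

private theorem Ty_rho (D' : ℤ → ℤ → Fin 3 → K) (H' : ℤ → ℤ → K) (s τ : ℤ)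
    (h0 : ∀ k, D' 0 k = D τ (k + s)) (h1 : ∀ k, D' (-1) k = D (τ - 1) (k + s))
    (h2 : ∀ k, H' (-1) k = H (τ - 1) (k + s)) (k : ℤ) :
    rho w D' H' 0 k = rho w D H τ (k + s) := by
  have e : k + 1 + s = k + s + 1 := by ring
  simp only [rho, Ty_gam w D D' s τ h0 h1, Ty_dlt w D D' s τ h0 h1, zero_sub, h2, e]

private theorem Ty_alp (D' : ℤ → ℤ → Fin 3 → K) (H' : ℤ → ℤ → K) (s τ : ℤ)
    (h0 : ∀ k, D' 0 k = D τ (k + s)) (h1 : ∀ k, D' (-1) k = D (τ - 1) (k + s))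
    (h2 : ∀ k, H' (-1) k = H (τ - 1) (k + s)) (k : ℤ) :
    alp w D' H' 0 k = alp w D H τ (k + s) := by
  have e : k - 1 + s = k + s - 1 := by ring
  simp only [alp, alr, Ty_gam w D D' s τ h0 h1, Ty_dlt w D D' s τ h0 h1,
    Ty_rho w D H D' H' s τ h0 h1 h2, zero_sub, h0, h1, e]

private theorem Ty_cst (D' : ℤ → ℤ → Fin 3 → K) (s τ : ℤ)
    (h0 : ∀ k, D' 0 k = D τ (k + s)) (k : ℤ) : cst w D' 0 k = cst w D τ (k + s) := by
  simp only [cst, h0]

private theorem Ty_core (hT : S_TB) (n : ℕ) [NeZero n] (hw : ∀ i, w i ≠ 0)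
    (hi : Function.Injective w) (hok : Ok (pw w) D H (-1) 2)
    (hc : ∀ m i, i ≠ 0 → chi w (w i) ≠ cst w D 0 m)
    (pD : ∀ σ k, D σ (k + n) = D σ k) (pH : ∀ σ k, H σ (k + n) = H σ k)
    (D' : ℤ → ℤ → Fin 3 → K) (H' : ℤ → ℤ → K) (s : ℤ) (h0 : ∀ k, D' 0 k = D 2 (k + s))
    (h1 : ∀ k, D' (-1) k = D 1 (k + s)) (h2 : ∀ k, H' (-1) k = H 1 (k + s)) (hN : S_Nm) :
    thx n w D' H' 0 = shC s (Bx (thx n w D H 0)) ∧
    ∀ k : Fin n, thx n w D H 0 (k + 1, 0) + thx n w D H 0 (k, 1) - thx n w D H 0 (k + 1, 1) ≠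
      thx n w D H 0 (k, 2) := by
  have hTB := hT K w D H 0 hw hi (by simpa using hok) hc
  have sh0 : ∀ k : ℤ, (k + n : ℤ) + (0 : ℤ) = k + n := fun k => by ring
  have pa : ∀ k, alp w D H 0 (k + n) = alp w D H 0 k := by
    intro k
    have := Ty_alp w D H D H n 0 (fun k => (pD 0 k).symm) (fun k => (pD (-1) k).symm)
      (fun k => (pH (-1) k).symm) k
    exact this.symm
  have pr : ∀ k, rho w D H 0 (k + n) = rho w D H 0 k := by
    intro k
    have := Ty_rho w D H D H n 0 (fun k => (pD 0 k).symm) (fun k => (pD (-1) k).symm)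
      (fun k => (pH (-1) k).symm) k
    exact this.symm
  have pc : ∀ k, cst w D 0 (k + n) = cst w D 0 k := by
    intro k
    have := Ty_cst w D D n 0 (fun k => (pD 0 k).symm) k
    exact this.symm
  have ta : ∀ k : ℤ, thx n w D H 0 (rs n k, 0) = alp w D H 0 k := by
    intro k
    simp only [thx, if_true]
    exact Ty_per n _ pa k
  have tr : ∀ k : ℤ, thx n w D H 0 (rs n k, 1) = rho w D H 0 k := by
    intro k
    have : (1 : Fin 3) ≠ 0 := by decide
    simp only [thx, if_neg this, if_true]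
    exact Ty_per n _ pr k
  have tc : ∀ k : ℤ, thx n w D H 0 (rs n k, 2) = cst w D 0 k := by
    intro k
    have h20 : (2 : Fin 3) ≠ 0 := by decide
    have h21 : (2 : Fin 3) ≠ 1 := by decide
    simp only [thx, if_neg h20, if_neg h21]
    exact Ty_per n _ pc k
  have r1 : ∀ k : ℤ, rs n k + 1 = rs n (k + 1) := fun k =>
    ((hN ℤ n (fun _ => 0) 0).2.1 k 0).2.2.symm
  have hA : ∀ k : ℤ, thx n w D H 0 (rs n k + 1, 0) + thx n w D H 0 (rs n k, 1) -
      thx n w D H 0 (rs n k + 1, 1) = alp w D H 0 (k + 1) + rho w D H 0 k - rho w D H 0 (k + 1) := by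
    intro k
    rw [r1, ta, tr, tr]
  refine ⟨?_, ?_⟩
  · funext a
    obtain ⟨a, c⟩ := a
    have hb := hTB ((a : ℕ) + s : ℤ)
    simp only at hb
    obtain ⟨hb1, hb2, hb3, hb4⟩ := hb
    simp only [zero_add] at hb2 hb3 hb4
    show thx n w D' H' 0 (a, c) = Bx (thx n w D H 0) (rs n ((a : ℕ) + s), c)
    by_cases hc0 : c = 0
    · subst hc0
      simp only [Bx, if_true]
      rw [hA]
      simp only [thx, if_true]
      rw [Ty_alp w D H D' H' s 2 h0 h1 h2, hb2]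
    · by_cases hc1 : c = 1
      · subst hc1
        simp only [Bx, if_neg hc0, if_true]
        rw [hA]
        rw [r1 ((a : ℕ) + s), hA, tr, tc, tc]
        simp only [thx, if_neg hc0, if_true]
        rw [Ty_rho w D H D' H' s 2 h0 h1 h2, hb4]
      · have hc2 : c = 2 := by
          fin_cases c <;> simp_all
        subst hc2
        simp only [Bx, if_neg hc0, if_neg hc1]
        rw [tc]
        simp only [thx, if_neg hc0, if_neg hc1]
        rw [Ty_cst w D D' s 2 h0, hb3]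
  · intro k
    have hb := (hTB ((k : ℕ) : ℤ)).1
    have h := hA ((k : ℕ) : ℤ)
    have h' := tc ((k : ℕ) : ℤ)
    rw [Ty_rs1] at h h'
    rw [h, h']
    exact hb

end

theorem sTy (h1 : S_Fy) (h2 : S_Dn) (h3 : S_TB) (h4 : S_Nm) : S_Ty := by
  intro n _ e r r' c i hr y m hg hinj hrt hc12
  obtain ⟨f1, f2, f3⟩ := h1 n e r r' c i hr y hg
  have hD := h2 n e r r' i y (fun j => m j (cc n y)) hg hinj hrt hc12
  simp only at hD
  obtain ⟨d1, d2, d3, d4, d5, d6, d7, d8, d9, d10, d11, -⟩ := hD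
  have hlo : lo n (ff n e r r' i y) = lo n y := by simp only [lo, f1]
  have hmn : mn n m (ff n e r r' i y) = mn n m y := by
    funext j
    simp only [mn, f1, hlo]
  have hDn0 : ∀ k, Dn n e r (ff n e r r' i y) 0 k = Dn n e r y 2 (k + r' * i) := by
    intro k
    simp only [Dn, hlo, (f3 k).1]
  have hDn1 : ∀ k, Dn n e r (ff n e r r' i y) (-1) k = Dn n e r y 1 (k + r' * i) := by
    intro k
    simp only [Dn, hlo, (f3 k).2]
  have hHn1 : ∀ k, Hn n e r (ff n e r r' i y) (-1) k = Hn n e r y 1 (k + r' * i) := by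
    intro k
    have e1 : (-1 : ℤ) + 1 = 0 := by norm_num
    have e2 : (1 : ℤ) + 1 = 2 := by norm_num
    simp only [Hn, hlo, leta, f2, e1, e2, (f3 k).2, (f3 k).1]
  have hok : Ok (pw fun j => ((lo n y : ℂ) * m j (cc n y)) ^ e)
      (fun a b c => (Dn n e r y a b c : ℂ)) (fun a b => (Hn n e r y a b : ℂ)) (-1) 2 :=
    ⟨d7.p0, fun τ k ha hb => d7.rel τ k (by omega) hb, fun τ k ha hb => d7.eta τ k (by omega) hb,
      fun τ k ha hb => d7.ps τ k (by omega) hb, fun τ k ha hb => d7.nd τ k (by omega) hb⟩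
  have key := Ty_core (fun j => ((lo n y : ℂ) * m j (cc n y)) ^ e)
    (fun a b c => (Dn n e r y a b c : ℂ)) (fun a b => (Hn n e r y a b : ℂ)) h3 n d3 d4 hok
    (fun k a ha => d8 0 (by norm_num) (by norm_num) k a ha)
    (fun σ k => by funext a; simp only [d10])
    (fun σ k => by simp only [d11])
    (fun a b c => (Dn n e r (ff n e r r' i y) a b c : ℂ))
    (fun a b => (Hn n e r (ff n e r r' i y) a b : ℂ)) (r' * i)
    (fun k => by funext a; simp only [hDn0])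
    (fun k => by funext a; simp only [hDn1])
    (fun k => by simp only [hHn1]) h4
  have t1 : TH n e r m y = thx n (fun j => ((lo n y : ℂ) * m j (cc n y)) ^ e)
      (fun a b c => (Dn n e r y a b c : ℂ)) (fun a b => (Hn n e r y a b : ℂ)) 0 := rfl
  have t2 : TH n e r m (ff n e r r' i y) = thx n (fun j => ((lo n y : ℂ) * m j (cc n y)) ^ e)
      (fun a b c => (Dn n e r (ff n e r r' i y) a b c : ℂ))
      (fun a b => (Hn n e r (ff n e r r' i y) a b : ℂ)) 0 := by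
    have e1 : TH n e r m (ff n e r r' i y) = thx n (fun j => mn n m (ff n e r r' i y) j ^ e)
      (fun a b c => (Dn n e r (ff n e r r' i y) a b c : ℂ))
      (fun a b => (Hn n e r (ff n e r r' i y) a b : ℂ)) 0 := rfl
    rw [e1, hmn]
    rfl
  rw [t1, t2]
  exact key

end Pool.Agent.MP62a5ad.QN
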