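import Pool.Agent.Lib.MP_62a5ad_mp.QN.SpecA

/-!
# MP_62a5ad_mp, project QN: uniqueness of the recurrence (`S_Uq`)
-/

set_option autoImplicit false

namespace Pool.Agent.MP62a5ad.QN

theorem Uq_quad {K : Type} [Field K] (A B C x y z : K) (hxy : x ≠ y) (hxz : x ≠ z) (hyz : y ≠ z)
    (h1 : A * x ^ 2 + B * x + C = 0) (h2 : A * y ^ 2 + B * y + C = 0)
    (h3 : A * z ^ 2 + B * z + C = 0) : A = 0 ∧ B = 0 ∧ C = 0 := by
  have e1 : A * (x + y) + B = 0 := by
    have h : (x - y) * (A * (x + y) + B) = 0 := by linear_combination h1 - h2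
    exact (mul_eq_zero.1 h).resolve_left (sub_ne_zero.2 hxy)
  have e2 : A * (x + z) + B = 0 := by
    have h : (x - z) * (A * (x + z) + B) = 0 := by linear_combination h1 - h3
    exact (mul_eq_zero.1 h).resolve_left (sub_ne_zero.2 hxz)
  have hA : A = 0 := by
    have h : (y - z) * A = 0 := by linear_combination e1 - e2
    exact (mul_eq_zero.1 h).resolve_left (sub_ne_zero.2 hyz)
  subst hA
  have hB : B = 0 := by linear_combination e1
  subst hB
  exact ⟨rfl, rfl, by linear_combination h1⟩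

theorem sUq (h1 : S_Rel) (h2 : S_Jx) (h3 : S_Nz) : S_Uq := by
  intro K _ w D H τ m hw hinj hO hchi X g g' a a' ρ₁ ρ₂ hg' E1 E2
  have _ := h1
  obtain ⟨N1, N2⟩ := h3 K w D H (τ - 1) τ hw hO
  have r := hO.rel (τ - 1) (m - 1) le_rfl (by omega)
  have hη := hO.eta (τ - 1) (m - 1) le_rfl (by omega)
  obtain ⟨-, -, -, hcst, hcst2, -, -, -, -, -, hJ, -, -, -, hγ, -, -, hN⟩ :=
    N2 (τ - 1) (m - 1) le_rfl (by omega)
  have hs : w 0 ≠ D (τ - 1) m 0 := N1 (τ - 1) m le_rfl (by omega) 0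
  rw [sub_add_cancel] at hcst hcst2 hγ hJ r
  rw [sub_add_cancel] at r
  simp only [sub_add_cancel] at hN
  obtain ⟨-, -, -, -, J5, -⟩ := h2 K w (D (τ - 1) m 0) (H (τ - 1) (m - 1)) (D (τ - 1) (m - 1))
    (D τ (m - 1)) hw hη r
  -- the values at the roots
  have hP : ∀ i, i ≠ 0 →
      (g' * (1 - g) * gam w D τ (m - 1) * w 0 * chi w (w i) -
        g' * (a' - g * a) * gam w D τ (m - 1) * w 0) * (w i - D (τ - 1) m 0) +
        (ρ₂ - g * g' * ρ₁) * H (τ - 1) (m - 1) * jv w (D (τ - 1) (m - 1)) (w i) = 0 := by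
    intro i hi
    have hci : chi w (w i) ≠ cst w D (τ - 1) (m - 1) := by
      rw [← hcst]
      exact hchi i hi
    obtain ⟨-, hJi, -⟩ := hN i hi hci
    have hd : w i - D τ (m - 1) 0 ≠ 0 := sub_ne_zero.2 (N1 τ (m - 1) (by omega) le_rfl i)
    have hR : Rw w D τ (m - 1) (w i) * (w i - D τ (m - 1) 0) =
        gam w D τ (m - 1) * jv w (D τ (m - 1)) (w i) := by
      unfold Rw
      rw [div_mul_cancel₀ _ hd]
    have e1 := E1 i hi
    have e2 := E2 i hi
    have j5 := J5 i hi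
    rw [← hcst2, ← hcst] at j5
    refine mul_left_cancel₀ hJi ?_
    rw [mul_zero]
    linear_combination (-(w 0 * (w i - D (τ - 1) m 0) * (w i - D τ (m - 1) 0))) * e2 +
      g * g' * w 0 * (w i - D (τ - 1) m 0) * (w i - D τ (m - 1) 0) * e1 +
      (-(g' * (1 - g) * chi w (w i) - g' * (a' - g * a)) * w 0 * (w i - D (τ - 1) m 0)) * hR +
      (ρ₂ - g * g' * ρ₁) * j5
  obtain ⟨K₁, hK₁⟩ : ∃ K₁ : K, K₁ = g' * (1 - g) * gam w D τ (m - 1) * w 0 := ⟨_, rfl⟩
  obtain ⟨K₀, hK₀⟩ : ∃ K₀ : K, K₀ = g' * (a' - g * a) * gam w D τ (m - 1) * w 0 := ⟨_, rfl⟩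
  obtain ⟨K₂, hK₂⟩ : ∃ K₂ : K, K₂ = (ρ₂ - g * g' * ρ₁) * H (τ - 1) (m - 1) := ⟨_, rfl⟩
  rw [← hK₁, ← hK₀, ← hK₂] at hP
  have hw12 : w 1 ≠ w 2 := fun h => by simpa using hinj h
  have hw13 : w 1 ≠ w 3 := fun h => by simpa using hinj h
  have hw23 : w 2 ≠ w 3 := fun h => by simpa using hinj h
  have p1 := hP 1 (by decide)
  have p2 := hP 2 (by decide)
  have p3 := hP 3 (by decide)
  obtain ⟨qA, qB, qC⟩ := Uq_quad (K₁ * (w 0 - D (τ - 1) m 0))
    (-K₀ + K₁ * e2 w - D (τ - 1) m 0 * K₁ * (w 0 - e1 w) + K₂ * jA w (D (τ - 1) (m - 1)) -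
      K₁ * e2 w)
    (-(D (τ - 1) m 0 * (K₁ * e2 w - K₀)) + K₂ * jB w (D (τ - 1) (m - 1)) + K₁ * e3 w)
    (w 1) (w 2) (w 3) hw12 hw13 hw23
    (by
      unfold chi jv at p1
      unfold e1 e2 at *
      unfold e3
      linear_combination p1)
    (by
      unfold chi jv at p2
      unfold e1 e2 at *
      unfold e3
      linear_combination p2)
    (by
      unfold chi jv at p3
      unfold e1 e2 at *
      unfold e3
      linear_combination p3)
  have k1 : K₁ = 0 := (mul_eq_zero.1 qA).resolve_right (sub_ne_zero.2 hs)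
  rw [k1] at qB qC
  have k2 : K₂ = 0 := by
    have h : K₂ * jv w (D (τ - 1) (m - 1)) (D (τ - 1) m 0) = 0 := by
      unfold jv
      linear_combination D (τ - 1) m 0 * qB + qC
    exact (mul_eq_zero.1 h).resolve_right hJ
  rw [k2] at qB
  have k0 : K₀ = 0 := by linear_combination -qB
  have hg : g = 1 := by
    rw [hK₁] at k1
    have h := (mul_eq_zero.1 ((mul_eq_zero.1 ((mul_eq_zero.1 k1).resolve_right
      (hw 0))).resolve_right hγ)).resolve_left hg'
    linear_combination -h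
  have hz : a' - g * a = 0 := by
    rw [hK₀] at k0
    exact (mul_eq_zero.1 ((mul_eq_zero.1 ((mul_eq_zero.1 k0).resolve_right
      (hw 0))).resolve_right hγ)).resolve_left hg'
  have hz2 : ρ₂ - g * g' * ρ₁ = 0 := by
    rw [hK₂] at k2
    exact (mul_eq_zero.1 k2).resolve_right hη
  rw [hg] at hz hz2
  exact ⟨hg, by linear_combination hz, by linear_combination hz2⟩

end Pool.Agent.MP62a5ad.QN
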