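import Pool.Agent.Lib.MP_62a5ad_mp.QN.SpecA

/-!
# MP_62a5ad_mp, project QN: the recurrence
-/

set_option autoImplicit false

namespace Pool.Agent.MP62a5ad.QN

open Matrix

namespace WvAux

variable {K : Type} [Field K]

private theorem pv_pw (w : Fin 4 → K) (x : K) :
    pv (pw w) x = (x - w 0) * (x - w 1) * (x - w 2) * (x - w 3) := by
  have h0 : pw w 0 = w 0 * w 1 * w 2 * w 3 := rfl
  have h1 : pw w 1 =
      -(w 0 * w 1 * w 2 + w 0 * w 1 * w 3 + w 0 * w 2 * w 3 + w 1 * w 2 * w 3) := rfl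
  have h2 : pw w 2 =
      w 0 * w 1 + w 0 * w 2 + w 0 * w 3 + w 1 * w 2 + w 1 * w 3 + w 2 * w 3 := rfl
  have h3 : pw w 3 = -(w 0 + w 1 + w 2 + w 3) := rfl
  unfold pv
  rw [h0, h1, h2, h3]
  ring

end WvAux

open WvAux in
theorem sWv (h1 : S_Rel) (h2 : S_Jx) (h3 : S_Nz) : S_Wv := by
  intro K _ w D H τ hw ok m i hi
  obtain ⟨A, B⟩ := h3 K w D H (τ - 1) τ hw ok
  have et : τ - 1 + 1 = τ := by ring
  have em : m - 1 + 1 = m := by ring
  have a1 : ∀ i, w i ≠ D τ m 0 := A τ m (by omega) le_rfl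
  have a2 : ∀ i, w i ≠ D (τ - 1) m 0 := A (τ - 1) m le_rfl (by omega)
  have a3 : ∀ i, w i ≠ D τ (m - 1) 0 := A τ (m - 1) (by omega) le_rfl
  have R := ok.rel (τ - 1) m le_rfl (by omega)
  have R₁ := ok.rel (τ - 1) (m - 1) le_rfl (by omega)
  have hη := ok.eta (τ - 1) m le_rfl (by omega)
  have hη₁ := ok.eta (τ - 1) (m - 1) le_rfl (by omega)
  have hnd := ok.nd (τ - 1) m le_rfl (by omega)
  obtain ⟨-, -, -, -, -, q1, -⟩ := B (τ - 1) m le_rfl (by omega)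
  obtain ⟨-, -, -, c0, c1, q2, -⟩ := B (τ - 1) (m - 1) le_rfl (by omega)
  rw [et] at R R₁ hnd q1 c0 c1 q2
  rw [em] at R₁
  have R' := (h1 K (pw w)).2.2.1 _ _ _ _ R
  obtain ⟨-, J2', -⟩ := h2 K w _ _ _ _ hw hη R'
  have R4 := (h1 K (pw w)).2.2.2.1 _ _ _ _ R
  obtain ⟨-, J2, -, -, J5, -⟩ := h2 K w _ _ _ _ hw hη₁ R₁
  have R4₁ := (h1 K (pw w)).2.2.2.1 _ _ _ _ R₁
  -- the values at `s`
  have v1 := J2' (D τ m 0)
  rw [sub_self, mul_zero, zero_mul, sub_zero] at v1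
  have v1' := mul_left_cancel₀ hη v1
  have e0 : ∀ x, qv ![D (τ - 1) (m + 1) 0, D (τ - 1) m 1, D (τ - 1) m 2] x =
    qv (D (τ - 1) m) x := fun x => rfl
  rw [e0] at v1'
  have v2 := R4 (D τ m 0)
  rw [sub_self, mul_zero, zero_add] at v2
  have v2' := mul_left_cancel₀ hη v2
  rw [pv_pw] at v2'
  have v3 := J2 (D (τ - 1) m 0)
  rw [sub_self, mul_zero, zero_mul, sub_zero] at v3
  have v3' := mul_left_cancel₀ hη₁ v3
  have v4 := R4₁ (D (τ - 1) m 0)
  rw [sub_self, mul_zero, zero_mul, zero_add] at v4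
  have v4' := mul_left_cancel₀ hη₁ v4
  rw [pv_pw] at v4'
  have v5 := J5 i hi
  have hg : gam w D τ m * (qv (D (τ - 1) m) (w 0) * (D (τ - 1) m 0 - D τ m 0)) =
      (w 0 - D (τ - 1) m 0) * qv (D (τ - 1) m) (D τ m 0) := by
    unfold gam
    exact div_mul_cancel₀ _ (mul_ne_zero (q1 0).1 (sub_ne_zero.2 hnd))
  have hd : dlt w D τ m * (qv (D τ (m - 1)) (w 0) * (D (τ - 1) m 0 - D τ m 0)) =
      (w 0 - D τ m 0) * qv (D τ (m - 1)) (D (τ - 1) m 0) := by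
    unfold dlt
    exact div_mul_cancel₀ _ (mul_ne_zero (q2 0).2 (sub_ne_zero.2 hnd))
  have hq1 := (q1 0).1
  have hq2 := (q2 0).2
  have hw0s : D τ m 0 - w 0 ≠ 0 := sub_ne_zero.2 (a1 0).symm
  have hw0t : D (τ - 1) m 0 - w 0 ≠ 0 := sub_ne_zero.2 (a2 0).symm
  have F1 : gam w D τ m * jv w (D τ m) (D τ m 0) * (D τ m 0 - D (τ - 1) m 0) =
      -(w 0 - D (τ - 1) m 0) * ((D τ m 0 - w 1) * (D τ m 0 - w 2) * (D τ m 0 - w 3)) := by
    apply mul_left_cancel₀ (mul_ne_zero hq1 hw0s)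
    linear_combination (-(jv w (D τ m) (D τ m 0) * (D τ m 0 - w 0))) * hg -
      (w 0 - D (τ - 1) m 0) * qv (D (τ - 1) m) (D τ m 0) * v1' -
      (w 0 - D (τ - 1) m 0) * qv (D (τ - 1) m) (w 0) * v2'
  have F2 : dlt w D τ m * jv w (D (τ - 1) (m - 1)) (D (τ - 1) m 0) *
        (D (τ - 1) m 0 - D τ m 0) =
      (w 0 - D τ m 0) * ((D (τ - 1) m 0 - w 1) * (D (τ - 1) m 0 - w 2) *
        (D (τ - 1) m 0 - w 3)) := by
    apply mul_left_cancel₀ (mul_ne_zero hq2 hw0t)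
    linear_combination (jv w (D (τ - 1) (m - 1)) (D (τ - 1) m 0) * (D (τ - 1) m 0 - w 0)) * hd +
      (w 0 - D τ m 0) * qv (D τ (m - 1)) (D (τ - 1) m 0) * v3' +
      (w 0 - D τ m 0) * qv (D τ (m - 1)) (w 0) * v4'
  have hst : D τ m 0 - D (τ - 1) m 0 ≠ 0 := sub_ne_zero.2 hnd.symm
  have G : ∀ x, (chi w x - alr w D τ m) * (x - D τ m 0) * (x - D (τ - 1) m 0) -
      gam w D τ m * jv w (D τ m) x * (x - D (τ - 1) m 0) +
      dlt w D τ m * jv w (D (τ - 1) (m - 1)) x * (x - D τ m 0) =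
      (x - (D τ m 0 + D (τ - 1) m 0 - w 0)) * ((x - w 1) * (x - w 2) * (x - w 3)) := by
    intro x
    apply mul_left_cancel₀ hst
    unfold alr
    unfold jv at F1 F2 ⊢
    unfold chi e1 e2
    linear_combination (-(x - D (τ - 1) m 0)) * F1 - (x - D τ m 0) * F2
  have G1 : (chi w (w i) - alr w D τ m) * (w i - D τ m 0) * (w i - D (τ - 1) m 0) -
      gam w D τ m * jv w (D τ m) (w i) * (w i - D (τ - 1) m 0) +
      dlt w D τ m * jv w (D (τ - 1) (m - 1)) (w i) * (w i - D τ m 0) = 0 := by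
    rw [G]
    have : (w i - w 1) * (w i - w 2) * (w i - w 3) = 0 := by
      fin_cases i
      · exact absurd rfl hi
      · simp
      · simp
      · simp
    rw [this, mul_zero]
  have cc : cst w D τ (m - 1) = D (τ - 1) (m - 1) 2 + D τ (m - 1) 2 := c0.trans c1
  rw [← cc] at v5
  have x1 : w i - D τ m 0 ≠ 0 := sub_ne_zero.2 (a1 i)
  have x2 : w i - D (τ - 1) m 0 ≠ 0 := sub_ne_zero.2 (a2 i)
  have x3 : w i - D τ (m - 1) 0 ≠ 0 := sub_ne_zero.2 (a3 i)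
  unfold rho Rw
  rw [em]
  generalize chi w (w i) = ch at *
  generalize alr w D τ m = al at *
  generalize cst w D τ (m - 1) = cs at *
  generalize gam w D τ m = g at *
  generalize gam w D τ (m - 1) = g' at *
  generalize dlt w D τ m = d at *
  generalize jv w (D τ m) (w i) = j at *
  generalize jv w (D τ (m - 1)) (w i) = j' at *
  generalize jv w (D (τ - 1) (m - 1)) (w i) = j'' at *
  generalize H (τ - 1) (m - 1) = et' at *
  field_simp
  apply mul_left_cancel₀ x2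
  linear_combination (-(g' * j' * et')) * G1 + (g' * d * (w i - D τ m 0)) * v5

end Pool.Agent.MP62a5ad.QN
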