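import Pool.Agent.Lib.MP_62a5ad_mp.QN.SpecD

/-!
# MP_62a5ad_mp, QN, module Xi: the polygon in the eigenvectors
-/

set_option autoImplicit false

namespace Pool.Agent.MP62a5ad.QN

open Matrix
open scoped ContDiff
open Pool.Agent.MP62a5ad.PN (V4 M4 e0)

private theorem xi_add (m : ℂ) (v w : V4) : xi m (v + w) = xi m v + xi m w := by
  simp only [xi, Pi.add_apply, Complex.ofReal_add, mul_add, Finset.sum_add_distrib]

private theorem xi_smul (m : ℂ) (c : ℝ) (v : V4) : xi m (c • v) = c * xi m v := by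
  simp only [xi, Pi.smul_apply, smul_eq_mul, Complex.ofReal_mul, Finset.mul_sum]
  exact Finset.sum_congr rfl fun j _ => by ring

private theorem xi_neg (m : ℂ) (v : V4) : xi m (-v) = -xi m v := by
  simp only [xi, Pi.neg_apply, Complex.ofReal_neg, mul_neg, Finset.sum_neg_distrib]

private theorem xi_e0 (m : ℂ) : xi m e0 = 1 := by
  simp [xi, e0, Fin.sum_univ_four]

private theorem xi_mono (c : Fin 3 → ℝ) (m : ℂ) (h : cpl c m = 0) (v : V4) :
    xi m (mono c *ᵥ v) = m * xi m v := by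
  have e1 : (mono c *ᵥ v) 0 = -c 2 * v 3 := by
    simp [mono, Matrix.mulVec, dotProduct, Fin.sum_univ_four]
  have e2 : (mono c *ᵥ v) 1 = v 0 + c 1 * v 3 := by
    simp [mono, Matrix.mulVec, dotProduct, Fin.sum_univ_four]
  have e3 : (mono c *ᵥ v) 2 = v 1 - c 0 * v 3 := by
    simp [mono, Matrix.mulVec, dotProduct, Fin.sum_univ_four]
    ring
  have e4 : (mono c *ᵥ v) 3 = v 2 + v 3 := by
    simp [mono, Matrix.mulVec, dotProduct, Fin.sum_univ_four]
  simp only [xi, Fin.sum_univ_four, e1, e2, e3, e4, Complex.ofReal_add, Complex.ofReal_sub,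
    Complex.ofReal_mul, Complex.ofReal_neg, Fin.val_zero, Fin.val_one, Fin.val_two]
  have h3 : ((3 : Fin 4) : ℕ) = 3 := rfl
  rw [h3]
  unfold cpl at h
  linear_combination -(v 3 : ℂ) * h

private theorem xi_zpow (M : M4) (hM : M.det ≠ 0) (m : ℂ) (hm : m ≠ 0)
    (h : ∀ v, xi m (M *ᵥ v) = m * xi m v) (k : ℤ) :
    ∀ v, xi m ((M ^ k) *ᵥ v) = m ^ k * xi m v := by
  have hu : IsUnit M.det := isUnit_iff_ne_zero.2 hM
  induction k using Int.induction_on with
  | zero =>
    intro v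
    rw [zpow_zero, zpow_zero, Matrix.one_mulVec, one_mul]
  | succ k ih =>
    intro v
    rw [add_comm, Matrix.zpow_one_add hu, ← Matrix.mulVec_mulVec, h, ih, zpow_add₀ hm, zpow_one]
    ring
  | pred k ih =>
    intro v
    have h1 := ih v
    have h2 : (-(k : ℤ)) = 1 + (-(k : ℤ) - 1) := by ring
    have h3 : M ^ (-(k : ℤ)) = M * M ^ (-(k : ℤ) - 1) := by
      conv_lhs => rw [h2]
      exact Matrix.zpow_one_add hu _
    rw [h3, ← Matrix.mulVec_mulVec, h] at h1
    have h4 : m ^ (-(k : ℤ)) = m * m ^ (-(k : ℤ) - 1) := by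
      conv_lhs => rw [h2, zpow_add₀ hm, zpow_one]
    rw [h4, mul_assoc] at h1
    exact mul_left_cancel₀ hm h1

private theorem Bm_mulVec (n : ℕ) [NeZero n] (e : ℕ) (r : ℤ) (y : E n) (k : ℤ) (v : V4) :
    Bm n e r y k *ᵥ v = v 0 • us n r y k + v 1 • (tm n e y *ᵥ us n r y k) +
      v 2 • (tm n e y ^ 2 *ᵥ us n r y k) + v 3 • (tm n e y ^ 3 *ᵥ us n r y k) := by
  funext i
  simp only [Bm, Matrix.mulVec, dotProduct, Matrix.of_apply, Pi.add_apply, Pi.smul_apply,
    smul_eq_mul]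
  rw [Fin.sum_univ_four]
  have h3 : ((3 : Fin 4) : ℕ) = 3 := rfl
  simp only [Fin.val_zero, Fin.val_one, Fin.val_two, h3, pow_zero, pow_one]
  have h4 : (∑ x, (1 : M4) i x * us n r y k x) = us n r y k i := by
    have := congrFun (Matrix.one_mulVec (us n r y k)) i
    simpa [Matrix.mulVec, dotProduct] using this
  rw [h4]
  ring

private theorem xi_Bm (n : ℕ) [NeZero n] (e : ℕ) (r : ℤ) (y : E n) (m μ : ℂ)
    (h : ∀ v, xi m (tm n e y *ᵥ v) = μ * xi m v) (k : ℤ) (v : V4) :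
    xi m (Bm n e r y k *ᵥ v) =
      ((v 0 : ℂ) + v 1 * μ + v 2 * μ ^ 2 + v 3 * μ ^ 3) * xi m (us n r y k) := by
  have h2 : ∀ w, xi m (tm n e y ^ 2 *ᵥ w) = μ ^ 2 * xi m w := by
    intro w
    rw [pow_two, ← Matrix.mulVec_mulVec, h, h]
    ring
  have h3 : ∀ w, xi m (tm n e y ^ 3 *ᵥ w) = μ ^ 3 * xi m w := by
    intro w
    rw [pow_succ, ← Matrix.mulVec_mulVec, h2, h]
    ring
  rw [Bm_mulVec, xi_add, xi_add, xi_add, xi_smul, xi_smul, xi_smul, xi_smul, h, h2, h3]
  ring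

theorem sXi (h1 : S_Per) : S_Xi := by
  intro n _ e r y m hc hm hB hb hk
  obtain ⟨hdet, -, hpol, hus, -, -, -, -, -⟩ := h1 n e r y hc
  have hm0 : m ≠ 0 := by
    intro h
    rw [h] at hm
    unfold cpl at hm
    apply hc
    have : ((cc n y 2 : ℝ) : ℂ) = 0 := by linear_combination hm
    exact_mod_cast this
  have hM : ∀ v, xi m (Mo n y *ᵥ v) = m * xi m v := fun v => xi_mono _ m hm v
  have hz := fun k => xi_zpow (Mo n y) hdet m hm0 hM k
  have ht : ∀ v, xi m (tm n e y *ᵥ v) = m ^ e * xi m v := by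
    intro v
    have := hz (e : ℤ) v
    rw [zpow_natCast, zpow_natCast] at this
    exact this
  have hus0 : us n r y 0 = e0 := by
    have h2 := hpol 0
    have h3 : (((0 : Fin n) : ℕ) : ℤ) = 0 := by simp
    rw [h3] at h2
    rw [us, mul_zero, h2, vert, if_pos rfl]
  have hpv : pv (fun j => (pc n e r y j : ℂ)) (m ^ e) = 0 := by
    have h2 : Bm n e r y 0 *ᵥ pc n e r y = -(tm n e y ^ 4 *ᵥ e0) := by
      rw [pc, Matrix.mulVec_neg, Matrix.mulVec_mulVec,
        Matrix.mul_nonsing_inv _ (isUnit_iff_ne_zero.2 (hB 0)), Matrix.one_mulVec]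
    have h3 := congrArg (xi m) h2
    have h4 : ∀ w, xi m (tm n e y ^ 4 *ᵥ w) = (m ^ e) ^ 4 * xi m w := by
      intro w
      have h5 : ∀ w, xi m (tm n e y ^ 2 *ᵥ w) = (m ^ e) ^ 2 * xi m w := by
        intro w
        rw [pow_two, ← Matrix.mulVec_mulVec, ht, ht]
        ring
      have h6 : tm n e y ^ 4 = tm n e y ^ 2 * tm n e y ^ 2 := by rw [← pow_add]
      rw [h6, ← Matrix.mulVec_mulVec, h5, h5]
      ring
    rw [xi_Bm n e r y m (m ^ e) ht, xi_neg, h4, hus0, xi_e0] at h3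
    unfold pv
    linear_combination h3
  have h5 : ∀ k : ℤ, (m ^ e - (dat n e r y 0 k 0 : ℂ)) * xi m (us n r y (k + 1)) =
      (kap n e r y k : ℂ) * qv (fun j => (dat n e r y 0 k j : ℂ)) (m ^ e) *
        xi m (us n r y k) := by
    intro k
    have h2 : us n r y (k + 1) = Bm n e r y k *ᵥ bv n e r y k := by
      rw [bv, Matrix.mulVec_mulVec, Matrix.mul_nonsing_inv _ (isUnit_iff_ne_zero.2 (hB k)),
        Matrix.one_mulVec]
    have hd0 : dat n e r y 0 k 0 = s0 n e r y k := rfl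
    have hd1 : dat n e r y 0 k 1 = (bv n e r y k 0 - s0 n e r y k * bv n e r y k 1 -
      pc n e r y 1 * bv n e r y k 3) / kap n e r y k := rfl
    have hd2 : dat n e r y 0 k 2 = (-s0 n e r y k * bv n e r y k 0 -
      pc n e r y 0 * bv n e r y k 3) / kap n e r y k := rfl
    have hka : kap n e r y k = bv n e r y k 1 - s0 n e r y k * bv n e r y k 2 -
      pc n e r y 2 * bv n e r y k 3 := rfl
    have r1 : kap n e r y k * dat n e r y 0 k 1 = bv n e r y k 0 -
        s0 n e r y k * bv n e r y k 1 - pc n e r y 1 * bv n e r y k 3 := by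
      rw [hd1, mul_div_cancel₀ _ (hk k)]
    have r2 : kap n e r y k * dat n e r y 0 k 2 = -s0 n e r y k * bv n e r y k 0 -
        pc n e r y 0 * bv n e r y k 3 := by
      rw [hd2, mul_div_cancel₀ _ (hk k)]
    have r3 : s0 n e r y k * bv n e r y k 3 = bv n e r y k 2 -
        pc n e r y 3 * bv n e r y k 3 := by
      rw [s0, sub_mul, div_mul_cancel₀ _ (hb k)]
    have c1 : (kap n e r y k : ℂ) * dat n e r y 0 k 1 = bv n e r y k 0 -
        s0 n e r y k * bv n e r y k 1 - pc n e r y 1 * bv n e r y k 3 := by exact_mod_cast r1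
    have c2 : (kap n e r y k : ℂ) * dat n e r y 0 k 2 = -s0 n e r y k * bv n e r y k 0 -
        pc n e r y 0 * bv n e r y k 3 := by exact_mod_cast r2
    have c3 : (s0 n e r y k : ℂ) * bv n e r y k 3 = bv n e r y k 2 -
        pc n e r y 3 * bv n e r y k 3 := by exact_mod_cast r3
    have c4 : (kap n e r y k : ℂ) = bv n e r y k 1 - s0 n e r y k * bv n e r y k 2 -
      pc n e r y 2 * bv n e r y k 3 := by exact_mod_cast hka
    rw [h2, xi_Bm n e r y m (m ^ e) ht, ← mul_assoc]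
    congr 1
    rw [hd0]
    unfold qv
    unfold pv at hpv
    linear_combination -(m ^ e) * c1 - c2 - (m ^ e) ^ 3 * c3 - (m ^ e) ^ 2 * c4 +
      (bv n e r y k 3 : ℂ) * hpv
  have h6 : ∀ N : ℕ, (∏ j ∈ Finset.range N, (m ^ e - (dat n e r y 0 j 0 : ℂ))) *
      xi m (us n r y N) = ∏ j ∈ Finset.range N,
        ((kap n e r y j : ℂ) * qv (fun i => (dat n e r y 0 j i : ℂ)) (m ^ e)) := by
    intro N
    induction N with
    | zero =>
      rw [Finset.prod_range_zero, Finset.prod_range_zero, one_mul, Nat.cast_zero, hus0, xi_e0]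
    | succ N ih =>
      rw [Finset.prod_range_succ, Finset.prod_range_succ, ← ih, Nat.cast_succ]
      linear_combination (∏ j ∈ Finset.range N, (m ^ e - (dat n e r y 0 j 0 : ℂ))) * h5 N
  refine ⟨hm0, hM, hz, ht, hpv, h5, h6, ?_⟩
  have h7 := h6 n
  have h8 := hus 0
  rw [zero_add] at h8
  rw [h8, hz, hus0, xi_e0, mul_one] at h7
  exact h7

end Pool.Agent.MP62a5ad.QN
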