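import Pool.Agent.Lib.MP_62a5ad_mp.QN.SpecC

/-!
# MP_62a5ad_mp, project QN, part C: the linear relations of `ys`
-/

set_option autoImplicit false

namespace Pool.Agent.MP62a5ad.QN

open Matrix
open Pool.Agent.MP62a5ad.PN (V4 M4 e0)

namespace YbAux

/-- Powers of `tm` on the twisted cubic. -/
theorem tm_gl (hz : ∀ (q : ℤ) (x : ℝ), (mono cs ^ q) *ᵥ gl x = (1 / 4 : ℝ) ^ q • gl (x + q))
    (e j : ℕ) (x : ℝ) : (mono cs ^ e) ^ j *ᵥ gl x =
      ((1 / 4 : ℝ) ^ e) ^ j • gl (x + (e : ℝ) * (j : ℝ)) := by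
  have h := hz ((e * j : ℕ) : ℤ) x
  rw [zpow_natCast, zpow_natCast, pow_mul, pow_mul] at h
  rw [h]
  push_cast
  rfl

theorem us_zero (n : ℕ) [NeZero n] (r : ℤ) (y : E n) : us n r y 0 = e0 := by
  have h : rs n 0 = 0 := by simp [rs]
  simp [us, pol, h, vert]

end YbAux

open YbAux in
theorem tYb (hGl : S_Gl) (hYp : S_Yp) : S_Yb := by
  intro n _ e r he
  obtain ⟨hM, h0, hz, hint, hdet, -⟩ := hGl
  obtain ⟨hcc, -, c, hc0, hpol⟩ := hYp n
  set g : ℝ := (1 / 4 : ℝ) ^ e with hg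
  have hg0 : g ≠ 0 := by positivity
  have he0 : (e : ℝ) ≠ 0 := by exact_mod_cast he.ne'
  have hn0 : (n : ℝ) ≠ 0 := by exact_mod_cast (NeZero.ne n)
  have htm : tm n e (ys n) = mono cs ^ e := by rw [tm, Mo, hcc]
  have hus : ∀ m : ℤ, us n r (ys n) m = c (r * m) • gl (((r * m : ℤ) : ℝ) / (n : ℝ)) :=
    fun m => hpol (r * m)
  have hB : ∀ (m : ℤ) (i j : Fin 4), Bm n e r (ys n) m i j =
      gl (((r * m : ℤ) : ℝ) / (n : ℝ) + (e : ℝ) * ((j : ℕ) : ℝ)) i *
        (c (r * m) * g ^ (j : ℕ)) := by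
    intro m i j
    rw [Bm, Matrix.of_apply, htm, hus m, Matrix.mulVec_smul, tm_gl hz]
    simp only [Pi.smul_apply, smul_eq_mul]
    ring
  have hBd : ∀ m : ℤ, (Bm n e r (ys n) m).det ≠ 0 := by
    intro m
    have h : Bm n e r (ys n) m =
        (Matrix.of fun i j : Fin 4 =>
          gl (((r * m : ℤ) : ℝ) / (n : ℝ) + (e : ℝ) * ((j : ℕ) : ℝ)) i) *
          Matrix.diagonal (fun j : Fin 4 => c (r * m) * g ^ (j : ℕ)) := by
      ext i j
      rw [Matrix.mul_diagonal, hB, Matrix.of_apply]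
    rw [h, Matrix.det_mul, hdet, Matrix.det_diagonal]
    refine mul_ne_zero (by positivity) (Finset.prod_ne_zero_iff.mpr fun j _ => ?_)
    exact mul_ne_zero (hc0 _) (pow_ne_zero _ hg0)
  have hsol : ∀ (m : ℤ) (b w : V4), Bm n e r (ys n) m *ᵥ b = w →
      (Bm n e r (ys n) m)⁻¹ *ᵥ w = b := by
    intro m b w h
    rw [← h, Matrix.mulVec_mulVec, Matrix.nonsing_inv_mul _ (hBd m).isUnit, Matrix.one_mulVec]
  refine ⟨hBd, ?_, fun m => c (r * (m + 1)) / c (r * m), fun m => div_ne_zero (hc0 _) (hc0 _), ?_⟩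
  · -- the characteristic polynomial
    have hB0 : ∀ i j : Fin 4, Bm n e r (ys n) 0 i j =
        gl ((e : ℝ) * ((j : ℕ) : ℝ)) i * g ^ (j : ℕ) := by
      intro i j
      rw [Bm, Matrix.of_apply, htm, us_zero, ← h0, tm_gl hz]
      simp only [Pi.smul_apply, smul_eq_mul, zero_add]
      ring
    have h4 : tm n e (ys n) ^ 4 *ᵥ e0 = g ^ 4 • gl ((e : ℝ) * 4) := by
      rw [htm, ← h0, tm_gl hz]
      simp [hg]
    have hi := hint 0 (e : ℝ) 4
    have hl : ∀ i : Fin 4, gl ((e : ℝ) * 4) i =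
        -gl ((e : ℝ) * 0) i + 4 * gl ((e : ℝ) * 1) i - 6 * gl ((e : ℝ) * 2) i +
          4 * gl ((e : ℝ) * 3) i := by
      intro i
      have h := congrFun hi i
      simp only [Fin.sum_univ_four, Pi.add_apply, Pi.smul_apply, smul_eq_mul, zero_add, lb,
        Matrix.cons_val_zero, Matrix.cons_val_one, Matrix.cons_val, Fin.val_zero, Fin.val_one,
        Fin.val_two, Nat.cast_zero, Nat.cast_one, Nat.cast_ofNat] at h
      have h3 : ((3 : Fin 4) : ℕ) = 3 := rfl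
      rw [h3] at h
      push_cast at h
      rw [← h]
      ring
    have hk : Bm n e r (ys n) 0 *ᵥ px g = -(tm n e (ys n) ^ 4 *ᵥ e0) := by
      rw [h4]
      ext i
      simp only [Matrix.mulVec, dotProduct, Fin.sum_univ_four, hB0, px, Matrix.cons_val_zero,
        Matrix.cons_val_one, Matrix.cons_val, Pi.neg_apply, Pi.smul_apply, smul_eq_mul, hl,
        Fin.val_zero, Fin.val_one, Fin.val_two, Nat.cast_zero, Nat.cast_one, Nat.cast_ofNat]
      have h3 : ((3 : Fin 4) : ℕ) = 3 := rfl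
      rw [h3]
      push_cast
      ring
    have := hsol 0 _ _ hk
    rw [pc, ← this, Matrix.mulVec_neg]
  · intro m j
    have hx : ((r * m : ℤ) : ℝ) / (n : ℝ) + (e : ℝ) * ((r : ℝ) / ((n : ℝ) * (e : ℝ))) =
        ((r * (m + 1) : ℤ) : ℝ) / (n : ℝ) := by
      push_cast
      field_simp
    have hi := hint (((r * m : ℤ) : ℝ) / (n : ℝ)) (e : ℝ) ((r : ℝ) / ((n : ℝ) * (e : ℝ)))
    rw [hx] at hi
    have hk : Bm n e r (ys n) m *ᵥ (fun j : Fin 4 => c (r * (m + 1)) / c (r * m) *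
        g⁻¹ ^ (j : ℕ) * lb ((r : ℝ) / ((n : ℝ) * (e : ℝ))) j) = us n r (ys n) (m + 1) := by
      rw [hus (m + 1), ← hi]
      ext i
      rw [Pi.smul_apply, Finset.sum_apply, smul_eq_mul, Finset.mul_sum]
      simp only [Matrix.mulVec, dotProduct]
      refine Finset.sum_congr rfl fun j _ => ?_
      rw [hB, Pi.smul_apply, smul_eq_mul, inv_pow]
      have h1 := hc0 (r * m)
      have h2 : g ^ (j : ℕ) ≠ 0 := pow_ne_zero _ hg0
      field_simp
    have := hsol m _ _ hk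
    rw [bv, this]

end Pool.Agent.MP62a5ad.QN
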