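import Pool.Agent.Lib.MP_62a5ad_mp.QN.SpecC

/-!
# MP_62a5ad_mp, project QN, part C: the data of `ys` at the time `0`
-/

set_option autoImplicit false

namespace Pool.Agent.MP62a5ad.QN

open Matrix
open Pool.Agent.MP62a5ad.PN (V4 M4 e0)

theorem tYd (hYb : S_Yb) : S_Yd := by
  intro n _ e r he ν hν h1 h0 h1' h2 m
  obtain ⟨-, hpc, β, hβ, hbv⟩ := hYb n e r he
  rw [← hν] at hbv
  generalize hg : (1 / 4 : ℝ) ^ e = g at hpc hbv ⊢
  have hg0 : g ≠ 0 := by rw [← hg]; positivity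
  have ha1 : ν + 1 ≠ 0 := fun h => h1 (by linarith)
  have ha2 : ν - 1 ≠ 0 := sub_ne_zero.mpr h1'
  have ha3 : ν - 2 ≠ 0 := sub_ne_zero.mpr h2
  have hp0 : pc n e r (ys n) 0 = g ^ 4 := by rw [hpc]; rfl
  have hp1 : pc n e r (ys n) 1 = -(4 * g ^ 3) := by rw [hpc]; rfl
  have hp2 : pc n e r (ys n) 2 = 6 * g ^ 2 := by rw [hpc]; rfl
  have hp3 : pc n e r (ys n) 3 = -(4 * g) := by rw [hpc]; rfl
  obtain ⟨b, hb, hbv⟩ : ∃ b : ℝ, b ≠ 0 ∧ ∀ j : Fin 4, bv n e r (ys n) m j =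
      b * g⁻¹ ^ (j : ℕ) * lb ν j := ⟨β m, hβ m, fun j => hbv m j⟩
  have hb0 : bv n e r (ys n) m 0 = b * (-((ν - 1) * (ν - 2) * (ν - 3)) / 6) := by
    rw [hbv 0]; simp [lb]
  have hb1 : bv n e r (ys n) m 1 = b * g⁻¹ * (ν * (ν - 2) * (ν - 3) / 2) := by
    rw [hbv 1]; simp [lb]
  have hb2 : bv n e r (ys n) m 2 = b * g⁻¹ ^ 2 * (-(ν * (ν - 1) * (ν - 3)) / 2) := by
    rw [hbv 2]; simp [lb]
  have hb3 : bv n e r (ys n) m 3 = b * g⁻¹ ^ 3 * (ν * (ν - 1) * (ν - 2) / 6) := by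
    rw [hbv 3]; simp [lb]
  have hs : s0 n e r (ys n) m = g * (ν + 1) / (ν - 2) := by
    rw [s0, hb2, hb3, hp3]
    field_simp
    ring
  have hk : kap n e r (ys n) m = -(b * ν * (ν + 1)) / (2 * g * (ν - 2)) := by
    rw [kap, hb1, hs, hb2, hp2, hb3]
    field_simp
    ring
  refine ⟨?_, ?_, ?_⟩
  · rw [hb3]
    have : g⁻¹ ≠ 0 := inv_ne_zero hg0
    positivity
  · rw [hk]
    exact div_ne_zero (neg_ne_zero.mpr (mul_ne_zero (mul_ne_zero hb h0) ha1))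
      (mul_ne_zero (mul_ne_zero two_ne_zero hg0) ha3)
  · have hu : (bv n e r (ys n) m 0 - s0 n e r (ys n) m * bv n e r (ys n) m 1 -
        pc n e r (ys n) 1 * bv n e r (ys n) m 3) / kap n e r (ys n) m = g * (-2 + 4 / ν) := by
      rw [hk, hb0, hs, hb1, hp1, hb3]
      field_simp
      ring
    have hC : (-s0 n e r (ys n) m * bv n e r (ys n) m 0 -
        pc n e r (ys n) 0 * bv n e r (ys n) m 3) / kap n e r (ys n) m =
        g ^ 2 * ((ν - 1) * (ν - 2)) / (ν * (ν + 1)) := by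
      rw [hk, hb0, hs, hp0, hb3]
      field_simp
      ring
    rw [dat0, hu, hC, hs, zx]

end Pool.Agent.MP62a5ad.QN
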