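import Pool.Agent.Lib.MP_62a5ad_mp.QN.SpecC

/-!
# MP_62a5ad_mp, project QN, module Yf: the image of the reference polygon
-/

set_option autoImplicit false

namespace Pool.Agent.MP62a5ad.QN

open Matrix
open scoped ContDiff
open Pool.Agent.MP62a5ad.PN (V4 M4 e0)

namespace YfAux

/-- The matrix of multiplication by `gl x`. -/
noncomputable def Ax (x : ℝ) : M4 := ∑ j : Fin 4, gl x j • mono cs ^ (j : ℕ)

theorem ext_gl (hGl : S_Gl) (A B : M4) (h : ∀ x, A *ᵥ gl x = B *ᵥ gl x) : A = B := by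
  obtain ⟨-, -, -, -, hd, -⟩ := hGl
  have hdet := hd 0 1
  obtain ⟨G, hG⟩ : ∃ G : M4, G = Matrix.of fun i j : Fin 4 => gl (0 + 1 * ((j : ℕ) : ℝ)) i :=
    ⟨_, rfl⟩
  rw [← hG] at hdet
  have hu : IsUnit G.det := by
    rw [hdet]
    norm_num
  have key : ∀ C : M4, ∀ i j, (C * G) i j = (C *ᵥ gl (0 + 1 * ((j : ℕ) : ℝ))) i := by
    intro C i j
    rw [hG]
    simp [Matrix.mul_apply, Matrix.mulVec, dotProduct]
  have hAB : A * G = B * G := by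
    ext i j
    rw [key, key, h]
  calc A = A * (G * G⁻¹) := by rw [Matrix.mul_nonsing_inv G hu, Matrix.mul_one]
    _ = B * (G * G⁻¹) := by rw [← Matrix.mul_assoc, hAB, Matrix.mul_assoc]
    _ = B := by rw [Matrix.mul_nonsing_inv G hu, Matrix.mul_one]

theorem pow_gl (hGl : S_Gl) (e : ℕ) (x : ℝ) :
    (mono cs ^ e) *ᵥ gl x = ((1 / 4 : ℝ) ^ e) • gl (x + e) := by
  obtain ⟨-, -, hz, -⟩ := hGl
  have h := hz (e : ℤ) x
  rw [zpow_natCast, zpow_natCast] at h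
  rw [h]
  push_cast
  rfl

theorem N_gl (hGl : S_Gl) (e : ℕ) (x : ℝ) :
    (mono cs ^ e - ((1 / 4 : ℝ) ^ e) • (1 : M4)) *ᵥ gl x =
      ((1 / 4 : ℝ) ^ e) • (gl (x + e) - gl x) := by
  rw [Matrix.sub_mulVec, pow_gl hGl, Matrix.smul_mulVec, Matrix.one_mulVec, smul_sub]

theorem N4 (hGl : S_Gl) (e : ℕ) :
    (mono cs ^ e - ((1 / 4 : ℝ) ^ e) • (1 : M4)) ^ 4 = 0 := by
  apply ext_gl hGl
  intro x
  obtain ⟨N, hN⟩ : ∃ N : M4, N = mono cs ^ e - ((1 / 4 : ℝ) ^ e) • (1 : M4) := ⟨_, rfl⟩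
  obtain ⟨g, hg⟩ : ∃ g : ℝ, g = (1 / 4 : ℝ) ^ e := ⟨_, rfl⟩
  have hNg : ∀ y, N *ᵥ gl y = g • (gl (y + e) - gl y) := by
    intro y
    rw [hN, hg]
    exact N_gl hGl e y
  rw [← hN, Matrix.zero_mulVec]
  have h4 : N ^ 4 *ᵥ gl x = N *ᵥ (N *ᵥ (N *ᵥ (N *ᵥ gl x))) := by
    simp only [Matrix.mulVec_mulVec]
    congr 1
    noncomm_ring
  rw [h4]
  simp only [hNg, Matrix.mulVec_smul, Matrix.mulVec_sub]
  obtain ⟨-, -, -, hi, -, -⟩ := hGl
  have h := hi x e 4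
  rw [Fin.sum_univ_four] at h
  have l0 : lb 4 0 = -1 := by simp [lb]; norm_num
  have l1 : lb 4 1 = 4 := by simp [lb]; norm_num
  have l2 : lb 4 2 = -6 := by simp [lb]; norm_num
  have l3 : lb 4 3 = 4 := by simp [lb]; norm_num
  rw [l0, l1, l2, l3] at h
  have a0 : x + (e : ℝ) * (((0 : Fin 4) : ℕ) : ℝ) = x := by simp
  have a1 : x + (e : ℝ) * (((1 : Fin 4) : ℕ) : ℝ) = x + e := by simp
  have a2 : x + (e : ℝ) * (((2 : Fin 4) : ℕ) : ℝ) = x + e + e := by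
    have : (((2 : Fin 4) : ℕ) : ℝ) = 2 := by norm_num
    rw [this]; ring
  have a3 : x + (e : ℝ) * (((3 : Fin 4) : ℕ) : ℝ) = x + e + e + e := by
    have : (((3 : Fin 4) : ℕ) : ℝ) = 3 := by norm_num
    rw [this]; ring
  have a4 : x + (e : ℝ) * 4 = x + e + e + e + e := by ring
  rw [a0, a1, a2, a3, a4] at h
  ext i
  have hi := congrFun h i
  simp only [Pi.add_apply, Pi.smul_apply, smul_eq_mul] at hi
  simp only [Pi.sub_apply, Pi.smul_apply, smul_eq_mul, Pi.zero_apply]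
  linear_combination (-g ^ 4) * hi

theorem det_ne (hGl : S_Gl) (e : ℕ) (s : ℝ) (hs : s ≠ (1 / 4 : ℝ) ^ e) :
    (mono cs ^ e - s • (1 : M4)).det ≠ 0 := by
  intro h0
  obtain ⟨w, hw, hw0⟩ := Matrix.exists_mulVec_eq_zero_iff.mpr h0
  obtain ⟨g, hg⟩ : ∃ g : ℝ, g = (1 / 4 : ℝ) ^ e := ⟨_, rfl⟩
  rw [← hg] at hs
  have hN4 := N4 hGl e
  rw [← hg] at hN4
  have h1 : (mono cs ^ e) *ᵥ w = s • w := by
    rw [Matrix.sub_mulVec, Matrix.smul_mulVec, Matrix.one_mulVec] at hw0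
    exact sub_eq_zero.mp hw0
  have hNw : (mono cs ^ e - g • (1 : M4)) *ᵥ w = (s - g) • w := by
    rw [Matrix.sub_mulVec, h1, Matrix.smul_mulVec, Matrix.one_mulVec, sub_smul]
  have hpow : ∀ k : ℕ, (mono cs ^ e - g • (1 : M4)) ^ k *ᵥ w = (s - g) ^ k • w := by
    intro k
    induction k with
    | zero => simp
    | succ k ih =>
      rw [pow_succ, ← Matrix.mulVec_mulVec, hNw, Matrix.mulVec_smul, ih, smul_smul, pow_succ,
        mul_comm]
  have h4 := hpow 4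
  rw [hN4, Matrix.zero_mulVec] at h4
  have hne : (s - g) ^ 4 ≠ 0 := pow_ne_zero _ (sub_ne_zero.mpr hs)
  exact hw ((smul_eq_zero.mp h4.symm).resolve_left hne)

theorem Ax_gl (hGl : S_Gl) (x y : ℝ) : Ax x *ᵥ gl y = gl (x + y) := by
  obtain ⟨-, -, -, -, -, hp⟩ := hGl
  exact hp x y

theorem Ax_det (hGl : S_Gl) (x : ℝ) : (Ax x).det ≠ 0 := by
  have h : Ax (-x) * Ax x = 1 := by
    apply ext_gl hGl
    intro y
    rw [← Matrix.mulVec_mulVec, Ax_gl hGl, Ax_gl hGl, Matrix.one_mulVec]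
    congr 1
    ring
  have hd : (Ax (-x)).det * (Ax x).det = 1 := by
    rw [← Matrix.det_mul, h, Matrix.det_one]
  exact right_ne_zero_of_mul (by rw [hd]; exact one_ne_zero)

end YfAux

open YfAux in
theorem tYf (hGl : S_Gl) (hYp : S_Yp) (hYl : S_Yl) (hRd : S_Rd) : S_Yf := by
  intro n _ e r r' i he ν hν hm1 h0 h1 h2
  obtain ⟨hcc, hgl, c, hc0, hc⟩ := hYp n
  obtain ⟨g, hg⟩ : ∃ g : ℝ, g = (1 / 4 : ℝ) ^ e := ⟨_, rfl⟩
  have hg0 : g ≠ 0 := by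
    rw [hg]
    positivity
  have hMo : Mo n (ys n) = mono cs := by
    unfold Mo
    rw [hcc]
  have htm : tm n e (ys n) = mono cs ^ e := by
    unfold tm
    rw [hMo]
  have P1 : ∀ s : ℝ, s ≠ (1 / 4 : ℝ) ^ e → (tm n e (ys n) - s • 1).det ≠ 0 := by
    intro s hs
    rw [htm]
    exact det_ne hGl e s hs
  have hdat := (hRd n e r he ν hν hm1 h0 h1 h2).1
  have hs0 : zx g ν 0 ≠ g := (hYl g ν hg0 hm1 h0 h1 h2).2.2.2.1
  have hs1 : zx g (1 - ν) 0 ≠ g :=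
    (hYl g (1 - ν) hg0 (fun h => h2 (by linarith)) (fun h => h1 (by linarith))
      (fun h => h0 (by linarith)) (fun h => hm1 (by linarith))).2.2.2.1
  obtain ⟨T, hT⟩ : ∃ T : M4, T = tm n e (ys n) := ⟨_, rfl⟩
  obtain ⟨G, hG⟩ : ∃ G : M4, G = (T - zx g (1 - ν) 0 • (1 : M4)) * (T - zx g ν 0 • (1 : M4))⁻¹ :=
    ⟨_, rfl⟩
  have hGm : ∀ m, Gm n e r (ys n) m = G := by
    intro m
    unfold Gm
    rw [hdat 1 m, hdat 0 m, if_neg (by decide), if_pos (by decide), hG, hT, hg]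
  have hGdet : G.det ≠ 0 := by
    rw [hG, Matrix.det_mul, Matrix.det_nonsing_inv, Ring.inverse_eq_inv']
    refine mul_ne_zero ?_ (inv_ne_zero ?_)
    · rw [hT]
      exact P1 _ (by rw [← hg]; exact hs1)
    · rw [hT]
      exact P1 _ (by rw [← hg]; exact hs0)
  have hmk : ∀ k, mk n (ys n) (pol n (ys n) k) = c k • Ax ((k : ℝ) / (n : ℝ)) := by
    intro k
    unfold mk Ax
    rw [hc k, hMo, Finset.smul_sum]
    refine Finset.sum_congr rfl fun j _ => ?_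
    rw [Pi.smul_apply, smul_eq_mul, mul_smul]
  have P3 : ∀ k, (mk n (ys n) (pol n (ys n) k)).det ≠ 0 := by
    intro k
    rw [hmk, Matrix.det_smul]
    exact mul_ne_zero (pow_ne_zero _ (hc0 k)) (Ax_det hGl _)
  have himn : ∀ k : ℤ, imn n e r r' i (ys n) k = (c (k + i) / c i) • gl ((k : ℝ) / (n : ℝ)) := by
    intro k
    unfold imn img
    rw [hGm, hGm]
    obtain ⟨P, hP⟩ : ∃ P : M4, P = mk n (ys n) (pol n (ys n) i) := ⟨_, rfl⟩
    have hPd : P.det ≠ 0 := by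
      rw [hP]
      exact P3 i
    rw [← hP, Matrix.mul_inv_rev, Matrix.mulVec_mulVec, Matrix.mul_assoc,
      Matrix.nonsing_inv_mul G (isUnit_iff_ne_zero.mpr hGdet), Matrix.mul_one]
    have hw : P *ᵥ ((c (k + i) / c i) • gl ((k : ℝ) / (n : ℝ))) = pol n (ys n) (k + i) := by
      rw [hP, hmk i, Matrix.mulVec_smul, Matrix.smul_mulVec, Ax_gl hGl, smul_smul,
        div_mul_cancel₀ _ (hc0 i), hc (k + i)]
      congr 2
      push_cast
      ring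
    rw [← hw, Matrix.mulVec_mulVec, Matrix.nonsing_inv_mul P (isUnit_iff_ne_zero.mpr hPd),
      Matrix.one_mulVec]
  have hcq : ∀ k : ℤ, c (k + i) / c i ≠ 0 := fun k => div_ne_zero (hc0 _) (hc0 _)
  have P4 : ∀ k : Fin n, imn n e r r' i (ys n) ((k : ℕ) : ℤ) 0 ≠ 0 := by
    intro k
    rw [himn, Pi.smul_apply, smul_eq_mul, Int.cast_natCast]
    exact mul_ne_zero (hcq _) (hgl k).1
  refine ⟨P1, fun m => by rw [hGm]; exact hGdet, P3, P4, ?_⟩
  funext a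
  by_cases ha : a.1 = 0
  · unfold ff
    rw [if_pos ha]
  · have e1 : ff n e r r' i (ys n) a =
        imn n e r r' i (ys n) ((a.1 : ℕ) : ℤ) a.2.succ / imn n e r r' i (ys n) ((a.1 : ℕ) : ℤ) 0 := by
      unfold ff
      rw [if_neg ha]
    have e2 : ys n a = gl ((a.1 : ℕ) / n) a.2.succ / gl ((a.1 : ℕ) / n) 0 := by
      unfold ys
      rw [if_neg ha]
    rw [e1, e2, himn, Pi.smul_apply, Pi.smul_apply, smul_eq_mul, smul_eq_mul, Int.cast_natCast,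
      mul_div_mul_left _ _ (hcq _)]

end Pool.Agent.MP62a5ad.QN
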