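import Pool.Agent.Lib.MP_62a5ad_mp.QN.SpecC

/-!
# MP_62a5ad_mp, project QN, part C: the data of `ys` at all times
-/

set_option autoImplicit false

namespace Pool.Agent.MP62a5ad.QN

open Matrix
open scoped ContDiff
open Pool.Agent.MP62a5ad.PN (V4 M4 e0)

namespace YlAux

theorem z0 (g ν : ℝ) : zx g ν 0 = g * (ν + 1) / (ν - 2) := rfl
theorem z1 (g ν : ℝ) : zx g ν 1 = g * (-2 + 4 / ν) := rfl
theorem z2 (g ν : ℝ) : zx g ν 2 = g ^ 2 * ((ν - 1) * (ν - 2)) / (ν * (ν + 1)) := rfl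
theorem p0 (g : ℝ) : px g 0 = g ^ 4 := rfl
theorem p1 (g : ℝ) : px g 1 = -(4 * g ^ 3) := rfl
theorem p2 (g : ℝ) : px g 2 = 6 * g ^ 2 := rfl
theorem p3 (g : ℝ) : px g 3 = -(4 * g) := rfl

section

variable {g ν : ℝ} (hg : g ≠ 0) (h1 : ν + 1 ≠ 0) (h0 : ν ≠ 0) (h1' : ν - 1 ≠ 0) (h2 : ν - 2 ≠ 0)

include hg h1 h0 h1' h2

omit h1' in
theorem den : zx g ν 2 + zx g ν 0 ^ 2 + zx g ν 1 * zx g ν 0 =
    27 * g ^ 2 * (ν - 1) / ((ν + 1) * (ν - 2) ^ 2) := by
  rw [z0, z1, z2]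
  field_simp
  ring

theorem ra : rA (px g) (zx g ν 0) (zx g ν 1) (zx g ν 2) = 4 * g / (ν * (1 - ν)) := by
  have hd := den hg h1 h0 h2
  have h3 : 1 - ν ≠ 0 := fun h => h1' (by linarith)
  unfold rA
  rw [hd, p0, p1, p2, p3, z0, z1, z2]
  field_simp
  ring

theorem rs' : rS (px g) (zx g ν 0) (zx g ν 1) (zx g ν 2) = zx g (1 - ν) 0 := by
  have h3 : 1 - ν ≠ 0 := fun h => h1' (by linarith)
  have h4 : 1 - ν - 2 ≠ 0 := fun h => h1 (by linarith)
  unfold rS
  rw [ra hg h1 h0 h1' h2, p0, p2, p3, z0, z1, z2, z0]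
  field_simp
  ring

theorem ru : rU (px g) (zx g ν 0) (zx g ν 1) (zx g ν 2) = zx g (1 - ν) 1 := by
  have h3 : 1 - ν ≠ 0 := fun h => h1' (by linarith)
  unfold rU
  rw [ra hg h1 h0 h1' h2, p3, z1, z1]
  field_simp
  ring

omit h1 h0 in
theorem rc : px g 0 / zx g ν 2 = zx g (1 - ν) 2 := by
  have h3 : 1 - ν ≠ 0 := fun h => h1' (by linarith)
  have h4 : 1 - ν + 1 ≠ 0 := fun h => h2 (by linarith)
  rw [p0, z2, z2]
  field_simp
  ring

theorem fw : (fwd (px g) fun _ => zx g ν) = fun _ => zx g (1 - ν) := by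
  funext m i
  fin_cases i
  · exact rs' hg h1 h0 h1' h2
  · exact ru hg h1 h0 h1' h2
  · exact rc hg h1' h2

theorem bw : (bwd (px g) fun _ => zx g ν) = fun _ => zx g (1 - ν) := by
  funext m i
  fin_cases i
  · exact rs' hg h1 h0 h1' h2
  · exact ru hg h1 h0 h1' h2
  · exact rc hg h1' h2

end

theorem it {g ν : ℝ} (F : (ℤ → Fin 3 → ℝ) → ℤ → Fin 3 → ℝ)
    (hF : (F fun _ => zx g ν) = fun _ => zx g (1 - ν))
    (hF' : (F fun _ => zx g (1 - ν)) = fun _ => zx g ν) (k : ℕ) :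
    (F^[k] fun _ => zx g ν) = fun _ => if Even k then zx g ν else zx g (1 - ν) := by
  induction k with
  | zero => simp
  | succ k ih =>
    rw [Function.iterate_succ_apply', ih]
    by_cases h : Even k
    · simp only [h, if_true]
      rw [hF]
      simp [Nat.even_add_one, h]
    · simp only [h, if_false]
      rw [hF']
      simp [Nat.even_add_one, h]

end YlAux

open YlAux in
theorem tYl : S_Yl := by
  intro g ν hg hm1 h0 hp1 hp2
  have h1 : ν + 1 ≠ 0 := fun h => hm1 (by linarith)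
  have h1' : ν - 1 ≠ 0 := fun h => hp1 (by linarith)
  have h2 : ν - 2 ≠ 0 := fun h => hp2 (by linarith)
  have k1 : (1 - ν) + 1 ≠ 0 := fun h => hp2 (by linarith)
  have k0 : 1 - ν ≠ 0 := fun h => hp1 (by linarith)
  have k1' : (1 - ν) - 1 ≠ 0 := fun h => h0 (by linarith)
  have k2 : (1 - ν) - 2 ≠ 0 := fun h => hm1 (by linarith)
  have e : 1 - (1 - ν) = ν := by ring
  have F1 := fw hg h1 h0 h1' h2
  have F2 := fw hg k1 k0 k1' k2
  have B1 := bw hg h1 h0 h1' h2
  have B2 := bw hg k1 k0 k1' k2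
  rw [e] at F2 B2
  refine ⟨?_, ?_, ?_, ?_, F1, B1, ?_, ?_, ?_⟩
  · rw [z2]
    positivity
  · rw [den hg h1 h0 h2]
    positivity
  · rw [ra hg h1 h0 h1' h2]
    positivity
  · rw [z0]
    intro h
    rw [div_eq_iff h2] at h
    have h5 := mul_left_cancel₀ hg h
    linarith
  · rintro (k | k)
    · change ((fwd (px g))^[k] fun _ => zx g ν) = _
      rw [it _ F1 F2]
      funext m
      simp [Int.even_coe_nat]
    · change ((bwd (px g))^[k + 1] fun _ => zx g ν) = _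
      rw [it _ B1 B2]
      funext m
      have hE : Even (Int.negSucc k) ↔ Even (k + 1) := by
        rw [Int.negSucc_eq, even_neg, ← Nat.cast_succ, Int.even_coe_nat]
      simp only [hE]
  · intro x
    unfold pv
    rw [p0, p1, p2, p3]
    ring
  · intro hh
    have hd : 2 * ν - 1 ≠ 0 := fun h => hh (by linarith)
    refine ⟨?_, ?_, ?_⟩
    · rw [z0, z0]
      intro h
      rw [div_eq_div_iff h2 k2] at h
      have h5 : g * ((ν + 1) * (1 - ν - 2)) = g * ((1 - ν + 1) * (ν - 2)) := by linarith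
      have h6 := mul_left_cancel₀ hg h5
      apply hd
      nlinarith
    · have hz : zx g ν 2 ≠ 0 := by
        rw [z2]
        positivity
      have h7 : rsv (px g) (zx g ν 2 + px g 0 / zx g ν 2) =
          (zx g ν 2 + px g 0 / zx g ν 2 - 2 * g ^ 2) ^ 3 := by
        unfold rsv
        rw [p0, p1, p2, p3]
        ring
      rw [h7]
      apply pow_ne_zero
      have h8 : zx g ν 2 + px g 0 / zx g ν 2 - 2 * g ^ 2 = (zx g ν 2 - g ^ 2) ^ 2 / zx g ν 2 := by
        rw [p0]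
        field_simp
        ring
      rw [h8]
      apply div_ne_zero _ hz
      apply pow_ne_zero
      have h9 : zx g ν 2 - g ^ 2 = -(2 * g ^ 2 * (2 * ν - 1)) / (ν * (ν + 1)) := by
        rw [z2]
        field_simp
        ring
      rw [h9]
      exact div_ne_zero (neg_ne_zero.2 (by positivity)) (by positivity)
    · intro h
      rw [p0] at h
      have h9 : zx g ν 2 ^ 2 - g ^ 4 =
          -(4 * g ^ 4 * (2 * ν - 1) * (ν ^ 2 - ν + 1)) / (ν * (ν + 1)) ^ 2 := by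
        rw [z2]
        field_simp
        ring
      have h10 : ν ^ 2 - ν + 1 ≠ 0 := by nlinarith [sq_nonneg (ν - 1 / 2)]
      have h11 : -(4 * g ^ 4 * (2 * ν - 1) * (ν ^ 2 - ν + 1)) / (ν * (ν + 1)) ^ 2 ≠ 0 :=
        div_ne_zero (neg_ne_zero.2 (by positivity)) (by positivity)
      apply h11
      rw [← h9]
      linarith

end Pool.Agent.MP62a5ad.QN
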