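import Pool.Agent.Lib.MP_62a5ad_mp.QN.SpecC

/-!
# MP_62a5ad_mp, project QN: Yp (the vertices of `ys`)
-/

set_option autoImplicit false

namespace Pool.Agent.MP62a5ad.QN

open Matrix
open Pool.Agent.MP62a5ad.PN (V4 M4 e0)

namespace YpAux

lemma glpos (x : ℝ) (h0 : 0 ≤ x) (h1 : x < 1) : gl x 0 ≠ 0 := by
  have h : gl x 0 = (1 - x) * (2 - x) * (3 - x) / 6 := by
    simp [gl, lb]
    ring
  rw [h]
  have a : 0 < 1 - x := by linarith
  have b : 0 < 2 - x := by linarith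
  have c : 0 < 3 - x := by linarith
  positivity

lemma rsval (n : ℕ) [NeZero n] (k : ℤ) : (((rs n k : Fin n) : ℕ) : ℝ) = ((k % (n : ℤ) : ℤ) : ℝ) := by
  have hn : (0 : ℤ) < n := by
    have := NeZero.pos n
    exact_mod_cast this
  have h0 : 0 ≤ k % (n : ℤ) := Int.emod_nonneg _ hn.ne'
  have h1 : k % (n : ℤ) < n := Int.emod_lt_of_pos _ hn
  have h2 : ((rs n k : Fin n) : ℕ) = (k % (n : ℤ)).toNat := by
    unfold rs
    rw [Fin.val_ofNat]
    apply Nat.mod_eq_of_lt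
    omega
  rw [h2]
  have h3 : (((k % (n : ℤ)).toNat : ℤ) : ℝ) = ((k % (n : ℤ) : ℤ) : ℝ) := by
    rw [Int.toNat_of_nonneg h0]
  rw [← h3]
  norm_cast

end YpAux

theorem tYp (hGl : S_Gl) : S_Yp := by
  intro n _
  obtain ⟨_, hg0, hz, _⟩ := hGl
  have hn : (0 : ℝ) < n := by
    have := NeZero.pos n
    exact_mod_cast this
  have hc : cc n (ys n) = cs := by
    funext i
    simp [cc, ys]
  have hv : ∀ j : Fin n, gl (((j : ℕ) : ℝ) / (n : ℝ)) 0 ≠ 0 ∧
      vert n (ys n) j = (gl (((j : ℕ) : ℝ) / (n : ℝ)) 0)⁻¹ • gl (((j : ℕ) : ℝ) / (n : ℝ)) := by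
    intro j
    have hne : gl (((j : ℕ) : ℝ) / (n : ℝ)) 0 ≠ 0 := by
      apply YpAux.glpos
      · positivity
      · rw [div_lt_one hn]
        exact_mod_cast j.2
    refine ⟨hne, ?_⟩
    by_cases hj : j = 0
    · subst hj
      simp only [vert, if_true, Fin.val_zero, Nat.cast_zero, zero_div]
      rw [hg0]
      simp [e0]
    · have hs : ∀ i : Fin 3, ys n (j, i) = gl (((j : ℕ) : ℝ) / (n : ℝ)) i.succ
          / gl (((j : ℕ) : ℝ) / (n : ℝ)) 0 := by
        intro i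
        simp [ys, hj]
      simp only [vert, hj, if_false, hs]
      funext i
      fin_cases i
      · simp [hne]
      · simp [div_eq_inv_mul]
      · simp [div_eq_inv_mul]
      · simp [div_eq_inv_mul]
  refine ⟨hc, hv, fun k => (gl (((k % (n : ℤ) : ℤ) : ℝ) / (n : ℝ)) 0)⁻¹ * (1 / 4 : ℝ) ^ (k / (n : ℤ)),
    ?_, ?_⟩
  · intro k
    have h := (hv (rs n k)).1
    rw [YpAux.rsval] at h
    exact mul_ne_zero (inv_ne_zero h) (zpow_ne_zero _ (by norm_num))
  · intro k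
    have h := (hv (rs n k)).2
    rw [YpAux.rsval] at h
    unfold pol Mo
    rw [hc, h, Matrix.mulVec_smul, hz, smul_smul]
    congr 2
    have he := Int.emod_add_mul_ediv k (n : ℤ)
    have he' : ((k % (n : ℤ) : ℤ) : ℝ) + (n : ℝ) * ((k / (n : ℤ) : ℤ) : ℝ) = (k : ℝ) := by
      exact_mod_cast he
    field_simp
    linarith

end Pool.Agent.MP62a5ad.QN
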