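import Pool.Agent.Lib.MP_62a5ad_mp.QN.SpecB

/-!
# MP_62a5ad_mp, project QN, module dB: the differential of `shC j ∘ B`
-/

set_option autoImplicit false

namespace Pool.Agent.MP62a5ad.QN

open Matrix

section dB

variable {n : ℕ} [NeZero n]

private theorem dB_val (k : ℤ) : (((rs n k : Fin n) : ℕ) : ℤ) = k % (n : ℤ) := by
  have hn : 0 < n := Nat.pos_of_ne_zero (NeZero.ne n)
  have h0 : 0 ≤ k % (n : ℤ) := Int.emod_nonneg _ (by omega)
  have h1 : k % (n : ℤ) < n := Int.emod_lt_of_pos _ (by omega)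
  unfold rs
  rw [Fin.val_ofNat, Nat.mod_eq_of_lt (by omega), Int.toNat_of_nonneg h0]

private theorem dB_rs (k : Fin n) (j : ℤ) : rs n ((k : ℕ) + j) = k + rs n j := by
  apply Fin.ext
  have h : ((rs n ((k : ℕ) + j) : Fin n) : ℕ) = (((k + rs n j : Fin n) : ℕ) : ℤ) := by
    rw [dB_val, Fin.val_add]
    push_cast
    rw [dB_val, Int.add_emod_emod]
  exact_mod_cast h

/-- The shift of the indices. -/
private def dB_e (j : ℤ) : Equiv.Perm (Ix n) :=
  (Equiv.addRight (rs n j)).prodCongr (Equiv.refl (Fin 3))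

private theorem dB_e_apply (j : ℤ) (i : Ix n) : dB_e j i = (rs n ((i.1 : ℕ) + j), i.2) := by
  rw [dB_rs]
  rfl

private theorem dB_P0 (j : ℤ) (a b : Ix n) : P0 n (dB_e j a) (dB_e j b) = P0 n a b := by
  have h1 : ∀ x y c : Fin n, (x + c = y + c + 1) ↔ (x = y + 1) := by
    intro x y c
    rw [add_right_comm, add_left_inj]
  obtain ⟨k, a⟩ := a
  obtain ⟨l, b⟩ := b
  have e1 : dB_e j (k, a) = (k + rs n j, a) := rfl
  have e2 : dB_e j (l, b) = (l + rs n j, b) := rfl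
  rw [e1, e2]
  simp only [P0, Matrix.of_apply, add_left_inj, h1]

/-- The vector `a_k`. -/
private def dB_a (θ : Ix n → ℂ) (k : Fin n) (j : Ix n) : ℂ :=
  (if j = (k + 1, 0) then 1 else 0) + (if j = (k, 1) then θ (k, 1) else 0) -
      (if j = (k + 1, 1) then θ (k + 1, 1) else 0)

private theorem dB_row0 (θ : Ix n → ℂ) (g : Fin n → ℂ) (k : Fin n) (j : Ix n) :
    KB θ g (k, 0) j = dB_a θ k j := by
  simp [KB, dB_a]

private theorem dB_row1 (θ : Ix n → ℂ) (g : Fin n → ℂ) (k : Fin n) (j : Ix n) :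
    KB θ g (k, 1) j = (if j = (k + 1, 1) then 1 else 0) +
      g (k + 1) * (dB_a θ (k + 1) j - if j = (k + 1, 2) then 1 else 0) -
      g k * (dB_a θ k j - if j = (k, 2) then 1 else 0) := by
  simp [KB, dB_a]

private theorem dB_row2 (θ : Ix n → ℂ) (g : Fin n → ℂ) (k : Fin n) (j : Ix n) :
    KB θ g (k, 2) j = if j = (k, 2) then 1 else 0 := by
  simp [KB]

private theorem dB_suma (θ D : Ix n → ℂ) (k : Fin n) : ∑ j, dB_a θ k j * D j =
    D (k + 1, 0) + θ (k, 1) * D (k, 1) - θ (k + 1, 1) * D (k + 1, 1) := by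
  simp only [dB_a, add_mul, sub_mul, Finset.sum_add_distrib, Finset.sum_sub_distrib, ite_mul,
    one_mul, zero_mul, Finset.sum_ite_eq', Finset.mem_univ, if_true]

private theorem dB_sumr (θ D : Ix n → ℂ) (g : Fin n → ℂ) (k : Fin n) :
    ∑ j, KB θ g (k, 1) j * D j = D (k + 1, 1) +
      g (k + 1) * (∑ j, dB_a θ (k + 1) j * D j - D (k + 1, 2)) -
      g k * (∑ j, dB_a θ k j * D j - D (k, 2)) := by
  simp only [dB_row1, add_mul, sub_mul, mul_sub, Finset.sum_add_distrib, Finset.sum_sub_distrib,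
    mul_assoc, Finset.mul_sum, ite_mul, one_mul, zero_mul, mul_ite, mul_zero,
    Finset.sum_ite_eq', Finset.mem_univ, if_true]

omit [NeZero n] in
private theorem dB_quot (p q r : E n → ℂ) (y v : E n) (hp : DifferentiableAt ℝ p y)
    (hq : DifferentiableAt ℝ q y) (hr : DifferentiableAt ℝ r y) (hp0 : p y ≠ 0) (hq0 : q y ≠ 0)
    (hr0 : r y ≠ 0) : (p y * q y / r y)⁻¹ * fderiv ℝ (fun y => p y * q y / r y) y v =
      (p y)⁻¹ * fderiv ℝ p y v + (q y)⁻¹ * fderiv ℝ q y v - (r y)⁻¹ * fderiv ℝ r y v := by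
  have h1 := hp.hasFDerivAt.mul hq.hasFDerivAt
  have h2 := (hasDerivAt_inv hr0).comp_hasFDerivAt y hr.hasFDerivAt
  have h3 := h1.mul h2
  have e : (fun y => p y * q y / r y) = (p * q) * ((fun x => x⁻¹) ∘ r) := by
    funext x
    simp [div_eq_mul_inv]
  rw [e, h3.fderiv]
  simp only [_root_.add_apply, _root_.smul_apply, smul_eq_mul, Pi.mul_apply, Function.comp]
  field_simp
  ring

/-- The forms of `Bx (Θ y)`. -/
private theorem dB_main (Θ : E n → Ix n → ℂ) (y v : E n)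
    (hd : ∀ i, DifferentiableAt ℝ (fun y => Θ y i) y) (hρ : ∀ k, Θ y (k, 1) ≠ 0)
    (hA : ∀ k : Fin n, Θ y (k + 1, 0) + Θ y (k, 1) - Θ y (k + 1, 1) ≠ Θ y (k, 2)) (i : Ix n) :
    lf (Bx (Θ y)) i * fderiv ℝ (fun y => Bx (Θ y) i) y v =
      ∑ b, KB (Θ y) (fun k => (Θ y (k + 1, 0) + Θ y (k, 1) - Θ y (k + 1, 1) - Θ y (k, 2))⁻¹) i b *
        (lf (Θ y) b * fderiv ℝ (fun y => Θ y b) y v) := by
  have hlf0 : ∀ (θ : Ix n → ℂ) (k : Fin n), lf θ (k, 0) = 1 := fun θ k => by simp [lf]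
  have hlf1 : ∀ (θ : Ix n → ℂ) (k : Fin n), lf θ (k, 1) = (θ (k, 1))⁻¹ := fun θ k => by simp [lf]
  have hlf2 : ∀ (θ : Ix n → ℂ) (k : Fin n), lf θ (k, 2) = 1 := fun θ k => by simp [lf]
  have hAd : ∀ k : Fin n, HasFDerivAt
      (fun y => Θ y (k + 1, 0) + Θ y (k, 1) - Θ y (k + 1, 1))
      (fderiv ℝ (fun y => Θ y (k + 1, 0)) y + fderiv ℝ (fun y => Θ y (k, 1)) y -
        fderiv ℝ (fun y => Θ y (k + 1, 1)) y) y := fun k =>
    ((hd (k + 1, 0)).hasFDerivAt.add (hd (k, 1)).hasFDerivAt).sub (hd (k + 1, 1)).hasFDerivAt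
  have hS : ∀ k : Fin n, ∑ b, dB_a (Θ y) k b * (lf (Θ y) b * fderiv ℝ (fun y => Θ y b) y v) =
      fderiv ℝ (fun y => Θ y (k + 1, 0)) y v + fderiv ℝ (fun y => Θ y (k, 1)) y v -
        fderiv ℝ (fun y => Θ y (k + 1, 1)) y v := by
    intro k
    rw [dB_suma (Θ y) (fun b => lf (Θ y) b * fderiv ℝ (fun y => Θ y b) y v) k]
    rw [hlf0, hlf1, hlf1, mul_inv_cancel_left₀ (hρ k), mul_inv_cancel_left₀ (hρ (k + 1)), one_mul]
  obtain ⟨k, a⟩ := i
  match a with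
  | 0 =>
    have e : (fun y => Bx (Θ y) (k, 0)) =
        fun y => Θ y (k + 1, 0) + Θ y (k, 1) - Θ y (k + 1, 1) := by
      funext x
      simp [Bx]
    simp only [dB_row0]
    rw [hS, hlf0, one_mul, e, (hAd k).fderiv]
    simp only [_root_.add_apply, _root_.sub_apply]
  | 1 =>
    have hr : ∀ k : Fin n, HasFDerivAt
        (fun y => Θ y (k + 1, 0) + Θ y (k, 1) - Θ y (k + 1, 1) - Θ y (k, 2))
        (fderiv ℝ (fun y => Θ y (k + 1, 0)) y + fderiv ℝ (fun y => Θ y (k, 1)) y -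
          fderiv ℝ (fun y => Θ y (k + 1, 1)) y - fderiv ℝ (fun y => Θ y (k, 2)) y) y :=
      fun k => (hAd k).sub (hd (k, 2)).hasFDerivAt
    have hr0 : ∀ k : Fin n,
        Θ y (k + 1, 0) + Θ y (k, 1) - Θ y (k + 1, 1) - Θ y (k, 2) ≠ 0 :=
      fun k => sub_ne_zero.2 (hA k)
    have e : ∀ y, Bx (Θ y) (k, 1) = Θ y (k + 1, 1) *
        (Θ y (k + 1 + 1, 0) + Θ y (k + 1, 1) - Θ y (k + 1 + 1, 1) - Θ y (k + 1, 2)) /
        (Θ y (k + 1, 0) + Θ y (k, 1) - Θ y (k + 1, 1) - Θ y (k, 2)) := by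
      intro y
      simp [Bx]
    have h := dB_quot (fun y => Θ y (k + 1, 1))
      (fun y => Θ y (k + 1 + 1, 0) + Θ y (k + 1, 1) - Θ y (k + 1 + 1, 1) - Θ y (k + 1, 2))
      (fun y => Θ y (k + 1, 0) + Θ y (k, 1) - Θ y (k + 1, 1) - Θ y (k, 2)) y v
      (hd (k + 1, 1)) (hr (k + 1)).differentiableAt (hr k).differentiableAt (hρ (k + 1))
      (hr0 (k + 1)) (hr0 k)
    rw [(hr (k + 1)).fderiv, (hr k).fderiv] at h
    rw [dB_sumr (Θ y) (fun b => lf (Θ y) b * fderiv ℝ (fun y => Θ y b) y v), hS, hS, hlf1, hlf1,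
      hlf2, hlf2, funext e, e, h]
    simp only [_root_.add_apply, _root_.sub_apply, one_mul]
  | 2 =>
    have e : (fun y => Bx (Θ y) (k, 2)) = fun y => Θ y (k, 2) := by
      funext x
      simp [Bx]
    simp only [dB_row2, ite_mul, one_mul, zero_mul, Finset.sum_ite_eq', Finset.mem_univ, if_true]
    rw [hlf2, hlf2, e]

end dB

/-- The differential of `shC j ∘ B`. -/
theorem sdB (_h1 : S_Nm) (h2 : S_KB) : S_dB := by
  intro n _ Θ y j hd hρ hA
  set g : Fin n → ℂ := fun k =>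
    (Θ y (k + 1, 0) + Θ y (k, 1) - Θ y (k + 1, 1) - Θ y (k, 2))⁻¹ with hg
  refine ⟨(KB (Θ y) g).submatrix (dB_e j) id, ?_, ?_, ?_⟩
  · ext i b
    rw [Matrix.mul_apply]
    have h := dB_main Θ y (Pi.single b 1) hd hρ hA (dB_e j i)
    simp only [Matrix.submatrix_apply, id, Jf, Matrix.of_apply]
    rw [← h]
    have e1 : ∀ θ : Ix n → ℂ, shC j θ i = θ (dB_e j i) := by
      intro θ
      rw [dB_e_apply]
      rfl
    have e2 : lf (shC j (Bx (Θ y))) i = lf (Bx (Θ y)) (dB_e j i) := by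
      have e3 : (dB_e j i).2 = i.2 := rfl
      simp only [lf, e1, e3]
    simp only [e1]
    rw [← e2]
  · have h := (h2 n (Θ y) g).1
    ext a b
    have e := congrFun (congrFun h (dB_e j a)) (dB_e j b)
    rw [Matrix.map_apply, dB_P0] at e
    rw [Matrix.map_apply, ← e]
    simp only [Matrix.mul_apply, Matrix.submatrix_apply, Matrix.transpose_apply, id]
  · rw [Matrix.det_permute]
    refine mul_ne_zero ?_ (h2 n (Θ y) g).2
    rcases Int.units_eq_one_or (Equiv.Perm.sign (dB_e j : Equiv.Perm (Ix n))) with h | h <;>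
      rw [h] <;> simp

end Pool.Agent.MP62a5ad.QN
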