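import Pool.Agent.Lib.MP_62a5ad_mp.QN.AllF
import Pool.Agent.Lib.MP_62a5ad_mp.QN.Rel
import Pool.Agent.Lib.MP_62a5ad_mp.QN.Lat
import Pool.Agent.Lib.MP_62a5ad_mp.QN.Jx
import Pool.Agent.Lib.MP_62a5ad_mp.QN.Nz
import Pool.Agent.Lib.MP_62a5ad_mp.QN.Wv
import Pool.Agent.Lib.MP_62a5ad_mp.QN.Ev
import Pool.Agent.Lib.MP_62a5ad_mp.QN.Uq
import Pool.Agent.Lib.MP_62a5ad_mp.QN.Bk
import Pool.Agent.Lib.MP_62a5ad_mp.QN.TB
import Pool.Agent.Lib.MP_62a5ad_mp.QN.Af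
import Pool.Agent.Lib.MP_62a5ad_mp.QN.Fr
import Pool.Agent.Lib.MP_62a5ad_mp.QN.Iw
import Pool.Agent.Lib.MP_62a5ad_mp.QN.Mk
import Pool.Agent.Lib.MP_62a5ad_mp.QN.Nm
import Pool.Agent.Lib.MP_62a5ad_mp.QN.Ei
import Pool.Agent.Lib.MP_62a5ad_mp.QN.Bh
import Pool.Agent.Lib.MP_62a5ad_mp.QN.Dg
import Pool.Agent.Lib.MP_62a5ad_mp.QN.Rea
import Pool.Agent.Lib.MP_62a5ad_mp.QN.P0
import Pool.Agent.Lib.MP_62a5ad_mp.QN.Gr
import Pool.Agent.Lib.MP_62a5ad_mp.QN.Gd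
import Pool.Agent.Lib.MP_62a5ad_mp.QN.Iv
import Pool.Agent.Lib.MP_62a5ad_mp.QN.Li
import Pool.Agent.Lib.MP_62a5ad_mp.QN.KB
import Pool.Agent.Lib.MP_62a5ad_mp.QN.dB
import Pool.Agent.Lib.MP_62a5ad_mp.QN.RaA
import Pool.Agent.Lib.MP_62a5ad_mp.QN.RaM
import Pool.Agent.Lib.MP_62a5ad_mp.QN.Rp
import Pool.Agent.Lib.MP_62a5ad_mp.QN.N2
import Pool.Agent.Lib.MP_62a5ad_mp.QN.Pd
import Pool.Agent.Lib.MP_62a5ad_mp.QN.Nu
import Pool.Agent.Lib.MP_62a5ad_mp.QN.Gl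
import Pool.Agent.Lib.MP_62a5ad_mp.QN.Yp
import Pool.Agent.Lib.MP_62a5ad_mp.QN.Yb
import Pool.Agent.Lib.MP_62a5ad_mp.QN.Yd
import Pool.Agent.Lib.MP_62a5ad_mp.QN.Yl
import Pool.Agent.Lib.MP_62a5ad_mp.QN.Rb
import Pool.Agent.Lib.MP_62a5ad_mp.QN.Rd
import Pool.Agent.Lib.MP_62a5ad_mp.QN.Yf
import Pool.Agent.Lib.MP_62a5ad_mp.QN.Rf
import Pool.Agent.Lib.MP_62a5ad_mp.QN.Dz
import Pool.Agent.Lib.MP_62a5ad_mp.QN.K1
import Pool.Agent.Lib.MP_62a5ad_mp.QN.K2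
import Pool.Agent.Lib.MP_62a5ad_mp.QN.Ga
import Pool.Agent.Lib.MP_62a5ad_mp.QN.Gb
import Pool.Agent.Lib.MP_62a5ad_mp.QN.Gs
import Pool.Agent.Lib.MP_62a5ad_mp.QN.Gn
import Pool.Agent.Lib.MP_62a5ad_mp.QN.Xi
import Pool.Agent.Lib.MP_62a5ad_mp.QN.Pw
import Pool.Agent.Lib.MP_62a5ad_mp.QN.Sc
import Pool.Agent.Lib.MP_62a5ad_mp.QN.Fy
import Pool.Agent.Lib.MP_62a5ad_mp.QN.Im
import Pool.Agent.Lib.MP_62a5ad_mp.QN.Rs
import Pool.Agent.Lib.MP_62a5ad_mp.QN.La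
import Pool.Agent.Lib.MP_62a5ad_mp.QN.Dt
import Pool.Agent.Lib.MP_62a5ad_mp.QN.Dh
import Pool.Agent.Lib.MP_62a5ad_mp.QN.Fp
import Pool.Agent.Lib.MP_62a5ad_mp.QN.Ha
import Pool.Agent.Lib.MP_62a5ad_mp.QN.Qd
import Pool.Agent.Lib.MP_62a5ad_mp.QN.Jb
import Pool.Agent.Lib.MP_62a5ad_mp.QN.Dn
import Pool.Agent.Lib.MP_62a5ad_mp.QN.Ts
import Pool.Agent.Lib.MP_62a5ad_mp.QN.Ty
import Pool.Agent.Lib.MP_62a5ad_mp.QN.Ri
import Pool.Agent.Lib.MP_62a5ad_mp.QN.Jc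
import Pool.Agent.Lib.MP_62a5ad_mp.QN.Fc
import Pool.Agent.Lib.MP_62a5ad_mp.QN.Sy
import Pool.Agent.Lib.MP_62a5ad_mp.QN.Gy
import Pool.Agent.Lib.MP_62a5ad_mp.QN.Rg
import Pool.Agent.Lib.MP_62a5ad_mp.QN.QN

/-! # The pieces of the parts A, B, C, D, E, put together -/

set_option autoImplicit false

namespace Pool.Agent.MP62a5ad.QN

theorem aRel : S_Rel := sRel

theorem aLat : S_Lat := sLat aRel

theorem aJx : S_Jx := sJx aRel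

theorem aNz : S_Nz := sNz aRel aJx

theorem aWv : S_Wv := sWv aRel aJx aNz

theorem aEv : S_Ev := sEv aRel aJx aNz

theorem aUq : S_Uq := sUq aRel aJx aNz

theorem aBk : S_Bk := sBk

theorem aTB : S_TB := sTB aRel aJx aNz aWv aEv aUq aBk

theorem aAf : S_Af := sAf aRel aJx aNz aWv aUq

theorem aFr : S_Fr := sFr aRel aJx aNz aAf

theorem aIw : S_Iw := sIw aRel aJx aNz

theorem aMk : S_Mk := sMk aNz aFr aIw

theorem aNm : S_Nm := sNm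

theorem aEi : S_Ei := sEi aNm

theorem aBh : S_Bh := sBh aNm

theorem aDg : S_Dg := sDg aNm

theorem aRea : S_Rea := sRea aNm aMk aDg

theorem aP0 : S_P0 := sP0

theorem aGr : S_Gr := sGr aNm

theorem aGd : S_Gd := sGd aGr

theorem aIv : S_Iv := sIv aNm aP0

theorem aLi : S_Li := sLi aNm

theorem aKB : S_KB := sKB

theorem adB : S_dB := sdB aNm aKB

theorem aRaA : S_RaA := tRaA

theorem aRaM : S_RaM := tRaM aRaA

theorem aRp : S_Rp := tRp aRaA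

theorem aN2 : S_N2 := tN2 aRaA aNrm

theorem aPd : S_Pd := tPd aRaA

theorem aNu : S_Nu := tNu

theorem aGl : S_Gl := tGl

theorem aYp : S_Yp := tYp aGl

theorem aYb : S_Yb := tYb aGl aYp

theorem aYd : S_Yd := tYd aYb

theorem aYl : S_Yl := tYl

theorem aRb : S_Rb := tRb aRaA aRaM aGl aYp aYb aYd

theorem aRd : S_Rd := tRd aRaA aYb aYd aYl aRb

theorem aYf : S_Yf := tYf aGl aYp aYl aRd

theorem aRf : S_Rf := tRf aRaA aRaM aYl aRb aRd aYf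

theorem aDz : S_Dz := tDz

theorem aK1 : S_K1 := tK1 aRaA aRp aN2 aYp

theorem aK2 : S_K2 := tK2 aRaA aRp aN2 aYp aYb aYl aRb aRd aDz

theorem aGa : S_Ga := tGa aRaA aRaM aPd aPer aYp aYb aYd aYl aRb aRd

theorem aGb : S_Gb := tGb aRaA aPd aPer aLat aYp aYb aYd aYl aRb aRd

theorem aGs : S_Gs := tGs aRaA aPd aPer aYp aRb aRd aRf

theorem aGn : S_Gn := tGn aRaA aNu aYf aRf aGa aGb aGs aK1 aK2

theorem aXi : S_Xi := sXi aPer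

theorem aPw : S_Pw := sPw

theorem aSc : S_Sc := sSc aRel

theorem aFy : S_Fy := sFy aRel aPer

theorem aIm : S_Im := sIm aPer aXi aPw aDd

theorem aRs : S_Rs := sRs aRel aPw

theorem aLa : S_La := sLa aRel aJx aNz aWv aEi aRs aNm

theorem aDt : S_Dt := sDt aDd

theorem aDh : S_Dh := sDh aNm

theorem aFp : S_Fp := sFp

theorem aHa : S_Ha := sHa aDt aLa aNm aDh aFp aMlt aNz aDd

theorem aQd : S_Qd := sQd

theorem aJb : S_Jb := sJb aDt aDd aLa aWv aNz aQd aRel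

theorem aDn : S_Dn := sDn aXi aPw aSc aNz aPer

theorem aTs : S_Ts := sTs aDn aNz

theorem aTy : S_Ty := sTy aFy aDn aTB aNm

theorem aRi : S_Ri := sRi aDn aRea

theorem aJc : S_Jc := sJc aDn aTs aHa aJb aIm aDd aPw

theorem aFc : S_Fc := sFc

theorem aSy : S_Sy := sSy aCh aPol aNm aBh aP0 aGd aIv aLi adB aTs aTy aRi aJc aFc aFy

theorem aGy : S_Gy := sGy aGeoY aPer

theorem aRg : S_Rg := sRg aGn aSel

theorem aQN : S_QN := sQN aRg aSy aGy aAbs aCasN aTwo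

end Pool.Agent.MP62a5ad.QN
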