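import Pool.Agent.Lib.MP_62a5ad_mp.QN.SpecF

/-!
# MP_62a5ad_mp, QN/BkA: the block of the inverse, algebra
-/

set_option autoImplicit false

namespace Pool.Agent.MP62a5ad.QN

open Matrix

namespace BkAAux

variable {ι κ : Type} [Fintype ι] [DecidableEq ι] [Fintype κ] [DecidableEq κ]

omit [Fintype ι] [DecidableEq ι] [Fintype κ] [DecidableEq κ] in
theorem blk_transpose (Ω : Matrix ι ι ℝ) (D : Matrix κ ι ℝ) (hΩ : Ωᵀ = -Ω) :
    (blk Ω D)ᵀ = -blk Ω D := by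
  unfold blk
  rw [Matrix.fromBlocks_transpose, Matrix.fromBlocks_neg, hΩ, Matrix.transpose_neg,
    Matrix.transpose_transpose, Matrix.transpose_zero, neg_neg, neg_zero]

theorem inv_transpose (Ω : Matrix ι ι ℝ) (D : Matrix κ ι ℝ) (hΩ : Ωᵀ = -Ω)
    (hdet : (blk Ω D).det ≠ 0) :
    ((blk Ω D)⁻¹)ᵀ = -(blk Ω D)⁻¹ := by
  rw [Matrix.transpose_nonsing_inv, blk_transpose Ω D hΩ]
  apply Matrix.inv_eq_right_inv
  rw [neg_mul_neg, Matrix.mul_nonsing_inv _ (isUnit_iff_ne_zero.2 hdet)]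

/-- The blocks of the inverse. -/
theorem eqs (Ω : Matrix ι ι ℝ) (D : Matrix κ ι ℝ) (hdet : (blk Ω D).det ≠ 0) :
    ∃ (R : Matrix ι κ ℝ) (S : Matrix κ ι ℝ), Ω * bpi Ω D - Dᵀ * S = 1 ∧ D * bpi Ω D = 0 ∧
      D * R = 1 ∧ bpi Ω D * Ω + R * D = 1 ∧ bpi Ω D * Dᵀ = 0 := by
  have hu : IsUnit (blk Ω D).det := isUnit_iff_ne_zero.2 hdet
  have h1 : blk Ω D * (blk Ω D)⁻¹ = 1 := Matrix.mul_nonsing_inv _ hu
  have h2 : (blk Ω D)⁻¹ * blk Ω D = 1 := Matrix.nonsing_inv_mul _ hu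
  rw [← Matrix.fromBlocks_toBlocks (blk Ω D)⁻¹, ← Matrix.fromBlocks_one] at h1 h2
  set R := ((blk Ω D)⁻¹).toBlocks₁₂ with hR
  set S := ((blk Ω D)⁻¹).toBlocks₂₁ with hS
  set T := ((blk Ω D)⁻¹).toBlocks₂₂ with hT
  have hπ : ((blk Ω D)⁻¹).toBlocks₁₁ = bpi Ω D := rfl
  rw [hπ] at h1 h2
  unfold blk at h1 h2
  rw [Matrix.fromBlocks_multiply, Matrix.fromBlocks_inj] at h1 h2
  obtain ⟨a1, a2, a3, a4⟩ := h1
  obtain ⟨b1, b2, b3, b4⟩ := h2
  refine ⟨R, S, ?_, ?_, ?_, ?_, ?_⟩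
  · rw [← a1, Matrix.neg_mul, sub_eq_add_neg]
  · rw [Matrix.zero_mul, add_zero] at a3
    exact a3
  · rw [Matrix.zero_mul, add_zero] at a4
    exact a4
  · exact b1
  · rw [Matrix.mul_zero, add_zero, Matrix.mul_neg, neg_eq_zero] at b2
    exact b2

end BkAAux

open BkAAux in
theorem tBkA : S_BkA := by
  intro ι κ _ _ _ _ Ω D hΩ hdet
  obtain ⟨R, S, e1, e2, e3, e4, e5⟩ := eqs Ω D hdet
  have key : ∀ v : ι → ℝ, D *ᵥ v = 0 → bpi Ω D *ᵥ (Ω *ᵥ v) = v := by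
    intro v hv
    have h := congrArg (fun M : Matrix ι ι ℝ => M *ᵥ v) e4
    simp only [Matrix.add_mulVec, Matrix.one_mulVec] at h
    rw [← Matrix.mulVec_mulVec, ← Matrix.mulVec_mulVec, hv, Matrix.mulVec_zero, add_zero] at h
    exact h
  refine ⟨?_, e2, key, ?_, ?_⟩
  · have h := inv_transpose Ω D hΩ hdet
    ext i j
    have := congrFun (congrFun h (Sum.inl i)) (Sum.inl j)
    exact this
  · intro X hX hXv
    have h1 : X = X * Ω * bpi Ω D := by
      have h := congrArg (fun M : Matrix ι ι ℝ => X * M) e1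
      simp only [Matrix.mul_sub, Matrix.mul_one] at h
      rw [← Matrix.mul_assoc, ← Matrix.mul_assoc, hX, Matrix.zero_mul, sub_zero] at h
      exact h.symm
    rw [h1]
    ext i j
    have h2 : D *ᵥ (fun k => bpi Ω D k j) = 0 := by
      funext k
      exact congrFun (congrFun e2 k) j
    have h3 := congrFun (hXv _ h2) i
    rw [Matrix.mulVec_mulVec] at h3
    exact h3
  · have hrange : LinearMap.range (bpi Ω D).mulVecLin = LinearMap.ker D.mulVecLin := by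
      ext v
      constructor
      · rintro ⟨w, rfl⟩
        rw [LinearMap.mem_ker, Matrix.mulVecLin_apply, Matrix.mulVecLin_apply, Matrix.mulVec_mulVec,
          e2, Matrix.zero_mulVec]
      · intro hv
        exact ⟨Ω *ᵥ v, key v (by simpa using hv)⟩
    have hsurj : LinearMap.range D.mulVecLin = ⊤ := by
      rw [LinearMap.range_eq_top]
      intro u
      refine ⟨R *ᵥ u, ?_⟩
      rw [Matrix.mulVecLin_apply, Matrix.mulVec_mulVec, e3, Matrix.one_mulVec]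
    have hrn := LinearMap.finrank_range_add_finrank_ker D.mulVecLin
    rw [hsurj, finrank_top, Module.finrank_pi, Module.finrank_pi, ← hrange] at hrn
    unfold Matrix.rank
    omega

end Pool.Agent.MP62a5ad.QN
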