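import Pool.Agent.Lib.MP_62a5ad_mp.QN.SpecF

/-!
# MP_62a5ad_mp, QN/BkJ: the block of the inverse is a Poisson structure
-/

set_option autoImplicit false

namespace Pool.Agent.MP62a5ad.QN

open Matrix
open scoped ContDiff

namespace BkJAux

section Cal

variable {ι : Type} [Fintype ι] [DecidableEq ι] {U : Set (ι → ℝ)}

theorem smooth_pd (hU : IsOpen U) {F : (ι → ℝ) → ℝ} (hF : ContDiffOn ℝ ∞ F U) (i : ι) :
    ContDiffOn ℝ ∞ (fun y => pd F i y) U := by
  have h1 : ContDiffOn ℝ ∞ (fderiv ℝ F) U := hF.fderiv_of_isOpen hU (by simp)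
  exact h1.clm_apply contDiffOn_const

omit [DecidableEq ι] in
theorem diff (hU : IsOpen U) {F : (ι → ℝ) → ℝ} (hF : ContDiffOn ℝ ∞ F U) {y : ι → ℝ}
    (hy : y ∈ U) : DifferentiableAt ℝ F y :=
  (hF.contDiffAt (hU.mem_nhds hy)).differentiableAt (by norm_num)

theorem pd_neg (F : (ι → ℝ) → ℝ) (i : ι) (y : ι → ℝ) : pd (fun x => -F x) i y = -pd F i y := by
  unfold pd
  rw [fderiv_fun_neg]
  rfl

omit [Fintype ι] in
theorem pd_const (c : ℝ) (i : ι) (y : ι → ℝ) : pd (fun _ => c) i y = 0 := by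
  unfold pd
  rw [fderiv_fun_const]
  rfl

theorem pd_mul {F G : (ι → ℝ) → ℝ} {y : ι → ℝ} (hF : DifferentiableAt ℝ F y)
    (hG : DifferentiableAt ℝ G y) (i : ι) :
    pd (fun x => F x * G x) i y = pd F i y * G y + F y * pd G i y := by
  unfold pd
  rw [fderiv_fun_mul hF hG]
  simp only [_root_.add_apply, _root_.smul_apply, smul_eq_mul]
  ring

theorem pd_sum {α : Type} (s : Finset α) {f : α → (ι → ℝ) → ℝ} {y : ι → ℝ}
    (h : ∀ a ∈ s, DifferentiableAt ℝ (f a) y) (i : ι) :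
    pd (fun x => ∑ a ∈ s, f a x) i y = ∑ a ∈ s, pd (f a) i y := by
  unfold pd
  rw [fderiv_fun_sum h]
  simp only [_root_.sum_apply]

omit [Fintype ι] in
theorem pd_congr {F G : (ι → ℝ) → ℝ} {y : ι → ℝ} (h : F =ᶠ[nhds y] G) (i : ι) :
    pd F i y = pd G i y := by
  unfold pd
  rw [h.fderiv_eq]

theorem pd_pd (hU : IsOpen U) {F : (ι → ℝ) → ℝ} (hF : ContDiffOn ℝ ∞ F U) {y : ι → ℝ}
    (hy : y ∈ U) (i k : ι) : pd (fun x => pd F i x) k y =
      (fderiv ℝ (fderiv ℝ F) y (Pi.single k 1)) (Pi.single i 1) := by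
  have h0 : ContDiffAt ℝ ∞ F y := hF.contDiffAt (hU.mem_nhds hy)
  have h1 : ContDiffAt ℝ 1 (fderiv ℝ F) y := h0.fderiv_right (m := 1) (by norm_cast)
  have h2 := (h1.differentiableAt (by norm_num)).hasFDerivAt
  have h3 := (h2.clm_apply (hasFDerivAt_const (Pi.single i (1 : ℝ) : ι → ℝ) y)).fderiv
  unfold pd
  rw [h3]
  simp

theorem sym (hU : IsOpen U) {F : (ι → ℝ) → ℝ} (hF : ContDiffOn ℝ ∞ F U) {y : ι → ℝ}
    (hy : y ∈ U) (i k : ι) : pd (fun x => pd F i x) k y = pd (fun x => pd F k x) i y := by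
  rw [pd_pd hU hF hy, pd_pd hU hF hy]
  have h1 : ContDiffAt ℝ ∞ F y := hF.contDiffAt (hU.mem_nhds hy)
  have h2 : IsSymmSndFDerivAt ℝ F y := h1.isSymmSndFDerivAt (by
    rw [minSmoothness_of_isRCLikeNormedField]
    norm_cast)
  exact h2 _ _

end Cal

section Inv

variable {ι : Type} [Fintype ι] [DecidableEq ι] {U : Set (ι → ℝ)}
  {μ : Type} [Fintype μ] [DecidableEq μ] {A : (ι → ℝ) → Matrix μ μ ℝ}

omit [DecidableEq ι] in
theorem smooth_det (hA : ∀ i j, ContDiffOn ℝ ∞ (fun y => A y i j) U) :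
    ContDiffOn ℝ ∞ (fun y => (A y).det) U := by
  simp only [Matrix.det_apply']
  exact ContDiffOn.sum fun σ _ => contDiffOn_const.mul (contDiffOn_prod fun i _ => hA _ _)

omit [DecidableEq ι] in
theorem smooth_inv (hA : ∀ i j, ContDiffOn ℝ ∞ (fun y => A y i j) U)
    (hdet : ∀ y ∈ U, (A y).det ≠ 0) (i j : μ) : ContDiffOn ℝ ∞ (fun y => (A y)⁻¹ i j) U := by
  have h1 : ∀ y, (A y)⁻¹ i j = ((A y).det)⁻¹ * (A y).adjugate i j := fun y => by
    rw [Matrix.inv_def, Ring.inverse_eq_inv', Matrix.smul_apply, smul_eq_mul]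
  simp only [h1]
  refine ((smooth_det hA).inv hdet).mul ?_
  simp only [Matrix.adjugate_apply]
  refine smooth_det (A := fun y => (A y).updateRow j (Pi.single i 1)) fun a b => ?_
  by_cases h : a = j
  · subst h
    simp only [Matrix.updateRow_self]
    exact contDiffOn_const
  · simp only [Matrix.updateRow_ne h]
    exact hA a b

/-- The derivative of the inverse. -/
theorem pd_inv (hU : IsOpen U) (hA : ∀ i j, ContDiffOn ℝ ∞ (fun y => A y i j) U)
    (hdet : ∀ y ∈ U, (A y).det ≠ 0) {y : ι → ℝ} (hy : y ∈ U) (l : ι) (J K : μ) :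
    pd (fun x => (A x)⁻¹ J K) l y =
      -∑ M, ∑ N, (A y)⁻¹ J M * pd (fun x => A x M N) l y * (A y)⁻¹ N K := by
  have hB := smooth_inv hA hdet
  have h0 : ∀ M K, ∑ N, (pd (fun x => A x M N) l y * (A y)⁻¹ N K +
      A y M N * pd (fun x => (A x)⁻¹ N K) l y) = 0 := by
    intro M K
    have h1 : (fun x => ∑ N, A x M N * (A x)⁻¹ N K) =ᶠ[nhds y]
        fun _ => (1 : Matrix μ μ ℝ) M K := by
      filter_upwards [hU.mem_nhds hy] with x hx
      rw [← Matrix.mul_apply, Matrix.mul_nonsing_inv _ (isUnit_iff_ne_zero.2 (hdet x hx))]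
    have h2 := pd_congr h1 l
    rw [pd_sum (f := fun N x => A x M N * (A x)⁻¹ N K) _
      (fun N _ => (diff hU (hA M N) hy).mul (diff hU (hB N K) hy)), pd_const] at h2
    rw [← h2]
    exact Finset.sum_congr rfl fun N _ =>
      (pd_mul (diff hU (hA M N) hy) (diff hU (hB N K) hy) l).symm
  let dA : Matrix μ μ ℝ := Matrix.of fun M N => pd (fun x => A x M N) l y
  let dB : Matrix μ μ ℝ := Matrix.of fun M N => pd (fun x => (A x)⁻¹ M N) l y
  have h1 : dA * (A y)⁻¹ + A y * dB = 0 := by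
    ext M K
    rw [Matrix.add_apply, Matrix.mul_apply, Matrix.mul_apply, ← Finset.sum_add_distrib]
    exact h0 M K
  have h2 : dB = -((A y)⁻¹ * dA * (A y)⁻¹) := by
    have h3 := congrArg (fun X => (A y)⁻¹ * X) h1
    simp only [Matrix.mul_add, Matrix.mul_zero] at h3
    rw [← Matrix.mul_assoc, ← Matrix.mul_assoc,
      Matrix.nonsing_inv_mul _ (isUnit_iff_ne_zero.2 (hdet y hy)), Matrix.one_mul] at h3
    exact eq_neg_of_add_eq_zero_right h3
  have h4 := congrFun (congrFun h2 J) K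
  change dB J K = _
  rw [h4, Matrix.neg_apply, Matrix.mul_apply]
  simp only [Matrix.mul_apply, Finset.sum_mul]
  rw [Finset.sum_comm]
  rfl

omit [DecidableEq μ] in
theorem rot (f : μ → μ → μ → ℝ) : ∑ L, ∑ M, ∑ N, f L M N = ∑ L, ∑ M, ∑ N, f M N L := by
  rw [Finset.sum_comm (f := fun L M => ∑ N, f M N L)]
  refine Finset.sum_congr rfl fun M _ => ?_
  rw [Finset.sum_comm]

end Inv

section Sk

variable {ι κ : Type} [Fintype ι] [DecidableEq ι] [Fintype κ] [DecidableEq κ]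

theorem inv_skew (Ω : Matrix ι ι ℝ) (D : Matrix κ ι ℝ) (hΩ : Ωᵀ = -Ω)
    (hdet : (blk Ω D).det ≠ 0) (I J : ι ⊕ κ) : (blk Ω D)⁻¹ J I = -(blk Ω D)⁻¹ I J := by
  have h1 : (blk Ω D)ᵀ = -blk Ω D := by
    unfold blk
    rw [Matrix.fromBlocks_transpose, Matrix.fromBlocks_neg, hΩ, Matrix.transpose_neg,
      Matrix.transpose_transpose, Matrix.transpose_zero, neg_neg, neg_zero]
  have h2 : ((blk Ω D)⁻¹)ᵀ = -(blk Ω D)⁻¹ := by
    rw [Matrix.transpose_nonsing_inv, h1]
    apply Matrix.inv_eq_right_inv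
    rw [neg_mul_neg, Matrix.mul_nonsing_inv _ (isUnit_iff_ne_zero.2 hdet)]
  exact congrFun (congrFun h2 I) J

end Sk

end BkJAux

open BkJAux in
theorem tBkJ (hJcT : S_JcT) (_hBkA : S_BkA) : S_BkJ := by
  intro ι κ _ _ _ _ U Ω Z hU hΩ hsk hcl hZ hdet
  let A : (ι → ℝ) → Matrix (ι ⊕ κ) (ι ⊕ κ) ℝ := fun y => blk (Ω y) (gZ Z y)
  have hA : ∀ I J, ContDiffOn ℝ ∞ (fun y => A y I J) U := by
    rintro (i | i) (j | j)
    · exact hΩ i j
    · exact (smooth_pd hU (hZ j) i).neg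
    · exact smooth_pd hU (hZ i) j
    · exact contDiffOn_const
  have hB := smooth_inv hA hdet
  have hBsk : ∀ y ∈ U, ∀ I J, (A y)⁻¹ J I = -(A y)⁻¹ I J := fun y hy =>
    inv_skew (Ω y) (gZ Z y) (hsk y hy) (hdet y hy)
  refine hJcT ι U _ hU (fun i j => hB (Sum.inl i) (Sum.inl j)) (fun y hy i j => hBsk y hy _ _) ?_
  intro y hy i j k
  let a : ι ⊕ κ → ι ⊕ κ → ι ⊕ κ → ℝ := fun L M N =>
    Sum.elim (fun l => pd (fun x => A x M N) l y) (fun _ => 0) L
  have hcyc : ∀ L M N, a L M N + a M N L + a N L M = 0 := by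
    have key : ∀ (k : κ) (l m : ι),
        pd (fun x => A x (Sum.inl m) (Sum.inr k)) l y +
          pd (fun x => A x (Sum.inr k) (Sum.inl l)) m y = 0 := by
      intro k l m
      change pd (fun x => -pd (Z k) m x) l y + pd (fun x => pd (Z k) l x) m y = 0
      rw [pd_neg, sym hU (hZ k) hy m l]
      ring
    have zer : ∀ (k k' : κ) (l : ι), pd (fun x => A x (Sum.inr k) (Sum.inr k')) l y = 0 :=
      fun k k' l => pd_const 0 l y
    rintro (l | l) (m | m) (n | n)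
    · exact hcl y hy l m n
    · have := key n l m
      simp only [a, Sum.elim_inl, Sum.elim_inr, add_zero]
      exact this
    · have := key m n l
      simp only [a, Sum.elim_inl, Sum.elim_inr, add_zero]
      rw [add_comm]
      exact this
    · simp only [a, Sum.elim_inl, Sum.elim_inr, add_zero, zer]
    · have := key l m n
      simp only [a, Sum.elim_inl, Sum.elim_inr, zero_add]
      exact this
    · simp only [a, Sum.elim_inl, Sum.elim_inr, add_zero, zer]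
    · simp only [a, Sum.elim_inl, Sum.elim_inr, add_zero, zer]
    · simp only [a, Sum.elim_inr, add_zero]
  have hterm : ∀ I J K, ∑ l, (A y)⁻¹ I (Sum.inl l) * pd (fun x => (A x)⁻¹ J K) l y =
      ∑ L, ∑ M, ∑ N, (A y)⁻¹ I L * (A y)⁻¹ J M * (A y)⁻¹ K N * a L M N := by
    intro I J K
    rw [Fintype.sum_sum_type]
    have hz : ∑ r : κ, ∑ M, ∑ N,
        (A y)⁻¹ I (Sum.inr r) * (A y)⁻¹ J M * (A y)⁻¹ K N * a (Sum.inr r) M N = 0 := by
      refine Finset.sum_eq_zero fun r _ => Finset.sum_eq_zero fun M _ =>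
        Finset.sum_eq_zero fun N _ => ?_
      simp only [a, Sum.elim_inr, mul_zero]
    rw [hz, add_zero]
    refine Finset.sum_congr rfl fun l _ => ?_
    rw [pd_inv hU hA hdet hy l J K, mul_neg, Finset.mul_sum, ← Finset.sum_neg_distrib]
    refine Finset.sum_congr rfl fun M _ => ?_
    rw [Finset.mul_sum, ← Finset.sum_neg_distrib]
    refine Finset.sum_congr rfl fun N _ => ?_
    rw [hBsk y hy K N]
    simp only [a, Sum.elim_inl]
    ring
  have e1 := hterm (Sum.inl i) (Sum.inl j) (Sum.inl k)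
  have e2 := hterm (Sum.inl j) (Sum.inl k) (Sum.inl i)
  have e3 := hterm (Sum.inl k) (Sum.inl i) (Sum.inl j)
  rw [rot] at e2
  rw [rot, rot] at e3
  rw [Finset.sum_add_distrib, Finset.sum_add_distrib]
  refine (congrArg₂ (· + ·) (congrArg₂ (· + ·) e1 e2) e3).trans ?_
  rw [← Finset.sum_add_distrib, ← Finset.sum_add_distrib]
  refine Finset.sum_eq_zero fun L _ => ?_
  rw [← Finset.sum_add_distrib, ← Finset.sum_add_distrib]
  refine Finset.sum_eq_zero fun M _ => ?_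
  rw [← Finset.sum_add_distrib, ← Finset.sum_add_distrib]
  refine Finset.sum_eq_zero fun N _ => ?_
  have h := hcyc L M N
  linear_combination ((A y)⁻¹ (Sum.inl i) L * (A y)⁻¹ (Sum.inl j) M * (A y)⁻¹ (Sum.inl k) N) * h

end Pool.Agent.MP62a5ad.QN
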