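import Pool.Agent.Lib.MP_62a5ad_mp.QN.SpecF

/-!
# MP_62a5ad_mp, QN/BkN: when is `blk Ω D` invertible?
-/

set_option autoImplicit false

namespace Pool.Agent.MP62a5ad.QN

open Matrix

namespace BkNAux

variable {K : Type} [Field K] {ι κ : Type} [Fintype ι] [DecidableEq ι] [Fintype κ] [DecidableEq κ]

omit [DecidableEq ι] [DecidableEq κ] in
theorem blk_mulVec (Ω : Matrix ι ι K) (D : Matrix κ ι K) (v : ι → K) (l : κ → K) :
    blk Ω D *ᵥ Sum.elim v l = Sum.elim (Ω *ᵥ v - Dᵀ *ᵥ l) (D *ᵥ v) := by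
  unfold blk
  rw [Matrix.fromBlocks_mulVec]
  simp only [Sum.elim_comp_inl, Sum.elim_comp_inr, Matrix.neg_mulVec, Matrix.zero_mulVec, add_zero,
    sub_eq_add_neg]

/-- Duality: a vector which is orthogonal to the kernel of `D` is in the row space. -/
theorem dual (D : Matrix κ ι K) (u : ι → K) (h : ∀ w : ι → K, D *ᵥ w = 0 → w ⬝ᵥ u = 0) :
    ∃ l : κ → K, Dᵀ *ᵥ l = u := by
  let φ : Module.Dual K (ι → K) := ∑ i, u i • LinearMap.proj i
  have hφ : ∀ w : ι → K, φ w = w ⬝ᵥ u := fun w => by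
    simp only [φ, LinearMap.sum_apply, LinearMap.smul_apply, LinearMap.proj_apply, smul_eq_mul,
      dotProduct, mul_comm]
  have hmem : φ ∈ (LinearMap.ker D.mulVecLin).dualAnnihilator := by
    rw [Submodule.mem_dualAnnihilator]
    intro w hw
    rw [hφ]
    exact h w (by simpa using hw)
  rw [← LinearMap.range_dualMap_eq_dualAnnihilator_ker] at hmem
  obtain ⟨ψ, hψ⟩ := hmem
  refine ⟨fun k => ψ (Pi.single k 1), ?_⟩
  funext i
  have h1 : φ (Pi.single i 1) = u i := by
    rw [hφ, single_one_dotProduct]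
  rw [← h1, ← hψ, LinearMap.dualMap_apply, Matrix.mulVecLin_apply, Matrix.mulVec_single_one]
  conv_rhs => rw [pi_eq_sum_univ (D.col i)]
  rw [map_sum]
  simp only [Matrix.mulVec, dotProduct, Matrix.transpose_apply, map_smul, smul_eq_mul]
  refine Finset.sum_congr rfl fun k _ => ?_
  congr 2
  funext j
  simp only [Pi.single_apply, eq_comm]

end BkNAux

open BkNAux in
theorem tBkN : S_BkN := by
  intro K _ ι κ _ _ _ _ Ω D
  constructor
  · intro h
    have hker : ∀ x : ι ⊕ κ → K, blk Ω D *ᵥ x = 0 → x = 0 := by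
      intro x hx
      by_contra hne
      exact h (Matrix.exists_mulVec_eq_zero_iff.1 ⟨x, hne, hx⟩)
    refine ⟨fun l hl => ?_, fun v hv hw => ?_⟩
    · have := hker (Sum.elim 0 l) (by
        rw [blk_mulVec, hl, Matrix.mulVec_zero, Matrix.mulVec_zero, sub_zero]
        funext i; cases i <;> rfl)
      funext k
      exact congrFun this (Sum.inr k)
    · obtain ⟨l, hl⟩ := dual D (Ω *ᵥ v) hw
      have := hker (Sum.elim v l) (by
        rw [blk_mulVec, hl, hv, sub_self]
        funext i; cases i <;> rfl)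
      funext i
      exact congrFun this (Sum.inl i)
  · rintro ⟨h1, h2⟩ hdet
    obtain ⟨x, hne, hx⟩ := Matrix.exists_mulVec_eq_zero_iff.2 hdet
    apply hne
    have hxe : x = Sum.elim (x ∘ Sum.inl) (x ∘ Sum.inr) := by
      rw [Sum.elim_comp_inl_inr]
    set v := x ∘ Sum.inl with hvdef
    set l := x ∘ Sum.inr with hldef
    rw [hxe, blk_mulVec] at hx
    have hv1 : Ω *ᵥ v - Dᵀ *ᵥ l = 0 := by
      funext i; exact congrFun hx (Sum.inl i)
    have hv2 : D *ᵥ v = 0 := by
      funext i; exact congrFun hx (Sum.inr i)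
    have hv : v = 0 := by
      refine h2 v hv2 fun w hw => ?_
      rw [sub_eq_zero.1 hv1, Matrix.mulVec_transpose, dotProduct_comm, ← Matrix.dotProduct_mulVec,
        hw, dotProduct_zero]
    have hl : l = 0 := by
      apply h1
      rw [hv, Matrix.mulVec_zero, zero_sub, neg_eq_zero] at hv1
      exact hv1
    rw [hxe, hv, hl]
    funext i; cases i <;> rfl

end Pool.Agent.MP62a5ad.QN
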