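import Pool.Agent.Lib.MP_62a5ad_mp.QN.SpecF

/-!
# MP_62a5ad_mp, QN/CasN: the offsets of `T_{I,I}`, `I = (a, b)`
-/

set_option autoImplicit false

namespace Pool.Agent.MP62a5ad.QN

open Pool.Agent.MP62a5ad.PN (V4 plane)

namespace CasNAux

theorem swap23 (x y z : V4) : ({x, y, z} : Set V4) = {x, z, y} := by
  ext w
  simp only [Set.mem_insert_iff, Set.mem_singleton_iff]
  tauto

theorem rot (x y z : V4) : ({x, y, z} : Set V4) = {y, z, x} := by
  ext w
  simp only [Set.mem_insert_iff, Set.mem_singleton_iff]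
  tauto

/-- `n` divides `a`. -/
theorem plane1 (n a b e : ℕ) (he : a = n * e) (v : ℤ → V4) (j : ℤ) :
    plane a b v j = Tri n e ((a : ℤ) + b) v j := by
  have h : (a : ℤ) = (n : ℤ) * e := by exact_mod_cast he
  unfold plane Tri
  rw [show j + (a : ℤ) + b = j + ((a : ℤ) + b) by ring, h]

/-- `n` divides `a + b`. -/
theorem plane2 (n a b e : ℕ) (he : a + b = n * e) (v : ℤ → V4) (j : ℤ) :
    plane a b v j = Tri n e (a : ℤ) v j := by
  have h : (a : ℤ) + b = (n : ℤ) * e := by exact_mod_cast he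
  unfold plane Tri
  rw [show j + (a : ℤ) + b = j + ((a : ℤ) + b) by ring, h, swap23]

/-- `n` divides `b`. -/
theorem plane3 (n a b e : ℕ) (he : b = n * e) (v : ℤ → V4) (j : ℤ) :
    plane a b v j = Tri n e (-(a : ℤ)) v (j + a) := by
  have h : (b : ℤ) = (n : ℤ) * e := by exact_mod_cast he
  unfold plane Tri
  rw [h, show j + (a : ℤ) + -(a : ℤ) = j by ring, rot]

end CasNAux

open CasNAux in
/-- The offsets. -/
theorem tCasN : S_CasN := by
  intro n a b hn ha hb hcase
  rcases hcase with ⟨⟨e, he⟩, hc⟩ | ⟨⟨e, he⟩, hc⟩ | ⟨⟨e, he⟩, hc⟩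
  · -- `n ∣ a`
    have hz : (a : ℤ) = (n : ℤ) * e := by exact_mod_cast he
    refine ⟨e, (a : ℤ) + b, 0, ?_, ?_, Or.inl rfl, ?_⟩
    · rcases Nat.eq_zero_or_pos e with h0 | h0
      · rw [h0, mul_zero] at he
        omega
      · exact h0
    · have h1 : IsCoprime (b : ℤ) (n : ℤ) := (Nat.isCoprime_iff_coprime.2 hc).symm
      have h2 := h1.add_mul_left_left (e : ℤ)
      rw [hz, add_comm]
      exact h2
    · intro v w h k
      obtain ⟨h1, h2, h3⟩ := h k
      have hk : k + ((a : ℤ) + b) * 0 = k := by ring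
      simp only [hk]
      refine ⟨by rw [plane1 n a b e he]; exact h1, h2, ?_⟩
      rw [plane1 n a b e he, plane1 n a b e he, plane1 n a b e he, ← h3,
        show k + (a : ℤ) + b = k + ((a : ℤ) + b) by ring, show k + (a : ℤ) = k + (n : ℤ) * e by rw [hz]]
  · -- `n ∣ b`
    have hz : (b : ℤ) = (n : ℤ) * e := by exact_mod_cast he
    refine ⟨e, -(a : ℤ), -2, ?_, ?_, Or.inr rfl, ?_⟩
    · rcases Nat.eq_zero_or_pos e with h0 | h0
      · rw [h0, mul_zero] at he
        omega
      · exact h0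
    · have h1 : IsCoprime (a : ℤ) (n : ℤ) := (Nat.isCoprime_iff_coprime.2 hc).symm
      exact h1.neg_left
    · intro v w h k
      obtain ⟨h1, -, -⟩ := h (k + a)
      obtain ⟨-, h2, h3⟩ := h (k + -(a : ℤ) * -2)
      refine ⟨by rw [plane3 n a b e he]; exact h1, h2, ?_⟩
      rw [plane3 n a b e he, plane3 n a b e he, plane3 n a b e he, ← h3,
        show k + (a : ℤ) + b + a = k + -(a : ℤ) * -2 + (n : ℤ) * e by rw [hz]; ring,
        show k + (a : ℤ) + a = k + -(a : ℤ) * -2 by ring,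
        show k + -(a : ℤ) * -2 + -(a : ℤ) = k + a by ring]
      rw [inf_comm (Tri n e (-(a : ℤ)) v (k + (a : ℤ))), inf_assoc,
        inf_comm (Tri n e (-(a : ℤ)) v (k + (a : ℤ))), ← inf_assoc]
  · -- `n ∣ a + b`
    have hz : (a : ℤ) + b = (n : ℤ) * e := by exact_mod_cast he
    refine ⟨e, (a : ℤ), 0, ?_, ?_, Or.inl rfl, ?_⟩
    · rcases Nat.eq_zero_or_pos e with h0 | h0
      · rw [h0, mul_zero] at he
        omega
      · exact h0
    · exact (Nat.isCoprime_iff_coprime.2 hc).symm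
    · intro v w h k
      obtain ⟨h1, h2, h3⟩ := h k
      have hk : k + (a : ℤ) * 0 = k := by ring
      simp only [hk]
      refine ⟨by rw [plane2 n a b e he]; exact h1, h2, ?_⟩
      rw [plane2 n a b e he, plane2 n a b e he, plane2 n a b e he, ← h3,
        show k + (a : ℤ) + b = k + (n : ℤ) * e by rw [← hz]; ring]
      rw [inf_assoc, inf_comm (Tri n e (a : ℤ) v (k + (a : ℤ))), ← inf_assoc]

end Pool.Agent.MP62a5ad.QN
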