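import Pool.Agent.Lib.MP_62a5ad_mp.QN.SpecF

/-!
# MP_62a5ad_mp, QN: normal form of a twisted polygon
-/

set_option autoImplicit false

namespace Pool.Agent.MP62a5ad.QN

open Matrix
open Pool.Agent.MP62a5ad.PN (V4 M4 e0)

namespace ChAAux

/-- The companion matrix. -/
def cm (a : V4) : M4 := !![0, 0, 0, a 0; 1, 0, 0, a 1; 0, 1, 0, a 2; 0, 0, 1, a 3]

/-- The diagonal matrix `1, r, r², r³`. -/
def dg (r : ℝ) : M4 := Matrix.diagonal ![1, r, r ^ 2, r ^ 3]

variable {n : ℕ} [NeZero n]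

lemma npos : (0 : ℤ) < (n : ℤ) := by
  have := NeZero.pos n
  exact_mod_cast this

/-- The polygon with the monodromy `M'` and the vertices `p`. -/
noncomputable def plg (M' : M4) (p : Fin n → V4) (k : ℤ) : V4 :=
  M' ^ (k / (n : ℤ)) *ᵥ p (rs n k)

lemma plg_step (M' : M4) (hM : IsUnit M'.det) (p : Fin n → V4) (k : ℤ) :
    plg M' p (k + n) = M' *ᵥ plg M' p k := by
  unfold plg
  have hn : (n : ℤ) ≠ 0 := (npos (n := n)).ne'
  have h1 : (k + n) / (n : ℤ) = 1 + k / n := by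
    rw [Int.add_ediv_of_dvd_right (dvd_refl _), Int.ediv_self hn]
    ring
  have h2 : rs n (k + n) = rs n k := by
    unfold rs
    rw [Int.add_emod_right]
  rw [h1, h2, Matrix.mulVec_mulVec, Matrix.zpow_one_add hM]

lemma plg_fin (M' : M4) (p : Fin n → V4) (j : Fin n) : plg M' p ((j : ℕ) : ℤ) = p j := by
  have h0 : (0 : ℤ) ≤ ((j : ℕ) : ℤ) := Int.natCast_nonneg _
  have h1 : ((j : ℕ) : ℤ) < (n : ℤ) := by exact_mod_cast j.2
  unfold plg
  rw [Int.ediv_eq_zero_of_lt h0 h1]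
  have h2 : rs n ((j : ℕ) : ℤ) = j := by
    unfold rs
    rw [Int.emod_eq_of_lt h0 h1, Int.toNat_natCast]
    apply Fin.ext
    simp [Fin.ofNat, Nat.mod_eq_of_lt j.2]
  rw [h2]
  simp

/-- Induction for twisted polygons. -/
lemma ind (P : ℤ → Prop) (h0 : ∀ j : Fin n, P ((j : ℕ) : ℤ)) (h : ∀ k, P k ↔ P (k + n)) :
    ∀ k, P k := by
  have key : ∀ q : ℤ, ∀ j : Fin n, P (((j : ℕ) : ℤ) + n * q) := by
    intro q
    induction q using Int.induction_on with
    | zero => intro j; simpa using h0 j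
    | succ i ih =>
      intro j
      have := (h _).1 (ih j)
      have e : ((j : ℕ) : ℤ) + (n : ℤ) * (↑i + 1) = ((j : ℕ) : ℤ) + n * ↑i + n := by ring
      rw [e]; exact this
    | pred i ih =>
      intro j
      have e : ((j : ℕ) : ℤ) + (n : ℤ) * (-↑i - 1) + n = ((j : ℕ) : ℤ) + n * -↑i := by ring
      exact (h _).2 (by rw [e]; exact ih j)
  intro k
  have hn := npos (n := n)
  have hk0 : 0 ≤ k % (n : ℤ) := Int.emod_nonneg _ hn.ne'
  have hk1 : k % (n : ℤ) < n := Int.emod_lt_of_pos _ hn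
  have hlt : (k % (n : ℤ)).toNat < n := by omega
  have := key (k / n) ⟨(k % (n : ℤ)).toNat, hlt⟩
  have e : (((⟨(k % (n : ℤ)).toNat, hlt⟩ : Fin n) : ℕ) : ℤ) + n * (k / n) = k := by
    show (((k % (n : ℤ)).toNat : ℕ) : ℤ) + n * (k / n) = k
    rw [Int.toNat_of_nonneg hk0]
    exact Int.emod_add_mul_ediv k n
  rw [e] at this
  exact this

lemma mul_kry (x : Pt n) (hK : IsUnit (kry n x).det) :
    (Matrix.of x.2 : M4) * kry n x = kry n x * cm (ac n x) := by
  have hcol : ∀ (j : Fin 4) , ((Matrix.of x.2 : M4) * kry n x).col j =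
      (Matrix.of x.2 : M4) ^ ((j : ℕ) + 1) *ᵥ x.1 0 := by
    intro j
    have hk : (kry n x).col j = (Matrix.of x.2 : M4) ^ (j : ℕ) *ᵥ x.1 0 := by
      funext i; rfl
    have : ((Matrix.of x.2 : M4) * kry n x).col j = (Matrix.of x.2 : M4) *ᵥ (kry n x).col j := by
      funext i
      rfl
    rw [this, hk, Matrix.mulVec_mulVec, pow_succ']
  have hlast : kry n x *ᵥ ac n x = (Matrix.of x.2 : M4) ^ 4 *ᵥ x.1 0 := by
    unfold ac
    rw [Matrix.mulVec_mulVec, Matrix.mul_nonsing_inv _ hK, Matrix.one_mulVec]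
  ext i j
  have h := congrFun (hcol j) i
  have hl := congrFun hlast i
  have h' : ((Matrix.of x.2 : M4) * kry n x) i j =
      ((Matrix.of x.2 : M4) ^ ((j : ℕ) + 1) *ᵥ x.1 0) i := h
  rw [h']
  rw [Matrix.mul_apply]
  fin_cases j
  · simp [cm, kry, Fin.sum_univ_succ]
  · simp [cm, kry, Fin.sum_univ_succ]
  · simp [cm, kry, Fin.sum_univ_succ]
  · simp only [Matrix.mulVec, dotProduct] at hl
    simp only [cm, Matrix.mulVec, dotProduct]
    simp [Fin.sum_univ_succ] at hl ⊢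
    linarith

lemma det_cm (a : V4) : (cm a).det = -a 0 := by
  simp [cm, Matrix.det_succ_row_zero, Fin.sum_univ_succ, Fin.succAbove]
  ring

lemma det_mono (c : Fin 3 → ℝ) : (mono c).det = c 2 := by
  simp [mono, Matrix.det_succ_row_zero, Fin.sum_univ_succ, Fin.succAbove]
  ring

lemma det_dg (r : ℝ) (hr : r ≠ 0) : (dg r).det ≠ 0 := by
  unfold dg
  rw [Matrix.det_diagonal, Fin.prod_univ_four]
  simp [hr]

lemma dg_cm (a : V4) (c : Fin 3 → ℝ) (ha : a 3 ≠ 0) (h0 : c 0 = -(a 2) / (a 3) ^ 2)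
    (h1 : c 1 = a 1 / (a 3) ^ 3) (h2 : c 2 = -(a 0) / (a 3) ^ 4) :
    dg (a 3) * cm a = a 3 • (mono c * dg (a 3)) := by
  ext i j
  simp only [dg, cm, mono, h0, h1, h2]
  rw [Matrix.diagonal_mul, Matrix.smul_apply, Matrix.mul_diagonal]
  fin_cases i <;> fin_cases j <;> simp <;> first | done | (field_simp; done) | (field_simp; simp)

end ChAAux

open ChAAux in
/-- Every polygon in `OO` has the coordinates `kch x`. -/
theorem tChA : S_ChA := by
  intro n _ x hx v hv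
  obtain ⟨hK, ha, hξ, hM⟩ := hx
  obtain ⟨⟨-, hstep⟩, hv0⟩ := hv
  have hKu : IsUnit (kry n x).det := isUnit_iff_ne_zero.2 hK
  set M : M4 := Matrix.of x.2 with hMdef
  have hMK : M * kry n x = kry n x * cm (ac n x) := mul_kry x hKu
  have ha0 : ac n x 0 ≠ 0 := by
    intro h
    have h1 : (M * kry n x).det = (kry n x * cm (ac n x)).det := by rw [hMK]
    rw [Matrix.det_mul, Matrix.det_mul, det_cm, h] at h1
    simp only [neg_zero, mul_zero, mul_eq_zero] at h1
    rcases h1 with h1 | h1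
    · exact hM h1
    · exact hK h1
  set m : Fin 3 → ℝ := cc n (kch n x) with hm
  have c0 : m 0 = -(ac n x 2) / (ac n x 3) ^ 2 := by
    simp [hm, cc, kch]
  have c1 : m 1 = ac n x 1 / (ac n x 3) ^ 3 := by
    simp [hm, cc, kch]
  have c2 : m 2 = -(ac n x 0) / (ac n x 3) ^ 4 := by
    simp [hm, cc, kch]
  have hdet : (mono m).det ≠ 0 := by
    rw [det_mono, c2]
    exact div_ne_zero (neg_ne_zero.2 ha0) (pow_ne_zero _ ha)
  have hu : IsUnit (mono m).det := isUnit_iff_ne_zero.2 hdet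
  have hinj : ∀ p q : V4, mono m *ᵥ p = mono m *ᵥ q → p = q := by
    intro p q h
    have h1 := congrArg (fun w => (mono m)⁻¹ *ᵥ w) h
    simpa [Matrix.mulVec_mulVec, Matrix.nonsing_inv_mul _ hu] using h1
  set g : M4 := dg (ac n x 3) * (kry n x)⁻¹ with hg
  have hgdet : g.det ≠ 0 := by
    rw [hg, Matrix.det_mul]
    refine mul_ne_zero (det_dg _ ha) ?_
    rw [Matrix.det_nonsing_inv]
    rw [Ring.inverse_eq_inv']
    exact inv_ne_zero hK
  have hgM : g * M = ac n x 3 • (mono m * g) := by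
    have h1 : (kry n x)⁻¹ * M = cm (ac n x) * (kry n x)⁻¹ := by
      have h2 : (kry n x)⁻¹ * (M * kry n x) * (kry n x)⁻¹ =
          (kry n x)⁻¹ * (kry n x * cm (ac n x)) * (kry n x)⁻¹ := by
        rw [hMK]
      rw [← Matrix.mul_assoc, Matrix.mul_assoc _ (kry n x) _, Matrix.mul_nonsing_inv _ hKu,
        Matrix.mul_one, ← Matrix.mul_assoc, Matrix.nonsing_inv_mul _ hKu, Matrix.one_mul] at h2
      exact h2
    rw [hg, Matrix.mul_assoc, h1, ← Matrix.mul_assoc,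
      dg_cm (ac n x) m ha c0 c1 c2, Matrix.smul_mul, Matrix.mul_assoc]
  have hk0 : (kry n x).col 0 = x.1 0 := by
    funext i
    show ((Matrix.of x.2 : M4) ^ ((0 : Fin 4) : ℕ) *ᵥ x.1 0) i = x.1 0 i
    simp
  have hgv0 : g *ᵥ x.1 0 = e0 := by
    rw [← hk0]
    have h1 : (kry n x)⁻¹ *ᵥ (kry n x).col 0 = ![1, 0, 0, 0] := by
      have h2 : (kry n x).col 0 = kry n x *ᵥ ![1, 0, 0, 0] := by
        funext i
        simp [Matrix.mulVec, dotProduct, Fin.sum_univ_succ]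
      rw [h2, Matrix.mulVec_mulVec, Matrix.nonsing_inv_mul _ hKu, Matrix.one_mulVec]
    rw [hg, ← Matrix.mulVec_mulVec, h1]
    funext i
    rw [dg, Matrix.mulVec_diagonal]
    fin_cases i <;> simp [e0]
  have hgvj : ∀ j : Fin n, ∃ c : ℝ, c ≠ 0 ∧ g *ᵥ x.1 j = c • vert n (kch n x) j := by
    intro j
    by_cases hj : j = 0
    · refine ⟨1, one_ne_zero, ?_⟩
      rw [hj, hgv0, one_smul]
      simp [vert]
    · refine ⟨xc n x j 0, hξ j, ?_⟩
      have h1 : (kry n x)⁻¹ *ᵥ x.1 j = xc n x j := rfl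
      rw [hg, ← Matrix.mulVec_mulVec, h1]
      have hξj := hξ j
      have k3 : kch n x (j, 0) = xc n x j 1 * ac n x 3 / xc n x j 0 := by
        simp [kch, hj]
      have k4 : kch n x (j, 1) = xc n x j 2 * (ac n x 3) ^ 2 / xc n x j 0 := by
        simp [kch, hj]
      have k5 : kch n x (j, 2) = xc n x j 3 * (ac n x 3) ^ 3 / xc n x j 0 := by
        simp [kch, hj]
      funext i
      rw [dg, Matrix.mulVec_diagonal, Pi.smul_apply]
      unfold vert
      rw [if_neg hj, k3, k4, k5]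
      fin_cases i <;> simp <;> try field_simp
  refine ⟨plg (mono m) (vert n (kch n x)), ⟨⟨hdet, fun k => plg_step _ hu _ _⟩,
    fun j => plg_fin _ _ j⟩, g, hgdet, ⟨ac n x 3, ha, hgM⟩, ?_⟩
  refine ind (n := n) _ ?_ ?_
  · intro j
    obtain ⟨c, hc, h⟩ := hgvj j
    refine ⟨c, hc, ?_⟩
    rw [plg_fin, hv0 j, h]
  · intro k
    have hs : g *ᵥ v (k + n) = ac n x 3 • (mono m *ᵥ (g *ᵥ v k)) := by
      rw [hstep k, Matrix.mulVec_mulVec, hgM, Matrix.smul_mulVec, Matrix.mulVec_mulVec]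
    rw [plg_step _ hu]
    constructor
    · rintro ⟨c, hc, h⟩
      refine ⟨ac n x 3 * c, mul_ne_zero ha hc, ?_⟩
      rw [hs, h, Matrix.mulVec_smul, smul_smul]
    · rintro ⟨c, hc, h⟩
      refine ⟨(ac n x 3)⁻¹ * c, mul_ne_zero (inv_ne_zero ha) hc, ?_⟩
      apply hinj
      rw [hs] at h
      rw [Matrix.mulVec_smul, ← smul_smul, ← h, smul_smul, inv_mul_cancel₀ ha, one_smul]

end Pool.Agent.MP62a5ad.QN
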