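import Pool.Agent.Lib.MP_62a5ad_mp.QN.SpecF

/-!
# MP_62a5ad_mp QN, module ChB: the coordinates are invariant
-/

set_option autoImplicit false

namespace Pool.Agent.MP62a5ad.QN

open Matrix
open Pool.Agent.MP62a5ad.PN (V4 M4 e0)

namespace ChBAux

theorem pwr (M M' g : M4) (c : ℝ) (h : g * M = c • (M' * g)) (i : ℕ) :
    g * M ^ i = c ^ i • (M' ^ i * g) := by
  induction i with
  | zero => simp
  | succ i ih =>
    rw [pow_succ, ← mul_assoc, ih, smul_mul_assoc, mul_assoc, h, mul_smul_comm, smul_smul,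
      ← mul_assoc, ← pow_succ, ← pow_succ]

theorem coef (K K' D g : M4) (w w' : V4) (d : ℝ) (hK : K.det ≠ 0) (hK' : K'.det ≠ 0)
    (h : g * K = K' * D) (hw : g *ᵥ w = d • w') :
    d • (K'⁻¹ *ᵥ w') = D *ᵥ (K⁻¹ *ᵥ w) := by
  have h1 : K * K⁻¹ = 1 := Matrix.mul_nonsing_inv _ (isUnit_iff_ne_zero.2 hK)
  have h2 : K'⁻¹ * K' = 1 := Matrix.nonsing_inv_mul _ (isUnit_iff_ne_zero.2 hK')
  have h3 : g *ᵥ w = (g * K) *ᵥ (K⁻¹ *ᵥ w) := by
    rw [Matrix.mulVec_mulVec, mul_assoc, h1, mul_one]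
  rw [← Matrix.mulVec_smul, ← hw, h3, h, Matrix.mulVec_mulVec, ← mul_assoc, h2, one_mul]

variable {n : ℕ} [NeZero n]

theorem kryD (x x' : Pt n) (g : M4) (c c0 : ℝ)
    (h : g * (Matrix.of x.2 : M4) = c • ((Matrix.of x'.2 : M4) * g))
    (h0 : g *ᵥ x.1 0 = c0 • x'.1 0) :
    g * kry n x = kry n x' * Matrix.diagonal (fun i : Fin 4 => c0 * c ^ (i : ℕ)) := by
  ext i j
  have h1 : (g * kry n x) i j = (g *ᵥ ((Matrix.of x.2 : M4) ^ (j : ℕ) *ᵥ x.1 0)) i := rfl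
  rw [h1, Matrix.mulVec_mulVec, pwr _ _ _ _ h, Matrix.smul_mulVec, ← Matrix.mulVec_mulVec, h0,
    Matrix.mulVec_smul, Matrix.mul_diagonal]
  have h2 : kry n x' i j = ((Matrix.of x'.2 : M4) ^ (j : ℕ) *ᵥ x'.1 0) i := rfl
  rw [h2]
  simp only [Pi.smul_apply, smul_eq_mul]
  ring

theorem inv (x x' : Pt n) (g : M4) (c : ℝ) (cj : Fin n → ℝ) (hc : c ≠ 0)
    (hcj : ∀ j, cj j ≠ 0) (hx : x ∈ OO n) (hx' : x' ∈ OO n)
    (h : g * (Matrix.of x.2 : M4) = c • ((Matrix.of x'.2 : M4) * g))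
    (hv : ∀ j, g *ᵥ x.1 j = cj j • x'.1 j) : kch n x = kch n x' := by
  have hc0 := hcj 0
  set c0 := cj 0 with hc0def
  have h0 : g *ᵥ x.1 0 = c0 • x'.1 0 := hv 0
  have hD := kryD x x' g c c0 h h0
  have hA := coef _ _ _ _ ((Matrix.of x.2 : M4) ^ 4 *ᵥ x.1 0)
    ((Matrix.of x'.2 : M4) ^ 4 *ᵥ x'.1 0) (c ^ 4 * c0) hx.1 hx'.1 hD (by
      rw [Matrix.mulVec_mulVec, pwr _ _ _ _ h, Matrix.smul_mulVec, ← Matrix.mulVec_mulVec, h0,
        Matrix.mulVec_smul, smul_smul])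
  have hA' : ∀ i : Fin 4, c ^ 4 * c0 * ac n x' i = c0 * c ^ (i : ℕ) * ac n x i := by
    intro i
    have := congrFun hA i
    rw [Matrix.mulVec_diagonal] at this
    exact this
  obtain ⟨hKx, ha, hb, -⟩ := hx
  obtain ⟨hKx', ha', hb', -⟩ := hx'
  have a0 := hA' 0
  have a1 := hA' 1
  have a2 := hA' 2
  have a3 := hA' 3
  simp only [Fin.val_zero, Fin.val_one, Fin.val_two, pow_zero, pow_one, mul_one] at a0 a1 a2
  have e3 : ((3 : Fin 4) : ℕ) = 3 := rfl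
  rw [e3] at a3
  have b0 : ac n x 0 = c ^ 4 * ac n x' 0 := mul_left_cancel₀ hc0 (by linear_combination -a0)
  have b1 : ac n x 1 = c ^ 3 * ac n x' 1 :=
    mul_left_cancel₀ (mul_ne_zero hc0 hc) (by linear_combination -a1)
  have b2 : ac n x 2 = c ^ 2 * ac n x' 2 :=
    mul_left_cancel₀ (mul_ne_zero hc0 (pow_ne_zero 2 hc)) (by linear_combination -a2)
  have b3 : ac n x 3 = c * ac n x' 3 :=
    mul_left_cancel₀ (mul_ne_zero hc0 (pow_ne_zero 3 hc)) (by linear_combination -a3)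
  have k0 : -(c ^ 2 * ac n x' 2) / (c * ac n x' 3) ^ 2 = -(ac n x' 2) / (ac n x' 3) ^ 2 := by
    field_simp
  have k1 : c ^ 3 * ac n x' 1 / (c * ac n x' 3) ^ 3 = ac n x' 1 / (ac n x' 3) ^ 3 := by
    field_simp
  have k2 : -(c ^ 4 * ac n x' 0) / (c * ac n x' 3) ^ 4 = -(ac n x' 0) / (ac n x' 3) ^ 4 := by
    field_simp
  funext i
  obtain ⟨j, i⟩ := i
  unfold kch
  by_cases hj : j = 0
  · simp only [hj, if_true]
    rw [b0, b1, b2, b3, k0, k1, k2]
  · simp only [hj, if_false]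
    have hX := coef _ _ _ _ _ _ _ hKx hKx' hD (hv j)
    have hX' : ∀ i : Fin 4, cj j * xc n x' j i = c0 * c ^ (i : ℕ) * xc n x j i := by
      intro i
      have := congrFun hX i
      rw [Matrix.mulVec_diagonal] at this
      exact this
    have hc1 := hcj j
    have hbj := hb j
    have hbj' := hb' j
    set c1 := cj j with hc1def
    have x0 := hX' 0
    have x1 := hX' 1
    have x2 := hX' 2
    have x3 := hX' 3
    simp only [Fin.val_zero, Fin.val_one, Fin.val_two, pow_zero, pow_one, mul_one] at x0 x1 x2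
    rw [e3] at x3
    have y0 : xc n x j 0 = c1 / c0 * xc n x' j 0 := by
      rw [div_mul_eq_mul_div, eq_div_iff hc0]; linear_combination -x0
    have y1 : xc n x j 1 = c1 / c0 * xc n x' j 1 / c := by
      rw [div_mul_eq_mul_div, div_div, eq_div_iff (mul_ne_zero hc0 hc)]; linear_combination -x1
    have y2 : xc n x j 2 = c1 / c0 * xc n x' j 2 / c ^ 2 := by
      rw [div_mul_eq_mul_div, div_div, eq_div_iff (mul_ne_zero hc0 (pow_ne_zero 2 hc))]
      linear_combination -x2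
    have y3 : xc n x j 3 = c1 / c0 * xc n x' j 3 / c ^ 3 := by
      rw [div_mul_eq_mul_div, div_div, eq_div_iff (mul_ne_zero hc0 (pow_ne_zero 3 hc))]
      linear_combination -x3
    rw [b3, y0, y1, y2, y3]
    have k3 : c1 / c0 * xc n x' j 1 / c * (c * ac n x' 3) / (c1 / c0 * xc n x' j 0) =
        xc n x' j 1 * ac n x' 3 / xc n x' j 0 := by
      field_simp
    have k4 : c1 / c0 * xc n x' j 2 / c ^ 2 * (c * ac n x' 3) ^ 2 / (c1 / c0 * xc n x' j 0) =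
        xc n x' j 2 * ac n x' 3 ^ 2 / xc n x' j 0 := by
      field_simp
    have k5 : c1 / c0 * xc n x' j 3 / c ^ 3 * (c * ac n x' 3) ^ 3 / (c1 / c0 * xc n x' j 0) =
        xc n x' j 3 * ac n x' 3 ^ 3 / xc n x' j 0 := by
      field_simp
    rw [k3, k4, k5]

/-! ### the normal form -/

theorem m0 (c : Fin 3 → ℝ) : mono c *ᵥ e0 = ![0, 1, 0, 0] := by
  funext i; fin_cases i <;> simp [mono, e0, Matrix.mulVec, dotProduct, Fin.sum_univ_four]

theorem m1 (c : Fin 3 → ℝ) : mono c *ᵥ ![0, 1, 0, 0] = ![0, 0, 1, 0] := by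
  funext i; fin_cases i <;> simp [mono, Matrix.mulVec, dotProduct, Fin.sum_univ_four]

theorem m2 (c : Fin 3 → ℝ) : mono c *ᵥ ![0, 0, 1, 0] = ![0, 0, 0, 1] := by
  funext i; fin_cases i <;> simp [mono, Matrix.mulVec, dotProduct, Fin.sum_univ_four]

theorem m3 (c : Fin 3 → ℝ) : mono c *ᵥ ![0, 0, 0, 1] = ![-c 2, c 1, -c 0, 1] := by
  funext i; fin_cases i <;> simp [mono, Matrix.mulVec, dotProduct, Fin.sum_univ_four]

theorem p1 (c : Fin 3 → ℝ) : (mono c) ^ 1 *ᵥ e0 = ![0, 1, 0, 0] := by rw [pow_one, m0]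

theorem p2 (c : Fin 3 → ℝ) : (mono c) ^ 2 *ᵥ e0 = ![0, 0, 1, 0] := by
  rw [pow_succ', ← Matrix.mulVec_mulVec, p1, m1]

theorem p3 (c : Fin 3 → ℝ) : (mono c) ^ 3 *ᵥ e0 = ![0, 0, 0, 1] := by
  rw [pow_succ', ← Matrix.mulVec_mulVec, p2, m2]

theorem p4 (c : Fin 3 → ℝ) : (mono c) ^ 4 *ᵥ e0 = ![-c 2, c 1, -c 0, 1] := by
  rw [pow_succ', ← Matrix.mulVec_mulVec, p3, m3]

theorem vert0 (y : E n) : vert n y 0 = e0 := by
  unfold vert
  rw [if_pos rfl]

theorem kry_nf (y : E n) : kry n (nf n y) = 1 := by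
  ext i j
  have h : kry n (nf n y) i j = ((mono (cc n y)) ^ (j : ℕ) *ᵥ vert n y 0) i := rfl
  rw [h, vert0]
  fin_cases j
  · change ((mono (cc n y)) ^ 0 *ᵥ e0) i = _
    rw [pow_zero, Matrix.one_mulVec]
    fin_cases i <;> simp [e0]
  · change ((mono (cc n y)) ^ 1 *ᵥ e0) i = _
    rw [p1]
    fin_cases i <;> simp
  · change ((mono (cc n y)) ^ 2 *ᵥ e0) i = _
    rw [p2]
    fin_cases i <;> simp
  · change ((mono (cc n y)) ^ 3 *ᵥ e0) i = _
    rw [p3]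
    fin_cases i <;> simp

theorem ac_nf (y : E n) : ac n (nf n y) = ![-cc n y 2, cc n y 1, -cc n y 0, 1] := by
  unfold ac
  rw [kry_nf, inv_one, Matrix.one_mulVec]
  have : ((Matrix.of (nf n y).2 : M4) ^ 4 *ᵥ (nf n y).1 0) = (mono (cc n y)) ^ 4 *ᵥ vert n y 0 := rfl
  rw [this, vert0]
  exact p4 (cc n y)

theorem xc_nf (y : E n) (j : Fin n) : xc n (nf n y) j = vert n y j := by
  unfold xc
  rw [kry_nf, inv_one, Matrix.one_mulVec]
  rfl

theorem det_mono (c : Fin 3 → ℝ) : (mono c).det = c 2 := by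
  simp [mono, Matrix.det_succ_row_zero, Fin.sum_univ_succ, Fin.succAbove]
  ring

end ChBAux

theorem tChB : S_ChB := by
  intro n _
  refine ⟨?_, ?_⟩
  · rintro x hx x' hx' v v' ⟨-, hv⟩ ⟨-, hv'⟩ ⟨g, -, ⟨c, hc, hgM⟩, hk⟩
    have hk' : ∀ j : Fin n, ∃ d : ℝ, d ≠ 0 ∧ g *ᵥ x.1 j = d • x'.1 j := by
      intro j
      obtain ⟨d, hd, h⟩ := hk ((j : ℕ) : ℤ)
      rw [hv j, hv' j] at h
      exact ⟨d, hd, h⟩
    choose cj hcj hcv using hk'
    exact ChBAux.inv x x' g c cj hc hcj hx hx' hgM hcv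
  · intro y hy
    refine ⟨⟨?_, ?_, ?_, ?_⟩, ?_⟩
    · rw [ChBAux.kry_nf, Matrix.det_one]; exact one_ne_zero
    · rw [ChBAux.ac_nf]; simp
    · intro j
      rw [ChBAux.xc_nf]
      unfold vert
      split_ifs <;> simp [e0]
    · change (mono (cc n y)).det ≠ 0
      rw [ChBAux.det_mono]; exact hy
    · funext i
      obtain ⟨j, i⟩ := i
      unfold kch
      rw [ChBAux.ac_nf]
      by_cases hj : j = 0
      · simp only [hj, if_true]
        fin_cases i <;> simp [cc]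
      · simp only [hj, if_false]
        rw [ChBAux.xc_nf]
        unfold vert
        rw [if_neg hj]
        fin_cases i <;> simp

end Pool.Agent.MP62a5ad.QN
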