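import Pool.Agent.Lib.MP_62a5ad_mp.QN.SpecF
import Pool.Agent.Lib.MP_62a5ad_mp.PN.MA
import Pool.Agent.Lib.MP_62a5ad_mp.PN.An

/-!
# MP_62a5ad_mp, QN/ChC: the chart of `P_{3,n}` is open, dense and smooth
-/

set_option autoImplicit false

namespace Pool.Agent.MP62a5ad.QN

open Matrix
open scoped ContDiff
open Pool.Agent.MP62a5ad.PN (V4 M4 AM AV)

namespace ChCAux

variable (n : ℕ)

/-- The entries of `M`. -/
theorem anM (U : Set (Pt n)) : AM U fun x : Pt n => (Matrix.of x.2 : M4) := by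
  intro i j
  exact ((ContinuousLinearMap.proj (R := ℝ) (φ := fun _ : Fin 4 => ℝ) j).comp
    ((ContinuousLinearMap.proj (R := ℝ) (φ := fun _ : Fin 4 => Fin 4 → ℝ) i).comp
      (ContinuousLinearMap.snd ℝ (Fin n → V4) (Fin 4 → Fin 4 → ℝ)))).analyticOnNhd U

/-- The entries of the vertices. -/
theorem anV (U : Set (Pt n)) (k : Fin n) : AV U fun x : Pt n => x.1 k := by
  intro i
  exact ((ContinuousLinearMap.proj (R := ℝ) (φ := fun _ : Fin 4 => ℝ) i).comp
    ((ContinuousLinearMap.proj (R := ℝ) (φ := fun _ : Fin n => V4) k).comp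
      (ContinuousLinearMap.fst ℝ (Fin n → V4) (Fin 4 → Fin 4 → ℝ)))).analyticOnNhd U

variable [NeZero n]

theorem anKry (U : Set (Pt n)) : AM U (kry n) := by
  intro i j
  exact (PN.tMA (Pt n) U).mulVec _ _ ((PN.tMA (Pt n) U).pow (j : ℕ) _ (anM n U)) (anV n U 0) i

/-- The numerators of `ac`. -/
noncomputable def P2 (x : Pt n) : V4 :=
  (kry n x).adjugate *ᵥ ((Matrix.of x.2 : M4) ^ 4 *ᵥ x.1 0)

/-- The numerators of `xc`. -/
noncomputable def P3 (k : Fin n) (x : Pt n) : V4 := (kry n x).adjugate *ᵥ x.1 k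

theorem anP2 (U : Set (Pt n)) : AV U (P2 n) :=
  (PN.tMA (Pt n) U).mulVec _ _ ((PN.tMA (Pt n) U).adj _ (anKry n U))
    ((PN.tMA (Pt n) U).mulVec _ _ ((PN.tMA (Pt n) U).pow 4 _ (anM n U)) (anV n U 0))

theorem anP3 (U : Set (Pt n)) (k : Fin n) : AV U (P3 n k) :=
  (PN.tMA (Pt n) U).mulVec _ _ ((PN.tMA (Pt n) U).adj _ (anKry n U)) (anV n U k)

theorem inv_kry (x : Pt n) : (kry n x)⁻¹ = ((kry n x).det)⁻¹ • (kry n x).adjugate := by
  rw [Matrix.inv_def, Ring.inverse_eq_inv']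

theorem ac_eq (x : Pt n) (i : Fin 4) : ac n x i = ((kry n x).det)⁻¹ * P2 n x i := by
  unfold ac P2
  rw [inv_kry, Matrix.smul_mulVec]
  rfl

theorem xc_eq (x : Pt n) (k : Fin n) (i : Fin 4) :
    xc n x k i = ((kry n x).det)⁻¹ * P3 n k x i := by
  unfold xc P3
  rw [inv_kry, Matrix.smul_mulVec]
  rfl

/-- The polynomial whose nonvanishing set is `OO n`. -/
noncomputable def QQ (x : Pt n) : ℝ :=
  (kry n x).det * (P2 n x 3 * ((∏ k, P3 n k x 0) * (Matrix.of x.2 : M4).det))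

theorem anQQ (U : Set (Pt n)) : AnalyticOnNhd ℝ (QQ n) U :=
  ((PN.tMA (Pt n) U).det _ (anKry n U)).mul ((anP2 n U 3).mul
    ((Finset.analyticOnNhd_fun_prod _ fun k _ => anP3 n U k 0).mul
      ((PN.tMA (Pt n) U).det _ (anM n U))))

theorem OO_eq : OO n = {x | QQ n x ≠ 0} := by
  ext x
  constructor
  · rintro ⟨h1, h2, h3, h4⟩
    rw [ac_eq] at h2
    refine mul_ne_zero h1 (mul_ne_zero (right_ne_zero_of_mul h2) (mul_ne_zero ?_ h4))
    rw [Finset.prod_ne_zero_iff]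
    intro k _
    have h5 := h3 k
    rw [xc_eq] at h5
    exact right_ne_zero_of_mul h5
  · intro h
    have h0 : (kry n x).det * (P2 n x 3 * ((∏ k, P3 n k x 0) * (Matrix.of x.2 : M4).det)) ≠ 0 := h
    have h1 := left_ne_zero_of_mul h0
    have h2 := left_ne_zero_of_mul (right_ne_zero_of_mul h0)
    have h3 := left_ne_zero_of_mul (right_ne_zero_of_mul (right_ne_zero_of_mul h0))
    have h4 := right_ne_zero_of_mul (right_ne_zero_of_mul (right_ne_zero_of_mul h0))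
    rw [Finset.prod_ne_zero_iff] at h3
    refine ⟨h1, ?_, fun k => ?_, h4⟩
    · rw [ac_eq]
      exact mul_ne_zero (inv_ne_zero h1) h2
    · rw [xc_eq]
      exact mul_ne_zero (inv_ne_zero h1) (h3 k (Finset.mem_univ k))

theorem an_ac : AV (OO n) (ac n) := by
  intro i
  have h1 : AnalyticOnNhd ℝ (fun x => (kry n x).det) (OO n) :=
    (PN.tMA (Pt n) (OO n)).det _ (anKry n (OO n))
  have h2 : AnalyticOnNhd ℝ (fun x => P2 n x i / (kry n x).det) (OO n) :=
    (anP2 n (OO n) i).div h1 fun x hx => hx.1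
  have e : (fun x => ac n x i) = fun x => P2 n x i / (kry n x).det := by
    funext x
    rw [ac_eq, div_eq_inv_mul]
  rw [e]
  exact h2

theorem an_xc (k : Fin n) : AV (OO n) fun x => xc n x k := by
  intro i
  have h1 : AnalyticOnNhd ℝ (fun x => (kry n x).det) (OO n) :=
    (PN.tMA (Pt n) (OO n)).det _ (anKry n (OO n))
  have h2 : AnalyticOnNhd ℝ (fun x => P3 n k x i / (kry n x).det) (OO n) :=
    (anP3 n (OO n) k i).div h1 fun x hx => hx.1
  have e : (fun x => xc n x k i) = fun x => P3 n k x i / (kry n x).det := by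
    funext x
    rw [xc_eq, div_eq_inv_mul]
  rw [e]
  exact h2

/-- The coordinates are analytic. -/
theorem an_kch (i : Ix n) : AnalyticOnNhd ℝ (fun x => kch n x i) (OO n) := by
  obtain ⟨k, l⟩ := i
  have ha := an_ac n
  have hx := an_xc n k
  have ha3 : ∀ x ∈ OO n, ac n x 3 ≠ 0 := fun x hx => hx.2.1
  have hx0 : ∀ x ∈ OO n, xc n x k 0 ≠ 0 := fun x hx => hx.2.2.1 k
  have hpow : ∀ m : ℕ, AnalyticOnNhd ℝ (fun x => (ac n x 3) ^ m) (OO n) := fun m => (ha 3).pow m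
  by_cases hk : k = 0
  · have e : (fun x => kch n x (k, l)) = fun x => (![-(ac n x 2) / (ac n x 3) ^ 2,
        ac n x 1 / (ac n x 3) ^ 3, -(ac n x 0) / (ac n x 3) ^ 4] : Fin 3 → ℝ) l := by
      funext x
      unfold kch
      exact if_pos hk
    rw [e]
    fin_cases l
    · exact ((ha 2).neg).div (hpow 2) fun x hx => pow_ne_zero _ (ha3 x hx)
    · exact (ha 1).div (hpow 3) fun x hx => pow_ne_zero _ (ha3 x hx)
    · exact ((ha 0).neg).div (hpow 4) fun x hx => pow_ne_zero _ (ha3 x hx)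
  · have e : (fun x => kch n x (k, l)) = fun x => (![xc n x k 1 * ac n x 3 / xc n x k 0,
        xc n x k 2 * (ac n x 3) ^ 2 / xc n x k 0,
        xc n x k 3 * (ac n x 3) ^ 3 / xc n x k 0] : Fin 3 → ℝ) l := by
      funext x
      unfold kch
      exact if_neg hk
    rw [e]
    fin_cases l
    · exact ((hx 1).mul (ha 3)).div (hx 0) hx0
    · exact ((hx 2).mul (hpow 2)).div (hx 0) hx0
    · exact ((hx 3).mul (hpow 3)).div (hx 0) hx0

end ChCAux

open ChCAux in
/-- `OO` is open and dense, `kch` is smooth. -/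
theorem tChC (hChB : S_ChB) : S_ChC := by
  intro n _
  let y : E n := fun i => if i = (0, 2) then 1 else 0
  have hy : cc n y 2 ≠ 0 := by
    show (if ((0, 2) : Ix n) = (0, 2) then (1 : ℝ) else 0) ≠ 0
    rw [if_pos rfl]
    exact one_ne_zero
  obtain ⟨hO, -⟩ := (hChB n).2 y hy
  rw [OO_eq] at hO
  obtain ⟨o1, d1⟩ := PN.tAn (Pt n) (QQ n) (anQQ n Set.univ) ⟨_, hO⟩
  refine ⟨?_, ?_, ?_⟩
  · rw [OO_eq]
    exact o1
  · rw [OO_eq]
    exact d1
  · rw [contDiffOn_pi]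
    intro i
    exact AnalyticOnNhd.contDiffOn_of_completeSpace (an_kch n i)

end Pool.Agent.MP62a5ad.QN
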