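import Pool.Agent.Lib.MP_62a5ad_mp.QN.SpecF

/-!
# MP_62a5ad_mp, QN: the pulled back 2-form is smooth, skew and closed
-/

set_option autoImplicit false

namespace Pool.Agent.MP62a5ad.QN

open Matrix
open scoped ContDiff

namespace CloAux

variable {ι : Type} [Fintype ι] [DecidableEq ι]

omit [DecidableEq ι] in
theorem om_apply (T0 : Matrix ι ι ℝ) (J : (ι → ℝ) → Matrix ι ι ℂ) (y : ι → ℝ) (i j : ι) :
    om T0 J y i j = ∑ a, ∑ b, ((T0 a b : ℝ) : ℂ) * (J y a i * J y b j) := by
  unfold om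
  rw [Matrix.mul_apply]
  have h : ∀ b, ((J y)ᵀ * rc T0) i b * J y b j =
      ∑ a, ((T0 a b : ℝ) : ℂ) * (J y a i * J y b j) := by
    intro b
    rw [Matrix.mul_apply, Finset.sum_mul]
    refine Finset.sum_congr rfl fun a _ => ?_
    rw [Matrix.transpose_apply]
    simp only [rc, Matrix.map_apply]
    ring
  rw [Finset.sum_congr rfl fun b _ => h b, Finset.sum_comm]

omit [DecidableEq ι] in
/-- A double sum with a skew coefficient matrix. -/
theorem skew_sum (T0 : Matrix ι ι ℝ) (hT : T0ᵀ = -T0) (f : ι → ι → ℂ) :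
    ∑ a, ∑ b, ((T0 a b : ℝ) : ℂ) * (f a b + f b a) = 0 := by
  have h1 : ∀ a b, T0 b a = -T0 a b := by
    intro a b
    have := congrFun (congrFun hT a) b
    simpa using this
  have h2 : ∑ a, ∑ b, ((T0 a b : ℝ) : ℂ) * f b a = -∑ a, ∑ b, ((T0 a b : ℝ) : ℂ) * f a b := by
    rw [Finset.sum_comm, ← Finset.sum_neg_distrib]
    refine Finset.sum_congr rfl fun a _ => ?_
    rw [← Finset.sum_neg_distrib]
    refine Finset.sum_congr rfl fun b _ => ?_
    rw [h1 a b]
    push_cast
    ring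
  have h3 : ∑ a, ∑ b, ((T0 a b : ℝ) : ℂ) * (f a b + f b a) =
      ∑ a, ∑ b, ((T0 a b : ℝ) : ℂ) * f a b + ∑ a, ∑ b, ((T0 a b : ℝ) : ℂ) * f b a := by
    rw [← Finset.sum_add_distrib]
    refine Finset.sum_congr rfl fun a _ => ?_
    rw [← Finset.sum_add_distrib]
    refine Finset.sum_congr rfl fun b _ => ?_
    ring
  rw [h3, h2]
  ring

theorem om_skew (T0 : Matrix ι ι ℝ) (hT : T0ᵀ = -T0) (J : (ι → ℝ) → Matrix ι ι ℂ) (y : ι → ℝ)
    (i j : ι) : om T0 J y j i = -om T0 J y i j := by
  have h := skew_sum T0 hT fun a b => J y a i * J y b j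
  have h2 : ∑ a, ∑ b, ((T0 a b : ℝ) : ℂ) * (J y a i * J y b j + J y b i * J y a j) =
      om T0 J y i j + om T0 J y j i := by
    rw [om_apply, om_apply, ← Finset.sum_add_distrib]
    refine Finset.sum_congr rfl fun a _ => ?_
    rw [← Finset.sum_add_distrib]
    refine Finset.sum_congr rfl fun b _ => ?_
    ring
  have h3 : om T0 J y i j + om T0 J y j i = 0 := by rw [← h2]; exact h
  exact eq_neg_of_add_eq_zero_right h3

theorem om_smooth (U : Set (ι → ℝ)) (J : (ι → ℝ) → Matrix ι ι ℂ) (T0 : Matrix ι ι ℝ)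
    (hJ : ∀ i j, ContDiffOn ℝ ∞ (fun y => J y i j) U) (i j : ι) :
    ContDiffOn ℝ ∞ (fun y => om T0 J y i j) U := by
  have h : (fun y => om T0 J y i j) =
      fun y => ∑ a, ∑ b, ((T0 a b : ℝ) : ℂ) * (J y a i * J y b j) := by
    funext y
    exact om_apply T0 J y i j
  rw [h]
  refine ContDiffOn.sum fun a _ => ContDiffOn.sum fun b _ => ?_
  exact contDiffOn_const.mul ((hJ a i).mul (hJ b j))

/-- The derivative of the entries. -/
theorem om_deriv (J : (ι → ℝ) → Matrix ι ι ℂ) (T0 : Matrix ι ι ℝ) (y : ι → ℝ)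
    (hJ : ∀ i j, DifferentiableAt ℝ (fun x => J x i j) y) (i j : ι) :
    HasFDerivAt (fun x => om T0 J x i j)
      (∑ a, ∑ b, ((T0 a b : ℝ) : ℂ) • (J y a i • fderiv ℝ (fun x => J x b j) y +
        J y b j • fderiv ℝ (fun x => J x a i) y)) y := by
  have h : (fun x => om T0 J x i j) =
      fun x => ∑ a, ∑ b, ((T0 a b : ℝ) : ℂ) * (J x a i * J x b j) := by
    funext x
    exact om_apply T0 J x i j
  rw [h]
  refine HasFDerivAt.fun_sum fun a _ => HasFDerivAt.fun_sum fun b _ => ?_
  exact ((hJ a i).hasFDerivAt.mul (hJ b j).hasFDerivAt).const_mul _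

theorem omt_deriv (J : (ι → ℝ) → Matrix ι ι ℂ) (T0 : Matrix ι ι ℝ) (τ : ℝ) (y : ι → ℝ)
    (hJ : ∀ i j, DifferentiableAt ℝ (fun x => J x i j) y) (i j k : ι) :
    pd (fun x => omt T0 J τ x i j) k y =
      (∑ a, ∑ b, ((T0 a b : ℝ) : ℂ) * (J y a i * cpd (fun x => J x b j) k y +
        J y b j * cpd (fun x => J x a i) k y)).re -
      τ * (∑ a, ∑ b, ((T0 a b : ℝ) : ℂ) * (J y a i * cpd (fun x => J x b j) k y +
        J y b j * cpd (fun x => J x a i) k y)).im := by
  have h := om_deriv J T0 y hJ i j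
  have hre := (Complex.reCLM.hasFDerivAt (x := om T0 J y i j)).comp y h
  have him := (Complex.imCLM.hasFDerivAt (x := om T0 J y i j)).comp y h
  have hd := hre.sub (him.const_mul τ)
  have he : pd (fun x => omt T0 J τ x i j) k y = fderiv ℝ (fun x => omt T0 J τ x i j) y
      (Pi.single k 1) := rfl
  rw [he]
  have hf : HasFDerivAt (fun x => omt T0 J τ x i j) _ y := hd
  rw [hf.fderiv]
  have hs : (∑ a, ∑ b, ((T0 a b : ℝ) : ℂ) • (J y a i • fderiv ℝ (fun x => J x b j) y +
        J y b j • fderiv ℝ (fun x => J x a i) y)) (Pi.single k 1) =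
      ∑ a, ∑ b, ((T0 a b : ℝ) : ℂ) * (J y a i * cpd (fun x => J x b j) k y +
        J y b j * cpd (fun x => J x a i) k y) := by
    simp only [ContinuousLinearMap.coe_sum', Finset.sum_apply, ContinuousLinearMap.coe_smul',
      ContinuousLinearMap.add_apply, Pi.smul_apply, smul_eq_mul, cpd]
  rw [← hs]
  rfl

end CloAux

open CloAux in
theorem tClo (_hCh : S_Ch) : S_Clo := by
  intro ι _ _ U J T0 τ hU hJ hcl hT
  refine ⟨?_, ?_, ?_⟩
  · intro i j
    have h := om_smooth U J T0 hJ i j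
    have h1 : ContDiffOn ℝ ∞ (fun y => (om T0 J y i j).re) U :=
      Complex.reCLM.contDiff.comp_contDiffOn h
    have h2 : ContDiffOn ℝ ∞ (fun y => (om T0 J y i j).im) U :=
      Complex.imCLM.contDiff.comp_contDiffOn h
    exact h1.sub (contDiffOn_const.mul h2)
  · intro y _
    ext i j
    have h := om_skew T0 hT J y i j
    simp only [Matrix.transpose_apply, Matrix.neg_apply, omt, Matrix.of_apply, h, Complex.neg_re,
      Complex.neg_im]
    ring
  · intro y hy i j k
    have hD : ∀ i j, DifferentiableAt ℝ (fun x => J x i j) y := fun i j =>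
      ((hJ i j).contDiffAt (hU.mem_nhds hy)).differentiableAt (by simp)
    rw [omt_deriv J T0 τ y hD, omt_deriv J T0 τ y hD, omt_deriv J T0 τ y hD]
    have h := skew_sum T0 hT fun a b => cpd (fun x => J x a j) i y * J y b k +
      cpd (fun x => J x a k) j y * J y b i + cpd (fun x => J x a i) k y * J y b j
    have h2 : (∑ a, ∑ b, ((T0 a b : ℝ) : ℂ) * (J y a j * cpd (fun x => J x b k) i y +
          J y b k * cpd (fun x => J x a j) i y)) +
        (∑ a, ∑ b, ((T0 a b : ℝ) : ℂ) * (J y a k * cpd (fun x => J x b i) j y +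
          J y b i * cpd (fun x => J x a k) j y)) +
        (∑ a, ∑ b, ((T0 a b : ℝ) : ℂ) * (J y a i * cpd (fun x => J x b j) k y +
          J y b j * cpd (fun x => J x a i) k y)) = 0 := by
      rw [← h, ← Finset.sum_add_distrib, ← Finset.sum_add_distrib]
      refine Finset.sum_congr rfl fun a _ => ?_
      rw [← Finset.sum_add_distrib, ← Finset.sum_add_distrib]
      refine Finset.sum_congr rfl fun b _ => ?_
      rw [hcl y hy b k i, hcl y hy b i j, hcl y hy b j k]
      ring
    have hre := congrArg Complex.re h2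
    have him := congrArg Complex.im h2
    simp only [Complex.add_re, Complex.zero_re] at hre
    simp only [Complex.add_im, Complex.zero_im] at him
    linear_combination hre - τ * him

end Pool.Agent.MP62a5ad.QN
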