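import Pool.Agent.Lib.MP_62a5ad_mp.QN.SpecF

/-!
# MP_62a5ad_mp, QN, module Dd: `dd w` is a derivation
-/

set_option autoImplicit false

namespace Pool.Agent.MP62a5ad.QN.DdAux

open Pool.Agent.MP62a5ad.QN

variable {ι : Type} [Fintype ι] [DecidableEq ι]

/-- The pairing of `w` with a differential. -/
noncomputable def pr (w : ι → ℂ) (g' : (ι → ℝ) →L[ℝ] ℂ) : ℂ := ∑ j, w j * g' (Pi.single j 1)

theorem pr_add (w : ι → ℂ) (a b : (ι → ℝ) →L[ℝ] ℂ) : pr w (a + b) = pr w a + pr w b := by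
  simp only [pr, _root_.add_apply, mul_add, Finset.sum_add_distrib]

theorem pr_sub (w : ι → ℂ) (a b : (ι → ℝ) →L[ℝ] ℂ) : pr w (a - b) = pr w a - pr w b := by
  simp only [pr, _root_.sub_apply, mul_sub, Finset.sum_sub_distrib]

theorem pr_smul (w : ι → ℂ) (c : ℂ) (a : (ι → ℝ) →L[ℝ] ℂ) : pr w (c • a) = c * pr w a := by
  simp only [pr, _root_.smul_apply, smul_eq_mul, Finset.mul_sum]
  exact Finset.sum_congr rfl fun j _ => by ring

theorem dd_of (w : ι → ℂ) (y : ι → ℝ) (g : (ι → ℝ) → ℂ) (g' : (ι → ℝ) →L[ℝ] ℂ)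
    (h : HasFDerivAt g g' y) : dd w g y = pr w g' := by
  simp only [dd, pr, h.fderiv]

theorem dd_add (w : ι → ℂ) (y : ι → ℝ) (g h : (ι → ℝ) → ℂ) (hg : DifferentiableAt ℝ g y)
    (hh : DifferentiableAt ℝ h y) : dd w (fun x => g x + h x) y = dd w g y + dd w h y := by
  rw [dd_of w y g _ hg.hasFDerivAt, dd_of w y h _ hh.hasFDerivAt,
    dd_of w y (fun x => g x + h x) _ (hg.hasFDerivAt.add hh.hasFDerivAt), pr_add]

theorem dd_sub (w : ι → ℂ) (y : ι → ℝ) (g h : (ι → ℝ) → ℂ) (hg : DifferentiableAt ℝ g y)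
    (hh : DifferentiableAt ℝ h y) : dd w (fun x => g x - h x) y = dd w g y - dd w h y := by
  rw [dd_of w y g _ hg.hasFDerivAt, dd_of w y h _ hh.hasFDerivAt,
    dd_of w y (fun x => g x - h x) _ (hg.hasFDerivAt.sub hh.hasFDerivAt), pr_sub]

theorem dd_mul (w : ι → ℂ) (y : ι → ℝ) (g h : (ι → ℝ) → ℂ) (hg : DifferentiableAt ℝ g y)
    (hh : DifferentiableAt ℝ h y) :
    dd w (fun x => g x * h x) y = dd w g y * h y + g y * dd w h y := by
  rw [dd_of w y g _ hg.hasFDerivAt, dd_of w y h _ hh.hasFDerivAt,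
    dd_of w y (fun x => g x * h x) _ (hg.hasFDerivAt.mul hh.hasFDerivAt), pr_add, pr_smul,
    pr_smul]
  ring

theorem dd_comp (w : ι → ℂ) (y : ι → ℝ) (g : (ι → ℝ) → ℂ) (hg : DifferentiableAt ℝ g y)
    (f : ℂ → ℂ) (f' : ℂ) (hf : HasDerivAt f f' (g y)) :
    dd w (fun x => f (g x)) y = f' * dd w g y := by
  rw [dd_of w y g _ hg.hasFDerivAt,
    dd_of w y (fun x => f (g x)) _ (hf.comp_hasFDerivAt y hg.hasFDerivAt), pr_smul]

theorem dd_inv (w : ι → ℂ) (y : ι → ℝ) (g : (ι → ℝ) → ℂ) (hg : DifferentiableAt ℝ g y)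
    (h0 : g y ≠ 0) : dd w (fun x => (g x)⁻¹) y = -dd w g y / g y ^ 2 := by
  rw [dd_comp w y g hg _ _ (hasDerivAt_inv h0)]
  field_simp

theorem dd_const (w : ι → ℂ) (y : ι → ℝ) (c : ℂ) : dd w (fun _ => c) y = 0 := by
  rw [dd_of w y _ _ (hasFDerivAt_const c y)]
  simp [pr]

omit [DecidableEq ι] in
theorem diff_coord {κ : Type} [Fintype κ] (Θ : (ι → ℝ) → κ → ℂ) (y : ι → ℝ)
    (h : DifferentiableAt ℝ Θ y) (k : κ) : DifferentiableAt ℝ (fun x => Θ x k) y :=
  (differentiableAt_pi.1 h) k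

end Pool.Agent.MP62a5ad.QN.DdAux

namespace Pool.Agent.MP62a5ad.QN

open DdAux

theorem tDd : S_Dd := by
  intro ι _ _ w y
  refine ⟨fun g h hg hh => ⟨dd_add w y g h hg hh, dd_sub w y g h hg hh, dd_mul w y g h hg hh,
    fun h0 => ?_, dd_inv w y g hg, fun N => ?_⟩, dd_const w y, fun g h hgh => ?_, fun i => ?_, ?_⟩
  · have e : (fun x => g x / h x) = fun x => g x * (h x)⁻¹ := by
      funext x
      rw [div_eq_mul_inv]
    rw [e, dd_mul w y g (fun x => (h x)⁻¹) hg (hh.inv h0), dd_inv w y h hh h0]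
    field_simp
    ring
  · rw [dd_comp w y g hg _ _ (hasDerivAt_pow N (g y))]
  · simp only [dd, hgh.fderiv_eq]
  · have e : HasFDerivAt (fun x : ι → ℝ => ((x i : ℝ) : ℂ))
        (Complex.ofRealCLM.comp (ContinuousLinearMap.proj i)) y :=
      (Complex.ofRealCLM.comp (ContinuousLinearMap.proj (R := ℝ) (φ := fun _ : ι => ℝ) i)).hasFDerivAt
    rw [dd_of w y _ _ e, pr, Finset.sum_eq_single i]
    · simp
    · intro j _ hj
      simp [hj.symm]
    · intro hi
      exact absurd (Finset.mem_univ i) hi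
  · intro κ _ _ Θ P hΘ
    have key : DifferentiableAt ℝ (fun x => MvPolynomial.eval (Θ x) P) y ∧
        dd w (fun x => MvPolynomial.eval (Θ x) P) y =
        ∑ k, MvPolynomial.eval (Θ y) (MvPolynomial.pderiv k P) * dd w (fun x => Θ x k) y := by
      induction P using MvPolynomial.induction_on with
      | C a =>
        simp only [MvPolynomial.eval_C, MvPolynomial.pderiv_C, map_zero, zero_mul,
          Finset.sum_const_zero]
        exact ⟨differentiableAt_const _, dd_const w y a⟩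
      | add p q hp hq =>
        simp only [map_add, add_mul, Finset.sum_add_distrib]
        refine ⟨hp.1.add hq.1, ?_⟩
        rw [dd_add w y _ _ hp.1 hq.1, hp.2, hq.2]
      | mul_X p i hp =>
        simp only [map_mul, MvPolynomial.eval_X]
        refine ⟨hp.1.mul (diff_coord Θ y hΘ i), ?_⟩
        rw [dd_mul w y _ _ hp.1 (diff_coord Θ y hΘ i), hp.2, Finset.sum_mul]
        have e : ∀ k, MvPolynomial.eval (Θ y) (MvPolynomial.pderiv k (p * MvPolynomial.X i)) *
            dd w (fun x => Θ x k) y =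
            MvPolynomial.eval (Θ y) (MvPolynomial.pderiv k p) * dd w (fun x => Θ x k) y * Θ y i +
            if k = i then MvPolynomial.eval (Θ y) p * dd w (fun x => Θ x i) y else 0 := by
          intro k
          rw [MvPolynomial.pderiv_mul, MvPolynomial.pderiv_X, map_add, map_mul, map_mul,
            MvPolynomial.eval_X]
          by_cases hk : k = i
          · subst hk
            simp only [Pi.single_eq_same, map_one, if_true]
            ring
          · have : (Pi.single k (1 : MvPolynomial κ ℂ) : κ → MvPolynomial κ ℂ) i = 0 :=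
              Pi.single_eq_of_ne (fun h => hk h.symm) _
            rw [this, if_neg hk]
            simp only [map_zero]
            ring
        rw [Finset.sum_congr rfl fun k _ => e k, Finset.sum_add_distrib, Finset.sum_ite_eq']
        simp
    exact key.2

end Pool.Agent.MP62a5ad.QN
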