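import Pool.Agent.Lib.MP_62a5ad_mp.QN.SpecF

/-!
MP_62a5ad_mp, QN, module Dis: generic characteristic polynomials have four different roots.
-/

set_option autoImplicit false

namespace Pool.Agent.MP62a5ad.QN

namespace DisAux

open Polynomial Filter Topology

/-- the characteristic polynomial as a polynomial -/
noncomputable def pp (a b d : ℂ) : ℂ[X] := X ^ 4 - X ^ 3 + C a * X ^ 2 - C b * X + C d

theorem eval_pp (a b d x : ℂ) : (pp a b d).eval x = x ^ 4 - x ^ 3 + a * x ^ 2 - b * x + d := by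
  simp [pp]

theorem eval_dpp (a b d x : ℂ) :
    (pp a b d).derivative.eval x = 4 * x ^ 3 - 3 * x ^ 2 + 2 * a * x - b := by
  simp [pp]
  ring

theorem natDegree_pp (a b d : ℂ) : (pp a b d).natDegree = 4 := by
  unfold pp
  compute_degree!

theorem monic_pp (a b d : ℂ) : (pp a b d).Monic := by
  have h : (pp a b d).natDegree ≤ 4 := (natDegree_pp a b d).le
  refine Polynomial.monic_of_natDegree_le_of_coeff_eq_one 4 h ?_
  unfold pp
  simp

theorem four (a b d : ℂ) (h : ∀ m : ℂ, m ^ 4 - m ^ 3 + a * m ^ 2 - b * m + d = 0 →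
    4 * m ^ 3 - 3 * m ^ 2 + 2 * a * m - b ≠ 0) :
    ∃ m : Fin 4 → ℂ, Function.Injective m ∧
      ∀ x : ℂ, x ^ 4 - x ^ 3 + a * x ^ 2 - b * x + d = ∏ i, (x - m i) := by
  classical
  have hm := monic_pp a b d
  have hcard : Multiset.card (pp a b d).roots = 4 := by
    rw [IsAlgClosed.card_roots_eq_natDegree, natDegree_pp]
  have hnd : (pp a b d).roots.Nodup := by
    rw [Multiset.nodup_iff_count_le_one]
    intro r
    rw [count_roots]
    by_contra hlt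
    rw [not_le, one_lt_rootMultiplicity_iff_isRoot hm.ne_zero] at hlt
    obtain ⟨h1, h2⟩ := hlt
    rw [IsRoot.def, eval_pp] at h1
    rw [IsRoot.def, eval_dpp] at h2
    exact h r h1 h2
  have hprod : ((pp a b d).roots.map (fun r => X - C r)).prod = pp a b d :=
    prod_multiset_X_sub_C_of_monic_of_roots_card_eq hm (by rw [hcard, natDegree_pp])
  let S : Finset ℂ := ⟨(pp a b d).roots, hnd⟩
  have hS : Fintype.card S = 4 := by
    rw [Fintype.card_coe]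
    exact hcard
  let e : Fin 4 ≃ S := (Fintype.equivFinOfCardEq hS).symm
  refine ⟨fun i => (e i : ℂ), fun i j hij => e.injective (Subtype.ext hij), fun x => ?_⟩
  have h1 : (pp a b d).eval x = ∏ r ∈ S, (x - r) := by
    conv_lhs => rw [← hprod]
    rw [eval_multiset_prod, Multiset.map_map]
    change _ = (Multiset.map (fun r => x - r) (pp a b d).roots).prod
    congr 1
    refine Multiset.map_congr rfl fun r _ => ?_
    simp
  rw [← eval_pp, h1, ← Finset.prod_coe_sort S fun r => x - r]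
  exact (Equiv.prod_comp e fun r : S => x - (r : ℂ)).symm

/-- the bound for the roots -/
theorem bound (a b d m : ℂ) (h : m ^ 4 - m ^ 3 + a * m ^ 2 - b * m + d = 0) :
    ‖m‖ ≤ 1 + ‖a‖ + ‖b‖ + ‖d‖ := by
  by_contra hlt
  rw [not_le] at hlt
  have ha := norm_nonneg a
  have hb := norm_nonneg b
  have hd := norm_nonneg d
  have h1 : 1 ≤ ‖m‖ := by linarith
  have h2 : m ^ 4 = m ^ 3 - a * m ^ 2 + b * m - d := by linear_combination h
  have h3 : ‖m‖ ^ 4 ≤ ‖m‖ ^ 3 + ‖a‖ * ‖m‖ ^ 2 + ‖b‖ * ‖m‖ + ‖d‖ := by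
    calc ‖m‖ ^ 4 = ‖m ^ 3 - a * m ^ 2 + b * m - d‖ := by rw [← h2, norm_pow]
      _ ≤ ‖m ^ 3 - a * m ^ 2 + b * m‖ + ‖d‖ := norm_sub_le _ _
      _ ≤ ‖m ^ 3 - a * m ^ 2‖ + ‖b * m‖ + ‖d‖ := by gcongr; exact norm_add_le _ _
      _ ≤ ‖m ^ 3‖ + ‖a * m ^ 2‖ + ‖b * m‖ + ‖d‖ := by gcongr; exact norm_sub_le _ _
      _ = _ := by rw [norm_pow, norm_mul, norm_mul, norm_pow]
  have e1 : ‖a‖ * ‖m‖ ^ 2 ≤ ‖a‖ * ‖m‖ ^ 3 :=
    mul_le_mul_of_nonneg_left (pow_le_pow_right₀ h1 (by norm_num)) ha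
  have e2 : ‖b‖ * ‖m‖ ≤ ‖b‖ * ‖m‖ ^ 3 := by
    refine mul_le_mul_of_nonneg_left ?_ hb
    calc ‖m‖ = ‖m‖ ^ 1 := (pow_one _).symm
      _ ≤ ‖m‖ ^ 3 := pow_le_pow_right₀ h1 (by norm_num)
  have e3 : ‖d‖ ≤ ‖d‖ * ‖m‖ ^ 3 := le_mul_of_one_le_right hd (one_le_pow₀ h1)
  have h4 : ‖m‖ ^ 3 * ‖m‖ ≤ ‖m‖ ^ 3 * (1 + ‖a‖ + ‖b‖ + ‖d‖) := by
    calc ‖m‖ ^ 3 * ‖m‖ = ‖m‖ ^ 4 := by ring
      _ ≤ _ := h3
      _ ≤ ‖m‖ ^ 3 + ‖a‖ * ‖m‖ ^ 3 + ‖b‖ * ‖m‖ ^ 3 + ‖d‖ * ‖m‖ ^ 3 := by linarith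
      _ = _ := by ring
  have h5 : 0 < ‖m‖ ^ 3 := by positivity
  have := le_of_mul_le_mul_left h4 h5
  linarith

theorem cont_cpl : Continuous fun z : (Fin 3 → ℝ) × ℂ => cpl z.1 z.2 := by
  unfold cpl
  fun_prop

theorem cont_dcp : Continuous fun z : (Fin 3 → ℝ) × ℂ => dcp z.1 z.2 := by
  unfold dcp
  fun_prop

theorem isOpen_D : IsOpen {c : Fin 3 → ℝ | ∀ m : ℂ, cpl c m = 0 → dcp c m ≠ 0} := by
  rw [isOpen_iff_mem_nhds]
  intro c₀ hc₀
  set R : ℝ := 1 + (|c₀ 0| + 1) + (|c₀ 1| + 1) + (|c₀ 2| + 1) with hR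
  have h1 : ∀ᶠ c in 𝓝 c₀, ∀ m ∈ Metric.closedBall (0 : ℂ) R, ¬ (cpl c m = 0 ∧ dcp c m = 0) := by
    refine (isCompact_closedBall (0 : ℂ) R).eventually_forall_of_forall_eventually fun m _ => ?_
    by_cases h : cpl c₀ m = 0
    · have h2 : dcp c₀ m ≠ 0 := hc₀ m h
      have h3 : ∀ᶠ z : (Fin 3 → ℝ) × ℂ in 𝓝 (c₀, m), dcp z.1 z.2 ≠ 0 :=
        cont_dcp.continuousAt.eventually_ne h2
      exact h3.mono fun z hz hz' => hz hz'.2
    · have h3 : ∀ᶠ z : (Fin 3 → ℝ) × ℂ in 𝓝 (c₀, m), cpl z.1 z.2 ≠ 0 :=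
        cont_cpl.continuousAt.eventually_ne h
      exact h3.mono fun z hz hz' => hz hz'.1
  have h2 : ∀ i : Fin 3, ∀ᶠ c : Fin 3 → ℝ in 𝓝 c₀, |c i| < |c₀ i| + 1 := fun i => by
    have hc : Continuous fun c : Fin 3 → ℝ => |c i| := by fun_prop
    exact hc.continuousAt.eventually_lt continuousAt_const (by simp)
  filter_upwards [h1, h2 0, h2 1, h2 2] with c k1 k2 k3 k4
  intro m hm hd
  refine k1 m ?_ ⟨hm, hd⟩
  rw [mem_closedBall_zero_iff]
  have hb := bound (c 0) (c 1) (c 2) m hm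
  rw [Complex.norm_real, Complex.norm_real, Complex.norm_real, Real.norm_eq_abs, Real.norm_eq_abs,
    Real.norm_eq_abs] at hb
  linarith

theorem dense_D : Dense {c : Fin 3 → ℝ | ∀ m : ℂ, cpl c m = 0 → dcp c m ≠ 0} := by
  intro c
  let q : ℂ[X] := C 4 * X ^ 3 - C 3 * X ^ 2 + C (2 * (c 0 : ℂ)) * X - C (c 1 : ℂ)
  have hq : q ≠ 0 := by
    intro h
    have h3 : q.coeff 3 = 0 := by rw [h, coeff_zero]
    simp [q] at h3
  let B : Set ℝ := (q.roots.toFinset.image fun m : ℂ =>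
    (-(m ^ 4 - m ^ 3 + (c 0 : ℂ) * m ^ 2 - (c 1 : ℂ) * m)).re : Finset ℝ)
  have hB : Dense Bᶜ := Set.Countable.dense_compl ℝ (Finset.countable_toSet _)
  have hcont : Continuous fun t : ℝ => Function.update c 2 t := by fun_prop
  have hmem : c 2 ∈ closure Bᶜ := hB (c 2)
  have h1 : Function.update c 2 (c 2) ∈ closure ((fun t : ℝ => Function.update c 2 t) '' Bᶜ) :=
    image_closure_subset_closure_image hcont ⟨c 2, hmem, rfl⟩
  rw [Function.update_eq_self] at h1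
  refine closure_mono ?_ h1
  rintro _ ⟨t, ht, rfl⟩
  intro m hm hd
  apply ht
  have e0 : Function.update c 2 t 0 = c 0 := Function.update_of_ne (by decide) _ _
  have e1 : Function.update c 2 t 1 = c 1 := Function.update_of_ne (by decide) _ _
  have e2 : Function.update c 2 t 2 = t := Function.update_self _ _ _
  simp only [cpl, dcp, e0, e1, e2] at hm hd
  refine Finset.mem_coe.2 (Finset.mem_image.2 ⟨m, ?_, ?_⟩)
  · rw [Multiset.mem_toFinset, mem_roots hq, IsRoot.def]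
    simp only [q, eval_sub, eval_add, eval_mul, eval_pow, eval_C, eval_X]
    exact hd
  · have : -(m ^ 4 - m ^ 3 + (c 0 : ℂ) * m ^ 2 - (c 1 : ℂ) * m) = (t : ℂ) := by
      linear_combination -hm
    rw [this, Complex.ofReal_re]

end DisAux

theorem tDis : S_Dis :=
  ⟨DisAux.isOpen_D, DisAux.dense_D, fun c hc => DisAux.four (c 0) (c 1) (c 2) hc⟩

end Pool.Agent.MP62a5ad.QN
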