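import Pool.Agent.Lib.MP_62a5ad_mp.QN.SpecF
import Pool.Agent.Lib.MP_62a5ad_mp.PN.Geo
import Pool.Agent.Lib.MP_62a5ad_mp.PN.MA
import Pool.Agent.Lib.MP_62a5ad_mp.PN.Fam
import Pool.Agent.Lib.MP_62a5ad_mp.PN.Dt
import Pool.Agent.Lib.MP_62a5ad_mp.PN.Lin
import Pool.Agent.Lib.MP_62a5ad_mp.PN.Brg

/-!
# MP_62a5ad_mp, QN: the geometric meaning of the map (`tGeoN`)
-/

set_option autoImplicit false

namespace Pool.Agent.MP62a5ad.QN

open Matrix
open scoped ContDiff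
open Pool.Agent.MP62a5ad.PN (V4 M4 e0)

namespace GeoNAux

section Abs

variable {A : Type} [CommRing A] [Algebra ℝ A] (ι : A →ₐ[ℝ] M4)

/-- membership in the span of three multiples of `N` -/
theorem mem_iff (hinj0 : ∀ a a', ι a *ᵥ e0 = ι a' *ᵥ e0 → a = a') (N N' τ X : A) (ν μ : ℝ)
    (hN : N * N' = 1) (hν : ν ≠ 0) (hμ : μ ≠ 0) (g : A) :
    ι (N * g) *ᵥ e0 ∈
        Submodule.span ℝ {ι N *ᵥ e0, ι (ν • (τ * N)) *ᵥ e0, ι (μ • (X * N)) *ᵥ e0} ↔
      g ∈ Submodule.span ℝ {1, τ, X} := by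
  rw [Submodule.mem_span_triple, Submodule.mem_span_triple]
  constructor
  · rintro ⟨a, b, c, h⟩
    refine ⟨a, b * ν, c * μ, ?_⟩
    have h1 : a • N + b • (ν • (τ * N)) + c • (μ • (X * N)) = N * g := by
      apply hinj0
      rw [← h]
      simp only [map_add, map_smul, Matrix.add_mulVec, Matrix.smul_mulVec]
    have h2 : (a • N + b • (ν • (τ * N)) + c • (μ • (X * N))) * N' = N * g * N' := by rw [h1]
    simp only [Algebra.smul_def, map_mul] at h2 ⊢
    linear_combination h2 - (algebraMap ℝ A a * 1 + algebraMap ℝ A b * algebraMap ℝ A ν * τ +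
      algebraMap ℝ A c * algebraMap ℝ A μ * X - g) * hN
  · rintro ⟨a, b, c, h⟩
    refine ⟨a, b * ν⁻¹, c * μ⁻¹, ?_⟩
    have h1 : N * g = a • N + (b * ν⁻¹) • (ν • (τ * N)) + (c * μ⁻¹) • (μ • (X * N)) := by
      rw [← h, smul_smul, smul_smul, mul_assoc b, mul_assoc c, inv_mul_cancel₀ hμ,
        inv_mul_cancel₀ hν, mul_one, mul_one]
      simp only [Algebra.smul_def]
      ring
    rw [h1]
    simp only [map_add, map_smul, Matrix.add_mulVec, Matrix.smul_mulVec]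

/-- the three conditions at one vertex -/
theorem tri_at (hinj0 : ∀ a a', ι a *ᵥ e0 = ι a' *ᵥ e0 → a = a')
    (hsurj0 : ∀ v : V4, ∃ a, ι a *ᵥ e0 = v)
    (τ ti : A) (hti : τ * ti = 1) (n e : ℕ) (r : ℤ) (v : ℤ → V4) (N : ℤ → A) (ν : ℝ) (hν : ν ≠ 0)
    (hv : ∀ k, v k = ι (N k) *ᵥ e0) (hN : ∀ k, ∃ N', N k * N' = 1)
    (hNe : ∀ k, N (k + n * e) = ν • (τ * N k)) (k : ℤ) (X Xi X' : A) (μ μ' : ℝ) (hμ : μ ≠ 0)
    (hμ' : μ' ≠ 0) (hX : X * Xi = 1) (hNc : N (k + r) = μ • (X * N k))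
    (hNc2 : N (k + n * e + r) = μ • (X * N (k + n * e)))
    (hNc' : N (k + r + r) = μ' • (X' * N (k + r))) (g0 g0i : A) (hg : g0 * g0i = 1)
    (hlin : LinearIndependent ℝ ![1, τ, X])
    (hinc : ∀ g : A, (g ∈ Submodule.span ℝ {1, τ, X} ∧ ti * g ∈ Submodule.span ℝ {1, τ, X} ∧
      Xi * g ∈ Submodule.span ℝ {1, τ, X'}) ↔ ∃ c : ℝ, g = c • g0) :
    Module.finrank ℝ (Tri n e r v k) = 3 ∧ ι g0 *ᵥ v k ≠ 0 ∧
      Tri n e r v k ⊓ Tri n e r v (k + n * e) ⊓ Tri n e r v (k + r) =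
        Submodule.span ℝ {ι g0 *ᵥ v k} := by
  obtain ⟨N', hN'⟩ := hN k
  obtain ⟨N1, hN1⟩ := hN (k + n * e)
  obtain ⟨N2, hN2⟩ := hN (k + r)
  have t0 : Tri n e r v k =
      Submodule.span ℝ {ι (N k) *ᵥ e0, ι (ν • (τ * N k)) *ᵥ e0, ι (μ • (X * N k)) *ᵥ e0} := by
    unfold Tri
    rw [hv, hv, hv, hNe, hNc]
  have t1 : Tri n e r v (k + n * e) = Submodule.span ℝ {ι (N (k + n * e)) *ᵥ e0,
      ι (ν • (τ * N (k + n * e))) *ᵥ e0, ι (μ • (X * N (k + n * e))) *ᵥ e0} := by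
    unfold Tri
    rw [hv, hv, hv, hNe (k + n * e), hNc2]
  have t2 : Tri n e r v (k + r) = Submodule.span ℝ {ι (N (k + r)) *ᵥ e0,
      ι (ν • (τ * N (k + r))) *ᵥ e0, ι (μ' • (X' * N (k + r))) *ᵥ e0} := by
    unfold Tri
    rw [hv, hv, hv, hNe (k + r), hNc']
  have hw : ι g0 *ᵥ v k = ι (N k * g0) *ᵥ e0 := by
    rw [hv, Matrix.mulVec_mulVec, ← map_mul, mul_comm]
  refine ⟨?_, ?_, ?_⟩
  · have h3 : LinearIndependent ℝ
        ![ι (N k) *ᵥ e0, ι (ν • (τ * N k)) *ᵥ e0, ι (μ • (X * N k)) *ᵥ e0] := by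
      rw [Fintype.linearIndependent_iff] at hlin ⊢
      intro g hg
      rw [Fin.sum_univ_three] at hg
      have h1 : g 0 • N k + g 1 • (ν • (τ * N k)) + g 2 • (μ • (X * N k)) = 0 := by
        apply hinj0
        rw [map_zero, Matrix.zero_mulVec, ← hg]
        simp only [map_add, map_smul, Matrix.add_mulVec, Matrix.smul_mulVec]
        rfl
      have h2 : (g 0 • N k + g 1 • (ν • (τ * N k)) + g 2 • (μ • (X * N k))) * N' = 0 := by
        rw [h1, zero_mul]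
      have h3 : g 0 • (1 : A) + (g 1 * ν) • τ + (g 2 * μ) • X = 0 := by
        simp only [Algebra.smul_def, map_mul] at h2 ⊢
        linear_combination h2 - (algebraMap ℝ A (g 0) * 1 +
          algebraMap ℝ A (g 1) * algebraMap ℝ A ν * τ +
          algebraMap ℝ A (g 2) * algebraMap ℝ A μ * X) * hN'
      have h4 := hlin ![g 0, g 1 * ν, g 2 * μ] (by
        rw [Fin.sum_univ_three]
        exact h3)
      have i0 : g 0 = 0 := h4 0
      have i1 : g 1 * ν = 0 := h4 1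
      have i2 : g 2 * μ = 0 := h4 2
      have i1' : g 1 = 0 := (mul_eq_zero.1 i1).resolve_right hν
      have i2' : g 2 = 0 := (mul_eq_zero.1 i2).resolve_right hμ
      intro i
      fin_cases i
      · exact i0
      · exact i1'
      · exact i2'
    have h4 : Tri n e r v k = Submodule.span ℝ
        (Set.range ![ι (N k) *ᵥ e0, ι (ν • (τ * N k)) *ᵥ e0, ι (μ • (X * N k)) *ᵥ e0]) := by
      rw [t0]
      congr 1
      ext x
      simp only [Set.mem_insert_iff, Set.mem_singleton_iff, Set.mem_range]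
      constructor
      · rintro (rfl | rfl | rfl)
        · exact ⟨0, rfl⟩
        · exact ⟨1, rfl⟩
        · exact ⟨2, rfl⟩
      · rintro ⟨i, rfl⟩
        fin_cases i
        · exact Or.inl rfl
        · exact Or.inr (Or.inl rfl)
        · exact Or.inr (Or.inr rfl)
    rw [h4, finrank_span_eq_card h3, Fintype.card_fin]
  · intro h
    rw [hw] at h
    have h1 : N k * g0 = 0 := by
      apply hinj0
      rw [h, map_zero, Matrix.zero_mulVec]
    have h2 : (1 : A) = 0 := by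
      have h3 : N k * g0 * (N' * g0i) = 0 := by rw [h1, zero_mul]
      linear_combination h3 - N k * N' * hg - hN'
    have h4 : (e0 : V4) = 0 := by
      have h5 : ι (1 : A) *ᵥ e0 = ι (0 : A) *ᵥ e0 := by rw [h2]
      rw [map_one, map_zero, Matrix.one_mulVec, Matrix.zero_mulVec] at h5
      exact h5
    have h5 := congrFun h4 0
    exact one_ne_zero h5
  · ext x
    obtain ⟨a, ha⟩ := hsurj0 x
    have hx0 : x = ι (N k * (N' * a)) *ᵥ e0 := by
      rw [← mul_assoc, hN', one_mul, ha]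
    obtain ⟨g, hg'⟩ : ∃ g, g = N' * a := ⟨_, rfl⟩
    rw [← hg'] at hx0
    have hx1 : x = ι (N (k + n * e) * (ν⁻¹ • (ti * g))) *ᵥ e0 := by
      rw [hx0, hNe]
      congr 2
      rw [smul_mul_smul_comm, mul_inv_cancel₀ hν, one_smul]
      linear_combination -(N k * g) * hti
    have hx2 : x = ι (N (k + r) * (μ⁻¹ • (Xi * g))) *ᵥ e0 := by
      rw [hx0, hNc]
      congr 2
      rw [smul_mul_smul_comm, mul_inv_cancel₀ hμ, one_smul]
      linear_combination -(N k * g) * hX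
    have m0 : x ∈ Tri n e r v k ↔ g ∈ Submodule.span ℝ {1, τ, X} := by
      rw [t0, hx0]
      exact mem_iff ι hinj0 (N k) N' τ X ν μ hN' hν hμ g
    have m1 : x ∈ Tri n e r v (k + n * e) ↔ ti * g ∈ Submodule.span ℝ {1, τ, X} := by
      rw [t1, hx1, mem_iff ι hinj0 (N (k + n * e)) N1 τ X ν μ hN1 hν hμ (ν⁻¹ • (ti * g))]
      exact Submodule.smul_mem_iff _ (inv_ne_zero hν)
    have m2 : x ∈ Tri n e r v (k + r) ↔ Xi * g ∈ Submodule.span ℝ {1, τ, X'} := by
      rw [t2, hx2, mem_iff ι hinj0 (N (k + r)) N2 τ X' ν μ' hN2 hν hμ' (μ⁻¹ • (Xi * g))]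
      exact Submodule.smul_mem_iff _ (inv_ne_zero hμ)
    rw [Submodule.mem_inf, Submodule.mem_inf, m0, m1, m2, and_assoc, hinc,
      Submodule.mem_span_singleton, hw]
    constructor
    · rintro ⟨d, hd⟩
      refine ⟨d, ?_⟩
      rw [hx0, hd, mul_smul_comm, map_smul, Matrix.smul_mulVec]
    · rintro ⟨d, hd⟩
      refine ⟨d, ?_⟩
      have h1 : N k * (d • g0) = N k * g := by
        apply hinj0
        rw [← hx0, ← hd, mul_smul_comm, map_smul, Matrix.smul_mulVec]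
      have h2 : N' * (N k * (d • g0)) = N' * (N k * g) := by rw [h1]
      linear_combination -h2 + (d • g0 - g) * hN'

end Abs

end GeoNAux

open GeoNAux in
theorem tGeoN (hIncN : S_IncN) : S_GeoN := by
  intro n e r t m κt mt hDD hκt htm P κ s u C s' u' C' α hPc hPd hPn hnd hRel hP
  have aFam : PN.S_Fam := PN.tFam PN.tMA
  have aBrg : PN.S_Brg := PN.tBrg aFam PN.tDt
  obtain ⟨dt1, dt2, -, -, -⟩ := PN.tDt t mt m hDD
  obtain ⟨A, i1, i2, ι, b, τ, hFr, hτ, hinj, -, hsurj, -, -, -, hsurj0, hinj0, hinv⟩ :=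
    aBrg t mt m hDD
  obtain ⟨⟨l0, l1, l2, -⟩, -, -, -, -, -, -, l8, -⟩ := PN.tLin A τ b (PN.pc t m) hFr
  -- elements of the algebra
  have hιs : ∀ x : ℝ, ι (τ - x • (1 : A)) = t m - x • (1 : M4) := by
    intro x
    rw [map_sub, map_smul, map_one, hτ]
  have hιQ : ∀ x y : ℝ, ι (PN.qe τ x y) = (t m) ^ 2 + x • t m + y • (1 : M4) := by
    intro x y
    unfold PN.qe
    rw [map_add, map_add, map_smul, map_smul, map_one, map_pow, hτ]
  choose N hN using fun k => hsurj (P k) (hPc k)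
  obtain ⟨M, hM⟩ := hsurj (PN.mono m) rfl
  have hNn : ∀ k, N (k + n) = M * N k := by
    intro k
    apply hinj
    rw [map_mul, hN, hN, hM, hPn]
  have hNj : ∀ (j : ℕ) (k : ℤ), N (k + n * j) = M ^ j * N k := by
    intro j
    induction j with
    | zero =>
      intro k
      rw [Nat.cast_zero, mul_zero, add_zero, pow_zero, one_mul]
    | succ j ih =>
      intro k
      have h1 : k + (n : ℤ) * ((j + 1 : ℕ) : ℤ) = k + n * j + n := by
        push_cast
        ring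
      rw [h1, hNn, ih, pow_succ]
      ring
  have hτM : τ = κt • M ^ e := by
    apply hinj
    rw [map_smul, map_pow, hM, hτ, htm]
  have hNe : ∀ k, N (k + n * e) = κt⁻¹ • (τ * N k) := by
    intro k
    rw [hNj, hτM, smul_mul_assoc, smul_smul, inv_mul_cancel₀ hκt, one_smul]
  have hNu : ∀ k, ∃ N', N k * N' = 1 := by
    intro k
    obtain ⟨a', h, -⟩ := hinv (N k) (by rw [hN]; exact hPd k)
    exact ⟨a', h⟩
  obtain ⟨ti, hti, -⟩ := hinv τ (by rw [hτ, dt1]; exact dt2)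
  have hσ : ∀ k, ∃ σ, (τ - s k • (1 : A)) * σ = 1 ∧ ι σ = (t m - s k • (1 : M4))⁻¹ := by
    intro k
    obtain ⟨a', h, h'⟩ := hinv (τ - s k • (1 : A)) (by rw [hιs]; exact (hnd k).2.2.1)
    exact ⟨a', h, by rw [h', hιs]⟩
  choose σ hσ1 hσ2 using hσ
  have hσ' : ∀ k, ∃ σ', (τ - s' k • (1 : A)) * σ' = 1 := by
    intro k
    obtain ⟨a', h, -⟩ := hinv (τ - s' k • (1 : A)) (by rw [hιs]; exact (hnd k).2.2.2.1)
    exact ⟨a', h⟩
  choose σ' hσ'1 using hσ'
  have hNr0 : ∀ k, (τ - s k • (1 : A)) * N (k + r) = κ k • (PN.qe τ (u k) (C k) * N k) := by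
    intro k
    apply hinj
    rw [map_mul, hιs, hN, hP, map_smul, map_mul, hιQ, hN]
  have hNr : ∀ k, N (k + r) = κ k • (PN.qe τ (u k) (C k) * σ k * N k) := by
    intro k
    have h1 := hNr0 k
    have h2 : σ k * ((τ - s k • (1 : A)) * N (k + r)) =
        σ k * (κ k • (PN.qe τ (u k) (C k) * N k)) := by rw [h1]
    simp only [Algebra.smul_def] at h2 ⊢
    have h3 := hσ1 k
    simp only [Algebra.smul_def] at h3
    linear_combination h2 - N (k + r) * h3
  have hQZ := fun k => PN.GeoAux.rel_QZ hFr (hRel k)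
  intro k
  obtain ⟨n1, n2, n3, n4, n5, n6⟩ := hnd k
  -- the inverse of `Q`
  obtain ⟨q, hq⟩ : ∃ q, PN.qe τ (u k) (C k) * q = 1 := by
    refine ⟨(α k)⁻¹ • (PN.qe τ (u' k) (C' k) * (ti * σ (k + r) * σ' k)), ?_⟩
    have h1 : PN.qe τ (u k) (C k) *
        ((α k)⁻¹ • (PN.qe τ (u' k) (C' k) * (ti * σ (k + r) * σ' k))) =
        (α k)⁻¹ • (PN.qe τ (u k) (C k) * PN.qe τ (u' k) (C' k) * (ti * σ (k + r) * σ' k)) := by
      rw [mul_smul_comm]
      congr 1
      ring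
    have h2 : τ * (τ - s (k + r) • (1 : A)) * (τ - s' k • (1 : A)) *
        (ti * σ (k + r) * σ' k) = 1 := by
      linear_combination hσ'1 k + (τ - s' k • (1 : A)) * σ' k * hσ1 (k + r) +
        (τ - s' k • (1 : A)) * σ' k * ((τ - s (k + r) • (1 : A)) * σ (k + r)) * hti
    rw [h1, hQZ k, smul_mul_assoc, smul_smul, inv_mul_cancel₀ n2, one_smul, h2]
  have hX1 : PN.el b (PN.qe τ (u (k + r)) (C (k + r)) * σ (k + r)) ≠ 0 := by
    intro h
    have h2 := l8 (s (k + r)) (u (k + r)) (C (k + r)) (σ (k + r)) (hσ1 (k + r))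
    rw [h, mul_zero] at h2
    exact (hnd (k + r)).2.2.2.2.1 (by linarith)
  have hX2 : PN.el b ((τ - s (k + r) • 1) *
      (PN.qe τ (u (k + r)) (C (k + r)) * σ (k + r))) = 0 := by
    have h1 : (τ - s (k + r) • 1) * (PN.qe τ (u (k + r)) (C (k + r)) * σ (k + r)) =
        PN.qe τ (u (k + r)) (C (k + r)) := by
      linear_combination PN.qe τ (u (k + r)) (C (k + r)) * hσ1 (k + r)
    rw [h1]
    unfold PN.qe PN.el at *
    rw [map_add, map_add, map_smul, map_smul, Finsupp.add_apply, Finsupp.add_apply,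
      Finsupp.smul_apply, Finsupp.smul_apply, l0, l1, l2, smul_zero, smul_zero, add_zero, add_zero]
  obtain ⟨lin0, -, inc0⟩ := hIncN A τ b (PN.pc t m) hFr (s k) (u k) (C k) (s (k + r)) (s' k) (u' k)
    (C' k) (α k) q (σ k) (σ' k) ti (PN.qe τ (u (k + r)) (C (k + r)) * σ (k + r)) hq (hσ1 k)
    (hσ'1 k) hti n2 (hQZ k) n5 n6 hX1 hX2
  have hX : PN.qe τ (u k) (C k) * σ k * ((τ - s k • (1 : A)) * q) = 1 := by
    linear_combination hq + PN.qe τ (u k) (C k) * q * hσ1 k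
  have G0 : τ * (τ - s' k • (1 : A)) * σ k * (ti * σ' k * (τ - s k • (1 : A))) = 1 := by
    linear_combination hσ1 k + (τ - s k • (1 : A)) * σ k * hσ'1 k +
      (τ - s k • (1 : A)) * σ k * ((τ - s' k • (1 : A)) * σ' k) * hti
  have hNc2 : N (k + n * e + r) = κ k • (PN.qe τ (u k) (C k) * σ k * N (k + n * e)) := by
    have h1 : k + (n : ℤ) * e + r = k + r + n * e := by ring
    rw [h1, hNe (k + r), hNr k, hNe k]
    simp only [Algebra.smul_def]
    ring
  have key := tri_at ι hinj0 hsurj0 τ ti hti n e r (fun k => P k *ᵥ e0) N κt⁻¹ (inv_ne_zero hκt)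
    (fun k => by rw [hN]) hNu hNe k (PN.qe τ (u k) (C k) * σ k) ((τ - s k • (1 : A)) * q)
    (PN.qe τ (u (k + r)) (C (k + r)) * σ (k + r)) (κ k) (κ (k + r)) n1 (hnd (k + r)).1 hX
    (hNr k) hNc2 (hNr (k + r)) (τ * (τ - s' k • (1 : A)) * σ k)
    (ti * σ' k * (τ - s k • (1 : A))) G0 lin0 inc0
  have hw : ι (τ * (τ - s' k • (1 : A)) * σ k) *ᵥ (P k *ᵥ e0) =
      (t m * (t m - s' k • (1 : M4)) * (t m - s k • (1 : M4))⁻¹ * P k) *ᵥ e0 := by
    rw [Matrix.mulVec_mulVec, map_mul, map_mul, hιs, hτ, hσ2]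
  simp only [hw] at key
  exact key

end Pool.Agent.MP62a5ad.QN
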