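import Pool.Agent.Lib.MP_62a5ad_mp.QN.SpecF
import Pool.Agent.Lib.MP_62a5ad_mp.PN.Inc
import Pool.Agent.Lib.MP_62a5ad_mp.PN.Lin

/-!
# MP_62a5ad_mp, QN: the incidences in the algebra (`tIncN`)
-/

set_option autoImplicit false

namespace Pool.Agent.MP62a5ad.QN

open PN PN.IncAux in
/-- The incidences in `A`. -/
theorem tIncN : S_IncN := by
  intro A _ _ t b p hF s0 u C s1 s0' u' C' α q σ0 σ' ti X1 hq hσ0 hσ' ht hα hrel hs0 hs0' hX1 hX1'
  obtain ⟨⟨h1, h2, h3, -⟩, -, -, h4, -, -, -, hval, -⟩ := PN.tLin A t b p hF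
  have hqe : ∀ u C : ℝ, el b (qe t u C) = 0 := by
    intro u C
    rw [qe, el_add, el_add, el_smul, el_smul, h1, h2, h3]
    ring
  have hX0 : el b (qe t u C * σ0) ≠ 0 := by
    intro h
    have := hval s0 u C σ0 hσ0
    rw [h, mul_zero] at this
    exact hs0 (by linarith)
  have hX0' : el b ((t - s0 • 1) * (qe t u C * σ0)) = 0 := by
    have e : (t - s0 • 1) * (qe t u C * σ0) = qe t u C := by
      linear_combination (qe t u C) * hσ0
    rw [e, hqe]
  have m0 := span_mem b t _ s0 h1 h2 h3 h4 hX0 hX0'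
  have m1 := span_mem b t _ s1 h1 h2 h3 h4 hX1 hX1'
  refine ⟨linInd b t _ hF.pow h1 h2 hX0, linInd b t _ hF.pow h1 h2 hX1, fun g => ?_⟩
  rw [m0, m0, m1]
  have e1 : α • ((t - s0' • 1) * (t * (t - s1 • 1) * q)) = qe t u' C' := by
    simp only [Algebra.smul_def, mul_one] at hrel ⊢
    linear_combination (-q) * hrel + (qe t u' C') * hq
  have e0 : (t - s0' • 1) * (t * (t - s1 • 1) * q) = α⁻¹ • qe t u' C' := by
    rw [← e1, smul_smul, inv_mul_cancel₀ hα, one_smul]
  have hY0' : el b ((t - s0' • 1) * (t * (t - s1 • 1) * q)) = 0 := by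
    rw [e0, el_smul, hqe, mul_zero]
  have hY0 : el b (t * (t - s1 • 1) * q) ≠ 0 := by
    intro h
    have e2 : qe t u' C' * σ' = α • (t * (t - s1 • 1) * q) := by
      have e3 : t * (t - s1 • 1) * q = α⁻¹ • (qe t u' C' * σ') := by
        have e4 : t * (t - s1 • 1) * q = ((t - s0' • 1) * (t * (t - s1 • 1) * q)) * σ' := by
          linear_combination (-(t * (t - s1 • 1) * q)) * hσ'
        rw [e4, e0, smul_mul_assoc]
      rw [e3, smul_smul, mul_inv_cancel₀ hα, one_smul]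
    have := hval s0' u' C' σ' hσ'
    rw [e2, el_smul, h, mul_zero, mul_zero] at this
    exact hs0' (by linarith)
  have key := core b t ti σ0 _ s0 s0' h1 h2 h3 h4 ht hσ0 hY0 hY0' g
  have e2 : (t - s1 • 1) * ((t - s0 • 1) * q * g) =
      (t * (t - s1 • 1) * q) * ((t - s0 • 1) * (ti * g)) := by
    linear_combination (-((t - s1 • 1) * ((t - s0 • 1) * q * g))) * ht
  rw [e2]
  exact key

end Pool.Agent.MP62a5ad.QN
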