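import Pool.Agent.Lib.MP_62a5ad_mp.QN.SpecF

set_option autoImplicit false

namespace Pool.Agent.MP62a5ad.QN.IndAux

open Matrix

/-- Independent rows have a constant right inverse. -/
theorem exists_right_inv {ι κ : Type} [Fintype ι] [DecidableEq ι] [Fintype κ] [DecidableEq κ]
    (A : Matrix κ ι ℂ) (h : LinearIndependent ℂ (fun i => A i)) :
    ∃ B : Matrix ι κ ℂ, A * B = 1 := by
  have hinj : Function.Injective (Matrix.vecMulLinear A) := by
    have h2 := Matrix.vecMul_injective_iff.mpr h
    intro x y hxy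
    exact h2 (by simpa using hxy)
  obtain ⟨g, hg⟩ := LinearMap.exists_leftInverse_of_injective (Matrix.vecMulLinear A)
    (LinearMap.ker_eq_bot.mpr hinj)
  refine ⟨Matrix.of fun j k => g (Pi.single j 1) k, ?_⟩
  ext i k
  have h1 : g (A i) = Pi.single i 1 := by
    have h3 : Matrix.vecMulLinear A (Pi.single i 1) = A i := by
      simp [Matrix.vecMulLinear, Matrix.row]
    rw [← h3]
    exact LinearMap.congr_fun hg (Pi.single i 1)
  have h4 : A i = ∑ j, A i j • (Pi.single j (1 : ℂ) : ι → ℂ) := by
    ext j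
    simp [Finset.sum_apply, Pi.single_apply]
  rw [Matrix.mul_apply, Matrix.one_apply]
  have h5 : g (A i) k = ∑ j, A i j * g (Pi.single j 1) k := by
    conv_lhs => rw [h4]
    rw [map_sum]
    simp [Finset.sum_apply]
  simp only [Matrix.of_apply]
  rw [← h5, h1, Pi.single_apply]
  by_cases hik : i = k
  · simp [hik]
  · simp [hik, Ne.symm hik]

end Pool.Agent.MP62a5ad.QN.IndAux

namespace Pool.Agent.MP62a5ad.QN

open Matrix IndAux

theorem tInd : S_Ind := by
  intro ι κ _ _ _ _ H θ₀ h0
  obtain ⟨B, hB⟩ := exists_right_inv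
    (Matrix.of fun (i : κ) (j : ι) => MvPolynomial.eval θ₀ (MvPolynomial.pderiv j (H i))) h0
  set M : Matrix κ κ (MvPolynomial ι ℂ) :=
    (Matrix.of fun (i : κ) (j : ι) => MvPolynomial.pderiv j (H i)) *
      B.map (MvPolynomial.C : ℂ → MvPolynomial ι ℂ) with hM
  have hev : ∀ θ : ι → ℂ, MvPolynomial.eval θ M.det =
      ((Matrix.of fun (i : κ) (j : ι) => MvPolynomial.eval θ (MvPolynomial.pderiv j (H i))) *
        B).det := by
    intro θ
    rw [RingHom.map_det, RingHom.mapMatrix_apply]
    apply congrArg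
    ext i k
    simp [hM, Matrix.map_apply, Matrix.mul_apply]
  refine ⟨M.det, ?_, ?_⟩
  · intro hz
    have := hev θ₀
    rw [hz, hB] at this
    simp at this
  · intro θ hθ
    rw [hev θ] at hθ
    have hinj : Function.Injective (Matrix.vecMul · (Matrix.of fun (i : κ) (j : ι) =>
        MvPolynomial.eval θ (MvPolynomial.pderiv j (H i)))) := by
      intro x y hxy
      have h1 : x ᵥ* ((Matrix.of fun (i : κ) (j : ι) =>
          MvPolynomial.eval θ (MvPolynomial.pderiv j (H i))) * B) =
          y ᵥ* ((Matrix.of fun (i : κ) (j : ι) =>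
          MvPolynomial.eval θ (MvPolynomial.pderiv j (H i))) * B) := by
        rw [← Matrix.vecMul_vecMul, ← Matrix.vecMul_vecMul]
        exact congrArg (· ᵥ* B) hxy
      exact Matrix.vecMul_injective_of_isUnit
        ((Matrix.isUnit_iff_isUnit_det _).mpr (isUnit_iff_ne_zero.mpr hθ)) h1
    exact Matrix.vecMul_injective_iff.mp hinj

end Pool.Agent.MP62a5ad.QN
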