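import Pool.Agent.Lib.MP_62a5ad_mp.QN.SpecF

/-!
# MP_62a5ad_mp, QN, task InvC (helper51): invariance of the complex form on the leaves
-/

set_option autoImplicit false

namespace Pool.Agent.MP62a5ad.QN

open Matrix

namespace InvCAux

variable {ι : Type} [Fintype ι]

theorem rc_transpose {κ μ : Type} (A : Matrix κ μ ℝ) : rc Aᵀ = (rc A)ᵀ := rfl

theorem rc_neg {κ μ : Type} (A : Matrix κ μ ℝ) : rc (-A) = -rc A := by
  ext i j
  simp [rc]

theorem rc_mul {κ μ ν : Type} [Fintype μ] (A : Matrix κ μ ℝ) (B : Matrix μ ν ℝ) :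
    rc (A * B) = rc A * rc B := by
  ext i j
  simp [rc, Matrix.mul_apply]

/-- the kernel of a matrix with independent rows -/
theorem finrank_ker {p : ℕ} (a : Matrix (Fin p) ι ℂ) (h : LinearIndependent ℂ (fun i => a i)) :
    Module.finrank ℂ (LinearMap.ker a.mulVecLin) + p = Fintype.card ι := by
  have h1 := LinearMap.finrank_range_add_finrank_ker a.mulVecLin
  have h2 : a.rank = p := by
    have h3 : a.row = fun i => a i := rfl
    have h4 := LinearIndependent.rank_matrix (M := a) (by rw [h3]; exact h)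
    rw [h4, Fintype.card_fin]
  rw [Matrix.rank] at h2
  rw [h2, Module.finrank_fintype_fun_eq_card] at h1
  omega

end InvCAux

open InvCAux in
/-- **InvC**. Invariance of the complex form on the leaves. -/
theorem tInvC (hRkC : S_RkC) : S_InvC := by
  intro ι _ _ p q P0 T0 a K N N' F hcard hP hPTP hrank hind haP hK hNF v w hv hw
  set P := rc P0 with hPdef
  set T := rc T0 with hTdef
  have hPt : Pᵀ = -P := by
    rw [hPdef, ← rc_transpose, hP, rc_neg]
  have hPTP' : P * T * P = P := by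
    rw [hPdef, hTdef, ← rc_mul, ← rc_mul, hPTP]
  have hPr : P.rank = 2 * q := by
    rw [hPdef, hRkC, hrank]
  have hker := finrank_ker a hind
  -- range of P
  have hR1 : LinearMap.range P.mulVecLin = LinearMap.ker a.mulVecLin := by
    refine Submodule.eq_of_le_of_finrank_eq ?_ ?_
    · rintro x ⟨u, rfl⟩
      rw [LinearMap.mem_ker, mulVecLin_apply, mulVecLin_apply, mulVec_mulVec, haP, zero_mulVec]
    · rw [← Matrix.rank, hPr]
      omega
  have hR2 : LinearMap.range (P * Kᵀ).mulVecLin = LinearMap.range P.mulVecLin := by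
    refine Submodule.eq_of_le_of_finrank_le ?_ ?_
    · rintro x ⟨u, rfl⟩
      exact ⟨Kᵀ *ᵥ u, by rw [mulVecLin_apply, mulVecLin_apply, mulVec_mulVec]⟩
    · rw [← Matrix.rank, ← Matrix.rank]
      have h1 := Matrix.rank_mul_le_right K (P * Kᵀ)
      rw [← Matrix.mul_assoc, hK] at h1
      exact h1
  have hex : ∀ z : ι → ℂ, (a * N) *ᵥ z = 0 → ∃ u : ι → ℂ, N *ᵥ z = (P * Kᵀ) *ᵥ u := by
    intro z hz
    have h1 : N *ᵥ z ∈ LinearMap.range (P * Kᵀ).mulVecLin := by
      rw [hR2, hR1, LinearMap.mem_ker, mulVecLin_apply, mulVec_mulVec, hz]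
    obtain ⟨u, hu⟩ := h1
    exact ⟨u, by rw [← hu, mulVecLin_apply]⟩
  obtain ⟨u, hu⟩ := hex v hv
  obtain ⟨u', hu'⟩ := hex w hw
  have hF : ∀ z s : ι → ℂ, N *ᵥ z = (P * Kᵀ) *ᵥ s → N' *ᵥ (F *ᵥ z) = P *ᵥ s := by
    intro z s h
    rw [mulVec_mulVec, hNF, ← mulVec_mulVec, h, mulVec_mulVec, ← Matrix.mul_assoc, hK]
  -- general form
  have hform : ∀ (A B : Matrix ι ι ℂ) (x y : ι → ℂ),
      x ⬝ᵥ ((Aᵀ * B * A) *ᵥ y) = (A *ᵥ x) ⬝ᵥ (B *ᵥ (A *ᵥ y)) := by
    intro A B x y
    rw [← mulVec_mulVec, ← mulVec_mulVec, dotProduct_mulVec, vecMul_transpose]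
  rw [hform, hform, hF v u hu, hF w u' hu', hu, hu', ← hform, ← hform]
  have e1 : Pᵀ * T * P = -P := by
    rw [hPt, Matrix.neg_mul, Matrix.neg_mul, hPTP']
  have e2 : (P * Kᵀ)ᵀ * T * (P * Kᵀ) = -P := by
    rw [transpose_mul, transpose_transpose]
    calc K * Pᵀ * T * (P * Kᵀ) = K * (Pᵀ * T * P) * Kᵀ := by
          simp only [Matrix.mul_assoc]
      _ = -P := by
          rw [e1, Matrix.mul_neg, Matrix.neg_mul, hK]
  rw [e1, e2]

end Pool.Agent.MP62a5ad.QN
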