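import Pool.Agent.Lib.MP_62a5ad_mp.QN.SpecF

set_option autoImplicit false

namespace Pool.Agent.MP62a5ad.QN

open Matrix
open scoped ContDiff

namespace InvRAux

theorem rk {ι κ : Type} [Fintype ι] [DecidableEq ι] [Fintype κ] [DecidableEq κ]
    (D : Matrix κ ι ℝ) (h : ∀ l : κ → ℝ, Dᵀ *ᵥ l = 0 → l = 0) :
    Module.finrank ℝ (LinearMap.ker D.mulVecLin) + Fintype.card κ = Fintype.card ι := by
  have h1 := LinearMap.finrank_range_add_finrank_ker D.mulVecLin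
  have hinj : Function.Injective Dᵀ.mulVecLin := by
    rw [← LinearMap.ker_eq_bot, LinearMap.ker_eq_bot']
    intro l hl
    exact h l hl
  have h3 : Dᵀ.rank = Fintype.card κ := by
    have := LinearMap.finrank_range_of_inj hinj
    rw [Matrix.rank, this, Module.finrank_fintype_fun_eq_card]
  have h2 : Module.finrank ℝ (LinearMap.range D.mulVecLin) = Fintype.card κ := by
    rw [← h3, Matrix.rank_transpose, Matrix.rank]
  rw [h2, Module.finrank_fintype_fun_eq_card] at h1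
  omega

end InvRAux

/-- **InvR**. Invariance of the Poisson structure. -/
theorem tInvR (hBkN : S_BkN) (hBkA : S_BkA) : S_InvR := by
  intro ι κ _ _ _ _ Ω Ω' F D D' hΩ hΩ' hDF hD' hinv hdet
  obtain ⟨hA, hB⟩ := (hBkN ℝ ι κ Ω D).1 hdet
  obtain ⟨sk, Dπ, πΩ, -, -⟩ := hBkA ι κ Ω D hΩ hdet
  have hin : ∀ v, D *ᵥ v = 0 → D' *ᵥ (F *ᵥ v) = 0 := by
    intro v hv
    rw [mulVec_mulVec, hDF, hv]
  have hinj : ∀ v, D *ᵥ v = 0 → F *ᵥ v = 0 → v = 0 := by
    intro v hv hFv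
    refine hB v hv fun w hw => ?_
    rw [← hinv w v hw hv, hFv, mulVec_zero, dotProduct_zero]
  have hsurj : ∀ v', D' *ᵥ v' = 0 → ∃ v, D *ᵥ v = 0 ∧ F *ᵥ v = v' := by
    intro v' hv'
    let g : LinearMap.ker D.mulVecLin →ₗ[ℝ] LinearMap.ker D'.mulVecLin :=
      F.mulVecLin.restrict (fun v hv => by
        rw [LinearMap.mem_ker, mulVecLin_apply] at hv ⊢
        rw [mulVecLin_apply]
        exact hin v hv)
    have gi : Function.Injective g := by
      rw [← LinearMap.ker_eq_bot, LinearMap.ker_eq_bot']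
      rintro ⟨v, hv⟩ hgv
      have h1 : F *ᵥ v = 0 := congrArg Subtype.val hgv
      have h2 : D *ᵥ v = 0 := hv
      exact Subtype.ext (hinj v h2 h1)
    have hfr : Module.finrank ℝ (LinearMap.ker D.mulVecLin) =
        Module.finrank ℝ (LinearMap.ker D'.mulVecLin) := by
      have h1 := InvRAux.rk D hA
      have h2 := InvRAux.rk D' hD'
      omega
    have gs := (LinearMap.injective_iff_surjective_of_finrank_eq_finrank hfr).1 gi
    obtain ⟨⟨v, hv⟩, hgv⟩ := gs ⟨v', hv'⟩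
    exact ⟨v, hv, congrArg Subtype.val hgv⟩
  have hdet' : (blk Ω' D').det ≠ 0 := by
    refine (hBkN ℝ ι κ Ω' D').2 ⟨hD', fun v' hv' hw' => ?_⟩
    obtain ⟨v, hv, rfl⟩ := hsurj v' hv'
    have : v = 0 := by
      refine hB v hv fun w hw => ?_
      rw [← hinv w v hw hv]
      exact hw' _ (hin w hw)
    rw [this, mulVec_zero]
  refine ⟨hdet', ?_⟩
  obtain ⟨-, -, -, huni, -⟩ := hBkA ι κ Ω' D' hΩ' hdet'
  set π := bpi Ω D with hπ
  have πD : π * Dᵀ = 0 := by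
    have h1 : (D * π)ᵀ = 0 := by rw [Dπ, transpose_zero]
    rw [transpose_mul, sk, Matrix.neg_mul, neg_eq_zero] at h1
    exact h1
  have hz : ∀ u : ι → ℝ, (∀ w, D *ᵥ w = 0 → w ⬝ᵥ u = 0) → π *ᵥ u = 0 := by
    intro u hu
    have h1 : ∀ x : ι → ℝ, x ⬝ᵥ (π *ᵥ u) = 0 := by
      intro x
      have h2 : x ⬝ᵥ (π *ᵥ u) = (πᵀ *ᵥ x) ⬝ᵥ u := by
        rw [dotProduct_mulVec, mulVec_transpose]
      rw [h2]
      refine hu _ ?_
      rw [sk, neg_mulVec, mulVec_neg, mulVec_mulVec, Dπ, zero_mulVec, neg_zero]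
    funext i
    have h3 := h1 (Pi.single i 1)
    rw [single_dotProduct, one_mul] at h3
    exact h3
  refine huni _ ?_ fun v' hv' => ?_
  · rw [Matrix.mul_assoc, ← transpose_mul, hDF, Matrix.mul_assoc, πD, Matrix.mul_zero]
  · obtain ⟨v, hv, rfl⟩ := hsurj v' hv'
    have hu : π *ᵥ (Fᵀ *ᵥ (Ω' *ᵥ (F *ᵥ v)) - Ω *ᵥ v) = 0 := by
      refine hz _ fun w hw => ?_
      rw [dotProduct_sub, ← hinv w v hw hv]
      have h4 : w ⬝ᵥ (Fᵀ *ᵥ (Ω' *ᵥ (F *ᵥ v))) = (F *ᵥ w) ⬝ᵥ (Ω' *ᵥ (F *ᵥ v)) := by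
        rw [dotProduct_mulVec, vecMul_transpose]
      rw [h4, sub_self]
    rw [mulVec_sub, πΩ v hv, sub_eq_zero] at hu
    rw [← mulVec_mulVec, ← mulVec_mulVec, hu]

end Pool.Agent.MP62a5ad.QN
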