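import Pool.Agent.Lib.MP_62a5ad_mp.QN.SpecF

/-!
# MP_62a5ad_mp, QN: the Jacobi identity from the tensor identity
-/

set_option autoImplicit false

namespace Pool.Agent.MP62a5ad.QN

open Matrix
open scoped ContDiff

namespace JcTAux

section alg

variable {ι : Type} [Fintype ι]

lemma ren1 (f : ι → ι → ι → ι → ℝ) :
    ∑ i, ∑ l, ∑ j, ∑ k, f i l j k = ∑ i, ∑ l, ∑ j, ∑ k, f k j i l := by
  let e : ι × ι × ι × ι ≃ ι × ι × ι × ι :=
    { toFun := fun p => (p.2.2.2, p.2.2.1, p.1, p.2.1)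
      invFun := fun p => (p.2.2.1, p.2.2.2, p.2.1, p.1)
      left_inv := fun _ => rfl
      right_inv := fun _ => rfl }
  have h := Fintype.sum_equiv e (fun p => f p.2.2.2 p.2.2.1 p.1 p.2.1)
    (fun p => f p.1 p.2.1 p.2.2.1 p.2.2.2) (fun _ => rfl)
  simp only [Fintype.sum_prod_type] at h
  exact h.symm

lemma ren2 (f : ι → ι → ι → ι → ℝ) :
    ∑ i, ∑ l, ∑ j, ∑ k, f i l j k = ∑ i, ∑ j, ∑ k, ∑ l, f i l j k := by
  let e : ι × ι × ι × ι ≃ ι × ι × ι × ι :=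
    { toFun := fun p => (p.1, p.2.2.2, p.2.1, p.2.2.1)
      invFun := fun p => (p.1, p.2.2.1, p.2.2.2, p.2.1)
      left_inv := fun _ => rfl
      right_inv := fun _ => rfl }
  have h := Fintype.sum_equiv e (fun p => f p.1 p.2.2.2 p.2.1 p.2.2.1)
    (fun p => f p.1 p.2.1 p.2.2.1 p.2.2.2) (fun _ => rfl)
  simp only [Fintype.sum_prod_type] at h
  exact h.symm

lemma ren3 (f : ι → ι → ι → ι → ℝ) :
    ∑ i, ∑ l, ∑ j, ∑ k, f i l j k = ∑ i, ∑ j, ∑ k, ∑ l, f j l k i := by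
  let e : ι × ι × ι × ι ≃ ι × ι × ι × ι :=
    { toFun := fun p => (p.2.1, p.2.2.2, p.2.2.1, p.1)
      invFun := fun p => (p.2.2.2, p.1, p.2.2.1, p.2.1)
      left_inv := fun _ => rfl
      right_inv := fun _ => rfl }
  have h := Fintype.sum_equiv e (fun p => f p.2.1 p.2.2.2 p.2.2.1 p.1)
    (fun p => f p.1 p.2.1 p.2.2.1 p.2.2.2) (fun _ => rfl)
  simp only [Fintype.sum_prod_type] at h
  exact h.symm

lemma ren4 (f : ι → ι → ι → ι → ℝ) :
    ∑ i, ∑ l, ∑ j, ∑ k, f i l j k = ∑ i, ∑ j, ∑ k, ∑ l, f k l i j := by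
  let e : ι × ι × ι × ι ≃ ι × ι × ι × ι :=
    { toFun := fun p => (p.2.2.1, p.2.2.2, p.1, p.2.1)
      invFun := fun p => (p.2.2.1, p.2.2.2, p.1, p.2.1)
      left_inv := fun _ => rfl
      right_inv := fun _ => rfl }
  have h := Fintype.sum_equiv e (fun p => f p.2.2.1 p.2.2.2 p.1 p.2.1)
    (fun p => f p.1 p.2.1 p.2.2.1 p.2.2.2) (fun _ => rfl)
  simp only [Fintype.sum_prod_type] at h
  exact h.symm

/-- the term of the bracket -/
def trm (P : ι → ι → ℝ) (dP : ι → ι → ι → ℝ) (f g h : ι → ℝ) (G2 H2 : ι → ι → ℝ) : ℝ :=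
  ∑ i, ∑ l, P i l * (f i * ∑ j, ∑ k, (dP j k l * (g j * h k) +
    P j k * (G2 j l * h k + g j * H2 k l)))

def tA (P : ι → ι → ℝ) (dP : ι → ι → ι → ℝ) (f g h : ι → ℝ) : ℝ :=
  ∑ i, ∑ l, ∑ j, ∑ k, P i l * dP j k l * (f i * g j * h k)

def tB (P : ι → ι → ℝ) (f h : ι → ℝ) (G2 : ι → ι → ℝ) : ℝ :=
  ∑ i, ∑ l, ∑ j, ∑ k, P i l * P j k * (f i * h k) * G2 j l

def tC (P : ι → ι → ℝ) (f g : ι → ℝ) (H2 : ι → ι → ℝ) : ℝ :=
  ∑ i, ∑ l, ∑ j, ∑ k, P i l * P j k * (f i * g j) * H2 k l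

lemma trm_eq (P : ι → ι → ℝ) (dP : ι → ι → ι → ℝ) (f g h : ι → ℝ) (G2 H2 : ι → ι → ℝ) :
    trm P dP f g h G2 H2 = tA P dP f g h + tB P f h G2 + tC P f g H2 := by
  unfold trm tA tB tC
  rw [← Finset.sum_add_distrib, ← Finset.sum_add_distrib]
  refine Finset.sum_congr rfl fun i _ => ?_
  rw [← Finset.sum_add_distrib, ← Finset.sum_add_distrib]
  refine Finset.sum_congr rfl fun l _ => ?_
  rw [← Finset.sum_add_distrib, ← Finset.sum_add_distrib, Finset.mul_sum, Finset.mul_sum]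
  refine Finset.sum_congr rfl fun j _ => ?_
  rw [← Finset.sum_add_distrib, ← Finset.sum_add_distrib, Finset.mul_sum, Finset.mul_sum]
  refine Finset.sum_congr rfl fun k _ => ?_
  ring

lemma tBC {P : ι → ι → ℝ} (hP : ∀ i j, P j i = -P i j) (f h : ι → ℝ) {G2 : ι → ι → ℝ}
    (hG : ∀ i j, G2 i j = G2 j i) : tB P f h G2 + tC P h f G2 = 0 := by
  have h1 : tC P h f G2 = -tB P f h G2 := by
    unfold tB tC
    rw [ren1 (fun i l j k => P i l * P j k * (h i * f j) * G2 k l), ← Finset.sum_neg_distrib]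
    refine Finset.sum_congr rfl fun i _ => ?_
    rw [← Finset.sum_neg_distrib]
    refine Finset.sum_congr rfl fun l _ => ?_
    rw [← Finset.sum_neg_distrib]
    refine Finset.sum_congr rfl fun j _ => ?_
    rw [← Finset.sum_neg_distrib]
    refine Finset.sum_congr rfl fun k _ => ?_
    rw [hP j k, hG l j]
    ring
  rw [h1]
  ring

lemma tAAA {P : ι → ι → ℝ} {dP : ι → ι → ι → ℝ}
    (hT : ∀ i j k, ∑ l, (P i l * dP j k l + P j l * dP k i l + P k l * dP i j l) = 0)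
    (f g h : ι → ℝ) : tA P dP f g h + tA P dP g h f + tA P dP h f g = 0 := by
  unfold tA
  rw [ren2 (fun i l j k => P i l * dP j k l * (f i * g j * h k)),
    ren3 (fun i l j k => P i l * dP j k l * (g i * h j * f k)),
    ren4 (fun i l j k => P i l * dP j k l * (h i * f j * g k)), ← Finset.sum_add_distrib,
    ← Finset.sum_add_distrib]
  refine Finset.sum_eq_zero fun i _ => ?_
  rw [← Finset.sum_add_distrib, ← Finset.sum_add_distrib]
  refine Finset.sum_eq_zero fun j _ => ?_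
  rw [← Finset.sum_add_distrib, ← Finset.sum_add_distrib]
  refine Finset.sum_eq_zero fun k _ => ?_
  rw [← Finset.sum_add_distrib, ← Finset.sum_add_distrib]
  have h1 := congrArg (fun t => (f i * g j * h k) * t) (hT i j k)
  simp only [mul_zero, Finset.mul_sum] at h1
  rw [← h1]
  refine Finset.sum_congr rfl fun l _ => ?_
  ring

lemma alg_main {P : ι → ι → ℝ} {dP : ι → ι → ι → ℝ} (hP : ∀ i j, P j i = -P i j)
    (hT : ∀ i j k, ∑ l, (P i l * dP j k l + P j l * dP k i l + P k l * dP i j l) = 0)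
    (f g h : ι → ℝ) {F2 G2 H2 : ι → ι → ℝ} (hF : ∀ i j, F2 i j = F2 j i)
    (hG : ∀ i j, G2 i j = G2 j i) (hH : ∀ i j, H2 i j = H2 j i) :
    trm P dP f g h G2 H2 + trm P dP g h f H2 F2 + trm P dP h f g F2 G2 = 0 := by
  rw [trm_eq, trm_eq, trm_eq]
  have h1 := tAAA hT f g h
  have h2 := tBC hP f h hG
  have h3 := tBC hP g f hH
  have h4 := tBC hP h g hF
  linarith

end alg

section clc

variable {ι : Type} [Fintype ι] [DecidableEq ι]

lemma hasFD {U : Set (ι → ℝ)} (hU : IsOpen U) {F : (ι → ℝ) → ℝ} (hF : ContDiffOn ℝ ∞ F U)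
    {y : ι → ℝ} (hy : y ∈ U) : HasFDerivAt (fderiv ℝ F) (fderiv ℝ (fderiv ℝ F) y) y := by
  have h1 : ContDiffAt ℝ ∞ F y := hF.contDiffAt (hU.mem_nhds hy)
  have h2 : ContDiffAt ℝ 1 (fderiv ℝ F) y := h1.fderiv_right (m := 1) (by norm_cast)
  exact (h2.differentiableAt (by norm_num)).hasFDerivAt

lemma diff_pd {U : Set (ι → ℝ)} (hU : IsOpen U) {F : (ι → ℝ) → ℝ} (hF : ContDiffOn ℝ ∞ F U)
    {y : ι → ℝ} (hy : y ∈ U) (i : ι) : DifferentiableAt ℝ (fun x => pd F i x) y := by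
  have h1 := hasFD hU hF hy
  have h2 : DifferentiableAt ℝ (fun x => (fderiv ℝ F x) (Pi.single i (1 : ℝ))) y :=
    h1.differentiableAt.clm_apply (differentiableAt_const _)
  exact h2

lemma pd_pd {U : Set (ι → ℝ)} (hU : IsOpen U) {F : (ι → ℝ) → ℝ} (hF : ContDiffOn ℝ ∞ F U)
    {y : ι → ℝ} (hy : y ∈ U) (i k : ι) : pd (fun x => pd F i x) k y =
      (fderiv ℝ (fderiv ℝ F) y (Pi.single k 1)) (Pi.single i 1) := by
  have h1 := hasFD hU hF hy
  have h2 := (h1.clm_apply (hasFDerivAt_const (Pi.single i (1 : ℝ) : ι → ℝ) y)).fderiv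
  unfold pd
  rw [h2]
  simp

lemma sym {U : Set (ι → ℝ)} (hU : IsOpen U) {F : (ι → ℝ) → ℝ} (hF : ContDiffOn ℝ ∞ F U)
    {y : ι → ℝ} (hy : y ∈ U) (i k : ι) :
    pd (fun x => pd F i x) k y = pd (fun x => pd F k x) i y := by
  rw [pd_pd hU hF hy, pd_pd hU hF hy]
  have h1 : ContDiffAt ℝ ∞ F y := hF.contDiffAt (hU.mem_nhds hy)
  have h2 : IsSymmSndFDerivAt ℝ F y := h1.isSymmSndFDerivAt (by
    rw [minSmoothness_of_isRCLikeNormedField]
    norm_cast)
  exact h2 _ _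

lemma pd_sum {κ : Type} (s : Finset κ) {A : κ → (ι → ℝ) → ℝ} {y : ι → ℝ}
    (h : ∀ i ∈ s, DifferentiableAt ℝ (A i) y) (l : ι) :
    pd (fun x => ∑ i ∈ s, A i x) l y = ∑ i ∈ s, pd (A i) l y := by
  unfold pd
  rw [fderiv_fun_sum h, ContinuousLinearMap.sum_apply]

lemma pd_mul {F G : (ι → ℝ) → ℝ} {y : ι → ℝ} (hF : DifferentiableAt ℝ F y)
    (hG : DifferentiableAt ℝ G y) (l : ι) :
    pd (fun x => F x * G x) l y = pd F l y * G y + F y * pd G l y := by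
  unfold pd
  rw [fderiv_fun_mul hF hG]
  simp only [ContinuousLinearMap.add_apply, ContinuousLinearMap.smul_apply, smul_eq_mul]
  ring

lemma pd_br {U : Set (ι → ℝ)} (hU : IsOpen U) {π : (ι → ℝ) → Matrix ι ι ℝ}
    (hπ : ∀ i j, ContDiffOn ℝ ∞ (fun y => π y i j) U) {G H : (ι → ℝ) → ℝ}
    (hG : ContDiffOn ℝ ∞ G U) (hH : ContDiffOn ℝ ∞ H U) {y : ι → ℝ} (hy : y ∈ U) (l : ι) :
    pd (br π G H) l y = ∑ j, ∑ k, (pd (fun x => π x j k) l y * (pd G j y * pd H k y) +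
      π y j k * (pd (fun x => pd G j x) l y * pd H k y +
        pd G j y * pd (fun x => pd H k x) l y)) := by
  have hπd : ∀ j k, DifferentiableAt ℝ (fun x => π x j k) y := fun j k =>
    ((hπ j k).contDiffAt (hU.mem_nhds hy)).differentiableAt (by norm_num)
  have h0 : ∀ j k, DifferentiableAt ℝ (fun x => pd G j x * pd H k x) y := fun j k =>
    (diff_pd hU hG hy j).fun_mul (diff_pd hU hH hy k)
  have h1 : ∀ j k, DifferentiableAt ℝ (fun x => π x j k * (pd G j x * pd H k x)) y :=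
    fun j k => (hπd j k).fun_mul (h0 j k)
  have e : br π G H = fun x => ∑ j, ∑ k, π x j k * (pd G j x * pd H k x) := rfl
  rw [e, pd_sum Finset.univ (A := fun j x => ∑ k, π x j k * (pd G j x * pd H k x))
    (fun j _ => DifferentiableAt.fun_sum fun k _ => h1 j k)]
  refine Finset.sum_congr rfl fun j _ => ?_
  rw [pd_sum Finset.univ (A := fun k x => π x j k * (pd G j x * pd H k x)) (fun k _ => h1 j k)]
  refine Finset.sum_congr rfl fun k _ => ?_
  rw [pd_mul (hπd j k) (h0 j k), pd_mul (diff_pd hU hG hy j) (diff_pd hU hH hy k)]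

lemma br_br {U : Set (ι → ℝ)} (hU : IsOpen U) {π : (ι → ℝ) → Matrix ι ι ℝ}
    (hπ : ∀ i j, ContDiffOn ℝ ∞ (fun y => π y i j) U) {F G H : (ι → ℝ) → ℝ}
    (hG : ContDiffOn ℝ ∞ G U) (hH : ContDiffOn ℝ ∞ H U) {y : ι → ℝ} (hy : y ∈ U) :
    br π F (br π G H) y = trm (fun i j => π y i j) (fun j k l => pd (fun x => π x j k) l y)
      (fun i => pd F i y) (fun i => pd G i y) (fun i => pd H i y)
      (fun j l => pd (fun x => pd G j x) l y) (fun k l => pd (fun x => pd H k x) l y) := by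
  change ∑ i, ∑ l, π y i l * (pd F i y * pd (br π G H) l y) = _
  unfold trm
  refine Finset.sum_congr rfl fun i _ => ?_
  refine Finset.sum_congr rfl fun l _ => ?_
  rw [pd_br hU hπ hG hH hy l]

end clc

end JcTAux

open JcTAux in
theorem tJcT : S_JcT := by
  intro ι _ _ U π hU hπ hs hT
  refine ⟨hπ, hs, ?_⟩
  intro F G H hF hG hH y hy
  rw [br_br hU hπ hG hH hy, br_br hU hπ hH hF hy, br_br hU hπ hF hG hy]
  exact alg_main (hs y hy) (hT y hy) _ _ _ (fun i j => sym hU hF hy i j)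
    (fun i j => sym hU hG hy i j) (fun i j => sym hU hH hy i j)

end Pool.Agent.MP62a5ad.QN
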