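import Pool.Agent.Lib.MP_62a5ad_mp.QN.SpecF

/-!
# MP_62a5ad_mp, QN, LgC: the complex form vanishes on the common kernel
-/

set_option autoImplicit false

namespace Pool.Agent.MP62a5ad.QN

open Matrix

namespace LgCAux

variable {ι : Type} [Fintype ι] [DecidableEq ι]

theorem rc_transpose {κ μ : Type} (A : Matrix κ μ ℝ) : rc Aᵀ = (rc A)ᵀ := rfl

theorem rc_neg {κ μ : Type} (A : Matrix κ μ ℝ) : rc (-A) = -rc A := by
  ext i j
  simp [rc]

omit [DecidableEq ι] in
theorem rc_mul {κ μ : Type} (A : Matrix κ ι ℝ) (B : Matrix ι μ ℝ) : rc (A * B) = rc A * rc B := by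
  ext i j
  simp [rc, Matrix.mul_apply]

omit [DecidableEq ι] in
/-- The kernel of `a` is the range of `P aᵀ`. -/
theorem ker_le (p q : ℕ) (P : Matrix ι ι ℂ) (a : Matrix (Fin (p + q)) ι ℂ)
    (hc : Fintype.card ι = p + 2 * q) (hP : P.rank = 2 * q)
    (hi : LinearIndependent ℂ (fun i => a i)) (h : a * P * aᵀ = 0) (x : ι → ℂ)
    (hx : a *ᵥ x = 0) : ∃ c, x = (P * aᵀ) *ᵥ c := by
  have hra : a.rank = p + q := by
    have := LinearIndependent.rank_matrix (M := a) hi
    simpa using this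
  have hinj : Function.Injective (aᵀ).mulVec := by
    rw [Matrix.mulVec_injective_iff]
    exact hi
  have hle : LinearMap.range (P * aᵀ).mulVecLin ≤ LinearMap.ker a.mulVecLin := by
    rintro _ ⟨c, rfl⟩
    rw [LinearMap.mem_ker, Matrix.mulVecLin_apply, Matrix.mulVecLin_apply, Matrix.mulVec_mulVec,
      ← Matrix.mul_assoc, h, Matrix.zero_mulVec]
  have hker : Module.finrank ℂ (LinearMap.ker a.mulVecLin) = q := by
    have h1 := LinearMap.finrank_range_add_finrank_ker a.mulVecLin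
    have h2 : Module.finrank ℂ (LinearMap.range a.mulVecLin) = a.rank := rfl
    rw [h2, hra, Module.finrank_fintype_fun_eq_card, hc] at h1
    omega
  have hkP : Module.finrank ℂ (LinearMap.ker P.mulVecLin) = p := by
    have h1 := LinearMap.finrank_range_add_finrank_ker P.mulVecLin
    have h2 : Module.finrank ℂ (LinearMap.range P.mulVecLin) = P.rank := rfl
    rw [h2, hP, Module.finrank_fintype_fun_eq_card, hc] at h1
    omega
  have hkPa : Module.finrank ℂ (LinearMap.ker (P * aᵀ).mulVecLin) ≤ p := by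
    have hm : ∀ c ∈ LinearMap.ker (P * aᵀ).mulVecLin,
        (aᵀ).mulVecLin c ∈ LinearMap.ker P.mulVecLin := by
      intro c hc
      rw [LinearMap.mem_ker, Matrix.mulVecLin_apply] at hc ⊢
      rw [Matrix.mulVecLin_apply, Matrix.mulVec_mulVec, hc]
    refine (LinearMap.finrank_le_finrank_of_injective
      (f := (aᵀ).mulVecLin.restrict hm) ?_).trans hkP.le
    intro c c' h1
    apply Subtype.ext
    apply hinj
    have h2 := congrArg Subtype.val h1
    exact h2
  have hrk : q ≤ Module.finrank ℂ (LinearMap.range (P * aᵀ).mulVecLin) := by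
    have h1 := LinearMap.finrank_range_add_finrank_ker (P * aᵀ).mulVecLin
    rw [Module.finrank_fintype_fun_eq_card, Fintype.card_fin] at h1
    omega
  have heq := Submodule.eq_of_le_of_finrank_le hle (by rw [hker]; exact hrk)
  have hx' : x ∈ LinearMap.ker a.mulVecLin := hx
  rw [← heq] at hx'
  obtain ⟨c, hc⟩ := hx'
  exact ⟨c, hc.symm⟩

omit [DecidableEq ι] in
theorem dot_eq {κ : Type} [Fintype κ] (M : Matrix ι κ ℂ) (T : Matrix ι ι ℂ) (c c' : κ → ℂ) :
    (M *ᵥ c) ⬝ᵥ (T *ᵥ (M *ᵥ c')) = c ⬝ᵥ ((Mᵀ * (T * M)) *ᵥ c') := by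
  rw [← Matrix.mulVec_mulVec, ← Matrix.mulVec_mulVec, Matrix.dotProduct_mulVec c,
    Matrix.vecMul_transpose]

end LgCAux

open LgCAux in
/-- **LgC.** The complex form vanishes on the common kernel. -/
theorem tLgC (hRkC : S_RkC) : S_LgC := by
  intro ι _ _ p q P0 T0 a hc hP hPTP hr hi _ ha x x' hx hx'
  have hr' : (rc P0).rank = 2 * q := by rw [hRkC ι ι P0, hr]
  obtain ⟨c, rfl⟩ := ker_le p q (rc P0) a hc hr' hi ha x hx
  obtain ⟨c', rfl⟩ := ker_le p q (rc P0) a hc hr' hi ha x' hx'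
  have hT : (rc P0)ᵀ = -rc P0 := by rw [← rc_transpose, hP, rc_neg]
  have hM : (rc P0 * aᵀ)ᵀ * (rc T0 * (rc P0 * aᵀ)) = 0 := by
    have h1 : rc P0 * rc T0 * rc P0 = rc P0 := by rw [← rc_mul, ← rc_mul, hPTP]
    calc (rc P0 * aᵀ)ᵀ * (rc T0 * (rc P0 * aᵀ)) = a * (rc P0)ᵀ * rc T0 * rc P0 * aᵀ := by
          rw [Matrix.transpose_mul, Matrix.transpose_transpose]
          simp only [Matrix.mul_assoc]
      _ = -(a * (rc P0 * rc T0 * rc P0) * aᵀ) := by
          rw [hT]
          simp only [Matrix.mul_assoc, Matrix.neg_mul, Matrix.mul_neg]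
      _ = 0 := by rw [h1, ha, neg_zero]
  rw [dot_eq, hM, Matrix.zero_mulVec, dotProduct_zero]

end Pool.Agent.MP62a5ad.QN
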