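import Pool.Agent.Lib.MP_62a5ad_mp.QN.SpecF

set_option autoImplicit false

namespace Pool.Agent.MP62a5ad.QN

open Matrix
open scoped ContDiff
open Pool.Agent.MP62a5ad.PN (V4 M4 e0)

namespace MapNAux

theorem det_mono (c : Fin 3 → ℝ) : (mono c).det = c 2 := by
  unfold mono
  simp [Matrix.det_succ_row_zero, Fin.sum_univ_succ, Fin.succAbove]
  ring

theorem m0 (c : Fin 3 → ℝ) : mono c *ᵥ ![1, 0, 0, 0] = ![0, 1, 0, 0] := by
  unfold mono
  ext i
  fin_cases i <;> simp [Matrix.mulVec, dotProduct, Fin.sum_univ_succ]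

theorem m1 (c : Fin 3 → ℝ) : mono c *ᵥ ![0, 1, 0, 0] = ![0, 0, 1, 0] := by
  unfold mono
  ext i
  fin_cases i <;> simp [Matrix.mulVec, dotProduct, Fin.sum_univ_succ]

theorem m2 (c : Fin 3 → ℝ) : mono c *ᵥ ![0, 0, 1, 0] = ![0, 0, 0, 1] := by
  unfold mono
  ext i
  fin_cases i <;> simp [Matrix.mulVec, dotProduct, Fin.sum_univ_succ]

theorem p0 (c : Fin 3 → ℝ) : (mono c) ^ 0 *ᵥ e0 = ![1, 0, 0, 0] := by
  rw [pow_zero, Matrix.one_mulVec]
  rfl

theorem p1 (c : Fin 3 → ℝ) : (mono c) ^ 1 *ᵥ e0 = ![0, 1, 0, 0] := by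
  rw [pow_one]
  exact m0 c

theorem p2 (c : Fin 3 → ℝ) : (mono c) ^ 2 *ᵥ e0 = ![0, 0, 1, 0] := by
  rw [pow_succ', ← Matrix.mulVec_mulVec, p1, m1]

theorem p3 (c : Fin 3 → ℝ) : (mono c) ^ 3 *ᵥ e0 = ![0, 0, 0, 1] := by
  rw [pow_succ', ← Matrix.mulVec_mulVec, p2, m2]

/-- A matrix which commutes with `M` and kills `e0` is zero. -/
theorem kill (c : Fin 3 → ℝ) (D : M4) (hD : Commute D (mono c)) (h0 : D *ᵥ e0 = 0) : D = 0 := by
  have hj : ∀ j : ℕ, D *ᵥ ((mono c) ^ j *ᵥ e0) = 0 := by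
    intro j
    rw [Matrix.mulVec_mulVec, (hD.pow_right j).eq, ← Matrix.mulVec_mulVec, h0, Matrix.mulVec_zero]
  have h0' := hj 0
  have h1' := hj 1
  have h2' := hj 2
  have h3' := hj 3
  rw [p0] at h0'
  rw [p1] at h1'
  rw [p2] at h2'
  rw [p3] at h3'
  ext i j
  have c0 := congrFun h0' i
  have c1 := congrFun h1' i
  have c2 := congrFun h2' i
  have c3 := congrFun h3' i
  simp [Matrix.mulVec, dotProduct, Fin.sum_univ_succ] at c0 c1 c2 c3
  fin_cases j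
  · exact c0
  · exact c1
  · exact c2
  · exact c3

section

variable {n : ℕ} [NeZero n]

theorem mk_eq (y : E n) (v : V4) : mk n y v = v 0 • (Mo n y) ^ 0 + v 1 • (Mo n y) ^ 1 +
    v 2 • (Mo n y) ^ 2 + v 3 • (Mo n y) ^ 3 := by
  rw [mk, Fin.sum_univ_four]
  rfl

theorem mk_e0 (y : E n) (v : V4) : mk n y v *ᵥ e0 = v := by
  rw [mk_eq, Mo, Matrix.add_mulVec, Matrix.add_mulVec, Matrix.add_mulVec,
    Matrix.smul_mulVec, Matrix.smul_mulVec, Matrix.smul_mulVec, Matrix.smul_mulVec, p0, p1, p2, p3]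
  ext i
  fin_cases i <;> simp

theorem mk_comm (y : E n) (v : V4) (A : M4) (hA : Commute A (Mo n y)) :
    Commute A (mk n y v) := by
  rw [mk_eq]
  have hp : ∀ (c : ℝ) (j : ℕ), Commute A (c • (Mo n y) ^ j) := fun c j =>
    (hA.pow_right j).smul_right c
  exact (((hp _ _).add_right (hp _ _)).add_right (hp _ _)).add_right (hp _ _)

theorem mk_self (y : E n) (g : M4) (hg : Commute g (Mo n y)) : mk n y (g *ᵥ e0) = g := by
  rw [← sub_eq_zero]
  apply kill (cc n y)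
  · exact (mk_comm y _ (Mo n y) (Commute.refl _)).symm.sub_left hg
  · rw [Matrix.sub_mulVec, mk_e0, sub_self]

theorem comm (y : E n) (g h : M4) (hg : Commute g (Mo n y)) (hh : Commute h (Mo n y)) :
    Commute g h := by
  rw [← mk_self y g hg]
  exact (mk_comm y _ h hh).symm

theorem n_ne : (n : ℤ) ≠ 0 := Int.natCast_ne_zero.mpr (NeZero.ne n)

theorem n_pos : (0 : ℤ) < n := Int.natCast_pos.mpr (NeZero.pos n)

theorem rs_add (k j : ℤ) : rs n (k + n * j) = rs n k := by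
  rw [rs, rs, Int.add_mul_emod_self_left]

theorem rs_nat (j : Fin n) : rs n ((j : ℕ) : ℤ) = j := by
  rw [rs, Int.emod_eq_of_lt (Int.natCast_nonneg _) (Int.ofNat_lt.mpr j.isLt), Int.toNat_natCast]
  exact Fin.ofNat_val_eq_self j

theorem rs_val (k : ℤ) : (((rs n k : Fin n) : ℕ) : ℤ) = k % n := by
  have h0 : 0 ≤ k % (n : ℤ) := Int.emod_nonneg k n_ne
  have h1 : k % (n : ℤ) < n := Int.emod_lt_of_pos k n_pos
  have h2 : (k % (n : ℤ)).toNat < n := by omega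
  have h3 : ((rs n k : Fin n) : ℕ) = (k % (n : ℤ)).toNat := by
    rw [rs, Fin.val_ofNat, Nat.mod_eq_of_lt h2]
  rw [h3, Int.toNat_of_nonneg h0]

theorem pol_add (y : E n) (hu : IsUnit (Mo n y).det) (k j : ℤ) :
    pol n y (k + n * j) = (Mo n y ^ j) *ᵥ pol n y k := by
  rw [pol, pol, rs_add, Int.add_mul_ediv_left k j n_ne, add_comm, Matrix.zpow_add hu,
    Matrix.mulVec_mulVec]

theorem pol_nat (y : E n) (j : Fin n) : pol n y ((j : ℕ) : ℤ) = vert n y j := by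
  rw [pol, rs_nat, Int.ediv_eq_zero_of_lt (Int.natCast_nonneg _) (Int.ofNat_lt.mpr j.isLt),
    zpow_zero, Matrix.one_mulVec]

omit [NeZero n] in
theorem G_add (M : M4) (hu : IsUnit M.det) (G : ℤ → M4) (hG : ∀ k, G (k + n) = M * G k)
    (k q : ℤ) : G (k + n * q) = M ^ q * G k := by
  induction q using Int.induction_on with
  | zero => rw [mul_zero, add_zero, zpow_zero, one_mul]
  | succ q ih =>
    rw [mul_add, mul_one, ← add_assoc, hG, ih, add_comm (q : ℤ) 1, Matrix.zpow_one_add hu,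
      Matrix.mul_assoc]
  | pred q ih =>
    have h1 := hG (k + n * (-(q : ℤ) - 1))
    have h2 : k + n * (-(q : ℤ) - 1) + n = k + n * (-(q : ℤ)) := by ring
    rw [h2, ih] at h1
    have h3 : M ^ (-(q : ℤ)) = M * M ^ (-(q : ℤ) - 1) := by
      rw [← Matrix.zpow_one_add hu]
      congr 1
      ring
    rw [h3, Matrix.mul_assoc] at h1
    have h4 := congrArg (fun X => M⁻¹ * X) h1
    simp only [← Matrix.mul_assoc, Matrix.nonsing_inv_mul M hu, Matrix.one_mul] at h4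
    exact h4.symm

end

end MapNAux

open MapNAux in
theorem tMapN : S_MapN := by
  intro n _ a b e r sh hI y y' P G hy hcc hPM hGM hGd hP hG hPv hT hc
  have hd : (mono (cc n y)).det ≠ 0 := by
    rw [det_mono]
    exact hy
  have hu : IsUnit (mono (cc n y)).det := hd.isUnit
  have hMo' : Mo n y' = mono (cc n y) := by rw [Mo, hcc]
  have hu' : IsUnit (Mo n y').det := by rw [hMo']; exact hu
  have hgs : IsUnit (G sh).det := (hGd sh).isUnit
  -- the inverse of `G sh`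
  have hgi : ∀ A : M4, Commute (G sh) A → Commute (G sh)⁻¹ A := by
    intro A hA
    have h1 := Matrix.Commute.zpow_left hA (-1)
    rwa [Matrix.zpow_neg_one] at h1
  refine ⟨fun k => P k *ᵥ e0, fun k => G (k + sh) *ᵥ e0, pol n y', ⟨⟨hd, ?_⟩, hPv⟩, ⟨⟨?_, ?_⟩, ?_⟩,
    hI _ _ hT, (G sh)⁻¹, ?_, ⟨1, one_ne_zero, ?_⟩, ?_⟩
  · intro k
    show P (k + n) *ᵥ e0 = mono (cc n y) *ᵥ (P k *ᵥ e0)
    rw [hP, Matrix.mulVec_mulVec]
  · rw [hcc]
    exact hd
  · intro k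
    have h1 := pol_add y' hu' k 1
    rwa [mul_one, zpow_one] at h1
  · exact pol_nat y'
  · exact (Matrix.isUnit_nonsing_inv_det (G sh) hgs).ne_zero
  · rw [one_smul, hcc]
    exact (hgi _ (hGM sh)).eq
  · intro k
    obtain ⟨c, hc0, hc1⟩ := hc (rs n k)
    refine ⟨c, hc0, ?_⟩
    have hk : k + sh = (((rs n k : Fin n) : ℕ) : ℤ) + sh + n * (k / n) := by
      rw [rs_val]
      have := Int.emod_add_mul_ediv k (n : ℤ)
      linarith
    have h1 : G (k + sh) = mono (cc n y) ^ (k / (n : ℤ)) * G ((((rs n k : Fin n) : ℕ) : ℤ) + sh) := by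
      rw [hk]
      exact G_add (mono (cc n y)) hu G hG _ _
    have h2 : Commute (G sh)⁻¹ (mono (cc n y) ^ (k / (n : ℤ))) :=
      hgi _ (Matrix.Commute.zpow_right (hGM sh) _)
    have h3 : Commute (G sh)⁻¹ (G ((((rs n k : Fin n) : ℕ) : ℤ) + sh)) :=
      hgi _ (comm y _ _ (hGM sh) (hGM _))
    have h4 : pol n y' k = mono (cc n y) ^ (k / (n : ℤ)) *ᵥ vert n y' (rs n k) := by
      rw [pol, hMo']
    show (G sh)⁻¹ *ᵥ (G (k + sh) *ᵥ e0) = c • pol n y' k
    rw [h4, ← Matrix.mulVec_smul, ← hc1, h1, Matrix.mulVec_mulVec, Matrix.mulVec_mulVec,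
      ← Matrix.mul_assoc, h2.eq, Matrix.mul_assoc, h3.eq]

end Pool.Agent.MP62a5ad.QN
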