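import Pool.Agent.Lib.MP_62a5ad_mp.QN.SpecF

set_option autoImplicit false

namespace Pool.Agent.MP62a5ad.QN

open scoped ContDiff

namespace MltAux

variable {ι : Type} [Fintype ι] [DecidableEq ι]

theorem dd_sum {κ : Type} [Fintype κ] (w : ι → ℂ) (g : κ → (ι → ℝ) → ℂ) (y : ι → ℝ)
    (hg : ∀ k, DifferentiableAt ℝ (g k) y) :
    dd w (fun x => ∑ k, g k x) y = ∑ k, dd w (g k) y := by
  unfold dd
  rw [fderiv_fun_sum (fun k _ => hg k), Finset.sum_comm]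
  refine Finset.sum_congr rfl fun j _ => ?_
  rw [ContinuousLinearMap.sum_apply, Finset.mul_sum]

/-- The derivative number `j` of the polynomial `∑ Φ_k X^k` at `h`. -/
noncomputable def De {N : ℕ} (Φ : Fin (N + 1) → (ι → ℝ) → ℂ) (h : (ι → ℝ) → ℂ) (j : ℕ)
    (y : ι → ℝ) : ℂ :=
  ∑ k : Fin (N + 1), (((k : ℕ).descFactorial j : ℕ) : ℂ) * Φ k y * h y ^ ((k : ℕ) - j)

theorem contDiffOn_De {N : ℕ} {Φ : Fin (N + 1) → (ι → ℝ) → ℂ} {h : (ι → ℝ) → ℂ}
    {O : Set (ι → ℝ)} (hΦ : ∀ k, ContDiffOn ℝ ∞ (Φ k) O) (hh : ContDiffOn ℝ ∞ h O) (j : ℕ) :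
    ContDiffOn ℝ ∞ (De Φ h j) O := by
  unfold De
  exact ContDiffOn.sum fun k _ => (contDiffOn_const.mul (hΦ k)).mul (hh.pow _)

theorem dd_De (hDd : S_Dd) {N : ℕ} {Φ : Fin (N + 1) → (ι → ℝ) → ℂ} {h : (ι → ℝ) → ℂ}
    {y : ι → ℝ} (hΦ : ∀ k, DifferentiableAt ℝ (Φ k) y) (hh : DifferentiableAt ℝ h y) (w : ι → ℂ)
    (hw : ∀ k, dd w (Φ k) y = 0) (j : ℕ) : dd w (De Φ h j) y = De Φ h (j + 1) y * dd w h y := by
  obtain ⟨hr, hc, -⟩ := hDd ι w y
  have hterm : ∀ k : Fin (N + 1), DifferentiableAt ℝ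
      (fun x => (((k : ℕ).descFactorial j : ℕ) : ℂ) * Φ k x * h x ^ ((k : ℕ) - j)) y := fun k =>
    ((differentiableAt_const _).mul (hΦ k)).mul (hh.pow _)
  unfold De
  rw [dd_sum w (fun (k : Fin (N + 1)) x =>
    (((k : ℕ).descFactorial j : ℕ) : ℂ) * Φ k x * h x ^ ((k : ℕ) - j)) y hterm, Finset.sum_mul]
  refine Finset.sum_congr rfl fun k _ => ?_
  have h1 : dd w (fun x => (((k : ℕ).descFactorial j : ℕ) : ℂ) * Φ k x) y = 0 := by
    have h2 := (hr (fun _ => (((k : ℕ).descFactorial j : ℕ) : ℂ)) (Φ k)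
      (differentiableAt_const _) (hΦ k)).2.2.1
    rw [h2, hc, hw k, zero_mul, mul_zero, add_zero]
  have h3 := (hr (fun x => (((k : ℕ).descFactorial j : ℕ) : ℂ) * Φ k x)
    (fun x => h x ^ ((k : ℕ) - j)) ((differentiableAt_const _).mul (hΦ k)) (hh.pow _)).2.2.1
  have h4 := (hr h h hh hh).2.2.2.2.2 ((k : ℕ) - j)
  rw [h3, h1, h4, zero_mul, zero_add, Nat.descFactorial_succ]
  have h5 : (k : ℕ) - (j + 1) = (k : ℕ) - j - 1 := by omega
  rw [h5]
  push_cast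
  ring

theorem eq_zero_of_De {N : ℕ} {Φ : Fin (N + 1) → (ι → ℝ) → ℂ} {h : (ι → ℝ) → ℂ} {y : ι → ℝ}
    (hD : ∀ j, De Φ h j y = 0) : ∀ (m : ℕ) (k : Fin (N + 1)), N - (k : ℕ) = m → Φ k y = 0 := by
  intro m
  induction m using Nat.strong_induction_on with
  | _ m ih =>
    intro k hk
    have h1 := hD k
    unfold De at h1
    rw [Finset.sum_eq_single k] at h1
    · rw [Nat.descFactorial_self, Nat.sub_self, pow_zero, mul_one] at h1
      rcases mul_eq_zero.1 h1 with h2 | h2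
      · exact absurd h2 (Nat.cast_ne_zero.2 (Nat.factorial_ne_zero _))
      · exact h2
    · intro l _ hl
      rcases lt_or_ge (l : ℕ) (k : ℕ) with h2 | h2
      · rw [Nat.descFactorial_of_lt h2, Nat.cast_zero, zero_mul, zero_mul]
      · have h3 : (k : ℕ) ≠ (l : ℕ) := fun h => hl (Fin.ext h.symm)
        have h4 := l.isLt
        have h5 := k.isLt
        rw [ih (N - (l : ℕ)) (by omega) l rfl, mul_zero, zero_mul]
    · intro h2
      exact absurd (Finset.mem_univ k) h2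

end MltAux

theorem tMlt (hDd : S_Dd) : S_Mlt := by
  intro ι _ _ N O Φ h hO hne hΦ hh hz hnz
  classical
  have hex : ∃ j, ∃ y ∈ O, MltAux.De Φ h j y ≠ 0 := by
    by_contra hcon
    push_neg at hcon
    obtain ⟨y, hy⟩ := hne
    obtain ⟨k, hk⟩ := hnz y hy
    exact hk (MltAux.eq_zero_of_De (fun j => hcon j y hy) _ k rfl)
  obtain ⟨y₀, hy₀, hj₀⟩ := Nat.find_spec hex
  have hmin : ∀ i, i < Nat.find hex → ∀ y ∈ O, MltAux.De Φ h i y = 0 := by
    intro i hi y hy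
    by_contra hc
    exact Nat.find_min hex hi ⟨y, hy, hc⟩
  have h0 : ∀ y ∈ O, MltAux.De Φ h 0 y = 0 := by
    intro y hy
    rw [← hz y hy]
    unfold MltAux.De
    exact Finset.sum_congr rfl fun k _ => by
      rw [Nat.descFactorial_zero, Nat.cast_one, one_mul, Nat.sub_zero]
  obtain ⟨j, hj⟩ : ∃ j, Nat.find hex = j + 1 := by
    rcases Nat.eq_zero_or_pos (Nat.find hex) with h1 | h1
    · rw [h1] at hj₀
      exact absurd (h0 y₀ hy₀) hj₀
    · exact ⟨Nat.find hex - 1, by omega⟩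
  rw [hj] at hj₀ hmin
  have hcont : ContinuousOn (MltAux.De Φ h (j + 1)) O :=
    (MltAux.contDiffOn_De hΦ hh (j + 1)).continuousOn
  refine ⟨O ∩ (MltAux.De Φ h (j + 1)) ⁻¹' {0}ᶜ, Set.inter_subset_left,
    hcont.isOpen_inter_preimage hO isOpen_compl_singleton, ⟨y₀, hy₀, hj₀⟩, ?_⟩
  rintro y ⟨hy, hyn⟩ w hw
  have hnhds : O ∈ nhds y := hO.mem_nhds hy
  have h1 := MltAux.dd_De hDd
    (fun k => ((hΦ k).contDiffAt hnhds).differentiableAt (by simp))
    ((hh.contDiffAt hnhds).differentiableAt (by simp)) w hw j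
  obtain ⟨-, hc, heq, -⟩ := hDd ι w y
  have h2 : dd w (MltAux.De Φ h j) y = 0 := by
    rw [heq (MltAux.De Φ h j) (fun _ => 0)
      (Filter.eventuallyEq_of_mem hnhds fun x hx => hmin j (Nat.lt_succ_self j) x hx), hc]
  rw [h2] at h1
  rcases mul_eq_zero.1 h1.symm with h3 | h3
  · exact absurd h3 hyn
  · exact h3

end Pool.Agent.MP62a5ad.QN
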