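import Pool.Agent.Lib.MP_62a5ad_mp.QN.SpecF

/-!
# MP_62a5ad_mp, QN: the complex form is nondegenerate on the leaves
-/

set_option autoImplicit false

namespace Pool.Agent.MP62a5ad.QN

open Matrix
open scoped ContDiff

namespace NdCAux

theorem rc_mul {κ μ ν : Type} [Fintype μ] (A : Matrix κ μ ℝ) (B : Matrix μ ν ℝ) :
    rc (A * B) = rc A * rc B := by
  ext i j
  simp [rc, Matrix.mul_apply]

theorem rc_transpose {κ μ : Type} (A : Matrix κ μ ℝ) : rc Aᵀ = (rc A)ᵀ := rfl

theorem rc_neg {κ μ : Type} (A : Matrix κ μ ℝ) : rc (-A) = -rc A := by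
  ext i j
  simp [rc]

theorem dot_form {ι : Type} [Fintype ι] (J T : Matrix ι ι ℂ) (w v : ι → ℂ) :
    w ⬝ᵥ ((Jᵀ * T * J) *ᵥ v) = (J *ᵥ w) ⬝ᵥ (T *ᵥ (J *ᵥ v)) := by
  rw [← mulVec_mulVec, ← mulVec_mulVec, mulVec_transpose, dotProduct_comm, ← dotProduct_mulVec,
    dotProduct_comm]

end NdCAux

open NdCAux in
theorem tNdC (hRkC : S_RkC) (hBkN : S_BkN) : S_NdC := by
  intro ι _ _ p q P0 T0 a J hcard hskew hptp hrank hind hcas hJ
  rw [hBkN]
  set A0 : Matrix (Fin p) ι ℂ := Matrix.of (fst p q a) with hA0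
  have hA0i : LinearIndependent ℂ A0.row := hind.comp (Fin.castAdd q) (Fin.castAdd_injective p q)
  have hJu : IsUnit J.det := isUnit_iff_ne_zero.2 hJ
  refine ⟨fun l hl => ?_, fun v hv hw => ?_⟩
  · rw [transpose_mul, ← mulVec_mulVec] at hl
    have h1 : A0ᵀ *ᵥ l = 0 := eq_zero_of_mulVec_eq_zero (by rwa [det_transpose]) hl
    rw [mulVec_transpose] at h1
    have h2 := Fintype.linearIndependent_iff.1 hA0i l (by
      funext j
      have h3 := congrFun h1 j
      rw [Finset.sum_apply]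
      exact h3)
    funext i
    exact h2 i
  · have hx : A0 *ᵥ (J *ᵥ v) = 0 := by rw [mulVec_mulVec]; exact hv
    have hker : LinearMap.range (rc P0).mulVecLin = LinearMap.ker A0.mulVecLin := by
      apply Submodule.eq_of_le_of_finrank_eq
      · rintro _ ⟨u, rfl⟩
        rw [LinearMap.mem_ker, mulVecLin_apply, mulVecLin_apply, mulVec_mulVec, hcas, zero_mulVec]
      · have h1 : Module.finrank ℂ (LinearMap.range (rc P0).mulVecLin) = 2 * q := by
          have h2 : (rc P0).rank = 2 * q := (hRkC ι ι P0).trans hrank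
          exact h2
        have h3 : Module.finrank ℂ (LinearMap.range A0.mulVecLin) = p := by
          have h4 : A0.rank = Fintype.card (Fin p) := hA0i.rank_matrix
          rw [Fintype.card_fin] at h4
          exact h4
        have h5 := LinearMap.finrank_range_add_finrank_ker A0.mulVecLin
        rw [h3, Module.finrank_fintype_fun_eq_card, hcard] at h5
        omega
    obtain ⟨u, hu⟩ : J *ᵥ v ∈ LinearMap.range (rc P0).mulVecLin := by
      rw [hker, LinearMap.mem_ker, mulVecLin_apply]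
      exact hx
    rw [mulVecLin_apply] at hu
    have key : ∀ u' : ι → ℂ, u' ⬝ᵥ (rc P0 *ᵥ u) = 0 := by
      intro u'
      have hJw : J *ᵥ (J⁻¹ *ᵥ (rc P0 *ᵥ u')) = rc P0 *ᵥ u' := by
        rw [mulVec_mulVec, mul_nonsing_inv J hJu, one_mulVec]
      have h1 := hw (J⁻¹ *ᵥ (rc P0 *ᵥ u')) (by
        rw [← mulVec_mulVec, hJw, mulVec_mulVec, hcas, zero_mulVec])
      rw [dot_form, hJw, ← hu] at h1
      have h2 : (rc P0 *ᵥ u') ⬝ᵥ (rc T0 *ᵥ (rc P0 *ᵥ u)) =
          u' ⬝ᵥ (((rc P0)ᵀ * rc T0 * rc P0) *ᵥ u) := by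
        rw [← mulVec_mulVec, ← mulVec_mulVec, mulVec_transpose, dotProduct_comm u',
          ← dotProduct_mulVec, dotProduct_comm]
      have h3 : (rc P0)ᵀ * rc T0 * rc P0 = -rc P0 := by
        rw [← rc_transpose, hskew, ← rc_mul, ← rc_mul, ← rc_neg, neg_mul, neg_mul, hptp]
      rw [h2, h3, neg_mulVec, dotProduct_neg, neg_eq_zero] at h1
      exact h1
    have h0 : rc P0 *ᵥ u = 0 := by
      apply dotProduct_eq
      intro w
      rw [dotProduct_comm, key w, zero_dotProduct]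
    have hJv : J *ᵥ v = 0 := by rw [← hu, h0]
    exact eq_zero_of_mulVec_eq_zero hJ hJv

end Pool.Agent.MP62a5ad.QN
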