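import Pool.Agent.Lib.MP_62a5ad_mp.QN.SpecF

set_option autoImplicit false

namespace Pool.Agent.MP62a5ad.QN

open Matrix
open scoped ContDiff
open Pool.Agent.MP62a5ad.PN (V4 M4 e0)

namespace PerAux

theorem det_mono (c : Fin 3 → ℝ) : (mono c).det = c 2 := by
  unfold mono
  simp [Matrix.det_succ_row_zero, Fin.sum_univ_succ, Fin.succAbove]
  ring

theorem m0 (c : Fin 3 → ℝ) : mono c *ᵥ ![1, 0, 0, 0] = ![0, 1, 0, 0] := by
  unfold mono
  ext i
  fin_cases i <;> simp [Matrix.mulVec, dotProduct, Fin.sum_univ_succ]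

theorem m1 (c : Fin 3 → ℝ) : mono c *ᵥ ![0, 1, 0, 0] = ![0, 0, 1, 0] := by
  unfold mono
  ext i
  fin_cases i <;> simp [Matrix.mulVec, dotProduct, Fin.sum_univ_succ]

theorem m2 (c : Fin 3 → ℝ) : mono c *ᵥ ![0, 0, 1, 0] = ![0, 0, 0, 1] := by
  unfold mono
  ext i
  fin_cases i <;> simp [Matrix.mulVec, dotProduct, Fin.sum_univ_succ]

theorem p0 (c : Fin 3 → ℝ) : (mono c) ^ 0 *ᵥ e0 = ![1, 0, 0, 0] := by
  rw [pow_zero, Matrix.one_mulVec]
  rfl

theorem p1 (c : Fin 3 → ℝ) : (mono c) ^ 1 *ᵥ e0 = ![0, 1, 0, 0] := by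
  rw [pow_one]
  exact m0 c

theorem p2 (c : Fin 3 → ℝ) : (mono c) ^ 2 *ᵥ e0 = ![0, 0, 1, 0] := by
  rw [pow_succ', ← Matrix.mulVec_mulVec, p1, m1]

theorem p3 (c : Fin 3 → ℝ) : (mono c) ^ 3 *ᵥ e0 = ![0, 0, 0, 1] := by
  rw [pow_succ', ← Matrix.mulVec_mulVec, p2, m2]

/-- A matrix which commutes with `M` and kills `e0` is zero. -/
theorem kill (c : Fin 3 → ℝ) (D : M4) (hD : Commute D (mono c)) (h0 : D *ᵥ e0 = 0) : D = 0 := by
  have hj : ∀ j : ℕ, D *ᵥ ((mono c) ^ j *ᵥ e0) = 0 := by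
    intro j
    rw [Matrix.mulVec_mulVec, (hD.pow_right j).eq, ← Matrix.mulVec_mulVec, h0, Matrix.mulVec_zero]
  have h0' := hj 0
  have h1' := hj 1
  have h2' := hj 2
  have h3' := hj 3
  rw [p0] at h0'
  rw [p1] at h1'
  rw [p2] at h2'
  rw [p3] at h3'
  ext i j
  have c0 := congrFun h0' i
  have c1 := congrFun h1' i
  have c2 := congrFun h2' i
  have c3 := congrFun h3' i
  simp [Matrix.mulVec, dotProduct, Fin.sum_univ_succ] at c0 c1 c2 c3
  fin_cases j
  · exact c0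
  · exact c1
  · exact c2
  · exact c3

section

variable {n : ℕ} [NeZero n]

theorem mk_eq (y : E n) (v : V4) : mk n y v = v 0 • (Mo n y) ^ 0 + v 1 • (Mo n y) ^ 1 +
    v 2 • (Mo n y) ^ 2 + v 3 • (Mo n y) ^ 3 := by
  rw [mk, Fin.sum_univ_four]
  rfl

theorem mk_e0 (y : E n) (v : V4) : mk n y v *ᵥ e0 = v := by
  rw [mk_eq, Mo, Matrix.add_mulVec, Matrix.add_mulVec, Matrix.add_mulVec,
    Matrix.smul_mulVec, Matrix.smul_mulVec, Matrix.smul_mulVec, Matrix.smul_mulVec, p0, p1, p2, p3]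
  ext i
  fin_cases i <;> simp

theorem mk_comm (y : E n) (v : V4) (A : M4) (hA : Commute A (Mo n y)) :
    Commute A (mk n y v) := by
  rw [mk_eq]
  have hp : ∀ (c : ℝ) (j : ℕ), Commute A (c • (Mo n y) ^ j) := fun c j =>
    (hA.pow_right j).smul_right c
  exact (((hp _ _).add_right (hp _ _)).add_right (hp _ _)).add_right (hp _ _)

theorem mk_self (y : E n) (g : M4) (hg : Commute g (Mo n y)) : mk n y (g *ᵥ e0) = g := by
  rw [← sub_eq_zero]
  apply kill (cc n y)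
  · exact (mk_comm y _ (Mo n y) (Commute.refl _)).symm.sub_left hg
  · rw [Matrix.sub_mulVec, mk_e0, sub_self]

theorem comm (y : E n) (g h : M4) (hg : Commute g (Mo n y)) (hh : Commute h (Mo n y)) :
    Commute g h := by
  rw [← mk_self y g hg]
  exact (mk_comm y _ h hh).symm

theorem n_ne : (n : ℤ) ≠ 0 := Int.natCast_ne_zero.mpr (NeZero.ne n)

theorem n_pos : (0 : ℤ) < n := Int.natCast_pos.mpr (NeZero.pos n)

theorem rs_add (k j : ℤ) : rs n (k + n * j) = rs n k := by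
  rw [rs, rs, Int.add_mul_emod_self_left]

theorem rs_nat (j : Fin n) : rs n ((j : ℕ) : ℤ) = j := by
  rw [rs, Int.emod_eq_of_lt (Int.natCast_nonneg _) (Int.ofNat_lt.mpr j.isLt), Int.toNat_natCast]
  exact Fin.ofNat_val_eq_self j

theorem pol_add (y : E n) (hu : IsUnit (Mo n y).det) (k j : ℤ) :
    pol n y (k + n * j) = (Mo n y ^ j) *ᵥ pol n y k := by
  rw [pol, pol, rs_add, Int.add_mul_ediv_left k j n_ne, add_comm, Matrix.zpow_add hu,
    Matrix.mulVec_mulVec]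

theorem pol_nat (y : E n) (j : Fin n) : pol n y ((j : ℕ) : ℤ) = vert n y j := by
  rw [pol, rs_nat, Int.ediv_eq_zero_of_lt (Int.natCast_nonneg _) (Int.ofNat_lt.mpr j.isLt),
    zpow_zero, Matrix.one_mulVec]

theorem us_add (y : E n) (hu : IsUnit (Mo n y).det) (r m : ℤ) :
    us n r y (m + n) = (Mo n y ^ r) *ᵥ us n r y m := by
  rw [us, us, mul_add, mul_comm r (n : ℤ), pol_add y hu]

theorem Bm_add (y : E n) (hu : IsUnit (Mo n y).det) (e : ℕ) (r m : ℤ) :
    Bm n e r y (m + n) = (Mo n y ^ r) * Bm n e r y m := by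
  have hc : ∀ j : ℕ, tm n e y ^ j * (Mo n y ^ r) = (Mo n y ^ r) * tm n e y ^ j := fun j =>
    ((Matrix.Commute.self_zpow (Mo n y) r).pow_left e).pow_left j
  ext i j
  rw [Bm, Matrix.of_apply, us_add y hu, Matrix.mulVec_mulVec, hc, ← Matrix.mulVec_mulVec,
    Matrix.mul_apply, Matrix.mulVec, dotProduct]
  rfl

theorem bv_add (y : E n) (hu : IsUnit (Mo n y).det) (e : ℕ) (r m : ℤ) :
    bv n e r y (m + n) = bv n e r y m := by
  rw [bv, bv, Bm_add y hu, Matrix.mul_inv_rev, add_right_comm, us_add y hu,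
    ← Matrix.mulVec_mulVec, Matrix.mulVec_mulVec _ (Mo n y ^ r)⁻¹,
    Matrix.nonsing_inv_mul _ (hu.det_zpow r), Matrix.one_mulVec]

theorem s0_add (y : E n) (hu : IsUnit (Mo n y).det) (e : ℕ) (r m : ℤ) :
    s0 n e r y (m + n) = s0 n e r y m := by
  rw [s0, s0, bv_add y hu]

theorem kap_add (y : E n) (hu : IsUnit (Mo n y).det) (e : ℕ) (r m : ℤ) :
    kap n e r y (m + n) = kap n e r y m := by
  rw [kap, kap, bv_add y hu, s0_add y hu]

theorem dat0_add (y : E n) (hu : IsUnit (Mo n y).det) (e : ℕ) (r m : ℤ) :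
    dat0 n e r y (m + n) = dat0 n e r y m := by
  rw [dat0, dat0, bv_add y hu, s0_add y hu, kap_add y hu]

omit [NeZero n] in
theorem fwd_add (p : Fin 4 → ℝ) (z : ℤ → Fin 3 → ℝ) (hz : ∀ m, z (m + n) = z m) (m : ℤ) :
    fwd p z (m + n) = fwd p z m := by
  have h1 : z (m + n + 1) = z (m + 1) := by rw [add_right_comm, hz]
  rw [fwd, fwd, h1, hz]

omit [NeZero n] in
theorem bwd_add (p : Fin 4 → ℝ) (z : ℤ → Fin 3 → ℝ) (hz : ∀ m, z (m + n) = z m) (m : ℤ) :
    bwd p z (m + n) = bwd p z m := by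
  have h1 : z (m + n - 1) = z (m - 1) := by rw [add_sub_right_comm, hz]
  rw [bwd, bwd, h1, hz]

omit [NeZero n] in
theorem fwd_iter (p : Fin 4 → ℝ) (z : ℤ → Fin 3 → ℝ) (hz : ∀ m, z (m + n) = z m) (k : ℕ) :
    ∀ m, (fwd p)^[k] z (m + n) = (fwd p)^[k] z m := by
  induction k with
  | zero => exact hz
  | succ k ih =>
    intro m
    rw [Function.iterate_succ_apply']
    exact fwd_add p _ ih m

omit [NeZero n] in
theorem bwd_iter (p : Fin 4 → ℝ) (z : ℤ → Fin 3 → ℝ) (hz : ∀ m, z (m + n) = z m) (k : ℕ) :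
    ∀ m, (bwd p)^[k] z (m + n) = (bwd p)^[k] z m := by
  induction k with
  | zero => exact hz
  | succ k ih =>
    intro m
    rw [Function.iterate_succ_apply']
    exact bwd_add p _ ih m

theorem dat_add (y : E n) (hu : IsUnit (Mo n y).det) (e : ℕ) (r τ m : ℤ) :
    dat n e r y τ (m + n) = dat n e r y τ m := by
  rw [dat]
  cases τ with
  | ofNat k => exact fwd_iter _ _ (dat0_add y hu e r) k m
  | negSucc k => exact bwd_iter _ _ (dat0_add y hu e r) (k + 1) m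

end

end PerAux

open PerAux in
theorem tPer : S_Per := by
  intro n _ e r y hy
  have hd : (Mo n y).det ≠ 0 := by
    rw [Mo, det_mono]
    exact hy
  have hu : IsUnit (Mo n y).det := hd.isUnit
  refine ⟨hd, ?_, pol_nat y, us_add y hu r, ?_, bv_add y hu e r, dat_add y hu e r, ?_, ?_⟩
  · intro k
    have h1 := pol_add y hu k 1
    rwa [mul_one, zpow_one] at h1
  · intro m
    rw [Bm_add y hu, Matrix.det_mul]
    constructor
    · intro h
      exact right_ne_zero_of_mul h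
    · intro h
      exact mul_ne_zero (hu.det_zpow r).ne_zero h
  · intro v
    exact ⟨mk_e0 y v, ((mk_comm y v (Mo n y) (Commute.refl _)).symm).eq⟩
  · intro g h hg hh
    exact ⟨(comm y g h hg hh).eq, mk_self y g hg⟩

end Pool.Agent.MP62a5ad.QN
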