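import Pool.Agent.Lib.MP_62a5ad_mp.QN.SpecF

/-!
# MP_62a5ad_mp, QN: polynomials in functions with independent differentials (helper56)
-/

set_option autoImplicit false

namespace Pool.Agent.MP62a5ad.QN

open Matrix
open scoped ContDiff

namespace PolAux

/-- a polynomial with vanishing derivatives is a constant -/
theorem const_of_pderiv {ι : Type} [Fintype ι] [DecidableEq ι] (D : MvPolynomial ι ℂ)
    (h : ∀ k, MvPolynomial.pderiv k D = 0) : D = MvPolynomial.C (MvPolynomial.coeff 0 D) := by
  ext m
  rw [MvPolynomial.coeff_C]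
  split_ifs with hm
  · rw [← hm]
  · obtain ⟨k, hk⟩ : ∃ k, m k ≠ 0 := by
      by_contra hne
      push Not at hne
      exact hm (Finsupp.ext fun k => by simp [hne k])
    have hle : Finsupp.single k 1 ≤ m := by
      rw [Finsupp.single_le_iff]
      omega
    have hmm : m - Finsupp.single k 1 + Finsupp.single k 1 = m := tsub_add_cancel_of_le hle
    have hc := MvPolynomial.coeff_pderiv (i := k) D (m - Finsupp.single k 1)
    rw [h k, hmm, MvPolynomial.coeff_zero] at hc
    have hne : ((((m - Finsupp.single k 1 : ι →₀ ℕ) k : ℕ) : ℂ) + 1) ≠ 0 :=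
      Nat.cast_add_one_ne_zero _
    rcases mul_eq_zero.mp hc.symm with h0 | h0
    · exact h0
    · exact absurd h0 hne

/-- the degree of the derivative -/
theorem deg_pderiv {ι : Type} [Fintype ι] [DecidableEq ι] (D : MvPolynomial ι ℂ) (k : ι) (N : ℕ)
    (hD : D.totalDegree ≤ N) (hk : MvPolynomial.pderiv k D ≠ 0) :
    ∃ M, N = M + 1 ∧ (MvPolynomial.pderiv k D).totalDegree ≤ M := by
  have key : ∀ m ∈ (MvPolynomial.pderiv k D).support, (m.sum fun _ e => e) + 1 ≤ N := by
    intro m hm
    rw [MvPolynomial.mem_support_iff, MvPolynomial.coeff_pderiv] at hm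
    have hs : m + Finsupp.single k 1 ∈ D.support := by
      rw [MvPolynomial.mem_support_iff]
      exact left_ne_zero_of_mul hm
    have hl := MvPolynomial.le_totalDegree hs
    rw [Finsupp.sum_add_index' (fun _ => rfl) (fun _ _ _ => rfl),
      Finsupp.sum_single_index rfl] at hl
    omega
  obtain ⟨m, hm⟩ : (MvPolynomial.pderiv k D).support.Nonempty := by
    rw [Finset.nonempty_iff_ne_empty]
    intro h
    exact hk (MvPolynomial.support_eq_empty.mp h)
  refine ⟨N - 1, by have := key m hm; omega, ?_⟩
  rw [MvPolynomial.totalDegree]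
  refine Finset.sup_le fun m' hm' => ?_
  have := key m' hm'
  omega

end PolAux

/-- **Pol** -/
theorem tPol (hDd : S_Dd) : S_Pol := by
  intro ι _ _ U Θ D hU hΘ hdet hD
  obtain ⟨N, hN⟩ : ∃ N, D.totalDegree ≤ N := ⟨_, le_rfl⟩
  induction N generalizing D with
  | zero =>
    intro O hO hne
    have hall : ∀ k, MvPolynomial.pderiv k D = 0 := by
      intro k
      by_contra hk
      obtain ⟨M, hM, _⟩ := PolAux.deg_pderiv D k 0 hN hk
      omega
    have hc := PolAux.const_of_pderiv D hall
    obtain ⟨y, hy⟩ := hne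
    refine ⟨y, hy, fun h => hD ?_⟩
    rw [hc, MvPolynomial.eval_C] at h
    rw [hc, h, map_zero]
  | succ N ih =>
    intro O hO hne
    by_cases hall : ∀ k, MvPolynomial.pderiv k D = 0
    · have hc := PolAux.const_of_pderiv D hall
      obtain ⟨y, hy⟩ := hne
      refine ⟨y, hy, fun h => hD ?_⟩
      rw [hc, MvPolynomial.eval_C] at h
      rw [hc, h, map_zero]
    · push Not at hall
      obtain ⟨k, hk⟩ := hall
      obtain ⟨M, hM, hdeg⟩ := PolAux.deg_pderiv D k (N + 1) hN hk
      have hMN : M = N := by omega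
      subst hMN
      obtain ⟨y, hy, hyk⟩ := ih (MvPolynomial.pderiv k D) hk hdeg O hO hne
      by_contra hcon
      push Not at hcon
      have hΘy : DifferentiableAt ℝ Θ y :=
        (hΘ.contDiffAt (hU.mem_nhds hy.2)).differentiableAt (by simp)
      set w : ι → ℂ := (cJ Θ y)⁻¹ *ᵥ Pi.single k 1 with hw
      have hJw : cJ Θ y *ᵥ w = Pi.single k 1 := by
        rw [hw, Matrix.mulVec_mulVec, Matrix.mul_nonsing_inv _
          (isUnit_iff_ne_zero.mpr (hdet y hy.2)), Matrix.one_mulVec]
      obtain ⟨_, hconst, hcongr, _, hchain⟩ := hDd ι w y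
      have h1 : dd w (fun x => MvPolynomial.eval (Θ x) D) y = 0 := by
        rw [← hconst 0]
        refine hcongr _ _ ?_
        filter_upwards [(hO.inter hU).mem_nhds hy] with x hx
        exact hcon x hx
      have h2 := hchain ι Θ D hΘy
      rw [h1] at h2
      have h3 : ∀ l, dd w (fun x => Θ x l) y = (Pi.single k 1 : ι → ℂ) l := by
        intro l
        rw [← hJw]
        unfold dd
        simp only [Matrix.mulVec, dotProduct, cJ, cpd, Matrix.of_apply]
        exact Finset.sum_congr rfl fun j _ => mul_comm _ _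
      simp only [h3] at h2
      rw [Finset.sum_eq_single k] at h2
      · rw [Pi.single_eq_same, mul_one] at h2
        exact hyk h2.symm
      · intro l _ hl
        rw [Pi.single_eq_of_ne hl, mul_zero]
      · intro h
        exact absurd (Finset.mem_univ k) h

end Pool.Agent.MP62a5ad.QN
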