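import Pool.Agent.Lib.MP_62a5ad_mp.QN.SpecF

/-!
# MP_62a5ad_mp, QN: renaming of the coordinates (Re)
-/

set_option autoImplicit false
set_option linter.unusedSectionVars false

namespace Pool.Agent.MP62a5ad.QN

open Matrix
open scoped ContDiff

namespace ReAux

variable {ι κ : Type} [Fintype ι] [DecidableEq ι] [Fintype κ] [DecidableEq κ]

/-- the renaming as a continuous linear equivalence -/
private noncomputable def eL (φ : κ ≃ ι) : (κ → ℝ) ≃L[ℝ] (ι → ℝ) :=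
  (LinearEquiv.funCongrLeft ℝ ℝ φ.symm).toContinuousLinearEquiv

private theorem eL_apply (φ : κ ≃ ι) (y : κ → ℝ) : eL φ y = y ∘ φ.symm := rfl

private theorem eL_symm_apply (φ : κ ≃ ι) (v : ι → ℝ) : (eL φ).symm v = v ∘ φ := by
  rw [ContinuousLinearEquiv.symm_apply_eq, eL_apply]
  funext i
  simp

private theorem eL_single (φ : κ ≃ ι) (k : κ) :
    eL φ (Pi.single k 1) = Pi.single (φ k) 1 := by
  rw [eL_apply]
  funext i
  by_cases h : i = φ k
  · subst h
    simp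
  · have h' : φ.symm i ≠ k := fun h2 => h (by rw [← h2, Equiv.apply_symm_apply])
    simp [h, h']

private theorem pd_ren (φ : κ ≃ ι) (G : (ι → ℝ) → ℝ) (k : κ) (y : κ → ℝ) :
    pd (fun x : κ → ℝ => G (x ∘ φ.symm)) k y = pd G (φ k) (y ∘ φ.symm) := by
  unfold pd
  have h : fderiv ℝ (fun x : κ → ℝ => G (x ∘ φ.symm)) y =
      (fderiv ℝ G (eL φ y)).comp ((eL φ : (κ → ℝ) ≃L[ℝ] (ι → ℝ)) : (κ → ℝ) →L[ℝ] (ι → ℝ)) :=
    ContinuousLinearEquiv.comp_right_fderiv (eL φ)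
  rw [h, ContinuousLinearMap.comp_apply, ContinuousLinearEquiv.coe_coe, eL_single, eL_apply]

private theorem br_ren (φ : κ ≃ ι) (π : (ι → ℝ) → Matrix ι ι ℝ) (F G : (ι → ℝ) → ℝ)
    (y : κ → ℝ) :
    br (fun y : κ → ℝ => (π (y ∘ φ.symm)).submatrix φ φ) (fun x => F (x ∘ φ.symm))
      (fun x => G (x ∘ φ.symm)) y = br π F G (y ∘ φ.symm) := by
  unfold br
  simp only [pd_ren, Matrix.submatrix_apply]
  rw [Equiv.sum_comp φ (fun i => ∑ j : κ, π (y ∘ φ.symm) i (φ j) *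
    (pd F i (y ∘ φ.symm) * pd G (φ j) (y ∘ φ.symm)))]
  refine Finset.sum_congr rfl fun i _ => ?_
  exact Equiv.sum_comp φ (fun j => π (y ∘ φ.symm) i j *
    (pd F i (y ∘ φ.symm) * pd G j (y ∘ φ.symm)))

private theorem comp_comp (φ : κ ≃ ι) (v : ι → ℝ) : (v ∘ φ) ∘ φ.symm = v := by
  funext i
  simp

private theorem comp_comp' (φ : κ ≃ ι) (v : κ → ℝ) : (v ∘ φ.symm) ∘ φ = v := by
  funext i
  simp

private theorem smooth_ren {E : Type} [NormedAddCommGroup E] [NormedSpace ℝ E] (φ : κ ≃ ι)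
    {U : Set (ι → ℝ)} {G : (ι → ℝ) → E} (h : ContDiffOn ℝ ∞ G U) :
    ContDiffOn ℝ ∞ (fun y : κ → ℝ => G (y ∘ φ.symm)) {y : κ → ℝ | y ∘ φ.symm ∈ U} :=
  h.comp ((eL φ).contDiff.contDiffOn) fun _ hy => hy

private theorem smooth_ren' {E : Type} [NormedAddCommGroup E] [NormedSpace ℝ E] (φ : κ ≃ ι)
    {U : Set (ι → ℝ)} {G : (κ → ℝ) → E} (h : ContDiffOn ℝ ∞ G {y : κ → ℝ | y ∘ φ.symm ∈ U}) :
    ContDiffOn ℝ ∞ (fun v : ι → ℝ => G (v ∘ φ)) U := by
  have h1 : ContDiffOn ℝ ∞ (fun v : ι → ℝ => v ∘ φ) U := by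
    have h2 : (fun v : ι → ℝ => v ∘ φ) = (eL φ).symm := by
      funext v
      exact (eL_symm_apply φ v).symm
    rw [h2]
    exact (eL φ).symm.contDiff.contDiffOn
  refine h.comp h1 fun v hv => ?_
  change (v ∘ φ) ∘ φ.symm ∈ U
  rw [comp_comp]
  exact hv

private theorem dense_ren (φ : κ ≃ ι) {U : Set (ι → ℝ)} (h : Dense U) :
    Dense {y : κ → ℝ | y ∘ φ.symm ∈ U} :=
  h.preimage (eL φ).toHomeomorph.isOpenMap

end ReAux

open ReAux in
theorem tRe : S_Re := by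
  intro ι κ _ _ _ _ φ p q U f π F H
  have hJm : ∀ y : κ → ℝ, Jm (fun y : κ → ℝ => f (y ∘ φ.symm) ∘ φ) y =
      (Jm f (y ∘ φ.symm)).submatrix φ φ := by
    intro y
    ext i j
    unfold Jm
    rw [Matrix.submatrix_apply, Matrix.of_apply, Matrix.of_apply]
    exact pd_ren φ (fun x => f x (φ i)) j y
  constructor
  · exact H.isOpen.preimage (eL φ).continuous
  · exact dense_ren φ H.dense
  · have h1 := smooth_ren φ H.smooth
    have h2 : (fun y : κ → ℝ => f (y ∘ φ.symm) ∘ φ) =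
        fun y => (eL φ).symm (f (y ∘ φ.symm)) := by
      funext y
      rw [eL_symm_apply]
    rw [h2]
    exact (eL φ).symm.contDiff.comp_contDiffOn h1
  · have h1 : {y : κ → ℝ | y ∈ {y : κ → ℝ | y ∘ φ.symm ∈ U} ∧
        (f (y ∘ φ.symm) ∘ φ) ∈ {y : κ → ℝ | y ∘ φ.symm ∈ U}} =
        {y : κ → ℝ | y ∘ φ.symm ∈ {v | v ∈ U ∧ f v ∈ U}} := by
      ext y
      change _ ∧ (f (y ∘ φ.symm) ∘ φ) ∘ φ.symm ∈ U ↔ _
      rw [comp_comp]
      rfl
    rw [h1]
    exact dense_ren φ H.dense'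
  · constructor
    · intro i j
      exact smooth_ren φ (H.poisson.smooth (φ i) (φ j))
    · intro y hy i j
      exact H.poisson.skew _ hy (φ i) (φ j)
    · intro F₁ G₁ H₁ hF hG hH y hy
      have hb : ∀ A B : (κ → ℝ) → ℝ,
          br (fun y : κ → ℝ => (π (y ∘ φ.symm)).submatrix φ φ) A B =
          fun y => br π (fun v => A (v ∘ φ)) (fun v => B (v ∘ φ)) (y ∘ φ.symm) := by
        intro A B
        funext x
        have h1 := br_ren φ π (fun v => A (v ∘ φ)) (fun v => B (v ∘ φ)) x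
        have h2 : (fun x : κ → ℝ => (fun v : ι → ℝ => A (v ∘ φ)) (x ∘ φ.symm)) = A := by
          funext z
          change A ((z ∘ φ.symm) ∘ φ) = A z
          rw [comp_comp']
        have h3 : (fun x : κ → ℝ => (fun v : ι → ℝ => B (v ∘ φ)) (x ∘ φ.symm)) = B := by
          funext z
          change B ((z ∘ φ.symm) ∘ φ) = B z
          rw [comp_comp']
        rw [h2, h3] at h1
        exact h1
      have hb2 : ∀ A B C : (κ → ℝ) → ℝ,
          br (fun y : κ → ℝ => (π (y ∘ φ.symm)).submatrix φ φ) A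
            (br (fun y : κ → ℝ => (π (y ∘ φ.symm)).submatrix φ φ) B C) y =
          br π (fun v => A (v ∘ φ)) (br π (fun v => B (v ∘ φ)) (fun v => C (v ∘ φ)))
            (y ∘ φ.symm) := by
        intro A B C
        rw [hb B C, hb]
        change br π _ (fun v => br π _ _ ((v ∘ φ) ∘ φ.symm)) _ = _
        simp only [comp_comp]
      rw [hb2, hb2, hb2]
      exact H.poisson.jacobi _ _ _ (smooth_ren' φ hF) (smooth_ren' φ hG) (smooth_ren' φ hH) _ hy
  · intro y hy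
    rw [Matrix.rank_submatrix]
    exact H.rank _ hy
  · intro y hy hfy
    have h1 : f (y ∘ φ.symm) ∈ U := by
      have h2 : (f (y ∘ φ.symm) ∘ φ) ∘ φ.symm ∈ U := hfy
      rwa [comp_comp] at h2
    rw [hJm, Matrix.transpose_submatrix, Matrix.submatrix_mul_equiv, Matrix.submatrix_mul_equiv,
      H.inv _ hy h1]
    simp only [comp_comp]
  · intro i
    exact smooth_ren φ (H.smoothF i)
  · intro i y hy hfy
    have h1 : f (y ∘ φ.symm) ∈ U := by
      have h2 : (f (y ∘ φ.symm) ∘ φ) ∘ φ.symm ∈ U := hfy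
      rwa [comp_comp] at h2
    simp only [comp_comp]
    exact H.invF i _ hy h1
  · intro y hy
    have h1 := H.indep _ hy
    rw [Fintype.linearIndependent_iff] at h1 ⊢
    intro g hg
    apply h1 g
    ext v
    have h2 := DFunLike.congr_fun hg ((eL φ).symm v)
    have h3 : ∀ i, fderiv ℝ (fun x : κ → ℝ => F i (x ∘ φ.symm)) y =
        (fderiv ℝ (F i) (eL φ y)).comp
          ((eL φ : (κ → ℝ) ≃L[ℝ] (ι → ℝ)) : (κ → ℝ) →L[ℝ] (ι → ℝ)) :=
      fun i => ContinuousLinearEquiv.comp_right_fderiv (eL φ)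
    simp only [h3] at h2
    simpa [_root_.sum_apply, eL_apply] using h2
  · intro i j y hy
    rw [br_ren]
    exact H.invol i j _ hy
  · intro i hi y hy k
    simp only [pd_ren, Matrix.submatrix_apply]
    rw [Equiv.sum_comp φ (fun j => π (y ∘ φ.symm) (φ k) j * pd (F i) j (y ∘ φ.symm))]
    exact H.casimir i hi _ hy (φ k)

end Pool.Agent.MP62a5ad.QN
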