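import Pool.Agent.Lib.MP_62a5ad_mp.QN.SpecF

/-!
# MP_62a5ad_mp, QN: the rank of a real matrix over the complex numbers
-/

set_option autoImplicit false

open scoped Matrix

namespace Pool.Agent.MP62a5ad.QN

namespace RkCAux

variable {κ ι : Type} [Fintype ι]

/-- The map `(x, y) ↦ x + i y` on the column space. -/
noncomputable def phi (A : Matrix κ ι ℝ) :
    (LinearMap.range A.mulVecLin × LinearMap.range A.mulVecLin) →ₗ[ℝ] (κ → ℂ) where
  toFun x k := ((x.1 : κ → ℝ) k : ℂ) + ((x.2 : κ → ℝ) k : ℂ) * Complex.I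
  map_add' x y := by
    funext k
    simp only [Prod.fst_add, Prod.snd_add, Submodule.coe_add, Pi.add_apply, Complex.ofReal_add]
    ring
  map_smul' c x := by
    funext k
    simp only [Prod.smul_fst, Prod.smul_snd, Submodule.coe_smul, Pi.smul_apply, smul_eq_mul,
      Complex.ofReal_mul, RingHom.id_apply, Complex.real_smul]
    ring

theorem phi_apply (A : Matrix κ ι ℝ)
    (x : LinearMap.range A.mulVecLin × LinearMap.range A.mulVecLin) (k : κ) :
    phi A x k = ((x.1 : κ → ℝ) k : ℂ) + ((x.2 : κ → ℝ) k : ℂ) * Complex.I := rfl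

theorem phi_inj (A : Matrix κ ι ℝ) : Function.Injective (phi A) := by
  intro x y hxy
  have h : ∀ k, (x.1 : κ → ℝ) k = (y.1 : κ → ℝ) k ∧ (x.2 : κ → ℝ) k = (y.2 : κ → ℝ) k := by
    intro k
    have h0 := congrFun hxy k
    rw [phi_apply, phi_apply] at h0
    have h1 := congrArg Complex.re h0
    have h2 := congrArg Complex.im h0
    simp at h1 h2
    exact ⟨h1, h2⟩
  refine Prod.ext (Subtype.ext (funext fun k => (h k).1)) (Subtype.ext (funext fun k => (h k).2))

theorem rc_mulVec (A : Matrix κ ι ℝ) (w : ι → ℂ) (k : κ) :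
    (rc A *ᵥ w) k = (((A *ᵥ fun j => (w j).re) k : ℝ) : ℂ) +
      (((A *ᵥ fun j => (w j).im) k : ℝ) : ℂ) * Complex.I := by
  simp only [Matrix.mulVec, dotProduct, rc, Matrix.map_apply, Complex.ofReal_sum,
    Complex.ofReal_mul, Finset.sum_mul]
  rw [← Finset.sum_add_distrib]
  refine Finset.sum_congr rfl fun j _ => ?_
  conv_lhs => rw [← Complex.re_add_im (w j)]
  ring

theorem range_phi (A : Matrix κ ι ℝ) :
    LinearMap.range (phi A) = (LinearMap.range (rc A).mulVecLin).restrictScalars ℝ := by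
  ext z
  rw [LinearMap.mem_range, Submodule.restrictScalars_mem, LinearMap.mem_range]
  constructor
  · rintro ⟨⟨⟨x, u, rfl⟩, ⟨y, v, rfl⟩⟩, rfl⟩
    refine ⟨fun j => (u j : ℂ) + (v j : ℂ) * Complex.I, ?_⟩
    funext k
    rw [Matrix.mulVecLin_apply, rc_mulVec, phi_apply]
    simp
  · rintro ⟨w, rfl⟩
    refine ⟨⟨⟨A.mulVecLin (fun j => (w j).re), LinearMap.mem_range_self _ _⟩,
      ⟨A.mulVecLin (fun j => (w j).im), LinearMap.mem_range_self _ _⟩⟩, ?_⟩
    funext k
    exact (rc_mulVec A w k).symm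

end RkCAux

theorem tRkC : S_RkC := by
  intro κ ι _ _ _ _ A
  have h1 := LinearMap.finrank_range_of_inj (RkCAux.phi_inj A)
  rw [Module.finrank_prod, RkCAux.range_phi] at h1
  have h2 : Module.finrank ℝ (LinearMap.range (rc A).mulVecLin) =
      2 * Module.finrank ℂ (LinearMap.range (rc A).mulVecLin) := finrank_real_of_complex _
  have h3 : Module.finrank ℝ ((LinearMap.range (rc A).mulVecLin).restrictScalars ℝ) =
      Module.finrank ℝ (LinearMap.range (rc A).mulVecLin) := rfl
  unfold Matrix.rank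
  omega

end Pool.Agent.MP62a5ad.QN
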