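import Pool.Agent.Lib.MP_62a5ad_mp.QN.SpecF

/-!
# MP_62a5ad_mp, QN: a smooth branch of a simple root
-/

set_option autoImplicit false

namespace Pool.Agent.MP62a5ad.QN

open Matrix
open scoped ContDiff

namespace RtAux

/-- the space -/
abbrev Ec : Type := (Fin 3 → ℝ) × ℂ

/-- the coordinate `c i` as a complex linear form -/
noncomputable def cf (i : Fin 3) : Ec →L[ℝ] ℂ :=
  Complex.ofRealCLM.comp ((ContinuousLinearMap.proj i).comp (ContinuousLinearMap.fst ℝ _ ℂ))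

/-- the last coordinate -/
noncomputable def cm : Ec →L[ℝ] ℂ := ContinuousLinearMap.snd ℝ (Fin 3 → ℝ) ℂ

theorem cf_apply (i : Fin 3) (x : Ec) : cf i x = ((x.1 i : ℝ) : ℂ) := rfl

theorem cm_apply (x : Ec) : cm x = x.2 := rfl

/-- the derivative of `cpl` -/
noncomputable def dL (x : Ec) : Ec →L[ℝ] ℂ :=
  x.2 ^ 2 • cf 0 - x.2 • cf 1 + cf 2 + dcp x.1 x.2 • cm

theorem dL_apply (x y : Ec) : dL x y = x.2 ^ 2 * ((y.1 0 : ℝ) : ℂ) - x.2 * ((y.1 1 : ℝ) : ℂ) +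
    ((y.1 2 : ℝ) : ℂ) + dcp x.1 x.2 * y.2 := rfl

theorem hasFDerivAt_cpl (x : Ec) : HasFDerivAt (fun z : Ec => cpl z.1 z.2) (dL x) x := by
  have h0 : HasFDerivAt (fun z : Ec => ((z.1 0 : ℝ) : ℂ)) (cf 0) x := (cf 0).hasFDerivAt
  have h1 : HasFDerivAt (fun z : Ec => ((z.1 1 : ℝ) : ℂ)) (cf 1) x := (cf 1).hasFDerivAt
  have h2 : HasFDerivAt (fun z : Ec => ((z.1 2 : ℝ) : ℂ)) (cf 2) x := (cf 2).hasFDerivAt
  have hm : HasFDerivAt (fun z : Ec => z.2) cm x := cm.hasFDerivAt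
  have h := ((((hm.pow 4).sub (hm.pow 3)).add (h0.mul (hm.pow 2))).sub (h1.mul hm)).add h2
  refine h.congr_fderiv ?_
  refine ContinuousLinearMap.ext fun y => ?_
  rw [dL_apply]
  simp only [ContinuousLinearMap.add_apply, ContinuousLinearMap.sub_apply,
    ContinuousLinearMap.smul_apply, cf_apply, cm_apply, smul_eq_mul, nsmul_eq_mul, dcp]
  push_cast
  ring

/-- the map `G` -/
def G (x : Ec) : Ec := (x.1, cpl x.1 x.2)

/-- the derivative of `G` -/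
noncomputable def dG (x : Ec) : Ec →L[ℝ] Ec := (ContinuousLinearMap.fst ℝ _ ℂ).prod (dL x)

theorem hasFDerivAt_G (x : Ec) : HasFDerivAt G (dG x) x :=
  (ContinuousLinearMap.fst ℝ (Fin 3 → ℝ) ℂ).hasFDerivAt.prodMk (hasFDerivAt_cpl x)

theorem contDiff_cpl : ContDiff ℝ ∞ (fun z : Ec => cpl z.1 z.2) := by
  have h0 : ContDiff ℝ ∞ (fun z : Ec => ((z.1 0 : ℝ) : ℂ)) := (cf 0).contDiff
  have h1 : ContDiff ℝ ∞ (fun z : Ec => ((z.1 1 : ℝ) : ℂ)) := (cf 1).contDiff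
  have h2 : ContDiff ℝ ∞ (fun z : Ec => ((z.1 2 : ℝ) : ℂ)) := (cf 2).contDiff
  have hm : ContDiff ℝ ∞ (fun z : Ec => z.2) := cm.contDiff
  exact ((((hm.pow 4).sub (hm.pow 3)).add (h0.mul (hm.pow 2))).sub (h1.mul hm)).add h2

theorem contDiff_G : ContDiff ℝ ∞ G :=
  (ContinuousLinearMap.fst ℝ (Fin 3 → ℝ) ℂ).contDiff.prodMk contDiff_cpl

theorem continuous_dcp : Continuous (fun z : Ec => dcp z.1 z.2) := by
  have h0 : Continuous (fun z : Ec => ((z.1 0 : ℝ) : ℂ)) := (cf 0).continuous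
  have h1 : Continuous (fun z : Ec => ((z.1 1 : ℝ) : ℂ)) := (cf 1).continuous
  have hm : Continuous (fun z : Ec => z.2) := continuous_snd
  exact (((continuous_const.mul (hm.pow 3)).sub (continuous_const.mul (hm.pow 2))).add
    ((continuous_const.mul h0).mul hm)).sub h1

/-- the inverse of the derivative -/
noncomputable def dI (x : Ec) : Ec →L[ℝ] Ec := (ContinuousLinearMap.fst ℝ _ ℂ).prod
  ((dcp x.1 x.2)⁻¹ • (cm - (x.2 ^ 2 • cf 0 - x.2 • cf 1 + cf 2)))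

theorem dI_apply (x y : Ec) : dI x y = (y.1, (dcp x.1 x.2)⁻¹ * (y.2 -
    (x.2 ^ 2 * ((y.1 0 : ℝ) : ℂ) - x.2 * ((y.1 1 : ℝ) : ℂ) + ((y.1 2 : ℝ) : ℂ)))) := rfl

theorem dG_apply (x y : Ec) : dG x y = (y.1, x.2 ^ 2 * ((y.1 0 : ℝ) : ℂ) -
    x.2 * ((y.1 1 : ℝ) : ℂ) + ((y.1 2 : ℝ) : ℂ) + dcp x.1 x.2 * y.2) := rfl

/-- the derivative as an equivalence -/
noncomputable def eG (x : Ec) (h : dcp x.1 x.2 ≠ 0) : Ec ≃L[ℝ] Ec :=
  ContinuousLinearEquiv.equivOfInverse (dG x) (dI x)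
    (fun y => by
      rw [dG_apply, dI_apply]
      refine Prod.ext rfl ?_
      simp only
      field_simp
      ring)
    (fun y => by
      rw [dI_apply, dG_apply]
      refine Prod.ext rfl ?_
      simp only
      field_simp
      ring)

theorem hasFDerivAt_G' (x : Ec) (h : dcp x.1 x.2 ≠ 0) :
    HasFDerivAt G (eG x h : Ec →L[ℝ] Ec) x := hasFDerivAt_G x

end RtAux

open RtAux in
theorem tRt : S_Rt := by
  intro c₀ m₀ h0 hd
  have hn : (∞ : WithTop ℕ∞) ≠ 0 := by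
    intro h
    exact absurd h (by simp)
  let x₀ : Ec := (c₀, m₀)
  have hd' : dcp x₀.1 x₀.2 ≠ 0 := hd
  have hG0 : ContDiffAt ℝ ∞ G x₀ := contDiff_G.contDiffAt
  let Φ := hG0.toOpenPartialHomeomorph G (hasFDerivAt_G' x₀ hd') hn
  have hΦ : (Φ : Ec → Ec) = G := ContDiffAt.toOpenPartialHomeomorph_coe hG0 _ hn
  have hs : x₀ ∈ Φ.source := ContDiffAt.mem_toOpenPartialHomeomorph_source hG0 _ hn
  have ht : G x₀ ∈ Φ.target := ContDiffAt.image_mem_toOpenPartialHomeomorph_target hG0 _ hn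
  have hG00 : G x₀ = (c₀, 0) := Prod.ext rfl h0
  rw [hG00] at ht
  have hinv : Φ.symm (c₀, 0) = x₀ := by
    rw [← hG00, ← hΦ]
    exact Φ.left_inv hs
  let j : (Fin 3 → ℝ) → Ec := fun c => (c, 0)
  have hj : Continuous j := continuous_id.prodMk continuous_const
  have hjs : ContDiff ℝ ∞ j := contDiff_id.prodMk contDiff_const
  obtain ⟨W, hW⟩ : ∃ W : Set Ec, W = Φ.target ∩ Φ.symm ⁻¹' {z | dcp z.1 z.2 ≠ 0} := ⟨_, rfl⟩
  have hWo : IsOpen W := by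
    rw [hW]
    exact Φ.continuousOn_symm.isOpen_inter_preimage Φ.open_target
      (isOpen_ne_fun continuous_dcp continuous_const)
  have key : ∀ c, j c ∈ W → (Φ.symm (j c)).1 = c ∧ cpl c (Φ.symm (j c)).2 = 0 ∧
      dcp c (Φ.symm (j c)).2 ≠ 0 := by
    intro c hc
    rw [hW] at hc
    have h1 : G (Φ.symm (j c)) = j c := by
      rw [← hΦ]
      exact Φ.right_inv hc.1
    have h2 : (Φ.symm (j c)).1 = c := congrArg Prod.fst h1
    have h3 : cpl (Φ.symm (j c)).1 (Φ.symm (j c)).2 = 0 := congrArg Prod.snd h1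
    have h4 : dcp (Φ.symm (j c)).1 (Φ.symm (j c)).2 ≠ 0 := hc.2
    rw [h2] at h3 h4
    exact ⟨h2, h3, h4⟩
  refine ⟨j ⁻¹' W, fun c => (Φ.symm (j c)).2, hWo.preimage hj, ?_, ?_, ?_, fun c hc =>
    (key c hc).2⟩
  · change j c₀ ∈ W
    rw [hW]
    refine ⟨ht, ?_⟩
    change dcp (Φ.symm (c₀, 0)).1 (Φ.symm (c₀, 0)).2 ≠ 0
    rw [hinv]
    exact hd
  · change (Φ.symm (c₀, 0)).2 = m₀
    rw [hinv]
  · intro c hc
    have hc' : j c ∈ W := hc
    have h1 := key c hc'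
    have hcd : dcp (Φ.symm (j c)).1 (Φ.symm (j c)).2 ≠ 0 := by
      rw [h1.1]
      exact h1.2.2
    rw [hW] at hc'
    have h2 : ContDiffAt ℝ ∞ Φ.symm (j c) := by
      refine Φ.contDiffAt_symm hc'.1 (f₀' := eG (Φ.symm (j c)) hcd) ?_ ?_
      · rw [hΦ]
        exact hasFDerivAt_G' _ hcd
      · rw [hΦ]
        exact contDiff_G.contDiffAt
    have h3 : ContDiffAt ℝ ∞ (fun c => Φ.symm (j c)) c := h2.comp c hjs.contDiffAt
    exact (contDiff_snd.contDiffAt.comp c h3).contDiffWithinAt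

end Pool.Agent.MP62a5ad.QN
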