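import Pool.Agent.Lib.MP_62a5ad_mp.QN.SpecF

/-!
# MP_62a5ad_mp, QN: four smooth roots on a dense open set
-/

set_option autoImplicit false

namespace Pool.Agent.MP62a5ad.QN

open Matrix
open scoped ContDiff

namespace SelAux

/-- `m` are four smooth roots on the set `A` -/
def Br (A : Set (Fin 3 → ℝ)) (m : Fin 4 → (Fin 3 → ℝ) → ℂ) : Prop :=
  (∀ i, ContDiffOn ℝ ∞ (m i) A) ∧
    ∀ c ∈ A, Function.Injective (fun i => m i c) ∧ ∀ x : ℂ, cpl c x = ∏ i, (x - m i c)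

theorem Br.mono {A B : Set (Fin 3 → ℝ)} {m : Fin 4 → (Fin 3 → ℝ) → ℂ} (h : Br A m)
    (hBA : B ⊆ A) : Br B m :=
  ⟨fun i => (h.1 i).mono hBA, fun c hc => h.2 c (hBA hc)⟩

open Polynomial in
/-- four different roots -/
theorem prod_of_roots (c : Fin 3 → ℝ) (μ : Fin 4 → ℂ) (hμ : Function.Injective μ)
    (h0 : ∀ i, cpl c (μ i) = 0) (x : ℂ) : cpl c x = ∏ i, (x - μ i) := by
  obtain ⟨p, hp⟩ : ∃ p : ℂ[X], p = X ^ 4 - X ^ 3 + C (c 0 : ℂ) * X ^ 2 - C (c 1 : ℂ) * X +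
    C (c 2 : ℂ) := ⟨_, rfl⟩
  obtain ⟨r, hr⟩ : ∃ r : ℂ[X], r = - X ^ 3 + C (c 0 : ℂ) * X ^ 2 - C (c 1 : ℂ) * X +
    C (c 2 : ℂ) := ⟨_, rfl⟩
  have hpr : p = X ^ 4 + r := by
    rw [hp, hr]
    ring
  have hrd : r.degree < 4 := by
    rw [hr]
    refine lt_of_le_of_lt (b := 3) ?_ (by norm_num)
    compute_degree
  have hmon : p.Monic := by
    rw [hpr]
    exact monic_X_pow_add hrd
  have hdeg : p.degree = 4 := by
    rw [hpr, degree_add_eq_left_of_degree_lt]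
    · rw [degree_X_pow]
      rfl
    · rw [degree_X_pow]
      exact hrd
  have hmq : (∏ i, (X - C (μ i)) : ℂ[X]).Monic := monic_prod_of_monic _ _ fun i _ =>
    monic_X_sub_C _
  have hdq : (∏ i, (X - C (μ i)) : ℂ[X]).degree = 4 := by
    rw [degree_prod]
    simp only [degree_X_sub_C, Finset.sum_const, Finset.card_univ, Fintype.card_fin]
    rfl
  have hlt : (p - ∏ i, (X - C (μ i))).degree < 4 := by
    have h1 := degree_sub_lt (p := p) (q := ∏ i, (X - C (μ i))) (by rw [hdeg, hdq])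
      hmon.ne_zero (by rw [hmon.leadingCoeff, hmq.leadingCoeff])
    rw [hdeg] at h1
    exact h1
  have hev : ∀ z, p.eval z = cpl c z := by
    intro z
    rw [hp]
    simp [cpl]
  have hq : ∀ z, (∏ i, (X - C (μ i)) : ℂ[X]).eval z = ∏ i, (z - μ i) := by
    intro z
    rw [eval_prod]
    simp
  have h := eq_of_degree_sub_lt_of_eval_index_eq (f := p) (g := ∏ i, (X - C (μ i)))
    (v := μ) (Finset.univ : Finset (Fin 4)) hμ.injOn (by
      rw [Finset.card_univ, Fintype.card_fin]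
      exact hlt) (fun i _ => by
        rw [hev, h0, hq]
        exact (Finset.prod_eq_zero (Finset.mem_univ i) (sub_self _)).symm)
  rw [← hev, h, hq]

/-- the local branches -/
theorem local_br (hRt : S_Rt) (hDis : S_Dis) (c₀ : Fin 3 → ℝ)
    (hc : ∀ m : ℂ, cpl c₀ m = 0 → dcp c₀ m ≠ 0) :
    ∃ (A : Set (Fin 3 → ℝ)) (m : Fin 4 → (Fin 3 → ℝ) → ℂ), IsOpen A ∧ c₀ ∈ A ∧ Br A m := by
  obtain ⟨μ, hμ, hpr⟩ := hDis.2.2 c₀ hc
  have h0 : ∀ i, cpl c₀ (μ i) = 0 := by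
    intro i
    rw [hpr]
    exact Finset.prod_eq_zero (Finset.mem_univ i) (sub_self _)
  have h1 := fun i => hRt c₀ (μ i) (h0 i) (hc _ (h0 i))
  choose O m hO hcO hm hsm hroot using h1
  have hI : IsOpen (⋂ i, O i) := isOpen_iInter_of_finite hO
  have hcI : c₀ ∈ ⋂ i, O i := Set.mem_iInter.2 hcO
  -- the set where the roots are different
  have hpair : ∀ p : Fin 4 × Fin 4, p.1 ≠ p.2 →
      IsOpen ((⋂ i, O i) ∩ {c | m p.1 c ≠ m p.2 c}) := by
    intro p _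
    have hc1 : ContinuousOn (fun c => m p.1 c - m p.2 c) (⋂ i, O i) :=
      ((hsm p.1).continuousOn.mono (Set.iInter_subset _ _)).sub
        ((hsm p.2).continuousOn.mono (Set.iInter_subset _ _))
    have h2 := hc1.isOpen_inter_preimage hI (isOpen_compl_singleton (x := (0 : ℂ)))
    have h3 : (⋂ i, O i) ∩ {c | m p.1 c ≠ m p.2 c} =
        (⋂ i, O i) ∩ (fun c => m p.1 c - m p.2 c) ⁻¹' {0}ᶜ := by
      ext c
      simp only [Set.mem_inter_iff, Set.mem_setOf_eq, Set.mem_preimage, Set.mem_compl_iff,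
        Set.mem_singleton_iff, sub_eq_zero]
    rw [h3]
    exact h2
  refine ⟨(⋂ i, O i) ∩ ⋂ p : {p : Fin 4 × Fin 4 // p.1 ≠ p.2},
    ((⋂ i, O i) ∩ {c | m p.1.1 c ≠ m p.1.2 c}), m,
    hI.inter (isOpen_iInter_of_finite fun p => hpair p.1 p.2), ⟨hcI, ?_⟩, ?_, ?_⟩
  · refine Set.mem_iInter.2 fun p => ⟨hcI, ?_⟩
    change m p.1.1 c₀ ≠ m p.1.2 c₀
    rw [hm, hm]
    exact fun h => p.2 (hμ h)
  · intro i
    exact (hsm i).mono (Set.inter_subset_left.trans (Set.iInter_subset _ _))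
  · intro c hc
    have hinj : Function.Injective (fun i => m i c) := by
      intro i k hik
      by_contra hne
      exact (Set.mem_iInter.1 hc.2 ⟨(i, k), hne⟩).2 hik
    exact ⟨hinj, prod_of_roots c _ hinj fun i =>
      (hroot i c (Set.mem_iInter.1 hc.1 i)).1⟩

/-- the families of disjoint open sets with branches -/
def Fam : Set (Set (Set (Fin 3 → ℝ))) :=
  {S | (∀ A ∈ S, IsOpen A ∧ ∃ m, Br A m) ∧ ∀ A ∈ S, ∀ B ∈ S, A ≠ B → Disjoint A B}

end SelAux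

open SelAux in
theorem tSel (hRt : S_Rt) (hDis : S_Dis) : S_Sel := by
  classical
  obtain ⟨S, hS⟩ := zorn_subset Fam (by
    intro C hC hch
    refine ⟨⋃₀ C, ⟨?_, ?_⟩, fun s hs => Set.subset_sUnion_of_mem hs⟩
    · rintro A ⟨s, hs, hA⟩
      exact (hC hs).1 A hA
    · rintro A ⟨s, hs, hA⟩ B ⟨t, ht, hB⟩ hAB
      rcases hch.total hs ht with h | h
      · exact (hC ht).2 A (h hA) B hB hAB
      · exact (hC hs).2 A hA B (h hB) hAB)
  obtain ⟨hS1, hS2⟩ := hS.prop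
  have hex : ∀ A : Set (Fin 3 → ℝ), ∃ m, A ∈ S → Br A m := by
    intro A
    by_cases hA : A ∈ S
    · obtain ⟨m, hm⟩ := (hS1 A hA).2
      exact ⟨m, fun _ => hm⟩
    · exact ⟨fun _ _ => 0, fun h => absurd h hA⟩
  choose μ hμ using hex
  have hopen : IsOpen (⋃₀ S) := isOpen_sUnion fun A hA => (hS1 A hA).1
  -- density
  have hdense : Dense (⋃₀ S) := by
    rw [dense_iff_inter_open]
    intro O hO hne
    obtain ⟨c₀, hcO, hcD⟩ := (dense_iff_inter_open.1 hDis.2.1) O hO hne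
    obtain ⟨A, m, hA, hcA, hBr⟩ := local_br hRt hDis c₀ hcD
    by_contra hcon
    rw [Set.not_nonempty_iff_eq_empty] at hcon
    have hdis : ∀ B ∈ S, Disjoint (O ∩ A) B := by
      intro B hB
      rw [Set.disjoint_iff_inter_eq_empty, Set.eq_empty_iff_forall_notMem]
      rintro c ⟨⟨h1, h2⟩, h3⟩
      have h4 : c ∈ O ∩ ⋃₀ S := ⟨h1, B, hB, h3⟩
      rw [hcon] at h4
      exact h4
    have hmem : insert (O ∩ A) S ∈ Fam := by
      refine ⟨?_, ?_⟩
      · rintro B (rfl | hB)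
        · exact ⟨hO.inter hA, m, hBr.mono Set.inter_subset_right⟩
        · exact hS1 B hB
      · rintro B (rfl | hB) B' (rfl | hB') hne'
        · exact absurd rfl hne'
        · exact hdis B' hB'
        · exact (hdis B hB).symm
        · exact hS2 B hB B' hB' hne'
    have hin : O ∩ A ∈ S := hS.le_of_ge hmem (Set.subset_insert _ _) (Set.mem_insert _ _)
    have h5 : c₀ ∈ O ∩ ⋃₀ S := ⟨hcO, _, hin, hcO, hcA⟩
    rw [hcon] at h5
    exact h5
  -- the functions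
  obtain ⟨m, hm⟩ : ∃ m : Fin 4 → (Fin 3 → ℝ) → ℂ, m = fun i c =>
    if h : ∃ A ∈ S, c ∈ A then μ h.choose i c else 0 := ⟨_, rfl⟩
  have hmA : ∀ A ∈ S, ∀ c ∈ A, ∀ i, m i c = μ A i c := by
    intro A hA c hc i
    have hex : ∃ A ∈ S, c ∈ A := ⟨A, hA, hc⟩
    have h1 : hex.choose = A := by
      by_contra hne
      exact Set.disjoint_left.1 (hS2 _ hex.choose_spec.1 A hA hne) hex.choose_spec.2 hc
    rw [hm]
    simp only [dif_pos hex]
    rw [h1]
  have hopen2 : IsOpen {c : Fin 3 → ℝ | c 2 ≠ 0} :=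
    isOpen_ne_fun (continuous_apply 2) continuous_const
  have hdense2 : Dense {c : Fin 3 → ℝ | c 2 ≠ 0} :=
    (dense_compl_singleton (0 : ℝ)).preimage (isOpenMap_eval (X := fun _ : Fin 3 => ℝ) 2)
  refine ⟨⋃₀ S ∩ {c | c 2 ≠ 0}, m, hopen.inter hopen2,
    hdense.inter_of_isOpen_left hdense2 hopen, ?_, fun c hc => hc.2, ?_⟩
  · rintro i c ⟨⟨A, hA, hc⟩, -⟩
    have h1 : ContDiffAt ℝ ∞ (μ A i) c :=
      ((hμ A hA).1 i).contDiffAt ((hS1 A hA).1.mem_nhds hc)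
    have h2 : m i =ᶠ[nhds c] μ A i := by
      filter_upwards [(hS1 A hA).1.mem_nhds hc] with c' hc'
      exact hmA A hA c' hc' i
    exact (h1.congr_of_eventuallyEq h2).contDiffWithinAt
  · rintro c ⟨⟨A, hA, hc⟩, -⟩
    have h1 := (hμ A hA).2 c hc
    simp only [hmA A hA c hc]
    exact h1

end Pool.Agent.MP62a5ad.QN
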