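import Pool.Agent.Lib.MP_62a5ad_mp.QN.SpecF

set_option autoImplicit false

namespace Pool.Agent.MP62a5ad.QN

open Matrix
open scoped ContDiff

namespace TauAux

section

variable {ι κ : Type} [Fintype ι] [DecidableEq ι] [Fintype κ] [DecidableEq κ]

/-- The determinant as a polynomial in the parameter. -/
noncomputable def pol (R I : Matrix ι ι ℝ) (D : Matrix κ ι ℝ) : Polynomial ℝ :=
  ((blk R D).map Polynomial.C -
    (Polynomial.X : Polynomial ℝ) • (fromBlocks I 0 0 0 : Matrix (ι ⊕ κ) (ι ⊕ κ) ℝ).map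
      Polynomial.C).det

theorem eval_pol (R I : Matrix ι ι ℝ) (D : Matrix κ ι ℝ) (τ : ℝ) :
    (pol R I D).eval τ = (blk (R - τ • I) D).det := by
  have h1 : (pol R I D).eval τ = Polynomial.evalRingHom τ (pol R I D) := rfl
  rw [h1, pol, RingHom.map_det]
  congr 1
  ext i j
  rcases i with i | i <;> rcases j with j | j
  · simp [blk, Matrix.sub_apply, Matrix.smul_apply]
    ring
  all_goals simp [blk, Matrix.sub_apply, Matrix.smul_apply]

theorem eval_polC (R I : Matrix ι ι ℝ) (D : Matrix κ ι ℝ) :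
    (pol R I D).eval₂ Complex.ofRealHom (-Complex.I) =
      (blk (rc R + Complex.I • rc I) (rc D)).det := by
  have h1 : (pol R I D).eval₂ Complex.ofRealHom (-Complex.I) =
      Polynomial.eval₂RingHom Complex.ofRealHom (-Complex.I) (pol R I D) := rfl
  rw [h1, pol, RingHom.map_det]
  congr 1
  ext i j
  rcases i with i | i <;> rcases j with j | j
  · simp [blk, rc, Matrix.sub_apply, Matrix.smul_apply]
    ring
  all_goals simp [blk, rc, Matrix.sub_apply, Matrix.smul_apply]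

end

end TauAux

/-- **Tau**. The choice of `τ`. -/
theorem tTau : S_Tau := by
  intro ι κ _ _ _ _ U R I D _ hdet
  have hne : ∀ y ∈ U, TauAux.pol (R y) (I y) (D y) ≠ 0 := by
    intro y hy h0
    apply hdet y hy
    rw [← TauAux.eval_polC, h0, Polynomial.eval₂_zero]
  obtain ⟨S, hSc, hSd⟩ := TopologicalSpace.exists_countable_dense U
  set B : Set ℝ := ⋃ y ∈ S, {x : ℝ | (TauAux.pol (R y.1) (I y.1) (D y.1)).eval x = 0} with hB
  have hBc : B.Countable := by
    refine hSc.biUnion fun y _ => ?_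
    exact (Polynomial.finite_setOfPred_isRoot (hne y.1 y.2)).countable
  obtain ⟨τ, hτ⟩ := (hBc.dense_compl ℝ).nonempty
  refine ⟨τ, fun O hO hOU => ?_⟩
  obtain ⟨y0, hy0O, hy0U⟩ := hOU
  obtain ⟨y, hyS, hyO⟩ := hSd.exists_mem_open (hO.preimage continuous_subtype_val)
    ⟨(⟨y0, hy0U⟩ : U), hy0O⟩
  refine ⟨y.1, ⟨hyO, y.2⟩, ?_⟩
  rw [← TauAux.eval_pol]
  intro h0
  apply hτ
  rw [hB, Set.mem_iUnion₂]
  exact ⟨y, hyS, h0⟩

end Pool.Agent.MP62a5ad.QN
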