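import Pool.Agent.Lib.MP_62a5ad_mp.QN.Ch
import Pool.Agent.Lib.MP_62a5ad_mp.QN.Dd
import Pool.Agent.Lib.MP_62a5ad_mp.QN.JcT
import Pool.Agent.Lib.MP_62a5ad_mp.QN.RkC
import Pool.Agent.Lib.MP_62a5ad_mp.QN.BkN
import Pool.Agent.Lib.MP_62a5ad_mp.QN.BkA
import Pool.Agent.Lib.MP_62a5ad_mp.QN.BkJ
import Pool.Agent.Lib.MP_62a5ad_mp.QN.Clo
import Pool.Agent.Lib.MP_62a5ad_mp.QN.NdC
import Pool.Agent.Lib.MP_62a5ad_mp.QN.LgC
import Pool.Agent.Lib.MP_62a5ad_mp.QN.LgR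
import Pool.Agent.Lib.MP_62a5ad_mp.QN.InvC
import Pool.Agent.Lib.MP_62a5ad_mp.QN.InvR
import Pool.Agent.Lib.MP_62a5ad_mp.QN.Tau
import Pool.Agent.Lib.MP_62a5ad_mp.QN.Abs
import Pool.Agent.Lib.MP_62a5ad_mp.QN.Mlt
import Pool.Agent.Lib.MP_62a5ad_mp.QN.Pol
import Pool.Agent.Lib.MP_62a5ad_mp.QN.Ind
import Pool.Agent.Lib.MP_62a5ad_mp.QN.Rt
import Pool.Agent.Lib.MP_62a5ad_mp.QN.Dis
import Pool.Agent.Lib.MP_62a5ad_mp.QN.Sel
import Pool.Agent.Lib.MP_62a5ad_mp.QN.Nrm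
import Pool.Agent.Lib.MP_62a5ad_mp.QN.ChA
import Pool.Agent.Lib.MP_62a5ad_mp.QN.ChB
import Pool.Agent.Lib.MP_62a5ad_mp.QN.ChC
import Pool.Agent.Lib.MP_62a5ad_mp.QN.CasN
import Pool.Agent.Lib.MP_62a5ad_mp.QN.IncN
import Pool.Agent.Lib.MP_62a5ad_mp.QN.GeoN
import Pool.Agent.Lib.MP_62a5ad_mp.QN.MapN
import Pool.Agent.Lib.MP_62a5ad_mp.QN.Per
import Pool.Agent.Lib.MP_62a5ad_mp.QN.GeoY
import Pool.Agent.Lib.MP_62a5ad_mp.QN.Re
import Pool.Agent.Lib.MP_62a5ad_mp.QN.Two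

/-! # The pieces of `SpecF`, put together -/

set_option autoImplicit false

namespace Pool.Agent.MP62a5ad.QN

theorem aCh : S_Ch := tCh

theorem aDd : S_Dd := tDd

theorem aRkC : S_RkC := tRkC

theorem aBkN : S_BkN := tBkN

theorem aBkA : S_BkA := tBkA

theorem aBkJ : S_BkJ := tBkJ tJcT tBkA

theorem aClo : S_Clo := tClo tCh

theorem aNdC : S_NdC := tNdC tRkC tBkN

theorem aLgC : S_LgC := tLgC tRkC

theorem aLgR : S_LgR := tLgR tBkN tBkA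

theorem aInvC : S_InvC := tInvC tRkC

theorem aInvR : S_InvR := tInvR tBkN tBkA

/-- the Poisson structure and the integrability -/
theorem aAbs : S_Abs := tAbs aCh aBkA aBkJ aClo aNdC aLgC aLgR aInvC aInvR tTau

theorem aMlt : S_Mlt := tMlt aDd

theorem aPol : S_Pol := tPol aDd

theorem aInd : S_Ind := tInd

theorem aSel : S_Sel := tSel tRt tDis

theorem aNrm : S_Nrm := tNrm

theorem aChA : S_ChA := tChA

theorem aChB : S_ChB := tChB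

theorem aChC : S_ChC := tChC tChB

/-- the chart -/
theorem aChart (n : ℕ) [NeZero n] : IsChart n (OO n) (kch n) :=
  ⟨(aChC n).1, (aChC n).2.1, (aChC n).2.2, aChA n, (aChB n).1, (aChB n).2⟩

theorem aCasN : S_CasN := tCasN

theorem aGeoN : S_GeoN := tGeoN tIncN

theorem aMapN : S_MapN := tMapN

theorem aPer : S_Per := tPer

/-- the map `ff` is `T_{I,I}` -/
theorem aGeoY : S_GeoY := tGeoY tPer aGeoN tMapN

theorem aRe : S_Re := tRe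

theorem aTwo : S_Two := tTwo tRe

end Pool.Agent.MP62a5ad.QN
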