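import Pool.Agent.Lib.MP_62a5ad_mp.QN.Defs

/-!
# MP_62a5ad_mp, project QN: the data of a polygon, the map, the chain

Offsets `{0, n e, r}`, `gcd (r, n) = 1`, `t = M ^ e`, `u_m = v_(r m)`, `u_(m+1) = X_m u_m`,
`(t - s_m) X_m = κ_m (t² + u_m t + C_m)`.
-/

set_option autoImplicit false

namespace Pool.Agent.MP62a5ad.QN

open Matrix
open Pool.Agent.MP62a5ad.PN (V4 M4 e0)

/-! ### The involution `R` -/

section

variable {K : Type} [Field K]

/-- `x² + u x + C`, `z = (s, u, C)`. -/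
def qv (z : Fin 3 → K) (x : K) : K := x ^ 2 + z 1 * x + z 2

/-- `x⁴ + p₃ x³ + p₂ x² + p₁ x + p₀`. -/
def pv (p : Fin 4 → K) (x : K) : K := x ^ 4 + p 3 * x ^ 3 + p 2 * x ^ 2 + p 1 * x + p 0

/-- The number `1 / η` of the pair `s`, `Q = x² + u x + C`. -/
def rA (p : Fin 4 → K) (s u C : K) : K :=
  (s * (p 2 - C - p 0 / C - u * p 3 + u ^ 2) + p 1 - u * (p 0 / C) - (p 3 - u) * C) /
    (C + s ^ 2 + u * s)

/-- The number `u'` of the pair `R (s, Q)`. -/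
def rU (p : Fin 4 → K) (s u C : K) : K := rA p s u C + p 3 - u

/-- The number `s'` of the pair `R (s, Q)`. -/
def rS (p : Fin 4 → K) (s u C : K) : K :=
  (p 2 - rA p s u C * s - C - p 0 / C - u * rA p s u C - u * p 3 + u ^ 2) / rA p s u C

/-- `z = (s, u, C)`, `z' = (s', u', C')` and `η Q Q' = x (x - s) (x - s') + η p`; here `s` is given
separately (it need not be `z 0`). -/
structure Rel (p : Fin 4 → K) (s : K) (z z' : Fin 3 → K) (η : K) : Prop where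
  c3 : η * (z 1 + z' 1) = 1 + η * p 3
  c2 : η * (z 2 + z' 2 + z 1 * z' 1) = -(s + z' 0) + η * p 2
  c1 : η * (z 1 * z' 2 + z' 1 * z 2) = s * z' 0 + η * p 1
  c0 : z 2 * z' 2 = p 0

/-- One half step forward: `(s', Q')_m = R (s_(m+1), Q_m)`. -/
def fwd (p : Fin 4 → K) (z : ℤ → Fin 3 → K) (m : ℤ) : Fin 3 → K :=
  ![rS p (z (m + 1) 0) (z m 1) (z m 2), rU p (z (m + 1) 0) (z m 1) (z m 2), p 0 / z m 2]

/-- One half step backward: `s'_(m+1)`, `Q'_m` are the components of `R (s_m, Q_m)`. -/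
def bwd (p : Fin 4 → K) (z : ℤ → Fin 3 → K) (m : ℤ) : Fin 3 → K :=
  ![rS p (z (m - 1) 0) (z (m - 1) 1) (z (m - 1) 2), rU p (z m 0) (z m 1) (z m 2), p 0 / z m 2]

/-- The data at all half times. -/
def lat (p : Fin 4 → K) (z : ℤ → Fin 3 → K) : ℤ → ℤ → Fin 3 → K
  | Int.ofNat k => (fwd p)^[k] z
  | Int.negSucc k => (bwd p)^[k + 1] z

/-- The numbers `η` at all half times. -/
def leta (p : Fin 4 → K) (D : ℤ → ℤ → Fin 3 → K) (τ m : ℤ) : K :=
  (D τ m 1 + D (τ + 1) m 1 - p 3)⁻¹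

/-- `D`, `H` satisfy the relations between the half times `lo` and `hi`, and are not degenerate. -/
structure Ok (p : Fin 4 → K) (D : ℤ → ℤ → Fin 3 → K) (H : ℤ → ℤ → K) (lo hi : ℤ) : Prop where
  p0 : p 0 ≠ 0
  rel : ∀ τ m, lo ≤ τ → τ < hi → Rel p (D τ (m + 1) 0) (D τ m) (D (τ + 1) m) (H τ m)
  eta : ∀ τ m, lo ≤ τ → τ < hi → H τ m ≠ 0
  ps : ∀ τ m, lo ≤ τ → τ ≤ hi → pv p (D τ m 0) ≠ 0
  nd : ∀ τ m, lo ≤ τ → τ < hi → D τ m 0 ≠ D (τ + 1) m 0

/-! ### The chain of the data; `w 0` is the marked root, `w 1`, `w 2`, `w 3` are the other roots -/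

/-- The coefficients of `(x - w 0) (x - w 1) (x - w 2) (x - w 3)`. -/
def pw (w : Fin 4 → K) : Fin 4 → K :=
  ![w 0 * w 1 * w 2 * w 3,
    -(w 0 * w 1 * w 2 + w 0 * w 1 * w 3 + w 0 * w 2 * w 3 + w 1 * w 2 * w 3),
    w 0 * w 1 + w 0 * w 2 + w 0 * w 3 + w 1 * w 2 + w 1 * w 3 + w 2 * w 3,
    -(w 0 + w 1 + w 2 + w 3)]

/-- The sum of the other roots. -/
def e1 (w : Fin 4 → K) : K := w 1 + w 2 + w 3

/-- The second elementary symmetric polynomial of the other roots. -/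
def e2 (w : Fin 4 → K) : K := w 1 * w 2 + w 1 * w 3 + w 2 * w 3

/-- The product of the other roots. -/
def e3 (w : Fin 4 → K) : K := w 1 * w 2 * w 3

/-- The leading coefficient of the linear polynomial `J` of `z`. -/
def jA (w : Fin 4 → K) (z : Fin 3 → K) : K := w 0 * e3 w / z 2 - w 0 * (e1 w + z 1)

/-- The constant coefficient of the linear polynomial `J` of `z`. -/
def jB (w : Fin 4 → K) (z : Fin 3 → K) : K := w 0 * e2 w + w 0 * e3 w / z 2 * z 1 - w 0 * z 2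

/-- The linear polynomial `J` of `z`; `x J(x) = μ p(x)/(x - μ) + (p₀/C - μ x) Q(x)`, `μ = w 0`. -/
def jv (w : Fin 4 → K) (z : Fin 3 → K) (x : K) : K := jA w z * x + jB w z

/-- `γ_m` at the half time `τ`. -/
def gam (w : Fin 4 → K) (D : ℤ → ℤ → Fin 3 → K) (τ m : ℤ) : K :=
  (w 0 - D (τ - 1) m 0) * qv (D (τ - 1) m) (D τ m 0) /
    (qv (D (τ - 1) m) (w 0) * (D (τ - 1) m 0 - D τ m 0))

/-- `δ_m` at the half time `τ`. -/
def dlt (w : Fin 4 → K) (D : ℤ → ℤ → Fin 3 → K) (τ m : ℤ) : K :=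
  (w 0 - D τ m 0) * qv (D τ (m - 1)) (D (τ - 1) m 0) /
    (qv (D τ (m - 1)) (w 0) * (D (τ - 1) m 0 - D τ m 0))

/-- `α_m + ρ_(m-1)`. -/
def alr (w : Fin 4 → K) (D : ℤ → ℤ → Fin 3 → K) (τ m : ℤ) : K :=
  -w 0 * (D τ m 0 + D (τ - 1) m 0) + D τ m 0 * D (τ - 1) m 0 + e1 w * w 0 -
    gam w D τ m * jA w (D τ m) + dlt w D τ m * jA w (D (τ - 1) (m - 1))

/-- `ρ_m` at the half time `τ`. -/
def rho (w : Fin 4 → K) (D : ℤ → ℤ → Fin 3 → K) (H : ℤ → ℤ → K) (τ m : ℤ) : K :=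
  w 0 * gam w D τ m * dlt w D τ (m + 1) / H (τ - 1) m

/-- `α_m` at the half time `τ`. -/
def alp (w : Fin 4 → K) (D : ℤ → ℤ → Fin 3 → K) (H : ℤ → ℤ → K) (τ m : ℤ) : K :=
  alr w D τ m - rho w D H τ (m - 1)

/-- `c_m = C_m + p₀ / C_m` at the half time `τ`. -/
def cst (w : Fin 4 → K) (D : ℤ → ℤ → Fin 3 → K) (τ m : ℤ) : K :=
  D τ m 2 + w 0 * e3 w / D τ m 2

end

/-! ### The chain: indices in `Fin n` -/

section

variable {R : Type} [CommRing R] {n : ℕ} [NeZero n]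

/-- The residue of an integer. -/
def rs (n : ℕ) [NeZero n] (k : ℤ) : Fin n := Fin.ofNat n (k % (n : ℤ)).toNat

/-- The matrix of a site. -/
def Lx (α ρ c x : R) : Matrix (Fin 2) (Fin 2) R := !![x - α, 1; ρ * (α - c), -ρ]

/-- The matrix of the site `k` of the chain `θ`. -/
def Lc (θ : Ix n → R) (x : R) (k : ℤ) : Matrix (Fin 2) (Fin 2) R :=
  Lx (θ (rs n k, 0)) (θ (rs n k, 1)) (θ (rs n k, 2)) x

/-- The product of the matrices of the sites `m, …, m + k - 1`. -/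
def Nc (θ : Ix n → R) (x : R) (m : ℤ) : ℕ → Matrix (Fin 2) (Fin 2) R
  | 0 => 1
  | k + 1 => Lc θ x (m + k) * Nc θ x m k

/-- The monodromy matrix which starts at `m`. -/
def Nm (θ : Ix n → R) (x : R) (m : ℤ) : Matrix (Fin 2) (Fin 2) R := Nc θ x m n

/-- The trace of the monodromy matrix. -/
def Hx (θ : Ix n → R) (x : R) : R := (Nm θ x 0).trace

/-- The constant Poisson structure in the coordinates `α`, `log ρ`, `c`. -/
def P0 (n : ℕ) [NeZero n] : Matrix (Ix n) (Ix n) ℝ := Matrix.of fun i j =>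
  if i.2 = 0 ∧ j.2 = 1 then (if i.1 = j.1 then 1 else 0) - (if i.1 = j.1 + 1 then 1 else 0)
  else if i.2 = 1 ∧ j.2 = 0 then (if j.1 = i.1 + 1 then 1 else 0) - (if j.1 = i.1 then 1 else 0)
  else 0

/-- A generalised inverse of `P0`. -/
def T0 (n : ℕ) [NeZero n] : Matrix (Ix n) (Ix n) ℝ := Matrix.of fun i j =>
  if i.2 = 1 ∧ j.2 = 0 then (if j.1 ≠ 0 ∧ j.1 ≤ i.1 then 1 else 0)
  else if i.2 = 0 ∧ j.2 = 1 then (if i.1 ≠ 0 ∧ i.1 ≤ j.1 then -1 else 0)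
  else 0

end

section

variable {n : ℕ} [NeZero n]

/-- The map `B`. -/
def Bx {K : Type} [Field K] (θ : Ix n → K) (i : Ix n) : K :=
  let A : Fin n → K := fun m => θ (m + 1, 0) + θ (m, 1) - θ (m + 1, 1)
  if i.2 = 0 then A i.1
  else if i.2 = 1 then θ (i.1 + 1, 1) * (A (i.1 + 1) - θ (i.1 + 1, 2)) / (A i.1 - θ (i.1, 2))
  else θ (i.1, 2)

/-- The cyclic shift of a chain. -/
def shC {K : Type} (j : ℤ) (θ : Ix n → K) (i : Ix n) : K := θ (rs n ((i.1 : ℕ) + j), i.2)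

end

/-! ### The data of the polygon with the coordinates `y` -/

section

variable (n : ℕ) [NeZero n] (e : ℕ) (r : ℤ)

/-- The monodromy. -/
def Mo (y : E n) : M4 := mono (cc n y)

/-- The polygon with the coordinates `y`. -/
noncomputable def pol (y : E n) (k : ℤ) : V4 := (Mo n y ^ (k / (n : ℤ))) *ᵥ vert n y (rs n k)

/-- `u_m = v_(r m)`. -/
noncomputable def us (y : E n) (m : ℤ) : V4 := pol n y (r * m)

/-- `t = M ^ e`. -/
def tm (y : E n) : M4 := Mo n y ^ e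

/-- The matrix with the columns `u_m`, `t u_m`, `t² u_m`, `t³ u_m`. -/
noncomputable def Bm (y : E n) (m : ℤ) : M4 :=
  Matrix.of fun i j => (tm n e y ^ (j : ℕ) *ᵥ us n r y m) i

/-- `u_(m+1) = ∑ b_j t^j u_m`. -/
noncomputable def bv (y : E n) (m : ℤ) : V4 := (Bm n e r y m)⁻¹ *ᵥ us n r y (m + 1)

/-- `t⁴ + p₃ t³ + p₂ t² + p₁ t + p₀ = 0`. -/
noncomputable def pc (y : E n) : Fin 4 → ℝ := -((Bm n e r y 0)⁻¹ *ᵥ (tm n e y ^ 4 *ᵥ e0))

/-- `s_m`. -/
noncomputable def s0 (y : E n) (m : ℤ) : ℝ := bv n e r y m 2 / bv n e r y m 3 - pc n e r y 3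

/-- `κ_m`. -/
noncomputable def kap (y : E n) (m : ℤ) : ℝ :=
  bv n e r y m 1 - s0 n e r y m * bv n e r y m 2 - pc n e r y 2 * bv n e r y m 3

/-- `(s_m, u_m, C_m)` at the time `0`. -/
noncomputable def dat0 (y : E n) (m : ℤ) : Fin 3 → ℝ :=
  ![s0 n e r y m,
    (bv n e r y m 0 - s0 n e r y m * bv n e r y m 1 - pc n e r y 1 * bv n e r y m 3) /
      kap n e r y m,
    (-s0 n e r y m * bv n e r y m 0 - pc n e r y 0 * bv n e r y m 3) / kap n e r y m]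

/-- `(s_m, u_m, C_m)` at all half times. -/
noncomputable def dat (y : E n) : ℤ → ℤ → Fin 3 → ℝ := lat (pc n e r y) (dat0 n e r y)

/-- The matrix `(t - s_(1,m)) / (t - s_(0,m))`. -/
noncomputable def Gm (y : E n) (m : ℤ) : M4 :=
  (tm n e y - dat n e r y 1 m 0 • 1) * (tm n e y - dat n e r y 0 m 0 • 1)⁻¹

/-- The matrix `∑ v_j M^j`. -/
def mk (y : E n) (v : V4) : M4 := ∑ j : Fin 4, v j • Mo n y ^ (j : ℕ)

/-- The image of the polygon, `k`-th vertex; `r'` is an inverse of `r` modulo `n`, `i` is a shift of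
the indices. -/
noncomputable def img (r' i : ℤ) (y : E n) (k : ℤ) : V4 :=
  Gm n e r y (r' * (k + i)) *ᵥ pol n y (k + i)

/-- The image of the polygon, normalised. -/
noncomputable def imn (r' i : ℤ) (y : E n) (k : ℤ) : V4 :=
  (Gm n e r y (r' * i) * mk n y (pol n y i))⁻¹ *ᵥ img n e r r' i y k

/-- The map `T` in the coordinates. -/
noncomputable def ff (r' i : ℤ) (y : E n) : E n := fun a =>
  if a.1 = 0 then y a
  else imn n e r r' i y ((a.1 : ℕ) : ℤ) a.2.succ / imn n e r r' i y ((a.1 : ℕ) : ℤ) 0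

end

/-! ### Complex derivatives -/

/-- The derivative of `g` at `y` in the direction of the complex vector `w`. -/
noncomputable def dd {ι : Type} [Fintype ι] [DecidableEq ι] (w : ι → ℂ) (g : (ι → ℝ) → ℂ)
    (y : ι → ℝ) : ℂ := ∑ j, w j * fderiv ℝ g y (Pi.single j 1)

end Pool.Agent.MP62a5ad.QN
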