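import Pool.Agent.Lib.MP_62a5ad_mp.QN.DefsF
import Pool.Agent.Lib.MP_62a5ad_mp.PN.Spec

/-!
# MP_62a5ad_mp, QN: Liouville integrability of `T_{I,I}` on `P_{3,n}`, the frame

THEOREM. For `d = 3`, `n ≥ 2` and `I = (a, b)` such that `n` divides one of `a`, `b`, `a + b` and is coprime
to the others (`n = 2`: all `a`, `b`) the map `T_{I,I}` on `P_{3,n}` is Liouville integrable (corank
`n + 2`, rank `2 (n - 1)`). This file: the abstract integrability theorem, calculus, roots, the chart, the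
geometry, `n = 2`.

Every `def S_Foo : Prop` is one task: write `Pool/Agent/Lib/MP_62a5ad_mp/QN/Foo.lean` with
`theorem tFoo (hyps S_... as allowed in the docstring, in the given order) : S_Foo` in the namespace
`Pool.Agent.MP62a5ad.QN` (helper lemmas in the namespace `Pool.Agent.MP62a5ad.QN.FooAux`). All tasks are
independent: the allowed statements are hypotheses of the theorem. Everything in
`Pool/Agent/Lib/MP_62a5ad_mp/PN` is proved and may be imported (`PN/All.lean`: `PN.aFam : PN.S_Fam`, …).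
-/

set_option autoImplicit false

namespace Pool.Agent.MP62a5ad.QN

open Matrix
open scoped ContDiff
open Pool.Agent.MP62a5ad.PN (V4 M4 e0)

/-! ## Part A: calculus -/

/-- **Ch** (80 lines). Chain and product rules.
PROOF. `fderiv (F ∘ g) z = (fderiv F (g z)).comp (fderiv g z)`; `fderiv g z (single j 1)` has the
coordinates `Jm g z k j` (`fderiv_apply`/`hasFDerivAt_pi`), i.e. it is `∑ k, Jm g z k j • single k 1`
(`pi_eq_sum_univ`). Real and imaginary parts: compose with `Complex.reCLM`, `Complex.imCLM`; real functions as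
complex functions: `Complex.ofRealCLM`. Product rule: `fderiv_mul`. -/
def S_Ch : Prop := ∀ (ι : Type) [Fintype ι] [DecidableEq ι],
  (∀ (F : (ι → ℝ) → ℝ) (g : (ι → ℝ) → ι → ℝ) (z : ι → ℝ) (j : ι), DifferentiableAt ℝ F (g z) →
    DifferentiableAt ℝ g z → pd (F ∘ g) j z = ∑ k, pd F k (g z) * Jm g z k j) ∧
  (∀ (f g : (ι → ℝ) → ι → ℝ) (z : ι → ℝ), DifferentiableAt ℝ f (g z) → DifferentiableAt ℝ g z →
    Jm (f ∘ g) z = Jm f (g z) * Jm g z) ∧
  (∀ (F : (ι → ℝ) → ℂ) (g : (ι → ℝ) → ι → ℝ) (z : ι → ℝ) (j : ι), DifferentiableAt ℝ F (g z) →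
    DifferentiableAt ℝ g z → cpd (F ∘ g) j z = ∑ k, cpd F k (g z) * ((Jm g z k j : ℝ) : ℂ)) ∧
  (∀ (F : (ι → ℝ) → ℂ) (y : ι → ℝ) (j : ι), DifferentiableAt ℝ F y →
    pd (fun x => (F x).re) j y = (cpd F j y).re ∧ pd (fun x => (F x).im) j y = (cpd F j y).im) ∧
  (∀ (F : (ι → ℝ) → ℝ) (y : ι → ℝ) (j : ι), DifferentiableAt ℝ F y →
    cpd (fun x => ((F x : ℝ) : ℂ)) j y = ((pd F j y : ℝ) : ℂ)) ∧
  ∀ (F G : (ι → ℝ) → ℂ) (y : ι → ℝ) (j : ι), DifferentiableAt ℝ F y → DifferentiableAt ℝ G y →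
    cpd (fun x => F x * G x) j y = cpd F j y * G y + F y * cpd G j y

/-- **Dd** (60 lines). `dd w · y` is a derivation.
PROOF. `fderiv_add`, `fderiv_mul`, `fderiv_inv`, `fderiv_const`, sums over `j`. The chain rule for
polynomials: induction on the polynomial `P` (`MvPolynomial.induction_on`), with `pderiv` of sums, products and
variables (`MvPolynomial.pderiv_mul`, `pderiv_X`). -/
def S_Dd : Prop := ∀ (ι : Type) [Fintype ι] [DecidableEq ι] (w : ι → ℂ) (y : ι → ℝ),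
  (∀ g h : (ι → ℝ) → ℂ, DifferentiableAt ℝ g y → DifferentiableAt ℝ h y →
    dd w (fun x => g x + h x) y = dd w g y + dd w h y ∧
    dd w (fun x => g x - h x) y = dd w g y - dd w h y ∧
    dd w (fun x => g x * h x) y = dd w g y * h y + g y * dd w h y ∧
    (h y ≠ 0 → dd w (fun x => g x / h x) y = (dd w g y * h y - g y * dd w h y) / h y ^ 2) ∧
    (g y ≠ 0 → dd w (fun x => (g x)⁻¹) y = -dd w g y / g y ^ 2) ∧
    ∀ N : ℕ, dd w (fun x => g x ^ N) y = N * g y ^ (N - 1) * dd w g y) ∧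
  (∀ c : ℂ, dd w (fun _ => c) y = 0) ∧
  (∀ g h : (ι → ℝ) → ℂ, g =ᶠ[nhds y] h → dd w g y = dd w h y) ∧
  (∀ i, dd w (fun x => ((x i : ℝ) : ℂ)) y = w i) ∧
  ∀ (κ : Type) [Fintype κ] [DecidableEq κ] (Θ : (ι → ℝ) → κ → ℂ) (P : MvPolynomial κ ℂ),
    DifferentiableAt ℝ Θ y →
    dd w (fun x => MvPolynomial.eval (Θ x) P) y =
      ∑ k, MvPolynomial.eval (Θ y) (MvPolynomial.pderiv k P) * dd w (fun x => Θ x k) y

/-- **JcT** (120 lines). The Jacobi identity follows from the tensor identity.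
PROOF. On `U` (open) all functions are smooth (`pd` of a smooth function is smooth on `U`:
`ContDiffOn.fderiv_of_isOpen`). `br π F (br π G H) y = ∑ π_il ∂_i F ∂_l (∑ π_jk ∂_j G ∂_k H)
= ∑ π_il ∂_i F (∂_l π_jk ∂_j G ∂_k H + π_jk ∂_l∂_j G ∂_k H + π_jk ∂_j G ∂_l∂_k H)`. In the cyclic sum the first
terms give the tensor identity times `∂_i F ∂_j G ∂_k H`. The terms with second derivatives of `G` are
`∑ π_il π_jk F_i G_lj H_k` (from `{F,{G,H}}`) and `∑ π_il π_jk H_i F_j G_lk` (from `{H,{F,G}}`); after renaming the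
second one is `∑ π_kj π_il F_i H_k G_jl`, and it cancels the first (`π_kj = -π_jk`, `G_jl = G_lj`: symmetry of the
second derivative, `ContDiffAt.isSymmSndFDerivAt` or `second_derivative_symmetric_of_eventually`; see
`PN/Jac.lean`). In the same way for `F` and `H`. -/
def S_JcT : Prop := ∀ (ι : Type) [Fintype ι] [DecidableEq ι] (U : Set (ι → ℝ))
  (π : (ι → ℝ) → Matrix ι ι ℝ), IsOpen U → (∀ i j, ContDiffOn ℝ ∞ (fun y => π y i j) U) →
  (∀ y ∈ U, ∀ i j, π y j i = -π y i j) →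
  (∀ y ∈ U, ∀ i j k, ∑ l, (π y i l * pd (fun x => π x j k) l y +
    π y j l * pd (fun x => π x k i) l y + π y k l * pd (fun x => π x i j) l y) = 0) →
  IsPoisson U π

/-! ## Part B: linear algebra -/

/-- **RkC** (60 lines). The rank of a real matrix over `ℂ`.
PROOF. A family of real vectors which is linearly independent over `ℝ` is linearly independent over `ℂ` (real
and imaginary parts of a relation). Take a maximal independent subset of the columns of `A`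
(`exists_linearIndependent'`, or `Matrix.rank` as the maximal number of independent columns): the other columns
are real combinations of them. So both ranks are the number of these columns. -/
def S_RkC : Prop := ∀ (κ ι : Type) [Fintype κ] [DecidableEq κ] [Fintype ι] [DecidableEq ι]
  (A : Matrix κ ι ℝ), (rc A).rank = A.rank

/-- **BkN** (100 lines). When is `blk Ω D` invertible?
PROOF. `blk Ω D *ᵥ Sum.elim v l = Sum.elim (Ω *ᵥ v - Dᵀ *ᵥ l) (D *ᵥ v)` (`Matrix.fromBlocks_mulVec`), and a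
square matrix has the determinant `≠ 0` iff its kernel is zero (`Matrix.exists_mulVec_eq_zero_iff`). (→) If
`Dᵀ l = 0` then `(0, l)` is in the kernel. If `D v = 0` and `w ⬝ Ω v = 0` for all `w ∈ ker D` then
`Ω v ∈ (ker D)^⊥ = range Dᵀ` (duality, e.g. `LinearMap.range_dualMap_eq_dualAnnihilator_ker`, or dimensions:
`range Dᵀ ⊆ (ker D)^⊥`, both have the dimension `rank D`), so `Ω v = Dᵀ l`, and `(v, l)` is in the kernel. (←)
Let `(v, l)` be in the kernel: `D v = 0`, and for `w ∈ ker D` `w ⬝ Ω v = w ⬝ Dᵀ l = D w ⬝ l = 0`; so `v = 0`,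
`Dᵀ l = 0`, `l = 0`. -/
def S_BkN : Prop := ∀ (K : Type) [Field K] (ι κ : Type) [Fintype ι] [DecidableEq ι] [Fintype κ]
  [DecidableEq κ] (Ω : Matrix ι ι K) (D : Matrix κ ι K),
  (blk Ω D).det ≠ 0 ↔ (∀ l : κ → K, Dᵀ *ᵥ l = 0 → l = 0) ∧
    ∀ v : ι → K, D *ᵥ v = 0 → (∀ w : ι → K, D *ᵥ w = 0 → w ⬝ᵥ (Ω *ᵥ v) = 0) → v = 0

/-- **BkA** (120 lines). The block `bpi Ω D` of the inverse.
PROOF. `A = blk Ω D`, `Aᵀ = -A`, so `(A⁻¹)ᵀ = -A⁻¹` (`Matrix.transpose_nonsing_inv`). `A⁻¹ = fromBlocks π R S T`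
(`Matrix.fromBlocks_toBlocks`). `A A⁻¹ = 1`: `Ω π - Dᵀ S = 1`, `D π = 0`, `D R = 1`; `A⁻¹ A = 1`:
`π Ω + R D = 1`, `π Dᵀ = 0` (`Matrix.fromBlocks_multiply`, `Matrix.fromBlocks_one`). (3): `π Ω v = v - R D v = v`.
(4): `X = X (Ω π - Dᵀ S) = X Ω π`; the columns of `π` are in `ker D`, so `X Ω π = π`. (5): the range of `π` is
`ker D` (`D π = 0` and (3)), `D` is surjective (`D R = 1`), rank-nullity. -/
def S_BkA : Prop := ∀ (ι κ : Type) [Fintype ι] [DecidableEq ι] [Fintype κ] [DecidableEq κ]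
  (Ω : Matrix ι ι ℝ) (D : Matrix κ ι ℝ), Ωᵀ = -Ω → (blk Ω D).det ≠ 0 →
  (bpi Ω D)ᵀ = -bpi Ω D ∧ D * bpi Ω D = 0 ∧
  (∀ v : ι → ℝ, D *ᵥ v = 0 → bpi Ω D *ᵥ (Ω *ᵥ v) = v) ∧
  (∀ X : Matrix ι ι ℝ, X * Dᵀ = 0 → (∀ v : ι → ℝ, D *ᵥ v = 0 → X *ᵥ (Ω *ᵥ v) = v) →
    X = bpi Ω D) ∧
  (bpi Ω D).rank + Fintype.card κ = Fintype.card ι

/-- **BkJ** (200 lines). Allowed: `S_JcT`, `S_BkA`. The block is a Poisson structure.
PROOF. `A y = blk (Ω y) (gZ Z y)` has smooth entries on `U`, and so has `A⁻¹` (`det⁻¹ • adjugate`, see `PN/MA.lean`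
for the analytic case; entries of the adjugate are polynomials in the entries of `A`). `skew`: `S_BkA`. For
`S_JcT`: for `L : ι ⊕ κ` and a function `g` let `∂_L g = pd g l y` for `L = inl l`, `∂_L g = 0` for `L = inr _`.
Differentiate `A * A⁻¹ = 1`: `∂_L (A⁻¹)_{JK} = -∑ (A⁻¹)_{JM} ∂_L A_{MN} (A⁻¹)_{NK}
= ∑ (A⁻¹)_{JM} (A⁻¹)_{KN} ∂_L A_{MN}` (`(A⁻¹)ᵀ = -A⁻¹`). So with `B = A⁻¹`
`∑_L (B_IL ∂_L B_JK + B_JL ∂_L B_KI + B_KL ∂_L B_IJ)
= ∑_{LMN} B_IL B_JM B_KN (∂_L A_MN + ∂_M A_NL + ∂_N A_LM)` (rename the summation indices in the second and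
third term), and the bracket is 0: all indices in `ι`: `Ω` is closed; `L = inl l`, `M = inl m`, `N = inr k`:
`A_MN = -∂_m Z_k`, `A_NL = ∂_l Z_k`, so `-∂_l ∂_m Z_k + ∂_m ∂_l Z_k + 0 = 0` (symmetry of the second derivative),
and cyclic; two or three indices in `κ`: all terms are 0 (`A_{κκ} = 0`, `∂_(inr _) = 0`). For `I = inl i`, … only
`L = inl l` contributes on the left side: this is the tensor identity for `π = toBlocks₁₁ B`. -/
def S_BkJ : Prop := ∀ (ι κ : Type) [Fintype ι] [DecidableEq ι] [Fintype κ] [DecidableEq κ]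
  (U : Set (ι → ℝ)) (Ω : (ι → ℝ) → Matrix ι ι ℝ) (Z : κ → (ι → ℝ) → ℝ), IsOpen U →
  (∀ i j, ContDiffOn ℝ ∞ (fun y => Ω y i j) U) → (∀ y ∈ U, (Ω y)ᵀ = -Ω y) →
  (∀ y ∈ U, ∀ i j k, pd (fun x => Ω x j k) i y + pd (fun x => Ω x k i) j y +
    pd (fun x => Ω x i j) k y = 0) →
  (∀ i, ContDiffOn ℝ ∞ (Z i) U) → (∀ y ∈ U, (blk (Ω y) (gZ Z y)).det ≠ 0) →
  IsPoisson U fun y => bpi (Ω y) (gZ Z y)

/-- **Clo** (120 lines). Allowed: `S_Ch`. The real 2-form `omt` is smooth, skew and closed.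
PROOF. `om_jk = ∑_ab T_ab J_aj J_bk`, `T = T0`. `S^a_ij = ∂_j J_ai` is symmetric in `i, j` (closed rows). `∂_i om_jk
= ∑ T_ab (S^a_ij J_bk + J_aj S^b_ik)`. In the cyclic sum the terms with `S_ij` are
`∑ T_ab S^a_ij J_bk` (from `∂_i om_jk`) and `∑ T_ab J_ak S^b_ij` (from `∂_j om_ki`), and the second is
`∑ T_ba S^a_ij J_bk = -∑ T_ab S^a_ij J_bk`; in the same way `S_jk`, `S_ki`. `omt = Re om - τ Im om` (`S_Ch`). -/
def S_Clo : Prop := ∀ (ι : Type) [Fintype ι] [DecidableEq ι] (U : Set (ι → ℝ))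
  (J : (ι → ℝ) → Matrix ι ι ℂ) (T0 : Matrix ι ι ℝ) (τ : ℝ), IsOpen U →
  (∀ i j, ContDiffOn ℝ ∞ (fun y => J y i j) U) →
  (∀ y ∈ U, ∀ k i j, cpd (fun x => J x k i) j y = cpd (fun x => J x k j) i y) → T0ᵀ = -T0 →
  (∀ i j, ContDiffOn ℝ ∞ (fun y => omt T0 J τ y i j) U) ∧
  (∀ y ∈ U, (omt T0 J τ y)ᵀ = -omt T0 J τ y) ∧
  ∀ y ∈ U, ∀ i j k, pd (fun x => omt T0 J τ x j k) i y + pd (fun x => omt T0 J τ x k i) j y +
    pd (fun x => omt T0 J τ x i j) k y = 0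

/-- **NdC** (100 lines). Allowed: `S_RkC`, `S_BkN`. The complex form is nondegenerate on the leaves.
PROOF. `S_BkN` (←) for `Ω = Jᵀ T0 J`, `D = a₀ J`, `a₀` the first `p` rows of `a`. `Dᵀ l = Jᵀ a₀ᵀ l = 0` gives
`a₀ᵀ l = 0`, `l = 0` (the rows of `a` are independent). Let `D v = 0`, `w ⬝ Jᵀ T0 J v = 0` for all `w ∈ ker D`;
`x = J v ∈ ker a₀`. `ker a₀ = range P0`: `⊇` as `a₀ P0 = 0`, and both have the dimension
`card ι - p = 2 q` (`S_RkC`). So `x = P0 u`. For every `u'` the vector `w = J⁻¹ P0 u'` is in `ker D`: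
`0 = (P0 u') ⬝ T0 P0 u = u' ⬝ P0ᵀ T0 P0 u = -u' ⬝ P0 u`. So `x = P0 u = 0`, `v = 0`. -/
def S_NdC : Prop := ∀ (ι : Type) [Fintype ι] [DecidableEq ι] (p q : ℕ) (P0 T0 : Matrix ι ι ℝ)
  (a : Matrix (Fin (p + q)) ι ℂ) (J : Matrix ι ι ℂ), Fintype.card ι = p + 2 * q → P0ᵀ = -P0 →
  P0 * T0 * P0 = P0 → P0.rank = 2 * q → LinearIndependent ℂ (fun i => a i) →
  Matrix.of (fst p q a) * rc P0 = 0 → J.det ≠ 0 →
  (blk (Jᵀ * rc T0 * J) (Matrix.of (fst p q a) * J)).det ≠ 0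

/-- **LgC** (120 lines). Allowed: `S_RkC`. The complex form vanishes on the common kernel.
PROOF. `K = ker a` has the dimension `card ι - (p + q) = q`. For `j ≥ p` the vector `b_j = P0 a_j` is in `K`
(`a P0 aᵀ = 0`). They are independent: `∑ c_j b_j = 0` means `∑_{j ≥ p} c_j a_j ∈ ker P0`, and `ker P0` is the span of
`a_0, …, a_(p-1)` (`a₀ P0 = 0` and `P0` skew: `P0 a_i = 0` for `i < p`; dimension `card ι - 2 q = p`), so `c = 0`. So
the `b_j` are a basis of `K`: `x = P0 u`, `x' = P0 u'`, `u = ∑ c_j a_j`, `u' = ∑ c'_j a_j` (`j ≥ p`), and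
`x ⬝ T0 x' = u ⬝ P0ᵀ T0 P0 u' = -u ⬝ P0 u' = -∑ c_j c'_k (a P0 aᵀ)_jk = 0`. -/
def S_LgC : Prop := ∀ (ι : Type) [Fintype ι] [DecidableEq ι] (p q : ℕ) (P0 T0 : Matrix ι ι ℝ)
  (a : Matrix (Fin (p + q)) ι ℂ), Fintype.card ι = p + 2 * q → P0ᵀ = -P0 →
  P0 * T0 * P0 = P0 → P0.rank = 2 * q → LinearIndependent ℂ (fun i => a i) →
  Matrix.of (fst p q a) * rc P0 = 0 → a * rc P0 * aᵀ = 0 →
  ∀ x x' : ι → ℂ, a *ᵥ x = 0 → a *ᵥ x' = 0 → x ⬝ᵥ (rc T0 *ᵥ x') = 0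

/-- **LgR** (120 lines). Allowed: `S_BkN`, `S_BkA`. Involution in the real form.
PROOF. `D₀ = of (fst p q D)`, `π = bpi Ω D₀`, `T = ker D₀` (dimension `2 q`), `K = ker D` (dimension `q`). For a row
`D_j` put `X = π D_j`; `D₀ X = 0`. For `v ∈ K`: `X ⬝ Ω v = D_j ⬝ πᵀ Ω v = -D_j ⬝ (π Ω v) = -D_j ⬝ v = 0` (`S_BkA`).
So `X` is in `K' = {x ∈ T | ∀ v ∈ K, x ⬝ Ω v = 0}`. `K ⊆ K'` by hypothesis. The linear map `T → (T → ℝ)`,
`x ↦ (v ↦ x ⬝ Ω v)` into the dual space is injective (`S_BkN`, `Ωᵀ = -Ω`), so bijective; restriction to `K` is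
surjective onto the dual of `K`, so `dim K' = 2 q - q = q` and `K' = K`. Hence `D X = 0`. -/
def S_LgR : Prop := ∀ (ι : Type) [Fintype ι] [DecidableEq ι] (p q : ℕ) (Ω : Matrix ι ι ℝ)
  (D : Matrix (Fin (p + q)) ι ℝ), Fintype.card ι = p + 2 * q → Ωᵀ = -Ω →
  LinearIndependent ℝ (fun i => D i) → (blk Ω (Matrix.of (fst p q D))).det ≠ 0 →
  (∀ v w : ι → ℝ, D *ᵥ v = 0 → D *ᵥ w = 0 → v ⬝ᵥ (Ω *ᵥ w) = 0) →
  D * bpi Ω (Matrix.of (fst p q D)) * Dᵀ = 0

/-- **InvC** (100 lines). Allowed: `S_RkC`. Invariance of the complex form on the leaves.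
PROOF. `x = N v`, `x' = N w` are in `ker a₀ = range P0` (see `NdC`). `range (P0 Kᵀ) ⊆ range P0`, and
`rank (P0 Kᵀ) ≥ rank (K P0 Kᵀ) = rank P0`, so they are equal: `x = P0 Kᵀ u`, `x' = P0 Kᵀ u'`. `N' F v = K x =
P0 u`, `N' F w = P0 u'`. `(P0 u) ⬝ T0 P0 u' = -u ⬝ P0 T0 P0 u' = -u ⬝ P0 u'`, and `x ⬝ T0 x' =
-u ⬝ K P0 T0 P0 Kᵀ u' = -u ⬝ K P0 Kᵀ u' = -u ⬝ P0 u'`. -/
def S_InvC : Prop := ∀ (ι : Type) [Fintype ι] [DecidableEq ι] (p q : ℕ) (P0 T0 : Matrix ι ι ℝ)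
  (a : Matrix (Fin p) ι ℂ) (K N N' F : Matrix ι ι ℂ), Fintype.card ι = p + 2 * q → P0ᵀ = -P0 →
  P0 * T0 * P0 = P0 → P0.rank = 2 * q → LinearIndependent ℂ (fun i => a i) → a * rc P0 = 0 →
  K * rc P0 * Kᵀ = rc P0 → N' * F = K * N →
  ∀ v w : ι → ℂ, (a * N) *ᵥ v = 0 → (a * N) *ᵥ w = 0 →
    (F *ᵥ v) ⬝ᵥ ((N'ᵀ * rc T0 * N') *ᵥ (F *ᵥ w)) = v ⬝ᵥ ((Nᵀ * rc T0 * N) *ᵥ w)

/-- **InvR** (120 lines). Allowed: `S_BkN`, `S_BkA`. Invariance of the Poisson structure.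
PROOF. `F` is injective on `ker D`: if `F v = 0`, `v ∈ ker D`, then for `w ∈ ker D` `w ⬝ Ω v = F w ⬝ Ω' F v = 0`, so `v = 0`
(`S_BkN` (→)). `F` maps `ker D` into `ker D'`; both have the dimension `card ι - card κ` (the rows of `D` and of `D'`
are independent), so onto. `det ≠ 0`: `S_BkN` (←): let `v' = F v ∈ ker D'` with `w' ⬝ Ω' v' = 0` for all
`w' ∈ ker D'`; for `w ∈ ker D`: `w ⬝ Ω v = F w ⬝ Ω' F v = 0`, so `v = 0`. `X = F π Fᵀ`, `π = bpi Ω D`: `X D'ᵀ =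
F π (D' F)ᵀ = F π Dᵀ = 0` (`D π = 0`, `π` skew). For `v' = F v ∈ ker D'`: `u = Fᵀ Ω' F v - Ω v` satisfies `w ⬝ u = 0` for
`w ∈ ker D`, so `u = Dᵀ l` (see `BkN`), `π u = 0`, and `X Ω' v' = F π Fᵀ Ω' F v = F π Ω v = F v = v'`. By `S_BkA` (4)
`X = bpi Ω' D'`. -/
def S_InvR : Prop := ∀ (ι κ : Type) [Fintype ι] [DecidableEq ι] [Fintype κ] [DecidableEq κ]
  (Ω Ω' F : Matrix ι ι ℝ) (D D' : Matrix κ ι ℝ), Ωᵀ = -Ω → Ω'ᵀ = -Ω' → D' * F = D →
  (∀ l : κ → ℝ, D'ᵀ *ᵥ l = 0 → l = 0) →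
  (∀ v w : ι → ℝ, D *ᵥ v = 0 → D *ᵥ w = 0 → (F *ᵥ v) ⬝ᵥ (Ω' *ᵥ (F *ᵥ w)) = v ⬝ᵥ (Ω *ᵥ w)) →
  (blk Ω D).det ≠ 0 → (blk Ω' D').det ≠ 0 ∧ F * bpi Ω D * Fᵀ = bpi Ω' D'

/-- **Tau** (120 lines). The choice of `τ`.
PROOF. Fix `y ∈ U`. `P(x) = det (blk (R y - x I y) (D y))` is a real polynomial in `x` (the determinant of the matrix
over `ℝ[X]`, `Matrix.det` commutes with evaluation: `RingHom.map_det`), and its value at `x = -i` (over `ℂ`) is the
determinant in the hypothesis, so `P ≠ 0` has finitely many real roots `B_y`. Let `{y_k}` be a countable dense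
subset of `U` (`TopologicalSpace.exists_countable_dense` for the subtype `U`; if `U` is empty there is nothing to
prove). `⋃ B_{y_k}` is countable, so there is `τ` outside (`Set.Countable.exists_notMem`-style: `ℝ` is uncountable,
`Cardinal.not_countable_real`). Every `O ∩ U ≠ ∅` contains some `y_k`. -/
def S_Tau : Prop := ∀ (ι κ : Type) [Fintype ι] [DecidableEq ι] [Fintype κ] [DecidableEq κ]
  (U : Set (ι → ℝ)) (R I : (ι → ℝ) → Matrix ι ι ℝ) (D : (ι → ℝ) → Matrix κ ι ℝ), IsOpen U →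
  (∀ y ∈ U, (blk (rc (R y) + Complex.I • rc (I y)) (rc (D y))).det ≠ 0) →
  ∃ τ : ℝ, ∀ O : Set (ι → ℝ), IsOpen O → (O ∩ U).Nonempty →
    ∃ y ∈ O ∩ U, (blk (R y - τ • I y) (D y)).det ≠ 0

/-- **Abs** (250 lines). Allowed: `S_Ch`, `S_BkA`, `S_BkJ`, `S_Clo`, `S_NdC`, `S_LgC`, `S_LgR`, `S_InvC`,
`S_InvR`, `S_Tau`. The abstract integrability theorem.
PROOF. `F₀ = fst p q F`, `R = Re om`, `I = Im om` (so `om = rc R + i rc I`); `rc (gZ F₀ y) = a₀ J` by `dF`. `S_NdC` and `S_Tau`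
give `τ`. `V = {y ∈ U | det (blk (omt y) (gZ F₀ y)) ≠ 0}` is open (continuous on the open set `U`) and dense.
`π y = bpi (omt y) (gZ F₀ y)`. `dense'`: let `O` be open and nonempty, `y₀ ∈ O ∩ V`; `f` maps neighbourhoods of `y₀`
to neighbourhoods of `f y₀` (`det Jm f y₀ ≠ 0`, `HasStrictFDerivAt.map_nhds_eq_of_equiv` or
`…_of_surj`), so `f '' (O ∩ V)` meets the dense set `V`. `poisson`: `S_BkJ`, `S_Clo`. `rank`: `S_BkA` (5), `card`.
`inv`: `K` from `sym`; `S_InvC` with `a₀`, `N = J y`, `N' = J (f y)`, `F = rc (Jm f y)` for real vectors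
`v, w ∈ ker (gZ F₀ y)`; the real part minus `τ` times the imaginary part is the hypothesis of `S_InvR`. `gZ F₀ (f y) *
Jm f y = gZ F₀ y` by the chain rule, because `F i ∘ f = F i` near `y` (`{y ∈ U | f y ∈ U}` is open: `f` is continuous on
`U`). The rows of `gZ F y` are independent over `ℝ` (those of `a y` are independent, `J` is invertible), so
`(gZ F₀ (f y))ᵀ` is injective. `indep`: evaluate a relation at `Pi.single j 1`. `invol`: `br π (F i) (F j) y` is the entry of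
`gZ F y * π y * (gZ F y)ᵀ = 0` (`S_LgR`); isotropy: for real `v, w` with `gZ F y v = gZ F y w = 0` the vectors
`x = J v`, `x' = J w` are killed by `a`, so `v ⬝ om w = x ⬝ T0 x' = 0` (`S_LgC`). `casimir`: `D₀ π = 0` and `π` skew. -/
def S_Abs : Prop := ∀ (ι : Type) [Fintype ι] [DecidableEq ι] (p q : ℕ) (U : Set (ι → ℝ))
  (f : (ι → ℝ) → ι → ℝ) (J : (ι → ℝ) → Matrix ι ι ℂ) (P0 T0 : Matrix ι ι ℝ)
  (F : Fin (p + q) → (ι → ℝ) → ℝ) (a : (ι → ℝ) → Matrix (Fin (p + q)) ι ℂ),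
  Sys p q U f J P0 T0 F a → ∃ V ⊆ U, ∃ π : (ι → ℝ) → Matrix ι ι ℝ, LI p q V f π F

/-! ## Part C: multiplicities and polynomials -/

/-- **Mlt** (120 lines). Allowed: `S_Dd`. The multiplicity lemma.
PROOF. For `y ∈ O` let `T_j(y) = ∑_k C(k, j) Φ_k(y) h(y)^(k - j)` (terms `k ≥ j`), the Taylor coefficients of
`P_y(X) = ∑ Φ_k(y) X^k` at `h(y)`: `P_y(X) = ∑ T_j(y) (X - h(y))^j`, so for every `y ∈ O` some `T_j(y) ≠ 0`
(otherwise `P_y = 0`). `T_0 = 0` on `O`. Let `j` be minimal such that `T_j` is not identically zero on `O`; `j ≥ 1`.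
`O' = {y ∈ O | T_j(y) ≠ 0}` is open and not empty. On `O` `T_(j-1) = 0`, so for `y ∈ O'`
`0 = dd w T_(j-1) y = ∑_k C(k, j-1) (dd w Φ_k y h^(k-j+1) + Φ_k (k-j+1) h^(k-j) dd w h y)`; as
`C(k, j-1) (k-j+1) = j C(k, j)` this is `∑_k (…) dd w Φ_k y + j T_j(y) dd w h y`. -/
def S_Mlt : Prop := ∀ (ι : Type) [Fintype ι] [DecidableEq ι] (N : ℕ) (O : Set (ι → ℝ))
  (Φ : Fin (N + 1) → (ι → ℝ) → ℂ) (h : (ι → ℝ) → ℂ), IsOpen O → O.Nonempty →
  (∀ k, ContDiffOn ℝ ∞ (Φ k) O) → ContDiffOn ℝ ∞ h O →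
  (∀ y ∈ O, ∑ k, Φ k y * h y ^ (k : ℕ) = 0) → (∀ y ∈ O, ∃ k, Φ k y ≠ 0) →
  ∃ O' ⊆ O, IsOpen O' ∧ O'.Nonempty ∧ ∀ y ∈ O', ∀ w : ι → ℂ,
    (∀ k, dd w (Φ k) y = 0) → dd w h y = 0

/-- **Pol** (100 lines). Allowed: `S_Dd`. A polynomial in functions with independent differentials.
PROOF. Induction on the total degree of `D` (for all `O`). Suppose `eval (Θ y) D = 0` for all `y ∈ O ∩ U`. Then for
`y ∈ O ∩ U` and all `w` `0 = dd w (eval ∘ Θ) y = ∑_k eval (Θ y) (pderiv k D) * dd w (Θ · k) y` (`S_Dd`), i.e.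
`(g ᵥ* cJ Θ y) ⬝ w = 0`, `g_k = eval (Θ y) (pderiv k D)`, so `g = 0`. If some `pderiv k D ≠ 0`: its total degree is
smaller (`MvPolynomial.totalDegree_pderiv_lt`-type fact; or use the induction on a bound `N ≥ totalDegree`), so it
does not vanish at some point of `O ∩ U`, contradiction. If all `pderiv k D = 0` then `D` is a constant
(characteristic 0: compare coefficients, `MvPolynomial.coeff_pderiv`-type fact), `D ≠ 0`, contradiction. -/
def S_Pol : Prop := ∀ (ι : Type) [Fintype ι] [DecidableEq ι] (U : Set (ι → ℝ))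
  (Θ : (ι → ℝ) → ι → ℂ) (D : MvPolynomial ι ℂ), IsOpen U → ContDiffOn ℝ ∞ Θ U →
  (∀ y ∈ U, (cJ Θ y).det ≠ 0) → D ≠ 0 →
  ∀ O : Set (ι → ℝ), IsOpen O → (O ∩ U).Nonempty → ∃ y ∈ O ∩ U, MvPolynomial.eval (Θ y) D ≠ 0

/-- **Ind** (80 lines). Independence of gradients is the nonvanishing of a polynomial.
PROOF. The rows of a matrix are linearly independent iff some square submatrix with all the rows is invertible
(`Matrix.rank`; or: extend the independent rows at `θ₀` by unit vectors to a basis, a constant matrix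
`B` of additional rows such that the square matrix with the rows `∇H_i(θ₀)` and `B` is invertible). So there is an
injection or a matrix `B : Matrix κ' ι ℂ` and an equivalence `e : ι ≃ κ ⊕ κ'` with `det (fromRows (∇H(θ₀)) B) ≠ 0`. Let `P` be the
determinant of the matrix over `MvPolynomial ι ℂ` with the rows `pderiv j (H i)` and `C (B i j)`: `eval θ P` is
the determinant at `θ` (`RingHom.map_det`), so `P ≠ 0`, and `eval θ P ≠ 0` implies that the rows are independent. -/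
def S_Ind : Prop := ∀ (ι κ : Type) [Fintype ι] [DecidableEq ι] [Fintype κ] [DecidableEq κ]
  (H : κ → MvPolynomial ι ℂ) (θ₀ : ι → ℂ),
  LinearIndependent ℂ (fun i => fun j => MvPolynomial.eval θ₀ (MvPolynomial.pderiv j (H i))) →
  ∃ P : MvPolynomial ι ℂ, P ≠ 0 ∧ ∀ θ : ι → ℂ, MvPolynomial.eval θ P ≠ 0 →
    LinearIndependent ℂ (fun i => fun j => MvPolynomial.eval θ (MvPolynomial.pderiv j (H i)))

/-! ## Part D: roots -/

/-- **Rt** (120 lines). A smooth branch of a simple root.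
PROOF. `G : (Fin 3 → ℝ) × ℂ → (Fin 3 → ℝ) × ℂ`, `G (c, m) = (c, cpl c m)` is smooth over `ℝ` (polynomial), its derivative
at `(c, m)` is `(c', m') ↦ (c', L c' + dcp c m * m')`, invertible iff `dcp c m ≠ 0`.
`ContDiffAt.toOpenPartialHomeomorph` at `(c₀, m₀)` gives a local inverse `G'`; restrict it to the open set of the
points `(c, m)` with `dcp c m ≠ 0`; `O = {c | (c, 0) ∈ target, dcp c (G' (c, 0)).2 ≠ 0}`, `m c = (G' (c, 0)).2`. Smooth at
every point of `O`: `OpenPartialHomeomorph.contDiffAt_symm`. `G (G' (c, 0)) = (c, 0)`, so `(G' (c, 0)).1 = c`. -/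
def S_Rt : Prop := ∀ (c₀ : Fin 3 → ℝ) (m₀ : ℂ), cpl c₀ m₀ = 0 → dcp c₀ m₀ ≠ 0 →
  ∃ (O : Set (Fin 3 → ℝ)) (m : (Fin 3 → ℝ) → ℂ), IsOpen O ∧ c₀ ∈ O ∧ m c₀ = m₀ ∧
    ContDiffOn ℝ ∞ m O ∧ ∀ c ∈ O, cpl c (m c) = 0 ∧ dcp c (m c) ≠ 0

/-- **Dis** (120 lines). Generic characteristic polynomials have four different roots.
PROOF. (1) Let `D = {c | ∀ m, cpl c m = 0 → dcp c m ≠ 0}`. `cpl c` is a monic polynomial of degree 4 over `ℂ`; it splits
(`IsAlgClosed.splits`), and for `c ∈ D` the roots are simple, so there are four different roots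
(`Polynomial.card_roots`, nodup: a double root is a root of the derivative), and `cpl c x = ∏ (x - m_i)`. (2) Dense: for
fixed `c 0, c 1` `dcp` has at most three roots `m`, and `c ∉ D` only if `c 2` is one of the at most three numbers
`-(m⁴ - m³ + c 0 m² - c 1 m)`: change `c 2` a little. (3) Open: the set of the bad `c` is closed: if `c_k → c` and
`cpl c_k m_k = dcp c_k m_k = 0` then the `m_k` are bounded (`|m|⁴ ≤ …` for a root of a monic polynomial), a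
subsequence converges to a common root. Or: use `S_Rt`-type branches near the four simple roots. -/
def S_Dis : Prop :=
  IsOpen {c : Fin 3 → ℝ | ∀ m : ℂ, cpl c m = 0 → dcp c m ≠ 0} ∧
  Dense {c : Fin 3 → ℝ | ∀ m : ℂ, cpl c m = 0 → dcp c m ≠ 0} ∧
  ∀ c : Fin 3 → ℝ, (∀ m : ℂ, cpl c m = 0 → dcp c m ≠ 0) →
    ∃ m : Fin 4 → ℂ, Function.Injective m ∧ ∀ x : ℂ, cpl c x = ∏ i, (x - m i)

/-- **Sel** (150 lines). Allowed: `S_Rt`, `S_Dis`. Four smooth roots on a dense open set.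
PROOF. (1) Every `c₀ ∈ D` (`S_Dis`) has an open neighbourhood `O ⊆ D` with four smooth functions `m_i`, pairwise different
at every point of `O`, roots of `cpl c` (`S_Rt` at the four roots; shrink `O` by continuity), so
`cpl c x = ∏ (x - m_i c)` (the monic polynomial of degree 4 and the product have the same four roots). (2) Gluing.
`D` is covered by countably many such sets `O_k` (second countable: `TopologicalSpace.isOpen_iUnion_countable` or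
`…exists_countable_basis`), with functions `m^k`. `V_k = O_k \ closure (⋃_{j<k} O_j)` are open and disjoint,
`V = ⋃ V_k` (intersected with `{c | c 2 ≠ 0}`), `m = m^k` on `V_k`. `V` is dense: let `O` be open and nonempty; `O ∩ D` is not empty and meets some `O_k`, let
`k` be minimal; then `O ∩ D ∩ O_k` is open and disjoint from `⋃_{j<k} O_j`, so also from the closure, and it is
contained in `V_k`. Smoothness is local and the `V_k` are open. -/
def S_Sel : Prop := ∃ (V : Set (Fin 3 → ℝ)) (m : Fin 4 → (Fin 3 → ℝ) → ℂ), IsOpen V ∧ Dense V ∧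
  (∀ i, ContDiffOn ℝ ∞ (m i) V) ∧ (∀ c ∈ V, c 2 ≠ 0) ∧
  ∀ c ∈ V, Function.Injective (fun i => m i c) ∧ ∀ x : ℂ, cpl c x = ∏ i, (x - m i c)

/-- **Nrm** (120 lines). The norm of a polynomial in the monodromy.
PROOF. `A = cmono c`, `g(X) = ∑ φ_k X^k`. `charpoly A` evaluated at `x` is `cpl c x` (explicit `4 × 4` determinant). (→) If
`cpl c m = 0` and `g(m) = 0`: there is `v ≠ 0` with `A v = m v`, so `g(A) v = g(m) v = 0` and the determinant
vanishes. (Explicitly: the row vector `(1, m, m², m³)` satisfies `r A = m r`, as the columns of `A` are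
`e_1, e_2, e_3, (-c 2, c 1, -c 0, 1)`.) (←) If `g` and `charpoly A` have no common root in `ℂ` then they are
coprime (`Polynomial.isCoprime_of_…`/`IsAlgClosed`: the gcd has no root), `a g + b χ = 1`, and
`a(A) g(A) = 1` by Cayley-Hamilton (`Matrix.aeval_self_charpoly`). (`g = 0`: then `g(m) = 0` for every root.) -/
def S_Nrm : Prop := ∀ (c : Fin 3 → ℝ) (N : ℕ) (φ : Fin (N + 1) → ℂ),
  (∑ k, φ k • (cmono c) ^ (k : ℕ)).det ≠ 0 ↔ ∀ m : ℂ, cpl c m = 0 → ∑ k, φ k * m ^ (k : ℕ) ≠ 0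

/-! ## Part E: the chart -/

/-- **ChA** (150 lines). Every polygon in `OO` has the coordinates `kch x`. Model: `PN/ChA.lean` (`n = 2`).
PROOF. `M = of x.2`, `K = kry x`, `a = ac x`, `ξ_j = xc x j`. `M K = K c` with the companion matrix
`c = !![0,0,0,a 0; 1,0,0,a 1; 0,1,0,a 2; 0,0,1,a 3]`; `det M = -a 0 ≠ 0`. `D = diag(1, a 3, (a 3)², (a 3)³)`,
`g = D K⁻¹`: `g M = a 3 • (mono (cc (kch x)) g)`, `g v_0 = D e0 = e0`, `g v_j = D ξ_j = ξ_j 0 • vert (kch x) j` for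
`j ≠ 0`. The polygon `v'` with the coordinates `kch x`: `v' k = M'^(k / n) vert (k % n)` (integer powers). As
`v (j + n q) = M^q v_j` and `g M^q = (a 3)^q • M'^q g` (induction over `q` in both directions), `g v k` is a nonzero
multiple of `v' k`. -/
def S_ChA : Prop := ∀ (n : ℕ) [NeZero n], ∀ x ∈ OO n, ∀ v, PolAt n x v →
  ∃ v', Pol n (kch n x) v' ∧ PN.PEq (Matrix.of x.2) v (mono (cc n (kch n x))) v'

/-- **ChB** (150 lines). `kch` is invariant, and its values at the normal forms. Model: `PN/ChB.lean`.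
PROOF. (1) `g M = c M' g`, `g v_j = c_j v'_j` with `c, c_j ≠ 0`. Then `M'^i v'_0 = c_0⁻¹ c^(-i) g M^i v_0`; from
`M⁴ v_0 = ∑ a_i M^i v_0`: `a'_i = c^(i-4) a_i` (the columns of `kry x'` are a basis), from `v_j = ∑ ξ_i M^i v_0`:
`ξ'_i = (c_0/c_j) c^i ξ_i`. Insert into `kch`. (2) For the normal form, `det (mono (cc y)) = cc y 2 ≠ 0`: `M^i e0` is the
standard basis vector `i`, `i < 4`, so `kry x = 1`, `ac x = (-c 2, c 1, -c 0, 1)`, `xc x j = vert y j`. -/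
def S_ChB : Prop := ∀ (n : ℕ) [NeZero n],
  (∀ x ∈ OO n, ∀ x' ∈ OO n, ∀ v v', PolAt n x v → PolAt n x' v' →
    PN.PEq (Matrix.of x.2) v (Matrix.of x'.2) v' → kch n x = kch n x') ∧
  ∀ y : E n, cc n y 2 ≠ 0 → nf n y ∈ OO n ∧ kch n (nf n y) = y

/-- **ChC** (150 lines). Allowed: `S_ChB`. `OO` is open and dense, `kch` is smooth. Model: `PN/ChC.lean`.
PROOF. The entries of `x.1 j`, `of x.2` are continuous linear, so analytic functions of `x`; `PN.aMA` (closure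
properties of analytic matrix functions) and `PN.aAn`. `OO` is the set where the polynomials `det (kry x)`,
`(adj (kry x) M⁴ v_0)_3`, `(adj (kry x) v_j)_0`, `det M` are not zero. Each is nonzero at the normal form of
`y` with `cc y = (0, 0, 1)`, `y (j, i) = 0` (`S_ChB`), so each nonvanishing set is open and dense; finite
intersection. `ac`, `xc`, `kch` are analytic on `OO`. -/
def S_ChC : Prop := ∀ (n : ℕ) [NeZero n], IsOpen (OO n) ∧ Dense (OO n) ∧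
  ContDiffOn ℝ ∞ (kch n) (OO n)

/-! ## Part F: the geometry -/

/-- **CasN** (120 lines). The offsets. Model: `PN/Cas.lean`.
PROOF. (i) `n ∣ a`, `gcd (n, b) = 1`: `e = a/n`, `r = a + b`, `j = 0`: `plane a b v k = Tri n e r v k`. (ii) `n ∣ a + b`,
`gcd (n, a) = 1`: `e = (a + b)/n`, `r = a`, `j = 0`: the same three vectors in another order, the intersection in
another order. (iii) `n ∣ b`, `gcd (n, a) = 1`: `e = b/n`, `r = -a`, `j = -2`, `r * j = 2 a`: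
`plane a b v k = Tri n e r v (k + a)` (the vectors `v k = v (k + a + r)`, `v (k + a)`, `v (k + a + b)`), and with
`i = k + 2 a` the three planes `P_k, P_{k+a}, P_{k+a+b}` are `Tri (i + r)`, `Tri i`, `Tri (i + n e)`. Rewrite the
arguments with `ring_nf`/`omega` after `congr 1`. -/
def S_CasN : Prop := ∀ n a b : ℕ, 2 ≤ n → 0 < a → 0 < b →
  (n ∣ a ∧ Nat.Coprime n b) ∨ (n ∣ b ∧ Nat.Coprime n a) ∨ (n ∣ a + b ∧ Nat.Coprime n a) →
  ∃ (e : ℕ) (r j : ℤ), 0 < e ∧ IsCoprime r (n : ℤ) ∧ (j = 0 ∨ j = -2) ∧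
    ∀ v w : ℤ → V4, IsTri n e r v w → PN.IsImage a b v fun k => w (k + r * j)

/-- **IncN** (100 lines). The incidences in `A`. Model: `PN/Inc.lean` (part (b)); `PN.aLin` may be used.
PROOF. LEMMA: if `ℓ(X) ≠ 0` and `ℓ((t - s) X) = 0` then `1, t, X` are linearly independent (apply `ℓ`, then `b`) and
`span {1, t, X} = {g | ℓ((t - s) g) = 0}`: `⊆` as `ℓ` kills `t - s`, `t (t - s)`; `⊇`: `g' = g - (ℓ(g)/ℓ(X)) X` satisfies
`ℓ(g') = 0`, `ℓ(t g') = ℓ((t - s) g') + s ℓ(g') = 0`, so `g' ∈ span {1, t}` (`S_Lin`). It applies to `X0 = Q σ0`, `s0`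
(`(t - s0) X0 = Q`, `ℓ(Q) = 0`) and to `X1`, `s1`. So the conditions for `g` are `ℓ((t - s0) g) = 0`,
`ℓ((t - s0) ti g) = 0`, `ℓ((t - s1)(t - s0) q g) = 0`. Put `z = (t - s0) ti g`, `g = t σ0 z`: `ℓ(t z) = 0`, `ℓ(z) = 0`, so
`z = a + b t`. With `Y0 = t (t - s1) q` the third condition is `a ℓ(Y0) + b ℓ(t Y0) = 0`. `(t - s0') Y0 = α⁻¹ Z`
(multiply the relation by `q`), so `ℓ(t Y0) = s0' ℓ(Y0)`, and `ℓ(Y0) ≠ 0`: `Y0 = α⁻¹ Z σ'`, `σ'` the inverse of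
`t - s0'`, `pv p s0' * ℓ(Z σ') = -qv u' C' s0' ≠ 0` (`S_Lin`). So `a = -b s0'`, `z = b (t - s0')`,
`g = b • t (t - s0') σ0`. Conversely these `g` satisfy the three conditions. -/
def S_IncN : Prop := ∀ (A : Type) [CommRing A] [Algebra ℝ A] (t : A) (b : Module.Basis (Fin 4) ℝ A)
  (p : V4), PN.Fr t b p → ∀ (s0 u C s1 s0' u' C' α : ℝ) (q σ0 σ' ti X1 : A),
  PN.qe t u C * q = 1 → (t - s0 • 1) * σ0 = 1 → (t - s0' • 1) * σ' = 1 → t * ti = 1 → α ≠ 0 →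
  PN.qe t u C * PN.qe t u' C' = α • (t * (t - s1 • 1) * (t - s0' • 1)) →
  PN.qv u C s0 ≠ 0 → PN.qv u' C' s0' ≠ 0 →
  PN.el b X1 ≠ 0 → PN.el b ((t - s1 • 1) * X1) = 0 →
  LinearIndependent ℝ ![1, t, PN.qe t u C * σ0] ∧ LinearIndependent ℝ ![1, t, X1] ∧
  ∀ g : A, (g ∈ Submodule.span ℝ {1, t, PN.qe t u C * σ0} ∧
      ti * g ∈ Submodule.span ℝ {1, t, PN.qe t u C * σ0} ∧
      (t - s0 • 1) * q * g ∈ Submodule.span ℝ {1, t, X1}) ↔
    ∃ c : ℝ, g = c • (t * (t - s0' • 1) * σ0)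

/-- **GeoN** (250 lines). Allowed: `S_IncN`. The geometric meaning of the map. Model: `PN/Geo.lean`;
`PN.aBrg`, `PN.aDt`, `PN.aLin`, `PN.aFam`, `PN.aRA` may be used.
PROOF. Take `A, ι, b, τ` from `PN.aBrg` at `m`; `p = pc t m`. The matrices `P k`, `(t - s)⁻¹`, … commute with `mono m`, so
they are `ι` of elements of `A` (`P k = ι (N k)`, `N k` invertible in `A`). `X_k = N (k + r) (N k)⁻¹ = κ_k Q_k σ_k`,
`Q_k = qe τ (u k) (C k)` (invertible by the relation), `σ_k = (τ - s_k)⁻¹`. The map `A → ℝ⁴`, `g ↦ ι g e0` is linear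
and bijective, and maps `N k · span {1, τ, X_k}` onto `Tri k` (as `v (k + n e) = M^e v k`, `M^e = κt⁻¹ t`; scale the
vectors of the span: `Submodule.span` of nonzero multiples, `κ_k ≠ 0`), and `τ N k · span {1, τ, X_k}` onto
`Tri (k + n e)`, `N (k + r) · span {1, τ, X_(k+r)}` onto `Tri (k + r)`. `S_IncN` with `s0 = s_k`, `s1 = s_(k+r)`,
`s0' = s'_k`, `X1 = Q_(k+r) σ_(k+r)` (`ℓ(X1) ≠ 0` as `qv (s_(k+r)) ≠ 0`, `PN.aLin`; `ℓ((τ - s1) X1) = ℓ(Q) = 0`): the relation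
`Q_k Z_k = α τ (τ - s_(k+r)) (τ - s'_k)` in `A` follows from `PN.Rel` and `Fr.rel`. `g N k` is in all three spaces iff
`g` satisfies the three conditions (`(τ - s_k) q_k g = κ_k X_k⁻¹ g`). Dimension 3: `1, τ, X_k` are independent.
`w k ≠ 0`: `τ (τ - s'_k) σ_k N k` is a unit. -/
def S_GeoN : Prop := ∀ (n e : ℕ) (r : ℤ) (t : PN.E6 → M4) (m : PN.E6) (κt : ℝ), PN.MFam t →
  m ∈ PN.DD t → κt ≠ 0 → t m = κt • (PN.mono m) ^ e →
  ∀ (P : ℤ → M4) (κ s u C s' u' C' α : ℤ → ℝ),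
  (∀ k, P k * PN.mono m = PN.mono m * P k) → (∀ k, (P k).det ≠ 0) →
  (∀ k, P (k + n) = PN.mono m * P k) →
  (∀ k, κ k ≠ 0 ∧ α k ≠ 0 ∧ (t m - s k • (1 : M4)).det ≠ 0 ∧ (t m - s' k • (1 : M4)).det ≠ 0 ∧
    PN.qv (u k) (C k) (s k) ≠ 0 ∧ PN.qv (u' k) (C' k) (s' k) ≠ 0) →
  (∀ k, PN.Rel (PN.pc t m) (s (k + r)) (u k) (C k) (s' k) (u' k) (C' k) (α k)) →
  (∀ k, (t m - s k • (1 : M4)) * P (k + r) =
    κ k • (((t m) ^ 2 + u k • t m + C k • (1 : M4)) * P k)) →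
  IsTri n e r (fun k => P k *ᵥ e0)
    (fun k => (t m * (t m - s' k • (1 : M4)) * (t m - s k • (1 : M4))⁻¹ * P k) *ᵥ e0)

/-- **MapN** (120 lines). From the image to the coordinates.
PROOF. `M = mono (cc y) = mono (cc y')`, `det M = cc y 2 ≠ 0`. `v k = P k e0`: `Pol n y v`. `w k = G (k + sh) e0` is the image
of `v`. `v' k = M^(k / n) vert y' (k % n)` (integer powers) satisfies `Pol n y' v'`. Projective equivalence with
`g = (G sh)⁻¹`, which commutes with `M` (factor `c = 1`): for `k = j + n q`, `0 ≤ j < n`, `G (k + sh) = M^q G (j + sh)`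
(induction over `q`), so `g w k = M^q (G (j + sh) (G sh)⁻¹) e0 = M^q c_j vert y' j = c_j v' k` (`G (j + sh)` and `(G sh)⁻¹`
commute: both commute with `M`, `PN.aFam`). -/
def S_MapN : Prop := ∀ (n : ℕ) [NeZero n] (a b e : ℕ) (r sh : ℤ),
  (∀ v w : ℤ → V4, IsTri n e r v w → PN.IsImage a b v fun k => w (k + sh)) →
  ∀ (y y' : E n) (P G : ℤ → M4), cc n y 2 ≠ 0 → cc n y' = cc n y →
  (∀ k, P k * mono (cc n y) = mono (cc n y) * P k) →
  (∀ k, G k * mono (cc n y) = mono (cc n y) * G k) → (∀ k, (G k).det ≠ 0) →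
  (∀ k, P (k + n) = mono (cc n y) * P k) → (∀ k, G (k + n) = mono (cc n y) * G k) →
  (∀ j : Fin n, P ((j : ℕ) : ℤ) *ᵥ e0 = vert n y j) →
  IsTri n e r (fun k => P k *ᵥ e0) (fun k => G k *ᵥ e0) →
  (∀ j : Fin n, ∃ c : ℝ, c ≠ 0 ∧
    (G (((j : ℕ) : ℤ) + sh) * (G sh)⁻¹) *ᵥ e0 = c • vert n y' j) →
  Maps n a b y y'

/-- **Per** (120 lines). Periodicity of the data.
PROOF. `M = Mo n y`, `det M = cc n y 2 ≠ 0` (explicit). (1) `pol`: `(k + n) / n = k / n + 1`, `rs n (k + n) = rs n k`,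
`M ^ (q + 1) = M * M ^ q` for integers `q` (`Matrix.zpow_add`, `zpow_one_add`). (2) by (1) and induction over `r` (both
directions): `pol (k + n j) = M ^ j pol k`. (3) `Bm (m + n) = M ^ r * Bm m`, because `M ^ r` commutes with `t ^ j`
(columns: `t^j M^r u_m = M^r t^j u_m`), so `bv (m + n) = (Bm m)⁻¹ M^(-r) M^r us (m + 1) = bv m` (`Matrix.mul_inv_rev`).
(4) `dat0` is defined by `bv`; `fwd`, `bwd` of a periodic family are periodic; induction over `τ`. (5) `mk y v e0 = v`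
(`M^j e0` is the standard basis vector `j` for `j < 4`), `mk y v` commutes with `M`, and a matrix which commutes
with `M` and kills `e0` is zero (`PN.aFam`; `Mo n y = PN.mono ![y (0,0), y (0,1), y (0,2), 0, 0, 0]`). -/
def S_Per : Prop := ∀ (n : ℕ) [NeZero n] (e : ℕ) (r : ℤ) (y : E n), cc n y 2 ≠ 0 →
  (Mo n y).det ≠ 0 ∧ (∀ k, pol n y (k + n) = Mo n y *ᵥ pol n y k) ∧
  (∀ j : Fin n, pol n y ((j : ℕ) : ℤ) = vert n y j) ∧
  (∀ m, us n r y (m + n) = (Mo n y ^ r) *ᵥ us n r y m) ∧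
  (∀ m, (Bm n e r y (m + n)).det ≠ 0 ↔ (Bm n e r y m).det ≠ 0) ∧
  (∀ m, bv n e r y (m + n) = bv n e r y m) ∧
  (∀ τ m, dat n e r y τ (m + n) = dat n e r y τ m) ∧
  (∀ v, mk n y v *ᵥ e0 = v ∧ mk n y v * Mo n y = Mo n y * mk n y v) ∧
  ∀ g h : M4, g * Mo n y = Mo n y * g → h * Mo n y = Mo n y * h → g * h = h * g ∧
    mk n y (g *ᵥ e0) = g

/-- **GeoY** (200 lines). Allowed: `S_Per`, `S_GeoN`, `S_MapN`. The map `ff` is `T_{I,I}`.
PROOF. `m₀ = ![y (0,0), y (0,1), y (0,2), 0, 0, 0]`, `t = PN.Mz e`, `κt = 1`, `PN.mono m₀ = Mo n y = M`, `t m₀ = tm n e y`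
(`PN.aFam`: `MFam`). `P k = mk y (pol k)`: commutes with `M`, `P k e0 = pol k`, `P (k + n) = M P k`. `Bm m = P (r m) * Kt`,
`Kt = PN.Kt t m₀` (columns), so `det Kt ≠ 0` (`m₀ ∈ DD t`) and `det P (r m) ≠ 0`; every `k` is `r (r' k) + n j`, so `det P k ≠ 0`.
At `m = 0`: `pc n e r y = PN.pc t m₀`. `us (m+1) = Bm m bv m = ∑ b_j t^j us m`, so `P (r (m + 1)) = ∑ b_j t^j P (r m)`. By
the definition of `s0`, `kap`, `dat0` and `t⁴ = -∑ p_j t^j`: `(t - s) ∑ b_j t^j = κ (t² + u t + C)` (coefficient of `t³`: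
`b_2 - s b_3 - p_3 b_3 = 0`), so `(t - s_m) P (r (m+1)) = κ_m Q_m(t) P (r m)`. Put `s k = dat 0 (r' k) 0`,
`u k = dat 0 (r' k) 1`, `C k = dat 0 (r' k) 2`, `s' k, u' k, C' k` the same for `dat 1`, `κ k = kap (r' k)`, `α k = 1/η`. As
`r r' = 1 + n c` and all data are periodic (`S_Per`), `s (k + r) = dat 0 (r' k + 1) 0`, and the relation between
`P (k + r)` and `P k` holds. `PN.Rel` is `Rel` divided by `η`. `det (t - s) = pv p s` (`PN.aDt`). `qv (u k) (C k) (s k) ≠ 0`: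
`X = ∑ b_j t^j = κ Q(t) (t - s)⁻¹`, and if `Q(s) = 0` then `Q(t) = (t - s)(t + s + u)`, `X = κ (t + s + u)`, `b_3 = 0`.
`qv (u' k) (C' k) (s' k) ≠ 0`: `η Q(s') Z(s') = η p(s') ≠ 0`. `S_GeoN`: `w k = t G_(r' k) P k e0`. `S_MapN` with
`G k = t * Gm (r' k) * P k`, `sh = i`, `y' = ff y`: `(G (j + i) (G i)⁻¹) e0 = imn j` (everything commutes, `mk (pol i) = P i`;
for `j = 0` it is `e0`), `c_j = imn j 0` for `j ≠ 0` and `1` for `j = 0`. `cc n (ff y) = cc n y`. -/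
def S_GeoY : Prop := ∀ (n : ℕ) [NeZero n] (a b e : ℕ) (r r' c i : ℤ), r * r' = 1 + n * c →
  (∀ v w : ℤ → V4, IsTri n e r v w → PN.IsImage a b v fun k => w (k + i)) →
  ∀ y : E n, cc n y 2 ≠ 0 → (∀ m, (Bm n e r y m).det ≠ 0) → (∀ m, bv n e r y m 3 ≠ 0) →
  (∀ m, kap n e r y m ≠ 0) →
  (∀ m, ∃ η : ℝ, η ≠ 0 ∧
    Rel (pc n e r y) (dat n e r y 0 (m + 1) 0) (dat n e r y 0 m) (dat n e r y 1 m) η) →
  (∀ m, pv (pc n e r y) (dat n e r y 0 m 0) ≠ 0) →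
  (∀ m, pv (pc n e r y) (dat n e r y 1 m 0) ≠ 0) →
  (Gm n e r y (r' * i) * mk n y (pol n y i)).det ≠ 0 →
  (∀ k : Fin n, imn n e r r' i y ((k : ℕ) : ℤ) 0 ≠ 0) → Maps n a b y (ff n e r r' i y)

/-! ## Part G: `n = 2` -/

/-- **Re** (150 lines). Renaming of the coordinates.
PROOF. `L : (κ → ℝ) → (ι → ℝ)`, `L y = y ∘ φ.symm` is a continuous linear bijection (`LinearEquiv.funCongrLeft`), a
homeomorphism; `pd (G ∘ L) k y = pd G (φ k) (L y)` (`L (single k 1) = single (φ k) 1`). All fields: reindex the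
sums with `φ` (`Equiv.sum_comp`). For `jacobi`: a smooth function `G` on the new set is `G' ∘ L`,
`G' = G ∘ L⁻¹`, smooth on `U`, and `br π' F G y = br π F' G' (L y)`. `rank`: `Matrix.rank_submatrix`. -/
def S_Re : Prop := ∀ (ι κ : Type) [Fintype ι] [DecidableEq ι] [Fintype κ] [DecidableEq κ]
  (φ : κ ≃ ι) (p q : ℕ) (U : Set (ι → ℝ)) (f : (ι → ℝ) → ι → ℝ)
  (π : (ι → ℝ) → Matrix ι ι ℝ) (F : Fin (p + q) → (ι → ℝ) → ℝ), LI p q U f π F →
  LI p q {y : κ → ℝ | y ∘ φ.symm ∈ U} (fun y => f (y ∘ φ.symm) ∘ φ)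
    (fun y => (π (y ∘ φ.symm)).submatrix φ φ) fun i y => F i (y ∘ φ.symm)

/-- **Two** (100 lines). Allowed: `S_Re`. `n = 2`: import `PN/Final.lean`, `PN.liouville`.
PROOF. `PN.LI` is `LI` for `ι = Fin 6` (the definitions agree field by field). `φ : Ix 2 ≃ Fin 6`, `(j, i) ↦ 3 j + i`
(`finProdFinEquiv`). `S_Re`. `PN.Maps a b z z'` for `z = y ∘ φ.symm`, `z' = y' ∘ φ.symm` gives `Maps 2 a b y y'`:
`PN.mono z = mono (cc 2 y)` (entries), `vert 2 y 0 = e0`, `vert 2 y 1 = PN.x0 z`. -/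
def S_Two : Prop := ∀ a b : ℕ, 0 < a → 0 < b → Liouville 2 a b 4 1

end Pool.Agent.MP62a5ad.QN
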