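import Pool.Agent.Lib.MP_62a5ad_mp.QN.SpecB
import Pool.Agent.Lib.MP_62a5ad_mp.QN.SpecF

/-!
# MP_62a5ad_mp, project QN: definitions for the parts C, D, E

`Gd n e r r' i y`: the polygon with the coordinates `y` is generic.
-/

set_option autoImplicit false

namespace Pool.Agent.MP62a5ad.QN

open Matrix
open scoped ContDiff
open Pool.Agent.MP62a5ad.PN (V4 M4 e0)

/-- The cubic resolvent of `pv p`: for `p = pw w` its zeros are `w 0 w i + w j w k`. -/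
def rsv {K : Type} [Field K] (p : Fin 4 → K) (x : K) : K :=
  x ^ 3 - p 2 * x ^ 2 + (p 3 * p 1 - 4 * p 0) * x - (p 3 ^ 2 * p 0 - 4 * p 2 * p 0 + p 1 ^ 2)

section

variable (n : ℕ) [NeZero n] (e : ℕ) (r : ℤ)

/-- `C_m`. -/
noncomputable def cm (y : E n) (m : ℤ) : ℝ := dat n e r y 0 m 2

/-- `h^(r - n e) ∏_(j<n) (P / C_j - h^e)`. -/
noncomputable def Av (y : E n) (h : ℂ) : ℂ :=
  h ^ (r - n * e) * ∏ j ∈ Finset.range n, (((pc n e r y 0 / cm n e r y j : ℝ) : ℂ) - h ^ e)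

/-- The polygon with the coordinates `y` is generic. -/
structure Gd (r' i : ℤ) (y : E n) : Prop where
  c2 : cc n y 2 ≠ 0
  bm : ∀ m, (Bm n e r y m).det ≠ 0
  b3 : ∀ m, bv n e r y m 3 ≠ 0
  ka : ∀ m, kap n e r y m ≠ 0
  ok : Ok (pc n e r y) (dat n e r y) (leta (pc n e r y) (dat n e r y)) (-2) 2
  rv : ∀ m, rsv (pc n e r y) (cm n e r y m + pc n e r y 0 / cm n e r y m) ≠ 0
  cp : ∀ m, cm n e r y m ^ 2 ≠ pc n e r y 0
  im : ∀ k : Fin n, imn n e r r' i y ((k : ℕ) : ℤ) 0 ≠ 0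
  sf : ContDiffAt ℝ ∞ (ff n e r r' i) y
  sp : ContDiffAt ℝ ∞ (pc n e r) y
  sk : ∀ m, ContDiffAt ℝ ∞ (fun y => kap n e r y m) y
  sd : ∀ m, ContDiffAt ℝ ∞ (fun y => dat n e r y 0 m) y ∧
    ContDiffAt ℝ ∞ (fun y => dat n e r y (-1) m) y
  k1 : ∀ m m' : ℂ, cpl (cc n y) m = 0 → cpl (cc n y) m' = 0 → m ≠ m' → m ^ e ≠ m' ^ e
  k2 : ∀ m m' : ℂ, cpl (cc n y) m = 0 → cpl (cc n y) m' = 0 → (m * m') ^ 2 ≠ cc n y 2 →
    Av n e r y (m * m') ≠ Av n e r y (cc n y 2 / (m * m'))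

end

end Pool.Agent.MP62a5ad.QN
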