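import Pool.Agent.Lib.MP_62a5ad_mp.QN.SpecF

/-!
# MP_62a5ad_mp, QN: chain and product rules
-/

set_option autoImplicit false

namespace Pool.Agent.MP62a5ad.QN

open Matrix
open scoped ContDiff
open Pool.Agent.MP62a5ad.PN (V4 M4 e0)

namespace ChAux

variable {ι : Type} [Fintype ι] [DecidableEq ι]

theorem Jm_eq {g : (ι → ℝ) → ι → ℝ} {z : ι → ℝ} (hg : DifferentiableAt ℝ g z) (k j : ι) :
    Jm g z k j = fderiv ℝ g z (Pi.single j 1) k := by
  have h := (hasFDerivAt_pi'.1 hg.hasFDerivAt k).fderiv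
  rw [Jm, Matrix.of_apply, pd, h]
  rfl

theorem lin_sum {W : Type} [NormedAddCommGroup W] [NormedSpace ℝ W] (L : (ι → ℝ) →L[ℝ] W)
    (v : ι → ℝ) : L v = ∑ k, v k • L (Pi.single k 1) := by
  have h : v = ∑ k, v k • (Pi.single k (1 : ℝ) : ι → ℝ) := by
    funext i
    simp [Finset.sum_apply, Pi.single_apply]
  conv_lhs => rw [h]
  rw [map_sum]
  exact Finset.sum_congr rfl fun k _ => map_smul _ _ _

theorem chain {W : Type} [NormedAddCommGroup W] [NormedSpace ℝ W] {F : (ι → ℝ) → W}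
    {g : (ι → ℝ) → ι → ℝ} {z : ι → ℝ} (j : ι) (hF : DifferentiableAt ℝ F (g z))
    (hg : DifferentiableAt ℝ g z) :
    fderiv ℝ (F ∘ g) z (Pi.single j 1) =
      ∑ k, Jm g z k j • fderiv ℝ F (g z) (Pi.single k 1) := by
  rw [fderiv_comp z hF hg, ContinuousLinearMap.comp_apply, lin_sum]
  exact Finset.sum_congr rfl fun k _ => by rw [Jm_eq hg]

end ChAux

open ChAux in
theorem tCh : S_Ch := by
  intro ι _ _
  have h1 : ∀ (F : (ι → ℝ) → ℝ) (g : (ι → ℝ) → ι → ℝ) (z : ι → ℝ) (j : ι),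
      DifferentiableAt ℝ F (g z) → DifferentiableAt ℝ g z →
      pd (F ∘ g) j z = ∑ k, pd F k (g z) * Jm g z k j := by
    intro F g z j hF hg
    rw [pd, chain j hF hg]
    exact Finset.sum_congr rfl fun k _ => by rw [smul_eq_mul, mul_comm]; rfl
  refine ⟨h1, ?_, ?_, ?_, ?_, ?_⟩
  · intro f g z hf hg
    ext i j
    rw [Matrix.mul_apply]
    exact h1 (fun x => f x i) g z j (differentiableAt_pi.1 hf i) hg
  · intro F g z j hF hg
    rw [cpd, chain j hF hg]
    exact Finset.sum_congr rfl fun k _ => by rw [Complex.real_smul, mul_comm]; rfl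
  · intro F y j hF
    constructor
    · have h := ((Complex.reCLM.hasFDerivAt (x := F y)).comp y hF.hasFDerivAt).fderiv
      change fderiv ℝ (⇑Complex.reCLM ∘ F) y (Pi.single j 1) = _
      rw [h]
      rfl
    · have h := ((Complex.imCLM.hasFDerivAt (x := F y)).comp y hF.hasFDerivAt).fderiv
      change fderiv ℝ (⇑Complex.imCLM ∘ F) y (Pi.single j 1) = _
      rw [h]
      rfl
  · intro F y j hF
    have h := ((Complex.ofRealCLM.hasFDerivAt (x := F y)).comp y hF.hasFDerivAt).fderiv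
    change fderiv ℝ (⇑Complex.ofRealCLM ∘ F) y (Pi.single j 1) = _
    rw [h]
    rfl
  · intro F G y j hF hG
    have h := (hF.hasFDerivAt.mul hG.hasFDerivAt).fderiv
    change fderiv ℝ (F * G) y (Pi.single j 1) = _
    rw [h]
    change F y * fderiv ℝ G y (Pi.single j 1) + G y * fderiv ℝ F y (Pi.single j 1) = _
    rw [cpd, cpd]
    ring

end Pool.Agent.MP62a5ad.QN
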