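import Pool.Agent.Lib.MP_62a5ad_mp.PN.Defs

/-!
# MP_62a5ad_mp: Liouville integrability of `T_{I,I}` on the space `P_{3,n}`, definitions

A point of the real projective space of dimension 3 is given by a nonzero vector of `ℝ⁴`, a twisted
n-gon by vectors `v k`, `k ∈ ℤ`, and an invertible matrix `M` with `v (k + n) = M v k`. `I = (a, b)`.
The space `P_{3,n}` has dimension `3 n`. The map `T_{I,I}` (`PN.IsImage`) and projective equivalence
(`PN.PEq`) are defined in `PN/Defs.lean`.
-/

set_option autoImplicit false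

namespace Pool.Agent.MP62a5ad.QN

open Matrix
open scoped ContDiff
open Pool.Agent.MP62a5ad.PN (V4 M4 e0)

/-! ### Twisted n-gons and their coordinates -/

/-- The vectors `v k` represent a twisted n-gon with the monodromy `M`. -/
def Tw (n : ℕ) (M : M4) (v : ℤ → V4) : Prop := M.det ≠ 0 ∧ ∀ k, v (k + n) = M *ᵥ v k

/-- The indices of the coordinates. -/
abbrev Ix (n : ℕ) : Type := Fin n × Fin 3

/-- The space of the coordinates. -/
abbrev E (n : ℕ) : Type := Ix n → ℝ

/-- The matrix with the characteristic polynomial `x⁴ - x³ + c₀ x² - c₁ x + c₂`. -/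
def mono (c : Fin 3 → ℝ) : M4 := !![0, 0, 0, -c 2; 1, 0, 0, c 1; 0, 1, 0, -c 0; 0, 0, 1, 1]

section

variable (n : ℕ) [NeZero n]

/-- The coordinates which describe the monodromy. -/
def cc (y : E n) : Fin 3 → ℝ := fun i => y (0, i)

/-- The `j`-th vertex of the polygon with the coordinates `y`. -/
def vert (y : E n) (j : Fin n) : V4 := if j = 0 then e0 else ![1, y (j, 0), y (j, 1), y (j, 2)]

/-- `v` is the polygon with the coordinates `y`. -/
def Pol (y : E n) (v : ℤ → V4) : Prop :=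
  Tw n (mono (cc n y)) v ∧ ∀ j : Fin n, v ((j : ℕ) : ℤ) = vert n y j

/-- `T_{I,I}`, `I = (a, b)`, is defined at the class with the coordinates `y` and maps it to the class
with the coordinates `y'`. -/
def Maps (a b : ℕ) (y y' : E n) : Prop :=
  ∃ v w v' : ℤ → V4, Pol n y v ∧ Pol n y' v' ∧ PN.IsImage a b v w ∧
    PN.PEq (mono (cc n y)) w (mono (cc n y')) v'

/-- The data `(v_0, …, v_(n-1), M)` of a twisted n-gon. -/
abbrev Pt (n : ℕ) : Type := (Fin n → V4) × (Fin 4 → Fin 4 → ℝ)

/-- `v` is the polygon with the data `x`. -/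
def PolAt (x : Pt n) (v : ℤ → V4) : Prop :=
  Tw n (Matrix.of x.2) v ∧ ∀ j : Fin n, v ((j : ℕ) : ℤ) = x.1 j

/-- The data of the polygon with the coordinates `y`. -/
def nf (y : E n) : Pt n := (vert n y, fun i j => mono (cc n y) i j)

/-- The map `κ` is a coordinate system on a dense open subset of `P_{3,n}`: it is smooth on a dense
open set `O` of twisted n-gons; the polygon with the data `x ∈ O` is projectively equivalent to the
polygon with the coordinates `κ x`; projectively equivalent polygons in `O` have the same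
coordinates; the polygons with the coordinates `y`, `det (mono (cc n y)) ≠ 0`, are in `O` and have the
coordinates `y`. -/
def IsChart (O : Set (Pt n)) (κ : Pt n → E n) : Prop :=
  IsOpen O ∧ Dense O ∧ ContDiffOn ℝ ∞ κ O ∧
  (∀ x ∈ O, ∀ v, PolAt n x v →
    ∃ v', Pol n (κ x) v' ∧ PN.PEq (Matrix.of x.2) v (mono (cc n (κ x))) v') ∧
  (∀ x ∈ O, ∀ x' ∈ O, ∀ v v', PolAt n x v → PolAt n x' v' →
    PN.PEq (Matrix.of x.2) v (Matrix.of x'.2) v' → κ x = κ x') ∧
  ∀ y : E n, cc n y 2 ≠ 0 → nf n y ∈ O ∧ κ (nf n y) = y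

end

/-! ### Poisson structures and Liouville integrability on open subsets of `ℝ^ι` -/

section

variable {ι : Type} [Fintype ι] [DecidableEq ι]

/-- The partial derivative. -/
noncomputable def pd (F : (ι → ℝ) → ℝ) (i : ι) (y : ι → ℝ) : ℝ := fderiv ℝ F y (Pi.single i 1)

/-- The Jacobi matrix. -/
noncomputable def Jm (f : (ι → ℝ) → ι → ℝ) (y : ι → ℝ) : Matrix ι ι ℝ :=
  Matrix.of fun i j => pd (fun x => f x i) j y

/-- The bracket of two functions. -/
noncomputable def br (π : (ι → ℝ) → Matrix ι ι ℝ) (F G : (ι → ℝ) → ℝ) (y : ι → ℝ) : ℝ :=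
  ∑ i, ∑ j, π y i j * (pd F i y * pd G j y)

/-- `π` is a Poisson structure on `U`: `br π` is a Poisson bracket for smooth functions. -/
structure IsPoisson (U : Set (ι → ℝ)) (π : (ι → ℝ) → Matrix ι ι ℝ) : Prop where
  smooth : ∀ i j, ContDiffOn ℝ ∞ (fun y => π y i j) U
  skew : ∀ y ∈ U, ∀ i j, π y j i = -π y i j
  jacobi : ∀ F G H : (ι → ℝ) → ℝ, ContDiffOn ℝ ∞ F U → ContDiffOn ℝ ∞ G U → ContDiffOn ℝ ∞ H U →
    ∀ y ∈ U, br π F (br π G H) y + br π G (br π H F) y + br π H (br π F G) y = 0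

/-- The map `f`, defined on the dense open set `U`, is Liouville integrable with the Poisson structure
`π` of corank `p` and the functions `F i`: `π` has the rank `2 q`; it is invariant under `f`; the
`p + q` smooth functions `F i` are invariant under `f`, functionally independent, pairwise in
involution, and the first `p` of them are Casimirs. -/
structure LI (p q : ℕ) (U : Set (ι → ℝ)) (f : (ι → ℝ) → ι → ℝ) (π : (ι → ℝ) → Matrix ι ι ℝ)
    (F : Fin (p + q) → (ι → ℝ) → ℝ) : Prop where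
  isOpen : IsOpen U
  dense : Dense U
  smooth : ContDiffOn ℝ ∞ f U
  dense' : Dense {y | y ∈ U ∧ f y ∈ U}
  poisson : IsPoisson U π
  rank : ∀ y ∈ U, (π y).rank = 2 * q
  inv : ∀ y ∈ U, f y ∈ U → Jm f y * π y * (Jm f y)ᵀ = π (f y)
  smoothF : ∀ i, ContDiffOn ℝ ∞ (F i) U
  invF : ∀ i, ∀ y ∈ U, f y ∈ U → F i (f y) = F i y
  indep : ∀ y ∈ U, LinearIndependent ℝ fun i => fderiv ℝ (F i) y
  invol : ∀ i j, ∀ y ∈ U, br π (F i) (F j) y = 0
  casimir : ∀ i : Fin (p + q), (i : ℕ) < p → ∀ y ∈ U, ∀ k, ∑ j, π y k j * pd (F i) j y = 0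

end

/-- `T_{I,I}`, `I = (a, b)`, is Liouville integrable on `P_{3,n}`, with a Poisson structure of
corank `p` and rank `2 q`. -/
def Liouville (n : ℕ) [NeZero n] (a b p q : ℕ) : Prop :=
  p + 2 * q = 3 * n ∧ ∃ (U : Set (E n)) (f : E n → E n) (π : E n → Matrix (Ix n) (Ix n) ℝ)
    (F : Fin (p + q) → E n → ℝ), LI p q U f π F ∧ ∀ y ∈ U, Maps n a b y (f y)

end Pool.Agent.MP62a5ad.QN
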