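import Pool.Agent.Lib.MP_62a5ad_mp.QN.Base2

/-!
# MP_62a5ad_mp, project QN: definitions for part C (generic polygons)

The reference point is the polygon `ys n`: its vertices are multiples of the points `gl (k / n)` of a
twisted cubic, its monodromy has the single eigenvalue `1/4`.
-/

set_option autoImplicit false

namespace Pool.Agent.MP62a5ad.QN

open Matrix
open scoped ContDiff
open Pool.Agent.MP62a5ad.PN (V4 M4 e0)

section

variable {ι : Type}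

/-- The filter of the sets which contain a set `{Q ≠ 0}`, `Q` a polynomial with `Q(y0) ≠ 0`. -/
def ZN (y0 : ι → ℝ) : Filter (ι → ℝ) where
  sets := {S | ∃ Q : MvPolynomial ι ℝ, MvPolynomial.eval y0 Q ≠ 0 ∧
    ∀ y, MvPolynomial.eval y Q ≠ 0 → y ∈ S}
  univ_sets := ⟨1, by simp, fun _ _ => Set.mem_univ _⟩
  sets_of_superset := by
    rintro S T ⟨Q, h, h'⟩ hST
    exact ⟨Q, h, fun y hy => hST (h' y hy)⟩
  inter_sets := by
    rintro S T ⟨Q, h, h'⟩ ⟨R, k, k'⟩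
    refine ⟨Q * R, by rw [map_mul]; exact mul_ne_zero h k, fun y hy => ?_⟩
    rw [map_mul] at hy
    exact ⟨h' y (left_ne_zero_of_mul hy), k' y (right_ne_zero_of_mul hy)⟩

/-- The function `f` is a quotient `P / Q` of polynomials on a set `{Q ≠ 0}`, `Q(y0) ≠ 0`. -/
def RA (y0 : ι → ℝ) (f : (ι → ℝ) → ℝ) : Prop :=
  ∃ P Q : MvPolynomial ι ℝ, MvPolynomial.eval y0 Q ≠ 0 ∧
    ∀ y, MvPolynomial.eval y Q ≠ 0 → f y = MvPolynomial.eval y P / MvPolynomial.eval y Q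

/-- The components of `v` are rational at `y0`. -/
def RV (y0 : ι → ℝ) {κ : Type} (v : (ι → ℝ) → κ → ℝ) : Prop := ∀ i, RA y0 fun y => v y i

/-- The entries of `A` are rational at `y0`. -/
def RM (y0 : ι → ℝ) (A : (ι → ℝ) → M4) : Prop := ∀ i j, RA y0 fun y => A y i j

/-- The functions of `y` and two complex numbers which are polynomials in the two numbers with
coefficients rational at `y0`. -/
inductive RP (y0 : ι → ℝ) : ((ι → ℝ) → ℂ → ℂ → ℂ) → Prop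
  | coef (f : (ι → ℝ) → ℝ) : RA y0 f → RP y0 fun y _ _ => ((f y : ℝ) : ℂ)
  | fst : RP y0 fun _ m _ => m
  | snd : RP y0 fun _ _ m' => m'
  | add (F G : (ι → ℝ) → ℂ → ℂ → ℂ) : RP y0 F → RP y0 G → RP y0 fun y m m' => F y m m' + G y m m'
  | mul (F G : (ι → ℝ) → ℂ → ℂ → ℂ) : RP y0 F → RP y0 G → RP y0 fun y m m' => F y m m' * G y m m'

/-- The rules for `RA`. -/
structure RAt [Fintype ι] (y0 : ι → ℝ) : Prop where
  const : ∀ c : ℝ, RA y0 fun _ => c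
  coord : ∀ i, RA y0 fun y => y i
  add : ∀ f g, RA y0 f → RA y0 g → RA y0 fun y => f y + g y
  sub : ∀ f g, RA y0 f → RA y0 g → RA y0 fun y => f y - g y
  neg : ∀ f, RA y0 f → RA y0 fun y => -f y
  mul : ∀ f g, RA y0 f → RA y0 g → RA y0 fun y => f y * g y
  inv : ∀ f, RA y0 f → f y0 ≠ 0 → RA y0 fun y => (f y)⁻¹
  div : ∀ f g, RA y0 f → RA y0 g → g y0 ≠ 0 → RA y0 fun y => f y / g y
  pow : ∀ f (k : ℕ), RA y0 f → RA y0 fun y => f y ^ k
  sum : ∀ (κ : Type) (s : Finset κ) (f : κ → (ι → ℝ) → ℝ), (∀ k ∈ s, RA y0 (f k)) →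
    RA y0 fun y => ∑ k ∈ s, f k y
  prod : ∀ (κ : Type) (s : Finset κ) (f : κ → (ι → ℝ) → ℝ), (∀ k ∈ s, RA y0 (f k)) →
    RA y0 fun y => ∏ k ∈ s, f k y
  cong : ∀ f g, RA y0 f → (∀ᶠ y in ZN y0, g y = f y) → RA y0 g
  comp : ∀ (κ : Type) (F : (ι → ℝ) → κ → ℝ) (P : MvPolynomial κ ℝ), RV y0 F →
    RA y0 fun y => MvPolynomial.eval (F y) P
  nz : ∀ f, RA y0 f → f y0 ≠ 0 → ∀ᶠ y in ZN y0, f y ≠ 0
  sm : ∀ f, RA y0 f → ∀ᶠ y in ZN y0, ContDiffAt ℝ ∞ f y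

/-- The rules for `RM`. -/
structure RMt (y0 : ι → ℝ) : Prop where
  const : ∀ A : M4, RM y0 fun _ => A
  add : ∀ A B, RM y0 A → RM y0 B → RM y0 fun y => A y + B y
  sub : ∀ A B, RM y0 A → RM y0 B → RM y0 fun y => A y - B y
  smul : ∀ f A, RA y0 f → RM y0 A → RM y0 fun y => f y • A y
  mul : ∀ A B, RM y0 A → RM y0 B → RM y0 fun y => A y * B y
  vec : ∀ (A : (ι → ℝ) → M4) (v : (ι → ℝ) → V4), RM y0 A → RV y0 v → RV y0 fun y => A y *ᵥ v y
  det : ∀ A, RM y0 A → RA y0 fun y => (A y).det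
  pow : ∀ A (k : ℕ), RM y0 A → RM y0 fun y => A y ^ k
  inv : ∀ A, RM y0 A → (A y0).det ≠ 0 → RM y0 fun y => (A y)⁻¹
  zpow : ∀ A (k : ℤ), RM y0 A → (A y0).det ≠ 0 → RM y0 fun y => A y ^ k

end

/-! ### The twisted cubic -/

/-- The Lagrange basis of the nodes `0, 1, 2, 3`. -/
noncomputable def lb (x : ℝ) : V4 :=
  ![-((x - 1) * (x - 2) * (x - 3)) / 6, x * (x - 2) * (x - 3) / 2, -(x * (x - 1) * (x - 3)) / 2,
    x * (x - 1) * (x - 2) / 6]

/-- The twisted cubic; `M gl x = (1/4) gl (x + 1)`. -/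
noncomputable def gl (x : ℝ) : V4 := fun i => 4 ^ (i : ℕ) * lb x i

/-- The coordinates of the monodromy of `ys`. -/
noncomputable def cs : Fin 3 → ℝ := ![3 / 8, 1 / 16, 1 / 256]

/-- The reference polygon. -/
noncomputable def ys (n : ℕ) [NeZero n] : E n := fun a =>
  if a.1 = 0 then cs a.2 else gl ((a.1 : ℕ) / n) a.2.succ / gl ((a.1 : ℕ) / n) 0

/-- The data `(s, u, C)` of `ys`. -/
noncomputable def zx (g ν : ℝ) : Fin 3 → ℝ :=
  ![g * (ν + 1) / (ν - 2), g * (-2 + 4 / ν), g ^ 2 * ((ν - 1) * (ν - 2)) / (ν * (ν + 1))]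

/-- The coefficients of `(x - g)⁴`. -/
def px (g : ℝ) : Fin 4 → ℝ := ![g ^ 4, -(4 * g ^ 3), 6 * g ^ 2, -(4 * g)]

/-- `x^(k-1) + x^(k-2) x' + … + x'^(k-1)`. -/
def dz {K : Type} [Field K] (k : ℕ) (x x' : K) : K :=
  ∑ i ∈ Finset.range k, x ^ i * x' ^ (k - 1 - i)

/-- `∏_(j<n) (C_j - x^e)`. -/
def qd {K : Type} [Field K] (n e : ℕ) (C : ℕ → K) (x : K) : K :=
  ∏ j ∈ Finset.range n, (C j - x ^ e)

/-- The quotient `(qd x - qd x') / (x - x')`. -/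
def Dq {K : Type} [Field K] (n e : ℕ) (C : ℕ → K) (x x' : K) : K :=
  -∑ j ∈ Finset.range n, (∏ i ∈ Finset.range j, (C i - x' ^ e)) * dz e x x' *
    ∏ i ∈ Finset.Ico (j + 1) n, (C i - x ^ e)

/-- The quotient `(x^k qd x - x'^k qd x') / (x - x')`, up to a power of `x x'`. -/
def Sk {K : Type} [Field K] (n e : ℕ) (C : ℕ → K) (k : ℤ) (x x' : K) : K :=
  if 0 ≤ k then dz k.toNat x x' * qd n e C x + x' ^ k.toNat * Dq n e C x x'
  else -dz (-k).toNat x x' * qd n e C x + x ^ (-k).toNat * Dq n e C x x'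

end Pool.Agent.MP62a5ad.QN
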