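import Pool.Agent.Lib.MP_62a5ad_mp.QN.Base

/-!
# MP_62a5ad_mp, QN: working definitions of the frame
-/

set_option autoImplicit false

namespace Pool.Agent.MP62a5ad.QN

open Matrix
open scoped ContDiff
open Pool.Agent.MP62a5ad.PN (V4 M4 e0)

/-! ### Complex functions of real variables, block matrices -/

section

variable {ι : Type} [Fintype ι] [DecidableEq ι]

/-- The partial derivative of a complex function of real variables. -/
noncomputable def cpd (g : (ι → ℝ) → ℂ) (j : ι) (y : ι → ℝ) : ℂ := fderiv ℝ g y (Pi.single j 1)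

/-- The Jacobi matrix of a complex map of real variables. -/
noncomputable def cJ (Θ : (ι → ℝ) → ι → ℂ) (y : ι → ℝ) : Matrix ι ι ℂ :=
  Matrix.of fun i j => cpd (fun x => Θ x i) j y

/-- The matrix of the gradients of real functions. -/
noncomputable def gZ {κ : Type} (Z : κ → (ι → ℝ) → ℝ) (y : ι → ℝ) : Matrix κ ι ℝ :=
  Matrix.of fun i j => pd (Z i) j y

/-- The block matrix `[[Ω, -Dᵀ], [D, 0]]`. -/
def blk {K : Type} [Field K] {μ : Type} (Ω : Matrix ι ι K) (D : Matrix μ ι K) :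
    Matrix (ι ⊕ μ) (ι ⊕ μ) K := Matrix.fromBlocks Ω (-Dᵀ) D 0

/-- The upper left block of the inverse of `blk Ω D`. -/
noncomputable def bpi {K : Type} [Field K] {μ : Type} [Fintype μ] [DecidableEq μ]
    (Ω : Matrix ι ι K) (D : Matrix μ ι K) : Matrix ι ι K := ((blk Ω D)⁻¹).toBlocks₁₁

/-- The first `p` of a family. -/
def fst {α : Type} (p q : ℕ) (H : Fin (p + q) → α) : Fin p → α := fun i => H (Fin.castAdd q i)

/-- A real matrix as a complex matrix. -/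
def rc {κ μ : Type} (A : Matrix κ μ ℝ) : Matrix κ μ ℂ := A.map Complex.ofReal

/-- The complex 2-form `Jᵀ Θ J`. -/
noncomputable def om (T0 : Matrix ι ι ℝ) (J : (ι → ℝ) → Matrix ι ι ℂ) (y : ι → ℝ) :
    Matrix ι ι ℂ := (J y)ᵀ * rc T0 * J y

/-- The real 2-form `Re ((1 + i τ) Jᵀ Θ J)`. -/
noncomputable def omt (T0 : Matrix ι ι ℝ) (J : (ι → ℝ) → Matrix ι ι ℂ) (τ : ℝ) (y : ι → ℝ) :
    Matrix ι ι ℝ := Matrix.of fun i j => (om T0 J y i j).re - τ * (om T0 J y i j).im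

/-- The hypotheses of the abstract integrability theorem on the open set `U`: the rows of `J` are closed
complex 1-forms, a basis at every point; `P0`, `T0` are constant skew matrices, inverse to each other on
the leaves; the differentials of the real functions `F i` are combinations of the rows of `J`, in
involution, the first `p` are Casimirs; the map `f` preserves everything. -/
structure Sys (p q : ℕ) (U : Set (ι → ℝ)) (f : (ι → ℝ) → ι → ℝ) (J : (ι → ℝ) → Matrix ι ι ℂ)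
    (P0 T0 : Matrix ι ι ℝ) (F : Fin (p + q) → (ι → ℝ) → ℝ)
    (a : (ι → ℝ) → Matrix (Fin (p + q)) ι ℂ) : Prop where
  card : Fintype.card ι = p + 2 * q
  isOpen : IsOpen U
  dense : Dense U
  smf : ContDiffOn ℝ ∞ f U
  detf : ∀ y ∈ U, (Jm f y).det ≠ 0
  smJ : ∀ i j, ContDiffOn ℝ ∞ (fun y => J y i j) U
  clo : ∀ y ∈ U, ∀ k i j, cpd (fun x => J x k i) j y = cpd (fun x => J x k j) i y
  detJ : ∀ y ∈ U, (J y).det ≠ 0
  skP : P0ᵀ = -P0
  skT : T0ᵀ = -T0
  ptp : P0 * T0 * P0 = P0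
  rank : P0.rank = 2 * q
  smF : ∀ i, ContDiffOn ℝ ∞ (F i) U
  dF : ∀ y ∈ U, rc (gZ F y) = a y * J y
  ind : ∀ y ∈ U, LinearIndependent ℂ (fun i => a y i)
  cas : ∀ y ∈ U, Matrix.of (fst p q (a y)) * rc P0 = 0
  inv : ∀ y ∈ U, a y * rc P0 * (a y)ᵀ = 0
  invF : ∀ y ∈ U, f y ∈ U → ∀ i, F i (f y) = F i y
  sym : ∀ y ∈ U, f y ∈ U → ∃ K : Matrix ι ι ℂ, K * rc P0 * Kᵀ = rc P0 ∧
    J (f y) * rc (Jm f y) = K * J y

end

/-! ### The characteristic polynomial -/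

/-- The characteristic polynomial of `mono c`. -/
def cpl (c : Fin 3 → ℝ) (m : ℂ) : ℂ := m ^ 4 - m ^ 3 + c 0 * m ^ 2 - c 1 * m + c 2

/-- Its derivative. -/
def dcp (c : Fin 3 → ℝ) (m : ℂ) : ℂ := 4 * m ^ 3 - 3 * m ^ 2 + 2 * c 0 * m - c 1

/-- `mono c` as a complex matrix. -/
def cmono (c : Fin 3 → ℝ) : Matrix (Fin 4) (Fin 4) ℂ := (mono c).map Complex.ofReal

/-! ### The map in terms of the offsets `0, n e, r` -/

/-- The planes with the offsets `0, n e, r`. -/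
def Tri (n e : ℕ) (r : ℤ) (v : ℤ → V4) (k : ℤ) : Submodule ℝ V4 :=
  Submodule.span ℝ {v k, v (k + n * e), v (k + r)}

/-- The image with respect to the offsets `0, n e, r`. -/
def IsTri (n e : ℕ) (r : ℤ) (v w : ℤ → V4) : Prop :=
  ∀ k, Module.finrank ℝ (Tri n e r v k) = 3 ∧ w k ≠ 0 ∧
    Tri n e r v k ⊓ Tri n e r v (k + n * e) ⊓ Tri n e r v (k + r) = Submodule.span ℝ {w k}

/-! ### The chart -/

section

variable (n : ℕ) [NeZero n]

/-- The matrix with the columns `v_0, M v_0, M² v_0, M³ v_0`. -/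
def kry (x : Pt n) : M4 := Matrix.of fun i j => ((Matrix.of x.2 : M4) ^ (j : ℕ) *ᵥ x.1 0) i

/-- `M⁴ v_0 = ∑ (ac x)_i M^i v_0`. -/
noncomputable def ac (x : Pt n) : V4 := (kry n x)⁻¹ *ᵥ ((Matrix.of x.2 : M4) ^ 4 *ᵥ x.1 0)

/-- `v_j = ∑ (xc x j)_i M^i v_0`. -/
noncomputable def xc (x : Pt n) (j : Fin n) : V4 := (kry n x)⁻¹ *ᵥ x.1 j

/-- The coordinates. -/
noncomputable def kch (x : Pt n) : E n := fun i =>
  if i.1 = 0 then ![-(ac n x 2) / (ac n x 3) ^ 2, ac n x 1 / (ac n x 3) ^ 3,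
    -(ac n x 0) / (ac n x 3) ^ 4] i.2
  else ![xc n x i.1 1 * ac n x 3 / xc n x i.1 0, xc n x i.1 2 * (ac n x 3) ^ 2 / xc n x i.1 0,
    xc n x i.1 3 * (ac n x 3) ^ 3 / xc n x i.1 0] i.2

/-- The domain of the chart. -/
def OO : Set (Pt n) :=
  {x | (kry n x).det ≠ 0 ∧ ac n x 3 ≠ 0 ∧ (∀ j, xc n x j 0 ≠ 0) ∧ (Matrix.of x.2 : M4).det ≠ 0}

end

end Pool.Agent.MP62a5ad.QN
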