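import Pool.Agent.Lib.MP_62a5ad_mp.QN.All

/-!
# MP_62a5ad_mp: Liouville integrability of `T_{I,I}` on `P_{3,n}`
-/

set_option autoImplicit false

namespace Pool.Agent.MP62a5ad.QN

/-- `T_{I,I}`, `I = (a, b)`, is Liouville integrable on `P_{3,n}` if `n = 2` or `n` divides one of `a`,
`b`, `a + b` and is coprime to the other two. -/
theorem final (n : ℕ) [NeZero n] (hn : 2 ≤ n) : ∀ a b : ℕ, 0 < a → 0 < b →
    n = 2 ∨ (n ∣ a ∧ Nat.Coprime n b) ∨ (n ∣ b ∧ Nat.Coprime n a) ∨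
      (n ∣ a + b ∧ Nat.Coprime n a) → Liouville n a b (n + 2) (n - 1) := by
  intro a b ha hb h
  rcases h with h | h
  · subst h
    exact aTwo a b ha hb
  · exact aQN n a b hn ha hb h

end Pool.Agent.MP62a5ad.QN
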