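import Pool.Agent.Lib.MP_62a5ad_mp.QN.SpecB

/-!
# MP_62a5ad_mp, project QN: the gradients of the integrals
-/

set_option autoImplicit false

namespace Pool.Agent.MP62a5ad.QN

open Matrix
open scoped ContDiff

section

variable {n : ℕ}

private theorem Gd_prod (g : Fin n → E n → ℂ) (y : E n) (h : ∀ k, DifferentiableAt ℝ (g k) y) :
    DifferentiableAt ℝ (fun y => ∏ k, g k y) y ∧ ∀ v, fderiv ℝ (fun y => ∏ k, g k y) y v =
      ∑ k, (∏ j ∈ Finset.univ.erase k, g j y) * fderiv ℝ (g k) y v := by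
  have h1 : HasFDerivAt (fun y => ∏ k, g k y)
      (∑ k, (∏ j ∈ Finset.univ.erase k, g j y) • fderiv ℝ (g k) y) y :=
    HasFDerivAt.finsetProd fun k _ => (h k).hasFDerivAt
  refine ⟨h1.differentiableAt, fun v => ?_⟩
  rw [h1.fderiv, _root_.sum_apply]
  rfl

end

theorem sGd (h1 : S_Gr) : S_Gd := by
  intro n _ Θ y i h hρ
  by_cases h2 : i < n
  · have e1 : (fun y => fi (Θ y) i) = fun y => ∏ k : Fin n, ((i : ℂ) - Θ y (k, 2)) := by
      funext y
      unfold fi
      rw [if_pos h2]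
    have e2 := Gd_prod (fun (k : Fin n) (y : E n) => (i : ℂ) - Θ y (k, 2)) y
      fun k => (h (k, 2)).const_sub _
    rw [e1]
    refine ⟨e2.1, fun v => (e2.2 v).trans ?_⟩
    rw [Fintype.sum_prod_type]
    refine Finset.sum_congr rfl fun k _ => ?_
    rw [Fin.sum_univ_three]
    have f0 : fr (Θ y) i (k, 0) = 0 := by
      unfold fr
      rw [if_pos h2, if_neg (show (0 : Fin 3) ≠ 2 by decide)]
    have f1 : fr (Θ y) i (k, 1) = 0 := by
      unfold fr
      rw [if_pos h2, if_neg (show (1 : Fin 3) ≠ 2 by decide)]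
    have f2 : fr (Θ y) i (k, 2) = -∏ j ∈ Finset.univ.erase k, ((i : ℂ) - Θ y (j, 2)) := by
      unfold fr
      rw [if_pos h2, if_pos rfl]
    have l2 : lf (Θ y) (k, 2) = 1 := rfl
    rw [f0, f1, f2, l2, fderiv_const_sub]
    change _ * (-(fderiv ℝ (fun y => Θ y (k, 2)) y v)) = _
    ring
  by_cases h3 : i = n
  · have e1 : (fun y => fi (Θ y) i) = fun y => ∏ k : Fin n, Θ y (k, 1) := by
      funext y
      unfold fi
      rw [if_neg h2, if_pos h3]
    have e2 := Gd_prod (fun (k : Fin n) (y : E n) => Θ y (k, 1)) y fun k => h (k, 1)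
    rw [e1]
    refine ⟨e2.1, fun v => (e2.2 v).trans ?_⟩
    rw [Fintype.sum_prod_type]
    refine Finset.sum_congr rfl fun k _ => ?_
    rw [Fin.sum_univ_three]
    have f0 : fr (Θ y) i (k, 0) = 0 := by
      unfold fr
      rw [if_neg h2, if_pos h3, if_neg (show (0 : Fin 3) ≠ 1 by decide)]
    have f2 : fr (Θ y) i (k, 2) = 0 := by
      unfold fr
      rw [if_neg h2, if_pos h3, if_neg (show (2 : Fin 3) ≠ 1 by decide)]
    have f1 : fr (Θ y) i (k, 1) = ∏ j : Fin n, Θ y (j, 1) := by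
      unfold fr
      rw [if_neg h2, if_pos h3, if_pos rfl]
    have l1 : lf (Θ y) (k, 1) = (Θ y (k, 1))⁻¹ := rfl
    have hk := hρ k
    rw [f0, f1, f2, l1, ← Finset.mul_prod_erase Finset.univ (fun j => Θ y (j, 1))
      (Finset.mem_univ k)]
    field_simp
    ring
  by_cases h4 : i = n + 1
  · have e1 : (fun y => fi (Θ y) i) = fun y => ∑ k : Fin n, Θ y (k, 0) := by
      funext y
      unfold fi
      rw [if_neg h2, if_neg h3, if_pos h4]
    have e2 : HasFDerivAt (fun y => ∑ k : Fin n, Θ y (k, 0))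
        (∑ k : Fin n, fderiv ℝ (fun y => Θ y (k, 0)) y) y :=
      HasFDerivAt.fun_sum fun k _ => (h (k, 0)).hasFDerivAt
    rw [e1]
    refine ⟨e2.differentiableAt, fun v => ?_⟩
    rw [e2.fderiv, _root_.sum_apply, Fintype.sum_prod_type]
    refine Finset.sum_congr rfl fun k _ => ?_
    rw [Fin.sum_univ_three]
    have f0 : fr (Θ y) i (k, 0) = 1 := by
      unfold fr
      rw [if_neg h2, if_neg h3, if_pos h4, if_pos rfl]
    have f1 : fr (Θ y) i (k, 1) = 0 := by
      unfold fr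
      rw [if_neg h2, if_neg h3, if_pos h4, if_neg (show (1 : Fin 3) ≠ 0 by decide)]
    have f2 : fr (Θ y) i (k, 2) = 0 := by
      unfold fr
      rw [if_neg h2, if_neg h3, if_pos h4, if_neg (show (2 : Fin 3) ≠ 0 by decide)]
    have l0 : lf (Θ y) (k, 0) = 1 := rfl
    rw [f0, f1, f2, l0]
    ring
  · have e1 : (fun y => fi (Θ y) i) = fun y => Hx (Θ y) ((i - (n + 2) : ℕ) : ℂ) := by
      funext y
      unfold fi
      rw [if_neg h2, if_neg h3, if_neg h4]
    have e2 := h1 n Θ y ((i - (n + 2) : ℕ) : ℂ) h hρ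
    rw [e1]
    refine ⟨e2.1, fun v => (e2.2 v).trans ?_⟩
    refine Finset.sum_congr rfl fun l _ => ?_
    have f : fr (Θ y) i l = gr (Θ y) ((i - (n + 2) : ℕ) : ℂ) l := by
      unfold fr
      rw [if_neg h2, if_neg h3, if_neg h4]
    rw [f]

end Pool.Agent.MP62a5ad.QN
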