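import Pool.Agent.Lib.MP_62a5ad_mp.QN.SpecC

/-!
# MP_62a5ad_mp, project QN: Gl (the twisted cubic)
-/

set_option autoImplicit false

namespace Pool.Agent.MP62a5ad.QN

open Matrix
open Pool.Agent.MP62a5ad.PN (V4 M4 e0)

namespace GlAux

lemma detM : (mono cs).det ≠ 0 := by
  have h : (mono cs).det = 1 / 256 := by
    simp [mono, cs, Matrix.det_succ_row_zero, Fin.sum_univ_succ, Fin.succAbove]
    norm_num
  rw [h]
  norm_num

lemma gl0 : gl 0 = e0 := by
  funext i
  fin_cases i <;> simp [gl, lb, e0]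
  all_goals norm_num

lemma step (x : ℝ) : mono cs *ᵥ gl x = (1 / 4 : ℝ) • gl (x + 1) := by
  funext i
  fin_cases i <;> simp [gl, lb, mono, cs, Matrix.mulVec, dotProduct, Fin.sum_univ_four] <;> ring

lemma stepInv (x : ℝ) : (mono cs)⁻¹ *ᵥ gl x = (4 : ℝ) • gl (x - 1) := by
  have hu : IsUnit (mono cs).det := detM.isUnit
  have h := step (x - 1)
  rw [sub_add_cancel] at h
  have h2 : gl x = mono cs *ᵥ ((4 : ℝ) • gl (x - 1)) := by
    rw [Matrix.mulVec_smul, h, smul_smul]
    norm_num
  rw [h2, Matrix.mulVec_mulVec, Matrix.nonsing_inv_mul _ hu, Matrix.one_mulVec]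

lemma zp (q : ℤ) : ∀ x : ℝ, (mono cs ^ q) *ᵥ gl x = (1 / 4 : ℝ) ^ q • gl (x + q) := by
  have hu : IsUnit (mono cs).det := detM.isUnit
  induction q using Int.induction_on with
  | zero => intro x; simp
  | succ k ih =>
    intro x
    rw [Matrix.zpow_add_one hu, ← Matrix.mulVec_mulVec, step, Matrix.mulVec_smul, ih (x + 1),
      smul_smul, zpow_add_one₀ (by norm_num), mul_comm]
    congr 2
    push_cast
    ring
  | pred k ih =>
    intro x
    rw [Matrix.zpow_sub_one hu, ← Matrix.mulVec_mulVec, stepInv, Matrix.mulVec_smul, ih (x - 1),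
      smul_smul, zpow_sub_one₀ (by norm_num), mul_comm]
    congr 2
    · norm_num
    · push_cast
      ring

lemma interp (x z v : ℝ) :
    ∑ j : Fin 4, lb v j • gl (x + z * ((j : ℕ) : ℝ)) = gl (x + z * v) := by
  funext i
  rw [Finset.sum_apply, Fin.sum_univ_four]
  fin_cases i <;> simp [gl, lb] <;> ring

lemma detL (x z : ℝ) :
    (Matrix.of fun i j : Fin 4 => gl (x + z * ((j : ℕ) : ℝ)) i).det = 4096 * z ^ 6 := by
  rw [Matrix.det_succ_row_zero]
  simp [Fin.sum_univ_succ, Matrix.det_succ_row_zero, Fin.succAbove, gl, lb]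
  ring

end GlAux

theorem tGl : S_Gl := by
  refine ⟨GlAux.detM, GlAux.gl0, fun q x => GlAux.zp q x, GlAux.interp, GlAux.detL, ?_⟩
  intro x y
  have h : ∀ j : ℕ, (mono cs ^ j) *ᵥ gl y = (1 / 4 : ℝ) ^ j • gl (y + j) := by
    intro j
    have := GlAux.zp (j : ℤ) y
    simpa using this
  have hi := GlAux.interp y 1 x
  rw [one_mul, add_comm y x] at hi
  rw [← hi, Fin.sum_univ_four, Fin.sum_univ_four]
  simp only [Matrix.add_mulVec, Matrix.smul_mulVec, h, smul_smul, one_mul]
  congr 1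
  · congr 1
    · congr 1
      · congr 1
        simp [gl]
      · congr 1
        simp [gl]
        ring
    · congr 1
      simp [gl]
      ring
  · congr 1
    simp [gl]
    ring

end Pool.Agent.MP62a5ad.QN
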