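import Pool.Agent.Lib.MP_62a5ad_mp.QN.SpecE

/-!
# MP_62a5ad_mp, project QN: the chain is a system of local coordinates (`S_Jc`)
-/

set_option autoImplicit false

namespace Pool.Agent.MP62a5ad.QN

open Matrix
open scoped ContDiff
open Pool.Agent.MP62a5ad.PN (V4 M4 e0)

section

variable {n : ℕ} [NeZero n] {e : ℕ} {r : ℤ}

private theorem Jc_cc : ContDiff ℝ ∞ (cc n) :=
  contDiff_pi.mpr fun i => contDiff_apply ℝ ℝ ((0 : Fin n), i)

private theorem Jc_lo {y : E n} (h : cc n y 2 ≠ 0) : ContDiffAt ℝ ∞ (lo n) y := by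
  have h1 : ContDiffAt ℝ ∞ (fun y : E n => cc n y 2) y := (contDiff_pi.mp Jc_cc 2).contDiffAt
  have h2 : ContDiffAt ℝ ∞ (fun y : E n => |cc n y 2|) y :=
    ContDiffAt.comp (g := fun x : ℝ => |x|) y (contDiffAt_abs h) h1
  exact h2.rpow_const_of_ne (abs_ne_zero.mpr h)

private theorem Jc_lopos {y : E n} (h : cc n y 2 ≠ 0) : 0 < lo n y :=
  Real.rpow_pos_of_pos (abs_pos.mpr h) _

omit [NeZero n] in
private theorem Jc_cast {f : E n → ℝ} {y : E n} (h : ContDiffAt ℝ ∞ f y) :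
    ContDiffAt ℝ ∞ (fun y => ((f y : ℝ) : ℂ)) y :=
  Complex.ofRealCLM.contDiff.contDiffAt.comp y h

private theorem Jc_Dn {y : E n} (h : cc n y 2 ≠ 0) (τ k : ℤ)
    (hd : ContDiffAt ℝ ∞ (fun y => dat n e r y τ k) y) (j : Fin 3) :
    ContDiffAt ℝ ∞ (fun y => Dn n e r y τ k j) y := by
  have hl : ContDiffAt ℝ ∞ (fun y => lo n y ^ e) y := (Jc_lo h).pow e
  have hj : ∀ j, ContDiffAt ℝ ∞ (fun y => dat n e r y τ k j) y := contDiffAt_pi.mp hd
  fin_cases j
  · exact hl.mul (hj 0)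
  · exact hl.mul (hj 1)
  · exact (hl.pow 2).mul (hj 2)

private theorem Jc_Hn {r' i : ℤ} {y : E n} (g : Gd n e r r' i y) (k : ℤ) :
    ContDiffAt ℝ ∞ (fun y => Hn n e r y (-1) k) y := by
  have hl : ContDiffAt ℝ ∞ (fun y => lo n y ^ e) y := (Jc_lo g.c2).pow e
  have hn : dat n e r y (-1) k 1 + dat n e r y 0 k 1 - pc n e r y 3 ≠ 0 := by
    intro h
    refine g.ok.eta (-1) k (by norm_num) (by norm_num) ?_
    show (dat n e r y (-1) k 1 + dat n e r y 0 k 1 - pc n e r y 3)⁻¹ = 0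
    rw [h, _root_.inv_zero]
  have h1 : ContDiffAt ℝ ∞ (fun y => dat n e r y (-1) k 1) y := contDiffAt_pi.mp (g.sd k).2 1
  have h0 : ContDiffAt ℝ ∞ (fun y => dat n e r y 0 k 1) y := contDiffAt_pi.mp (g.sd k).1 1
  have h3 : ContDiffAt ℝ ∞ (fun y => pc n e r y 3) y := contDiffAt_pi.mp g.sp 3
  exact (hl.inv (pow_ne_zero e (Jc_lopos g.c2).ne')).mul (((h1.add h0).sub h3).inv hn)

omit [NeZero n] in
private theorem Jc_zpow {f : E n → ℝ} {y : E n} (h : ContDiffAt ℝ ∞ f y) (h0 : f y ≠ 0) (k : ℤ) :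
    ContDiffAt ℝ ∞ (fun y => f y ^ k) y := by
  cases k with
  | ofNat k => simpa using h.pow k
  | negSucc k =>
    simp only [zpow_negSucc]
    exact (h.pow (k + 1)).inv (pow_ne_zero _ h0)

private theorem Jc_K {r' i : ℤ} {y : E n} (g : Gd n e r r' i y) :
    ContDiffAt ℝ ∞ (fun y => (lo n y ^ (e * n) * lo n y ^ (-r)) /
      ∏ k ∈ Finset.range n, kap n e r y k) y := by
  have hl := Jc_lo g.c2
  have hl0 := (Jc_lopos g.c2).ne'
  refine ((hl.pow (e * n)).mul (Jc_zpow hl hl0 (-r))).div ?_ ?_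
  · exact contDiffAt_prod fun k _ => g.sk k
  · exact Finset.prod_ne_zero_iff.mpr fun k _ => g.ka k

private theorem Jc_Dta (h1 : S_Dn) (r' i : ℤ) (m : Fin 4 → (Fin 3 → ℝ) → ℂ) (U : Set (E n))
    (hU : Rg n e r r' i m U) (O₁ : Set (E n)) (hO : IsOpen O₁) (hs : O₁ ⊆ U) (δ : ℝ)
    (hδ : ∀ y ∈ O₁, cc n y 2 / |cc n y 2| = δ) :
    Dta n e r O₁ (mn n m) (fun y a b c => (Dn n e r y a b c : ℂ))
      (fun y a b => (Hn n e r y a b : ℂ))
      (fun y => (((lo n y ^ (e * n) * lo n y ^ (-r)) /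
        ∏ k ∈ Finset.range n, kap n e r y k : ℝ) : ℂ)) (δ : ℂ) := by
  have key := fun y (hy : y ∈ O₁) => h1 n e r r' i y (fun j => m j (cc n y)) (hU.gd y (hs hy))
    (hU.rt y (hs hy)).1 (hU.rt y (hs hy)).2 (hU.c1 y (hs hy))
  refine ⟨hO, ?_, ?_, ?_, ?_, ?_, ?_, ?_, ?_, ?_, ?_, ?_, ?_, ?_, ?_, ?_, ?_⟩
  · intro j y hy
    have g := hU.gd y (hs hy)
    exact ((Jc_cast (Jc_lo g.c2)).mul
      ((hU.sm y (hs hy) j).comp y Jc_cc.contDiffAt)).contDiffWithinAt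
  · intro τ hτ k j y hy
    have g := hU.gd y (hs hy)
    refine (Jc_cast (Jc_Dn g.c2 τ k ?_ j)).contDiffWithinAt
    rcases hτ with rfl | rfl
    · exact (g.sd k).1
    · exact (g.sd k).2
  · intro k y hy
    exact (Jc_cast (Jc_Hn (hU.gd y (hs hy)) k)).contDiffWithinAt
  · intro y hy
    exact (Jc_cast (Jc_K (hU.gd y (hs hy)))).contDiffWithinAt
  · intro y hy j
    obtain ⟨_, k2, _⟩ := key y hy
    exact k2 j
  · intro y hy
    have g := hU.gd y (hs hy)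
    have hl0 := (Jc_lopos g.c2).ne'
    exact Complex.ofReal_ne_zero.mpr (div_ne_zero (mul_ne_zero (pow_ne_zero _ hl0)
      (zpow_ne_zero _ hl0)) (Finset.prod_ne_zero_iff.mpr fun k _ => g.ka k))
  · intro y hy
    obtain ⟨_, _, _, k4, _⟩ := key y hy
    exact k4
  · intro y hy
    obtain ⟨_, _, _, _, _, _, k7, _⟩ := key y hy
    exact ⟨k7.p0, fun τ m h h' => k7.rel τ m (by omega) (by omega),
      fun τ m h h' => k7.eta τ m (by omega) (by omega),
      fun τ m h h' => k7.ps τ m (by omega) (by omega),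
      fun τ m h h' => k7.nd τ m (by omega) (by omega)⟩
  · intro y hy k a ha
    obtain ⟨_, _, _, _, _, _, _, k8, _⟩ := key y hy
    exact k8 0 (by norm_num) (by norm_num) k a ha
  · intro y hy k
    obtain ⟨_, _, _, _, _, _, _, _, k9, _⟩ := key y hy
    have := k9 k
    rw [hδ y hy] at this
    exact this
  · intro y hy σ k
    obtain ⟨_, _, _, _, _, _, _, _, _, k10, _⟩ := key y hy
    funext j
    show ((Dn n e r y σ (k + n) j : ℝ) : ℂ) = ((Dn n e r y σ k j : ℝ) : ℂ)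
    rw [k10 σ k]
  · intro y hy σ k
    obtain ⟨_, _, _, _, _, _, _, _, _, _, k11, _⟩ := key y hy
    show ((Hn n e r y σ (k + n) : ℝ) : ℂ) = ((Hn n e r y σ k : ℝ) : ℂ)
    rw [k11 σ k]
  · intro y hy j
    obtain ⟨_, _, _, _, _, _, _, _, _, _, _, k12, _⟩ := key y hy
    exact k12 j
  · intro y hy
    obtain ⟨_, _, _, _, _, _, _, _, _, _, _, _, k13, _⟩ := key y hy
    rw [hδ y hy] at k13
    exact k13
  · intro y hy a ha
    obtain ⟨_, _, _, _, _, _, _, _, _, _, _, _, _, k14, _⟩ := key y hy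
    have := k14 a ha
    rw [hδ y hy] at this
    exact this
  · intro y hy a ha
    obtain ⟨_, _, _, _, _, _, _, _, _, _, _, _, _, _, k15⟩ := key y hy
    have := k15 a ha
    rw [hδ y hy] at this
    exact this

private theorem Jc_mono {O O' : Set (E n)} {m : E n → Fin 4 → ℂ} {D : E n → ℤ → ℤ → Fin 3 → ℂ}
    {H : E n → ℤ → ℤ → ℂ} {K' : E n → ℂ} {δ : ℂ} (h : Dta n e r O m D H K' δ)
    (hO : IsOpen O') (hs : O' ⊆ O) : Dta n e r O' m D H K' δ :=
  ⟨hO, fun i => (h.sm i).mono hs, fun τ hτ k j => (h.sD τ hτ k j).mono hs,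
    fun k => (h.sH k).mono hs, h.sK.mono hs, fun y hy => h.m0 y (hs hy),
    fun y hy => h.K0 y (hs hy), fun y hy => h.inj y (hs hy), fun y hy => h.ok y (hs hy),
    fun y hy => h.ch y (hs hy), fun y hy => h.c2 y (hs hy), fun y hy => h.pD y (hs hy),
    fun y hy => h.pH y (hs hy), fun y hy => h.rel y (hs hy), fun y hy => h.del y (hs hy),
    fun y hy => h.n1 y (hs hy), fun y hy => h.n2 y (hs hy)⟩

end

theorem sJc (h1 : S_Dn) (h2 : S_Ts) (h3 : S_Ha) (h4 : S_Jb) (h5 : S_Im) (h6 : S_Dd)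
    (h7 : S_Pw) : S_Jc := by
  intro n _ e r r' c i m U he hr hre hrr hU O hO hne
  obtain ⟨y0, hy0O, hy0U⟩ := hne
  have hc0 := (hU.gd y0 hy0U).c2
  -- the sign
  obtain ⟨δ, hδ0, hδ1⟩ : ∃ δ : ℝ, 0 < δ * cc n y0 2 ∧
      ∀ x : ℝ, 0 < δ * x → x / |x| = δ := by
    rcases lt_or_gt_of_ne hc0 with h | h
    · refine ⟨-1, by linarith, fun x hx => ?_⟩
      have hx' : x < 0 := by linarith
      rw [abs_of_neg hx', div_neg, div_self hx'.ne]
    · refine ⟨1, by linarith, fun x hx => ?_⟩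
      have hx' : 0 < x := by linarith
      rw [abs_of_pos hx', div_self hx'.ne']
  have hcc : ContDiff ℝ ∞ (cc n) := Jc_cc
  have hc2c : Continuous fun y : E n => cc n y 2 := (contDiff_pi.mp hcc 2).continuous
  set O₁ : Set (E n) := (O ∩ U) ∩ {y | 0 < δ * cc n y 2} with hO₁
  have hO₁o : IsOpen O₁ :=
    (hO.inter hU.isOpen).inter (isOpen_lt continuous_const (continuous_const.mul hc2c))
  have hO₁U : O₁ ⊆ U := fun y hy => hy.1.2
  have hD₁ := Jc_Dta h1 r' i m U hU O₁ hO₁o hO₁U δ (fun y hy => hδ1 _ hy.2)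
  obtain ⟨O', hO'1, hO'o, hO'n, hh1, hh2⟩ := h3 n e r O₁ _ _ _ _ _ he hr hre hD₁
    ⟨y0, ⟨hy0O, hy0U⟩, hδ0⟩
  have hD' := Jc_mono hD₁ hO'o hO'1
  obtain ⟨hm, hd⟩ := h4 n e r O' _ _ _ _ _ hD' hh1 hh2
  obtain ⟨y, hy⟩ := hO'n
  have hyU : y ∈ U := hO₁U (hO'1 hy)
  refine ⟨y, (hO'1 hy).1, ?_⟩
  intro hdet
  obtain ⟨w, hw0, hw⟩ := Matrix.exists_mulVec_eq_zero_iff.mpr hdet
  apply hw0
  obtain ⟨hTs, hT1⟩ := h2 n e r r' i y m (hU.gd y hyU) (hU.sm y hyU) (hU.rt y hyU).1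
    (hU.rt y hyU).2 (hU.c1 y hyU)
  -- the derivatives of the chain vanish
  have hdd : ∀ a, dd w (fun y => TH n e r m y a) y = 0 := by
    intro a
    have h := congrFun hw a
    simp only [Matrix.mulVec, dotProduct, Jf, Matrix.of_apply, Pi.zero_apply] at h
    have h' : lf (TH n e r m y) a * dd w (fun y => TH n e r m y a) y = 0 := by
      rw [← h]
      unfold dd
      rw [Finset.mul_sum]
      exact Finset.sum_congr rfl fun j _ => by ring
    rcases mul_eq_zero.mp h' with h'' | h''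
    · exfalso
      unfold lf at h''
      split_ifs at h'' with h3
      · have ha : a = (a.1, 1) := Prod.ext rfl h3
        rw [ha] at h''
        exact hT1 a.1 (inv_eq_zero.mp h'')
      · exact one_ne_zero h''
    · exact h''
  have hmd : ∀ j, dd w (fun y => mn n m y j) y = 0 := fun j => (hm j).2 y hy w hdd
  have hDd : ∀ k j, dd w (fun y => ((Dn n e r y 0 k j : ℝ) : ℂ)) y = 0 :=
    fun k j => (hd k j).2 y hy w hdd
  obtain ⟨hdd1, hddc, hddg, _, _⟩ := h6 (Ix n) w y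
  have g := hU.gd y hyU
  have hl0 : (lo n y : ℂ) ≠ 0 := Complex.ofReal_ne_zero.mpr (Jc_lopos g.c2).ne'
  have hto : ∀ f : E n → ℂ, ContDiffAt ℝ ∞ f y → DifferentiableAt ℝ f y := fun f hf =>
    hf.differentiableAt (by simp)
  have hmn : ∀ j, DifferentiableAt ℝ (fun y => mn n m y j) y := fun j =>
    hto _ ((Jc_cast (Jc_lo g.c2)).mul ((hU.sm y hyU j).comp y Jc_cc.contDiffAt))
  have hlod : DifferentiableAt ℝ (fun y => (lo n y : ℂ)) y := hto _ (Jc_cast (Jc_lo g.c2))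
  have hUn : ∀ᶠ x in nhds y, x ∈ U := hU.isOpen.mem_nhds hyU
  -- the derivative of `lo` vanishes
  have hlo : dd w (fun y => (lo n y : ℂ)) y = 0 := by
    have hc : (fun y => (lo n y : ℂ)) =ᶠ[nhds y]
        fun y => mn n m y 0 + mn n m y 1 + mn n m y 2 + mn n m y 3 := by
      filter_upwards [hUn] with x hx
      have hs := (h7.1 (fun j => m j (cc n x)) (cc n x) (hU.rt x hx).2).1
      unfold mn
      rw [← mul_add, ← mul_add, ← mul_add]
      rw [hs, mul_one]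
    rw [hddg _ _ hc,
      (hdd1 (fun y => mn n m y 0 + mn n m y 1 + mn n m y 2) (fun y => mn n m y 3)
        (((hmn 0).add (hmn 1)).add (hmn 2)) (hmn 3)).1,
      (hdd1 (fun y => mn n m y 0 + mn n m y 1) (fun y => mn n m y 2)
        ((hmn 0).add (hmn 1)) (hmn 2)).1,
      (hdd1 (fun y => mn n m y 0) (fun y => mn n m y 1) (hmn 0) (hmn 1)).1,
      hmd, hmd, hmd, hmd]
    norm_num
  have hquo : ∀ f g : E n → ℂ, DifferentiableAt ℝ f y → DifferentiableAt ℝ g y → g y ≠ 0 →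
      dd w f y = 0 → dd w g y = 0 → dd w (fun x => f x / g x) y = 0 := by
    intro f g hf hg hg0 h h'
    rw [(hdd1 f g hf hg).2.2.2.1 hg0, h, h']
    simp
  have hpow : ∀ N : ℕ, dd w (fun y => (lo n y : ℂ) ^ N) y = 0 := by
    intro N
    rw [(hdd1 _ _ hlod hlod).2.2.2.2.2 N, hlo, mul_zero]
  have hmc : ∀ j, dd w (fun y => m j (cc n y)) y = 0 := by
    intro j
    have hc : (fun y => m j (cc n y)) =ᶠ[nhds y] fun y => mn n m y j / (lo n y : ℂ) := by
      filter_upwards [hUn] with x hx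
      have hx0 : (lo n x : ℂ) ≠ 0 :=
        Complex.ofReal_ne_zero.mpr (Jc_lopos (hU.gd x hx).c2).ne'
      unfold mn
      rw [mul_div_cancel_left₀ _ hx0]
    rw [hddg _ _ hc]
    exact hquo _ _ (hmn j) hlod hl0 (hmd j) hlo
  have hDnd : ∀ k j, DifferentiableAt ℝ (fun y => ((Dn n e r y 0 k j : ℝ) : ℂ)) y := fun k j =>
    hto _ (Jc_cast (Jc_Dn g.c2 0 k (g.sd k).1 j))
  have hdat : ∀ k j, dd w (fun y => ((dat n e r y 0 k j : ℝ) : ℂ)) y = 0 := by
    intro k j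
    obtain ⟨N, hN⟩ : ∃ N : ℕ, ∀ x : E n, Dn n e r x 0 k j = lo n x ^ N * dat n e r x 0 k j := by
      fin_cases j
      · exact ⟨e, fun x => rfl⟩
      · exact ⟨e, fun x => rfl⟩
      · exact ⟨e * 2, fun x => by rw [pow_mul]; rfl⟩
    have hc : (fun y => ((dat n e r y 0 k j : ℝ) : ℂ)) =ᶠ[nhds y]
        fun y => ((Dn n e r y 0 k j : ℝ) : ℂ) / (lo n y : ℂ) ^ N := by
      filter_upwards [hUn] with x hx
      have hx0 : (lo n x : ℂ) ≠ 0 :=
        Complex.ofReal_ne_zero.mpr (Jc_lopos (hU.gd x hx).c2).ne'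
      rw [hN x, Complex.ofReal_mul, Complex.ofReal_pow,
        mul_div_cancel_left₀ _ (pow_ne_zero N hx0)]
    rw [hddg _ _ hc]
    exact hquo _ _ (hDnd k j) (hlod.pow N) (pow_ne_zero N hl0) (hDd k j) (hpow N)
  -- the immersion
  refine h5 n e r r' c hrr U (fun j y => m j (cc n y)) y w hU.isOpen hyU ?_ ?_ ?_ ?_ hmc hdat
  · intro j
    exact hto _ ((hU.sm y hyU j).comp y Jc_cc.contDiffAt)
  · intro k
    exact (g.sk k).differentiableAt (by simp)
  · intro k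
    exact (g.sd k).1.differentiableAt (by simp)
  · intro y' hy'
    have g' := hU.gd y' hy'
    exact ⟨g'.c2, g'.bm, g'.b3, g'.ka, fun k => g'.ok.ps 0 k (by norm_num) (by norm_num),
      (hU.rt y' hy').1, (hU.rt y' hy').2⟩

end Pool.Agent.MP62a5ad.QN
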