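import Pool.Agent.Lib.MP_62a5ad_mp.QN.SpecC

/-!
# MP_62a5ad_mp, project QN: the second condition (`S_K2`)
-/

set_option autoImplicit false

namespace Pool.Agent.MP62a5ad.QN

open Matrix
open scoped ContDiff
open Pool.Agent.MP62a5ad.PN (V4 M4 e0)

namespace K2Aux

/-- The rules for `RP`, packed. -/
private structure Ru {ι : Type} (y0 : ι → ℝ) : Prop where
  neg : ∀ F, RP y0 F → RP y0 fun y m m' => -F y m m'
  sub : ∀ F G, RP y0 F → RP y0 G → RP y0 fun y m m' => F y m m' - G y m m'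
  pow : ∀ F (k : ℕ), RP y0 F → RP y0 fun y m m' => F y m m' ^ k
  sum : ∀ (s : Finset ℕ) (F : ℕ → (ι → ℝ) → ℂ → ℂ → ℂ), (∀ k ∈ s, RP y0 (F k)) →
    RP y0 fun y m m' => ∑ k ∈ s, F k y m m'
  prod : ∀ (s : Finset ℕ) (F : ℕ → (ι → ℝ) → ℂ → ℂ → ℂ), (∀ k ∈ s, RP y0 (F k)) →
    RP y0 fun y m m' => ∏ k ∈ s, F k y m m'

private theorem ru {ι : Type} [Fintype ι] (hRp : S_Rp) (y0 : ι → ℝ) : Ru y0 := by
  obtain ⟨h1, h2, h3, h4, h5⟩ := hRp ι y0
  exact ⟨h1, h2, h3, fun s F h => h4 ℕ s F h, fun s F h => h5 ℕ s F h⟩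

section

variable {ι : Type} {y0 : ι → ℝ}

private theorem dzP (R : Ru y0) (k : ℕ) (X X' : (ι → ℝ) → ℂ → ℂ → ℂ) (hX : RP y0 X)
    (hX' : RP y0 X') : RP y0 fun y m m' => dz k (X y m m') (X' y m m') := by
  unfold dz
  refine R.sum (Finset.range k) (fun i y m m' => X y m m' ^ i * X' y m m' ^ (k - 1 - i)) ?_
  intro i _
  exact RP.mul _ _ (R.pow X i hX) (R.pow X' (k - 1 - i) hX')

private theorem facP (R : Ru y0) (s : Finset ℕ) (e : ℕ) (C : ℕ → (ι → ℝ) → ℝ)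
    (X : (ι → ℝ) → ℂ → ℂ → ℂ) (hC : ∀ j, RA y0 (C j)) (hX : RP y0 X) :
    RP y0 fun y m m' => ∏ j ∈ s, (((C j y : ℝ) : ℂ) - X y m m' ^ e) := by
  refine R.prod s (fun j y m m' => ((C j y : ℝ) : ℂ) - X y m m' ^ e) ?_
  intro j _
  exact R.sub (fun y _ _ => ((C j y : ℝ) : ℂ)) (fun y m m' => X y m m' ^ e)
    (RP.coef (C j) (hC j)) (R.pow X e hX)

private theorem qdP (R : Ru y0) (n e : ℕ) (C : ℕ → (ι → ℝ) → ℝ)
    (X : (ι → ℝ) → ℂ → ℂ → ℂ) (hC : ∀ j, RA y0 (C j)) (hX : RP y0 X) :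
    RP y0 fun y m m' => qd n e (fun j => ((C j y : ℝ) : ℂ)) (X y m m') := by
  unfold qd
  exact facP R (Finset.range n) e C X hC hX

private theorem DqP (R : Ru y0) (n e : ℕ) (C : ℕ → (ι → ℝ) → ℝ)
    (X X' : (ι → ℝ) → ℂ → ℂ → ℂ) (hC : ∀ j, RA y0 (C j)) (hX : RP y0 X) (hX' : RP y0 X') :
    RP y0 fun y m m' => Dq n e (fun j => ((C j y : ℝ) : ℂ)) (X y m m') (X' y m m') := by
  unfold Dq
  refine R.neg _ ?_
  refine R.sum (Finset.range n) (fun j y m m' =>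
    (∏ i ∈ Finset.range j, (((C i y : ℝ) : ℂ) - X' y m m' ^ e)) * dz e (X y m m') (X' y m m') *
      ∏ i ∈ Finset.Ico (j + 1) n, (((C i y : ℝ) : ℂ) - X y m m' ^ e)) ?_
  intro j _
  refine RP.mul _ _ (RP.mul _ _ ?_ ?_) ?_
  · exact facP R (Finset.range j) e C X' hC hX'
  · exact dzP R e X X' hX hX'
  · exact facP R (Finset.Ico (j + 1) n) e C X hC hX

private theorem SkP (R : Ru y0) (n e : ℕ) (C : ℕ → (ι → ℝ) → ℝ) (k : ℤ)
    (X X' : (ι → ℝ) → ℂ → ℂ → ℂ) (hC : ∀ j, RA y0 (C j)) (hX : RP y0 X) (hX' : RP y0 X') :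
    RP y0 fun y m m' => Sk n e (fun j => ((C j y : ℝ) : ℂ)) k (X y m m') (X' y m m') := by
  by_cases hk : 0 ≤ k
  · have h : (fun y m m' => Sk n e (fun j => ((C j y : ℝ) : ℂ)) k (X y m m') (X' y m m')) =
        fun y m m' => dz k.toNat (X y m m') (X' y m m') *
            qd n e (fun j => ((C j y : ℝ) : ℂ)) (X y m m') +
          X' y m m' ^ k.toNat * Dq n e (fun j => ((C j y : ℝ) : ℂ)) (X y m m') (X' y m m') := by
      funext y m m'
      unfold Sk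
      rw [if_pos hk]
    rw [h]
    exact RP.add _ _ (RP.mul _ _ (dzP R _ X X' hX hX') (qdP R n e C X hC hX))
      (RP.mul _ _ (R.pow X' _ hX') (DqP R n e C X X' hC hX hX'))
  · have h : (fun y m m' => Sk n e (fun j => ((C j y : ℝ) : ℂ)) k (X y m m') (X' y m m')) =
        fun y m m' => -dz (-k).toNat (X y m m') (X' y m m') *
            qd n e (fun j => ((C j y : ℝ) : ℂ)) (X y m m') +
          X y m m' ^ (-k).toNat * Dq n e (fun j => ((C j y : ℝ) : ℂ)) (X y m m') (X' y m m') := by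
      funext y m m'
      unfold Sk
      rw [if_neg hk]
    rw [h]
    exact RP.add _ _ (RP.mul _ _ (R.neg _ (dzP R _ X X' hX hX')) (qdP R n e C X hC hX))
      (RP.mul _ _ (R.pow X _ hX) (DqP R n e C X X' hC hX hX'))

end

/-- `h(m)`. -/
private def hh (c : Fin 3 → ℝ) (m : ℂ) : ℂ := -(m ^ 3 - m ^ 2 + c 0 * m - c 1)

private theorem hhmul (c : Fin 3 → ℝ) (m : ℂ) (h : cpl c m = 0) : hh c m * m = c 2 := by
  unfold cpl at h
  unfold hh
  linear_combination -h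

private theorem rootNe (c : Fin 3 → ℝ) (hc : c 2 ≠ 0) (m : ℂ) (h : cpl c m = 0) : m ≠ 0 := by
  intro hm
  have h1 := hhmul c m h
  rw [hm, mul_zero] at h1
  exact hc (by exact_mod_cast h1.symm)

private theorem csRoot (m : ℂ) (h : cpl cs m = 0) : m = 1 / 4 := by
  have h1 : (m - 1 / 4) ^ 4 = 0 := by
    rw [← h]
    simp only [cpl, cs, Matrix.cons_val]
    push_cast
    ring
  exact sub_eq_zero.mp (pow_eq_zero_iff (by norm_num) |>.mp h1)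

private theorem hhcs : hh cs (1 / 4) = 1 / 64 := by
  simp only [hh, cs, Matrix.cons_val]
  push_cast
  norm_num

/-- The value at the reference point is not zero. -/
private theorem val (hDz : S_Dz) (n e : ℕ) (r : ℤ) (hn : 1 ≤ n) (he : 0 < e) (ν : ℝ)
    (hν : ν = r / (n * e)) (h1 : ν ≠ -1) (h0 : ν ≠ 0) (h2 : ν ≠ 1) (h3 : ν ≠ 2) (h4 : ν ≠ 1 / 2)
    (g : ℝ) (hg : g = (1 / 4 : ℝ) ^ e) (C : ℕ → ℂ)
    (hC : ∀ j, C j = ((px g 0 / zx g ν 2 : ℝ) : ℂ)) :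
    Sk n e C (r - n * e) (1 / 16) (1 / 16) ≠ 0 := by
  intro hS
  have hg0 : g ≠ 0 := by rw [hg]; positivity
  have hD := (hDz ℂ n e C (r - n * e) (1 / 16) (1 / 16) (by norm_num) (by norm_num)).2
    _ hC hn he
  rw [hS, zero_mul] at hD
  have a1 : ν + 1 ≠ 0 := fun h => h1 (by linarith)
  have a2 : ν - 1 ≠ 0 := fun h => h2 (by linarith)
  have a3 : ν - 2 ≠ 0 := fun h => h3 (by linarith)
  have a4 : 2 * ν - 1 ≠ 0 := fun h => h4 (by linarith)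
  have hnr : (n : ℝ) ≠ 0 := by exact_mod_cast (by omega : n ≠ 0)
  have her : (e : ℝ) ≠ 0 := by exact_mod_cast (by omega : e ≠ 0)
  have hx : ((1 / 16 : ℂ)) ^ e = ((g ^ 2 : ℝ) : ℂ) := by
    rw [hg, ← pow_mul, mul_comm, pow_mul]
    push_cast
    norm_num
  have hc : px g 0 / zx g ν 2 = g ^ 2 * (ν * (ν + 1)) / ((ν - 1) * (ν - 2)) := by
    simp only [px, zx, Matrix.cons_val]
    field_simp
  have e1 : px g 0 / zx g ν 2 - g ^ 2 = g ^ 2 * (2 * (2 * ν - 1)) / ((ν - 1) * (ν - 2)) := by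
    rw [hc]
    field_simp
    ring
  have hr : (r : ℝ) = n * e * ν := by
    rw [hν]
    field_simp
  have e2 : ((r - n * e : ℤ) : ℝ) * (px g 0 / zx g ν 2 - g ^ 2) - n * e * g ^ 2 =
      3 * n * e * g ^ 2 * ν / (ν - 2) := by
    rw [e1]
    push_cast
    rw [hr]
    field_simp
    ring
  have hne1 : px g 0 / zx g ν 2 - g ^ 2 ≠ 0 := by
    rw [e1]
    exact div_ne_zero (mul_ne_zero (pow_ne_zero 2 hg0) (mul_ne_zero two_ne_zero a4))
      (mul_ne_zero a2 a3)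
  have hne2 : ((r - n * e : ℤ) : ℝ) * (px g 0 / zx g ν 2 - g ^ 2) - n * e * g ^ 2 ≠ 0 := by
    rw [e2]
    exact div_ne_zero (mul_ne_zero (mul_ne_zero (mul_ne_zero (mul_ne_zero three_ne_zero hnr) her)
      (pow_ne_zero 2 hg0)) h0) a3
  rw [hx] at hD
  have hD' : (0 : ℂ) = (1 / 16 : ℂ) ^ (r - n * e).natAbs *
      (((px g 0 / zx g ν 2 - g ^ 2 : ℝ) : ℂ)) ^ (n - 1) *
      (((((r - n * e : ℤ) : ℝ) * (px g 0 / zx g ν 2 - g ^ 2) - n * e * g ^ 2 : ℝ)) : ℂ) := by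
    rw [hD]
    push_cast
    ring
  refine absurd hD'.symm (mul_ne_zero (mul_ne_zero (pow_ne_zero _ (by norm_num))
    (pow_ne_zero _ ?_)) ?_)
  · exact_mod_cast hne1
  · exact Complex.ofReal_ne_zero.mpr hne2

end K2Aux

open K2Aux in
theorem tK2 (hRaA : S_RaA) (hRp : S_Rp) (hN2 : S_N2) (hYp : S_Yp) (hYb : S_Yb) (hYl : S_Yl)
    (hRb : S_Rb) (hRd : S_Rd) (hDz : S_Dz) : S_K2 := by
  intro n _ e r he ν hν h1 h0 h2 h3 h4
  have hn : 1 ≤ n := Nat.one_le_iff_ne_zero.mpr (NeZero.ne n)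
  have A := hRaA (Ix n) (ys n)
  have R := ru hRp (ys n)
  have hcs : cc n (ys n) = cs := (hYp n).1
  have hpc : pc n e r (ys n) = px ((1 / 4 : ℝ) ^ e) := (hYb n e r he).2.1
  have hpr : RV (ys n) (fun y => pc n e r y) := (hRb n e r he ν hν h1 h0 h2 h3).2.2.2.2.1
  obtain ⟨hd1, hd2⟩ := hRd n e r he ν hν h1 h0 h2 h3
  have hg0 : ((1 / 4 : ℝ) ^ e) ≠ 0 := by positivity
  have hzx : zx ((1 / 4 : ℝ) ^ e) ν 2 ≠ 0 := (hYl _ ν hg0 h1 h0 h2 h3).1
  have hcm : ∀ m : ℤ, cm n e r (ys n) m = zx ((1 / 4 : ℝ) ^ e) ν 2 := by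
    intro m
    unfold cm
    rw [hd1 0 m, if_pos (by decide)]
  have hc2 : cc n (ys n) 2 ≠ 0 := by
    rw [hcs]
    simp only [cs, Matrix.cons_val]
    norm_num
  -- the rational functions
  have hC : ∀ j : ℕ, RA (ys n) (fun y => pc n e r y 0 / cm n e r y j) := by
    intro j
    refine A.div (fun y => pc n e r y 0) (fun y => cm n e r y j) (hpr 0) (hd2 0 j 2) ?_
    rw [hcm]
    exact hzx
  have hci : ∀ i : Fin 3, RA (ys n) (fun y => cc n y i) := fun i => A.coord (0, i)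
  have hc2i : RA (ys n) (fun y => (cc n y 2)⁻¹) := A.inv _ (hci 2) hc2
  -- the polynomial functions
  have hX : RP (ys n) (fun _ m m' => m * m') := RP.mul _ _ RP.fst RP.snd
  have hH : ∀ F : E n → ℂ → ℂ → ℂ, RP (ys n) F → RP (ys n) fun y m m' => hh (cc n y) (F y m m') := by
    intro F hF
    unfold hh
    refine R.neg _ (R.sub _ _ (RP.add _ _ (R.sub _ _ (R.pow F 3 hF) (R.pow F 2 hF)) ?_) ?_)
    · exact RP.mul _ _ (RP.coef _ (hci 0)) hF
    · exact RP.coef _ (hci 1)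
  have hX' : RP (ys n) (fun y m m' => hh (cc n y) m * hh (cc n y) m' * (((cc n y 2)⁻¹ : ℝ) : ℂ)) :=
    RP.mul _ _ (RP.mul _ _ (hH _ RP.fst) (hH _ RP.snd)) (RP.coef _ hc2i)
  have hG := SkP R n e (fun j y => pc n e r y 0 / cm n e r y j) (r - n * e) _ _ hC hX hX'
  have hcy : ∀ᶠ y in ZN (ys n), cc n y 2 ≠ 0 := A.nz _ (hci 2) hc2
  have hev := hN2 n (ys n) (fun m hm => csRoot m (by rw [← hcs]; exact hm)) _ hG (by
    have q1 : (1 / 4 : ℂ) * (1 / 4) = 1 / 16 := by norm_num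
    have q2 : hh (cc n (ys n)) (1 / 4) * hh (cc n (ys n)) (1 / 4) *
        (((cc n (ys n) 2)⁻¹ : ℝ) : ℂ) = 1 / 16 := by
      rw [hcs, hhcs]
      simp only [cs, Matrix.cons_val]
      push_cast
      norm_num
    show Sk n e (fun j => ((pc n e r (ys n) 0 / cm n e r (ys n) j : ℝ) : ℂ)) (r - n * e)
      (1 / 4 * (1 / 4)) (hh (cc n (ys n)) (1 / 4) * hh (cc n (ys n)) (1 / 4) *
        (((cc n (ys n) 2)⁻¹ : ℝ) : ℂ)) ≠ 0
    rw [q1, q2]
    refine val hDz n e r hn he ν hν h1 h0 h2 h3 h4 _ rfl _ ?_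
    intro j
    rw [hpc, hcm])
  filter_upwards [hcy, hev] with y hy1 hy2 m m' hm hm' hmm
  have hm0 := rootNe _ hy1 m hm
  have hm0' := rootNe _ hy1 m' hm'
  have hS := hy2 m m' hm hm'
  have hyc : ((cc n y 2 : ℝ) : ℂ) ≠ 0 := Complex.ofReal_ne_zero.mpr hy1
  have hx' : hh (cc n y) m * hh (cc n y) m' * (((cc n y 2)⁻¹ : ℝ) : ℂ) =
      (cc n y 2 : ℂ) / (m * m') := by
    have k1 := hhmul _ m hm
    have k2 := hhmul _ m' hm'
    rw [eq_div_iff (mul_ne_zero hm0 hm0'), Complex.ofReal_inv]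
    have : hh (cc n y) m * hh (cc n y) m' * ((cc n y 2 : ℝ) : ℂ)⁻¹ * (m * m') =
        (hh (cc n y) m * m) * (hh (cc n y) m' * m') * ((cc n y 2 : ℝ) : ℂ)⁻¹ := by ring
    rw [this, k1, k2]
    field_simp
  have hS' : Sk n e (fun j => ((pc n e r y 0 / cm n e r y j : ℝ) : ℂ)) (r - n * e) (m * m')
      ((cc n y 2 : ℂ) / (m * m')) ≠ 0 := by
    rw [← hx']
    exact hS
  have hx0 : m * m' ≠ 0 := mul_ne_zero hm0 hm0'
  have hx0' : (cc n y 2 : ℂ) / (m * m') ≠ 0 := div_ne_zero hyc hx0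
  have hne : m * m' - (cc n y 2 : ℂ) / (m * m') ≠ 0 := by
    intro h
    apply hmm
    have h5 : (m * m') * (m * m') - (cc n y 2 : ℂ) = 0 := by
      have : (m * m') * (m * m' - (cc n y 2 : ℂ) / (m * m')) = 0 := by rw [h, mul_zero]
      rw [mul_sub, mul_div_cancel₀ _ hx0] at this
      exact this
    rw [pow_two]
    exact sub_eq_zero.mp h5
  have hD := (hDz ℂ n e (fun j => ((pc n e r y 0 / cm n e r y j : ℝ) : ℂ)) (r - n * e) (m * m')
    ((cc n y 2 : ℂ) / (m * m')) hx0 hx0').1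
  intro hA
  have hz : (m * m') ^ (r - (n : ℤ) * e) * qd n e (fun j => ((pc n e r y 0 / cm n e r y j : ℝ) : ℂ))
      (m * m') - ((cc n y 2 : ℂ) / (m * m')) ^ (r - (n : ℤ) * e) *
        qd n e (fun j => ((pc n e r y 0 / cm n e r y j : ℝ) : ℂ)) ((cc n y 2 : ℂ) / (m * m')) =
      0 := sub_eq_zero.mpr hA
  rw [hz] at hD
  refine absurd hD.symm (mul_ne_zero ?_ (mul_ne_zero hne hS'))
  split_ifs
  · exact one_ne_zero
  · exact zpow_ne_zero _ (mul_ne_zero hx0 hx0')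

end Pool.Agent.MP62a5ad.QN
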