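import Pool.Agent.Lib.MP_62a5ad_mp.QN.SpecD

/-!
# MP_62a5ad_mp, project QN: the eigenvalues of the monodromy matrix of the chain
-/

set_option autoImplicit false

namespace Pool.Agent.MP62a5ad.QN

open Matrix

private theorem La_shift {f : ℤ → ℂ} {n : ℕ} (hf : ∀ k, f (k + n) = f k) (h0 : f 0 ≠ 0) :
    ∏ j ∈ Finset.range n, f ((j : ℤ) + 1) = ∏ j ∈ Finset.range n, f j := by
  have h1 := Finset.prod_range_succ' (fun j : ℕ => f (j : ℤ)) n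
  rw [Finset.prod_range_succ] at h1
  have h3 : f (n : ℤ) = f 0 := by simpa using hf 0
  simp only [Nat.cast_add, Nat.cast_one, Nat.cast_zero, h3] at h1
  exact (mul_right_cancel₀ h0 h1).symm

private theorem La_rs {f : ℤ → ℂ} {n : ℕ} [NeZero n] (hf : ∀ k, f (k + n) = f k) (k : ℤ) :
    f ((rs n k : Fin n) : ℕ) = f k := by
  have hn : (0 : ℤ) < n := by exact_mod_cast Nat.pos_of_ne_zero (NeZero.ne n)
  have h1 := Int.emod_nonneg k hn.ne'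
  have h2 := Int.emod_lt_of_pos k hn
  have h3 : (((rs n k : Fin n) : ℕ) : ℤ) = k % n := by
    unfold rs
    rw [Fin.val_ofNat, Nat.mod_eq_of_lt (by omega)]
    omega
  have h4 : Function.Periodic f (n : ℤ) := hf
  rw [h3, Int.emod_def, mul_comm]
  exact h4.sub_zsmul_eq (k / n)

private theorem La_pow (x : ℂ) (n e : ℕ) : x ^ ((n : ℤ) * (e : ℤ)) = (x ^ e) ^ n := by
  rw [← Nat.cast_mul, zpow_natCast, mul_comm, pow_mul]

private theorem La_pw (w : Fin 4 → ℂ) (x : ℂ) :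
    pv (pw w) x = (x - w 0) * (x - w 1) * (x - w 2) * (x - w 3) := by
  simp [pv, pw]
  ring

/-- The combination of the products. -/
private theorem La_alg {a b q qh dd qhs qt et c W M K' dr PG PD PR Tc : ℂ} (ha : a ≠ 0)
    (hb : b ≠ 0) (hq : q ≠ 0) (hqh : qh ≠ 0) (hdd : dd ≠ 0) (hqhs : qhs ≠ 0)
    (het : et ≠ 0) (hK : K' ≠ 0) (hW : W ≠ 0)
    (h1 : PG = a * qhs / (qh * dd)) (h2 : PD = b * qt / (q * dd)) (h3 : PR = W * PG * PD / et)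
    (h4 : et * qh * q = W * a * b) (h5 : q / b = K' * M)
    (h6 : K' ^ 4 * dr = c * qt / (et ^ 2 * qhs)) (h7 : Tc = PG * K' * (W / M)) :
    Tc ^ 2 * dr = PR * c := by
  have h8 : M = q / (b * K') := by
    field_simp at h5 ⊢
    linear_combination -h5
  have h9 : dr = c * qt / (et ^ 2 * qhs) / K' ^ 4 := by
    rw [← h6]
    field_simp
  have h10 : W = et * qh * q / (a * b) := by
    rw [h4]
    field_simp
  rw [h7, h3, h2, h1, h9, h8, h10]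
  field_simp

private theorem La_gam (w : Fin 4 → ℂ) (D : ℤ → ℤ → Fin 3 → ℂ) (j : ℤ) : gam w D 0 j =
    (w 0 - D (-1) j 0) * qv (D (-1) j) (D 0 j 0) /
      (qv (D (-1) j) (w 0) * (D (-1) j 0 - D 0 j 0)) := by
  rw [gam, zero_sub]

private theorem La_dlt (w : Fin 4 → ℂ) (D : ℤ → ℤ → Fin 3 → ℂ) (j : ℤ) : dlt w D 0 (j + 1) =
    (w 0 - D 0 (j + 1) 0) * qv (D 0 j) (D (-1) (j + 1) 0) /
      (qv (D 0 j) (w 0) * (D (-1) (j + 1) 0 - D 0 (j + 1) 0)) := by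
  rw [dlt, add_sub_cancel_right, zero_sub]

private theorem La_rho (w : Fin 4 → ℂ) (D : ℤ → ℤ → Fin 3 → ℂ) (H : ℤ → ℤ → ℂ) (j : ℤ) :
    rho w D H 0 j = w 0 * gam w D 0 j * dlt w D 0 (j + 1) / H (-1) j := by
  rw [rho, zero_sub]

/-- The setting. -/
private structure LaS (n e : ℕ) (r : ℤ) (m w : Fin 4 → ℂ) (D : ℤ → ℤ → Fin 3 → ℂ)
    (H : ℤ → ℤ → ℂ) (K' δ : ℂ) (A : ℂ → ℂ) (Tc : ℂ) : Prop where
  hw : ∀ i, w i = m i ^ e
  hm : ∀ i, m i ≠ 0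
  hK' : K' ≠ 0
  inj : Function.Injective w
  ok : Ok (pw w) D H (-1) 0
  hchi : ∀ k i, i ≠ 0 → chi w (w i) ≠ cst w D 0 k
  perD : ∀ σ k, D σ (k + n) = D σ k
  perH : ∀ σ k, H σ (k + n) = H σ k
  hK : ∀ i, ∏ j ∈ Finset.range n, (qv (D 0 j) (w i) / (w i - D 0 j 0)) = K' * m i ^ r
  hδ : δ = m 0 * m 1 * m 2 * m 3
  hA : ∀ h, A h = h ^ (r - n * e) * ∏ j ∈ Finset.range n, (δ ^ e / D 0 j 2 - h ^ e)
  hT : Tc = (∏ j ∈ Finset.range n, gam w D 0 j) * K' * m 0 ^ (n * e - r : ℤ)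

section

variable {n e : ℕ} {r : ℤ} {m w : Fin 4 → ℂ} {D : ℤ → ℤ → Fin 3 → ℂ}
    {H : ℤ → ℤ → ℂ} {K' δ : ℂ} {A : ℂ → ℂ} {Tc : ℂ}

private theorem LaS.w0 (S : LaS n e r m w D H K' δ A Tc) (i : Fin 4) : w i ≠ 0 := by
  rw [S.hw]
  exact pow_ne_zero _ (S.hm i)

private theorem LaS.d0 (S : LaS n e r m w D H K' δ A Tc) : δ ≠ 0 := by
  rw [S.hδ]
  exact mul_ne_zero (mul_ne_zero (mul_ne_zero (S.hm 0) (S.hm 1)) (S.hm 2)) (S.hm 3)

private theorem LaS.P (S : LaS n e r m w D H K' δ A Tc) : w 0 * e3 w = δ ^ e := by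
  rw [S.hδ, mul_pow, mul_pow, mul_pow, e3, ← S.hw, ← S.hw, ← S.hw, ← S.hw]
  ring

private theorem LaS.rel (S : LaS n e r m w D H K' δ A Tc) (j : ℤ) :
    Rel (pw w) (D (-1) (j + 1) 0) (D (-1) j) (D 0 j) (H (-1) j) :=
  S.ok.rel (-1) j le_rfl (by norm_num)

private theorem LaS.eta (S : LaS n e r m w D H K' δ A Tc) (j : ℤ) : H (-1) j ≠ 0 :=
  S.ok.eta (-1) j le_rfl (by norm_num)

private theorem LaS.nd (S : LaS n e r m w D H K' δ A Tc) (j : ℤ) : D (-1) j 0 ≠ D 0 j 0 :=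
  S.ok.nd (-1) j le_rfl (by norm_num)

private theorem LaS.rev (S : LaS n e r m w D H K' δ A Tc) (h1 : S_Rel) (j : ℤ) :
    Rel (pw w) (D 0 j 0) (D 0 j) ![D (-1) (j + 1) 0, D (-1) j 1, D (-1) j 2] (H (-1) j) :=
  (h1 ℂ (pw w)).2.2.1 _ _ _ _ (S.rel j)

private theorem LaS.qq (S : LaS n e r m w D H K' δ A Tc) (h1 : S_Rel) (j : ℤ) (x : ℂ) :
    H (-1) j * (qv (D (-1) j) x * qv (D 0 j) x) =
      x * (x - D (-1) (j + 1) 0) * (x - D 0 j 0) + H (-1) j * pv (pw w) x :=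
  (h1 ℂ (pw w)).2.2.2.1 _ _ _ _ (S.rel j) x

private theorem LaS.nz (S : LaS n e r m w D H K' δ A Tc) (h3 : S_Nz) :
    (∀ m i, w i ≠ D 0 m 0 ∧ w i ≠ D (-1) m 0) ∧
    (∀ m, D 0 m 2 ≠ 0 ∧ D (-1) m 2 * D 0 m 2 = w 0 * e3 w ∧
      (∀ i, qv (D (-1) m) (w i) ≠ 0 ∧ qv (D 0 m) (w i) ≠ 0) ∧
      qv (D 0 m) (D (-1) (m + 1) 0) ≠ 0 ∧ qv (D (-1) m) (D 0 m 0) ≠ 0 ∧
      qv (D 0 m) (D 0 m 0) ≠ 0 ∧
      gam w D 0 m ≠ 0 ∧ rho w D H 0 m ≠ 0 ∧ ∀ i, i ≠ 0 → Rw w D 0 m (w i) ≠ 0) := by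
  obtain ⟨a1, a2⟩ := h3 ℂ w D H (-1) 0 S.w0 S.ok
  refine ⟨fun m i => ⟨a1 0 m (by norm_num) le_rfl i, a1 (-1) m le_rfl (by norm_num) i⟩,
    fun m => ?_⟩
  obtain ⟨b1, b2, b3, b4, b5, b6, b7, b8, b9, b10, b11, b12, b13, b14, b15, b16, b17, b18⟩ :=
    a2 (-1) m le_rfl (by norm_num)
  refine ⟨b2, b3, b6, b8, b9, b10, b15, b17, fun i hi => ?_⟩
  refine (b18 i hi ?_).2.2
  rw [← b4]
  exact S.hchi m i hi

private theorem LaS.R (S : LaS n e r m w D H K' δ A Tc) (h1 : S_Rel) (h2 : S_Jx) (j : ℤ)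
    (a : Fin 4) (ha : a ≠ 0) : Rw w D 0 j (w a) = gam w D 0 j *
      ((δ ^ e / D 0 j 2 - w 0 * w a) * (qv (D 0 j) (w a) / (w a - D 0 j 0)) / w a) := by
  have h := (h2 ℂ w _ _ _ _ S.w0 (S.eta j) (S.rev h1 j)).2.2.2.1 a ha
  rw [S.P] at h
  have h' : jv w (D 0 j) (w a) = (δ ^ e / D 0 j 2 - w 0 * w a) * qv (D 0 j) (w a) / w a := by
    rw [eq_div_iff (S.w0 a), mul_comm, h]
  rw [Rw, h']
  ring

private theorem LaS.prodR (S : LaS n e r m w D H K' δ A Tc) (h1 : S_Rel) (h2 : S_Jx)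
    (a : Fin 4) (ha : a ≠ 0) :
    ∏ j ∈ Finset.range n, Rw w D 0 j (w a) = Tc * A (m 0 * m a) := by
  rw [Finset.prod_congr rfl (fun (j : ℕ) _ => S.R h1 h2 (j : ℤ) a ha), Finset.prod_mul_distrib,
    Finset.prod_div_distrib, Finset.prod_mul_distrib, S.hK a, Finset.prod_const,
    Finset.card_range, S.hT, S.hA]
  have e1 : (m 0 * m a) ^ e = w 0 * w a := by rw [mul_pow, S.hw, S.hw]
  have e2 : m 0 ^ ((n : ℤ) * e - r) * m 0 ^ (r - (n : ℤ) * e) = 1 := by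
    rw [← zpow_add₀ (S.hm 0)]
    simp
  have e3 : m a ^ (r - (n : ℤ) * e) = m a ^ r / (w a) ^ n := by
    rw [zpow_sub₀ (S.hm a), La_pow, ← S.hw]
  rw [e1, mul_zpow, e3]
  linear_combination (-((∏ j ∈ Finset.range n, gam w D 0 j) * K' * (m a ^ r / (w a) ^ n) *
    ∏ j ∈ Finset.range n, (δ ^ e / D 0 j 2 - w 0 * w a))) * e2

private theorem LaS.hx (S : LaS n e r m w D H K' δ A Tc) (a : Fin 4) (ha : a ≠ 0) :
    chi w (w a) = w 0 * w a + δ ^ e / (w 0 * w a) := by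
  have h1 := S.w0 0
  have h2 := S.w0 a
  rw [← S.P]
  fin_cases a
  · exact absurd rfl ha
  · simp only [chi, e1, e2, e3, Fin.mk_one, Fin.isValue] at h2 ⊢
    field_simp
    ring
  · simp only [chi, e1, e2, e3, Fin.reduceFinMk, Fin.isValue] at h2 ⊢
    field_simp
    ring
  · simp only [chi, e1, e2, e3, Fin.reduceFinMk, Fin.isValue] at h2 ⊢
    field_simp
    ring

private theorem LaS.rsl (S : LaS n e r m w D H K' δ A Tc) (h1 : S_Rel) (h3 : S_Nz) (h6 : S_Rs)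
    (j : ℤ) : ∏ i, (qv (D 0 j) (w i) / (w i - D 0 j 0)) =
      D 0 j 2 * qv (D 0 j) (D (-1) (j + 1) 0) / (H (-1) j ^ 2 * qv (D (-1) j) (D 0 j 0)) := by
  have a1 := h6 ℂ w _ _ _ _ (S.rev h1 j)
  have a2 := S.qq h1 j (D 0 j 0)
  have a3 := S.eta j
  obtain ⟨b0, b1⟩ := S.nz h3
  obtain ⟨b2, b3, b4, b5, b6, b7, b8, b9, b10⟩ := b1 j
  rw [La_pw] at a2
  have a4 : qv (D (-1) j) (D 0 j 0) * qv (D 0 j) (D 0 j 0) = ∏ i, (w i - D 0 j 0) := by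
    rw [Fin.prod_univ_four]
    refine mul_left_cancel₀ a3 ?_
    rw [a2]
    ring
  have a5 : ∏ i, (w i - D 0 j 0) ≠ 0 := by
    rw [← a4]
    exact mul_ne_zero b6 b7
  rw [Finset.prod_div_distrib, div_eq_div_iff a5 (mul_ne_zero (pow_ne_zero _ a3) b6), ← a4]
  have a6 : (![D (-1) (j + 1) 0, D (-1) j 1, D (-1) j 2] : Fin 3 → ℂ) 0 = D (-1) (j + 1) 0 := rfl
  rw [a6] at a1
  linear_combination (-(qv (D (-1) j) (D 0 j 0))) * a1

private theorem LaS.T2 (S : LaS n e r m w D H K' δ A Tc) (h1 : S_Rel) (h3 : S_Nz) (h6 : S_Rs) :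
    Tc ^ 2 * δ ^ r = (∏ j ∈ Finset.range n, rho w D H 0 j) * ∏ j ∈ Finset.range n, D 0 j 2 := by
  obtain ⟨b0, b1⟩ := S.nz h3
  have c1 : ∀ j : ℤ, w 0 - D (-1) j 0 ≠ 0 := fun j => sub_ne_zero.2 (b0 j 0).2
  have c2 : ∀ j : ℤ, w 0 - D 0 j 0 ≠ 0 := fun j => sub_ne_zero.2 (b0 j 0).1
  have c3 : ∀ j : ℤ, D (-1) j 0 - D 0 j 0 ≠ 0 := fun j => sub_ne_zero.2 (S.nd j)
  have s1 : ∏ j ∈ Finset.range n, (w 0 - D (-1) ((j : ℤ) + 1) 0) =
      ∏ j ∈ Finset.range n, (w 0 - D (-1) (j : ℤ) 0) :=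
    La_shift (f := fun j => w 0 - D (-1) j 0) (fun k => by simp only [S.perD]) (c1 0)
  have s2 : ∏ j ∈ Finset.range n, (w 0 - D 0 ((j : ℤ) + 1) 0) =
      ∏ j ∈ Finset.range n, (w 0 - D 0 (j : ℤ) 0) :=
    La_shift (f := fun j => w 0 - D 0 j 0) (fun k => by simp only [S.perD]) (c2 0)
  have s3 : ∏ j ∈ Finset.range n, (D (-1) ((j : ℤ) + 1) 0 - D 0 ((j : ℤ) + 1) 0) =
      ∏ j ∈ Finset.range n, (D (-1) (j : ℤ) 0 - D 0 (j : ℤ) 0) :=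
    La_shift (f := fun j => D (-1) j 0 - D 0 j 0) (fun k => by simp only [S.perD]) (c3 0)
  have p1 : ∏ j ∈ Finset.range n, gam w D 0 (j : ℤ) =
      (∏ j ∈ Finset.range n, (w 0 - D (-1) (j : ℤ) 0)) *
        (∏ j ∈ Finset.range n, qv (D (-1) (j : ℤ)) (D 0 (j : ℤ) 0)) /
      ((∏ j ∈ Finset.range n, qv (D (-1) (j : ℤ)) (w 0)) *
        ∏ j ∈ Finset.range n, (D (-1) (j : ℤ) 0 - D 0 (j : ℤ) 0)) := by
    rw [Finset.prod_congr rfl (fun (j : ℕ) _ => La_gam w D (j : ℤ)), Finset.prod_div_distrib,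
      Finset.prod_mul_distrib, Finset.prod_mul_distrib]
  have p2 : ∏ j ∈ Finset.range n, dlt w D 0 ((j : ℤ) + 1) =
      (∏ j ∈ Finset.range n, (w 0 - D 0 (j : ℤ) 0)) *
        (∏ j ∈ Finset.range n, qv (D 0 (j : ℤ)) (D (-1) ((j : ℤ) + 1) 0)) /
      ((∏ j ∈ Finset.range n, qv (D 0 (j : ℤ)) (w 0)) *
        ∏ j ∈ Finset.range n, (D (-1) (j : ℤ) 0 - D 0 (j : ℤ) 0)) := by
    rw [← s2, ← s3, Finset.prod_congr rfl (fun (j : ℕ) _ => La_dlt w D (j : ℤ)),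
      Finset.prod_div_distrib, Finset.prod_mul_distrib, Finset.prod_mul_distrib]
  have p3 : ∏ j ∈ Finset.range n, rho w D H 0 (j : ℤ) =
      (w 0) ^ n * (∏ j ∈ Finset.range n, gam w D 0 (j : ℤ)) *
        (∏ j ∈ Finset.range n, dlt w D 0 ((j : ℤ) + 1)) /
        ∏ j ∈ Finset.range n, H (-1) (j : ℤ) := by
    rw [Finset.prod_congr rfl (fun (j : ℕ) _ => La_rho w D H (j : ℤ)), Finset.prod_div_distrib,
      Finset.prod_mul_distrib, Finset.prod_mul_distrib, Finset.prod_const, Finset.card_range]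
  have p4 : (∏ j ∈ Finset.range n, H (-1) (j : ℤ)) *
      (∏ j ∈ Finset.range n, qv (D (-1) (j : ℤ)) (w 0)) *
      (∏ j ∈ Finset.range n, qv (D 0 (j : ℤ)) (w 0)) =
      (w 0) ^ n * (∏ j ∈ Finset.range n, (w 0 - D (-1) (j : ℤ) 0)) *
        ∏ j ∈ Finset.range n, (w 0 - D 0 (j : ℤ) 0) := by
    have h0 : ∀ j : ℤ, H (-1) j * qv (D (-1) j) (w 0) * qv (D 0 j) (w 0) =
        w 0 * (w 0 - D (-1) (j + 1) 0) * (w 0 - D 0 j 0) := by
      intro j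
      have h := S.qq h1 j (w 0)
      rw [La_pw] at h
      linear_combination h
    rw [← s1, ← Finset.prod_mul_distrib, ← Finset.prod_mul_distrib,
      Finset.prod_congr rfl (fun (j : ℕ) _ => h0 (j : ℤ)), Finset.prod_mul_distrib,
      Finset.prod_mul_distrib, Finset.prod_const, Finset.card_range]
  have p5 : (∏ j ∈ Finset.range n, qv (D 0 (j : ℤ)) (w 0)) /
      (∏ j ∈ Finset.range n, (w 0 - D 0 (j : ℤ) 0)) = K' * m 0 ^ r := by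
    rw [← Finset.prod_div_distrib, S.hK 0]
  have p6 : K' ^ 4 * δ ^ r = (∏ j ∈ Finset.range n, D 0 (j : ℤ) 2) *
      (∏ j ∈ Finset.range n, qv (D 0 (j : ℤ)) (D (-1) ((j : ℤ) + 1) 0)) /
      ((∏ j ∈ Finset.range n, H (-1) (j : ℤ)) ^ 2 *
        ∏ j ∈ Finset.range n, qv (D (-1) (j : ℤ)) (D 0 (j : ℤ) 0)) := by
    have h0 : ∏ i, ∏ j ∈ Finset.range n, (qv (D 0 (j : ℤ)) (w i) / (w i - D 0 (j : ℤ) 0)) =
        K' ^ 4 * δ ^ r := by
      rw [Fin.prod_univ_four, S.hK 0, S.hK 1, S.hK 2, S.hK 3, S.hδ, mul_zpow, mul_zpow, mul_zpow]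
      ring
    rw [← h0, Finset.prod_comm, Finset.prod_congr rfl (fun (j : ℕ) _ => S.rsl h1 h3 h6 (j : ℤ)),
      Finset.prod_div_distrib, Finset.prod_mul_distrib, Finset.prod_mul_distrib, Finset.prod_pow]
  have p7 : Tc = (∏ j ∈ Finset.range n, gam w D 0 (j : ℤ)) * K' * ((w 0) ^ n / m 0 ^ r) := by
    rw [S.hT, zpow_sub₀ (S.hm 0), La_pow, ← S.hw]
  refine La_alg ?_ ?_ ?_ ?_ ?_ ?_ ?_ S.hK' (pow_ne_zero n (S.w0 0)) p1 p2 p3 p4 p5 p6 p7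
  · exact Finset.prod_ne_zero_iff.2 fun j _ => c1 j
  · exact Finset.prod_ne_zero_iff.2 fun j _ => c2 j
  · exact Finset.prod_ne_zero_iff.2 fun j _ => ((b1 j).2.2.1 0).2
  · exact Finset.prod_ne_zero_iff.2 fun j _ => ((b1 j).2.2.1 0).1
  · exact Finset.prod_ne_zero_iff.2 fun j _ => c3 j
  · exact Finset.prod_ne_zero_iff.2 fun j _ => (b1 j).2.2.2.2.1
  · exact Finset.prod_ne_zero_iff.2 fun j _ => S.eta j

private theorem LaS.two [NeZero n] (S : LaS n e r m w D H K' δ A Tc) (h1 : S_Rel) (h3 : S_Nz)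
    (h6 : S_Rs) (a : Fin 4) (ha : a ≠ 0) :
    ∏ k : Fin n, (-(thx n w D H 0 (k, 1) * (chi w (w a) - thx n w D H 0 (k, 2)))) =
      Tc ^ 2 * (A (m 0 * m a) * A (δ / (m 0 * m a))) := by
  obtain ⟨-, b1⟩ := S.nz h3
  have hu : w 0 * w a ≠ 0 := mul_ne_zero (S.w0 0) (S.w0 a)
  have hP : δ ^ e ≠ 0 := pow_ne_zero _ S.d0
  have hh : m 0 * m a ≠ 0 := mul_ne_zero (S.hm 0) (S.hm a)
  have e1 : (m 0 * m a) ^ e = w 0 * w a := by rw [mul_pow, S.hw, S.hw]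
  have q1 : ∀ j : ℤ, -(rho w D H 0 j * (chi w (w a) - cst w D 0 j)) =
      rho w D H 0 j * D 0 j 2 * (δ ^ e / D 0 j 2 - w 0 * w a) *
        (δ ^ e / D 0 j 2 - δ ^ e / (w 0 * w a)) / δ ^ e := by
    intro j
    have hC := (b1 j).1
    have hw0 := S.w0 0
    have hwa := S.w0 a
    rw [cst, S.P, S.hx a ha]
    generalize rho w D H 0 j = R at *
    generalize D 0 j 2 = C at *
    generalize δ ^ e = P at *
    field_simp
    ring
  have q2 : ∏ k : Fin n, (-(thx n w D H 0 (k, 1) * (chi w (w a) - thx n w D H 0 (k, 2)))) =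
      ∏ j ∈ Finset.range n, (-(rho w D H 0 (j : ℤ) * (chi w (w a) - cst w D 0 (j : ℤ)))) := by
    rw [← Fin.prod_univ_eq_prod_range
      (fun j : ℕ => (-(rho w D H 0 (j : ℤ) * (chi w (w a) - cst w D 0 (j : ℤ))))) n]
    refine Finset.prod_congr rfl fun k _ => ?_
    have t1 : thx n w D H 0 (k, 1) = rho w D H 0 ((k : ℕ) : ℤ) := by simp [thx]
    have t2 : thx n w D H 0 (k, 2) = cst w D 0 ((k : ℕ) : ℤ) := by simp [thx]
    rw [t1, t2]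
  have q3 : (m 0 * m a) ^ (r - (n : ℤ) * e) * (δ / (m 0 * m a)) ^ (r - (n : ℤ) * e) =
      δ ^ r / (δ ^ e) ^ n := by
    rw [← mul_zpow, mul_div_cancel₀ _ hh, zpow_sub₀ S.d0, La_pow]
  have q4 : (δ / (m 0 * m a)) ^ e = δ ^ e / (w 0 * w a) := by rw [div_pow, e1]
  have q5 := S.T2 h1 h3 h6
  rw [q2, Finset.prod_congr rfl (fun (j : ℕ) _ => q1 (j : ℤ)), Finset.prod_div_distrib,
    Finset.prod_mul_distrib, Finset.prod_mul_distrib, Finset.prod_mul_distrib, ← q5,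
    Finset.prod_const, Finset.card_range, S.hA, S.hA, e1, q4]
  linear_combination (-(Tc ^ 2 * (∏ j ∈ Finset.range n, (δ ^ e / D 0 j 2 - w 0 * w a)) *
    ∏ j ∈ Finset.range n, (δ ^ e / D 0 j 2 - δ ^ e / (w 0 * w a)))) * q3

private theorem LaS.pp (S : LaS n e r m w D H K' δ A Tc) (σ k : ℤ) :
    D σ (k + n + 1) = D σ (k + 1) ∧ D σ (k + n - 1) = D σ (k - 1) := by
  have h1 := S.perD σ (k + 1)
  have h2 := S.perD σ (k - 1)
  rw [show k + 1 + (n : ℤ) = k + n + 1 by ring] at h1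
  rw [show k - 1 + (n : ℤ) = k + n - 1 by ring] at h2
  exact ⟨h1, h2⟩

private theorem LaS.pg (S : LaS n e r m w D H K' δ A Tc) (k : ℤ) :
    gam w D 0 (k + n) = gam w D 0 k := by
  simp only [gam, S.perD]

private theorem LaS.pd (S : LaS n e r m w D H K' δ A Tc) (k : ℤ) :
    dlt w D 0 (k + n) = dlt w D 0 k := by
  simp only [dlt, S.perD, (S.pp _ k).2]

private theorem LaS.pr (S : LaS n e r m w D H K' δ A Tc) (k : ℤ) :
    rho w D H 0 (k + n) = rho w D H 0 k := by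
  rw [La_rho, La_rho, S.pg, S.perH, La_dlt, La_dlt, S.perD, (S.pp _ k).1, (S.pp _ k).1]

private theorem LaS.pc (S : LaS n e r m w D H K' δ A Tc) (k : ℤ) :
    cst w D 0 (k + n) = cst w D 0 k := by
  simp only [cst, S.perD]

private theorem LaS.pa (S : LaS n e r m w D H K' δ A Tc) (k : ℤ) :
    alp w D H 0 (k + n) = alp w D H 0 k := by
  have h1 := S.pr (k - 1)
  rw [show k - 1 + (n : ℤ) = k + n - 1 by ring] at h1
  rw [alp, alp, h1, alr, alr, S.pg, S.pd, S.perD, S.perD, (S.pp _ k).2]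

private theorem LaS.pR (S : LaS n e r m w D H K' δ A Tc) (x : ℂ) (k : ℤ) :
    Rw w D 0 (k + n) x = Rw w D 0 k x := by
  rw [Rw, Rw, S.pg, S.perD]

private theorem LaS.T0 (S : LaS n e r m w D H K' δ A Tc) (h3 : S_Nz) : Tc ≠ 0 := by
  rw [S.hT]
  refine mul_ne_zero (mul_ne_zero ?_ S.hK') (zpow_ne_zero _ (S.hm 0))
  exact Finset.prod_ne_zero_iff.2 fun j _ => ((S.nz h3).2 j).2.2.2.2.2.2.1

private theorem LaS.A0 (S : LaS n e r m w D H K' δ A Tc) (h1 : S_Rel) (h2 : S_Jx) (h3 : S_Nz)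
    (a : Fin 4) (ha : a ≠ 0) : A (m 0 * m a) ≠ 0 := by
  have h : ∏ j ∈ Finset.range n, Rw w D 0 j (w a) ≠ 0 :=
    Finset.prod_ne_zero_iff.2 fun j _ => ((S.nz h3).2 j).2.2.2.2.2.2.2.2 a ha
  rw [S.prodR h1 h2 a ha] at h
  exact right_ne_zero_of_mul h

private theorem LaS.four [NeZero n] (S : LaS n e r m w D H K' δ A Tc) (h1 : S_Rel) (h2 : S_Jx)
    (h3 : S_Nz) (h4 : S_Wv) (h5 : S_Ei) (h6 : S_Rs) (a : Fin 4) (ha : a ≠ 0) :
    Hx (thx n w D H 0) (chi w (w a)) = Tc * (A (m 0 * m a) + A (δ / (m 0 * m a))) := by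
  have hrec : ∀ k : ℤ, Rw w D 0 k (w a) * Rw w D 0 (k - 1) (w a) =
      (chi w (w a) - thx n w D H 0 (rs n k, 0) - thx n w D H 0 (rs n (k - 1), 1)) *
        Rw w D 0 (k - 1) (w a) +
      thx n w D H 0 (rs n (k - 1), 1) * (chi w (w a) - thx n w D H 0 (rs n (k - 1), 2)) := by
    intro k
    have hok : Ok (pw w) D H (0 - 1) 0 := by
      rw [zero_sub]
      exact S.ok
    have t0 : thx n w D H 0 (rs n k, 0) = alp w D H 0 k := by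
      rw [thx, if_pos rfl]
      exact La_rs S.pa k
    have t1 : thx n w D H 0 (rs n (k - 1), 1) = rho w D H 0 (k - 1) := by
      rw [thx, if_neg (by simp), if_pos rfl]
      exact La_rs S.pr (k - 1)
    have t2 : thx n w D H 0 (rs n (k - 1), 2) = cst w D 0 (k - 1) := by
      rw [thx, if_neg (by simp), if_neg (by simp)]
      exact La_rs S.pc (k - 1)
    rw [t0, t1, t2, h4 ℂ w D H 0 S.w0 hok k a ha, alp]
    ring
  have h7 := h5 ℂ n (thx n w D H 0) (chi w (w a)) (fun k => Rw w D 0 k (w a))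
    (fun k => ((S.nz h3).2 k).2.2.2.2.2.2.2.2 a ha) (fun k => S.pR (w a) k) hrec
  rw [S.two h1 h3 h6 a ha, S.prodR h1 h2 a ha] at h7
  refine mul_left_cancel₀ (mul_ne_zero (S.T0 h3) (S.A0 h1 h2 h3 a ha)) ?_
  linear_combination (-1 : ℂ) * h7

end

theorem sLa (h1 : S_Rel) (h2 : S_Jx) (h3 : S_Nz) (h4 : S_Wv) (h5 : S_Ei) (h6 : S_Rs)
    (_h7 : S_Nm) : S_La := by
  intro n _ e r m D H K' hm hK' hinj hOk hchi hD hH hK w δ A Tc
  have S : LaS n e r m w D H K' δ A Tc := ⟨fun _ => rfl, hm, hK', hinj, hOk, hchi, hD, hH, hK,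
    rfl, fun _ => rfl, rfl⟩
  refine ⟨S.T0 h3, S.T2 h1 h3 h6, fun a ha => ⟨S.prodR h1 h2 a ha, S.A0 h1 h2 h3 a ha,
    S.two h1 h3 h6 a ha, S.four h1 h2 h3 h4 h5 h6 a ha, ?_⟩⟩
  have e1 : (m 0 * m a) ^ e = w 0 * w a := mul_pow _ _ _
  rw [S.hx a ha, e1]

end Pool.Agent.MP62a5ad.QN
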