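import Pool.Agent.Lib.MP_62a5ad_mp.QN.SpecF

/-!
# MP_62a5ad_mp, QN, LgR: involution in the real form
-/

set_option autoImplicit false

namespace Pool.Agent.MP62a5ad.QN

open Matrix

namespace LgRAux

variable {ι : Type} [Fintype ι] [DecidableEq ι]

omit [Fintype ι] [DecidableEq ι] in
/-- A matrix whose first `p` columns vanish has rank at most `q`. -/
theorem rank_le (p q : ℕ) (X : Matrix ι (Fin (p + q)) ℝ)
    (h : ∀ k i, X k (Fin.castAdd q i) = 0) : X.rank ≤ q := by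
  have h1 : LinearMap.range X.mulVecLin ≤
      LinearMap.range (X.submatrix id (Fin.natAdd p : Fin q → Fin (p + q))).mulVecLin := by
    rintro _ ⟨c, rfl⟩
    refine ⟨fun i => c (Fin.natAdd p i), ?_⟩
    ext k
    simp only [Matrix.mulVecLin_apply, Matrix.mulVec, dotProduct, Matrix.submatrix_apply, id]
    rw [Fin.sum_univ_add]
    simp [h]
  calc X.rank ≤ (X.submatrix id (Fin.natAdd p : Fin q → Fin (p + q))).rank :=
        Submodule.finrank_mono h1
    _ ≤ Fintype.card (Fin q) := Matrix.rank_le_card_width _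
    _ = q := by simp

omit [DecidableEq ι] in
/-- A vector which is orthogonal to the kernel of `D` is in the range of `Dᵀ`. -/
theorem perp {κ : Type} [Fintype κ] [DecidableEq κ] (D : Matrix κ ι ℝ)
    (hD : ∀ l : κ → ℝ, Dᵀ *ᵥ l = 0 → l = 0) (u : ι → ℝ)
    (hu : ∀ v : ι → ℝ, D *ᵥ v = 0 → v ⬝ᵥ u = 0) : ∃ c : κ → ℝ, u = Dᵀ *ᵥ c := by
  have hdet : (D * Dᵀ).det ≠ 0 := by
    intro h0
    obtain ⟨c, hc0, hc⟩ := Matrix.exists_mulVec_eq_zero_iff.2 h0
    apply hc0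
    apply hD
    rw [← Matrix.mulVec_mulVec] at hc
    have h1 : (Dᵀ *ᵥ c) ⬝ᵥ (Dᵀ *ᵥ c) = 0 := by
      rw [Matrix.dotProduct_mulVec (Dᵀ *ᵥ c), Matrix.vecMul_transpose, hc, zero_dotProduct]
    exact dotProduct_self_eq_zero.1 h1
  have hu' : IsUnit (D * Dᵀ).det := isUnit_iff_ne_zero.2 hdet
  refine ⟨(D * Dᵀ)⁻¹ *ᵥ (D *ᵥ u), ?_⟩
  have hz : D *ᵥ (u - Dᵀ *ᵥ ((D * Dᵀ)⁻¹ *ᵥ (D *ᵥ u))) = 0 := by
    rw [Matrix.mulVec_sub, Matrix.mulVec_mulVec, Matrix.mulVec_mulVec,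
      Matrix.mul_nonsing_inv _ hu', Matrix.one_mulVec, sub_self]
  have h1 := hu _ hz
  have h2 : (u - Dᵀ *ᵥ ((D * Dᵀ)⁻¹ *ᵥ (D *ᵥ u))) ⬝ᵥ
      (u - Dᵀ *ᵥ ((D * Dᵀ)⁻¹ *ᵥ (D *ᵥ u))) = 0 := by
    rw [dotProduct_sub, h1, Matrix.dotProduct_mulVec, Matrix.vecMul_transpose, hz,
      zero_dotProduct, sub_zero]
  exact sub_eq_zero.1 (dotProduct_self_eq_zero.1 h2)

end LgRAux

open LgRAux in
/-- **LgR.** Involution in the real form. -/
theorem tLgR (hBkN : S_BkN) (hBkA : S_BkA) : S_LgR := by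
  have _ := hBkN
  intro ι _ _ p q Ω D hc hΩ hi hdet hK
  obtain ⟨h1, h2, h3, -, -⟩ := hBkA ι (Fin p) Ω (Matrix.of (fst p q D)) hΩ hdet
  set π := bpi Ω (Matrix.of (fst p q D)) with hπ
  have hD : ∀ l : Fin (p + q) → ℝ, Dᵀ *ᵥ l = 0 → l = 0 := by
    have hinj : Function.Injective (Dᵀ).mulVec := by
      rw [Matrix.mulVec_injective_iff]
      exact hi
    intro l hl
    apply hinj
    rw [hl, Matrix.mulVec_zero]
  have hX : ∀ k i, (π * Dᵀ) k (Fin.castAdd q i) = 0 := by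
    intro k i
    have h4 : π * (Matrix.of (fst p q D))ᵀ = 0 := by
      have h5 : (Matrix.of (fst p q D) * π)ᵀ = 0 := by rw [h2, Matrix.transpose_zero]
      rw [Matrix.transpose_mul, h1, Matrix.neg_mul, neg_eq_zero] at h5
      exact h5
    have h6 := congrFun (congrFun h4 k) i
    exact h6
  have hrk := rank_le p q (π * Dᵀ) hX
  have hker : Module.finrank ℝ (LinearMap.ker D.mulVecLin) = q := by
    have h4 := LinearMap.finrank_range_add_finrank_ker D.mulVecLin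
    have h5 : Module.finrank ℝ (LinearMap.range D.mulVecLin) = D.rank := rfl
    have h6 : D.rank = p + q := by
      have := LinearIndependent.rank_matrix (M := D) hi
      simpa using this
    rw [h5, h6, Module.finrank_fintype_fun_eq_card, hc] at h4
    omega
  have hle : LinearMap.ker D.mulVecLin ≤ LinearMap.range (π * Dᵀ).mulVecLin := by
    intro w hw
    have hw' : D *ᵥ w = 0 := hw
    obtain ⟨c, hc⟩ := perp D hD (Ω *ᵥ w) fun v hv => hK v w hv hw'
    refine ⟨c, ?_⟩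
    rw [Matrix.mulVecLin_apply, ← Matrix.mulVec_mulVec, ← hc]
    apply h3
    ext i
    exact congrFun hw' (Fin.castAdd q i)
  have heq := Submodule.eq_of_le_of_finrank_le hle (by rw [hker]; exact hrk)
  rw [Matrix.mul_assoc]
  ext i j
  have h7 : (π * Dᵀ) *ᵥ (Pi.single j 1) ∈ LinearMap.ker D.mulVecLin := by
    rw [heq]
    exact ⟨Pi.single j 1, rfl⟩
  rw [LinearMap.mem_ker, Matrix.mulVecLin_apply, Matrix.mulVec_mulVec,
    Matrix.mulVec_single_one] at h7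
  exact congrFun h7 i

end Pool.Agent.MP62a5ad.QN
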