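import Pool.Agent.Lib.MP_62a5ad_mp.QN.SpecF

/-!
# MP_62a5ad_mp, QN: the norm of a polynomial in the monodromy
-/

set_option autoImplicit false

namespace Pool.Agent.MP62a5ad.QN

open Matrix

namespace NrmAux

/-- The characteristic polynomial of `cmono c`. -/
lemma charpoly_eval (c : Fin 3 → ℝ) (m : ℂ) : (cmono c).charpoly.eval m = cpl c m := by
  rw [Matrix.eval_charpoly]
  simp [cmono, mono, cpl, Matrix.det_succ_row_zero, Fin.sum_univ_succ, Fin.succAbove,
    Matrix.scalar_apply]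
  ring

lemma mem_spec (c : Fin 3 → ℝ) (m : ℂ) : m ∈ spectrum ℂ (cmono c) ↔ cpl c m = 0 := by
  rw [Matrix.mem_spectrum_iff_isRoot_charpoly, Polynomial.IsRoot.def, charpoly_eval]

/-- The polynomial with the coefficients `φ`. -/
noncomputable def gp (N : ℕ) (φ : Fin (N + 1) → ℂ) : Polynomial ℂ :=
  ∑ k, Polynomial.C (φ k) * Polynomial.X ^ (k : ℕ)

lemma gp_eval (N : ℕ) (φ : Fin (N + 1) → ℂ) (m : ℂ) :
    (gp N φ).eval m = ∑ k, φ k * m ^ (k : ℕ) := by
  simp [gp, Polynomial.eval_finset_sum]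

lemma gp_aeval (N : ℕ) (φ : Fin (N + 1) → ℂ) (A : Matrix (Fin 4) (Fin 4) ℂ) :
    Polynomial.aeval A (gp N φ) = ∑ k, φ k • A ^ (k : ℕ) := by
  simp [gp, map_sum, Algebra.smul_def]

end NrmAux

open NrmAux in
/-- The norm of a polynomial in the monodromy. -/
theorem tNrm : S_Nrm := by
  intro c N φ
  rw [← gp_aeval]
  have hne : (spectrum ℂ (cmono c)).Nonempty :=
    spectrum.nonempty_of_isAlgClosed_of_finiteDimensional ℂ (cmono c)
  have h1 : (Polynomial.aeval (cmono c) (gp N φ)).det ≠ 0 ↔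
      (0 : ℂ) ∉ spectrum ℂ (Polynomial.aeval (cmono c) (gp N φ)) := by
    rw [spectrum.zero_notMem_iff, Matrix.isUnit_iff_isUnit_det, isUnit_iff_ne_zero]
  rw [h1, spectrum.map_polynomial_aeval_of_nonempty _ _ hne]
  constructor
  · intro h m hm h0
    apply h
    refine ⟨m, (mem_spec c m).2 hm, ?_⟩
    show (gp N φ).eval m = 0
    rw [gp_eval, h0]
  · rintro h ⟨m, hm, h0⟩
    refine h m ((mem_spec c m).1 hm) ?_
    rw [← gp_eval]
    exact h0

end Pool.Agent.MP62a5ad.QN
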