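import Pool.Agent.Lib.MP_62a5ad_mp.QN.Base

/-!
# MP_62a5ad_mp, project QN: statements of the modules, part A (one site; the map `B`; the markings)

Theorem of the project: for `n ≥ 2`, `a, b ≥ 1` such that `n` divides one of `a`, `b`, `a + b` and is
coprime to the other two, or divides both, the map `T_{I,I}`, `I = (a, b)`, is Liouville integrable on
`P_{3,n}` with a Poisson structure of corank `n + 2`.

Every `S_X` is proved in its own file `QN/X.lean` (`namespace Pool.Agent.MP62a5ad.QN`) as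
`theorem sX (hA : S_A) … : S_X` where `S_A`, … are the statements named after `uses`; the docstring
contains the proof.  Auxiliary declarations are private (or named with the prefix `X_`).

Conventions.  `D τ m = (s, u, C)` at the half time `τ` and the place `m`, `H τ m = η`, `w 0 = μ` the
marked root, `w 1, w 2, w 3` the other roots of `p`, `P = p 0 = w 0 w 1 w 2 w 3`.
-/

set_option autoImplicit false

namespace Pool.Agent.MP62a5ad.QN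

open Matrix

/-! ## Part 1: the involution `R` -/

/-- (80 lines) **The relation of a site.**

Proof.  (1) `η = a⁻¹`, `a = rA`: `c3`: `u + u' = a + p₃` by `rU`; `c2`: multiply by `a`, `a s'` is the numerator of `rS`; `c1`: multiply by `a`:
`u C' + (a + p₃ - u) C = a s s' + p₁`, insert `a s'`, this is the definition of `a` multiplied by `C + s² + u s`; `c0`: `C ≠ 0`.
(2) From `c3`: `z' 1 = η⁻¹ + p₃ - z 1`; from `c2` multiplied by `η⁻¹`: `η⁻¹ z' 0 = …` (the numerator of `rS` with `η⁻¹` in place of `rA`); insert both into `c1`: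
`η⁻¹ (C + s² + u s) = numerator of rA`.  So `rA = η⁻¹`, and the rest follows.
(3) The four equations are symmetric.
(4) Expand; `linear_combination` of `c3`, `c2`, `c1`, `c0` with the coefficients `x³`, `x²`, `x`, `η`.
(5) Divide `c0 … c3`: the equations are homogeneous. -/
def S_Rel : Prop := ∀ (K : Type) [Field K] (p : Fin 4 → K),
  (∀ (s : K) (z : Fin 3 → K), z 2 ≠ 0 → z 2 + s ^ 2 + z 1 * s ≠ 0 → rA p s (z 1) (z 2) ≠ 0 →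
    Rel p s z ![rS p s (z 1) (z 2), rU p s (z 1) (z 2), p 0 / z 2] (rA p s (z 1) (z 2))⁻¹) ∧
  (∀ (s η : K) (z z' : Fin 3 → K), z 2 ≠ 0 → z 2 + s ^ 2 + z 1 * s ≠ 0 → η ≠ 0 → Rel p s z z' η →
    z' = ![rS p s (z 1) (z 2), rU p s (z 1) (z 2), p 0 / z 2] ∧ η = (z 1 + z' 1 - p 3)⁻¹) ∧
  (∀ (s η : K) (z z' : Fin 3 → K), Rel p s z z' η → Rel p (z' 0) z' ![s, z 1, z 2] η) ∧
  (∀ (s η : K) (z z' : Fin 3 → K), Rel p s z z' η → ∀ x,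
    η * (qv z x * qv z' x) = x * (x - s) * (x - z' 0) + η * pv p x) ∧
  ∀ (l s η : K) (z z' : Fin 3 → K), l ≠ 0 → Rel p s z z' η →
    Rel ![l ^ 4 * p 0, l ^ 3 * p 1, l ^ 2 * p 2, l * p 3] (l * s) ![l * z 0, l * z 1, l ^ 2 * z 2]
      ![l * z' 0, l * z' 1, l ^ 2 * z' 2] (l⁻¹ * η)

/-- (100 lines; uses `S_Rel`) **The half times `-2, …, 2`.**

Proof.  `D 0 = z`, `D 1 = fwd p z`, `D 2 = fwd p (fwd p z)`, `D (-1) = bwd p z`, `D (-2) = bwd p (bwd p z)` (`rfl` after `simp [lat]`; `Function.iterate_succ_apply'`).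
`C`: `D τ m 2 = z m 2` or `p 0 / z m 2`, so it is `≠ 0`.  Forward (`τ = 0, 1`): `S_Rel` (1) with `s = D τ (m+1) 0`; `H τ m = (u + u' - p₃)⁻¹ = a⁻¹` as
`u' = a + p₃ - u`.  Backward (`τ = 0, -1`): `S_Rel` (1) for `s = D τ m 0`, `z = D τ m` and (3): the relation with
`s' = rS … = D (τ-1) (m+1) 0`, `z' = D (τ-1) m`: `Rel p (D (τ-1) (m+1) 0) (D (τ-1) m) ![D τ m 0, D τ m 1, D τ m 2] η`, i.e. the relation `(τ - 1, m)`. -/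
def S_Lat : Prop := ∀ (K : Type) [Field K] (p : Fin 4 → K) (z : ℤ → Fin 3 → K),
  p 0 ≠ 0 → (∀ m, z m 2 ≠ 0) →
  (∀ τ, (τ = 0 ∨ τ = 1) → ∀ m,
    lat p z τ m 2 + lat p z τ (m + 1) 0 ^ 2 + lat p z τ m 1 * lat p z τ (m + 1) 0 ≠ 0 ∧
      rA p (lat p z τ (m + 1) 0) (lat p z τ m 1) (lat p z τ m 2) ≠ 0) →
  (∀ τ, (τ = 0 ∨ τ = -1) → ∀ m,
    lat p z τ m 2 + lat p z τ m 0 ^ 2 + lat p z τ m 1 * lat p z τ m 0 ≠ 0 ∧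
      rA p (lat p z τ m 0) (lat p z τ m 1) (lat p z τ m 2) ≠ 0) →
  (∀ τ, -2 ≤ τ → τ ≤ 2 → ∀ m, pv p (lat p z τ m 0) ≠ 0) →
  (∀ τ, -2 ≤ τ → τ < 2 → ∀ m, lat p z τ m 0 ≠ lat p z (τ + 1) m 0) →
  Ok p (lat p z) (leta p (lat p z)) (-2) 2

/-- `x² + (μ - e₁) x + e₂`; at a root `x ≠ μ` of `p` it is `μ x + P / (μ x)`. -/
def chi {K : Type} [Field K] (w : Fin 4 → K) (x : K) : K := x ^ 2 + (w 0 - e1 w) * x + e2 w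

/-- (100 lines; uses `S_Rel`) **Identities of a site.**

Proof.  `pv (pw w) x = (x - w 0) (x - w 1) (x - w 2) (x - w 3)` by `ring`.  `z 2 z' 2 = w 0 e₃`, so `w 0 * e3 w / z 2 = z' 2` and
`w 0 * e3 w / z' 2 = z 2` (`z 2, z' 2 ≠ 0` as `P ≠ 0`).
(1) `ring` after the substitution.  (2) Both sides are polynomials in `x` of degree 2: compare the coefficients, `linear_combination` of `c3`, `c2`, `c1`, `c0`
(it is: `x · (x - μ) J(x) = x Q(x) Q'(μ) + μ (p(x) - Q(x) Q'(x))`, divided by `x`).  (3) `S_Rel` (4) at `x = w i`.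
(4) (1) at `x = w i`.  (5) Multiply by `(w i)²`, use (4) for `z` and for `z'` (whose `J` has `w 0 e₃ / z' 2 = z 2`), (3) and
`(z' 2 - μ x)(z 2 - μ x) = μ x (chi x - z 2 - z' 2)` for `x = w i`, which follows from `x chi(x) = μ x² + e₃ + (x - w 1)(x - w 2)(x - w 3)`. -/
def S_Jx : Prop := ∀ (K : Type) [Field K] (w : Fin 4 → K) (s η : K) (z z' : Fin 3 → K),
  (∀ i, w i ≠ 0) → η ≠ 0 → Rel (pw w) s z z' η →
  (∀ x, x * jv w z x = w 0 * ((x - w 1) * (x - w 2) * (x - w 3)) +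
    (w 0 * e3 w / z 2 - w 0 * x) * qv z x) ∧
  (∀ x, η * (jv w z x * (x - w 0)) =
    η * (qv z x * qv z' (w 0)) - w 0 * (x - s) * (x - z' 0)) ∧
  (∀ i, η * (qv z (w i) * qv z' (w i)) = w i * (w i - s) * (w i - z' 0)) ∧
  (∀ i, i ≠ 0 → w i * jv w z (w i) = (w 0 * e3 w / z 2 - w 0 * w i) * qv z (w i)) ∧
  (∀ i, i ≠ 0 → η * (jv w z (w i) * jv w z' (w i)) =
    w 0 * (chi w (w i) - (z 2 + z' 2)) * (w i - s) * (w i - z' 0)) ∧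
  z 2 * z' 2 = w 0 * e3 w ∧ z 2 ≠ 0 ∧ z' 2 ≠ 0

/-! ## Part 2: the wave functions and the map `B`

`Rw w D τ m x` is the quotient `ψ_(m+1) / ψ_m` of the wave function at the root `x`. -/

/-- `γ_m J_m(x) / (x - s_m)`. -/
def Rw {K : Type} [Field K] (w : Fin 4 → K) (D : ℤ → ℤ → Fin 3 → K) (τ m : ℤ) (x : K) : K :=
  gam w D τ m * jv w (D τ m) x / (x - D τ m 0)

/-- (120 lines; uses `S_Rel`, `S_Jx`) **Nonvanishing.**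

Proof.  Write `s = D τ m 0`.  `pv p s = ∏ (s - w i) ≠ 0`, so `w i ≠ s`.  `S_Rel` (4) for the relation `(τ, m)` at `x = D τ (m+1) 0` and at
`x = D (τ+1) m 0`: `Q_τ Q_(τ+1) = p ≠ 0` there.  (a) `S_Jx` (3).  (b) these values.
(c) `S_Jx` (2) at `x = s` and `x = z' 0`: `J (x) (x - w 0) = Q(x) Q'(w 0) ≠ 0` (also for `z'`, by symmetry, `S_Rel` (3); note `qv ![s, z 1, z 2] = qv z`).
(d) from (b), (a), `w 0 ≠ s`, `nd`.  (e) `S_Jx` (4) and (5): if `J (w i) = 0` then the right side of (5) is `0`, so `chi = z 2 + z' 2 = cst`.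
(f) `cst (τ+1) m = z' 2 + P / z' 2 = z' 2 + z 2`.  (g) `rho` is a quotient of nonzero numbers. -/
def S_Nz : Prop := ∀ (K : Type) [Field K] (w : Fin 4 → K) (D : ℤ → ℤ → Fin 3 → K)
  (H : ℤ → ℤ → K) (lo hi : ℤ), (∀ i, w i ≠ 0) → Ok (pw w) D H lo hi →
  (∀ τ m, lo ≤ τ → τ ≤ hi → ∀ i, w i ≠ D τ m 0) ∧
  (∀ τ m, lo ≤ τ → τ < hi → D τ m 2 ≠ 0 ∧ D (τ + 1) m 2 ≠ 0 ∧
    D τ m 2 * D (τ + 1) m 2 = w 0 * e3 w ∧ cst w D (τ + 1) m = cst w D τ m ∧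
    cst w D τ m = D τ m 2 + D (τ + 1) m 2 ∧
    (∀ i, qv (D τ m) (w i) ≠ 0 ∧ qv (D (τ + 1) m) (w i) ≠ 0) ∧
    qv (D τ m) (D τ (m + 1) 0) ≠ 0 ∧ qv (D (τ + 1) m) (D τ (m + 1) 0) ≠ 0 ∧
    qv (D τ m) (D (τ + 1) m 0) ≠ 0 ∧ qv (D (τ + 1) m) (D (τ + 1) m 0) ≠ 0 ∧
    jv w (D τ m) (D τ (m + 1) 0) ≠ 0 ∧ jv w (D (τ + 1) m) (D τ (m + 1) 0) ≠ 0 ∧
    jv w (D τ m) (D (τ + 1) m 0) ≠ 0 ∧ jv w (D (τ + 1) m) (D (τ + 1) m 0) ≠ 0 ∧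
    gam w D (τ + 1) m ≠ 0 ∧ dlt w D (τ + 1) (m + 1) ≠ 0 ∧ rho w D H (τ + 1) m ≠ 0 ∧
    ∀ i, i ≠ 0 → chi w (w i) ≠ cst w D τ m → jv w (D τ m) (w i) ≠ 0 ∧
      jv w (D (τ + 1) m) (w i) ≠ 0 ∧ Rw w D (τ + 1) m (w i) ≠ 0)

/-- (120 lines; uses `S_Rel`, `S_Jx`, `S_Nz`) **The recurrence.**

Proof.  `s = D τ m 0`, `ŝ = D (τ-1) m 0`, `γ = gam τ m`, `δ = dlt τ m`, `J = jv w (D τ m)`, `J' = jv w (D (τ-1) (m-1))`.  Polynomial identity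
`(chi x - alr) (x - s) (x - ŝ) - γ J(x) (x - ŝ) + δ J'(x) (x - s) = (x - (s + ŝ - w 0)) (x - w 1)(x - w 2)(x - w 3)`   (*)
The coefficients of `x⁴`, `x³` agree, that of `x²` by the definition of `alr`; the difference has degree `≤ 1` and vanishes at `s` and `ŝ`, `s ≠ ŝ`:
at `s`: `γ J(s) (s - ŝ) = -(w 0 - ŝ) ∏_(i≠0) (s - w i)` from the definition of `γ` and `J(s) (s - w 0) = Q_τ(s) Q_(τ-1)(w 0)`, `Q_τ(s) Q_(τ-1)(s) = p(s)`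
(relation `(τ-1, m)`); at `ŝ`: `δ J'(ŝ) (ŝ - s) = (w 0 - s) ∏ (ŝ - w i)` from `J'(ŝ) (ŝ - w 0) = Q_(τ-1,m-1)(ŝ) Q_(τ,m-1)(w 0)` (relation `(τ-1, m-1)`).
At `x = w i` divide (*) by `(x - s)(x - ŝ)`: `chi - alr - Rw m + δ J'(x)/(x - ŝ) = 0`, multiply by `Rw (m-1)`, and
`Rw (m-1) J'(x) / (x - ŝ) = γ_(m-1) J_(τ,m-1)(x) J_(τ-1,m-1)(x) / ((x - s_(τ,m-1)) (x - ŝ)) = γ_(m-1) w 0 (chi - cst) / η` (`S_Jx` (5)), `rho (m-1) = w 0 γ_(m-1) δ_m / η`. -/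
def S_Wv : Prop := ∀ (K : Type) [Field K] (w : Fin 4 → K) (D : ℤ → ℤ → Fin 3 → K)
  (H : ℤ → ℤ → K) (τ : ℤ), (∀ i, w i ≠ 0) → Ok (pw w) D H (τ - 1) τ → ∀ m i, i ≠ 0 →
  Rw w D τ m (w i) * Rw w D τ (m - 1) (w i) =
    (chi w (w i) - alr w D τ m) * Rw w D τ (m - 1) (w i) +
      rho w D H τ (m - 1) * (chi w (w i) - cst w D τ (m - 1))

/-- (120 lines; uses `S_Rel`, `S_Jx`, `S_Nz`) **Evolution.**

Proof.  `s = D τ m 0`, `ŝ = D (τ-1) (m+1) 0`, `s⁺ = D τ (m+1) 0`, `s' = D (τ+1) m 0`, `Q = qv (D τ m)`, `J = jv w (D τ m)`, `η⁻ = H (τ-1) m`, `η = H τ m`, `μ = w 0`.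
Relations: `η⁻ Q_(τ-1) Q = x (x - ŝ)(x - s) + η⁻ p`, `η Q Q_(τ+1) = x (x - s⁺)(x - s') + η p`.  Eliminate `p`, divide by `x` (compare coefficients; the constant terms
of `Q_(τ-1)` and `Q_(τ+1)` are equal): with `v = u_(τ-1) - u_(τ+1)`:  `η (x - s)(x - ŝ) - η⁻ (x - s⁺)(x - s') = η η⁻ v Q(x)` (E2).
(a) `(ŝ - s⁺) η⁻ Q(s') = η Q(ŝ) (s' - s)`: from (E2) at `ŝ`: `-(ŝ - s⁺)(ŝ - s') = η v Q(ŝ)`, at `s'`: `(s' - s)(s' - ŝ) = η⁻ v Q(s')`; if `v ≠ 0` multiply (a) by `v`;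
if `v = 0`: `ŝ = s'` (`ŝ ≠ s⁺`), and (E2) is `η (x - s)(x - ŝ) = η⁻ (x - s⁺)(x - ŝ)`, so `η = η⁻`, `s = s⁺`, and (a) is trivial.
(b) `J(s') (s' - μ) = Q(s') Q_(τ+1)(μ)` (`S_Jx` (2)), `η Q(μ) Q_(τ+1)(μ) = μ (μ - s⁺)(μ - s')`, so `η Q(μ) J(s') = - μ (μ - s⁺) Q(s')`.
(c) `rho = μ γ δ_(m+1) / η⁻`, `δ_(m+1) = (μ - s⁺) Q(ŝ) / (Q(μ) (ŝ - s⁺))`.  `γ J(s') + rho (s' - s) = 0`: divide by `γ`, multiply by `η Q(μ) (ŝ - s⁺) η⁻`: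
`- μ (μ - s⁺) Q(s') (ŝ - s⁺) η⁻ + η μ (μ - s⁺) Q(ŝ) (s' - s) = 0` by (a).
So the linear polynomial is `κ (x - s')`; `κ ≠ 0`: at `x = s` it is `γ J(s) ≠ 0` (`S_Nz`, relation `(τ-1, m)`). -/
def S_Ev : Prop := ∀ (K : Type) [Field K] (w : Fin 4 → K) (D : ℤ → ℤ → Fin 3 → K)
  (H : ℤ → ℤ → K) (τ : ℤ), (∀ i, w i ≠ 0) → Ok (pw w) D H (τ - 1) (τ + 1) → ∀ m, ∃ κ : K, κ ≠ 0 ∧
  ∀ x, gam w D τ m * jv w (D τ m) x + rho w D H τ m * (x - D τ m 0) = κ * (x - D (τ + 1) m 0)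

/-- (120 lines; uses `S_Rel`, `S_Jx`, `S_Nz`) **Uniqueness.**

Proof.  `R_i = Rw w D τ (m-1) (w i) ≠ 0` (`S_Nz`), `ŝ = D (τ-1) m 0`, `J' = jv w (D (τ-1) (m-1))`, `η = H (τ-1) (m-1)`.  Insert the first equation, multiplied by `g g'`, into the second one
and divide by `R_i`:  `g' (1 - g) chi_i - g' (a' - g a) + (ρ₂ - g g' ρ₁) (chi_i - cst) / R_i = 0`, and `(chi_i - cst) / R_i = η J'(w i) / (w 0 γ_(m-1) (w i - ŝ))` (`S_Jx` (5) for the relation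
`(τ-1, m-1)`).  With `k₁ = g' (1 - g)`, `k₀ = - g' (a' - g a)`, `k₂ = (ρ₂ - g g' ρ₁) η / (w 0 γ_(m-1))` the quadratic polynomial
`(k₁ chi x + k₀) (x - ŝ) + k₂ J'(x) - k₁ (x - w 1)(x - w 2)(x - w 3)` vanishes at `w 1`, `w 2`, `w 3` (distinct), so it is `0`.
Coefficient of `x²`: `k₁ (w 0 - e₁ - ŝ) + k₁ e₁ = k₁ (w 0 - ŝ) = 0`, so `k₁ = 0`; at `x = ŝ`: `k₂ J'(ŝ) = 0`, `J'(ŝ) ≠ 0` (`S_Nz`), so `k₂ = 0`; then `k₀ = 0`. -/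
def S_Uq : Prop := ∀ (K : Type) [Field K] (w : Fin 4 → K) (D : ℤ → ℤ → Fin 3 → K)
  (H : ℤ → ℤ → K) (τ m : ℤ), (∀ i, w i ≠ 0) → Function.Injective w → Ok (pw w) D H (τ - 1) τ →
  (∀ i, i ≠ 0 → chi w (w i) ≠ cst w D τ (m - 1)) →
  ∀ (X : Fin 4 → K) (g g' a a' ρ₁ ρ₂ : K), g' ≠ 0 →
  (∀ i, i ≠ 0 → X i * Rw w D τ (m - 1) (w i) =
    (chi w (w i) - a) * Rw w D τ (m - 1) (w i) + ρ₁ * (chi w (w i) - cst w D τ (m - 1))) →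
  (∀ i, i ≠ 0 → g * X i * (g' * Rw w D τ (m - 1) (w i)) =
    (chi w (w i) - a') * (g' * Rw w D τ (m - 1) (w i)) + ρ₂ * (chi w (w i) - cst w D τ (m - 1))) →
  g = 1 ∧ a' = a ∧ ρ₂ = g' * ρ₁

/-- (60 lines) **The Darboux transformation of the quotients.**

Proof.  (1) `R_m S_(m+1) = R_m R_(m+1) + ρ_(m+1) R_m`, insert the recurrence, `R_m = S_m - ρ_m`.
(2) By (1) `R'_m = x - A_m + ρ_m (A_m - c_m) / S_m`, so `R'_m R'_(m-1) = (x - A_m) R'_(m-1) + ρ_m (A_m - c_m) R_(m-1) / S_(m-1)`, and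
`x - c_(m-1) - R'_(m-1) = (A_(m-1) - c_(m-1)) (1 - ρ_(m-1) / S_(m-1)) = (A_(m-1) - c_(m-1)) R_(m-1) / S_(m-1)`. -/
def S_Bk : Prop := ∀ (K : Type) [Field K] (x : K) (R α ρ c : ℤ → K),
  (∀ m, R m * R (m - 1) = (x - α m - ρ (m - 1)) * R (m - 1) + ρ (m - 1) * (x - c (m - 1))) →
  (∀ m, R m + ρ m ≠ 0) →
  (∀ m, R m * (R (m + 1) + ρ (m + 1)) = (x - (α (m + 1) + ρ m - ρ (m + 1))) * (R m + ρ m) +
    ρ m * (α (m + 1) + ρ m - ρ (m + 1) - c m)) ∧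
  ((∀ m, α (m + 1) + ρ m - ρ (m + 1) ≠ c m) → ∀ m,
    let A : ℤ → K := fun k => α (k + 1) + ρ k - ρ (k + 1)
    let R' : ℤ → K := fun k => R k * (R (k + 1) + ρ (k + 1)) / (R k + ρ k)
    let ρ' : ℤ → K := fun k => ρ (k + 1) * (A (k + 1) - c (k + 1)) / (A k - c k)
    R' m * R' (m - 1) = (x - A m - ρ' (m - 1)) * R' (m - 1) + ρ' (m - 1) * (x - c (m - 1)))

/-- (200 lines; uses `S_Rel`, `S_Jx`, `S_Nz`, `S_Wv`, `S_Ev`, `S_Uq`, `S_Bk`) **`T` is `B` in the coordinates of the chain.**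

Proof.  Fix `i ≠ 0`, `x = w i`, `R_m = Rw w D τ m x`, `ρ_m = rho τ m`, `S_m = R_m + ρ_m = κ_m (x - s'_m) / (x - s_m) ≠ 0` (`S_Ev`, `s' = D (τ+1) m 0`, `s = D τ m 0`).
(1) There is `g_m ≠ 0`, the same for `i = 1, 2, 3`, with `R_m S_(m+1) / S_m = g_m Rw w D (τ+2) m x`: the left side is
`γ_m J_m(x) κ_(m+1) (x - s'_(m+1)) / (κ_m (x - s_(m+1)) (x - s'_m))`; by `S_Jx` (5) for the relations `(τ, m)` and `(τ+1, m)` (`c = cst`):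
`J_τ(x) J_(τ+1)(x) η_τ = w 0 (chi - c) (x - s_(m+1)) (x - s'_m)` and `J_(τ+1)(x) J_(τ+2)(x) η_(τ+1) = w 0 (chi - c) (x - s'_(m+1)) (x - s''_m)`, `s'' = D (τ+2) m 0`, so it is
`γ_m κ_(m+1) η_(τ+1) / (κ_m η_τ) · J_(τ+2)(x) / (x - s''_m)`, `g_m = γ_m κ_(m+1) η_(τ+1) / (κ_m η_τ gam (τ+2) m)`.
(2) `A_m ≠ c_m`: otherwise by `S_Bk` (first part) `R_m S_(m+1) / S_m = chi - c_m`, so by (1) `(chi x - c) (x - s'') = g gam'' J''(x)` at `x = w 1, w 2, w 3`; the polynomial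
`(chi x - c)(x - s'') - g gam'' J''(x) - (x - w 1)(x - w 2)(x - w 3)` of degree `≤ 2` has three zeros, the coefficient of `x²` is `w 0 - s''`, but `s'' ≠ w 0` (`S_Nz`).
(3) `S_Bk` (second part) and `S_Wv` for `τ + 2` (`alr = alp + rho (m-1)`) and (1): `S_Uq` at `τ + 2` with `X_i = Rw w D (τ+2) m (w i)`, `g = g_m`, `g' = g_(m-1)`,
`a = alr (τ+2) m`, `a' = A_m + ρ'_(m-1)`, `ρ₁ = rho (τ+2) (m-1)`, `ρ₂ = ρ'_(m-1)` gives `g_m = 1` for all `m`, and the claim.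
`cst (τ+2) = cst τ` by `S_Nz`. -/
def S_TB : Prop := ∀ (K : Type) [Field K] (w : Fin 4 → K) (D : ℤ → ℤ → Fin 3 → K)
  (H : ℤ → ℤ → K) (τ : ℤ), (∀ i, w i ≠ 0) → Function.Injective w →
  Ok (pw w) D H (τ - 1) (τ + 2) → (∀ m i, i ≠ 0 → chi w (w i) ≠ cst w D τ m) → ∀ m,
  let A : ℤ → K := fun k => alp w D H τ (k + 1) + rho w D H τ k - rho w D H τ (k + 1)
  A m ≠ cst w D τ m ∧ alp w D H (τ + 2) m = A m ∧ cst w D (τ + 2) m = cst w D τ m ∧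
    rho w D H (τ + 2) m =
      rho w D H τ (m + 1) * (A (m + 1) - cst w D τ (m + 1)) / (A m - cst w D τ m)

/-! ## Part 3: the trace of the monodromy matrix does not depend on the marking -/

/-- The matrix of a site which acts on linear polynomials `ℓ₀ + ℓ₁ y` (columns `(ℓ₀, ℓ₁)`):
`ℓ ↦ (x - c) ℓ(ŝ) (y - s) - (η/μ) (ℓ₀ J₁ - ℓ₁ J₀) J'(y)`, `s = s_(τ,m)`, `ŝ = s_(τ-1,m+1)`,
`J = J_(τ,m)`, `J' = J_(τ-1,m)`. -/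
def Tx {K : Type} [Field K] (w : Fin 4 → K) (D : ℤ → ℤ → Fin 3 → K) (H : ℤ → ℤ → K) (τ m : ℤ)
    (x : K) : Matrix (Fin 2) (Fin 2) K :=
  (x - cst w D τ m) • !![-D τ m 0, -(D τ m 0 * D (τ - 1) (m + 1) 0); 1, D (τ - 1) (m + 1) 0] -
    (H (τ - 1) m / w 0) • !![jB w (D (τ - 1) m) * jA w (D τ m), -(jB w (D (τ - 1) m) * jB w (D τ m));
      jA w (D (τ - 1) m) * jA w (D τ m), -(jA w (D (τ - 1) m) * jB w (D τ m))]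

/-- `T_0 T_1 … T_(k-1)`. -/
def tpr {K : Type} [Field K] (w : Fin 4 → K) (D : ℤ → ℤ → Fin 3 → K) (H : ℤ → ℤ → K) (τ : ℤ)
    (x : K) : ℕ → Matrix (Fin 2) (Fin 2) K
  | 0 => 1
  | k + 1 => tpr w D H τ x k * Tx w D H τ k x

/-- The chain of the data at the half time `τ`. -/
def thx {K : Type} [Field K] (n : ℕ) [NeZero n] (w : Fin 4 → K) (D : ℤ → ℤ → Fin 3 → K)
    (H : ℤ → ℤ → K) (τ : ℤ) (i : Ix n) : K :=
  if i.2 = 0 then alp w D H τ (i.1 : ℕ) else if i.2 = 1 then rho w D H τ (i.1 : ℕ)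
  else cst w D τ (i.1 : ℕ)

/-- The number `α_m` of the matrices `Tx` in the frames `y - s_(τ,m)`, `y - s_(τ-1,m)`. -/
def aA {K : Type} [Field K] (w : Fin 4 → K) (D : ℤ → ℤ → Fin 3 → K) (H : ℤ → ℤ → K) (τ m : ℤ) :
    K :=
  cst w D τ m - H (τ - 1) m / w 0 * jv w (D (τ - 1) m) (D (τ - 1) m 0) *
    jv w (D τ m) (D τ (m + 1) 0) /
      ((D τ (m + 1) 0 - D (τ - 1) (m + 1) 0) * (D τ m 0 - D (τ - 1) m 0))

/-- The number `ρ_m` of the matrices `Tx` in the frames. -/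
def rA' {K : Type} [Field K] (w : Fin 4 → K) (D : ℤ → ℤ → Fin 3 → K) (H : ℤ → ℤ → K) (τ m : ℤ) :
    K :=
  H (τ - 1) (m + 1) / w 0 * jv w (D τ m) (D (τ - 1) (m + 1) 0) *
    jv w (D (τ - 1) (m + 1)) (D τ (m + 1) 0) * jv w (D τ (m + 1)) (D τ (m + 2) 0) /
      (jv w (D τ m) (D τ (m + 1) 0) * (D τ (m + 2) 0 - D (τ - 1) (m + 2) 0) *
        (D τ (m + 1) 0 - D (τ - 1) (m + 1) 0))

/-- (180 lines; uses `S_Rel`, `S_Jx`, `S_Nz`, `S_Wv`, `S_Uq`) **The chain at the half time `τ + 1` in terms of the half times `τ - 1`, `τ`.**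

Proof.  `s_m = D τ m 0`, `ŝ_m = D (τ-1) (m+1) 0`, `d_m = ŝ_(m-1) - s_m ≠ 0`, `η_m = H (τ-1) m`, `J_m = jv w (D τ m)`, `J'_m = jv w (D (τ-1) m)`, `μ = w 0`, `x = w i`, `i ≠ 0`, `χ = chi w x`, `c_m = cst`.  Put
`α_m = aA = c_m - (η_m/μ) J_m(s_(m+1)) J'_m(ŝ_(m-1)) / (d_m d_(m+1))`, `r_m = -(η_m/μ) J_m(s_(m+1)) J'_m(s_m) / (d_m d_(m+1))`, `q_m = (η_m/μ) J_m(ŝ_m) J'_m(ŝ_(m-1)) / (d_m d_(m+1))`,
`δ_m = (η_m/μ) J_m(ŝ_m) J'_m(s_m) / (d_m d_(m+1))`; then `ρ_m := rA' = δ_m r_(m+1) / r_m`, `q_m r_m = δ_m (α_m - c_m)`.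
(1) `R_m := (η_m/μ) J'_m(x) J_m(ŝ_m) (x - s_(m+1)) / ((x - ŝ_m)(x - s_m) d_(m+1))`.  Put `λ_m = (η_m/μ) J'_m(x) J_m(ŝ_m) / (x - ŝ_m)`.  For a linear polynomial `ℓ`:
`J_m(x) ℓ(ŝ_m) - (x - ŝ_m) (ℓ₀ J₁ - ℓ₁ J₀) = ℓ(x) J_m(ŝ_m)` and `(χ - c_m)(x - s_m)(x - ŝ_m) = (η_m/μ) J_m(x) J'_m(x)` (`S_Jx` (5) for `(τ-1, m)`), so
`(χ - c_m) ℓ(ŝ_m) (x - s_m) - (η_m/μ) (ℓ₀ J₁ - ℓ₁ J₀) J'_m(x) = λ_m ℓ(x)`.  Take `ℓ = y - s_(m+1)` (`ℓ₀ J₁ - ℓ₁ J₀ = - J_m(s_(m+1))`) and `ℓ = y - ŝ_m`, and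
`J'_m(x) = (J'_m(ŝ_(m-1)) (x - s_m) - J'_m(s_m) (x - ŝ_(m-1))) / d_m`, divide by `d_(m+1) (x - s_m)`:
(β1) `R_m = χ - α_m + r_m (x - ŝ_(m-1)) / (x - s_m)`,  (β2) `R_m (x - ŝ_m) / (x - s_(m+1)) = q_m - δ_m (x - ŝ_(m-1)) / (x - s_m)`.
(2) From (β1) for `m`, `m-1` and (β2) for `m-1`: `R_m R_(m-1) = (χ - α_m) R_(m-1) + r_m (q_(m-1) - δ_(m-1) (x - ŝ_(m-2)) / (x - s_(m-1)))
= (χ - α_m) R_(m-1) + r_m q_(m-1) - (r_m δ_(m-1) / r_(m-1)) (R_(m-1) - χ + α_(m-1)) = (χ - α_m - ρ_(m-1)) R_(m-1) + ρ_(m-1) (χ - c_(m-1))`.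
(3) `R_m = h_m Rw w D (τ+1) m x` with `h_m ≠ 0` independent of `i`: `J'_m(x) / ((x - ŝ_m)(x - s_m)) = μ (χ - c_m) / (η_m J_m(x))` and `S_Jx` (5) for `(τ, m)`:
`(χ - c_m) (x - s_(m+1)) / J_m(x) = H τ m · jv w (D (τ+1) m) x / (μ (x - D (τ+1) m 0))`.
(4) `S_Wv` at `τ + 1`, and `S_Uq` at `τ + 1` with `X_i = Rw w D (τ+1) m (w i)`, `g = h_m`, `g' = h_(m-1)`, `a = alr (τ+1) m`, `a' = α_m + ρ_(m-1)`, `ρ₁ = rho (τ+1) (m-1)`, `ρ₂ = ρ_(m-1)`. -/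
def S_Af : Prop := ∀ (K : Type) [Field K] (w : Fin 4 → K) (D : ℤ → ℤ → Fin 3 → K)
  (H : ℤ → ℤ → K) (τ : ℤ), (∀ i, w i ≠ 0) → Function.Injective w →
  Ok (pw w) D H (τ - 1) (τ + 1) → (∀ m i, i ≠ 0 → chi w (w i) ≠ cst w D τ m) → ∀ m,
  alp w D H (τ + 1) m = aA w D H τ m ∧ rho w D H (τ + 1) m = rA' w D H τ m

/-- (200 lines; uses `S_Rel`, `S_Jx`, `S_Nz`, `S_Af`) **The trace in the frames.**

Proof.  Notation of `S_Af`.  `F_m = !![-s_m, -ŝ_(m-1); 1, 1]` (columns `y - s_m`, `y - ŝ_(m-1)`), `det F_m = ŝ_(m-1) - s_m = d_m ≠ 0`.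
`T_m F_(m+1) = F_m G_m` with `G_m = d_(m+1) • !![x - α_m, q_m; r_m, -δ_m]`: the columns are `T_m (y - s_(m+1)) = (x - c) d_(m+1) (y - s_m) + (η/μ) J_m(s_(m+1)) J'_m(y)`,
`T_m (y - ŝ_m) = (η/μ) J_m(ŝ_m) J'_m(y)`, and `J'_m(y) = (J'_m(ŝ_(m-1)) (y - s_m) - J'_m(s_m) (y - ŝ_(m-1))) / d_m`.
By induction `tpr k * F_k = F_0 * G_0 * … * G_(k-1)`; `F_n = F_0` (periodicity), so `trace (tpr n) = trace (G_0 … G_(n-1))`.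
Transpose: `trace (G_(n-1)ᵀ … G_0ᵀ)`, `G_mᵀ = d_(m+1) • !![x - α_m, r_m; q_m, -δ_m]`, and `!![x - α_m, r_m; q_m, -δ_m] = diag(1, r_(m+1))⁻¹ * Lx α_m ρ_m c_m x * diag(1, r_m)`
(`ρ_m (α_m - c_m) = r_(m+1) q_m`, `ρ_m = δ_m r_(m+1) / r_m`), `r_m ≠ 0` and periodic.  So the trace is `∏ d_m · trace (Lx_(n-1) … Lx_0) = ∏ d_m · Hx (thx …) x` (`S_Af`; `Lc θ x k` for `0 ≤ k < n`,
`rs n k = k`).
Product of `ρ`: `∏ ρ_m = ∏ δ_m` (the `r_m` cancel by periodicity) and `(η_m/μ) J_m(ŝ_m) J'_m(s_m) = Q_(τ,m)(ŝ_m) Q_(τ-1,m)(s_m)`: `S_Jx` (2), (3):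
`J_m(ŝ) (ŝ - μ) = Q_τ(ŝ) Q_(τ-1)(μ)`, `J'_m(s) (s - μ) = Q_(τ-1)(s) Q_τ(μ)`, `η Q_(τ-1)(μ) Q_τ(μ) = μ (μ - ŝ)(μ - s)`. -/
def S_Fr : Prop := ∀ (K : Type) [Field K] (n : ℕ) [NeZero n] (w : Fin 4 → K)
  (D : ℤ → ℤ → Fin 3 → K) (H : ℤ → ℤ → K) (τ : ℤ), (∀ i, w i ≠ 0) → Function.Injective w →
  Ok (pw w) D H (τ - 1) (τ + 1) → (∀ m i, i ≠ 0 → chi w (w i) ≠ cst w D τ m) →
  (∀ σ m, D σ (m + n) = D σ m) → (∀ σ m, H σ (m + n) = H σ m) →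
  (∀ x, (tpr w D H τ x n).trace =
    (∏ m ∈ Finset.range n, (D (τ - 1) m 0 - D τ m 0)) * Hx (thx n w D H (τ + 1)) x) ∧
  ∏ m ∈ Finset.range n, rho w D H (τ + 1) m =
    ∏ m ∈ Finset.range n, (qv (D τ m) (D (τ - 1) (m + 1) 0) * qv (D (τ - 1) m) (D τ m 0) /
      (D (τ - 1) m 0 - D τ m 0) ^ 2)

/-- The matrix which intertwines the markings `w 0` and `w 1`. -/
def Wx {K : Type} [Field K] (w : Fin 4 → K) (x : K) : Matrix (Fin 2) (Fin 2) K :=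
  let a := x - (w 0 * w 3 + w 1 * w 2)
  let b := x - (w 0 * w 2 + w 1 * w 3)
  !![-a * w 3 + b * w 2, (b - a) * (w 2 * w 3); a - b, a * w 2 - b * w 3]

/-- (200 lines; uses `S_Rel`, `S_Jx`, `S_Nz`) **The intertwiner of two markings.**

Proof.  `w' = w ∘ Equiv.swap 0 1` (`w' 0 = w 1`, `w' 1 = w 0`, `w' 2 = w 2`, `w' 3 = w 3`); `pw w' = pw w`, `cst` is the same.  `x₃ = w 0 w 2 + w 1 w 3`, `x₄ = w 0 w 3 + w 1 w 2`.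
On linear polynomials `Wx ℓ = (x - x₄) ℓ(w 2) (y - w 3) - (x - x₃) ℓ(w 3) (y - w 2)`.  `Wx = (w 2 - w 3) x • 1 + const` (the coefficient of `x` is `ℓ(w 2)(y - w 3) - ℓ(w 3)(y - w 2) = (w 2 - w 3) ℓ`), and the
coefficients of `x` in `Tx w'` and `Tx w` are the same matrix `E`, so the difference `Δ(x) = Tx w' x * Wx x - Wx x * Tx w x` has degree `≤ 1` in `x`.  It is enough that `Δ(x₃) = Δ(x₄) = 0` (`x₃ ≠ x₄`, as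
`x₃ - x₄ = (w 0 - w 1)(w 2 - w 3)`).  At `x₃`: `Wx ℓ = (x₃ - x₄) ℓ(w 2) (y - w 3)`, and `x₃ = chi w (w 2) = chi w' (w 3)`.  So for all `ℓ`:
(i) `(Tx w x₃ ℓ)(w 2) = λ ℓ(w 2)`, `λ = (η/w 0) J'(w 2) J(ŝ) / (w 2 - ŝ)` (see `S_Af` (1)), (ii) `Tx w' x₃ (y - w 3) = λ' (y - w 3)`, `λ' = (η/w 1) J_(w')(w 3) J'_(w')(s) / (s - w 3)`
(both sides vanish at `y = w 3` by (i) for `w'`, and at `y = s` the left side is `(η/w 1) J_(w')(w 3) J'_(w')(s)`, the right side `λ' (s - w 3)`).  It remains `λ = λ'`.  With `Q = qv (D τ m)`, `Q' = qv (D (τ-1) m)`, `C = D τ m 2`, `C' = D (τ-1) m 2`,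
`C C' = P`: `J_w(x) = (C' - w 0 x) Q(x)/x` at a root `x ≠ w 0`, `J(ŝ) = Q(ŝ) Q'(w 0)/(ŝ - w 0)`, `J'(s) = Q'(s) Q(w 0)/(s - w 0)`:
`λ = (η/w 0) (C - w 0 w 2) Q'(w 2) Q(ŝ) Q'(w 0) / (w 2 (ŝ - w 0)(w 2 - ŝ))`, `λ' = (η/w 1) (C' - w 1 w 3) Q(w 3) Q'(s) Q(w 1) / (w 3 (s - w 1)(s - w 3))`,
`C - w 0 w 2 = -(C / (w 1 w 3)) (C' - w 1 w 3)`, `Q'(w i) = w i (w i - s)(w i - ŝ) / (η Q(w i))`, so `λ = C (C' - w 1 w 3) Q(ŝ) (w 0 - s)(w 2 - s) / (η w 1 w 3 Q(w 0) Q(w 2))`.  Equality is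
`C Q(ŝ) ∏ (s - w i) = η² ∏ Q(w i) Q'(s)`, i.e. (`∏ (s - w i) = Q(s) Q'(s)`) `C Q(s) Q(ŝ) = η² ∏_i Q(w i)` (RS).
(RS): let `A = !![0, -C; 1, -u]`.  `A * A + u • A + C • 1 = 0`, `det (A - x • 1) = Q(x)`, `det A = C`.  `S_Rel` (4) as an identity of the coefficients gives
`η • ∏_i (A - w i • 1) = - A (A - s • 1)(A - ŝ • 1)` (expand both sides in powers of `A`; the coefficients are `c3 … c0`; `Q(A) Q'(A) = 0`).  Take the determinants.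
At `x₄`: the same with `w 2` and `w 3` exchanged (`Wx` changes only the sign). -/
def S_Iw : Prop := ∀ (K : Type) [Field K] (w : Fin 4 → K) (D : ℤ → ℤ → Fin 3 → K)
  (H : ℤ → ℤ → K) (τ : ℤ), (∀ i, w i ≠ 0) → Function.Injective w →
  Ok (pw w) D H (τ - 1) τ → ∀ m x,
  Tx (w ∘ Equiv.swap 0 1) D H τ m x * Wx w x = Wx w x * Tx w D H τ m x

/-- (150 lines; uses `S_Fr`, `S_Iw`, `S_Nz`) **Independence of the marking.**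

Proof.  First `σ = swap 0 1`, `w' = w ∘ σ`: `pw w' = pw w`, `Ok` for `w'`, `chi w' (w' i) ≠ cst`: the numbers `chi w (w i)`, `i ≠ 0`, are the three numbers `w 0 w 1 + w 2 w 3`, `w 0 w 2 + w 1 w 3`,
`w 0 w 3 + w 1 w 2` (`ring`), the same for all markings.  `S_Iw` gives `tpr w' x n * Wx x = Wx x * tpr w x n`; `det (Wx w x) = (w 2 - w 3)² (x - x₃)(x - x₄)`, so for `x ≠ x₃, x₄` the traces agree, and by `S_Fr` (for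
`τ - 1` in place of `τ`) `Hx` agree (`∏ (D …) ≠ 0`).  `Hx θ x` is a polynomial in `x` (e.g. `Hx (C ∘ θ) X` in `K[X]`, `Polynomial.eval`), so they agree for all `x` (`K = ℂ` is infinite).  The product of the `rho`: second
part of `S_Fr`, the right side does not depend on `w`.
If `σ` fixes `0`: `e1`, `e2`, `e3` and so everything is unchanged.  Every `σ` is `swap 0 1` multiplied on both sides by permutations which fix `0`, or fixes `0` (`σ 0 ≠ 0`: with `π = swap 1 (σ 0)`, `swap 0 1 ∘ π ∘ σ` fixes `0`). -/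
def S_Mk : Prop := ∀ (n : ℕ) [NeZero n] (w : Fin 4 → ℂ) (D : ℤ → ℤ → Fin 3 → ℂ)
  (H : ℤ → ℤ → ℂ) (τ : ℤ) (σ : Equiv.Perm (Fin 4)), (∀ i, w i ≠ 0) → Function.Injective w →
  Ok (pw w) D H (τ - 2) τ → (∀ m i, i ≠ 0 → chi w (w i) ≠ cst w D τ m) →
  (∀ σ m, D σ (m + n) = D σ m) → (∀ σ m, H σ (m + n) = H σ m) →
  (∀ x, Hx (thx n (w ∘ σ) D H τ) x = Hx (thx n w D H τ) x) ∧
    ∏ m ∈ Finset.range n, rho (w ∘ σ) D H τ m = ∏ m ∈ Finset.range n, rho w D H τ m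

end Pool.Agent.MP62a5ad.QN
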