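import Pool.Agent.Lib.MP_62a5ad_mp.QN.SpecA

/-!
# MP_62a5ad_mp, project QN: statements of the modules, part B (the chain)

`θ (k, 0) = α_k`, `θ (k, 1) = ρ_k`, `θ (k, 2) = c_k`.  For an integer `m` write `α_m = θ (rs n m, 0)`
and so on.  See the header of `SpecA.lean` for the conventions.
-/

set_option autoImplicit false

namespace Pool.Agent.MP62a5ad.QN

open Matrix
open scoped ContDiff

/-! ## Part 4: the monodromy matrix -/

/-- (80 lines) **Bookkeeping.**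

Proof.  (1) `rs n k` is the residue of `k` modulo `n`: `((rs n k : Fin n) : ℕ) = (k % n).toNat`.  (2) from (1).  (3) Induction on `k`.  (4) Induction on `k` in (3).
(5) Nm (m+1) L_m = Nc (m+1) n * L_m = Nc m (n+1) = L_(m+n) Nc m n = L_m Nm m.  (6) `Nm (m+1) = L_(m+n) * Nc (m+1) (n-1) = L_m * X`, `Nm m = X * L_m`, `X = Nc (m+1) (n-1)`: the traces agree; so the trace does not
depend on `m ∈ ℤ` (induction in both directions).  (7) `det L_k = -ρ_k (x - c_k)`; the product over `m, …, m+n-1` of a function of `rs n k` is the product over `Fin n` (for `m = 0`: `Fin.prod_univ_eq_prod_range`; the determinant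
does not depend on `m` by the argument of (6)).  (8) Induction on `k`. -/
def S_Nm : Prop := ∀ (R : Type) [CommRing R] (n : ℕ) [NeZero n] (θ : Ix n → R) (x : R),
  (∀ (k : Fin n) , rs n ((k : ℕ) : ℤ) = k) ∧
  (∀ k j : ℤ, rs n (k + n) = rs n k ∧ rs n (((rs n k : Fin n) : ℕ) + j) = rs n (k + j) ∧
    rs n (k + 1) = rs n k + 1) ∧
  (∀ (m : ℤ) (k : ℕ), Nc θ x m (k + 1) = Nc θ x (m + 1) k * Lc θ x m) ∧
  (∀ (m : ℤ) (j k : ℕ), Nc θ x m (j + k) = Nc θ x (m + j) k * Nc θ x m j) ∧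
  (∀ m : ℤ, Lc θ x (m + n) = Lc θ x m ∧ Nm θ x (m + 1) * Lc θ x m = Lc θ x m * Nm θ x m) ∧
  (∀ m : ℤ, (Nm θ x m).trace = Hx θ x ∧
    Nm θ x (m + 1) = Lc θ x m * Nc θ x (m + 1) (n - 1) ∧
    Nm θ x m = Nc θ x (m + 1) (n - 1) * Lc θ x m) ∧
  (∀ m : ℤ, (Nm θ x m).det = ∏ k : Fin n, (-(θ (k, 1) * (x - θ (k, 2))))) ∧
  ∀ (S : Type) [CommRing S] (f : R →+* S), (∀ (m : ℤ) (k : ℕ),
    (Nc θ x m k).map f = Nc (fun i => f (θ i)) (f x) m k) ∧ f (Hx θ x) = Hx (fun i => f (θ i)) (f x)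

/-- (80 lines; uses `S_Nm`) **The eigenvalue of a solution of the recurrence.**

Proof.  `φ_m = R_m - (x - α_m)`.  `L_m (1, φ_m)ᵀ = (R_m, ρ_m (α_m - c_m - φ_m))ᵀ = R_m (1, φ_(m+1))ᵀ`: the recurrence at `m + 1` gives `R_m φ_(m+1) = -ρ_m R_m + ρ_m (x - c_m)`.
By induction `Nc θ x 0 k (1, φ_0)ᵀ = (∏_(m<k) R_m) (1, φ_k)ᵀ`, `φ_n = φ_0`.  So `λ = ∏ R_m` is an eigenvalue of `Nm θ x 0`: `det (N - λ) = λ² - trace N λ + det N = 0`. -/
def S_Ei : Prop := ∀ (K : Type) [Field K] (n : ℕ) [NeZero n] (θ : Ix n → K) (x : K) (R : ℤ → K),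
  (∀ m, R m ≠ 0) → (∀ m, R (m + n) = R m) →
  (∀ m, R m * R (m - 1) = (x - θ (rs n m, 0) - θ (rs n (m - 1), 1)) * R (m - 1) +
    θ (rs n (m - 1), 1) * (x - θ (rs n (m - 1), 2))) →
  (∏ m ∈ Finset.range n, R m) ^ 2 - Hx θ x * ∏ m ∈ Finset.range n, R m +
    ∏ k : Fin n, (-(θ (k, 1) * (x - θ (k, 2)))) = 0

/-- (120 lines; uses `S_Nm`) **The invariance under `B` and under the cyclic shift.**

Proof.  `A_m = α_(m+1) + ρ_m - ρ_(m+1)`, `θ' = Bx θ`, `K_m = !![x - α_m + ρ_m, 1; ρ_m (A_m - c_m), 0]`, `L'_m = Lx A_m ρ'_m c_m x`, `ρ'_m (A_m - c_m) = ρ_(m+1) (A_(m+1) - c_(m+1))`.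
`L'_m K_m = K_(m+1) L_m`: four identities (`ring` after this).  So `Nm θ' x 0 * K_0 = K_n * Nm θ x 0`, `K_n = K_0`, `det K_0 = -ρ_0 (A_0 - c_0) ≠ 0`.  The product of the `ρ'` telescopes (`∏_k g (k+1) = ∏_k g k`,
`Equiv.prod_comp` with `Equiv.addRight 1`), the same for the sum of the `A`.  Shift: `Lc (shC j θ) x k = Lc θ x (k + j)`, `Nc (shC j θ) x m k = Nc θ x (m + j) k`, trace of `Nm θ x j`; the map `k ↦ rs n (k + j)` is a bijection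
of `Fin n` (inverse: `-j`). -/
def S_Bh : Prop := ∀ (K : Type) [Field K] (n : ℕ) [NeZero n] (θ : Ix n → K),
  ((∀ k : Fin n, θ (k, 1) ≠ 0 ∧ θ (k + 1, 0) + θ (k, 1) - θ (k + 1, 1) ≠ θ (k, 2)) →
    (∀ x, Hx (Bx θ) x = Hx θ x) ∧ ∏ k : Fin n, Bx θ (k, 1) = ∏ k : Fin n, θ (k, 1) ∧
      ∑ k : Fin n, Bx θ (k, 0) = ∑ k : Fin n, θ (k, 0) ∧ ∀ k : Fin n, Bx θ (k, 2) = θ (k, 2)) ∧
  ∀ j : ℤ, (∀ x, Hx (shC j θ) x = Hx θ x) ∧
    ∏ k : Fin n, shC j θ (k, 1) = ∏ k : Fin n, θ (k, 1) ∧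
    ∑ k : Fin n, shC j θ (k, 0) = ∑ k : Fin n, θ (k, 0) ∧
    ∀ x, ∏ k : Fin n, (x - shC j θ (k, 2)) = ∏ k : Fin n, (x - θ (k, 2))

/-- (100 lines; uses `S_Nm`) **The coefficient of `x^(n-1)`.**

Proof.  `N = Nc (C ∘ θ) X 0 k`, `k ≥ 1`, over `R[X]`.  Induction on `k ≥ 1` (start `k = 1`, `N = L_0`): for all `j > k`: `coeff N_00 j = 0`; `coeff N_00 k = 1`; `coeff N_00 (k-1) = -∑_(i<k) α_i`;
`coeff N_01 j = 0` for `j > k - 1`, `coeff N_01 (k-1) = 1`; `coeff N_10 j = 0` for `j > k - 1`; `coeff N_11 j = 0` for `j > k - 1`.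
Step: `N'_00 = (X - α) N_00 + N_10`: `coeff k` is `coeff N_00 (k-1) - α coeff N_00 k + coeff N_10 k`.  `N'_01 = (X - α) N_01 + N_11`; `N'_10 = ρ (α - c) N_00 - ρ N_10` has degree `≤ k`; `N'_11 = ρ (α - c) N_01 - ρ N_11` has degree `≤ k - 1`.
For `k = n ≥ 2` the degree of `N_11` is `≤ n - 2` (last formula of the step), so `coeff (trace N) (n-1) = coeff N_00 (n-1) = -∑ α`. -/
def S_Dg : Prop := ∀ (R : Type) [CommRing R] (n : ℕ) [NeZero n] (θ : Ix n → R), 2 ≤ n →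
  (Hx (fun i => Polynomial.C (θ i)) Polynomial.X).coeff (n - 1) = -∑ k : Fin n, θ (k, 0)

/-- (150 lines; uses `S_Nm`, `S_Mk`, `S_Dg`) **Reality.**

Proof.  Let `D'`, `H'` be the complex data (casts).  Complex conjugation: all formulas are rational with rational coefficients, so `conj (alp w D' H' τ m) = alp (conj ∘ w) D' H' τ m` and so on, and
`conj (Hx θ x) = Hx (conj ∘ θ) x` for real `x` (`map` of a matrix product under a ring homomorphism).  `conj ∘ w = w ∘ σ` for a permutation `σ`: `pw w` is real, so `∏ (X - w i)` is invariant under conjugation and the set of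
the four (distinct) roots is, too: `σ` from the injectivity.  By `S_Mk` `Hx` and the product are real.  `Σ alp`: by `S_Dg` `Hx θ x = x ^ n - (Σ α) x ^ (n-1) + …`; the polynomial `Hx (C ∘ θ) X` takes real values at all real `x`, so its
coefficients are real (`Polynomial`: conjugate polynomial agrees at infinitely many points). -/
def S_Rea : Prop := ∀ (n : ℕ) [NeZero n] (p : Fin 4 → ℝ) (w : Fin 4 → ℂ) (D : ℤ → ℤ → Fin 3 → ℝ)
  (H : ℤ → ℤ → ℝ) (τ : ℤ), 2 ≤ n → (∀ i, w i ≠ 0) → Function.Injective w → (pw w = fun i => (p i : ℂ)) →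
  Ok p D H (τ - 2) τ → (∀ m i, i ≠ 0 → chi w (w i) ≠ cst w (fun a b c => (D a b c : ℂ)) τ m) →
  (∀ σ m, D σ (m + n) = D σ m) → (∀ σ m, H σ (m + n) = H σ m) →
  (∀ x : ℝ, (Hx (thx n w (fun a b c => (D a b c : ℂ)) (fun a b => (H a b : ℂ)) τ) (x : ℂ)).im = 0) ∧
    (∏ m ∈ Finset.range n, rho w (fun a b c => (D a b c : ℂ)) (fun a b => (H a b : ℂ)) τ m).im = 0 ∧
    (∑ m ∈ Finset.range n, alp w (fun a b c => (D a b c : ℂ)) (fun a b => (H a b : ℂ)) τ m).im = 0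

/-! ## Part 5: the Poisson structure and the integrals -/

/-- (100 lines) **The constant Poisson structure.**

Proof.  Skewness: by cases (`i.2`, `j.2 ∈ {0, 1, 2}`).  `P0 T0 P0 = P0`: `P0` has the blocks `B = 1 - S` (rows `(k, 0)`, columns `(l, 1)`), `B k l = [k = l] - [k = l + 1]`, and `-Bᵀ` (rows `(k, 1)`, columns `(l, 0)`);
`T0` has the block `G` (rows `(k, 1)`, columns `(l, 0)`), `G k l = [l ≠ 0 ∧ l ≤ k]`, and `-Gᵀ`.  `B G B = B`: `(B G) k l = G k l - G (k-1) l` is `[k = l]` for `l ≠ 0`, `k ≠ 0`, it is `0` for `l = 0`, and `-1` for `k = 0`, `l ≠ 0`;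
so `(B G B) k m = B k m` for `k ≠ 0`, and for `k = 0`: `-∑_(l ≠ 0) B l m = B 0 m` as the column sums of `B` are `0`.  The other block is the transpose.
Rank: `P0 v = 0` iff `v (k, 1)` is independent of `k` and `v (k, 0)` is independent of `k`; the kernel is linearly equivalent to `(Fin n → ℝ) × ℝ × ℝ`; rank-nullity, `3 n - (n + 2) = 2 (n - 1)`. -/
def S_P0 : Prop := ∀ (n : ℕ) [NeZero n],
  (∀ i j, P0 n j i = -P0 n i j) ∧ (∀ i j, T0 n j i = -T0 n i j) ∧ P0 n * T0 n * P0 n = P0 n ∧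
    (P0 n).rank = 2 * (n - 1)

/-- The factor which turns `d θ_i` into the `i`-th form (`dα`, `dρ/ρ`, `dc`). -/
noncomputable def lf {n : ℕ} (θ : Ix n → ℂ) (i : Ix n) : ℂ := if i.2 = 1 then (θ i)⁻¹ else 1

/-- The gradient of `Hx` with respect to the forms `dα`, `dρ/ρ`, `dc`. -/
def gr {n : ℕ} [NeZero n] (θ : Ix n → ℂ) (x : ℂ) (i : Ix n) : ℂ :=
  if i.2 = 0 then -Nm θ x (i.1 : ℕ) 0 1 else if i.2 = 1 then Nm θ x ((i.1 : ℕ) + 1) 1 1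
  else -(θ (i.1, 1) * Nc θ x ((i.1 : ℕ) + 1) (n - 1) 0 1)

/-- The integrals: `∏ (i - c_k)`, `i < n`; `∏ ρ_k`; `∑ α_k`; `Hx θ (i - n - 2)`. -/
def fi {n : ℕ} [NeZero n] (θ : Ix n → ℂ) (i : ℕ) : ℂ :=
  if i < n then ∏ k : Fin n, ((i : ℂ) - θ (k, 2)) else if i = n then ∏ k : Fin n, θ (k, 1)
  else if i = n + 1 then ∑ k : Fin n, θ (k, 0) else Hx θ ((i - (n + 2) : ℕ) : ℂ)

/-- The gradients of the integrals with respect to the forms `dα`, `dρ/ρ`, `dc`. -/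
def fr {n : ℕ} [NeZero n] (θ : Ix n → ℂ) (i : ℕ) (l : Ix n) : ℂ :=
  if i < n then (if l.2 = 2 then -∏ k ∈ Finset.univ.erase l.1, ((i : ℂ) - θ (k, 2)) else 0)
  else if i = n then (if l.2 = 1 then ∏ k : Fin n, θ (k, 1) else 0)
  else if i = n + 1 then (if l.2 = 0 then 1 else 0) else gr θ ((i - (n + 2) : ℕ) : ℂ) l

/-- (120 lines; uses `S_Nm`) **The gradient of `Hx`.**

Proof.  `Nc θ x 0 n = ∏` of the matrices `L_k`; the product rule (induction on the length for `Nc (Θ y) x 0 k`): the derivative of `Nc 0 n` in the direction `v` is `∑_(k<n) Nc (k+1) (n-1-k) * L̇_k * Nc 0 k`, where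
`L̇_k = α̇_k • !![-1, 0; ρ_k, 0] + (ρ̇_k/ρ_k) • !![0, 0; ρ_k (α_k - c_k), -ρ_k] + ċ_k • !![0, 0; -ρ_k, 0]`.  Trace: `Nc 0 k * Nc (k+1) (n-1-k) = Nc n k * Nc (k+1) (n-1-k) = Nc (k+1) (n-1) =: E` (periodicity and `S_Nm` (4)), so it is
`∑_k trace (E * L̇_k)`.  `trace (E * !![-1, 0; ρ, 0]) = -E_00 + ρ E_01 = -(E L_k)_01 = -(Nm k)_01`; `trace (E * !![0, 0; ρ (α - c), -ρ]) = ρ (α - c) E_01 - ρ E_11 = (L_k E)_11 = (Nm (k+1))_11`; `trace (E * !![0, 0; -ρ, 0]) = -ρ E_01`. -/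
def S_Gr : Prop := ∀ (n : ℕ) [NeZero n] (Θ : E n → Ix n → ℂ) (y : E n) (x : ℂ),
  (∀ i, DifferentiableAt ℝ (fun y => Θ y i) y) → (∀ k, Θ y (k, 1) ≠ 0) →
  DifferentiableAt ℝ (fun y => Hx (Θ y) x) y ∧ ∀ v, fderiv ℝ (fun y => Hx (Θ y) x) y v =
    ∑ l, gr (Θ y) x l * (lf (Θ y) l * fderiv ℝ (fun y => Θ y l) y v)

/-- (100 lines; uses `S_Gr`) **The gradients of the integrals.**

Proof.  Four cases; for `i < n`: `HasFDerivAt.finset_prod`; for `i = n`: the product rule and `∏_(k ≠ l) θ (k, 1) = (θ (l, 1))⁻¹ ∏ θ (k, 1)`.  Sums over `Ix n = Fin n × Fin 3`: `Fintype.sum_prod_type`, `Fin.sum_univ_three`. -/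
def S_Gd : Prop := ∀ (n : ℕ) [NeZero n] (Θ : E n → Ix n → ℂ) (y : E n) (i : ℕ),
  (∀ i, DifferentiableAt ℝ (fun y => Θ y i) y) → (∀ k, Θ y (k, 1) ≠ 0) →
  DifferentiableAt ℝ (fun y => fi (Θ y) i) y ∧ ∀ v, fderiv ℝ (fun y => fi (Θ y) i) y v =
    ∑ l, fr (Θ y) i l * (lf (Θ y) l * fderiv ℝ (fun y => Θ y l) y v)

/-- (180 lines; uses `S_Nm`, `S_P0`) **Involution.**

Proof.  Write `N = Nm θ x m`, `b = N_01`, `c' = N_10`, `d = N_11`, `H = Hx θ x`, `N_00 = H - d`; `B`, `C`, `D` the entries `01`, `10`, `11` of `Nm θ x (m+1)`, a tilde for `z` in place of `x`.  Relations from `Nm (m+1) * L_m = L_m * Nm m`: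
`ρ B = H - D - d - (x - α) b`, `C = ρ (D - d + (α - c) b)`, `c' = (x - α)(d - D) + ρ B (α - c)`.
(T) `(x - z) (b̃ (D - d) - b (D̃ - d̃)) = k_(m+1) - k_m`, `k_m = b̃ c' + b c̃' - H̃ d - H d̃ + 2 d d̃`: in `k_(m+1)` replace `B̃ C + B C̃` by `ρB̃ (D - d + (α - c) b) + ρB (D̃ - d̃ + (α - c) b̃)`, insert everything; `ring`.
Sum over `m = 0, …, n-1`: `k_n = k_0`, so `(x - z) ∑_m (b̃_m (d_(m+1) - d_m) - b_m (d̃_(m+1) - d̃_m)) = 0`.
The bracket: `∑_(i,j) gr x i P0 i j gr z j = ∑_l ((gα_l(x) - gα_(l+1)(x)) gρ_l(z) - gρ_l(x) (gα_l(z) - gα_(l+1)(z)))`, `gα_l = -b_l`, `gρ_l = d_(l+1)`; shift the index of summation in the terms with `l + 1`: it is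
`∑_l (b_l(x) (d_l(z) - d_(l+1)(z)) - (x ↔ z)) = 0` for `x ≠ z`; for `x = z` it is `0` as `P0` is skew (`S_P0`).
Casimirs (`i < n + 2`): the row sums of the blocks of `P0` are `0`, the `c`-columns are `0`.  The general statement for `i` or `j < n + 2` follows from this and skewness. -/
def S_Iv : Prop := ∀ (n : ℕ) [NeZero n] (θ : Ix n → ℂ) (i j : ℕ),
  (i < n + 2 → ∀ k, ∑ l, ((P0 n k l : ℝ) : ℂ) * fr θ i l = 0) ∧
    ∑ k, ∑ l, fr θ i k * ((P0 n k l : ℝ) : ℂ) * fr θ j l = 0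

/-- (150 lines; uses `S_Nm`) **Independence of the integrals.**

Proof.  `D = D₁ D₂ D₃` as polynomials in the variables `Ix n`: `D₃ = ∏ ρ_k`; `D₂ = det (j, m ↦ ∏_(k ≠ m) (j - c_k))`, `j, m < n`; `D₁ = det` of the `n × n` matrix with the rows `(Nm (j) m)_01`, `j < n - 1`, and the last row `1, …, 1`
(all over `MvPolynomial (Ix n) ℂ` with `θ = X`; `S_Nm` (8) for `eval`).  `D ≠ 0`: `MvPolynomial` is a domain; `D₃ ≠ 0`; `D₂` at `c_k = k` is the determinant of a diagonal matrix with nonzero entries; `D₁` at `ρ = 0`, `α_k = k`: for `ρ = 0`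
`L = !![x - α, 1; 0, 0]` and `(Nm x m)_01 = ∏_(k ≠ m) (x - α_k)` (`k` over `Fin n`; `Nm m = Nc (m+1) (n-1) L_m`, induction), so the row `j < n - 1` has the only nonzero entry `m = j`, and the last row is `1, …, 1`: triangular matrix.
Linear independence: if `∑ a_i fr θ i = 0`: the `α`-part gives `∑_(j<n-1) a_(n+2+j) (-(Nm j m)_01) + a_(n+1) = 0` for all `m`, so (`D₁ ≠ 0`) `a_(n+2+j) = a_(n+1) = 0`; then the `ρ`-part: `a_n ∏ ρ = 0`; then the `c`-part: `D₂ ≠ 0` gives `a_i = 0`, `i < n`. -/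
def S_Li : Prop := ∀ (n : ℕ) [NeZero n], ∃ D : MvPolynomial (Ix n) ℂ, D ≠ 0 ∧
  ∀ θ : Ix n → ℂ, MvPolynomial.eval θ D ≠ 0 →
    LinearIndependent ℂ fun i : Fin (n + 2 + (n - 1)) => fr θ (i : ℕ)

/-- The matrix of the differential of `B` with respect to the forms `dα`, `dρ/ρ`, `dc`; `g k = 1 / (A_k - c_k)`. -/
def KB {n : ℕ} [NeZero n] (θ : Ix n → ℂ) (g : Fin n → ℂ) : Matrix (Ix n) (Ix n) ℂ :=
  let a : Fin n → Ix n → ℂ := fun k j =>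
    (if j = (k + 1, 0) then 1 else 0) + (if j = (k, 1) then θ (k, 1) else 0) -
      (if j = (k + 1, 1) then θ (k + 1, 1) else 0)
  Matrix.of fun i j => if i.2 = 0 then a i.1 j
    else if i.2 = 1 then (if j = (i.1 + 1, 1) then 1 else 0) +
      g (i.1 + 1) * (a (i.1 + 1) j - if j = (i.1 + 1, 2) then 1 else 0) -
      g i.1 * (a i.1 j - if j = (i.1, 2) then 1 else 0)
    else if j = i then 1 else 0

/-- (150 lines) **`B` preserves the Poisson structure.**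

Proof.  Let `⟨u, v⟩ = ∑_(i,j) u i P0 i j v j` (bilinear, skew); the claim is `⟨K i, K j⟩ = P0 i j` for the rows `K i` of `KB`.  With the unit vectors `e`: `⟨e (k, 0), e (l, 1)⟩ = [k = l] - [k = l + 1]`, `⟨e (k, 0), e (l, 0)⟩ = ⟨e (k, 1), e (l, 1)⟩ = 0`,
`⟨e (k, 2), ·⟩ = 0`.  `a_k = e (k+1, 0) + ρ_k e (k, 1) - ρ_(k+1) e (k+1, 1)`.
`⟨a_k, e (l+1, 1)⟩ = [k + 1 = l + 1] - [k + 1 = l + 2] = [k = l] - [k = l + 1]`;  `⟨a_k, a_l⟩ = ρ_l ([k+1 = l] - [k = l]) - ρ_(l+1) ([k = l] - [k = l+1]) - ρ_k ([l+1 = k] - [k = l]) + ρ_(k+1) ([k = l] - [l = k+1]) = 0`.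
So `⟨K (k,0), K (l,0)⟩ = 0`, `⟨K (k,0), K (l,1)⟩ = ⟨a_k, e (l+1, 1)⟩ = P0 (k,0) (l,1)`, and `⟨K (k,1), K (l,1)⟩ = g_(k+1) ⟨a_(k+1), e (l+1,1)⟩ - g_k ⟨a_k, e (l+1,1)⟩ - (k ↔ l)`
`= g_(k+1) ([k+1 = l] - [k = l]) - g_k ([k = l] - [k = l+1]) - g_(l+1) ([l+1 = k] - [k = l]) + g_l ([k = l] - [l = k+1]) = 0`.
Determinant: if `KB *ᵥ v = 0` then `v (k, 2) = 0` (rows `(k, 2)`), `a_k ⬝ v = 0` (rows `(k, 0)`), so `v (k+1, 1) = 0` (rows `(k, 1)`), so `v (k+1, 0) = 0` (rows `(k, 0)`); `Matrix.exists_mulVec_eq_zero_iff`. -/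
def S_KB : Prop := ∀ (n : ℕ) [NeZero n] (θ : Ix n → ℂ) (g : Fin n → ℂ),
  KB θ g * (P0 n).map (fun x : ℝ => (x : ℂ)) * (KB θ g)ᵀ = (P0 n).map (fun x : ℝ => (x : ℂ)) ∧
    (KB θ g).det ≠ 0

/-- The matrix of the forms `dα`, `dρ/ρ`, `dc` at `y`. -/
noncomputable def Jf {n : ℕ} (Θ : E n → Ix n → ℂ) (y : E n) : Matrix (Ix n) (Ix n) ℂ :=
  Matrix.of fun i j => lf (Θ y) i * fderiv ℝ (fun y => Θ y i) y (Pi.single j 1)

/-- (120 lines; uses `S_Nm`, `S_KB`) **The differential of `shC j ∘ B`.**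

Proof.  `A_k = Θ (k+1, 0) + Θ (k, 1) - Θ (k+1, 1)` is differentiable, `ρ'_k = Θ (k+1, 1) (A_(k+1) - Θ (k+1, 2)) / (A_k - Θ (k, 2))`; `dρ'_k / ρ'_k = dρ_(k+1) / ρ_(k+1) + g_(k+1) (dA_(k+1) - dc_(k+1)) - g_k (dA_k - dc_k)`, `dρ_k = ρ_k (dρ_k / ρ_k)`.
So `Jf (Bx ∘ Θ) = KB (Θ y) g * Jf Θ y`, `g k = (A_k - c_k)⁻¹`; the forms of `shC j (Bx Θ)` are the forms `i ↦ (rs n (i.1 + j), i.2)` of `Bx Θ`: the matrix `K = (KB (Θ y) g).submatrix (fun i => (rs n (i.1 + j), i.2)) id`.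
`K P0 Kᵀ` is the submatrix of `KB P0 KBᵀ = P0`, and `P0 (rs n (k + j), a) (rs n (l + j), b) = P0 (k, a) (l, b)`, as `rs n (k + j) = rs n (l + j)` iff `k = l` and `rs n (l + 1 + j) = rs n (l + j) + 1`.  `det K ≠ 0`: the map of the indices is a bijection (`Matrix.det_permute'`), or kernels as in `S_KB`. -/
def S_dB : Prop := ∀ (n : ℕ) [NeZero n] (Θ : E n → Ix n → ℂ) (y : E n) (j : ℤ),
  (∀ i, DifferentiableAt ℝ (fun y => Θ y i) y) → (∀ k, Θ y (k, 1) ≠ 0) →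
  (∀ k : Fin n, Θ y (k + 1, 0) + Θ y (k, 1) - Θ y (k + 1, 1) ≠ Θ y (k, 2)) →
  ∃ K : Matrix (Ix n) (Ix n) ℂ, Jf (fun y => shC j (Bx (Θ y))) y = K * Jf Θ y ∧
    K * (P0 n).map (fun x : ℝ => (x : ℂ)) * Kᵀ = (P0 n).map (fun x : ℝ => (x : ℂ)) ∧ K.det ≠ 0

end Pool.Agent.MP62a5ad.QN
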