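import Pool.Agent.Lib.MP_62a5ad_mp.QN.DefsC

/-!
# MP_62a5ad_mp, project QN: statements of the modules, part C (generic polygons)

`S_Gn`: the generic polygon satisfies `Gd`, and so does its image.

Every `S_X` is proved in its own file `QN/X.lean` (`namespace Pool.Agent.MP62a5ad.QN`) as
`theorem tX (hA : S_A) … : S_X`, `S_A`, … the statements named after `uses`; the docstring contains the
proof.  Auxiliary declarations are private (or named with the prefix `X_`).  `tPer : S_Per` (QN/Per),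
`tNrm : S_Nrm` (QN/Nrm) and the statement `S_Lat` (QN/Lat, with `S_Rel`, QN/Rel) are proved: import the files.

Notation: `ν = r / (n e)`, `g = (1/4)^e`, `M = mono cs` is the monodromy of `ys n`.
-/

set_option autoImplicit false

namespace Pool.Agent.MP62a5ad.QN

open Matrix
open scoped ContDiff
open Pool.Agent.MP62a5ad.PN (V4 M4 e0)

/-! ## Rational functions near a point -/

/-- (150 lines) **The rules for `RA`.**

Proof.  All from the definition: if `f = P/Q` on `{Q ≠ 0}` and `f' = P'/Q'` on `{Q' ≠ 0}`, use the denominator `Q Q'` for the sum and the product; `f⁻¹ = Q/P = (Q Q)/(P Q)` on `{P Q ≠ 0}` (`P(y0) ≠ 0` as `f y0 ≠ 0`, `Q(y0) ≠ 0`).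
`cong`: the equality holds on `{R ≠ 0}`, `R(y0) ≠ 0`; denominator `Q R`, numerator `P R`.  Sums and products: induction over the finset.  `comp`: `MvPolynomial.induction_on P`.  `nz`: on `{P Q ≠ 0}`.
`sm`: at a point of `{Q ≠ 0}` (an open set: `y ↦ eval y Q` is continuous, `MvPolynomial.continuous_eval`) `f` agrees near the point with the quotient of two polynomial functions; these are smooth (`MvPolynomial.induction_on`, coordinates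
`contDiff_apply`), `ContDiffAt.div`, `ContDiffAt.congr_of_eventuallyEq`. -/
def S_RaA : Prop := ∀ (ι : Type) [Fintype ι] (y0 : ι → ℝ), RAt y0

/-- (120 lines; uses `S_RaA`) **The rules for `RM`.**

Proof.  Entries of products are finite sums of products.  `det`: `Matrix.det_apply` is a finite sum of products.  `inv`: `Matrix.inv_def`, `A⁻¹ = Ring.inverse (det A) • adjugate A`, `Ring.inverse_eq_inv'`, `Matrix.adjugate_apply` (the
determinant of an updated matrix, whose entries are entries of `A` or constants).  `zpow`: nonnegative exponents by `pow`; `zpow_negSucc`/`Matrix.zpow_neg`: the inverse of a power, `det (A^k) = (det A)^k ≠ 0`. -/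
def S_RaM : Prop := ∀ (ι : Type) [Fintype ι] (y0 : ι → ℝ), RMt y0

/-- (50 lines; uses `S_RaA`) **The rules for `RP`.**

Proof.  `neg`: multiply with the coefficient `-1` (`S_RaA` `const`); powers, sums, products by induction; the functions are equal by `funext` and `simp`. -/
def S_Rp : Prop := ∀ (ι : Type) [Fintype ι] (y0 : ι → ℝ),
  (∀ F, RP y0 F → RP y0 fun y m m' => -F y m m') ∧
  (∀ F G, RP y0 F → RP y0 G → RP y0 fun y m m' => F y m m' - G y m m') ∧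
  (∀ F (k : ℕ), RP y0 F → RP y0 fun y m m' => F y m m' ^ k) ∧
  (∀ (κ : Type) (s : Finset κ) (F : κ → (ι → ℝ) → ℂ → ℂ → ℂ), (∀ k ∈ s, RP y0 (F k)) →
    RP y0 fun y m m' => ∑ k ∈ s, F k y m m') ∧
  ∀ (κ : Type) (s : Finset κ) (F : κ → (ι → ℝ) → ℂ → ℂ → ℂ), (∀ k ∈ s, RP y0 (F k)) →
    RP y0 fun y m m' => ∏ k ∈ s, F k y m m'

/-- (120 lines; uses `S_RaA`, `S_Nrm`) **Functions of two eigenvalues.**

Proof.  Let `𝓕 = E n → ℝ` (a commutative ring).  (1) Induction over `RP`: there is `Φ : Polynomial (Polynomial 𝓕)` with all `(Φ.coeff a).coeff b` rational at `y0` (`RA`) and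
`G y m m' = ∑_a ∑_b ((Φ.coeff a).coeff b y) m^a m'^b` (as `eval₂`; `evy : 𝓕 →+* ℂ` evaluation at `y`).  (2) Over `𝓕[Y]` let `N₁ = det (∑_a (Φ.coeff a) • M^a)`, `M` the matrix `y ↦ mono (cc n y)` with entries constants of `𝓕[Y]`.
The elements of `𝓕[Y]` with all coefficients `RA` are closed under sums and products (`Polynomial.coeff_mul`), so `N₁` has `RA` coefficients.  `RingHom.map_det`: the value of `N₁` at `y`, `m'` is `det (∑_a Φ_a(y,m') • (cmono (cc n y))^a)`; by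
`S_Nrm` it is `≠ 0` iff `G y m m' ≠ 0` for all roots `m` of `cpl (cc n y)`.  (3) Over `𝓕` let `N₂ = det (∑_b (N₁.coeff b) • M^b)`, an `RA` function; by `S_Nrm` `N₂ y ≠ 0` iff for all roots `m'` the value of `N₁` at `y`, `m'` is `≠ 0`, i.e. iff
`G y m m' ≠ 0` for all pairs of roots.  (4) `N₂ y0 ≠ 0` by hypothesis (the only root at `y0` is `1/4`), so `N₂ y ≠ 0` eventually (`S_RaA` `nz`). -/
def S_N2 : Prop := ∀ (n : ℕ) [NeZero n] (y0 : E n), (∀ m : ℂ, cpl (cc n y0) m = 0 → m = 1 / 4) →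
  ∀ G : E n → ℂ → ℂ → ℂ, RP y0 G → G y0 (1 / 4) (1 / 4) ≠ 0 →
    ∀ᶠ y in ZN y0, ∀ m m' : ℂ, cpl (cc n y) m = 0 → cpl (cc n y) m' = 0 → G y m m' ≠ 0

/-- (30 lines; uses `S_RaA`) **Periodic conditions.**

Proof.  Eventually `cc n y 2 ≠ 0` (a coordinate) and `Q y j` for the finitely many `j = 0, …, n - 1` (`Filter.eventually_all`); every integer is `j + n q`: induction over `q` in both directions. -/
def S_Pd : Prop := ∀ (n : ℕ) [NeZero n] (y0 : E n) (Q : E n → ℤ → Prop), cc n y0 2 ≠ 0 →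
  (∀ y, cc n y 2 ≠ 0 → ∀ m, Q y (m + n) ↔ Q y m) → (∀ m, ∀ᶠ y in ZN y0, Q y m) →
    ∀ᶠ y in ZN y0, ∀ m, Q y m

/-! ## The reference polygon -/

/-- (40 lines) **The number `ν`.**

Proof.  `r` is coprime to `n`, `n ≥ 3`.  If `ν = z` is an integer then `r = n e z`, so `n` divides `r` and `1 = r r' - n c`.  If `ν = 1/2` then `2 r = n e`, so `n` divides `2 r r' = 2 + 2 n c`, so `n ∣ 2`. -/
def S_Nu : Prop := ∀ (n e : ℕ) (r r' c : ℤ), 3 ≤ n → 0 < e → r * r' = 1 + n * c →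
  ∀ ν : ℝ, ν = r / (n * e) → ν ≠ -1 ∧ ν ≠ 0 ∧ ν ≠ 1 ∧ ν ≠ 2 ∧ ν ≠ 1 / 2

/-- (100 lines) **The twisted cubic.**

Proof.  `M gl x = (1/4) gl (x + 1)`: four polynomial identities (`ring` after `ext i; fin_cases i; simp`).  Integer powers: induction (`Matrix.zpow_add_one`, and for negative exponents apply `M^(-1)` to the identity for `x - 1`).
Interpolation: for every component a polynomial identity in `x`, `z`, `v` (`ring`).  Determinant: `Matrix.det_succ_row_zero` or `Matrix.det_apply`, a polynomial identity in `x`, `z` (alternatively: the matrix is the product of the matrix of the coefficients of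
`gl` in the basis `1, x, x², x³`, determinant `4^6/12`, and a Vandermonde matrix, `Matrix.det_vandermonde`, with the differences `z, 2z, 3z, z, 2z, z`).
The last formula: `gl x j • M^j *ᵥ gl y = 4^j lb x j (1/4)^j • gl (y + j)`, and the interpolation with `z = 1`. -/
def S_Gl : Prop := (mono cs).det ≠ 0 ∧ gl 0 = e0 ∧
  (∀ (q : ℤ) (x : ℝ), (mono cs ^ q) *ᵥ gl x = (1 / 4 : ℝ) ^ q • gl (x + q)) ∧
  (∀ x z v : ℝ, ∑ j : Fin 4, lb v j • gl (x + z * ((j : ℕ) : ℝ)) = gl (x + z * v)) ∧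
  (∀ x z : ℝ, (Matrix.of fun i j : Fin 4 => gl (x + z * ((j : ℕ) : ℝ)) i).det = 4096 * z ^ 6) ∧
  ∀ x y : ℝ, (∑ j : Fin 4, gl x j • mono cs ^ (j : ℕ)) *ᵥ gl y = gl (x + y)

/-- (80 lines; uses `S_Gl`) **The vertices of `ys`.**

Proof.  `gl x 0 = -(x-1)(x-2)(x-3)/6 > 0` for `0 ≤ x < 1`.  `vert`: for `j = 0` it is `e0 = gl 0`; for `j ≠ 0` by the definition of `ys`.  `k = n (k / n) + k % n`, `rs n k = k % n`; `pol n y k = M^(k/n) vert (rs n k)` is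
`(1/4)^(k/n) (gl x 0)⁻¹ • gl (x + k/n)` with `x = (k % n)/n`, and `x + (k / n) = k/n` (real quotient). -/
def S_Yp : Prop := ∀ (n : ℕ) [NeZero n], cc n (ys n) = cs ∧
  (∀ j : Fin n, gl (((j : ℕ) : ℝ) / (n : ℝ)) 0 ≠ 0 ∧
    vert n (ys n) j = (gl (((j : ℕ) : ℝ) / (n : ℝ)) 0)⁻¹ • gl (((j : ℕ) : ℝ) / (n : ℝ))) ∧
  ∃ c : ℤ → ℝ, (∀ k, c k ≠ 0) ∧ ∀ k : ℤ, pol n (ys n) k = c k • gl ((k : ℝ) / (n : ℝ))

/-- (120 lines; uses `S_Gl`, `S_Yp`) **The linear relations of `ys`.**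

Proof.  `c` as in `S_Yp`, `x = r m / n`.  `tm^j *ᵥ gl x = g^j • gl (x + e j)` (`tm = M^e`, natural powers are integer powers).  `Bm m` has the columns `c(r m) g^j gl (x + e j)`, so
`det (Bm m) = c(r m)^4 g^6 4096 e^6 ≠ 0`.  `us (m+1) = c(r (m+1)) gl (x + e ν)`, as `e ν = r/n`.  With `β m = c(r (m+1)) / c(r m)` the vector `b j = β g^(-j) lb ν j` satisfies `Bm m *ᵥ b = us (m + 1)` (interpolation), so `bv m = b`.
`pc`: `us 0 = pol 0 = vert 0 = e0 = gl 0`; `Bm 0 *ᵥ (px g) = -(tm^4 *ᵥ e0)`: `gl (4e) - 4 gl (3e) + 6 gl (2e) - 4 gl e + gl 0 = 0` (interpolation with `v = 4`, `x = 0`, `z = e`: `lb 4 = (-1, 4, -6, 4)`). -/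
def S_Yb : Prop := ∀ (n : ℕ) [NeZero n] (e : ℕ) (r : ℤ), 0 < e →
  (∀ m, (Bm n e r (ys n) m).det ≠ 0) ∧ pc n e r (ys n) = px ((1 / 4 : ℝ) ^ e) ∧
  ∃ β : ℤ → ℝ, (∀ m, β m ≠ 0) ∧ ∀ (m : ℤ) (j : Fin 4), bv n e r (ys n) m j =
    β m * ((1 / 4 : ℝ) ^ e)⁻¹ ^ (j : ℕ) * lb ((r : ℝ) / ((n : ℝ) * (e : ℝ))) j

/-- (60 lines; uses `S_Yb`) **The data of `ys` at the time `0`.**

Proof.  Insert (`field_simp`, `ring`).  `s0 = g lb₂/lb₃ + 4 g = g (4 - 3 (ν - 3)/(ν - 2))`; `kap = -β g⁻¹ ν (ν + 1) / (2 (ν - 2))`. -/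
def S_Yd : Prop := ∀ (n : ℕ) [NeZero n] (e : ℕ) (r : ℤ), 0 < e →
  ∀ ν : ℝ, ν = r / (n * e) → ν ≠ -1 → ν ≠ 0 → ν ≠ 1 → ν ≠ 2 →
  ∀ m, bv n e r (ys n) m 3 ≠ 0 ∧ kap n e r (ys n) m ≠ 0 ∧
    dat0 n e r (ys n) m = zx ((1 / 4 : ℝ) ^ e) ν

/-- (120 lines) **The data of `ys` at all times.**

Proof.  `field_simp`, `ring`: `z 2 + z 0 ^ 2 + z 1 z 0 = 27 g² (ν - 1)/((ν + 1)(ν - 2)²)`, `rA = 4 g/(ν (1 - ν))`, `rS = zx g (1-ν) 0`, `rU = zx g (1-ν) 1`, `g⁴/zx g ν 2 = zx g (1-ν) 2`, `z 0 - g = 3 g/(ν - 2)`.  `1 - ν` satisfies the same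
conditions as `ν`, and `1 - (1 - ν) = ν`; so `fwd`, `bwd` exchange the two constant families, and `lat` follows by induction on the number of iterations.  For `ν ≠ 1/2`: `(ν + 1)² ≠ (ν - 2)²`; `rsv (px g) x = (x - 2 g²)³`,
`z 2 + g⁴/z 2 - 2 g² = (z 2 - g²)²/z 2`, and `z 2 = g²` iff `ν = 1/2`; `z 2 = -g²` iff `2 ν² - 2 ν + 2 = 0`, impossible. -/
def S_Yl : Prop := ∀ g ν : ℝ, g ≠ 0 → ν ≠ -1 → ν ≠ 0 → ν ≠ 1 → ν ≠ 2 →
  zx g ν 2 ≠ 0 ∧ zx g ν 2 + zx g ν 0 ^ 2 + zx g ν 1 * zx g ν 0 ≠ 0 ∧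
  rA (px g) (zx g ν 0) (zx g ν 1) (zx g ν 2) ≠ 0 ∧ zx g ν 0 ≠ g ∧
  (fwd (px g) (fun _ => zx g ν) = fun _ => zx g (1 - ν)) ∧
  (bwd (px g) (fun _ => zx g ν) = fun _ => zx g (1 - ν)) ∧
  (∀ τ : ℤ, lat (px g) (fun _ => zx g ν) τ = fun _ => if Even τ then zx g ν else zx g (1 - ν)) ∧
  (∀ x, pv (px g) x = (x - g) ^ 4) ∧
  (ν ≠ 1 / 2 → zx g ν 0 ≠ zx g (1 - ν) 0 ∧ rsv (px g) (zx g ν 2 + px g 0 / zx g ν 2) ≠ 0 ∧
    zx g ν 2 ^ 2 ≠ px g 0)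

/-! ## Rationality of the data -/

/-- (150 lines; uses `S_RaA`, `S_RaM`, `S_Gl`, `S_Yp`, `S_Yb`, `S_Yd`) **The linear data are rational.**

Proof.  The entries of `Mo n y` are constants and coordinates of `y`; `det (Mo n (ys n)) ≠ 0` (`S_Gl`, `S_Yp`).  `vert n y j` has coordinates and constants as entries; `pol`: `zpow` and `vec`.  `Bm`: the entries are components of `tm^j *ᵥ us m`.
`bv`, `pc`: `inv` (`det (Bm (ys) m) ≠ 0`) and `vec`.  `s0`: division by `bv 3`; `kap`; `dat0`: division by `kap`, nonzero at `ys` (`S_Yd`). -/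
def S_Rb : Prop := ∀ (n : ℕ) [NeZero n] (e : ℕ) (r : ℤ), 0 < e →
  ∀ ν : ℝ, ν = r / (n * e) → ν ≠ -1 → ν ≠ 0 → ν ≠ 1 → ν ≠ 2 →
  RM (ys n) (fun y => Mo n y) ∧ RM (ys n) (fun y => tm n e y) ∧
  (∀ k, RV (ys n) fun y => pol n y k) ∧ (∀ m, RM (ys n) fun y => Bm n e r y m) ∧
  RV (ys n) (fun y => pc n e r y) ∧ (∀ m, RV (ys n) fun y => bv n e r y m) ∧
  (∀ m, RA (ys n) fun y => kap n e r y m) ∧ ∀ m, RV (ys n) fun y => dat0 n e r y m

/-- (120 lines; uses `S_RaA`, `S_Yb`, `S_Yd`, `S_Yl`, `S_Rb`) **The data at all times are rational.**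

Proof.  (1) `dat n e r (ys n) = lat (px g) (fun _ => zx g ν)` (`S_Yb`, `S_Yd`), so the first part is in `S_Yl`.  (2) LEMMA: if `z : E n → ℤ → Fin 3 → ℝ` has all `RV (fun y => z y m)` and `z (ys n) m = zx g ν` for all `m` (`ν` or `1 - ν`), then
`fwd (pc y) (z y) m` and `bwd (pc y) (z y) m` are `RV`: `rA` is a quotient whose denominators `C` and `C + s² + u s` are nonzero at `ys` (`S_Yl`), `rS` has the denominator `rA`, `≠ 0` at `ys`; `p 0 / C`.  The values at `ys` are again constant.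
(3) Induction on the number of iterations in `lat` (`Function.iterate_succ_apply'`), with the values at `ys`. -/
def S_Rd : Prop := ∀ (n : ℕ) [NeZero n] (e : ℕ) (r : ℤ), 0 < e →
  ∀ ν : ℝ, ν = r / (n * e) → ν ≠ -1 → ν ≠ 0 → ν ≠ 1 → ν ≠ 2 →
  (∀ τ m : ℤ, dat n e r (ys n) τ m =
    if Even τ then zx ((1 / 4 : ℝ) ^ e) ν else zx ((1 / 4 : ℝ) ^ e) (1 - ν)) ∧
  ∀ τ m : ℤ, RV (ys n) fun y => dat n e r y τ m

/-- (150 lines; uses `S_Gl`, `S_Yp`, `S_Yl`, `S_Rd`) **The image of `ys` is `ys`.**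

Proof.  `N = tm - g • 1` satisfies `N^4 = 0`: `tm *ᵥ gl x = g • gl (x + e)`, so `N^4 *ᵥ gl x = g^4 (gl (x+4e) - 4 gl (x+3e) + 6 gl (x+2e) - 4 gl (x+e) + gl x) = 0` (interpolation, `lb 4 = (-1,4,-6,4)`), and `gl 0, gl 1, gl 2, gl 3` are multiples of
the standard basis.  So `tm - s • 1 = N - (s - g) • 1` is invertible for `s ≠ g` (`IsNilpotent`, or the inverse is explicit).  `dat 0 m 0 = zx g ν 0`, `dat 1 m 0 = zx g (1-ν) 0`, both `≠ g`, so `Gm m =: G` does not depend on `m` and `det G ≠ 0`.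
`P_k = mk (pol k) = c(k) • A(k/n)`, `A x = ∑ gl x j • M^j`, `A x *ᵥ gl y = gl (x + y)` (`S_Gl`), so `A (-x) * A x = 1` (apply it to `gl 0, …, gl 3`) and `det P_k ≠ 0`.  `G` commutes with `M`, so with `P_i` (or: only use
`(G P)⁻¹ G = P⁻¹ G⁻¹ G = P⁻¹`).  `imn k = P_i⁻¹ G⁻¹ G (c(k+i) gl ((k+i)/n)) = (c(k+i)/c(i)) A(-i/n) gl ((k+i)/n) = (c(k+i)/c(i)) gl (k/n)`.  So `imn k 0 ≠ 0` for `0 ≤ k < n`, and `ff (ys) (k, j) = gl (k/n) (j+1) / gl (k/n) 0 = ys (k, j)`. -/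
def S_Yf : Prop := ∀ (n : ℕ) [NeZero n] (e : ℕ) (r r' i : ℤ), 0 < e →
  ∀ ν : ℝ, ν = r / (n * e) → ν ≠ -1 → ν ≠ 0 → ν ≠ 1 → ν ≠ 2 →
  (∀ s : ℝ, s ≠ (1 / 4 : ℝ) ^ e → (tm n e (ys n) - s • 1).det ≠ 0) ∧
  (∀ m, (Gm n e r (ys n) m).det ≠ 0) ∧ (∀ k, (mk n (ys n) (pol n (ys n) k)).det ≠ 0) ∧
  (∀ k : Fin n, imn n e r r' i (ys n) ((k : ℕ) : ℤ) 0 ≠ 0) ∧ ff n e r r' i (ys n) = ys n

/-- (120 lines; uses `S_RaA`, `S_RaM`, `S_Yl`, `S_Rb`, `S_Rd`, `S_Yf`) **The map is rational.**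

Proof.  `tm - s • 1` (`RMt`), its inverse for `s = dat 0 m 0` (`zx g ν 0 ≠ g`, `S_Yf` (1)), `Gm`; `mk n y (pol n y k)` is a finite sum of `v_j • M^j`; the inverse of `Gm * mk` (determinant nonzero at `ys`); `imn`; `ff`: for `a.1 = 0` a coordinate,
otherwise a quotient with `imn … 0 ≠ 0` at `ys`. -/
def S_Rf : Prop := ∀ (n : ℕ) [NeZero n] (e : ℕ) (r r' i : ℤ), 0 < e →
  ∀ ν : ℝ, ν = r / (n * e) → ν ≠ -1 → ν ≠ 0 → ν ≠ 1 → ν ≠ 2 →
  (∀ k, RV (ys n) fun y => imn n e r r' i y k) ∧ RV (ys n) fun y => ff n e r r' i y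

/-! ## The two conditions on the eigenvalues -/

/-- (100 lines) **Divided differences.**

Proof.  `dz`: `Commute.geom_sum₂_mul`/`geom_sum₂_mul`.  (1) Telescoping: `∏ a_j - ∏ b_j = ∑_j (∏_(i<j) b_i) (a_j - b_j) (∏_(j<i<n) a_i)` for `a_j = C_j - x^e`, `b_j = C_j - x'^e`, `a_j - b_j = -(x - x') dz e x x'` (induction on `n`:
`Finset.prod_Ico_succ_top`, or `Finset.prod_range_succ`).  (2) `k ≥ 0`: `x^k q(x) - x'^k q(x') = (x^k - x'^k) q(x) + x'^k (q(x) - q(x'))`.  `k = -κ < 0`: `(x x')^κ (x^k q(x) - x'^k q(x')) = x'^κ q(x) - x^κ q(x') = (x'^κ - x^κ) q(x) + x^κ (q(x) - q(x'))`.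
(3) `dz k h h = k h^(k-1)`, `Dq h h = -n e h^(e-1) (C - h^e)^(n-1)`, `qd h = (C - h^e)^n`. -/
def S_Dz : Prop := ∀ (K : Type) [Field K] (n e : ℕ) (C : ℕ → K) (k : ℤ) (x x' : K), x ≠ 0 → x' ≠ 0 →
  (x ^ k * qd n e C x - x' ^ k * qd n e C x' =
    (if 0 ≤ k then 1 else (x * x') ^ k) * ((x - x') * Sk n e C k x x')) ∧
  ∀ c : K, (∀ j, C j = c) → 1 ≤ n → 1 ≤ e →
    Sk n e C k x x * x = x ^ k.natAbs * (c - x ^ e) ^ (n - 1) * (k * (c - x ^ e) - n * e * x ^ e)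

/-- (60 lines; uses `S_RaA`, `S_Rp`, `S_N2`, `S_Yp`) **The first condition.**

Proof.  `G y m m' = ∑_(a<e) m^a m'^(e-1-a)` is `RP`; at `ys` it is `e (1/4)^(e-1) ≠ 0`; the only root of `cpl cs` is `1/4`: `cpl cs m = (m - 1/4)^4`.  So eventually `G y m m' ≠ 0` for all roots, and `m^e - m'^e = (m - m') G` (`geom_sum₂_mul`). -/
def S_K1 : Prop := ∀ (n : ℕ) [NeZero n] (e : ℕ), 0 < e →
  ∀ᶠ y in ZN (ys n), ∀ m m' : ℂ, cpl (cc n y) m = 0 → cpl (cc n y) m' = 0 → m ≠ m' → m ^ e ≠ m' ^ e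

/-- (150 lines; uses `S_RaA`, `S_Rp`, `S_N2`, `S_Yp`, `S_Yb`, `S_Yl`, `S_Rb`, `S_Rd`, `S_Dz`) **The second condition.**

Proof.  For a root `m` of `cpl c`, `c 2 ≠ 0`: `m ≠ 0` and `c 2 / m = h(m)`, `h(m) = -(m³ - m² + c 0 m - c 1)`.  Put `x = m m'`, `x' = h(m) h(m') / c 2` (so `x' = c 2 / (m m')` for roots) and `C j = P / C_j` (`pc 0 / cm j`).
`G y m m' = Sk n e C (r - n e) x x'` is `RP` (finite sums and products of `RP` functions; `1 / c 2`, `pc 0 / cm j` are `RA`: `c 2 = 1/256`, `cm j = zx g ν 2 ≠ 0` at `ys`; split the `if` on `0 ≤ r - n e`).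
At `ys`, `m = m' = 1/4`: `x = x' = 1/16`, `x^e = g²`, `C j = g⁴ / zx g ν 2 =: c` for all `j`; by `S_Dz` `G` is `≠ 0` iff `c ≠ g²` and `k c - k g² - n e g² ≠ 0`, `k = r - n e = n e (ν - 1)`: `c - g² = g² (4 ν - 2)/((ν - 1)(ν - 2))`, and
`k (c - g²) - n e g² = 3 n e g² ν/(ν - 2)`.  So eventually `G y m m' ≠ 0` for all roots, `cc n y 2 ≠ 0` and all `cm j ≠ 0` (`j < n`).  `Av y h = h^(r - n e) * qd n e C h`, so by `S_Dz`
`Av x - Av x' = (…) (x - x') G` with the first factor `≠ 0`, and `x ≠ x'` as `x² ≠ c 2 = x x'`. -/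
def S_K2 : Prop := ∀ (n : ℕ) [NeZero n] (e : ℕ) (r : ℤ), 0 < e →
  ∀ ν : ℝ, ν = r / (n * e) → ν ≠ -1 → ν ≠ 0 → ν ≠ 1 → ν ≠ 2 → ν ≠ 1 / 2 →
  ∀ᶠ y in ZN (ys n), ∀ m m' : ℂ, cpl (cc n y) m = 0 → cpl (cc n y) m' = 0 →
    (m * m') ^ 2 ≠ cc n y 2 → Av n e r y (m * m') ≠ Av n e r y (cc n y 2 / (m * m'))

/-! ## Assembly -/

/-- (120 lines; uses `S_RaA`, `S_RaM`, `S_Pd`, `S_Per`, `S_Yp`, `S_Yb`, `S_Yd`, `S_Yl`, `S_Rb`, `S_Rd`) **Conditions at every place.**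

Proof.  For fixed `m` every expression is `RA` and `≠ 0` at `ys` (`RAt.nz`, `RMt.det`); `S_Pd` with the periodicity `S_Per` (for `kap`: it is defined by `bv m` and `pc`). -/
def S_Ga : Prop := ∀ (n : ℕ) [NeZero n] (e : ℕ) (r : ℤ), 0 < e →
  ∀ ν : ℝ, ν = r / (n * e) → ν ≠ -1 → ν ≠ 0 → ν ≠ 1 → ν ≠ 2 → ν ≠ 1 / 2 →
  ∀ᶠ y in ZN (ys n), cc n y 2 ≠ 0 ∧ (∀ m, (Bm n e r y m).det ≠ 0) ∧ (∀ m, bv n e r y m 3 ≠ 0) ∧
    (∀ m, kap n e r y m ≠ 0) ∧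
    (∀ m, rsv (pc n e r y) (cm n e r y m + pc n e r y 0 / cm n e r y m) ≠ 0) ∧
    ∀ m, cm n e r y m ^ 2 ≠ pc n e r y 0

/-- (120 lines; uses `S_RaA`, `S_Pd`, `S_Per`, `S_Lat`, `S_Yp`, `S_Yb`, `S_Yd`, `S_Yl`, `S_Rb`, `S_Rd`) **The half times `-2, …, 2`.**

Proof.  The hypotheses of `S_Lat` for `z = dat0 n e r y` (`dat n e r y = lat (pc y) (dat0 y)` by definition): for fixed `τ`, `m` each expression is `RA` and `≠ 0` at `ys` (values `zx g ν` or `zx g (1 - ν)`; `rA` is a quotient with denominators `≠ 0` at `ys`;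
`pv` at `s` is `(s - g)^4`); `S_Pd` with the periodicity of `dat` (`S_Per`). -/
def S_Gb : Prop := ∀ (n : ℕ) [NeZero n] (e : ℕ) (r : ℤ), 0 < e →
  ∀ ν : ℝ, ν = r / (n * e) → ν ≠ -1 → ν ≠ 0 → ν ≠ 1 → ν ≠ 2 → ν ≠ 1 / 2 →
  ∀ᶠ y in ZN (ys n), Ok (pc n e r y) (dat n e r y) (leta (pc n e r y) (dat n e r y)) (-2) 2

/-- (100 lines; uses `S_RaA`, `S_Pd`, `S_Per`, `S_Yp`, `S_Rb`, `S_Rd`, `S_Rf`) **Smoothness.**

Proof.  `contDiffAt_pi` and `RAt.sm` for `ff`, `pc` and, for fixed `m`, for `kap m`, `dat 0 m`, `dat (-1) m`.  For all `m`: `S_Pd` with `Q y m` the smoothness at `y`: for `cc n y 2 ≠ 0` the functions with the indices `m + n` and `m` agree on the open set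
`{cc n · 2 ≠ 0}` (`S_Per`), `ContDiffAt.congr_of_eventuallyEq`. -/
def S_Gs : Prop := ∀ (n : ℕ) [NeZero n] (e : ℕ) (r r' i : ℤ), 0 < e →
  ∀ ν : ℝ, ν = r / (n * e) → ν ≠ -1 → ν ≠ 0 → ν ≠ 1 → ν ≠ 2 →
  ∀ᶠ y in ZN (ys n), ContDiffAt ℝ ∞ (ff n e r r' i) y ∧ ContDiffAt ℝ ∞ (pc n e r) y ∧
    (∀ m, ContDiffAt ℝ ∞ (fun y => kap n e r y m) y) ∧
    ∀ m, ContDiffAt ℝ ∞ (fun y => dat n e r y 0 m) y ∧ ContDiffAt ℝ ∞ (fun y => dat n e r y (-1) m) y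

/-- (60 lines; uses `S_RaA`, `S_Nu`, `S_Yf`, `S_Rf`, `S_Ga`, `S_Gb`, `S_Gs`, `S_K1`, `S_K2`) **Genericity.**

Proof.  `∀ᶠ y in ZN (ys n), Gd n e r r' i y`: all fields by the named statements (`im`: `RAt.nz` for the finitely many `k : Fin n`).  Let `Q` be a polynomial for this set, `Q (ys n) ≠ 0`.  `y ↦ eval (ff y) Q` is `RA` (`RAt.comp`) and its value at `ys` is
`eval (ys n) Q ≠ 0` (`S_Yf`), so `RAt.nz` gives `Q'`. -/
def S_Gn : Prop := ∀ (n : ℕ) [NeZero n] (e : ℕ) (r r' c i : ℤ), 3 ≤ n → 0 < e →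
  r * r' = 1 + n * c → ∃ Q Q' : MvPolynomial (Ix n) ℝ, Q ≠ 0 ∧ Q' ≠ 0 ∧
    (∀ y, MvPolynomial.eval y Q ≠ 0 → Gd n e r r' i y) ∧
    ∀ y, MvPolynomial.eval y Q' ≠ 0 → MvPolynomial.eval (ff n e r r' i y) Q ≠ 0

end Pool.Agent.MP62a5ad.QN
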