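import Pool.Agent.Lib.MP_62a5ad_mp.QN.Base2

/-!
# MP_62a5ad_mp, project QN: statements of the modules, part D (the data of a polygon and of its image)

See the header of `SpecA.lean` for the conventions.  Statements of `SpecF.lean` (`S_Per`, `S_Dd`, …) may be
used; they are proved (`AllF.lean`: `aPer`, …).
-/

set_option autoImplicit false

namespace Pool.Agent.MP62a5ad.QN

open Matrix
open scoped ContDiff
open Pool.Agent.MP62a5ad.PN (V4 M4 e0)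

/-! ## Part 8: eigenvectors, scaling -/

/-- The pairing with the left eigenvector `(1, m, m², m³)` of `mono c`. -/
noncomputable def xi (m : ℂ) (v : V4) : ℂ := ∑ j : Fin 4, m ^ (j : ℕ) * (v j : ℂ)

/-- (150 lines; uses `S_Per`) **The polygon in the eigenvectors.**

Proof.  (1) The row vector `(1, m, m², m³)` times `mono c` is `(m, m², m³, -c₂ + c₁ m - c₀ m² + m³) = m (1, m, m², m³)`, as `cpl c m = 0`.  `m ≠ 0` as `c 2 ≠ 0`.  (2) Induction in both directions (`det (Mo) ≠ 0`: `S_Per`).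
(3) from (1).  (4) `Bm 0 *ᵥ pc = - t⁴ e0` and the columns of `Bm 0` are `t^j e0` (`us 0 = pol 0 = e0`), so `t⁴ e0 + ∑ p_j t^j e0 = 0`; apply `xi m`, `xi m e0 = 1`.
(5) `us (k+1) = Bm k *ᵥ bv k = ∑ b_j t^j us k`; with `μ = m ^ e`: `xi (us (k+1)) = (b_0 + b_1 μ + b_2 μ² + b_3 μ³) xi (us k)`, and `(μ - s)(b_0 + b_1 μ + b_2 μ² + b_3 μ³) = κ (μ² + u μ + C) + b_3 pv p μ + (b_2 - s b_3 - p_3 b_3) μ³`,
the last bracket is `0` by the definition of `s`; `κ u`, `κ C` by the definition of `dat0` (`κ ≠ 0`).  `dat … 0 = dat0 …` (`rfl`).  (6) Induction.  (7) `us n = M^r us 0` (`S_Per`), `xi (us 0) = 1`. -/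
def S_Xi : Prop := ∀ (n : ℕ) [NeZero n] (e : ℕ) (r : ℤ) (y : E n) (m : ℂ), cc n y 2 ≠ 0 →
  cpl (cc n y) m = 0 → (∀ k, (Bm n e r y k).det ≠ 0) → (∀ k, bv n e r y k 3 ≠ 0) →
  (∀ k, kap n e r y k ≠ 0) →
  m ≠ 0 ∧ (∀ v, xi m (Mo n y *ᵥ v) = m * xi m v) ∧
  (∀ (k : ℤ) v, xi m ((Mo n y ^ k) *ᵥ v) = m ^ k * xi m v) ∧
  (∀ v, xi m (tm n e y *ᵥ v) = m ^ e * xi m v) ∧
  pv (fun j => (pc n e r y j : ℂ)) (m ^ e) = 0 ∧
  (∀ k : ℤ, (m ^ e - (dat n e r y 0 k 0 : ℂ)) * xi m (us n r y (k + 1)) =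
    (kap n e r y k : ℂ) * qv (fun j => (dat n e r y 0 k j : ℂ)) (m ^ e) * xi m (us n r y k)) ∧
  (∀ N : ℕ, (∏ j ∈ Finset.range N, (m ^ e - (dat n e r y 0 j 0 : ℂ))) * xi m (us n r y N) =
    ∏ j ∈ Finset.range N,
      ((kap n e r y j : ℂ) * qv (fun i => (dat n e r y 0 j i : ℂ)) (m ^ e))) ∧
  (∏ j ∈ Finset.range n, (m ^ e - (dat n e r y 0 j 0 : ℂ))) * m ^ r =
    ∏ j ∈ Finset.range n, ((kap n e r y j : ℂ) * qv (fun i => (dat n e r y 0 j i : ℂ)) (m ^ e))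

/-- (80 lines) **Symmetric functions of the roots.**

Proof.  (1) Compare the coefficients of the two polynomials (values at five points, or `Polynomial.funext`).  The last identity: `ring` after inserting the sum `1`:
`e₁² e₄ - e₃² = (m₀m₁ - m₂m₃)(m₀m₂ - m₁m₃)(m₀m₃ - m₁m₂)`.  (2) `pv p - pv (pw w)` has degree `≤ 3` and four zeros, so its coefficients vanish (`Matrix.vandermonde` or divided differences).
(3) `ring`.  (4) `ring`. -/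
def S_Pw : Prop :=
  (∀ (m : Fin 4 → ℂ) (c : Fin 3 → ℝ), (∀ x, cpl c x = ∏ i, (x - m i)) →
    m 0 + m 1 + m 2 + m 3 = 1 ∧
    m 0 * m 1 + m 0 * m 2 + m 0 * m 3 + m 1 * m 2 + m 1 * m 3 + m 2 * m 3 = c 0 ∧
    m 0 * m 1 * m 2 + m 0 * m 1 * m 3 + m 0 * m 2 * m 3 + m 1 * m 2 * m 3 = c 1 ∧
    m 0 * m 1 * m 2 * m 3 = c 2 ∧ (∀ i, cpl c (m i) = 0) ∧
    (m 0 * m 1 - m 2 * m 3) * (m 0 * m 2 - m 1 * m 3) * (m 0 * m 3 - m 1 * m 2) =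
      ((c 2 - c 1 ^ 2 : ℝ) : ℂ)) ∧
  (∀ (K : Type) [Field K] (p w : Fin 4 → K), Function.Injective w → (∀ i, pv p (w i) = 0) →
    pw w = p) ∧
  (∀ (K : Type) [Field K] (w : Fin 4 → K) (x : K),
    pv (pw w) x = (x - w 0) * (x - w 1) * (x - w 2) * (x - w 3)) ∧
  ∀ (K : Type) [Field K] (w : Fin 4 → K) (x : K),
    rsv (pw w) x = (x - chi w (w 1)) * (x - chi w (w 2)) * (x - chi w (w 3))

/-- The scaled polynomial. -/
def sp {K : Type} [Field K] (l : K) (p : Fin 4 → K) : Fin 4 → K :=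
  ![l ^ 4 * p 0, l ^ 3 * p 1, l ^ 2 * p 2, l * p 3]

/-- The scaled data. -/
def sz {K : Type} [Field K] (l : K) (z : Fin 3 → K) : Fin 3 → K := ![l * z 0, l * z 1, l ^ 2 * z 2]

/-- (80 lines; uses `S_Rel`) **Scaling, extension of the field.**

Proof.  `rel`: `S_Rel` (5).  `pv (sp l p) (l x) = l⁴ pv p x`.  The other fields are clear.  (4) is the map of the equations. -/
def S_Sc : Prop := ∀ (K : Type) [Field K] (l : K), l ≠ 0 →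
  (∀ (p : Fin 4 → K) (D : ℤ → ℤ → Fin 3 → K) (H : ℤ → ℤ → K) (lo hi : ℤ), Ok p D H lo hi →
    Ok (sp l p) (fun τ m => sz l (D τ m)) (fun τ m => l⁻¹ * H τ m) lo hi) ∧
  (∀ w : Fin 4 → K, pw (fun i => l * w i) = sp l (pw w)) ∧
  (∀ (p : Fin 4 → K) (x : K), rsv (sp l p) (l ^ 2 * x) = l ^ 6 * rsv p x) ∧
  ∀ (L : Type) [Field L] (f : K →+* L) (p : Fin 4 → K) (D : ℤ → ℤ → Fin 3 → K) (H : ℤ → ℤ → K)
    (lo hi : ℤ), Ok p D H lo hi → Ok (fun i => f (p i)) (fun a b c => f (D a b c))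
      (fun a b => f (H a b)) lo hi

/-! ## Part 9: the image, the immersion -/

/-- (250 lines; uses `S_Rel`, `S_Per`) **The data of the image.**

Proof.  `y' = ff y`, `M = Mo y = Mo y'` (`cc y' = cc y` as `ff` does not change the coordinates `(0, ·)`), `t = tm y = tm y'`, `G_m = Gm y m` (periodic in `m`, `dat` is periodic: `S_Per`), `i' = r' i`, `W = (G_(i') mk (pol i))⁻¹`, everything commutes with `M` (`S_Per`, last part: matrices which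
commute with `M` commute with each other; for `G_m`: polynomials in `M` and inverses).  `det (t - x) = pv p x`, so `t - s0`, `t - s1`, `t - s2` are invertible (`Ok.ps`): if `det (t - x • 1) = 0`, `pv p x ≠ 0`: `pv p t = 0` (it kills `e0` by the definition of `pc` and commutes with `M`), and
`pv p t = (t - x) * (…) + pv p x • 1`, so `t - x` has the inverse `-(pv p x)⁻¹ • (…)`; use this.  `mk (pol i)` is invertible: `t^j us m = mk (us m) t^j e0`, so `Bm m = mk (us m) * Bm 0`; `pol i = pol (r (r' i) - n c i) = M^(-c i) us (r' i)`.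
(1) `imn (k + n) = M imn k`, `imn 0 = e0`; `vert y' k = c_k imn k`, `c_k = (imn k 0)⁻¹ ≠ 0` (`k ≠ 0`, `Gd.im`), `c_0 = 1`; so `pol y' k = c_(k mod n) imn k` for all `k ∈ ℤ`.
(2) `us y' m = pol y' (r m) = c W G_(r'(r m + i)) pol y (r m + i)`; `r'(r m + i) = m + n c m + i'`, `r m + i = r (m + i') - n c i`; so `us y' m = c'_m Z G_(m+i') us y (m + i')`, `Z = W M^(-c i)`, `c'_m ≠ 0` a number.
`us y' 0 = e0 = us y 0`, so `Bm y' 0 = Bm y 0`, `pc y' = pc y =: p`.  `Bm y' m = c'_m Z G_(m+i') Bm y (m+i')` (columns `t^j us`), invertible.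
(3) `(t - s_m) X_m = κ_m Q_m(t)` for `X_m = ∑ bv y m j t^j`, `us y (m+1) = X_m us y m` (by the definition of `dat0` and `pv p t = 0`).  With `k = m + i'`: `us y' (m+1) = (c'_(m+1)/c'_m) G_(k+1) G_k⁻¹ X_k us y' m`; the relations `(0, k)`, `(1, k)` at `x = t` (`S_Rel` (4) as
polynomial identities): `η Q0 Q1 = t (t - s0_(k+1)) (t - s1_k)`, `η' Q1 Q2 = t (t - s1_(k+1)) (t - s2_k)` give `G_(k+1) G_k⁻¹ X_k = κ η⁻¹ η' Q2_k(t) (t - s2_k)⁻¹`.  So `(t - s2_k) us y' (m+1) = κ' Q2_k(t) us y' m`, `κ' ≠ 0`.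
(4) Insert `us y' (m+1) = ∑ b'_j t^j us y' m`, `b' = bv y' m`, and `t⁴ = -∑ p_j t^j`; compare the coefficients of `t^j us y' m` (`Bm y' m` is invertible): `b'_2 - s2 b'_3 - p_3 b'_3 = 0`, `b'_1 - s2 b'_2 - p_2 b'_3 = κ'`, `b'_0 - s2 b'_1 - p_1 b'_3 = κ' u2`,
`- s2 b'_0 - p_0 b'_3 = κ' C2`.  `b'_3 ≠ 0`: otherwise `b'_2 = 0`, `b'_1 = κ'`, `b'_0 = κ' (u2 + s2)`, `s2² + u2 s2 + C2 = 0`, but `η' Q1(s2) Q2(s2) = η' pv p s2 ≠ 0`.  So `dat0 y' m = dat y 2 k`.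
(5) `dat y' (-1) = bwd p (dat0 y')`.  The relation `(1, k)` read backwards (`S_Rel` (3)) and `S_Rel` (2) (uniqueness; `Q2(s2) ≠ 0`): `rS p (D2 k) = D1 (k+1) 0`, `rU p (D2 k) = D1 k 1`, `p 0 / D2 k 2 = D1 k 2`; so `dat y' (-1) m = dat y 1 k`. -/
def S_Fy : Prop := ∀ (n : ℕ) [NeZero n] (e : ℕ) (r r' c i : ℤ), r * r' = 1 + n * c →
  ∀ y : E n, Gd n e r r' i y → cc n (ff n e r r' i y) = cc n y ∧
    pc n e r (ff n e r r' i y) = pc n e r y ∧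
    ∀ m, dat n e r (ff n e r r' i y) 0 m = dat n e r y 2 (m + r' * i) ∧
      dat n e r (ff n e r r' i y) (-1) m = dat n e r y 1 (m + r' * i)

/-- (200 lines; uses `S_Per`, `S_Xi`, `S_Pw`, `S_Dd`) **The roots and the data determine the polygon.**

Proof.  `μ_i = m_i ^ e`.  Write `ḟ = dd w f y`.  (a) `w (0, j)` is the derivative of `cc y j` (as a complex function), a polynomial in the `m_i` (`S_Pw`), so it is `0`.
(b) Let `k ∈ Fin n`, `k ≠ 0`, and `N ∈ ℕ`, `N ≡ r' k` modulo `n`, so `r N = k + n l` (`l ∈ ℤ`), `us N = pol (k + n l) = M^l vert k`, `xi m_i (us N) = m_i^l xi m_i (vert k)`.  By `S_Xi` (6), for all `y' ∈ O`: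
`(∏_(j<N) (μ_i - s_j)) m_i^l xi m_i (vert y' k) = ∏_(j<N) κ_j · ∏_(j<N) Q_j(μ_i)`.  Apply `dd w`; all factors except `xi m_i (vert k)` and `∏ κ_j =: f` have derivative `0`, and the derivative of `xi m_i (vert k)` is
`∑_(j<3) m_i^(j+1) w (k, j)`.  Divide by `∏ (μ_i - s_j) m_i^l ≠ 0` (`pv pc s_j ≠ 0`, `pv pc μ_i = 0`, `m_i ≠ 0`) and use the equation itself (`f ≠ 0`):  `∑_(j<3) m_i^(j+1) w (k, j) = (ḟ/f) xi m_i (vert k) = (ḟ/f) (1 + ∑_(j<3) m_i^(j+1) y (k, j))`.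
This holds for the four distinct `m_i`: the cubic polynomial `∑ x^(j+1) (w (k, j) - (ḟ/f) y (k, j)) - ḟ/f` is `0`: `ḟ = 0`, so `w (k, j) = 0`. -/
def S_Im : Prop := ∀ (n : ℕ) [NeZero n] (e : ℕ) (r r' c : ℤ), r * r' = 1 + n * c →
  ∀ (O : Set (E n)) (m : Fin 4 → E n → ℂ) (y : E n) (w : Ix n → ℂ), IsOpen O → y ∈ O →
  (∀ i, DifferentiableAt ℝ (m i) y) → (∀ k, DifferentiableAt ℝ (fun y => kap n e r y k) y) →
  (∀ k, DifferentiableAt ℝ (fun y => dat n e r y 0 k) y) →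
  (∀ y' ∈ O, cc n y' 2 ≠ 0 ∧ (∀ k, (Bm n e r y' k).det ≠ 0) ∧ (∀ k, bv n e r y' k 3 ≠ 0) ∧
    (∀ k, kap n e r y' k ≠ 0) ∧ (∀ k, pv (pc n e r y') (dat n e r y' 0 k 0) ≠ 0) ∧
    Function.Injective (fun i => m i y') ∧ ∀ x, cpl (cc n y') x = ∏ i, (x - m i y')) →
  (∀ i, dd w (m i) y = 0) → (∀ k j, dd w (fun y => ((dat n e r y 0 k j : ℝ) : ℂ)) y = 0) → w = 0

/-! ## Part 10: the eigenvalues of the monodromy matrix of the chain -/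

/-- (60 lines; uses `S_Rel`, `S_Pw`) **The resultant.**

Proof.  `z = (s, u, C)`.  `A = !![0, -C; 1, -u]` satisfies `A * A + u • A + C • 1 = 0`, `det (A - x • 1) = x² + u x + C`, `det A = C`.  `η (A - w 0)(A - w 1)(A - w 2)(A - w 3) = -A (A - s)(A - s')`: expand both sides (`c3, …, c0` are the coefficients of
`η (x² + u x + C) (x² + u' x + C') = x (x - s)(x - s') + η p(x)`) and use `A² = -u A - C`.  Take the determinants (degree 2: `det (η B) = η² det B`, `det (-B) = det B`).  The plain tactic `grind` may also do it. -/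
def S_Rs : Prop := ∀ (K : Type) [Field K] (w : Fin 4 → K) (s η : K) (z z' : Fin 3 → K),
  Rel (pw w) s z z' η → z 2 * qv z s * qv z (z' 0) = η ^ 2 * ∏ i, qv z (w i)

/-- `h^(r - n e) ∏_(j<n) (P / C_j - h^e)`. -/
noncomputable def Aw (n e : ℕ) (r : ℤ) (P : ℂ) (C : ℤ → ℂ) (h : ℂ) : ℂ :=
  h ^ (r - n * e) * ∏ j ∈ Finset.range n, (P / C j - h ^ e)

/-- (250 lines; uses `S_Rel`, `S_Jx`, `S_Nz`, `S_Wv`, `S_Ei`, `S_Rs`, `S_Nm`) **The eigenvalues.**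

Proof.  `w i = m i ^ e`, `P = ∏ w i = δ^e`, `C_j = D 0 j 2`, `C'_j = P / C_j`, `h = m_0 m_a`, `s_j = D 0 j 0`, `ŝ_j = D (-1) j 0`, `η_j = H (-1) j`, `Q_j = qv (D 0 j)`, `Q̂_j = qv (D (-1) j)`, `Θ = Tc`.
(1) `Rw … j (w a) = γ_j (C'_j - w 0 w a) Q_j(w a) / (w a (w a - s_j))` (`S_Jx` (4)); `∏ Q_j(w a)/(w a - s_j) = K' m_a^r`, `w 0 w a = h^e`, `(w a)^(-n) m_a^r = m_a^(r - n e)`, `h^(r - n e) = m_0^(r - n e) m_a^(r - n e)`.
(5) `chi w (w a) = w 0 w a + P / (w 0 w a)` (`ring`: it is `w 0 w a + w b w c`).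
(3) Product of `hK` over `i`: `∏_j ∏_i Q_j(w i)/(w i - s_j) = K'⁴ δ^r`; `∏_i (w i - s_j) = pv p s_j = Q̂_j(s_j) Q_j(s_j)` (relation `(-1, j)`, `S_Rel` (4)); `∏_i Q_j(w i) = C_j Q_j(s_j) Q_j(ŝ_(j+1)) / η_j²` (`S_Rs` for the relation `(-1, j)` read backwards, `S_Rel` (3)).  So
`K'⁴ δ^r = ∏ C_j Q_j(ŝ_(j+1)) / (η_j² Q̂_j(s_j))`.  `∏ ρ_j = ∏ w 0 γ_j δ_(j+1) / η_j`, `∏ δ_(j+1) = ∏ (w 0 - s_j) Q_j(ŝ_(j+1)) / (Q_j(w 0) (ŝ_j - s_j))`, `∏ γ_j = ∏ (w 0 - ŝ_j) Q̂_j(s_j) / (Q̂_j(w 0)(ŝ_j - s_j))` (products over a period may be shifted),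
`∏ η_j Q̂_j(w 0) Q_j(w 0) = ∏ w 0 (w 0 - ŝ_j)(w 0 - s_j)`, `K'² m_0^(2r) = ∏ Q_j(w 0)² / (w 0 - s_j)²`, `Θ² = (∏ γ)² K'² w 0^(2n) m_0^(-2r)`.  Multiply together: `Θ² δ^r = ∏ ρ ∏ C`.
(2) `chi - c_j = (h^e - C_j)(h^e - C'_j)/h^e`, so the left side is `∏ ρ ∏ (h^e - C_j)(C'_j - h^e) h^(-e)`; the right side is `Θ² δ^(r - n e) ∏ C'_j · h^(-n e) ∏ (C'_j - h^e)(h^e - C_j)`, as `P/C_j - (δ/h)^e = C'_j (h^e - C_j)/h^e`; use (3) and `∏ C_j C'_j = δ^(n e)`.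
(4) `S_Wv` at `τ = 0` and `S_Ei` (for the chain `thx`, all functions are periodic, `rs n k`): `λ² - Hx λ + ∏(…) = 0`, `λ = Θ A(h) ≠ 0` (`S_Nz`: `Rw ≠ 0`) and (2). -/
def S_La : Prop := ∀ (n : ℕ) [NeZero n] (e : ℕ) (r : ℤ) (m : Fin 4 → ℂ)
  (D : ℤ → ℤ → Fin 3 → ℂ) (H : ℤ → ℤ → ℂ) (K' : ℂ), (∀ i, m i ≠ 0) → K' ≠ 0 →
  Function.Injective (fun i => m i ^ e) → Ok (pw fun i => m i ^ e) D H (-1) 0 →
  (∀ k i, i ≠ 0 → chi (fun i => m i ^ e) (m i ^ e) ≠ cst (fun i => m i ^ e) D 0 k) →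
  (∀ σ k, D σ (k + n) = D σ k) → (∀ σ k, H σ (k + n) = H σ k) →
  (∀ i, ∏ j ∈ Finset.range n, (qv (D 0 j) (m i ^ e) / (m i ^ e - D 0 j 0)) = K' * m i ^ r) →
  let w : Fin 4 → ℂ := fun i => m i ^ e
  let δ : ℂ := m 0 * m 1 * m 2 * m 3
  let A : ℂ → ℂ := Aw n e r (δ ^ e) fun j => D 0 j 2
  let Tc : ℂ := (∏ j ∈ Finset.range n, gam w D 0 j) * K' * m 0 ^ (n * e - r : ℤ)
  Tc ≠ 0 ∧ Tc ^ 2 * δ ^ r = (∏ j ∈ Finset.range n, rho w D H 0 j) * ∏ j ∈ Finset.range n, D 0 j 2 ∧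
  ∀ a, a ≠ 0 →
    ∏ j ∈ Finset.range n, Rw w D 0 j (w a) = Tc * A (m 0 * m a) ∧ A (m 0 * m a) ≠ 0 ∧
    ∏ k : Fin n, (-(thx n w D H 0 (k, 1) * (chi w (w a) - thx n w D H 0 (k, 2)))) =
      Tc ^ 2 * (A (m 0 * m a) * A (δ / (m 0 * m a))) ∧
    Hx (thx n w D H 0) (chi w (w a)) = Tc * (A (m 0 * m a) + A (δ / (m 0 * m a))) ∧
    chi w (w a) = (m 0 * m a) ^ e + δ ^ e / (m 0 * m a) ^ e

end Pool.Agent.MP62a5ad.QN
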