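import Pool.Agent.Lib.MP_62a5ad_mp.QN.SpecD
import Pool.Agent.Lib.MP_62a5ad_mp.QN.SpecC

/-!
# MP_62a5ad_mp, project QN: statements of the modules, part E (the Jacobian, the assembly)

See the header of `SpecA.lean` for the conventions.  Statements of `SpecF.lean` (`S_Per`, `S_Dd`, `S_Mlt`,
`S_Pol`, …) may be used; they are proved (`AllF.lean`: `aPer`, …).
-/

set_option autoImplicit false

namespace Pool.Agent.MP62a5ad.QN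

open Matrix
open scoped ContDiff
open Pool.Agent.MP62a5ad.PN (V4 M4 e0)

/-! ## Part 11: determined functions -/

/-- The smooth function `g` on `O` is determined by `Θ` to first order. -/
def Dtm {n : ℕ} (O : Set (E n)) (Θ : E n → Ix n → ℂ) (g : E n → ℂ) : Prop :=
  ContDiffOn ℝ ∞ g O ∧ ∀ y ∈ O, ∀ w : Ix n → ℂ, (∀ i, dd w (fun y => Θ y i) y = 0) → dd w g y = 0

/-- A family of polynomials with determined coefficients. -/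
def DtP {n : ℕ} (O : Set (E n)) (Θ : E n → Ix n → ℂ) (F : E n → Polynomial ℂ) : Prop :=
  ∀ k, Dtm O Θ fun y => (F y).coeff k

/-- (120 lines; uses `S_Dd`) **Closure properties.**

Proof.  `S_Dd`, `ContDiffOn.add`, …; integer powers: `zpow` by natural powers and inverses; finite sums and products by induction.  Congruence: `dd` depends only on the germ and `O` is open.
(11) If `g² = f` (or `g + P/g = f`) on `O` and `f` is determined then `g` is: apply `dd w`.  Polynomials: `coeff_add`, `coeff_mul` (finite sum over the antidiagonal), `coeff_C`, `coeff_X_pow`. -/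
def S_Dt : Prop := ∀ (n : ℕ) [NeZero n] (O : Set (E n)) (Θ : E n → Ix n → ℂ), IsOpen O →
  (∀ c : ℂ, Dtm O Θ fun _ => c) ∧
  (∀ f g : E n → ℂ, Dtm O Θ f → Dtm O Θ g → Dtm O Θ (fun y => f y + g y) ∧
    Dtm O Θ (fun y => f y - g y) ∧ Dtm O Θ (fun y => f y * g y) ∧ Dtm O Θ (fun y => -f y) ∧
    (∀ N : ℕ, Dtm O Θ (fun y => f y ^ N)) ∧
    ((∀ y ∈ O, g y ≠ 0) → Dtm O Θ (fun y => (g y)⁻¹) ∧ Dtm O Θ (fun y => f y / g y) ∧
      ∀ N : ℤ, Dtm O Θ (fun y => g y ^ N))) ∧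
  (∀ f g : E n → ℂ, Dtm O Θ f → (∀ y ∈ O, g y = f y) → Dtm O Θ g) ∧
  (∀ (N : ℕ) (f : ℕ → E n → ℂ), (∀ j, Dtm O Θ (f j)) →
    Dtm O Θ (fun y => ∑ j ∈ Finset.range N, f j y) ∧
    Dtm O Θ (fun y => ∏ j ∈ Finset.range N, f j y)) ∧
  (∀ (f : Fin n → E n → ℂ), (∀ j, Dtm O Θ (f j)) →
    Dtm O Θ (fun y => ∑ j, f j y) ∧ Dtm O Θ (fun y => ∏ j, f j y)) ∧
  (∀ f g : E n → ℂ, Dtm O Θ f → ContDiffOn ℝ ∞ g O → (∀ y ∈ O, g y ≠ 0) →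
    ((∀ y ∈ O, g y ^ 2 = f y) → Dtm O Θ g) ∧
    ∀ P : ℂ, (∀ y ∈ O, g y + P / g y = f y) → (∀ y ∈ O, g y ^ 2 ≠ P) → Dtm O Θ g) ∧
  (∀ (f : E n → ℂ), Dtm O Θ f → DtP O Θ fun y => Polynomial.C (f y)) ∧
  (DtP O Θ fun _ => Polynomial.X) ∧
  (∀ F G : E n → Polynomial ℂ, DtP O Θ F → DtP O Θ G → DtP O Θ (fun y => F y + G y) ∧
    DtP O Θ (fun y => F y - G y) ∧ DtP O Θ (fun y => F y * G y) ∧
    ∀ N : ℕ, DtP O Θ (fun y => F y ^ N)) ∧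
  (∀ (N : ℕ) (F : ℕ → E n → Polynomial ℂ), (∀ j, DtP O Θ (F j)) →
    DtP O Θ (fun y => ∑ j ∈ Finset.range N, F j y) ∧
    DtP O Θ (fun y => ∏ j ∈ Finset.range N, F j y)) ∧
  ∀ O' ⊆ O, ∀ g, Dtm O Θ g → Dtm O' Θ g

/-- (80 lines; uses `S_Nm`) **The polynomial `Hx` is monic of degree `n`.**

Proof.  As in `S_Dg` (see `Dg.lean`), for `N = Nc (C ∘ θ) X 0 k`, `k ≥ 1`: `coeff N_00 j = 0` for `j > k`, `coeff N_00 k = 1`, and the coefficients `j ≥ k` of `N_01`, `N_10`, `N_11` are `0`. -/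
def S_Dh : Prop := ∀ (R : Type) [CommRing R] (n : ℕ) [NeZero n] (θ : Ix n → R),
  (Hx (fun i => Polynomial.C (θ i)) Polynomial.X).coeff n = 1 ∧
  ∀ k, n < k → (Hx (fun i => Polynomial.C (θ i)) Polynomial.X).coeff k = 0

/-- The polynomial `X^(|r| + n e) (T (A(X) + A(δ/X)) - q(X^e + P/X^e))`, `P = δ^e`. -/
noncomputable def Fpo (n e : ℕ) (r : ℤ) (T δ : ℂ) (C : ℤ → ℂ) (q : Polynomial ℂ) : Polynomial ℂ :=
  Polynomial.C T * Polynomial.X ^ (r + r.natAbs).toNat *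
      ∏ j ∈ Finset.range n, (Polynomial.C (δ ^ e / C j) - Polynomial.X ^ e) +
    Polynomial.C (T * δ ^ (r - n * e) * ∏ j ∈ Finset.range n, δ ^ e / C j) *
      Polynomial.X ^ ((r.natAbs : ℤ) - r + n * e).toNat *
      ∏ j ∈ Finset.range n, (Polynomial.X ^ e - Polynomial.C (C j)) -
    Polynomial.X ^ r.natAbs * ∑ k ∈ Finset.range (n + 1), Polynomial.C (q.coeff k) *
      Polynomial.X ^ (e * (n - k)) * (Polynomial.X ^ (2 * e) + Polynomial.C (δ ^ e)) ^ k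

/-- (150 lines) **The polynomial for `h`.**

Proof.  `a = |r|`.  (1) `A(h) = h^(r - n e) ∏ (C'_j - h^e)`, `C'_j = δ^e / C_j`; `C'_j - (δ/h)^e = (C'_j / h^e)(h^e - C_j)`, so `A(δ/h) = δ^(r - n e) ∏ C'_j · h^(-r) ∏ (h^e - C_j)`; `r + a ≥ 0`, `a - r ≥ 0`;
`h^(n e) q(h^e + P/h^e) = ∑ q_k h^(e (n-k)) (h^(2 e) + P)^k`.  (2) The three terms have the degrees `r + a + n e`, `a - r + 2 n e`, `a + 2 n e` with the leading coefficients `±T`, `T δ^(r - n e) ∏ C'_j`, `-1` (`q` is monic of degree `n`).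
For `r > n e` the first one is the largest, for `0 < r < n e` the third one, for `r < 0` the second one; so the coefficient of this degree is not `0`.  (3) The degrees are `≤ 2 a + 2 n e`. -/
def S_Fp : Prop := ∀ (n e : ℕ) (r : ℤ) (T δ : ℂ) (C : ℤ → ℂ) (q : Polynomial ℂ),
  0 < n → 0 < e → r ≠ 0 → r ≠ n * e → T ≠ 0 → δ ≠ 0 → (∀ j, C j ≠ 0) → q.coeff n = 1 →
  (∀ k, n < k → q.coeff k = 0) →
  (∀ h : ℂ, h ≠ 0 → (Fpo n e r T δ C q).eval h = h ^ (r.natAbs + n * e) *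
    (T * (Aw n e r (δ ^ e) C h + Aw n e r (δ ^ e) C (δ / h)) - q.eval (h ^ e + δ ^ e / h ^ e))) ∧
  Fpo n e r T δ C q ≠ 0 ∧ (Fpo n e r T δ C q).natDegree ≤ 2 * r.natAbs + 2 * (n * e)

/-- The data on an open set: `m` are the normalised roots, `w = m^e`, `D`, `H` the data at the half
times `-1`, `0`. -/
structure Dta (n : ℕ) [NeZero n] (e : ℕ) (r : ℤ) (O : Set (E n)) (m : E n → Fin 4 → ℂ)
    (D : E n → ℤ → ℤ → Fin 3 → ℂ) (H : E n → ℤ → ℤ → ℂ) (K' : E n → ℂ) (δ : ℂ) : Prop where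
  isOpen : IsOpen O
  sm : ∀ i, ContDiffOn ℝ ∞ (fun y => m y i) O
  sD : ∀ τ, (τ = 0 ∨ τ = -1) → ∀ k j, ContDiffOn ℝ ∞ (fun y => D y τ k j) O
  sH : ∀ k, ContDiffOn ℝ ∞ (fun y => H y (-1) k) O
  sK : ContDiffOn ℝ ∞ K' O
  m0 : ∀ y ∈ O, ∀ i, m y i ≠ 0
  K0 : ∀ y ∈ O, K' y ≠ 0
  inj : ∀ y ∈ O, Function.Injective fun i => m y i ^ e
  ok : ∀ y ∈ O, Ok (pw fun i => m y i ^ e) (D y) (H y) (-1) 0
  ch : ∀ y ∈ O, ∀ k i, i ≠ 0 →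
    chi (fun i => m y i ^ e) (m y i ^ e) ≠ cst (fun i => m y i ^ e) (D y) 0 k
  c2 : ∀ y ∈ O, ∀ k, D y 0 k 2 ^ 2 ≠ δ ^ e
  pD : ∀ y ∈ O, ∀ σ k, D y σ (k + n) = D y σ k
  pH : ∀ y ∈ O, ∀ σ k, H y σ (k + n) = H y σ k
  rel : ∀ y ∈ O, ∀ i, ∏ j ∈ Finset.range n,
    (qv (D y 0 j) (m y i ^ e) / (m y i ^ e - D y 0 j 0)) = K' y * m y i ^ r
  del : ∀ y ∈ O, m y 0 * m y 1 * m y 2 * m y 3 = δ
  n1 : ∀ y ∈ O, ∀ a, a ≠ 0 → (m y 0 * m y a) ^ 2 ≠ δ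
  n2 : ∀ y ∈ O, ∀ a, a ≠ 0 → Aw n e r (δ ^ e) (fun j => D y 0 j 2) (m y 0 * m y a) ≠
    Aw n e r (δ ^ e) (fun j => D y 0 j 2) (δ / (m y 0 * m y a))

/-- The chain of the data. -/
noncomputable def thd (n : ℕ) [NeZero n] (e : ℕ) (m : E n → Fin 4 → ℂ)
    (D : E n → ℤ → ℤ → Fin 3 → ℂ) (H : E n → ℤ → ℤ → ℂ) (y : E n) : Ix n → ℂ :=
  thx n (fun i => m y i ^ e) (D y) (H y) 0

/-- (200 lines; uses `S_Dt`, `S_La`, `S_Nm`, `S_Dh`, `S_Fp`, `S_Mlt`, `S_Nz`, `S_Dd`) **The products `m_0 m_a` are determined on a smaller open set.**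

Proof.  `Θ = thd …`.  `δ ≠ 0`, `P = δ^e`.  (1) `cst = C_j + P / C_j` (`w 0 e₃ = P`) is a component of `Θ` (periodicity: all `j ∈ ℤ`), so `C_j = D 0 j 2` is determined (`S_Dt`, `c2`).  (2) `Tc` of `S_La` is smooth (nonvanishing denominators: `S_Nz`), `≠ 0`, `Tc² = (∏ ρ ∏ C) δ^(-r)`, so it is determined.
(3) `q_y = Hx (C ∘ Θ y) X` is a family with determined coefficients (induction over the product `Nc`, `S_Dt`), monic of degree `n` (`S_Dh`), `q_y.eval x = Hx (Θ y) x` (`S_Nm` (8)).  So `F_y = Fpo n e r (Tc y) δ (C · y) q_y` has determined coefficients, `F_y ≠ 0`, and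
`F_y.eval (m_0 m_a) = 0` for `a ≠ 0` (`S_Fp`, `S_La` (4), (5)).  (4) `S_Mlt` with `N = 2 |r| + 2 n e`, `Φ_k = coeff k`, `h = m_0 m_a`, for `a = 1`, then `a = 2`, `a = 3` on the smaller sets. -/
def S_Ha : Prop := ∀ (n : ℕ) [NeZero n] (e : ℕ) (r : ℤ) (O : Set (E n)) (m : E n → Fin 4 → ℂ)
  (D : E n → ℤ → ℤ → Fin 3 → ℂ) (H : E n → ℤ → ℤ → ℂ) (K' : E n → ℂ) (δ : ℂ),
  0 < e → r ≠ 0 → r ≠ n * e → Dta n e r O m D H K' δ → O.Nonempty →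
  ∃ O' ⊆ O, IsOpen O' ∧ O'.Nonempty ∧
    (∀ a, a ≠ 0 → Dtm O' (thd n e m D H) fun y => m y 0 * m y a) ∧
    ∀ k, Dtm O' (thd n e m D H) fun y => D y 0 k 2

/-- (80 lines) **A quadratic polynomial with three zeros.**

Proof.  `Ĉ = w 0 e₃ / C`.  The polynomial `g J(x)(x - s) + u̇ (Ĉ - w 0 x)(x - s) + ṡ J(x)` of degree `≤ 2` (`J` is linear) vanishes at the distinct `w 1, w 2, w 3`, so all its coefficients are `0`.  At `x = s`: `ṡ J(s) = 0`, so `ṡ = 0`.  Then `g J(x) + u̇ (Ĉ - w 0 x)` is `0` as a linear polynomial.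
At `x = Ĉ / w 0`: `g J(Ĉ/w 0) = 0`.  `J(Ĉ/w 0) ≠ 0`: `x J(x) = w 0 ∏ (x - w i) + (Ĉ - w 0 x) Q(x)` (`ring`), so otherwise `Ĉ = w 0 w i` for some `i ≠ 0`, and `C + Ĉ = w 0 w i + w j w k = chi w (w i)` (`C = P / Ĉ`), a contradiction.  So `g = 0`, and `u̇ (Ĉ - w 0 x) = 0` for all `x` gives `u̇ = 0`. -/
def S_Qd : Prop := ∀ (K : Type) [Field K] (w : Fin 4 → K) (z : Fin 3 → K) (g du ds : K),
  (∀ i, w i ≠ 0) → Function.Injective w → z 2 ≠ 0 → jv w z (z 0) ≠ 0 →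
  (∀ i, i ≠ 0 → chi w (w i) ≠ z 2 + w 0 * e3 w / z 2) →
  (∀ i, i ≠ 0 → g * (jv w z (w i) * (w i - z 0)) +
    du * ((w 0 * e3 w / z 2 - w 0 * w i) * (w i - z 0)) + ds * jv w z (w i) = 0) →
  g = 0 ∧ du = 0 ∧ ds = 0

/-- (250 lines; uses `S_Dt`, `S_Dd`, `S_La`, `S_Wv`, `S_Nz`, `S_Qd`, `S_Rel`) **The data are determined.**

Proof.  Fix `y ∈ O` and `w` with `dd w Θ_i = 0`; write `ḟ`.  (a) `m_0² = h_1 h_2 h_3 / δ` with `h_a = m_0 m_a`, so `m_0` and `m_a = h_a / m_0` are determined (`S_Dt`), so are `w_i = m_i^e`, `chi_a`, `e₁, e₂, e₃`.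
(b) `R_k = Rw w D 0 k (w a)`, `a ≠ 0`, is smooth and `≠ 0` (`S_Nz`), periodic in `k`.  `S_Wv` (`τ = 0`) at all points of `O`: `R_k R_(k-1) = (chi - alr_k) R_(k-1) + ρ_(k-1) (chi - c_(k-1))`, `alr_k = α_k + ρ_(k-1)`; all functions except `R` are determined (components of `Θ`, periodicity).  Apply `dd w`:
`Ṙ_k R_(k-1) = (chi - alr_k - R_k) Ṙ_(k-1)`, so `ε_k = Ṙ_k / R_k` satisfies `ε_k = -ρ_(k-1)(chi - c_(k-1)) / (R_k R_(k-1)) ε_(k-1)`.  After `n` steps: `ε_0 = ε_0 · ∏ (-ρ_k (chi - c_k)) / (∏ R_k)² = ε_0 A(δ/h_a) / A(h_a)` (`S_La`).  By `n2` `ε_0 = 0`, so all `ε_k = 0`, `Ṙ_k = 0`.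
(c) `C_k = D 0 k 2` has `Ċ_k = 0`.  `R_k (w_a - s_k) = γ_k J_k(w_a)`, `J_k(x) = (Ĉ - w 0 (e₁ + u)) x + (w 0 e₂ + Ĉ u - w 0 C)`, so `J̇ = u̇ (Ĉ - w 0 x)`.  `dd w`: `-R ṡ = γ̇ J + γ u̇ (Ĉ - w 0 w_a)`; multiply by `(w_a - s)/γ`: `(γ̇/γ) J (w_a - s) + u̇ (Ĉ - w 0 w_a)(w_a - s) + ṡ J(w_a) = 0`.
`S_Qd` for `z = D 0 k` (`J_k(s_k) ≠ 0`: `S_Nz` for the relation `(-1, k)`) gives `u̇_k = ṡ_k = 0`. -/
def S_Jb : Prop := ∀ (n : ℕ) [NeZero n] (e : ℕ) (r : ℤ) (O : Set (E n)) (m : E n → Fin 4 → ℂ)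
  (D : E n → ℤ → ℤ → Fin 3 → ℂ) (H : E n → ℤ → ℤ → ℂ) (K' : E n → ℂ) (δ : ℂ),
  Dta n e r O m D H K' δ → (∀ a, a ≠ 0 → Dtm O (thd n e m D H) fun y => m y 0 * m y a) →
  (∀ k, Dtm O (thd n e m D H) fun y => D y 0 k 2) →
  (∀ i, Dtm O (thd n e m D H) fun y => m y i) ∧
    ∀ k j, Dtm O (thd n e m D H) fun y => D y 0 k j

/-! ## Part 12: the actual data -/

section

variable (n : ℕ) [NeZero n] (e : ℕ) (r : ℤ)

/-- `|det M|^(-1/4)`. -/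
noncomputable def lo (y : E n) : ℝ := |cc n y 2| ^ (-(1 / 4) : ℝ)

/-- The scaled data. -/
noncomputable def Dn (y : E n) (τ k : ℤ) : Fin 3 → ℝ := sz (lo n y ^ e) (dat n e r y τ k)

/-- The scaled numbers `η`. -/
noncomputable def Hn (y : E n) (τ k : ℤ) : ℝ :=
  (lo n y ^ e)⁻¹ * leta (pc n e r y) (dat n e r y) τ k

/-- The normalised roots. -/
noncomputable def mn (m : Fin 4 → (Fin 3 → ℝ) → ℂ) (y : E n) (i : Fin 4) : ℂ :=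
  (lo n y : ℂ) * m i (cc n y)

/-- The chain of the polygon with the coordinates `y`. -/
noncomputable def TH (m : Fin 4 → (Fin 3 → ℝ) → ℂ) : E n → Ix n → ℂ :=
  thd n e (mn n m) (fun y a b c => (Dn n e r y a b c : ℂ)) (fun y a b => (Hn n e r y a b : ℂ))

/-- The region: the polygons are generic, the functions `m j` are the roots. -/
structure Rg (r' i : ℤ) (m : Fin 4 → (Fin 3 → ℝ) → ℂ) (U : Set (E n)) : Prop where
  isOpen : IsOpen U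
  dense : Dense U
  gd : ∀ y ∈ U, Gd n e r r' i y
  gf : ∀ y ∈ U, Gd n e r r' i (ff n e r r' i y)
  sm : ∀ y ∈ U, ∀ j, ContDiffAt ℝ ∞ (m j) (cc n y)
  rt : ∀ y ∈ U, Function.Injective (fun j => m j (cc n y)) ∧
    ∀ x, cpl (cc n y) x = ∏ j, (x - m j (cc n y))
  c1 : ∀ y ∈ U, cc n y 1 ^ 2 ≠ cc n y 2

end

/-- (200 lines; uses `S_Xi`, `S_Pw`, `S_Sc`, `S_Nz`, `S_Per`) **The facts at a point.**

Proof.  `l = lo y > 0`, `l⁴ |c₂| = 1`.  `μ_j ^ e` are roots of `pv pc` (`S_Xi`, `S_Pw` (1)), distinct by `Gd.k1`, so `pw (μ^e) = pc` (`S_Pw` (2)) and `pw (m^e) = sp (l^e) pc` (`S_Sc` (2), `(l μ)^e = l^e μ^e`).  `Ok`: `Gd.ok`, `S_Sc` (1), (4).  `chi ≠ cst`: `rsv (pw w)` vanishes at `chi w (w i)` (`S_Pw` (4)) and not at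
`l^(2 e) (C + P/C)` (`Gd.rv`, `S_Sc` (3)); `cst w D τ k = cst w D 0 k` for `-2 ≤ τ ≤ 2` by `S_Nz` in steps.  `C² ≠ P`: `Gd.cp`, `l^(4 e) P`.  Product of the roots `l⁴ c₂ = c₂/|c₂|`.  `K' = l^(e n) l^(-r) / ∏ κ_j`: `S_Xi` (8): `∏ Q_j(μ^e)/(μ^e - s_j) = μ^r / ∏ κ_j`, the scaled quotient is `l^e` times
the quotient, `μ^r = l^(-r) m^r`.  `n1`: `(l² μ_0 μ_a)² = l⁴ (μ_0 μ_a)²`, and `(μ_0 μ_a)² = c₂ = μ_0 μ_a μ_b μ_c` would give `μ_0 μ_a = μ_b μ_c` and `c₁² = c₂` (`S_Pw` (1)).  `n2`: `Gd.k2` and homogeneity: `Aw … (P', C', l² h) = l^(2 r) Av … h` for the scaled data (`P'/C' - (l² h)^e = l^(2 e) (P/C - h^e)`),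
`δ'/(l² h) = l² (c₂/h)`. -/
def S_Dn : Prop := ∀ (n : ℕ) [NeZero n] (e : ℕ) (r r' i : ℤ) (y : E n) (μ : Fin 4 → ℂ),
  Gd n e r r' i y → Function.Injective μ → (∀ x, cpl (cc n y) x = ∏ j, (x - μ j)) →
  cc n y 1 ^ 2 ≠ cc n y 2 →
  let m : Fin 4 → ℂ := fun j => (lo n y : ℂ) * μ j
  let w : Fin 4 → ℂ := fun j => m j ^ e
  let D : ℤ → ℤ → Fin 3 → ℂ := fun a b c => (Dn n e r y a b c : ℂ)
  let H : ℤ → ℤ → ℂ := fun a b => (Hn n e r y a b : ℂ)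
  let δ : ℂ := ((cc n y 2 / |cc n y 2| : ℝ) : ℂ)
  lo n y ≠ 0 ∧ (∀ j, m j ≠ 0) ∧ (∀ j, w j ≠ 0) ∧ Function.Injective w ∧
  (pw w = fun j => ((sp (lo n y ^ e) (pc n e r y) j : ℝ) : ℂ)) ∧
  Ok (sp (lo n y ^ e) (pc n e r y)) (Dn n e r y) (Hn n e r y) (-2) 2 ∧ Ok (pw w) D H (-2) 2 ∧
  (∀ τ, -2 ≤ τ → τ ≤ 2 → ∀ k a, a ≠ 0 → chi w (w a) ≠ cst w D τ k) ∧
  (∀ k, D 0 k 2 ^ 2 ≠ δ ^ e) ∧ (∀ σ k, Dn n e r y σ (k + n) = Dn n e r y σ k) ∧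
  (∀ σ k, Hn n e r y σ (k + n) = Hn n e r y σ k) ∧
  (∀ j, ∏ k ∈ Finset.range n, (qv (D 0 k) (w j) / (w j - D 0 k 0)) =
    (((lo n y ^ (e * n) * lo n y ^ (-r)) / ∏ k ∈ Finset.range n, kap n e r y k : ℝ) : ℂ) *
      m j ^ r) ∧
  m 0 * m 1 * m 2 * m 3 = δ ∧ (∀ a, a ≠ 0 → (m 0 * m a) ^ 2 ≠ δ) ∧
  ∀ a, a ≠ 0 → Aw n e r (δ ^ e) (fun j => D 0 j 2) (m 0 * m a) ≠
    Aw n e r (δ ^ e) (fun j => D 0 j 2) (δ / (m 0 * m a))

/-- (120 lines; uses `S_Dn`, `S_Nz`) **Smoothness of the chain.**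

Proof.  `cc` is linear, `lo` is smooth where `c₂ ≠ 0` (`Real.rpow` of a positive smooth function; `|·|` is smooth away from `0`), `dat 0`, `dat (-1)` are smooth at `y` (`Gd.sd`), `leta (-1) = (… )⁻¹` with a nonzero denominator (`Ok.eta`), `pc` (`Gd.sp`).  The denominators of `gam`, `dlt`, `rho`, `alp`, `cst` at `τ = 0` do not vanish at `y`
(`S_Nz` for the relation `(-1, k)`: `qv (w 0) ≠ 0`, `D (-1) k 0 ≠ D 0 k 0`, `C ≠ 0`, `H ≠ 0`). -/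
def S_Ts : Prop := ∀ (n : ℕ) [NeZero n] (e : ℕ) (r r' i : ℤ) (y : E n)
  (m : Fin 4 → (Fin 3 → ℝ) → ℂ), Gd n e r r' i y → (∀ j, ContDiffAt ℝ ∞ (m j) (cc n y)) →
  Function.Injective (fun j => m j (cc n y)) → (∀ x, cpl (cc n y) x = ∏ j, (x - m j (cc n y))) →
  cc n y 1 ^ 2 ≠ cc n y 2 → ContDiffAt ℝ ∞ (TH n e r m) y ∧ ∀ k, TH n e r m y (k, 1) ≠ 0

/-- (150 lines; uses `S_Fy`, `S_Dn`, `S_TB`, `S_Nm`) **The map in the coordinates of the chain.**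

Proof.  `y' = ff y`: `cc y' = cc y`, so `lo`, the roots and `w` agree; by `S_Fy` `dat y' 0 k = dat y 2 (k + r' i)`, `dat y' (-1) k = dat y 1 (k + r' i)`, so also `leta … (-1) k` of `y'` is `leta … 1 (k + r' i)` of `y`.  `gam w D' 0 k` uses only `D' (-1)`, `D' 0`: it is `gam w D 2 (k + r' i)`, and so on:
`alp w D' H' 0 k = alp w D H 2 (k + r' i)`, `rho`, `cst`.  `S_TB` at `τ = 0` (`Ok … (-1) 2` from `Ok … (-2) 2`) and periodicity: this is `Bx (TH y)` at the index `rs n (k + r' i)` (`alp w D H 0 k = TH y (rs n k, 0)` for all `k ∈ ℤ`, `rs n (k + 1) = rs n k + 1`: `S_Nm` (2)). -/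
def S_Ty : Prop := ∀ (n : ℕ) [NeZero n] (e : ℕ) (r r' c i : ℤ), r * r' = 1 + n * c →
  ∀ (y : E n) (m : Fin 4 → (Fin 3 → ℝ) → ℂ), Gd n e r r' i y →
  Function.Injective (fun j => m j (cc n y)) → (∀ x, cpl (cc n y) x = ∏ j, (x - m j (cc n y))) →
  cc n y 1 ^ 2 ≠ cc n y 2 →
  TH n e r m (ff n e r r' i y) = shC (r' * i) (Bx (TH n e r m y)) ∧
  ∀ k : Fin n, TH n e r m y (k + 1, 0) + TH n e r m y (k, 1) - TH n e r m y (k + 1, 1) ≠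
    TH n e r m y (k, 2)

/-- (80 lines; uses `S_Dn`, `S_Rea`) **The integrals are real.**

Proof.  `S_Rea` with `p = sp (lo^e) pc`, `D = Dn`, `H = Hn`, `τ = 0` for `Hx` at the real points, `∏ ρ`, `∑ α` (sums over `Fin n` and `range n`); `cst = C + P/C` is real as `w 0 e₃ = pw w 0` is the real number `sp … 0`. -/
def S_Ri : Prop := ∀ (n : ℕ) [NeZero n] (e : ℕ) (r r' i : ℤ) (y : E n)
  (m : Fin 4 → (Fin 3 → ℝ) → ℂ), 2 ≤ n → Gd n e r r' i y →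
  Function.Injective (fun j => m j (cc n y)) → (∀ x, cpl (cc n y) x = ∏ j, (x - m j (cc n y))) →
  cc n y 1 ^ 2 ≠ cc n y 2 → ∀ j : ℕ, (fi (TH n e r m y) j).im = 0

/-- (250 lines; uses `S_Dn`, `S_Ts`, `S_Ha`, `S_Jb`, `S_Im`, `S_Dd`, `S_Pw`) **The chain is a system of local coordinates.**

Proof.  Let `O` be open, `O ∩ U` not empty.  One of the open sets `{y ∈ O ∩ U | ± cc y 2 > 0}` is not empty; call it `O₁`, `δ = ±1`.  On `O₁` the data `mn m`, `Dn`, `Hn` (as complex functions), `K' = lo^(e n) lo^(-r) / ∏ κ_k`, `δ` are a `Dta` (`S_Dn` at every point, smoothness as in `S_Ts`).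
`S_Ha` gives `O' ⊆ O₁`; `Dta` and determined functions restrict to `O'`; `S_Jb`: `mn m j` and `Dn 0 k j` are determined on `O'` by `Θ = TH`.  Let `y ∈ O'` and suppose `det (Jf Θ y) = 0`: there is `w ≠ 0` with `Jf Θ y *ᵥ w = 0`, i.e. `dd w Θ_i y = 0` for all `i` (`lf ≠ 0`, `S_Ts`).  So `dd w (mn m j) y = 0`,
`dd w (Dn 0 k j) y = 0`.  `∑_j mn m j = lo` (the sum of the roots is `1`: `S_Pw`), so `dd w lo y = 0`, so `dd w (m j ∘ cc) y = 0` and `dd w (dat 0 k j) y = 0` (quotients by powers of `lo ≠ 0`).  `S_Im` (with `O = U`, the functions `m j ∘ cc`) gives `w = 0`. -/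
def S_Jc : Prop := ∀ (n : ℕ) [NeZero n] (e : ℕ) (r r' c i : ℤ) (m : Fin 4 → (Fin 3 → ℝ) → ℂ)
  (U : Set (E n)), 0 < e → r ≠ 0 → r ≠ n * e → r * r' = 1 + n * c → Rg n e r r' i m U →
  ∀ O : Set (E n), IsOpen O → (O ∩ U).Nonempty → ∃ y ∈ O ∩ U, (Jf (TH n e r m) y).det ≠ 0

/-- (120 lines) **The forms are closed.**

Proof.  `Jf Θ y k j = lf (Θ y) k * ∂_j Θ_k`; symmetry of the second derivative (see `Clo.lean`, `BkJ.lean`); for `k.2 = 1`: `∂_i (ρ⁻¹ ∂_j ρ) = ρ⁻¹ ∂_i ∂_j ρ - ρ⁻² ∂_i ρ ∂_j ρ` is symmetric. -/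
def S_Fc : Prop := ∀ (n : ℕ) [NeZero n] (Θ : E n → Ix n → ℂ) (U : Set (E n)), IsOpen U →
  ContDiffOn ℝ ∞ Θ U → (∀ y ∈ U, ∀ k, Θ y (k, 1) ≠ 0) →
  (∀ i j, ContDiffOn ℝ ∞ (fun y => Jf Θ y i j) U) ∧
  ∀ y ∈ U, ∀ k i j, cpd (fun x => Jf Θ x k i) j y = cpd (fun x => Jf Θ x k j) i y

/-- (200 lines; uses `S_Ch`, `S_Pol`, `S_Nm`, `S_Bh`, `S_P0`, `S_Gd`, `S_Iv`, `S_Li`, `S_dB`, `S_Ts`, `S_Ty`, `S_Ri`, `S_Jc`, `S_Fc`, `S_Fy`) **The system of the abstract theorem.**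

Proof.  `Θ = TH n e r m`, `f = ff`, `D` the polynomial of `S_Li`, `U' = {y ∈ U | det (Jf Θ y) ≠ 0 ∧ eval (Θ y) D ≠ 0}`: open (continuity), dense: `S_Jc`, then `S_Pol` on the open set `{y ∈ U | det (Jf Θ y) ≠ 0}` (`Jf Θ = diagonal (lf) * cJ Θ`).  `J = Jf Θ`, `F j y = (fi (Θ y) j).re`, `a y j = fr (Θ y) j`.
`dF`: `(fi (Θ y) j)` is real on `U` (`S_Ri`), so its complex derivative is the real one (`S_Ch` (4) or `congr` near `y`), and `S_Gd` (`Jf Θ y l k = lf * fderiv`).  `ind`: `S_Li`.  `cas`, `inv`: `S_Iv` (`P0` skew).  `smf`: `Gd.sf`.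
For `y ∈ U`: near `y` `Θ (f y) = shC (r' i) (Bx (Θ y))` (`S_Ty`), `f y` satisfies all hypotheses of `S_Ts` (`gf`, `cc (f y) = cc y`), so `Θ` is smooth at `f y` and by the chain rule (`S_Ch` (3)) `Jf (Θ ∘ f) y = Jf Θ (f y) * rc (Jm f y)`; with `S_dB`: `Jf Θ (f y) * rc (Jm f y) = K * Jf Θ y`, `det K ≠ 0`: `sym`, and
`detf` for `y ∈ U'` (`det` of both sides).  `invF`: `fi (Θ (f y)) j = fi (Θ y) j` by `S_Bh` (four cases).  `card`: `3 n = (n + 2) + 2 (n - 1)`. -/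
def S_Sy : Prop := ∀ (n : ℕ) [NeZero n] (e : ℕ) (r r' c i : ℤ) (m : Fin 4 → (Fin 3 → ℝ) → ℂ)
  (U : Set (E n)), 2 ≤ n → 0 < e → r ≠ 0 → r ≠ n * e → r * r' = 1 + n * c →
  Rg n e r r' i m U → ∃ U' ⊆ U, ∃ (F : Fin (n + 2 + (n - 1)) → E n → ℝ)
    (a : E n → Matrix (Fin (n + 2 + (n - 1))) (Ix n) ℂ),
    Sys (n + 2) (n - 1) U' (ff n e r r' i) (Jf (TH n e r m)) (P0 n) (T0 n) F a

/-- (100 lines; uses `S_GeoY`, `S_Per`) **The map is `T_{I,I}`.**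

Proof.  `S_GeoY`; the relation: `Gd.ok` at `τ = 0`, `ps` for `pv ≠ 0`, `det (Gm … * mk …) ≠ 0`: `det (t - x) ≠ 0` for `pv pc x ≠ 0` and `mk (pol i)` is invertible, see `S_Fy`. -/
def S_Gy : Prop := ∀ (n : ℕ) [NeZero n] (a b e : ℕ) (r r' c i : ℤ), r * r' = 1 + n * c →
  (∀ v w : ℤ → V4, IsTri n e r v w → PN.IsImage a b v fun k => w (k + i)) →
  ∀ y : E n, Gd n e r r' i y → Maps n a b y (ff n e r r' i y)

/-- (100 lines; uses `S_Gn`, `S_Sel`) **The region exists.**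

Proof.  `V`, `m` of `S_Sel`; `U = {y | eval y Q ≠ 0 ∧ eval y Q' ≠ 0 ∧ cc y ∈ V ∧ c₁² ≠ c₂}`.  The set where a nonzero polynomial does not vanish is open and dense (`MvPolynomial.funext_set` or analyticity, see `PN/MA.lean`); `c₁² - c₂` is the polynomial `X (0,1)² - X (0,2)`; the preimage of a dense open set under
the surjective continuous linear (open) map `cc` is dense and open; finite intersections of dense open sets are dense. -/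
def S_Rg : Prop := ∀ (n : ℕ) [NeZero n] (e : ℕ) (r r' c i : ℤ), 3 ≤ n → 0 < e →
  r * r' = 1 + n * c → ∃ (m : Fin 4 → (Fin 3 → ℝ) → ℂ) (U : Set (E n)), Rg n e r r' i m U

/-- (100 lines; uses `S_Rg`, `S_Sy`, `S_Gy`, `S_Abs`, `S_CasN`, `S_Two`) **The theorem.**

Proof.  `n = 2`: `S_Two`.  `n ≥ 3`: `S_CasN` gives `e, r, j`, `i = r j`; `IsCoprime r n` gives `r r' = 1 + n c`; `r ≠ 0`, `r ≠ n e` (coprime to `n ≥ 3`).  `S_Rg`, `S_Sy`, `S_Abs`, `S_Gy`. -/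
def S_QN : Prop := ∀ (n : ℕ) [NeZero n] (a b : ℕ), 2 ≤ n → 0 < a → 0 < b →
  (n ∣ a ∧ Nat.Coprime n b) ∨ (n ∣ b ∧ Nat.Coprime n a) ∨ (n ∣ a + b ∧ Nat.Coprime n a) →
  Liouville n a b (n + 2) (n - 1)

end Pool.Agent.MP62a5ad.QN
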