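import Pool.Agent.Lib.MP_62a5ad_mp.QN.SpecF
import Pool.Agent.Lib.MP_62a5ad_mp.PN.Final

/-!
# MP_62a5ad_mp, QN: the case `n = 2` (Two)
-/

set_option autoImplicit false

namespace Pool.Agent.MP62a5ad.QN

open Matrix
open scoped ContDiff
open Pool.Agent.MP62a5ad.PN (V4 M4 e0)

namespace TwoAux

/-- the numbering of the coordinates -/
private def ph : Ix 2 ≃ Fin 6 := (finProdFinEquiv : Fin 2 × Fin 3 ≃ Fin (2 * 3))

private theorem li {p q : ℕ} {U : Set PN.E6} {f : PN.E6 → PN.E6} {π : PN.E6 → PN.M6}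
    {F : Fin (p + q) → PN.E6 → ℝ} (h : PN.LI p q U f π F) : LI (ι := Fin 6) p q U f π F where
  isOpen := h.isOpen
  dense := h.dense
  smooth := h.smooth
  dense' := h.dense'
  poisson := ⟨h.poisson.smooth, h.poisson.skew, h.poisson.jacobi⟩
  rank := h.rank
  inv := h.inv
  smoothF := h.smoothF
  invF := h.invF
  indep := h.indep
  invol := h.invol
  casimir := h.casimir

private theorem z0 (y : E 2) : (y ∘ ph.symm) 0 = y (0, 0) := rfl
private theorem z1 (y : E 2) : (y ∘ ph.symm) 1 = y (0, 1) := rfl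
private theorem z2 (y : E 2) : (y ∘ ph.symm) 2 = y (0, 2) := rfl
private theorem z3 (y : E 2) : (y ∘ ph.symm) 3 = y (1, 0) := rfl
private theorem z4 (y : E 2) : (y ∘ ph.symm) 4 = y (1, 1) := rfl
private theorem z5 (y : E 2) : (y ∘ ph.symm) 5 = y (1, 2) := rfl

private theorem mono_eq (y : E 2) : PN.mono (y ∘ ph.symm) = mono (cc 2 y) := by
  unfold PN.mono mono cc
  rw [z0, z1, z2]

private theorem x0_eq (y : E 2) : PN.x0 (y ∘ ph.symm) = vert 2 y 1 := by
  unfold PN.x0 vert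
  rw [z3, z4, z5, if_neg (by decide)]

private theorem pol (y : E 2) (v : ℤ → V4) (h : PN.Pol (y ∘ ph.symm) v) : Pol 2 y v := by
  obtain ⟨⟨h1, h2⟩, h3, h4⟩ := h
  refine ⟨⟨?_, ?_⟩, ?_⟩
  · rw [← mono_eq]
    exact h1
  · intro k
    rw [← mono_eq]
    exact h2 k
  · intro j
    fin_cases j
    · exact h3
    · rw [x0_eq] at h4
      exact h4

private theorem maps {a b : ℕ} (y y' : E 2) (h : PN.Maps a b (y ∘ ph.symm) (y' ∘ ph.symm)) :
    Maps 2 a b y y' := by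
  obtain ⟨v, w, v', h1, h2, h3, h4⟩ := h
  rw [mono_eq, mono_eq] at h4
  exact ⟨v, w, v', pol y v h1, pol y' v' h2, h3, h4⟩

end TwoAux

open TwoAux in
theorem tTwo (hRe : S_Re) : S_Two := by
  intro a b ha hb
  obtain ⟨_, U, f, π, F, hLI, hM⟩ := PN.liouville a b ha hb
  refine ⟨rfl, {y : E 2 | y ∘ ph.symm ∈ U}, fun y => f (y ∘ ph.symm) ∘ ph,
    fun y => (π (y ∘ ph.symm)).submatrix ph ph, fun i y => F i (y ∘ ph.symm),
    hRe (Fin 6) (Ix 2) ph 4 1 U f π F (li hLI), ?_⟩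
  intro y hy
  apply maps
  have h1 : (f (y ∘ ph.symm) ∘ ph) ∘ ph.symm = f (y ∘ ph.symm) := by
    funext i
    simp
  rw [h1]
  exact hM _ hy

end Pool.Agent.MP62a5ad.QN
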